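import Pool.Agent.helper74.LG.Defs2

set_option autoImplicit false

namespace Pool.Agent.helper74.LG

open Complex Set Filter Topology MeasureTheory

theorem cl_differentiable (d : ℕ) (ψ : ℝ) : Differentiable ℂ (cl d ψ) := by
  unfold cl clPoly
  have h : Differentiable ℂ (fun x : ℂ =>
      ∑ j ∈ Finset.Icc 1 d, ((2 * Real.cos (j * ψ) / j : ℝ) : ℂ) * x ^ j) := by
    refine Differentiable.fun_sum (fun j _ => ?_)
    fun_prop
  exact Differentiable.mul (by fun_prop) h.cexp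

theorem cl_conj (d : ℕ) (ψ : ℝ) (x : ℂ) :
    cl d ψ ((starRingEnd ℂ) x) = (starRingEnd ℂ) (cl d ψ x) := by
  unfold cl clPoly
  rw [map_mul, ← Complex.exp_conj, map_sum]
  simp only [map_add, map_sub, map_mul, map_one, map_pow, Complex.conj_ofReal, map_ofNat]

theorem CG_fac (ψ : ℝ) (x : ℂ) :
    1 - 2 * (Real.cos ψ : ℂ) * x + x ^ 2 = (x - exp (ψ * I)) * (x - exp (-(ψ * I))) := by
  have h1 : exp (ψ * I) * exp (-(ψ * I)) = 1 := by
    rw [← Complex.exp_add, add_neg_cancel, Complex.exp_zero]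
  have h2 : (2 : ℂ) * (Real.cos ψ : ℂ) = exp (ψ * I) + exp (-(ψ * I)) := by
    rw [Complex.ofReal_cos, Complex.two_cos, neg_mul]
  linear_combination (-x) * h2 - h1

theorem cl_eq_zero_iff (d : ℕ) (ψ : ℝ) (x : ℂ) :
    cl d ψ x = 0 ↔ x = exp (ψ * I) ∨ x = exp (-(ψ * I)) := by
  unfold cl
  rw [CG_fac, mul_eq_zero, or_iff_left (Complex.exp_ne_zero _), mul_eq_zero, sub_eq_zero,
    sub_eq_zero]

/-- the primary factor -/
theorem CG_prim (d : ℕ) {u : ℂ} (hu : ‖u‖ ≤ 1 / 2) :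
    ∃ h : ℂ, (1 - u) * exp (∑ j ∈ Finset.Icc 1 d, u ^ j / j) = exp h ∧ ‖h‖ ≤ 2 * ‖u‖ ^ (d + 1) := by
  have hlt : ‖-u‖ < 1 := by rw [norm_neg]; linarith
  refine ⟨log (1 + -u) - logTaylor (d + 1) (-u), ?_, ?_⟩
  · have hne : (1 : ℂ) + -u ≠ 0 := by
      intro h
      have : u = 1 := by linear_combination -h
      rw [this, norm_one] at hu
      norm_num at hu
    rw [sub_eq_add_neg 1 u, sub_eq_add_neg (log (1 + -u)), Complex.exp_add, Complex.exp_log hne]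
    congr 2
    unfold logTaylor
    rw [← Finset.sum_neg_distrib, Finset.range_eq_Ico, Finset.sum_eq_sum_Ico_succ_bot (by omega)]
    have : Finset.Ico (0 + 1) (d + 1) = Finset.Icc 1 d := by
      ext j; simp only [Finset.mem_Ico, Finset.mem_Icc]; omega
    rw [this]
    simp only [pow_zero, Nat.cast_zero, div_zero, neg_zero, zero_add]
    refine Finset.sum_congr rfl (fun j _ => ?_)
    rw [neg_pow u j]
    have h2 : (-1 : ℂ) ^ (j + 1) * ((-1) ^ j * u ^ j) = -u ^ j := by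
      rw [pow_succ, mul_neg_one, neg_mul, ← mul_assoc, ← mul_pow, neg_one_mul, neg_neg, one_pow,
        one_mul]
    rw [h2, neg_div, neg_neg]
  · have h := norm_log_sub_logTaylor_le d hlt
    rw [norm_neg] at h
    refine h.trans ?_
    have h1 : (1 - ‖u‖)⁻¹ ≤ 2 := by
      rw [inv_le_comm₀ (by linarith) (by norm_num)]
      linarith
    have h2 : (1 : ℝ) ≤ (d : ℝ) + 1 := by
      have : (0 : ℝ) ≤ d := Nat.cast_nonneg d
      linarith
    calc ‖u‖ ^ (d + 1) * (1 - ‖u‖)⁻¹ / (d + 1) ≤ ‖u‖ ^ (d + 1) * (1 - ‖u‖)⁻¹ :=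
          div_le_self (mul_nonneg (by positivity) (by
            apply inv_nonneg.mpr; linarith)) h2
      _ ≤ ‖u‖ ^ (d + 1) * 2 := mul_le_mul_of_nonneg_left h1 (by positivity)
      _ = 2 * ‖u‖ ^ (d + 1) := by ring

theorem CG_near (d : ℕ) (ψ : ℝ) {x : ℂ} (hx : ‖x‖ ≤ 1 / 2) :
    ∃ h : ℂ, cl d ψ x = exp h ∧ ‖h‖ ≤ 4 * ‖x‖ ^ (d + 1) := by
  have n1 : ‖x * exp (ψ * I)‖ = ‖x‖ := by rw [norm_mul, Complex.norm_exp_ofReal_mul_I, mul_one]
  have n2 : ‖x * exp (-(ψ * I))‖ = ‖x‖ := by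
    have : -((ψ : ℂ) * I) = ((-ψ : ℝ) : ℂ) * I := by push_cast; ring
    rw [this, norm_mul, Complex.norm_exp_ofReal_mul_I, mul_one]
  obtain ⟨h1, e1, b1⟩ := CG_prim d (u := x * exp (ψ * I)) (by rw [n1]; exact hx)
  obtain ⟨h2, e2, b2⟩ := CG_prim d (u := x * exp (-(ψ * I))) (by rw [n2]; exact hx)
  rw [n1] at b1
  rw [n2] at b2
  refine ⟨h1 + h2, ?_, ?_⟩
  · rw [Complex.exp_add, ← e1, ← e2]
    unfold cl clPoly
    have hp : exp (ψ * I) * exp (-(ψ * I)) = 1 := by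
      rw [← Complex.exp_add, add_neg_cancel, Complex.exp_zero]
    have hc : (2 : ℂ) * (Real.cos ψ : ℂ) = exp (ψ * I) + exp (-(ψ * I)) := by
      rw [Complex.ofReal_cos, Complex.two_cos, neg_mul]
    have hq : 1 - 2 * (Real.cos ψ : ℂ) * x + x ^ 2 =
        (1 - x * exp (ψ * I)) * (1 - x * exp (-(ψ * I))) := by
      linear_combination (-x) * hc - x ^ 2 * hp
    have hs : ∑ j ∈ Finset.Icc 1 d, ((2 * Real.cos (j * ψ) / j : ℝ) : ℂ) * x ^ j =
        ∑ j ∈ Finset.Icc 1 d, (x * exp (ψ * I)) ^ j / j +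
        ∑ j ∈ Finset.Icc 1 d, (x * exp (-(ψ * I))) ^ j / j := by
      rw [← Finset.sum_add_distrib]
      refine Finset.sum_congr rfl (fun j _ => ?_)
      rw [mul_pow, mul_pow, ← Complex.exp_nat_mul, ← Complex.exp_nat_mul]
      have : (2 : ℂ) * (Real.cos (j * ψ) : ℂ) = exp (j * (ψ * I)) + exp (j * -(ψ * I)) := by
        rw [Complex.ofReal_cos, Complex.two_cos]
        congr 2
        · push_cast; ring
        · push_cast; ring
      push_cast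
      have h3 : (2 : ℂ) * Complex.cos (j * ψ) = exp (j * (ψ * I)) + exp (j * -(ψ * I)) := by
        rw [← this]
        push_cast
        rfl
      rw [h3]
      ring
    rw [hq, hs, Complex.exp_add]
    ring
  · exact (norm_add_le _ _).trans (by linarith)

theorem CG_far (d : ℕ) (ψ : ℝ) {x : ℂ} (hx : 1 / 2 ≤ ‖x‖) (hd : 1 ≤ d) :
    ‖cl d ψ x‖ ≤ Real.exp ((2 + 2 * d) * 2 ^ d * ‖x‖ ^ d) := by
  have hx0 : 0 ≤ ‖x‖ := norm_nonneg x
  have hpow : ∀ j ∈ Finset.Icc 1 d, ‖x‖ ^ j ≤ 2 ^ d * ‖x‖ ^ d := by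
    intro j hj
    have hj' := Finset.mem_Icc.mp hj
    obtain ⟨k, rfl⟩ := Nat.exists_eq_add_of_le hj'.2
    have h1 : 1 ≤ 2 ^ k * ‖x‖ ^ k := by
      rw [← mul_pow]
      exact one_le_pow₀ (by linarith)
    calc ‖x‖ ^ j = ‖x‖ ^ j * 1 := (mul_one _).symm
      _ ≤ ‖x‖ ^ j * (2 ^ k * ‖x‖ ^ k) := mul_le_mul_of_nonneg_left h1 (by positivity)
      _ = 1 * (2 ^ k * ‖x‖ ^ (j + k)) := by rw [pow_add]; ring
      _ ≤ 2 ^ j * (2 ^ k * ‖x‖ ^ (j + k)) :=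
          mul_le_mul_of_nonneg_right (one_le_pow₀ (by norm_num)) (by positivity)
      _ = 2 ^ (j + k) * ‖x‖ ^ (j + k) := by rw [pow_add 2 j k]; ring
  have hq : ‖1 - 2 * (Real.cos ψ : ℂ) * x + x ^ 2‖ ≤ Real.exp (2 * ‖x‖) := by
    have h1 : ‖1 - 2 * (Real.cos ψ : ℂ) * x + x ^ 2‖ ≤ 1 + 2 * ‖x‖ + ‖x‖ ^ 2 := by
      refine (norm_add_le _ _).trans ?_
      rw [norm_pow]
      have h2 : ‖1 - 2 * (Real.cos ψ : ℂ) * x‖ ≤ 1 + 2 * ‖x‖ := by
        refine (norm_sub_le _ _).trans ?_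
        rw [norm_one, norm_mul, norm_mul, Complex.norm_real, Real.norm_eq_abs, Complex.norm_ofNat]
        have := Real.abs_cos_le_one ψ
        have h3 : 2 * |Real.cos ψ| * ‖x‖ ≤ 2 * 1 * ‖x‖ :=
          mul_le_mul_of_nonneg_right (by linarith) hx0
        linarith
      linarith
    refine h1.trans ?_
    have h4 : 1 + ‖x‖ ≤ Real.exp ‖x‖ := by
      have := Real.add_one_le_exp ‖x‖
      linarith
    have h5 : (1 + ‖x‖) ^ 2 ≤ (Real.exp ‖x‖) ^ 2 := pow_le_pow_left₀ (by positivity) h4 2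
    rw [← Real.exp_nat_mul] at h5
    push_cast at h5
    calc 1 + 2 * ‖x‖ + ‖x‖ ^ 2 = (1 + ‖x‖) ^ 2 := by ring
      _ ≤ _ := h5
  have hs : ‖clPoly d ψ x‖ ≤ 2 * d * (2 ^ d * ‖x‖ ^ d) := by
    unfold clPoly
    refine (norm_sum_le _ _).trans ?_
    have hterm : ∀ j ∈ Finset.Icc 1 d, ‖((2 * Real.cos (j * ψ) / j : ℝ) : ℂ) * x ^ j‖ ≤
        2 * (2 ^ d * ‖x‖ ^ d) := by
      intro j hj
      have hj1 : (1 : ℝ) ≤ j := by exact_mod_cast (Finset.mem_Icc.mp hj).1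
      rw [norm_mul, norm_pow, Complex.norm_real, Real.norm_eq_abs, abs_div, abs_mul, abs_two,
        Nat.abs_cast]
      have h6 : 2 * |Real.cos (j * ψ)| / j ≤ 2 := by
        rw [div_le_iff₀ (by linarith)]
        have := Real.abs_cos_le_one (j * ψ)
        nlinarith
      exact mul_le_mul h6 (hpow j hj) (by positivity) (by norm_num)
    refine (Finset.sum_le_sum hterm).trans ?_
    rw [Finset.sum_const, Nat.card_Icc, nsmul_eq_mul]
    simp only [Nat.add_sub_cancel]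
    exact le_of_eq (by ring)
  unfold cl
  rw [norm_mul]
  have he : ‖exp (clPoly d ψ x)‖ ≤ Real.exp (2 * d * (2 ^ d * ‖x‖ ^ d)) := by
    rw [Complex.norm_exp]
    exact Real.exp_le_exp.mpr ((Complex.re_le_norm _).trans hs)
  have h7 : ‖x‖ ≤ 2 ^ d * ‖x‖ ^ d := by
    have := hpow 1 (Finset.mem_Icc.mpr ⟨le_rfl, hd⟩)
    rwa [pow_one] at this
  calc ‖1 - 2 * (Real.cos ψ : ℂ) * x + x ^ 2‖ * ‖exp (clPoly d ψ x)‖
      ≤ Real.exp (2 * ‖x‖) * Real.exp (2 * d * (2 ^ d * ‖x‖ ^ d)) :=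
        mul_le_mul hq he (norm_nonneg _) (Real.exp_pos _).le
    _ = Real.exp (2 * ‖x‖ + 2 * d * (2 ^ d * ‖x‖ ^ d)) := (Real.exp_add _ _).symm
    _ ≤ Real.exp ((2 + 2 * d) * 2 ^ d * ‖x‖ ^ d) := by
        apply Real.exp_le_exp.mpr
        nlinarith

/-- Global bounds: `cl d ψ x = exp (- ∑_{j > d} (2 cos (j ψ) / j) x^j)` for `|x| < 1`. -/
theorem cl_facts (d : ℕ) (hd : 2 ≤ d) (ψ : ℝ) : ∃ C : ℝ, 0 < C ∧ ∀ x : ℂ,
    ‖cl d ψ x‖ ≤ Real.exp (C * ‖x‖ ^ (d + 1)) ∧ ‖cl d ψ x‖ ≤ Real.exp (C * ‖x‖ ^ d) ∧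
    ‖cl d ψ x - 1‖ ≤ C * ‖x‖ ^ (d + 1) * Real.exp (C * ‖x‖ ^ (d + 1)) := by
  set C₁ : ℝ := (2 + 2 * d) * 2 ^ d with hC₁
  have hd0 : (0 : ℝ) ≤ d := Nat.cast_nonneg d
  have h2d : (1 : ℝ) ≤ 2 ^ d := one_le_pow₀ (by norm_num)
  have hC1a : 2 * 2 ^ d ≤ C₁ := by
    rw [hC₁]
    exact mul_le_mul_of_nonneg_right (by linarith) (by positivity)
  have hC1 : 2 ≤ C₁ := by linarith
  refine ⟨2 * C₁, by linarith, fun x => ?_⟩
  have hx0 : 0 ≤ ‖x‖ := norm_nonneg x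
  rcases le_total ‖x‖ (1 / 2) with hx | hx
  · obtain ⟨h, e, b⟩ := CG_near d ψ hx
    have hle : 4 * ‖x‖ ^ (d + 1) ≤ 2 * C₁ * ‖x‖ ^ (d + 1) :=
      mul_le_mul_of_nonneg_right (by linarith) (by positivity)
    have hle2 : ‖x‖ ^ (d + 1) ≤ ‖x‖ ^ d := pow_le_pow_of_le_one hx0 (by linarith) (by omega)
    have n1 : ‖cl d ψ x‖ ≤ Real.exp (2 * C₁ * ‖x‖ ^ (d + 1)) := by
      rw [e, Complex.norm_exp]
      exact Real.exp_le_exp.mpr ((Complex.re_le_norm _).trans (b.trans hle))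
    refine ⟨n1, n1.trans (Real.exp_le_exp.mpr
      (mul_le_mul_of_nonneg_left hle2 (by linarith))), ?_⟩
    rw [e]
    have h1 : ‖exp h - 1‖ ≤ ‖h‖ * Real.exp ‖h‖ := by
      have := Complex.norm_exp_sub_sum_le_norm_mul_exp h 1
      simpa using this
    refine h1.trans ?_
    exact mul_le_mul (b.trans hle) (Real.exp_le_exp.mpr (b.trans hle)) (Real.exp_pos _).le
      (by positivity)
  · have hf := CG_far d ψ hx (by omega)
    have hle : ‖x‖ ^ d ≤ 2 * ‖x‖ ^ (d + 1) := by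
      rw [pow_succ]
      have : 0 ≤ ‖x‖ ^ d := by positivity
      nlinarith
    have n1 : ‖cl d ψ x‖ ≤ Real.exp (2 * C₁ * ‖x‖ ^ (d + 1)) := by
      refine hf.trans (Real.exp_le_exp.mpr ?_)
      have := mul_le_mul_of_nonneg_left hle (by linarith : 0 ≤ C₁)
      linarith
    refine ⟨n1, ?_, ?_⟩
    · refine hf.trans (Real.exp_le_exp.mpr ?_)
      have : 0 ≤ C₁ * ‖x‖ ^ d := by positivity
      linarith
    · have h1 : ‖cl d ψ x - 1‖ ≤ 2 * Real.exp (2 * C₁ * ‖x‖ ^ (d + 1)) := by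
        refine (norm_sub_le _ _).trans ?_
        rw [norm_one]
        have : 1 ≤ Real.exp (2 * C₁ * ‖x‖ ^ (d + 1)) := Real.one_le_exp (by positivity)
        linarith
      refine h1.trans ?_
      refine mul_le_mul_of_nonneg_right ?_ (Real.exp_pos _).le
      have h2 : 1 ≤ 2 ^ (d + 1) * ‖x‖ ^ (d + 1) := by
        rw [← mul_pow]
        exact one_le_pow₀ (by linarith)
      have h3 : (2 : ℝ) ^ (d + 1) = 2 * 2 ^ d := by rw [pow_succ]; ring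
      calc (2 : ℝ) = 2 * 1 := by ring
        _ ≤ 2 * (2 ^ (d + 1) * ‖x‖ ^ (d + 1)) := by linarith
        _ = 2 * (2 * 2 ^ d) * ‖x‖ ^ (d + 1) := by rw [h3]; ring
        _ ≤ 2 * C₁ * ‖x‖ ^ (d + 1) := mul_le_mul_of_nonneg_right (by linarith) (by positivity)

end Pool.Agent.helper74.LG
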