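import Pool.Agent.helper74.LG.CF

set_option autoImplicit false

namespace Pool.Agent.helper74.LG

open Complex Set Filter Topology MeasureTheory

theorem CS_lower {t Tj : ℝ} {j : ℕ} (ht : 2 ≤ t) (hT : t ^ (8 ^ j) ≤ Tj) :
    t * 4 ^ j ≤ Tj := by
  refine le_trans ?_ hT
  have h8 : 1 + 7 * j ≤ 8 ^ j := by
    induction j with
    | zero => simp
    | succ k ih =>
      have ih' := ih (le_trans (pow_le_pow_right₀ (by linarith)
        (Nat.pow_le_pow_right (by norm_num) (Nat.le_succ k))) hT)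
      rw [pow_succ]; omega
  have h1 : t ^ (1 + 7 * j) ≤ t ^ (8 ^ j) := pow_le_pow_right₀ (by linarith) h8
  refine le_trans ?_ h1
  rw [pow_add, pow_one, pow_mul]
  have h7 : (4 : ℝ) ≤ t ^ 7 := by
    calc (4 : ℝ) ≤ 2 ^ 7 := by norm_num
      _ ≤ t ^ 7 := pow_le_pow_left₀ (by norm_num) ht 7
  have := pow_le_pow_left₀ (by norm_num) h7 j
  nlinarith [pow_pos (show (0 : ℝ) < 4 by norm_num) j]

theorem CS_A {t ε : ℝ} {T A : ℕ → ℝ} (ht : 2 ≤ t) (hε : 0 < ε)
    (hT : ∀ j, t ^ (8 ^ j) ≤ T j) (hsp : ∀ j, T j ^ 8 ≤ T (j + 1)) (hA0 : A 0 = 1)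
    (hA : ∀ j, A (j + 1) ≤ T j ^ ε) (j : ℕ) : A j ≤ T j ^ ε := by
  have h1 : ∀ j, 1 ≤ T j := fun j =>
    le_trans (one_le_pow₀ (by linarith)) (hT j)
  rcases j with _ | j
  · rw [hA0]
    exact Real.one_le_rpow (h1 0) hε.le
  · refine (hA j).trans (Real.rpow_le_rpow (by linarith [h1 j]) ?_ hε.le)
    refine le_trans ?_ (hsp j)
    exact le_self_pow₀ (h1 j) (by norm_num)

/-- Sums over the clusters. -/
theorem cfg_sum (d : ℕ) (ψ Mb Ma ε : ℝ) (h : CC d ψ Mb Ma) (hε : 0 < ε) :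
    ∃ t₀ C : ℝ, 2 ≤ t₀ ∧ 0 < C ∧ ∀ t, t₀ ≤ t → ∀ μ T A M, Cfg d (qc d ψ) Mb Ma t μ T A M →
      (∀ r : ℝ, 0 ≤ r → Summable
        (fun j => (μ j : ℝ) * min ((r / T j) ^ (d + 1)) ((r / T j) ^ d))) ∧
      (∀ r : ℝ, 1 ≤ r → ∑' j, (μ j : ℝ) * min ((r / T j) ^ (d + 1)) ((r / T j) ^ d) ≤
        C * r ^ ((d : ℝ) + ε)) ∧
      (∀ r : ℝ, 0 ≤ r → Summable (fun j => (μ j : ℝ) * (r / T j) ^ (d + 1)) ∧
        ∑' j, (μ j : ℝ) * (r / T j) ^ (d + 1) ≤ C * r ^ (d + 1) / Real.sqrt t) := by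
  set e : ℝ := min (ε / 2) (1 / 2) with he
  have he0 : 0 < e := lt_min (by linarith) (by norm_num)
  have he1 : e ≤ 1 / 2 := min_le_right _ _
  have he2 : 2 * e ≤ ε := by
    have := min_le_left (ε / 2) (1 / 2); linarith
  obtain ⟨t₀, ht₀, hg⟩ := cfg_growth d ψ Mb Ma e h he0
  have hMa : 0 < Ma := h.Mb0.trans_le h.MbMa
  set g : ℝ := (4 : ℝ) ^ (-e) with hgdef
  have hg0 : 0 < g := Real.rpow_pos_of_pos (by norm_num) _
  have hg1 : g < 1 := Real.rpow_lt_one_of_one_lt_of_neg (by norm_num) (by linarith)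
  refine ⟨t₀, 2 * Ma + Ma * (1 - g)⁻¹, ht₀, by
    have : 0 < (1 - g)⁻¹ := inv_pos.2 (by linarith)
    positivity, ?_⟩
  intro t ht μ T A M hc
  obtain ⟨hA0, -, hT, hAe, -⟩ := hg t ht μ T A M hc
  have ht2 : 2 ≤ t := ht₀.trans ht
  have hAj := CS_A ht2 he0 hT hc.sp hc.A0 hAe
  have h1 : ∀ j, 1 ≤ T j := fun j => le_trans (one_le_pow₀ (by linarith)) (hT j)
  have hT0 : ∀ j, 0 < T j := fun j => by linarith [h1 j]
  have hlow : ∀ j, t * 4 ^ j ≤ T j := fun j => CS_lower ht2 (hT j)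
  have hM0 : ∀ j, 0 < M j := fun j => h.Mb0.trans_le (hc.Mlo j)
  have hst : 0 < Real.sqrt t := Real.sqrt_pos.2 (by linarith)
  -- the second kind of sums
  have key3 : ∀ r : ℝ, 0 ≤ r → ∀ j, (μ j : ℝ) * (r / T j) ^ (d + 1) ≤
      Ma * r ^ (d + 1) / Real.sqrt t * (1 / 2) ^ j := by
    intro r hr j
    have hTj := hT0 j
    have e1 : (μ j : ℝ) * (r / T j) ^ (d + 1) = M j * r ^ (d + 1) * (A j / T j) := by
      rw [hc.mu j, div_pow]
      field_simp
      ring
    rw [e1]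
    have e2 : A j / T j ≤ 1 / Real.sqrt (T j) := by
      rw [div_le_div_iff₀ hTj (Real.sqrt_pos.2 hTj), one_mul]
      have : A j ≤ Real.sqrt (T j) := by
        rw [Real.sqrt_eq_rpow]
        exact (hAj j).trans (Real.rpow_le_rpow_of_exponent_le (h1 j) he1)
      calc A j * Real.sqrt (T j) ≤ Real.sqrt (T j) * Real.sqrt (T j) :=
            mul_le_mul_of_nonneg_right this (Real.sqrt_nonneg _)
        _ = T j := Real.mul_self_sqrt hTj.le
    have e3 : Real.sqrt t * 2 ^ j ≤ Real.sqrt (T j) := by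
      have : Real.sqrt t * 2 ^ j = Real.sqrt (t * 4 ^ j) := by
        rw [Real.sqrt_mul (by linarith)]
        congr 1
        rw [show (4 : ℝ) ^ j = (2 ^ j) ^ 2 by rw [← pow_mul, mul_comm, pow_mul]; norm_num,
          Real.sqrt_sq (by positivity)]
      rw [this]
      exact Real.sqrt_le_sqrt (hlow j)
    have e4 : 1 / Real.sqrt (T j) ≤ 1 / (Real.sqrt t * 2 ^ j) :=
      one_div_le_one_div_of_le (by positivity) e3
    have e5 : M j * r ^ (d + 1) ≤ Ma * r ^ (d + 1) :=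
      mul_le_mul_of_nonneg_right (hc.Mhi j) (by positivity)
    calc M j * r ^ (d + 1) * (A j / T j) ≤ Ma * r ^ (d + 1) * (1 / (Real.sqrt t * 2 ^ j)) :=
          mul_le_mul e5 (e2.trans e4) (div_nonneg (hA0 j).le hTj.le) (by positivity)
      _ = Ma * r ^ (d + 1) / Real.sqrt t * (1 / 2) ^ j := by
          rw [one_div_pow]; field_simp
  have hgeo : HasSum (fun j : ℕ => ((1 : ℝ) / 2) ^ j) 2 := by
    simpa using hasSum_geometric_two
  have hsum3 : ∀ r : ℝ, 0 ≤ r → Summable (fun j => (μ j : ℝ) * (r / T j) ^ (d + 1)) := by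
    intro r hr
    refine Summable.of_nonneg_of_le (fun j => ?_) (key3 r hr) (hgeo.summable.mul_left _)
    have := hT0 j
    positivity
  have key2 : ∀ r : ℝ, 1 ≤ r → ∀ j,
      (μ j : ℝ) * min ((r / T j) ^ (d + 1)) ((r / T j) ^ d) ≤
        Ma * r ^ ((d : ℝ) + ε) * g ^ j := by
    intro r hr j
    have hTj := hT0 j
    have hr0 : 0 < r := by linarith
    have hx0 : 0 < r / T j := by positivity
    have e1 : min ((r / T j) ^ (d + 1)) ((r / T j) ^ d) =
        (r / T j) ^ d * min (r / T j) 1 := by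
      rw [mul_min_of_nonneg _ _ (by positivity), mul_one, pow_succ]
    have e2 : min (r / T j) 1 ≤ (r / T j) ^ (2 * e) := by
      rcases le_total (r / T j) 1 with hx | hx
      · rw [min_eq_left hx]
        have := Real.rpow_le_rpow_of_exponent_ge hx0 hx (show 2 * e ≤ 1 by linarith)
        rwa [Real.rpow_one] at this
      · rw [min_eq_right hx]
        exact Real.one_le_rpow hx (by linarith)
    have e3 : (μ j : ℝ) * (r / T j) ^ d = M j * r ^ d * A j := by
      rw [hc.mu j, div_pow]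
      field_simp
    have e4 : A j * (r / T j) ^ (2 * e) ≤ r ^ ε * g ^ j := by
      rw [Real.div_rpow hr0.le hTj.le]
      have f1 : A j ≤ T j ^ e := hAj j
      have f2 : T j ^ (2 * e) = T j ^ e * T j ^ e := by
        rw [← Real.rpow_add hTj]; congr 1; ring
      have f3 : 0 < T j ^ e := Real.rpow_pos_of_pos hTj _
      have f4 : r ^ (2 * e) ≤ r ^ ε := Real.rpow_le_rpow_of_exponent_le hr he2
      have f5 : (4 : ℝ) ^ j ≤ T j := by
        refine le_trans ?_ (hlow j)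
        nlinarith [pow_pos (show (0 : ℝ) < 4 by norm_num) j]
      have f6 : (T j ^ e)⁻¹ ≤ g ^ j := by
        have : g ^ j = ((4 ^ j : ℝ) ^ e)⁻¹ := by
          rw [hgdef, ← Real.rpow_natCast, ← Real.rpow_mul (by norm_num), ← Real.rpow_natCast 4 j,
            ← Real.rpow_mul (by norm_num), ← Real.rpow_neg (by norm_num)]
          congr 1; ring
        rw [this]
        exact inv_anti₀ (Real.rpow_pos_of_pos (by positivity) _)
          (Real.rpow_le_rpow (by positivity) f5 he0.le)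
      calc A j * (r ^ (2 * e) / T j ^ (2 * e)) ≤ T j ^ e * (r ^ (2 * e) / T j ^ (2 * e)) :=
            mul_le_mul_of_nonneg_right f1 (by positivity)
        _ = r ^ (2 * e) * (T j ^ e)⁻¹ := by rw [f2]; field_simp
        _ ≤ r ^ ε * g ^ j := mul_le_mul f4 f6 (by positivity) (by positivity)
    calc (μ j : ℝ) * min ((r / T j) ^ (d + 1)) ((r / T j) ^ d)
        = M j * r ^ d * (A j * min (r / T j) 1) := by rw [e1, ← mul_assoc, e3]; ring
      _ ≤ M j * r ^ d * (r ^ ε * g ^ j) := by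
          refine mul_le_mul_of_nonneg_left ?_ (mul_nonneg (hM0 j).le (by positivity))
          exact le_trans (mul_le_mul_of_nonneg_left e2 (hA0 j).le) e4
      _ ≤ Ma * r ^ d * (r ^ ε * g ^ j) := by
          refine mul_le_mul_of_nonneg_right ?_ (by positivity)
          exact mul_le_mul_of_nonneg_right (hc.Mhi j) (by positivity)
      _ = Ma * r ^ ((d : ℝ) + ε) * g ^ j := by
          rw [Real.rpow_add hr0, Real.rpow_natCast]; ring
  have hsum2 : ∀ r : ℝ, 0 ≤ r → Summable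
        (fun j => (μ j : ℝ) * min ((r / T j) ^ (d + 1)) ((r / T j) ^ d)) := by
    intro r hr
    refine Summable.of_nonneg_of_le (fun j => ?_) (fun j => ?_) (hsum3 r hr)
    · have := hT0 j
      positivity
    · exact mul_le_mul_of_nonneg_left (min_le_left _ _) (by positivity)
  refine ⟨hsum2, ?_, ?_⟩
  · intro r hr
    have hr0 : (0 : ℝ) ≤ r := by linarith
    have hgs := summable_geometric_of_lt_one hg0.le hg1
    calc ∑' j, (μ j : ℝ) * min ((r / T j) ^ (d + 1)) ((r / T j) ^ d)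
        ≤ ∑' j, Ma * r ^ ((d : ℝ) + ε) * g ^ j :=
          (hsum2 r hr0).tsum_le_tsum (key2 r hr) (hgs.mul_left _)
      _ = Ma * (1 - g)⁻¹ * r ^ ((d : ℝ) + ε) := by
          rw [tsum_mul_left, tsum_geometric_of_lt_one hg0.le hg1]; ring
      _ ≤ _ := by
          have : 0 ≤ r ^ ((d : ℝ) + ε) := by positivity
          nlinarith
  · intro r hr
    refine ⟨hsum3 r hr, ?_⟩
    calc ∑' j, (μ j : ℝ) * (r / T j) ^ (d + 1)
        ≤ ∑' j, Ma * r ^ (d + 1) / Real.sqrt t * (1 / 2) ^ j :=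
          (hsum3 r hr).tsum_le_tsum (key3 r hr) (hgeo.summable.mul_left _)
      _ = 2 * Ma * r ^ (d + 1) / Real.sqrt t := by
          rw [tsum_mul_left, hgeo.tsum_eq]; ring
      _ ≤ _ := by
          refine div_le_div_of_nonneg_right ?_ hst.le
          refine mul_le_mul_of_nonneg_right ?_ (by positivity)
          have : 0 < (1 - g)⁻¹ := inv_pos.2 (by linarith)
          have := mul_pos hMa this
          linarith

end Pool.Agent.helper74.LG
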