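import Pool.Agent.helper74.LG.EL
import Pool.Agent.helper74.LG.CG
import Pool.Agent.helper74.LG.CS

set_option autoImplicit false

namespace Pool.Agent.helper74.LG

open Complex Set Filter Topology MeasureTheory

theorem EC_T {d : ℕ} {q Mb Ma t : ℝ} {μ : ℕ → ℕ} {T A M : ℕ → ℝ} (ht : 2 ≤ t)
    (h : Cfg d q Mb Ma t μ T A M) : ∀ j, 2 ≤ T j := by
  intro j
  induction j with
  | zero => exact ht.trans h.t0
  | succ j ih =>
    refine ih.trans (le_trans ?_ (h.sp j))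
    exact le_self_pow₀ (by linarith) (by norm_num)

/-- the majorant -/
noncomputable def EC_u (d : ℕ) (μ : ℕ → ℕ) (T : ℕ → ℝ) (r : ℝ) (j : ℕ) : ℝ :=
  (μ j : ℝ) * min ((r / T j) ^ (d + 1)) ((r / T j) ^ d)

theorem EC_bound {d : ℕ} {ψ s C : ℝ} (hC : 0 < C)
    (hel : ∀ w : ℂ, w.im ∈ Ang ψ s →
      ‖elog d ψ w‖ ≤ C * Real.exp ((d + 1) * w.re) ∧ ‖elog d ψ w‖ ≤ C * Real.exp (d * w.re))
    (μ : ℕ → ℕ) (T : ℕ → ℝ) (hT : ∀ j, 2 ≤ T j) {w : ℂ} (hw : w.im ∈ Ang ψ s) {r : ℝ}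
    (hr : Real.exp w.re ≤ r) (j : ℕ) :
    ‖(μ j : ℂ) * elog d ψ (w - Real.log (T j))‖ ≤ C * EC_u d μ T r j := by
  have hTj : 0 < T j := by linarith [hT j]
  have him : (w - (Real.log (T j) : ℂ)).im = w.im := by simp
  have hre : (w - (Real.log (T j) : ℂ)).re = w.re - Real.log (T j) := by simp
  obtain ⟨h1, h2⟩ := hel (w - Real.log (T j)) (by rw [him]; exact hw)
  have he : Real.exp (w.re - Real.log (T j)) = Real.exp w.re / T j := by
    rw [Real.exp_sub, Real.exp_log hTj]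
  have hq : Real.exp w.re / T j ≤ r / T j := div_le_div_of_nonneg_right hr hTj.le
  have hq0 : 0 ≤ Real.exp w.re / T j := by positivity
  have e1 : Real.exp (((d : ℝ) + 1) * (w - (Real.log (T j) : ℂ)).re) ≤ (r / T j) ^ (d + 1) := by
    rw [hre]
    have : ((d : ℝ) + 1) * (w.re - Real.log (T j)) =
        ((d + 1 : ℕ) : ℝ) * (w.re - Real.log (T j)) := by push_cast; ring
    rw [this, Real.exp_nat_mul, he]
    exact pow_le_pow_left₀ hq0 hq _
  have e2 : Real.exp ((d : ℝ) * (w - (Real.log (T j) : ℂ)).re) ≤ (r / T j) ^ d := by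
    rw [hre, Real.exp_nat_mul, he]
    exact pow_le_pow_left₀ hq0 hq _
  rw [norm_mul, norm_natCast, EC_u]
  have h3 : ‖elog d ψ (w - Real.log (T j))‖ ≤ C * min ((r / T j) ^ (d + 1)) ((r / T j) ^ d) := by
    rw [mul_min_of_nonneg _ _ hC.le]
    exact le_min (h1.trans (mul_le_mul_of_nonneg_left e1 hC.le))
      (h2.trans (mul_le_mul_of_nonneg_left e2 hC.le))
  calc (μ j : ℝ) * ‖elog d ψ (w - Real.log (T j))‖
      ≤ (μ j : ℝ) * (C * min ((r / T j) ^ (d + 1)) ((r / T j) ^ d)) :=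
        mul_le_mul_of_nonneg_left h3 (Nat.cast_nonneg _)
    _ = C * ((μ j : ℝ) * min ((r / T j) ^ (d + 1)) ((r / T j) ^ d)) := by ring

theorem EC_ang {ψ t' θ θ' : ℝ} (h : θ ∈ Ang ψ t') (hθ : |θ' - θ| < t' / 2) :
    θ' ∈ Ang ψ (t' / 2) := by
  rcases h with h | h
  · left
    have := abs_sub_abs_le_abs_sub θ' θ
    linarith
  · right
    have h1 : |θ' - Real.pi| ≤ |θ' - θ| + |θ - Real.pi| := abs_sub_le _ _ _
    linarith

/-- The logarithm of the infinite product. -/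
theorem Kcl_facts (d : ℕ) (ψ Mb Ma ε t' : ℝ) (h : CC d ψ Mb Ma) (hε : 0 < ε) (ht' : 0 < t') :
    ∃ t₀ C : ℝ, 2 ≤ t₀ ∧ 0 < C ∧ ∀ t, t₀ ≤ t → ∀ μ T A M, Cfg d (qc d ψ) Mb Ma t μ T A M →
      ∀ w : ℂ, w.im ∈ Ang ψ t' →
      exp (Kcl d ψ μ T w) = ∏' j, cl d ψ (exp w / T j) ^ μ j ∧
      DifferentiableAt ℂ (Kcl d ψ μ T) w ∧
      (0 ≤ w.re → ‖Kcl d ψ μ T w‖ ≤ C * Real.exp ((d + ε) * w.re)) ∧
      (∀ x : ℝ, (Kcl d ψ μ T x).im = 0) := by
  obtain ⟨C1, hC1, hel⟩ := elog_facts d h.hd ψ (t' / 2) h.ψlo h.ψhi (by linarith)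
  obtain ⟨t₀, C, ht₀, hC, hcs⟩ := cfg_sum d ψ Mb Ma ε h hε
  refine ⟨t₀, C1 * C, ht₀, mul_pos hC1 hC, fun t ht μ T A M hcfg w hw => ?_⟩
  obtain ⟨hs1, hs2, -⟩ := hcs t ht μ T A M hcfg
  have hT : ∀ j, 2 ≤ T j := EC_T (ht₀.trans ht) hcfg
  have hel' : ∀ w : ℂ, w.im ∈ Ang ψ (t' / 2) →
      ‖elog d ψ w‖ ≤ C1 * Real.exp ((d + 1) * w.re) ∧ ‖elog d ψ w‖ ≤ C1 * Real.exp (d * w.re) :=
    fun w hw => ⟨(hel w hw).2.2.1, (hel w hw).2.2.2.1⟩
  have hw2 : w.im ∈ Ang ψ (t' / 2) := EC_ang hw (by simpa using ht')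
  have hsu : ∀ r : ℝ, 0 ≤ r → Summable (fun j => C1 * EC_u d μ T r j) :=
    fun r hr => (hs1 r hr).mul_left C1
  have hbw := fun j => EC_bound hC1 hel' μ T hT hw2 (le_refl (Real.exp w.re)) j
  have hsw : Summable (fun j => (μ j : ℂ) * elog d ψ (w - Real.log (T j))) :=
    Summable.of_norm_bounded (hsu _ (Real.exp_pos _).le) hbw
  refine ⟨?_, ?_, ?_, ?_⟩
  · have hp := hsw.hasSum.cexp
    have h1 : (cexp ∘ fun j => (μ j : ℂ) * elog d ψ (w - Real.log (T j))) =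
        fun j => cl d ψ (exp w / T j) ^ μ j := by
      funext j
      have hTj : 0 < T j := by linarith [hT j]
      have him : (w - (Real.log (T j) : ℂ)).im = w.im := by simp
      obtain ⟨h2, -⟩ := hel (w - Real.log (T j)) (by rw [him]; exact hw2)
      simp only [Function.comp]
      rw [exp_nat_mul, h2, exp_sub, ← ofReal_exp, Real.exp_log hTj]
    rw [h1] at hp
    exact hp.tprod_eq.symm
  · set s : Set ℂ := {v : ℂ | v.re < w.re + 1 ∧ |v.im - w.im| < t' / 2} with hs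
    have hso : IsOpen s := by
      apply IsOpen.inter
      · exact isOpen_lt continuous_re continuous_const
      · exact isOpen_lt ((continuous_im.sub continuous_const).abs) continuous_const
    have hws : w ∈ s := ⟨by linarith, by simpa using ht'⟩
    have hd : DifferentiableOn ℂ (fun v => ∑' j, (μ j : ℂ) * elog d ψ (v - Real.log (T j))) s := by
      refine differentiableOn_tsum_of_summable_norm (hsu (Real.exp (w.re + 1)) (Real.exp_pos _).le)
        (fun j v hv => ?_) hso (fun j v hv => ?_)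
      · have hv2 : v.im ∈ Ang ψ (t' / 2) := EC_ang hw hv.2
        have him : (v - (Real.log (T j) : ℂ)).im = v.im := by simp
        obtain ⟨-, h2, -⟩ := hel (v - Real.log (T j)) (by rw [him]; exact hv2)
        have h3 : DifferentiableAt ℂ (fun v : ℂ => v - (Real.log (T j) : ℂ)) v := by fun_prop
        exact ((DifferentiableAt.comp v h2 h3).const_mul _).differentiableWithinAt
      · exact EC_bound hC1 hel' μ T hT (EC_ang hw hv.2) (Real.exp_le_exp.mpr hv.1.le) j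
    exact (hd w hws).differentiableAt (hso.mem_nhds hws)
  · intro hre
    have h1 : ‖∑' j, (μ j : ℂ) * elog d ψ (w - Real.log (T j))‖ ≤
        ∑' j, C1 * EC_u d μ T (Real.exp w.re) j :=
      tsum_of_norm_bounded (hsu _ (Real.exp_pos _).le).hasSum hbw
    have h2 : ∑' j, C1 * EC_u d μ T (Real.exp w.re) j ≤
        C1 * (C * Real.exp w.re ^ ((d : ℝ) + ε)) := by
      rw [tsum_mul_left]
      exact mul_le_mul_of_nonneg_left (hs2 _ (Real.one_le_exp hre)) hC1.le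
    have h3 : Real.exp w.re ^ ((d : ℝ) + ε) = Real.exp ((d + ε) * w.re) := by
      rw [← Real.exp_mul]; ring_nf
    rw [h3] at h2
    calc ‖Kcl d ψ μ T w‖ ≤ _ := h1
      _ ≤ _ := h2
      _ = C1 * C * Real.exp ((d + ε) * w.re) := by ring
  · intro x
    unfold Kcl
    by_cases hsx : Summable (fun j => (μ j : ℂ) * elog d ψ ((x : ℂ) - Real.log (T j)))
    · rw [im_tsum hsx]
      have : ∀ j, ((μ j : ℂ) * elog d ψ ((x : ℂ) - Real.log (T j))).im = 0 := by
        intro j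
        have e : ((x : ℂ) - Real.log (T j)) = ((x - Real.log (T j) : ℝ) : ℂ) := by push_cast; ring
        rw [e, mul_im, elog_ofReal_im d ψ h.ψlo h.ψhi]
        simp
      simp [this]
    · rw [tsum_eq_zero_of_not_summable hsx]; simp

end Pool.Agent.helper74.LG
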