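import Pool.Agent.helper74.LG.Defs2

set_option autoImplicit false

namespace Pool.Agent.helper74.LG

open Complex Set Filter Topology MeasureTheory

theorem EL_cos {t φ : ℝ} (ht : 0 < t) (h1 : t ≤ φ) (h2 : φ ≤ 2 * Real.pi - t) :
    Real.cos φ ≤ Real.cos t := by
  rcases le_total φ Real.pi with h | h
  · exact Real.cos_le_cos_of_nonneg_of_le_pi ht.le h h1
  · have : Real.cos φ = Real.cos (2 * Real.pi - φ) := by rw [Real.cos_two_pi_sub]
    rw [this]
    exact Real.cos_le_cos_of_nonneg_of_le_pi ht.le (by linarith) (by linarith)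

theorem EL_ang {ψ t θ : ℝ} (hψ : Real.pi / 2 < ψ) (hψ' : ψ ≤ Real.pi) (ht : 0 < t)
    (h : θ ∈ Ang ψ t) : t ≤ Real.pi ∧ Real.cos (θ - ψ) ≤ Real.cos t ∧
      Real.cos (θ + ψ) ≤ Real.cos t := by
  have hpi := Real.pi_pos
  rcases h with h | h
  · have h1 := abs_le.1 h
    have h0 : 0 ≤ ψ - t := (abs_nonneg θ).trans h
    refine ⟨by linarith, ?_, EL_cos ht (by linarith [h1.1]) (by linarith [h1.2])⟩
    rw [← Real.cos_neg]
    exact EL_cos ht (by linarith [h1.2]) (by linarith [h1.1])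
  · have h1 := abs_le.1 h
    have h0 : 0 ≤ Real.pi - ψ - t := (abs_nonneg _).trans h
    exact ⟨by linarith, EL_cos ht (by linarith [h1.1]) (by linarith [h1.2]),
      EL_cos ht (by linarith [h1.1]) (by linarith [h1.2])⟩

theorem EL_slit {a : ℂ} (h : Real.cos a.im < 1) : 1 - exp a ∈ slitPlane := by
  by_contra hn
  rw [mem_slitPlane_iff, not_or, not_lt, not_ne_iff] at hn
  obtain ⟨h1, h2⟩ := hn
  simp only [sub_re, one_re, exp_re, sub_im, one_im, exp_im] at h1 h2
  have he := Real.exp_pos a.re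
  have hs : Real.sin a.im = 0 := by
    have : Real.exp a.re * Real.sin a.im = 0 := by linarith
    rcases mul_eq_zero.1 this with h3 | h3
    · exact absurd h3 he.ne'
    · exact h3
  have hc := Real.sin_sq_add_cos_sq a.im
  rw [hs] at hc
  have hc2 : Real.cos a.im = -1 := by
    have : (Real.cos a.im - 1) * (Real.cos a.im + 1) = 0 := by nlinarith
    rcases mul_eq_zero.1 this with h3 | h3
    · linarith
    · linarith
  rw [hc2] at h1
  linarith

theorem EL_low {a : ℂ} {c : ℝ} (h : Real.cos a.im ≤ c) :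
    Real.sqrt (1 - (max c 0) ^ 2) ≤ ‖1 - exp a‖ := by
  refine Real.sqrt_le_iff.2 ⟨norm_nonneg _, ?_⟩
  rw [← Complex.normSq_eq_norm_sq, Complex.normSq_apply]
  simp only [sub_re, one_re, exp_re, sub_im, one_im, exp_im]
  set r := Real.exp a.re with hr
  have hr0 : 0 < r := Real.exp_pos _
  have h1 : Real.cos a.im ≤ max c 0 := h.trans (le_max_left _ _)
  have h2 := Real.sin_sq_add_cos_sq a.im
  set m := max c 0 with hm
  have hm0 : 0 ≤ m := le_max_right _ _
  have e : (1 - r * Real.cos a.im) * (1 - r * Real.cos a.im) +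
      (0 - r * Real.sin a.im) * (0 - r * Real.sin a.im) = 1 - 2 * (r * Real.cos a.im) + r ^ 2 := by
    linear_combination r ^ 2 * h2
  rw [e]
  linarith [sq_nonneg (r - m), mul_le_mul_of_nonneg_left h1 hr0.le,
    show (r - m) ^ 2 = r ^ 2 - 2 * (r * m) + m ^ 2 by ring]

theorem EL_elog_exp {ψ : ℝ} {d : ℕ} {w : ℂ} (h1 : 1 - exp (w - ψ * I) ≠ 0)
    (h2 : 1 - exp (w + ψ * I) ≠ 0) : exp (elog d ψ w) = cl d ψ (exp w) := by
  rw [elog, cl, exp_add, exp_add, exp_log h1, exp_log h2]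
  congr 1
  have e1 : exp (w - ψ * I) = exp w * exp (-(ψ * I)) := by rw [← exp_add]; congr 1
  have e2 : exp (w + ψ * I) = exp w * exp (ψ * I) := by rw [← exp_add]
  have e3 : exp (-(ψ * I)) * exp (ψ * I) = 1 := by rw [← exp_add]; simp
  have e4 : exp (ψ * I) + exp (-(ψ * I)) = 2 * (Real.cos ψ : ℂ) := by
    rw [ofReal_cos, Complex.two_cos, neg_mul]
  rw [e1, e2]
  linear_combination (-exp w) * e4 + (exp w) ^ 2 * e3

theorem EL_poly (d : ℕ) (ψ : ℝ) (w : ℂ) : clPoly d ψ (exp w) =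
    ∑ j ∈ Finset.Icc 1 d, (exp (w - ψ * I)) ^ j / j +
      ∑ j ∈ Finset.Icc 1 d, (exp (w + ψ * I)) ^ j / j := by
  rw [clPoly, ← Finset.sum_add_distrib]
  refine Finset.sum_congr rfl (fun j _ => ?_)
  have e4 : exp ((j * ψ : ℝ) * I) + exp (-((j * ψ : ℝ) * I)) =
      2 * (Real.cos (j * ψ) : ℂ) := by
    rw [ofReal_cos, Complex.two_cos, neg_mul]
  have e1 : (exp (w - ψ * I)) ^ j = (exp w) ^ j * exp (-((j * ψ : ℝ) * I)) := by
    rw [← exp_nat_mul, ← exp_nat_mul, ← exp_add]; congr 1; push_cast; ring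
  have e2 : (exp (w + ψ * I)) ^ j = (exp w) ^ j * exp ((j * ψ : ℝ) * I) := by
    rw [← exp_nat_mul, ← exp_nat_mul, ← exp_add]; congr 1; push_cast; ring
  rw [e1, e2]
  push_cast at e4 ⊢
  rw [← e4]
  ring

theorem EL_taylor {d : ℕ} {a : ℂ} (ha : ‖a‖ ≤ 1 / 2) :
    ‖log (1 - a) + ∑ j ∈ Finset.Icc 1 d, a ^ j / j‖ ≤ 2 * ‖a‖ ^ (d + 1) := by
  have h := norm_log_sub_logTaylor_le d (z := -a) (by rw [norm_neg]; linarith)
  have e1 : logTaylor (d + 1) (-a) = -∑ j ∈ Finset.Icc 1 d, a ^ j / j := by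
    rw [logTaylor, ← Finset.sum_neg_distrib, Finset.range_eq_Ico,
      Finset.sum_eq_sum_Ico_succ_bot (by omega)]
    simp only [Nat.cast_zero, div_zero, zero_add]
    have : Finset.Ico 1 (d + 1) = Finset.Icc 1 d := by
      ext j; simp only [Finset.mem_Ico, Finset.mem_Icc]; omega
    rw [this]
    refine Finset.sum_congr rfl (fun j _ => ?_)
    rw [neg_pow a j, ← mul_assoc, ← pow_add]
    rw [show j + 1 + j = 2 * j + 1 by ring, pow_succ, pow_mul]
    simp [neg_div]
  rw [e1, sub_neg_eq_add, norm_neg, ← sub_eq_add_neg] at h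
  refine h.trans ?_
  have h1 : (1 - ‖a‖)⁻¹ ≤ 2 := by
    rw [inv_le_comm₀ (by linarith) (by norm_num)]; linarith
  have h0 : 0 ≤ (1 - ‖a‖)⁻¹ := inv_nonneg.2 (by linarith)
  have h2 : (1 : ℝ) ≤ (d : ℝ) + 1 := by have : (0 : ℝ) ≤ d := Nat.cast_nonneg d; linarith
  calc ‖a‖ ^ (d + 1) * (1 - ‖a‖)⁻¹ / (d + 1) ≤ ‖a‖ ^ (d + 1) * (1 - ‖a‖)⁻¹ :=
        div_le_self (by positivity) h2
    _ ≤ ‖a‖ ^ (d + 1) * 2 := mul_le_mul_of_nonneg_left h1 (by positivity)
    _ = _ := by ring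

theorem EL_log {y : ℂ} {δ : ℝ} (hδ : 0 < δ) (h : δ ≤ ‖1 - y‖) :
    ‖log (1 - y)‖ ≤ ‖y‖ + |Real.log δ| + Real.pi := by
  have h1 := norm_le_abs_re_add_abs_im (log (1 - y))
  rw [log_re, log_im] at h1
  have h2 := abs_arg_le_pi (1 - y)
  have h3 : |Real.log ‖1 - y‖| ≤ ‖y‖ + |Real.log δ| := by
    have h4 : Real.log δ ≤ Real.log ‖1 - y‖ := Real.log_le_log hδ h
    have h5 : ‖1 - y‖ ≤ 1 + ‖y‖ := by
      have := norm_sub_le (1 : ℂ) y; rwa [norm_one] at this
    have h6 : Real.log ‖1 - y‖ ≤ ‖y‖ := by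
      have h7 := Real.log_le_sub_one_of_pos (hδ.trans_le h)
      linarith
    rw [abs_le]
    constructor
    · linarith [neg_abs_le (Real.log δ), norm_nonneg y]
    · linarith [abs_nonneg (Real.log δ)]
  linarith

/-- Basic bounds for the logarithm of the cluster factor. For `Re w < 0` one has
`elog d ψ w = - ∑_{j > d} (2 cos (j ψ) / j) e^{j w}`; for `Re w ≥ 0` the two logarithms are
`O (1 + Re w)`; near `Re w = 0` everything is bounded because the angle is at distance `≥ t` from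
`± ψ` modulo `2 π`. -/
theorem elog_facts (d : ℕ) (hd : 2 ≤ d) (ψ t : ℝ) (hψ : Real.pi / 2 < ψ) (hψ' : ψ ≤ Real.pi)
    (ht : 0 < t) : ∃ C : ℝ, 0 < C ∧ ∀ w : ℂ, w.im ∈ Ang ψ t →
      exp (elog d ψ w) = cl d ψ (exp w) ∧ DifferentiableAt ℂ (elog d ψ) w ∧
      ‖elog d ψ w‖ ≤ C * Real.exp ((d + 1) * w.re) ∧
      ‖elog d ψ w‖ ≤ C * Real.exp (d * w.re) ∧
      ‖elog d ψ w - qc d ψ * exp (d * w)‖ ≤ C * Real.exp ((d - 1) * w.re) := by
  set δ : ℝ := Real.sqrt (1 - (max (Real.cos t) 0) ^ 2) with hδ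
  set C₁ : ℝ := 2 ^ d * (2 * d + 2 * (1 + |Real.log δ| + Real.pi)) with hC₁
  have hpi := Real.pi_pos
  have hC₁0 : 0 < C₁ := by positivity
  refine ⟨4 * C₁ + 2 * |qc d ψ| + 4, by positivity, ?_⟩
  intro w hw
  obtain ⟨htpi, hc1, hc2⟩ := EL_ang hψ hψ' ht hw
  have hct : Real.cos t < 1 := by
    have := Real.cos_lt_cos_of_nonneg_of_le_pi le_rfl htpi ht
    rwa [Real.cos_zero] at this
  have him1 : (w - ψ * I).im = w.im - ψ := by simp
  have him2 : (w + ψ * I).im = w.im + ψ := by simp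
  have hs1 : 1 - exp (w - ψ * I) ∈ slitPlane := EL_slit (by rw [him1]; linarith)
  have hs2 : 1 - exp (w + ψ * I) ∈ slitPlane := EL_slit (by rw [him2]; linarith)
  refine ⟨EL_elog_exp (slitPlane_ne_zero hs1) (slitPlane_ne_zero hs2), ?_, ?_⟩
  · have a1 : DifferentiableAt ℂ (fun w : ℂ => log (1 - exp (w - ψ * I))) w := by
      refine DifferentiableAt.clog ?_ hs1
      fun_prop
    have a2 : DifferentiableAt ℂ (fun w : ℂ => log (1 - exp (w + ψ * I))) w := by
      refine DifferentiableAt.clog ?_ hs2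
      fun_prop
    have a3 : DifferentiableAt ℂ (fun w : ℂ => clPoly d ψ (exp w)) w := by
      unfold clPoly
      fun_prop
    exact (a1.add a2).add a3
  · set r : ℝ := Real.exp w.re with hr
    have hr0 : 0 < r := Real.exp_pos _
    have hn1 : ‖exp (w - ψ * I)‖ = r := by rw [norm_exp]; simp [hr]
    have hn2 : ‖exp (w + ψ * I)‖ = r := by rw [norm_exp]; simp [hr]
    have hnw : ‖exp w‖ = r := by rw [norm_exp]
    obtain ⟨n, rfl⟩ : ∃ n, d = n + 2 := ⟨d - 2, by omega⟩
    have q1 : Real.exp (((n + 2 : ℕ) + 1) * w.re) = r ^ (n + 3) := by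
      rw [hr, ← Real.exp_nat_mul]; push_cast; congr 1; ring
    have q2 : Real.exp (((n + 2 : ℕ) : ℝ) * w.re) = r ^ (n + 2) := by
      rw [hr, ← Real.exp_nat_mul]
    have q3 : Real.exp (((n + 2 : ℕ) - 1) * w.re) = r ^ (n + 1) := by
      rw [hr, ← Real.exp_nat_mul]; push_cast; congr 1; ring
    have hxd : exp (((n + 2 : ℕ) : ℂ) * w) = (exp w) ^ (n + 2) := by
      rw [← exp_nat_mul]
    rw [q1, q2, q3, hxd]
    set q : ℝ := qc (n + 2) ψ with hq
    have hqx : ‖(q : ℂ) * exp w ^ (n + 2)‖ = |q| * r ^ (n + 2) := by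
      rw [norm_mul, norm_pow, hnw, Complex.norm_real, Real.norm_eq_abs]
    have hq0 := abs_nonneg q
    have hp1 : 0 < r ^ (n + 1) := by positivity
    have hp2 : r ^ (n + 2) = r ^ (n + 1) * r := by ring
    have hp3 : r ^ (n + 3) = r ^ (n + 1) * r * r := by ring
    have hp2' : 0 < r ^ (n + 2) := by positivity
    have hp3' : 0 < r ^ (n + 3) := by positivity
    rcases le_total r (1 / 2) with hsm | hbig
    · -- small
      have b0 : elog (n + 2) ψ w =
          (log (1 - exp (w - ψ * I)) +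
            ∑ j ∈ Finset.Icc 1 (n + 2), (exp (w - ψ * I)) ^ j / j) +
          (log (1 - exp (w + ψ * I)) +
            ∑ j ∈ Finset.Icc 1 (n + 2), (exp (w + ψ * I)) ^ j / j) := by
        rw [elog, EL_poly]; ring
      have b1 := EL_taylor (d := n + 2) (a := exp (w - ψ * I)) (by rw [hn1]; exact hsm)
      have b2 := EL_taylor (d := n + 2) (a := exp (w + ψ * I)) (by rw [hn2]; exact hsm)
      rw [hn1] at b1
      rw [hn2] at b2
      have b3 : ‖elog (n + 2) ψ w‖ ≤ 4 * r ^ (n + 3) := by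
        rw [b0]
        refine (norm_add_le _ _).trans ?_
        have : r ^ (n + 2 + 1) = r ^ (n + 3) := rfl
        linarith
      have b4 : r ^ (n + 3) ≤ r ^ (n + 2) := by
        rw [hp3, hp2]
        exact mul_le_of_le_one_right (mul_pos hp1 hr0).le (by linarith)
      have b5 : r ^ (n + 2) ≤ r ^ (n + 1) := by
        rw [hp2]
        exact mul_le_of_le_one_right hp1.le (by linarith)
      refine ⟨?_, ?_, ?_⟩
      · refine b3.trans (mul_le_mul_of_nonneg_right ?_ hp3'.le)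
        linarith
      · calc ‖elog (n + 2) ψ w‖ ≤ 4 * r ^ (n + 2) := by linarith
          _ ≤ _ := mul_le_mul_of_nonneg_right (by linarith) hp2'.le
      · calc ‖elog (n + 2) ψ w - q * exp w ^ (n + 2)‖
            ≤ ‖elog (n + 2) ψ w‖ + ‖(q : ℂ) * exp w ^ (n + 2)‖ := norm_sub_le _ _
          _ ≤ 4 * r ^ (n + 1) + |q| * r ^ (n + 1) := by
              rw [hqx]
              refine add_le_add (by linarith) (mul_le_mul_of_nonneg_left b5 hq0)
          _ = (4 + |q|) * r ^ (n + 1) := by ring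
          _ ≤ _ := mul_le_mul_of_nonneg_right (by linarith) hp1.le
    · -- large
      have hm1 : max (Real.cos t) 0 < 1 := max_lt hct one_pos
      have hm0 : 0 ≤ max (Real.cos t) 0 := le_max_right _ _
      have hδ0 : 0 < δ := by
        rw [hδ]
        refine Real.sqrt_pos.2 ?_
        nlinarith
      have l1 := EL_log hδ0 (EL_low (a := w - ψ * I) (by rw [him1]; exact hc1))
      have l2 := EL_log hδ0 (EL_low (a := w + ψ * I) (by rw [him2]; exact hc2))
      rw [hn1] at l1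
      rw [hn2] at l2
      have hpw : ∀ j, j ≤ n + 1 → r ^ j ≤ 2 ^ (n + 2) * r ^ (n + 1) := by
        intro j hj
        have c1 : (2 * r) ^ j ≤ (2 * r) ^ (n + 1) := pow_le_pow_right₀ (by linarith) hj
        rw [mul_pow, mul_pow] at c1
        have c2 : (1 : ℝ) ≤ 2 ^ j := one_le_pow₀ (by norm_num)
        have c3 : (2 : ℝ) ^ (n + 1) ≤ 2 ^ (n + 2) :=
          pow_le_pow_right₀ (by norm_num) (by omega)
        calc r ^ j ≤ 2 ^ j * r ^ j := le_mul_of_one_le_left (by positivity) c2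
          _ ≤ 2 ^ (n + 1) * r ^ (n + 1) := c1
          _ ≤ 2 ^ (n + 2) * r ^ (n + 1) := mul_le_mul_of_nonneg_right c3 hp1.le
      have s0 : elog (n + 2) ψ w - q * exp w ^ (n + 2) =
          log (1 - exp (w - ψ * I)) + log (1 - exp (w + ψ * I)) +
          ∑ j ∈ Finset.Icc 1 (n + 1), ((2 * Real.cos (j * ψ) / j : ℝ) : ℂ) * exp w ^ j := by
        rw [elog, clPoly, Finset.sum_Icc_succ_top (by omega : 1 ≤ n + 1 + 1)]
        simp only [hq, qc]
        ring
      have s1 : ‖∑ j ∈ Finset.Icc 1 (n + 1), ((2 * Real.cos (j * ψ) / j : ℝ) : ℂ) * exp w ^ j‖ ≤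
          (n + 1) * (2 * (2 ^ (n + 2) * r ^ (n + 1))) := by
        refine (norm_sum_le _ _).trans ?_
        have : ∀ j ∈ Finset.Icc 1 (n + 1),
            ‖((2 * Real.cos (j * ψ) / j : ℝ) : ℂ) * exp w ^ j‖ ≤
              2 * (2 ^ (n + 2) * r ^ (n + 1)) := by
          intro j hj
          rw [Finset.mem_Icc] at hj
          rw [norm_mul, norm_pow, hnw, Complex.norm_real, Real.norm_eq_abs]
          have hj1 : (1 : ℝ) ≤ j := by exact_mod_cast hj.1
          have k1 : |2 * Real.cos (j * ψ) / j| ≤ 2 := by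
            rw [abs_div, abs_mul, abs_of_pos (by linarith : (0 : ℝ) < j), div_le_iff₀ (by linarith)]
            have := Real.abs_cos_le_one (j * ψ)
            rw [abs_of_pos (by norm_num : (0 : ℝ) < 2)]
            linarith
          exact mul_le_mul k1 (hpw j hj.2) (by positivity) (by norm_num)
        refine (Finset.sum_le_sum this).trans ?_
        rw [Finset.sum_const, Nat.card_Icc, nsmul_eq_mul]
        push_cast
        simp
      have h1r := hpw 0 (by omega)
      have h2r := hpw 1 (by omega)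
      rw [pow_zero] at h1r
      rw [pow_one] at h2r
      have hB0 : 0 < 2 ^ (n + 2) * r ^ (n + 1) := by positivity
      have t3 : ‖elog (n + 2) ψ w - q * exp w ^ (n + 2)‖ ≤ C₁ * r ^ (n + 1) := by
        rw [s0]
        refine (norm_add_le _ _).trans ?_
        have := norm_add_le (log (1 - exp (w - ψ * I))) (log (1 - exp (w + ψ * I)))
        have g1 : |Real.log δ| ≤ |Real.log δ| * (2 ^ (n + 2) * r ^ (n + 1)) :=
          le_mul_of_one_le_right (abs_nonneg _) h1r
        have g2 : Real.pi ≤ Real.pi * (2 ^ (n + 2) * r ^ (n + 1)) :=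
          le_mul_of_one_le_right hpi.le h1r
        have g3 : ((n : ℝ) + 1) * (2 * (2 ^ (n + 2) * r ^ (n + 1))) ≤
            (2 * ((n + 2 : ℕ) : ℝ)) * (2 ^ (n + 2) * r ^ (n + 1)) := by
          push_cast
          linarith
        calc _ ≤ (2 ^ (n + 2) * r ^ (n + 1) + |Real.log δ| * (2 ^ (n + 2) * r ^ (n + 1)) +
              Real.pi * (2 ^ (n + 2) * r ^ (n + 1))) * 2 +
              (2 * ((n + 2 : ℕ) : ℝ)) * (2 ^ (n + 2) * r ^ (n + 1)) := by linarith
          _ = C₁ * r ^ (n + 1) := by rw [hC₁]; ring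
      have u1 : r ^ (n + 1) ≤ 2 * r ^ (n + 2) := by
        rw [hp2]
        linarith [mul_le_mul_of_nonneg_left hbig hp1.le]
      have u2 : r ^ (n + 2) ≤ 2 * r ^ (n + 3) := by
        rw [hp2, hp3]
        linarith [mul_le_mul_of_nonneg_left hbig (mul_pos hp1 hr0).le]
      have t2 : ‖elog (n + 2) ψ w‖ ≤ (2 * C₁ + |q|) * r ^ (n + 2) := by
        have e : elog (n + 2) ψ w = (elog (n + 2) ψ w - q * exp w ^ (n + 2)) +
            q * exp w ^ (n + 2) := by ring
        rw [e]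
        refine (norm_add_le _ _).trans ?_
        rw [hqx]
        linarith [mul_le_mul_of_nonneg_left u1 hC₁0.le]
      refine ⟨?_, ?_, ?_⟩
      · calc ‖elog (n + 2) ψ w‖ ≤ (2 * C₁ + |q|) * r ^ (n + 2) := t2
          _ ≤ (2 * C₁ + |q|) * (2 * r ^ (n + 3)) :=
              mul_le_mul_of_nonneg_left u2 (by positivity)
          _ = (4 * C₁ + 2 * |q|) * r ^ (n + 3) := by ring
          _ ≤ _ := mul_le_mul_of_nonneg_right (by linarith) hp3'.le
      · refine t2.trans (mul_le_mul_of_nonneg_right ?_ hp2'.le)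
        linarith
      · refine t3.trans (mul_le_mul_of_nonneg_right ?_ hp1.le)
        linarith

theorem elog_ofReal_im (d : ℕ) (ψ : ℝ) (hψ : Real.pi / 2 < ψ) (hψ' : ψ ≤ Real.pi) (x : ℝ) :
    (elog d ψ x).im = 0 := by
  have hpi := Real.pi_pos
  have hcos : Real.cos ψ < 1 := by
    have := Real.cos_neg_of_pi_div_two_lt_of_lt hψ (by linarith)
    linarith
  have hs2 : 1 - exp ((x : ℂ) + ψ * I) ∈ slitPlane := EL_slit (by simpa using hcos)
  have e1 : 1 - exp ((x : ℂ) - ψ * I) = (starRingEnd ℂ) (1 - exp ((x : ℂ) + ψ * I)) := by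
    rw [map_sub, map_one, ← exp_conj, map_add, map_mul, conj_ofReal, conj_ofReal, conj_I]
    congr 2; ring
  have e2 : log (1 - exp ((x : ℂ) - ψ * I)) =
      (starRingEnd ℂ) (log (1 - exp ((x : ℂ) + ψ * I))) := by
    rw [e1, log_conj _ (slitPlane_arg_ne_pi hs2)]
  have e3 : clPoly d ψ (exp (x : ℂ)) =
      ((∑ j ∈ Finset.Icc 1 d, (2 * Real.cos (j * ψ) / j) * (Real.exp x) ^ j : ℝ) : ℂ) := by
    rw [clPoly, ofReal_sum]
    refine Finset.sum_congr rfl (fun j _ => ?_)
    rw [ofReal_mul, ofReal_pow, ofReal_exp]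
  rw [elog, e2, e3, add_im, add_im, conj_im, ofReal_im]
  ring

end Pool.Agent.helper74.LG
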