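import Pool.Agent.helper74.LG.A1
import Pool.Agent.helper38.LacOrd

set_option autoImplicit false

namespace Pool.Agent.helper74.LG

open Complex Set Filter Topology MeasureTheory

theorem ME_tc (f : ℂ → ℂ) (m : ℕ) : Pool.Agent.helper38.NNF.tc f m = coef f m := by
  unfold Pool.Agent.helper38.NNF.tc coef
  rw [div_eq_inv_mul]

theorem ME_NN {f : ℂ → ℂ} (hf : RealEnt f) (h0 : ∀ m, 0 ≤ rco f m) :
    Pool.Agent.helper38.NNF.NN f := by
  refine ⟨hf.1, fun k => ?_⟩
  rw [ME_tc, Complex.nonneg_iff]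
  exact ⟨h0 k, (coef_im hf k).symm⟩

theorem ME_order {ρ H σ' C : ℝ} (hρ : 0 < ρ) (hH : 0 < H) (hσ : σ' < ρ) {L : ℝ → ℝ}
    (hL : ∀ R : ℝ, 1 ≤ R → |L R - H * R ^ ρ| ≤ C * R ^ σ') :
    Tendsto (fun R : ℝ => Real.log (L R) / Real.log R) atTop (𝓝 ρ) := by
  have h1 : Tendsto (fun R : ℝ => C * R ^ (-(ρ - σ'))) atTop (𝓝 0) := by
    have := (tendsto_rpow_neg_atTop (y := ρ - σ') (by linarith)).const_mul C
    simpa using this
  have h2 : Tendsto (fun R : ℝ => L R / R ^ ρ) atTop (𝓝 H) := by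
    rw [tendsto_iff_norm_sub_tendsto_zero]
    refine squeeze_zero' (Eventually.of_forall fun R => norm_nonneg _) ?_ h1
    filter_upwards [eventually_ge_atTop 1] with R hR
    have hRp : 0 < R ^ ρ := Real.rpow_pos_of_pos (by linarith) _
    have e1 : L R / R ^ ρ - H = (L R - H * R ^ ρ) / R ^ ρ := by field_simp
    rw [e1, Real.norm_eq_abs, abs_div, abs_of_pos hRp, div_le_iff₀ hRp]
    refine (hL R hR).trans (le_of_eq ?_)
    rw [mul_assoc, ← Real.rpow_add (by linarith)]
    congr 2; ring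
  have h3 : Tendsto (fun R : ℝ => Real.log (L R / R ^ ρ)) atTop (𝓝 (Real.log H)) :=
    (Real.continuousAt_log hH.ne').tendsto.comp h2
  have h4 : Tendsto (fun R : ℝ => Real.log (L R / R ^ ρ) / Real.log R) atTop (𝓝 0) :=
    h3.div_atTop Real.tendsto_log_atTop
  have h5 : Tendsto (fun R : ℝ => Real.log (L R / R ^ ρ) / Real.log R + ρ) atTop (𝓝 ρ) := by
    have := h4.add_const ρ
    rwa [zero_add] at this
  refine h5.congr' ?_
  filter_upwards [eventually_gt_atTop 1, h2.eventually_const_lt (half_lt_self hH)] with R hR hR2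
  have hRp : 0 < R ^ ρ := Real.rpow_pos_of_pos (by linarith) _
  have hlR : 0 < Real.log R := Real.log_pos hR
  have hLpos : 0 < L R := by
    have h6 : 0 < L R / R ^ ρ := lt_trans (half_pos hH) hR2
    have h7 := mul_pos h6 hRp
    rwa [div_mul_cancel₀ _ hRp.ne'] at h7
  rw [Real.log_div hLpos.ne' hRp.ne', Real.log_rpow (by linarith)]
  field_simp
  ring

/-- Membership in `G_ρ(2)`. -/
theorem mem_Gord_two {ρ H σ' C : ℝ} (hρ : 0 < ρ) (hH : 0 < H) (hσ : σ' < ρ) {f : ℂ → ℂ}
    (hf : RealEnt f) (h0 : ∀ m, 0 ≤ rco f m)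
    (h1 : ∀ᶠ m in atTop, ¬ (rco f m = 0 ∧ rco f (m + 1) = 0))
    (h2 : ∃ᶠ m in atTop, rco f m = 0) (hz : {z : ℂ | f z = 0}.Infinite)
    (hg : ∀ s : ℝ, 0 ≤ s → |Real.log (f (exp s)).re - H * Real.exp (ρ * s)| ≤
      C * Real.exp (σ' * s)) :
    f ∈ Pool.Agent.helper38.Lac.Gord (ρ : EReal) 2 := by
  classical
  have hNN := ME_NN hf h0
  obtain ⟨N, hN⟩ := eventually_atTop.mp h1
  have hinf : ({m : ℕ | rco f m ≠ 0}).Infinite := by
    rw [Set.infinite_iff_exists_gt]
    intro n
    rcases not_and_or.mp (hN (max N (n + 1)) (le_max_left _ _)) with h | h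
    · exact ⟨_, h, lt_of_lt_of_le (Nat.lt_succ_self n) (le_max_right _ _)⟩
    · exact ⟨_, h, lt_of_lt_of_le (Nat.lt_succ_self n)
        ((le_max_right _ _).trans (Nat.le_succ _))⟩
  set ν : ℕ → ℕ := Nat.nth (fun m => rco f m ≠ 0) with hν
  have hmono : StrictMono ν := Nat.nth_strictMono hinf
  have hmem : ∀ k, rco f (ν k) ≠ 0 := fun k => Nat.nth_mem_of_infinite hinf k
  have hrange : Set.range ν = {m | rco f m ≠ 0} := Nat.range_nth_of_infinite hinf
  have hex : ∀ y, rco f y ≠ 0 → ∃ k, ν k = y := fun y hy => by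
    have : y ∈ Set.range ν := by rw [hrange]; exact hy
    exact this
  have hnext : ∀ k y, rco f y ≠ 0 → ν k < y → ν (k + 1) ≤ y := by
    intro k y hy hlt
    obtain ⟨j, rfl⟩ := hex y hy
    exact hmono.monotone (hmono.lt_iff_lt.mp hlt)
  have hcoef : ∀ m, coef f m = ((rco f m : ℝ) : ℂ) := fun m => by
    apply Complex.ext
    · rfl
    · rw [coef_im hf m, Complex.ofReal_im]
  refine ⟨⟨hz, fun k => rco f (ν k), ν, ⟨hmono, fun k => ?_, fun z => ?_⟩, ?_⟩, ?_⟩
  · exact lt_of_le_of_ne (h0 _) (hmem k).symm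
  · have h3 := hasSum_coef hf.1 z
    have h4 := (hmono.injective.hasSum_iff (f := fun m => coef f m * z ^ m) (fun x hx => by
      have : rco f x = 0 := by
        by_contra hne
        exact hx (by rw [hrange]; exact hne)
      rw [hcoef, this, Complex.ofReal_zero, zero_mul])).mpr h3
    refine h4.congr_fun ?_ |> fun h => h
    intro k
    simp only [Function.comp_apply, hcoef]
  · unfold Pool.Agent.helper38.Lac.gapLimsup
    apply le_antisymm
    · refine limsup_le_of_le (by isBoundedDefault) ?_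
      have h3 : ∀ᶠ k in atTop, N ≤ ν k :=
        (hmono.tendsto_atTop).eventually_ge_atTop N
      filter_upwards [h3] with k hk
      have h4 : ν (k + 1) - ν k ≤ 2 := by
        rcases not_and_or.mp (hN (ν k + 1) (by omega)) with h | h
        · have := hnext k (ν k + 1) h (by omega)
          omega
        · have := hnext k (ν k + 1 + 1) h (by omega)
          omega
      exact_mod_cast h4
    · refine le_limsup_of_frequently_le ?_ (by isBoundedDefault)
      rw [frequently_atTop] at h2 ⊢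
      intro k₀
      obtain ⟨m, hm, hm0⟩ := h2 (max (N + 1) (ν k₀ + 1))
      have hm1 : N + 1 ≤ m := (le_max_left _ _).trans hm
      have hm2 : ν k₀ + 1 ≤ m := (le_max_right _ _).trans hm
      have h5 : rco f (m - 1) ≠ 0 := by
        intro h6
        refine hN (m - 1) (by omega) ⟨h6, ?_⟩
        have : m - 1 + 1 = m := by omega
        rw [this]; exact hm0
      obtain ⟨k, hk⟩ := hex _ h5
      refine ⟨k, ?_, ?_⟩
      · apply hmono.le_iff_le.mp
        omega
      · have h6 : ν k < ν (k + 1) := hmono (Nat.lt_succ_self k)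
        have h7 : ν (k + 1) ≠ m := fun h => hmem (k + 1) (by rw [h]; exact hm0)
        have h8 : 2 ≤ ν (k + 1) - ν k := by omega
        exact_mod_cast h8
  · -- order
    have hL : ∀ R : ℝ, 1 ≤ R → |Real.log (Pool.Agent.helper38.Lac.maxMod f R) - H * R ^ ρ|
        ≤ C * R ^ σ' := by
      intro R hR
      have hR0 : 0 < R := by linarith
      have h3 := hg (Real.log R) (Real.log_nonneg hR)
      have e1 : exp ((Real.log R : ℝ) : ℂ) = (R : ℂ) := by
        rw [← Complex.ofReal_exp, Real.exp_log hR0]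
      have e2 : Real.exp (ρ * Real.log R) = R ^ ρ := by
        rw [Real.rpow_def_of_pos hR0, mul_comm]
      have e3 : Real.exp (σ' * Real.log R) = R ^ σ' := by
        rw [Real.rpow_def_of_pos hR0, mul_comm]
      rw [e1, e2, e3] at h3
      rw [Pool.Agent.helper38.Lac.maxMod_eq hNN hR0.le]
      exact h3
    have h3 := ME_order hρ hH hσ hL
    have h4 : Tendsto (fun R : ℝ => ((Real.log (Real.log (Pool.Agent.helper38.Lac.maxMod f R)) /
        Real.log R : ℝ) : EReal)) atTop (𝓝 (ρ : EReal)) := EReal.tendsto_coe.mpr h3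
    exact h4.limsup_eq

/-- A lower bound for `δ(f)`. -/
theorem le_delta_of {f : ℂ → ℂ} (hf : Differentiable ℂ f) (hz : {z : ℂ | f z = 0}.Infinite)
    {δ₀ R : ℝ} (h : ∀ z, f z = 0 → R ≤ ‖z‖ → δ₀ ≤ |arg z|) :
    δ₀ ≤ Pool.Agent.helper38.Lac.delta f := by
  have : Infinite {z : ℂ // f z = 0} := hz.to_subtype
  unfold Pool.Agent.helper38.Lac.delta
  apply le_liminf_of_le
  · exact (isBoundedUnder_of ⟨Real.pi, fun z => Complex.abs_arg_le_pi _⟩).isCoboundedUnder_ge
  by_cases hne : ∃ x, f x ≠ 0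
  · obtain ⟨x, hx⟩ := hne
    have hcod : f ⁻¹' {0}ᶜ ∈ codiscrete ℂ :=
      AnalyticOnNhd.preimage_zero_mem_codiscrete
        (fun z _ => hf.analyticAt z) hx
    obtain ⟨h1, h2⟩ := mem_codiscrete'.mp hcod
    have h3 : (f ⁻¹' {0}ᶜ)ᶜ = {z : ℂ | f z = 0} := by
      ext z; simp
    have h4 : IsClosed {z : ℂ | f z = 0} := by
      rw [← h3]; exact h1.isClosed_compl
    have h5 : ({z : ℂ | f z = 0} ∩ Metric.closedBall (0 : ℂ) R).Finite := by
      refine ((isCompact_closedBall (0 : ℂ) R).inter_left h4).finite ?_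
      rw [h3] at h2
      exact h2.mono inter_subset_left
    have h6 : {z : {z : ℂ // f z = 0} | ‖(z : ℂ)‖ ≤ R}.Finite := by
      refine Set.Finite.of_finite_image (f := fun z : {z : ℂ // f z = 0} => (z : ℂ))
        (h5.subset ?_) (Subtype.val_injective.injOn)
      rintro w ⟨z, hz', rfl⟩
      exact ⟨z.2, by simpa using hz'⟩
    have h7 : {z : {z : ℂ // f z = 0} | ‖(z : ℂ)‖ ≤ R}ᶜ ∈ cofinite := h6.compl_mem_cofinite
    filter_upwards [h7] with z hz'
    refine h z z.2 (le_of_lt ?_)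
    by_contra hcon
    exact hz' (not_lt.mp hcon)
  · push Not at hne
    have h1 : δ₀ ≤ 0 := by
      have h2 := h ((max R 0 : ℝ) : ℂ) (hne _) (by
        rw [Complex.norm_real, Real.norm_eq_abs, abs_of_nonneg (le_max_right _ _)]
        exact le_max_left _ _)
      rwa [Complex.arg_ofReal_of_nonneg (le_max_right _ _), abs_zero] at h2
    exact Eventually.of_forall fun z => h1.trans (abs_nonneg _)

end Pool.Agent.helper74.LG
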