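import Pool.Agent.helper74.LG.S3

set_option autoImplicit false

namespace Pool.Agent.helper74.LG

open Complex Set Filter Topology MeasureTheory

/-- uniform decay of `e^{-β s_m}` -/
theorem S5_decay (P : CP) (hP : P.Ok) (m₀ : ℕ) (C' β ε : ℝ) (hC' : 0 < C') (hβ : 0 < β)
    (hε : 0 < ε) :
    ∃ m₁ : ℕ, m₀ ≤ m₁ ∧ ∀ K s w₁, Sad P K m₀ C' s w₁ → ∀ m : ℕ, m₁ ≤ m →
      Real.exp (-(β * s m)) ≤ ε := by
  have hρ : 0 < P.ρ := lt_trans one_pos hP.ρ1
  set b : ℝ := P.H * P.ρ + C' with hb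
  have hH := hP.H0
  have hbpos : 0 < b := by positivity
  set B : ℝ := b * Real.exp (P.ρ / β * (-Real.log ε)) with hB
  refine ⟨max m₀ ⌈B⌉₊, le_max_left _ _, fun K s w₁ hS m hm => ?_⟩
  obtain ⟨h2, -, -, -, h5⟩ := hS m ((le_max_left _ _).trans hm)
  have hmB : B ≤ m := (Nat.le_ceil B).trans (by exact_mod_cast (le_max_right _ _).trans hm)
  have hσ' : max P.σ P.σ₁ ≤ P.ρ := max_le hP.σρ.le hP.σ₁ρ.le
  have h6 : Real.exp (max P.σ P.σ₁ * s m) ≤ Real.exp (P.ρ * s m) := by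
    apply Real.exp_le_exp.mpr
    exact mul_le_mul_of_nonneg_right hσ' (by linarith)
  have h7 : (m : ℝ) ≤ b * Real.exp (P.ρ * s m) := by
    have h8 := (abs_le.mp h5).2
    have h9 : C' * Real.exp (max P.σ P.σ₁ * s m) ≤ C' * Real.exp (P.ρ * s m) := by gcongr
    rw [hb, add_mul]
    linarith
  have h8 : Real.exp (P.ρ / β * (-Real.log ε)) ≤ Real.exp (P.ρ * s m) := by
    have h9 : b * Real.exp (P.ρ / β * (-Real.log ε)) ≤ b * Real.exp (P.ρ * s m) := by
      rw [← hB]; linarith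
    exact le_of_mul_le_mul_left h9 hbpos
  have h9 := Real.exp_le_exp.mp h8
  have h10 : -Real.log ε ≤ β * s m := by
    have h11 : P.ρ * (-Real.log ε / β) ≤ P.ρ * s m := by
      calc P.ρ * (-Real.log ε / β) = P.ρ / β * (-Real.log ε) := by ring
        _ ≤ P.ρ * s m := h9
    have h12 := le_of_mul_le_mul_left h11 hρ
    rw [div_le_iff₀ hβ] at h12
    linarith
  calc Real.exp (-(β * s m)) ≤ Real.exp (Real.log ε) := Real.exp_le_exp.mpr (by linarith)
    _ = ε := Real.exp_log hε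

/-- Location of the real saddle points. -/
theorem sp_loc (P : CP) (hP : P.Ok) (m₀ : ℕ) (C' η : ℝ) (hC' : 0 < C') (hη : 0 < η) :
    ∃ m₁ : ℕ, ∀ f K s w₁, Cls P f K → Sad P K m₀ C' s w₁ → ∀ m : ℕ, m₁ ≤ m →
      |s m - Real.log (m / (P.H * P.ρ)) / P.ρ| ≤ η := by
  have hρ : 0 < P.ρ := lt_trans one_pos hP.ρ1
  have hH := hP.H0
  set a : ℝ := P.H * P.ρ with ha
  have hapos : 0 < a := by positivity
  have hσ' : 0 < P.ρ - max P.σ P.σ₁ := sub_pos.mpr (max_lt hP.σρ hP.σ₁ρ)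
  set δ : ℝ := min (1 / 2) (P.ρ * η / 2) with hδ
  have hδpos : 0 < δ := by positivity
  obtain ⟨m₁, hm₁, hdec⟩ := S5_decay P hP m₀ C' (P.ρ - max P.σ P.σ₁) (a / C' * δ) hC' hσ'
    (by positivity)
  refine ⟨max m₁ 1, fun f K s w₁ _ hS m hm => ?_⟩
  have hm1 : m₁ ≤ m := (le_max_left _ _).trans hm
  have hm0 : 1 ≤ m := (le_max_right _ _).trans hm
  have hd := hdec K s w₁ hS m hm1
  obtain ⟨h2, -, -, -, h5⟩ := hS m (hm₁.trans hm1)
  have hE : 0 < Real.exp (P.ρ * s m) := Real.exp_pos _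
  have hmr : (0 : ℝ) < m := by
    have : 0 < m := hm0
    exact_mod_cast this
  set r : ℝ := m / (a * Real.exp (P.ρ * s m)) with hr
  have hrpos : 0 < r := by positivity
  have h6 : |r - 1| ≤ δ := by
    have e1 : r - 1 = (m - a * Real.exp (P.ρ * s m)) / (a * Real.exp (P.ρ * s m)) := by
      rw [hr]; field_simp
    rw [e1, abs_div, abs_of_pos (by positivity : 0 < a * Real.exp (P.ρ * s m)),
      div_le_iff₀ (by positivity)]
    refine h5.trans ?_
    have e2 : Real.exp (max P.σ P.σ₁ * s m)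
        = Real.exp (-((P.ρ - max P.σ P.σ₁) * s m)) * Real.exp (P.ρ * s m) := by
      rw [← Real.exp_add]; congr 1; ring
    rw [e2]
    calc C' * (Real.exp (-((P.ρ - max P.σ P.σ₁) * s m)) * Real.exp (P.ρ * s m))
        ≤ C' * ((a / C' * δ) * Real.exp (P.ρ * s m)) := by gcongr
      _ = δ * (a * Real.exp (P.ρ * s m)) := by field_simp
  have hδ1 : δ ≤ 1 / 2 := min_le_left _ _
  have hδ2 : δ ≤ P.ρ * η / 2 := min_le_right _ _
  obtain ⟨h7, h8⟩ := abs_le.mp h6
  have h9 : |Real.log r| ≤ 2 * δ := by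
    rw [abs_le]
    constructor
    · have e1 := Real.one_sub_inv_le_log_of_pos hrpos
      have e2 : r⁻¹ ≤ 1 + 2 * δ := by
        rw [inv_le_comm₀ hrpos (by positivity)]
        have e3 : (1 + 2 * δ)⁻¹ ≤ 1 - δ := by
          rw [inv_le_comm₀ (by positivity) (by linarith)]
          rw [inv_le_iff_one_le_mul₀ (by linarith)]
          nlinarith
        linarith
      linarith
    · have e1 := Real.log_le_sub_one_of_pos hrpos
      linarith
  have h10 : Real.log r = Real.log (m / a) - P.ρ * s m := by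
    rw [hr, ← div_div, Real.log_div (by positivity) hE.ne', Real.log_exp]
  rw [h10] at h9
  have h11 : s m - Real.log (m / a) / P.ρ = -(Real.log (m / a) - P.ρ * s m) / P.ρ := by
    field_simp; ring
  rw [h11, abs_div, abs_neg, abs_of_pos hρ, div_le_iff₀ hρ]
  linarith

end Pool.Agent.helper74.LG
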