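import Pool.Agent.helper74.LG.S7
import Pool.Agent.helper74.LG.S5

set_option autoImplicit false

namespace Pool.Agent.helper74.LG

open Complex Set Filter Topology MeasureTheory

/-- Consecutive ratios of `X` (from `sp_drift`). -/
theorem sp_ratio (P : CP) (hP : P.Ok) (m₀ : ℕ) (C' η : ℝ) (hC' : 0 < C') (hη : 0 < η) :
    ∃ m₁ : ℕ, ∀ f K s w₁, Cls P f K → Sad P K m₀ C' s w₁ → ∀ m : ℕ, m₁ ≤ m →
      ‖Xof K s w₁ (m + 1) - exp (-(P.θ₀ * I)) * Xof K s w₁ m‖ ≤ η * ‖Xof K s w₁ m‖ := by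
  obtain ⟨m₁, C'', hC'', hdr⟩ := sp_drift P hP m₀ C' hC'
  have hβ : 0 < P.ρ - P.σ := sub_pos.mpr hP.σρ
  obtain ⟨m₂, -, hdec⟩ := S5_decay P hP m₀ C' (P.ρ - P.σ) (min 1 (η / 2) / C'') hC' hβ
    (by positivity)
  refine ⟨max m₁ m₂, fun f K s w₁ hcl hS m hm => ?_⟩
  obtain ⟨δ, hδ⟩ := hdr f K s w₁ hcl hS
  obtain ⟨h1, h2, -, -⟩ := hδ m ((le_max_left _ _).trans hm)
  have h3 := hdec K s w₁ hS m ((le_max_right _ _).trans hm)
  have h4 : ‖δ m‖ ≤ min 1 (η / 2) := by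
    refine h2.trans ?_
    have e1 : (P.σ - P.ρ) * s m = -((P.ρ - P.σ) * s m) := by ring
    rw [e1]
    calc C'' * Real.exp (-((P.ρ - P.σ) * s m)) ≤ C'' * (min 1 (η / 2) / C'') := by gcongr
      _ = min 1 (η / 2) := by field_simp
  have h5 : ‖δ m‖ ≤ 1 := h4.trans (min_le_left _ _)
  have h6 : ‖δ m‖ ≤ η / 2 := h4.trans (min_le_right _ _)
  have h7 : ‖exp (-δ m) - 1‖ ≤ 2 * ‖-δ m‖ := Complex.norm_exp_sub_one_le (by rwa [norm_neg])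
  rw [norm_neg] at h7
  have h8 : Xof K s w₁ (m + 1) - exp (-(P.θ₀ * I)) * Xof K s w₁ m
      = exp (-(P.θ₀ * I)) * ((exp (-δ m) - 1) * Xof K s w₁ m) := by
    rw [h1, sub_eq_add_neg (-(P.θ₀ * I)) (δ m), Complex.exp_add]; ring
  have h9 : ‖exp (-(P.θ₀ * I))‖ = 1 := by
    have : -(P.θ₀ * I : ℂ) = ((-P.θ₀ : ℝ) : ℂ) * I := by push_cast; ring
    rw [this, Complex.norm_exp_ofReal_mul_I]
  rw [h8, norm_mul, h9, one_mul, norm_mul]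
  gcongr
  linarith

end Pool.Agent.helper74.LG
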