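import Pool.Agent.helper74.LG.TT
import Pool.Agent.helper74.LG.ME
import Pool.Agent.helper74.LG.S8
import Pool.Agent.helper38.LacOrd

set_option autoImplicit false

namespace Pool.Agent.helper74.LG

open Complex Set Filter Topology MeasureTheory

/-- The modulus of the argument of the cluster zeros. -/
theorem FN_arg {ψ T : ℝ} (hT : 0 < T) (h1 : Real.pi / 2 < ψ) (h2 : ψ ≤ Real.pi) :
    |arg ((T : ℂ) * exp (ψ * I))| = ψ ∧ |arg ((T : ℂ) * exp (-(ψ * I)))| = ψ := by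
  have hpi := Real.pi_pos
  have e1 : arg ((T : ℂ) * exp (ψ * I)) = ψ := by
    rw [Complex.arg_real_mul _ hT, Complex.exp_mul_I]
    exact Complex.arg_cos_add_sin_mul_I ⟨by linarith, h2⟩
  have e2 : (T : ℂ) * exp (-(ψ * I)) = (starRingEnd ℂ) ((T : ℂ) * exp (ψ * I)) := by
    rw [map_mul, Complex.conj_ofReal, ← Complex.exp_conj, map_mul, Complex.conj_ofReal,
      Complex.conj_I, mul_neg]
  refine ⟨by rw [e1, abs_of_pos (by linarith)], ?_⟩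
  rw [e2, Complex.arg_conj, e1]
  split_ifs with h
  · rw [abs_of_pos hpi, h]
  · rw [abs_neg, abs_of_pos (by linarith)]

/-- The radii increase. -/
theorem FN_T_mono {d : ℕ} {q Mb Ma t : ℝ} {μ : ℕ → ℕ} {T A M : ℕ → ℝ}
    (h : Cfg d q Mb Ma t μ T A M) (ht : 2 ≤ t) : (∀ j, 2 ≤ T j) ∧ StrictMono T := by
  have h2 : ∀ j, 2 ≤ T j := by
    intro j
    induction j with
    | zero => linarith [h.t0]
    | succ j ih =>
      have h1 : (2 : ℝ) ^ 8 ≤ T j ^ 8 := pow_le_pow_left₀ (by norm_num) ih 8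
      have := h.sp j
      norm_num at h1
      linarith
  refine ⟨h2, strictMono_nat_of_lt_succ fun j => ?_⟩
  have h3 : T j ^ 1 < T j ^ 8 := pow_lt_pow_right₀ (by linarith [h2 j]) (by norm_num)
  rw [pow_one] at h3
  linarith [h.sp j]

/-- Infinitely many zeros. -/
theorem FN_inf {d : ℕ} {q Mb Ma t ψ : ℝ} {μ : ℕ → ℕ} {T A M : ℕ → ℝ} {f Ψ : ℂ → ℂ}
    (h : Cfg d q Mb Ma t μ T A M) (ht : 2 ≤ t)
    (hz : ∀ z, f z = 0 ↔ Ψ z = 0 ∨ ∃ j, z = T j * exp (ψ * I) ∨ z = T j * exp (-(ψ * I))) :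
    {z : ℂ | f z = 0}.Infinite := by
  obtain ⟨h2, hm⟩ := FN_T_mono h ht
  have hinj : Function.Injective (fun j : ℕ => (T j : ℂ) * exp (ψ * I)) := by
    intro i j hij
    have h3 : (T i : ℂ) = T j := mul_right_cancel₀ (Complex.exp_ne_zero _) hij
    exact hm.injective (by exact_mod_cast h3)
  apply Set.infinite_of_injective_forall_mem hinj
  intro j
  change f _ = 0; rw [hz]
  exact Or.inr ⟨j, Or.inl rfl⟩

/-- Growth from the class. -/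
theorem FN_growth {P : CP} (hP : P.Ok) {f K : ℂ → ℂ} (h : Cls P f K) :
    ∀ s : ℝ, 0 ≤ s → |Real.log (f (exp s)).re - P.H * Real.exp (P.ρ * s)| ≤
      (P.C + P.H₁) * Real.exp (max P.σ P.σ₁ * s) := by
  intro s hs
  have hmem : (s : ℂ) ∈ DS P.θ₀ (2 * P.τ) := by
    left; rw [ofReal_im, abs_zero]; linarith [hP.τ0]
  have h1 := h.ex _ hmem
  have h2 : K (s : ℂ) = ((K (s : ℂ)).re : ℂ) := by
    apply Complex.ext
    · simp
    · simp [h.re s]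
  have h3 : (f (exp s)).re = Real.exp (K (s : ℂ)).re := by
    rw [← h1, h2, Complex.exp_ofReal_re]
    simp
  rw [h3, Real.log_exp]
  have h4 := (abs_re_le_norm _).trans (h.asy _ hmem (by simpa using hs))
  have e1 : (P.H * exp (P.ρ * (s : ℂ)) : ℂ).re = P.H * Real.exp (P.ρ * s) := by
    rw [← ofReal_mul, re_ofReal_mul, Complex.exp_ofReal_re]
  have e2 : (P.H₁ * exp (P.σ₁ * (s : ℂ)) : ℂ).re = P.H₁ * Real.exp (P.σ₁ * s) := by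
    rw [← ofReal_mul, re_ofReal_mul, Complex.exp_ofReal_re]
  rw [sub_re, add_re, e1, e2, ofReal_re] at h4
  have h5 : Real.exp (P.σ * s) ≤ Real.exp (max P.σ P.σ₁ * s) :=
    Real.exp_le_exp.2 (mul_le_mul_of_nonneg_right (le_max_left _ _) hs)
  have h6 : Real.exp (P.σ₁ * s) ≤ Real.exp (max P.σ P.σ₁ * s) :=
    Real.exp_le_exp.2 (mul_le_mul_of_nonneg_right (le_max_right _ _) hs)
  have h7 := hP.C0
  have h8 := hP.H₁0
  have h9 : 0 < Real.exp (P.σ₁ * s) := Real.exp_pos _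
  have h10 : P.C * Real.exp (P.σ * s) ≤ P.C * Real.exp (max P.σ P.σ₁ * s) :=
    mul_le_mul_of_nonneg_left h5 h7.le
  have h11 : P.H₁ * Real.exp (P.σ₁ * s) ≤ P.H₁ * Real.exp (max P.σ P.σ₁ * s) :=
    mul_le_mul_of_nonneg_left h6 h8
  have h12 : 0 ≤ P.H₁ * Real.exp (P.σ₁ * s) := by positivity
  rw [abs_le] at h4 ⊢
  constructor <;> linarith [h4.1, h4.2]

/-- The generic lower bound. -/
theorem lower_main (ρ H σ₁ H₁ θ₀ τ δ₀ : ℝ) (d : ℕ) (E : Set ℝ) (Ψ KΨ : ℂ → ℂ)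
    (hB : Base ρ H σ₁ H₁ θ₀ τ δ₀ d E Ψ KΨ) (hd : 2 ≤ d) (hdρ : (d : ℝ) < ρ)
    (hH : 0 < H) (hσ₁ : 0 < σ₁) (hσρ : σ₁ < ρ) (hH₁ : 0 ≤ H₁) (hθ : Real.pi / 2 < θ₀)
    (hθ' : θ₀ ≤ Real.pi) (hθ3 : θ₀ ≠ 2 * Real.pi / 3) (hτ : 0 < τ)
    (hτ1 : 32 * (ρ + 1) * τ ≤ 1) (hτ2 : θ₀ < Real.pi → θ₀ + 2 * τ < Real.pi)
    (hper : exp (ρ * θ₀ * I) = 1) (hper₁ : H₁ = 0 ∨ exp (σ₁ * θ₀ * I) = 1)
    (hb : Real.cos (d * θ₀) < 1) (hE : E ⊆ Icc 0 Real.pi)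
    (hpos : ∀ m, 0 < rco (fun z => Ψ z * exp (z ^ d)) m)
    (ψ Ma t' c₃ x₀ : ℝ) (hψ : Real.pi / 2 < ψ) (hψ' : ψ ≤ Real.pi) (hMa : 0 < Ma)
    (hQ : 0 < 1 + qc d ψ * Ma) (ht' : 0 < t')
    (hA0 : 2 * τ ≤ ψ - t') (hA1 : Icc (θ₀ - 2 * τ) (θ₀ + 2 * τ) ⊆ Ang ψ t')
    (hEA : E ⊆ Ang ψ t') (hc₃ : 0 < c₃)
    (hE3 : ∀ θ ∈ E, ∀ x M : ℝ, 0 < M → M ≤ Ma →
      c₃ * Real.exp (d * x) ≤ (1 - Real.cos (d * θ)) * Real.exp (d * x) + M * kap d ψ θ x)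
    (hK1 : (1 - Real.cos (d * θ₀)) * Real.exp (d * x₀) + Ma * kap d ψ θ₀ x₀ < 0) :
    ∃ f ∈ Pool.Agent.helper38.Lac.Gord (ρ : EReal) 2,
      min δ₀ ψ ≤ Pool.Agent.helper38.Lac.delta f := by
  obtain ⟨ε₁, Mb, hε₁, hcc, h⟩ := exists_touch ρ H σ₁ H₁ θ₀ τ δ₀ d E Ψ KΨ hB hd hdρ hH hσ₁ hσρ hH₁ hθ hθ' hτ
    hτ1 hτ2 hper hper₁ hb hE hpos ψ Ma t' c₃ x₀ hψ hψ' hMa hQ ht' hA0 hA1 hEA hc₃ hE3 hK1
  obtain ⟨t, C, c, C₀, C', μ, T, A, M, m₀, s, w₁, -, ht, hC', hcfg, hP, hcls, hsad, hnn,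
    hfreq, -, hzero⟩ := h ε₁ 2 hε₁ le_rfl
  set f := fam Ψ d ψ μ T with hf
  set P : CP := ⟨ρ, H, σ₁, H₁, θ₀, τ, d + ε₁, C, d - ε₁, c, C₀⟩ with hPdef
  obtain ⟨η, hη, hiso⟩ := iso θ₀ hθ hθ' hθ3
  obtain ⟨m₁, h1⟩ := sp_main P hP m₀ C' η hC' hη
  obtain ⟨m₂, h2⟩ := sp_ratio P hP m₀ C' η hC' hη
  have hNpos : ∀ m, 0 < Nof P (Kfam KΨ d ψ μ T) s m := by
    intro m
    unfold Nof
    have hH := hP.H0
    have hρ : 0 < P.ρ := by linarith [hP.ρ1]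
    apply div_pos (Real.exp_pos _)
    apply Real.sqrt_pos.2
    have := Real.exp_pos (P.ρ * s m)
    have := Real.pi_pos
    positivity
  have h3 := hiso (fun m => rco f m / Nof P (Kfam KΨ d ψ μ T) s m)
    (fun m => Xof (Kfam KΨ d ψ μ T) s w₁ m) (max m₁ m₂)
    (fun m hm => (h1 _ _ _ _ hcls hsad m ((le_max_left _ _).trans hm)).1)
    (fun m hm hpi => (h1 _ _ _ _ hcls hsad m ((le_max_left _ _).trans hm)).2 hpi)
    (fun m hm => h2 _ _ _ _ hcls hsad m ((le_max_right _ _).trans hm))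
    (fun m _ => div_nonneg (hnn m) (hNpos m).le)
  have hzinf := FN_inf hcfg ht hzero
  refine ⟨f, mem_Gord_two (H := H) (C := C + H₁) (σ' := max (d + ε₁) σ₁) (by linarith [hP.ρ1])
    hH (max_lt hP.σρ hσρ) hcls.ent hnn ?_ hfreq hzinf (FN_growth hP hcls), ?_⟩
  · filter_upwards [Filter.eventually_ge_atTop (max m₁ m₂)] with m hm hcon
    refine h3 m hm ⟨?_, ?_⟩
    · simp [hcon.1]
    · simp [hcon.2]
  · obtain ⟨R, hR⟩ := hB.zer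
    apply le_delta_of hcls.ent.1 hzinf (R := R)
    intro z hz hzR
    rcases (hzero z).1 hz with h4 | ⟨j, h4 | h4⟩
    · exact (min_le_left _ _).trans (hR z h4 hzR)
    · rw [h4, (FN_arg (by linarith [(FN_T_mono hcfg ht).1 j]) hψ hψ').1]
      exact min_le_right _ _
    · rw [h4, (FN_arg (by linarith [(FN_T_mono hcfg ht).1 j]) hψ hψ').2]
      exact min_le_right _ _

end Pool.Agent.helper74.LG
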