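import Pool.Agent.helper74.LG.Defs

set_option autoImplicit false

namespace Pool.Agent.helper74.LG

open Complex Set Filter Topology MeasureTheory

theorem I2_closed (X δ : ℕ → ℂ) (m N : ℕ)
    (hrec : ∀ j, j < N → X (m + j + 1) = exp (-(2 * Real.pi / 3 * I) - δ (m + j)) * X (m + j)) :
    ∀ n, n ≤ N → X (m + n) =
      exp (-(n * (2 * Real.pi / 3 * I)) - ∑ j ∈ Finset.range n, δ (m + j)) * X m := by
  intro n
  induction n with
  | zero => intro _; simp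
  | succ n ih =>
    intro hn
    rw [← add_assoc, hrec n (by omega), ih (by omega), ← mul_assoc, ← exp_add,
      Finset.sum_range_succ]
    congr 2
    push_cast
    ring

theorem I2_find (X δ : ℕ → ℂ) (m L : ℕ) (κ γ : ℝ) (hγπ : γ ≤ Real.pi)
    (hrec : ∀ j, j < 3 * L →
      X (m + j + 1) = exp (-(2 * Real.pi / 3 * I) - δ (m + j)) * X (m + j))
    (hre : ∀ n, n ≤ 3 * L → |∑ j ∈ Finset.range n, (δ (m + j)).re| ≤ κ)
    (him : ∀ j, j < 3 * L → (δ (m + j)).im ≤ γ / 3)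
    (hsum : 2 * Real.pi ≤ ∑ j ∈ Finset.range (3 * L), (δ (m + j)).im) :
    ∃ l, l ≤ L ∧ (X (m + 3 * l)).re ≤ -(Real.cos γ * ‖X (m + 3 * l)‖) ∧
      Real.exp (-κ) * ‖X m‖ ≤ ‖X (m + 3 * l)‖ ∧ ‖X (m + 3 * l)‖ ≤ Real.exp κ * ‖X m‖ := by
  classical
  set S : ℕ → ℝ := fun n => ∑ j ∈ Finset.range n, (δ (m + j)).im with hS
  set R : ℕ → ℝ := fun n => ∑ j ∈ Finset.range n, (δ (m + j)).re with hR
  set θ : ℝ := arg (X m) with hθ
  have hθ1 : -Real.pi < θ := neg_pi_lt_arg _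
  have hθ2 : θ ≤ Real.pi := arg_le_pi _
  have hP : ∃ l, θ + Real.pi ≤ S (3 * l) := ⟨L, by
    have : S (3 * L) = ∑ j ∈ Finset.range (3 * L), (δ (m + j)).im := rfl
    rw [this]; linarith⟩
  set l := Nat.find hP with hl
  have hlP : θ + Real.pi ≤ S (3 * l) := Nat.find_spec hP
  have hlL : l ≤ L := Nat.find_min' hP (by
    have : S (3 * L) = ∑ j ∈ Finset.range (3 * L), (δ (m + j)).im := rfl
    rw [this]; linarith)
  have hl0 : l ≠ 0 := by
    intro h0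
    rw [h0] at hlP
    have : S (3 * 0) = 0 := by simp [hS]
    rw [this] at hlP
    linarith
  obtain ⟨l', hl'⟩ := Nat.exists_eq_succ_of_ne_zero hl0
  have hprev : S (3 * l') < θ + Real.pi := by
    have := Nat.find_min hP (m := l') (by rw [← hl]; omega)
    exact not_le.mp this
  have hstep : S (3 * l) ≤ S (3 * l') + γ := by
    have e : 3 * l = 3 * l' + 1 + 1 + 1 := by omega
    rw [e]
    simp only [hS, Finset.sum_range_succ]
    have h1 := him (3 * l') (by omega)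
    have h2 := him (3 * l' + 1) (by omega)
    have h3 := him (3 * l' + 1 + 1) (by omega)
    linarith
  have hX : X (m + 3 * l) = (‖X m‖ * Real.exp (-R (3 * l)) : ℝ) *
      exp (((θ - S (3 * l) : ℝ) : ℂ) * I) := by
    rw [I2_closed X δ m (3 * L) hrec (3 * l) (by omega)]
    have e1 : exp (-(((3 * l : ℕ) : ℂ) * (2 * Real.pi / 3 * I)) -
        ∑ j ∈ Finset.range (3 * l), δ (m + j)) =
        exp (-(∑ j ∈ Finset.range (3 * l), δ (m + j))) := by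
      rw [sub_eq_add_neg, exp_add]
      have : exp (-(((3 * l : ℕ) : ℂ) * (2 * Real.pi / 3 * I))) = 1 := by
        rw [exp_eq_one_iff]
        refine ⟨-(l : ℤ), ?_⟩
        push_cast
        ring
      rw [this, one_mul]
    have e2 : ∑ j ∈ Finset.range (3 * l), δ (m + j) =
        ((R (3 * l) : ℝ) : ℂ) + ((S (3 * l) : ℝ) : ℂ) * I := by
      simp only [hR, hS]
      push_cast
      rw [Finset.sum_mul, ← Finset.sum_add_distrib]
      exact Finset.sum_congr rfl fun j _ => (re_add_im _).symm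
    have e3 : X m = (‖X m‖ : ℝ) * exp ((θ : ℂ) * I) := (norm_mul_exp_arg_mul_I (X m)).symm
    rw [e1, e2]
    conv_lhs => rw [e3]
    have e4 : exp (-((R (3 * l) : ℝ) + ((S (3 * l) : ℝ) : ℂ) * I)) * exp ((θ : ℂ) * I) =
        exp (-((R (3 * l) : ℝ) : ℂ)) * exp (((θ - S (3 * l) : ℝ) : ℂ) * I) := by
      rw [← exp_add, ← exp_add]; congr 1; push_cast; ring
    push_cast at e4 ⊢
    linear_combination (‖X m‖ : ℂ) * e4
  have hnorm : ‖X (m + 3 * l)‖ = ‖X m‖ * Real.exp (-R (3 * l)) := by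
    rw [hX, norm_mul, norm_exp_ofReal_mul_I, mul_one, norm_real, Real.norm_eq_abs,
      abs_of_nonneg (by positivity)]
  have hRk := abs_le.mp (hre (3 * l) (by omega))
  have hRk1 : -κ ≤ R (3 * l) := hRk.1
  have hRk2 : R (3 * l) ≤ κ := hRk.2
  refine ⟨l, hlL, ?_, ?_, ?_⟩
  · have hre2 : (X (m + 3 * l)).re = ‖X (m + 3 * l)‖ * Real.cos (θ - S (3 * l)) := by
      rw [hnorm, hX, re_ofReal_mul, exp_ofReal_mul_I_re]
    rw [hre2]
    have hcos : Real.cos (θ - S (3 * l)) ≤ -Real.cos γ := by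
      have e : θ - S (3 * l) = -(S (3 * l) - θ - Real.pi) - Real.pi := by ring
      rw [e, Real.cos_sub_pi, Real.cos_neg]
      apply neg_le_neg
      exact Real.cos_le_cos_of_nonneg_of_le_pi (by linarith) hγπ (by linarith)
    nlinarith [norm_nonneg (X (m + 3 * l))]
  · rw [hnorm, mul_comm]
    exact mul_le_mul_of_nonneg_left (Real.exp_le_exp.mpr (by linarith)) (norm_nonneg _)
  · rw [hnorm, mul_comm]
    exact mul_le_mul_of_nonneg_right (Real.exp_le_exp.mpr (by linarith)) (norm_nonneg _)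

/-- the choice of the small parameter -/
theorem I2_param (ε : ℝ) (hε : 0 < ε) : ∃ t : ℝ, 0 < t ∧ t ≤ 1 ∧
    ∀ x : ℝ, 0 ≤ x → 2 * (Real.cos t * (Real.exp (-t) * x)) ≤ 1 + t * (1 + Real.exp t * x) →
      x ≤ 1 / 2 + ε := by
  have hcont : Continuous fun t : ℝ => (1 / 2 + ε) *
      (2 * Real.cos t * Real.exp (-t) - t * Real.exp t) - (1 + t) := by fun_prop
  have hlim := hcont.tendsto 0
  simp only [Real.cos_zero, neg_zero, Real.exp_zero, sub_zero, mul_one, add_zero] at hlim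
  have hpos : 0 < (1 / 2 + ε) * 2 - 1 := by linarith
  have hev := (hlim.eventually (lt_mem_nhds hpos)).filter_mono
    (nhdsWithin_le_nhds (s := Ioi (0 : ℝ)))
  have hev2 : ∀ᶠ t : ℝ in 𝓝[>] 0, t < 1 := nhdsWithin_le_nhds (Iio_mem_nhds one_pos)
  obtain ⟨t, ⟨ht1, ht2⟩, ht0⟩ := ((hev.and hev2).and self_mem_nhdsWithin).exists
  have ht0 : 0 < t := ht0
  refine ⟨t, ht0, ht2.le, fun x hx hxle => ?_⟩
  by_contra hcon
  have hcon := not_le.mp hcon
  have hD : 0 < 2 * Real.cos t * Real.exp (-t) - t * Real.exp t := by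
    by_contra hD
    have := mul_nonpos_of_nonneg_of_nonpos (show 0 ≤ 1 / 2 + ε by linarith) (not_lt.mp hD)
    linarith
  have h1 : x * (2 * Real.cos t * Real.exp (-t) - t * Real.exp t) ≤ 1 + t := by linarith
  have h2 := mul_lt_mul_of_pos_right hcon hD
  linarith

/-- the number of steps -/
theorem I2_steps (c C κ : ℝ) (hc : 0 < c) (hC : 0 ≤ C) (hκ : 0 < κ) : ∀ᶠ n : ℕ in atTop, ∃ L : ℕ,
    ((3 * L : ℕ) : ℝ) ^ 2 * (C * (n : ℝ) ^ (-(5 / 4 : ℝ))) ≤ κ ∧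
    2 * Real.pi ≤ ((3 * L : ℕ) : ℝ) * (c * (((n + 1 + 3 * L : ℕ) : ℝ)) ^ (-(1 / 3 : ℝ))) := by
  set K : ℝ := 2 * Real.pi / c with hK
  have hK0 : 0 < K := by have := Real.pi_pos; positivity
  have hnat : Tendsto (fun n : ℕ => (n : ℝ)) atTop atTop := tendsto_natCast_atTop_atTop
  have hu : Tendsto (fun n : ℕ => (n : ℝ) ^ (1 / 3 : ℝ)) atTop atTop :=
    (tendsto_rpow_atTop (by norm_num)).comp hnat
  have h1 : ∀ᶠ n : ℕ in atTop, 1 / K ≤ (n : ℝ) ^ (1 / 3 : ℝ) := hu.eventually_ge_atTop _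
  have h2 : Tendsto (fun n : ℕ => 36 * K ^ 2 * C * (n : ℝ) ^ (-(7 / 12 : ℝ))) atTop (𝓝 0) := by
    have := ((tendsto_rpow_neg_atTop (show (0 : ℝ) < 7 / 12 by norm_num)).comp hnat).const_mul
      (36 * K ^ 2 * C)
    simpa using this
  have h3 : ∀ᶠ n : ℕ in atTop, 36 * K ^ 2 * C * (n : ℝ) ^ (-(7 / 12 : ℝ)) ≤ κ :=
    (h2.eventually (gt_mem_nhds hκ)).mono fun n hn => le_of_lt hn
  have h4 : Tendsto (fun n : ℕ => (n : ℝ) ^ (-(2 / 3 : ℝ))) atTop (𝓝 0) :=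
    (tendsto_rpow_neg_atTop (by norm_num)).comp hnat
  have h5 : ∀ᶠ n : ℕ in atTop, (n : ℝ) ^ (-(2 / 3 : ℝ)) ≤ 1 / (12 * K) :=
    (h4.eventually (gt_mem_nhds (show 0 < 1 / (12 * K) by positivity))).mono
      fun n hn => le_of_lt hn
  filter_upwards [h1, h3, h5, eventually_ge_atTop 2] with n hn1 hn3 hn5 hn2
  have hn2' : (2 : ℝ) ≤ n := by exact_mod_cast hn2
  have hn0 : (0 : ℝ) < n := by linarith
  set u : ℝ := (n : ℝ) ^ (1 / 3 : ℝ) with hudef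
  have hu0 : 0 < u := Real.rpow_pos_of_pos hn0 _
  have hKu : 1 ≤ K * u := by
    rw [div_le_iff₀ hK0] at hn1; linarith
  set L : ℕ := ⌈K * u⌉₊ with hL
  have hL1 : K * u ≤ L := Nat.le_ceil _
  have hL2 : (L : ℝ) ≤ 2 * (K * u) := by
    have := Nat.ceil_lt_add_one (show 0 ≤ K * u by linarith)
    rw [← hL] at this
    linarith
  refine ⟨L, ?_, ?_⟩
  · have e1 : ((3 * L : ℕ) : ℝ) ≤ 6 * (K * u) := by push_cast; linarith
    have e2 : ((3 * L : ℕ) : ℝ) ^ 2 ≤ (6 * (K * u)) ^ 2 :=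
      pow_le_pow_left₀ (by positivity) e1 2
    have e3 : u ^ 2 * (n : ℝ) ^ (-(5 / 4 : ℝ)) = (n : ℝ) ^ (-(7 / 12 : ℝ)) := by
      rw [hudef, ← Real.rpow_natCast, ← Real.rpow_mul hn0.le, ← Real.rpow_add hn0]
      norm_num
    have e4 : 0 ≤ C * (n : ℝ) ^ (-(5 / 4 : ℝ)) := mul_nonneg hC (Real.rpow_nonneg hn0.le _)
    calc ((3 * L : ℕ) : ℝ) ^ 2 * (C * (n : ℝ) ^ (-(5 / 4 : ℝ)))
        ≤ (6 * (K * u)) ^ 2 * (C * (n : ℝ) ^ (-(5 / 4 : ℝ))) :=
          mul_le_mul_of_nonneg_right e2 e4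
      _ = 36 * K ^ 2 * C * (u ^ 2 * (n : ℝ) ^ (-(5 / 4 : ℝ))) := by ring
      _ ≤ κ := by rw [e3]; exact hn3
  · -- n + 1 + 3 L ≤ 2 n
    have e0 : u = (n : ℝ) * (n : ℝ) ^ (-(2 / 3 : ℝ)) := by
      rw [hudef]
      nth_rewrite 2 [← Real.rpow_one (n : ℝ)]
      rw [← Real.rpow_add hn0]
      norm_num
    have e1 : 6 * (K * u) ≤ n / 2 := by
      rw [e0]
      rw [le_div_iff₀ (by positivity)] at hn5
      nlinarith
    have e2 : ((n + 1 + 3 * L : ℕ) : ℝ) ≤ 2 * n := by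
      push_cast
      linarith
    have e3 : (2 * (n : ℝ)) ^ (-(1 / 3 : ℝ)) ≤ (((n + 1 + 3 * L : ℕ) : ℝ)) ^ (-(1 / 3 : ℝ)) := by
      refine Real.rpow_le_rpow_of_nonpos (by positivity) e2 (by norm_num)
    have e4 : (2 / 3 : ℝ) * u⁻¹ ≤ (2 * (n : ℝ)) ^ (-(1 / 3 : ℝ)) := by
      rw [Real.mul_rpow (by norm_num) hn0.le, Real.rpow_neg hn0.le, ← hudef]
      refine mul_le_mul_of_nonneg_right ?_ (by positivity)
      rw [Real.rpow_neg (by norm_num), ← one_div]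
      rw [le_div_iff₀ (by positivity)]
      have e5 : (2 : ℝ) ^ (1 / 3 : ℝ) ≤ 3 / 2 := by
        have : (2 : ℝ) ^ (1 / 3 : ℝ) ≤ ((3 / 2 : ℝ) ^ (3 : ℝ)) ^ (1 / 3 : ℝ) := by
          refine Real.rpow_le_rpow (by norm_num) ?_ (by norm_num)
          norm_num
        rw [← Real.rpow_mul (by norm_num)] at this
        norm_num at this ⊢
        exact this
      linarith
    have e6 : c * ((2 / 3 : ℝ) * u⁻¹) ≤ c * (((n + 1 + 3 * L : ℕ) : ℝ)) ^ (-(1 / 3 : ℝ)) :=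
      mul_le_mul_of_nonneg_left (e4.trans e3) hc.le
    have e7 : 3 * (K * u) ≤ ((3 * L : ℕ) : ℝ) := by push_cast; linarith
    have e8 : 3 * (K * u) * (c * ((2 / 3 : ℝ) * u⁻¹)) = 2 * (K * c) := by
      field_simp
    have e9 : K * c = 2 * Real.pi := by rw [hK]; field_simp
    calc 2 * Real.pi ≤ 2 * (K * c) := by rw [e9]; have := Real.pi_pos; linarith
      _ = 3 * (K * u) * (c * ((2 / 3 : ℝ) * u⁻¹)) := e8.symm
      _ ≤ ((3 * L : ℕ) : ℝ) * (c * (((n + 1 + 3 * L : ℕ) : ℝ)) ^ (-(1 / 3 : ℝ))) :=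
        mul_le_mul e7 e6 (by positivity) (by positivity)

theorem I2_norm_step (X δ : ℕ → ℂ) (m : ℕ)
    (h : X (m + 1) = exp (-(2 * Real.pi / 3 * I) - δ m) * X m) :
    ‖X (m + 1)‖ = Real.exp (-(δ m).re) * ‖X m‖ := by
  rw [h, norm_mul, norm_exp]
  congr 2
  have : (2 * (Real.pi : ℂ) / 3 * I).re = 0 := by
    have e : (2 * (Real.pi : ℂ) / 3 * I) = ((2 * Real.pi / 3 : ℝ) : ℂ) * I := by push_cast; ring
    rw [e, re_ofReal_mul]; simp
  rw [sub_re, neg_re, this]; ring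

theorem I2_limsup (a : ℕ → ℝ) (X δ : ℕ → ℂ) (c C : ℝ) (hc : 0 < c)
    (h0 : ∀ m, 0 ≤ a m) (hX : ∀ᶠ m in atTop, X m ≠ 0)
    (h1 : ∀ η : ℝ, 0 < η → ∀ᶠ m in atTop, |a m - (1 + 2 * (X m).re)| ≤ η * (1 + ‖X m‖))
    (h2 : ∀ᶠ m in atTop, X (m + 1) = exp (-(2 * Real.pi / 3 * I) - δ m) * X m)
    (h3 : ∀ᶠ m : ℕ in atTop, ‖δ (m + 1) - δ m‖ ≤ C * (m : ℝ) ^ (-(5 / 4 : ℝ)))
    (h4 : ∀ᶠ m : ℕ in atTop, c * (m : ℝ) ^ (-(1 / 3 : ℝ)) ≤ (δ m).im)
    (h5 : Tendsto δ atTop (𝓝 0))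
    (h6 : ∃ᶠ m in atTop, ‖X m‖ ≤ 1 / 4) (ε : ℝ) (hε : 0 < ε) :
    ∀ᶠ m in atTop, ‖X m‖ ≤ 1 / 2 + ε := by
  obtain ⟨t, ht0, ht1, ht⟩ := I2_param ε hε
  have hst := I2_steps c (max C 0) t hc (le_max_right _ _) ht0
  have hδ : ∀ᶠ m in atTop, ‖δ m‖ ≤ t / 3 := by
    have := (tendsto_zero_iff_norm_tendsto_zero.mp h5).eventually
      (gt_mem_nhds (show 0 < t / 3 by linarith))
    exact this.mono fun m hm => le_of_lt hm
  obtain ⟨M0, hM0⟩ := eventually_atTop.mp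
    (hX.and ((h1 t ht0).and (h2.and (h3.and (h4.and (hδ.and (hst.and (eventually_ge_atTop 1))))))))
  have h6' := frequently_atTop.mp h6
  obtain ⟨m', hm'M, hm'X⟩ := h6' M0
  refine eventually_atTop.mpr ⟨m', fun m hm => ?_⟩
  by_contra hcon
  have hcon := not_le.mp hcon
  obtain ⟨m'', hm''m, hm''X⟩ := h6' m
  obtain ⟨q, hq, hmax⟩ := Finset.exists_max_image (Finset.Icc m' m'') (fun j => ‖X j‖)
    ⟨m, Finset.mem_Icc.mpr ⟨hm, hm''m⟩⟩
  have hqX : 1 / 2 + ε < ‖X q‖ := lt_of_lt_of_le hcon (hmax m (Finset.mem_Icc.mpr ⟨hm, hm''m⟩))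
  rw [Finset.mem_Icc] at hq
  have hq1 : q ≠ m' := by rintro rfl; linarith
  have hq2 : q ≠ m'' := by rintro rfl; linarith
  obtain ⟨n, rfl⟩ : ∃ n, q = n + 1 := ⟨q - 1, by omega⟩
  have hnM : M0 ≤ n := by omega
  obtain ⟨hXn, -, hrn, h3n, -, -, ⟨L, hL1, hL2⟩, hn1⟩ := hM0 n hnM
  obtain ⟨hXn1, -, hrn1, -, -, -, -, -⟩ := hM0 (n + 1) (by omega)
  have hn0 : (0 : ℝ) < n := by exact_mod_cast hn1
  set D : ℝ := max C 0 * (n : ℝ) ^ (-(5 / 4 : ℝ)) with hD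
  have hD0 : 0 ≤ D := mul_nonneg (le_max_right _ _) (Real.rpow_nonneg hn0.le _)
  have hdiff : ∀ j, n ≤ j → ‖δ (j + 1) - δ j‖ ≤ D := by
    intro j hj
    obtain ⟨-, -, -, h3j, -, -, -, -⟩ := hM0 j (by omega)
    refine h3j.trans ?_
    have hj0 : (n : ℝ) ≤ j := by exact_mod_cast hj
    have e1 : (j : ℝ) ^ (-(5 / 4 : ℝ)) ≤ (n : ℝ) ^ (-(5 / 4 : ℝ)) :=
      Real.rpow_le_rpow_of_nonpos hn0 hj0 (by norm_num)
    have e2 : 0 ≤ (j : ℝ) ^ (-(5 / 4 : ℝ)) := Real.rpow_nonneg (by linarith) _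
    calc C * (j : ℝ) ^ (-(5 / 4 : ℝ)) ≤ max C 0 * (j : ℝ) ^ (-(5 / 4 : ℝ)) :=
          mul_le_mul_of_nonneg_right (le_max_left _ _) e2
      _ ≤ max C 0 * (n : ℝ) ^ (-(5 / 4 : ℝ)) :=
          mul_le_mul_of_nonneg_left e1 (le_max_right _ _)
  -- signs of the real parts at the maximum
  have hs1 : (δ n).re ≤ 0 := by
    have e1 := I2_norm_step X δ n hrn
    have e2 : ‖X n‖ ≤ ‖X (n + 1)‖ := hmax n (Finset.mem_Icc.mpr ⟨by omega, by omega⟩)
    rw [e1] at e2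
    have e3 : 0 < ‖X n‖ := norm_pos_iff.mpr hXn
    have e4 : 1 ≤ Real.exp (-(δ n).re) := by
      by_contra hlt
      nlinarith [not_le.mp hlt]
    have := Real.one_le_exp_iff.mp e4
    linarith
  have hs2 : 0 ≤ (δ (n + 1)).re := by
    have e1 := I2_norm_step X δ (n + 1) hrn1
    have e2 : ‖X (n + 1 + 1)‖ ≤ ‖X (n + 1)‖ :=
      hmax (n + 1 + 1) (Finset.mem_Icc.mpr ⟨by omega, by omega⟩)
    rw [e1] at e2
    have e3 : 0 < ‖X (n + 1)‖ := norm_pos_iff.mpr hXn1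
    have e4 : Real.exp (-(δ (n + 1)).re) ≤ 1 := by
      by_contra hlt
      nlinarith [not_le.mp hlt]
    have := Real.exp_le_one_iff.mp e4
    linarith
  have hre : ∀ j, |(δ (n + 1 + j)).re| ≤ (j + 1) * D := by
    intro j
    induction j with
    | zero =>
      have e1 := (re_le_norm (δ (n + 1) - δ n)).trans (hdiff n le_rfl)
      rw [sub_re] at e1
      rw [add_zero, abs_of_nonneg hs2]
      push_cast
      linarith
    | succ j ih =>
      have e1 := (abs_re_le_norm (δ (n + 1 + j + 1) - δ (n + 1 + j))).trans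
        (hdiff (n + 1 + j) (by omega))
      rw [sub_re] at e1
      have e2 := abs_sub_abs_le_abs_sub (δ (n + 1 + j + 1)).re (δ (n + 1 + j)).re
      rw [← add_assoc]
      push_cast
      linarith
  have hsumre : ∀ N, N ≤ 3 * L → |∑ j ∈ Finset.range N, (δ (n + 1 + j)).re| ≤ t := by
    intro N hN
    have hN' : (N : ℝ) ≤ ((3 * L : ℕ) : ℝ) := by exact_mod_cast hN
    calc |∑ j ∈ Finset.range N, (δ (n + 1 + j)).re|
        ≤ ∑ j ∈ Finset.range N, |(δ (n + 1 + j)).re| := Finset.abs_sum_le_sum_abs _ _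
      _ ≤ ∑ _j ∈ Finset.range N, (N : ℝ) * D := by
          refine Finset.sum_le_sum fun j hj => (hre j).trans ?_
          refine mul_le_mul_of_nonneg_right ?_ hD0
          have : j + 1 ≤ N := Finset.mem_range.mp hj
          exact_mod_cast this
      _ = (N : ℝ) ^ 2 * D := by
          rw [Finset.sum_const, Finset.card_range, nsmul_eq_mul]; ring
      _ ≤ ((3 * L : ℕ) : ℝ) ^ 2 * D :=
          mul_le_mul_of_nonneg_right (pow_le_pow_left₀ (Nat.cast_nonneg _) hN' 2) hD0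
      _ ≤ t := hL1
  have himle : ∀ j, j < 3 * L → (δ (n + 1 + j)).im ≤ t / 3 := by
    intro j _
    obtain ⟨-, -, -, -, -, hdj, -, -⟩ := hM0 (n + 1 + j) (by omega)
    exact ((le_abs_self _).trans (abs_im_le_norm _)).trans hdj
  have hsumim : 2 * Real.pi ≤ ∑ j ∈ Finset.range (3 * L), (δ (n + 1 + j)).im := by
    refine hL2.trans ?_
    have e1 : ∀ j ∈ Finset.range (3 * L),
        c * (((n + 1 + 3 * L : ℕ) : ℝ)) ^ (-(1 / 3 : ℝ)) ≤ (δ (n + 1 + j)).im := by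
      intro j hj
      have hj' := Finset.mem_range.mp hj
      obtain ⟨-, -, -, -, h4j, -, -, -⟩ := hM0 (n + 1 + j) (by omega)
      refine le_trans ?_ h4j
      refine mul_le_mul_of_nonneg_left ?_ hc.le
      refine Real.rpow_le_rpow_of_nonpos (by push_cast; positivity) ?_ (by norm_num)
      exact_mod_cast (by omega : n + 1 + j ≤ n + 1 + 3 * L)
    have e2 := Finset.sum_le_sum e1
    rw [Finset.sum_const, Finset.card_range, nsmul_eq_mul] at e2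
    exact e2
  obtain ⟨l, hlL, hl1, hl2, hl3⟩ := I2_find X δ (n + 1) L t t
    (by have := Real.pi_gt_three; linarith)
    (fun j _ => (hM0 (n + 1 + j) (by omega)).2.2.1) hsumre himle hsumim
  obtain ⟨-, h1l, -, -, -, -, -, -⟩ := hM0 (n + 1 + 3 * l) (by omega)
  have e1 := abs_le.mp h1l
  have e2 := h0 (n + 1 + 3 * l)
  have hcost : 0 < Real.cos t := Real.cos_pos_of_mem_Ioo
    ⟨by have := Real.pi_pos; linarith, by have := Real.pi_gt_three; linarith⟩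
  have e3 : Real.cos t * (Real.exp (-t) * ‖X (n + 1)‖) ≤ Real.cos t * ‖X (n + 1 + 3 * l)‖ :=
    mul_le_mul_of_nonneg_left hl2 hcost.le
  have e4 : t * (1 + ‖X (n + 1 + 3 * l)‖) ≤ t * (1 + Real.exp t * ‖X (n + 1)‖) :=
    mul_le_mul_of_nonneg_left (by linarith) ht0.le
  have e5 := ht ‖X (n + 1)‖ (norm_nonneg _) (by linarith [e1.2])
  linarith

/-- No two adjacent zeros when `θ₀ = 2π/3`, by phase drift. Sketch: let `m` be large. Choose
`m' ≤ m ≤ m''` large with `‖X m'‖, ‖X m''‖ ≤ 1/4` (by `h6`) and `m*` a maximum point of `‖X‖` on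
`[m', m'']`. If `‖X m*‖ > 1/4` then `m*` is interior, so `Re δ (m*-1) ≤ 0 ≤ Re δ m*` and
`|Re δ m*| ≤ C m*^{-5/4}` by `h3`. For `L ≤ C' m*^{1/3}` steps the modulus of `X` changes by a
factor `1 + o (1)` (`L^2 m^{-5/4} → 0`), and the phase of `X (m* + 3l)` moves by
`- ∑ Im δ`, in steps tending to `0` (`h5`), by more than `2π` in total (`h4`); so for some `l`,
`Re X (m* + 3l) ≤ -(1 - o (1)) ‖X m*‖`, and `a ≥ 0` gives `‖X m*‖ ≤ 1/2 + o (1)`. Hence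
`‖X m‖ ≤ 1/2 + o (1)` for all large `m`; if `a m = 0` then `X m = -1/2 + o (1)`, so
`a (m+1) = 3/2 + o (1) > 0`. -/
theorem iso_drift (a : ℕ → ℝ) (X δ : ℕ → ℂ) (c C : ℝ) (hc : 0 < c)
    (h0 : ∀ m, 0 ≤ a m) (hX : ∀ᶠ m in atTop, X m ≠ 0)
    (h1 : ∀ η : ℝ, 0 < η → ∀ᶠ m in atTop, |a m - (1 + 2 * (X m).re)| ≤ η * (1 + ‖X m‖))
    (h2 : ∀ᶠ m in atTop, X (m + 1) = exp (-(2 * Real.pi / 3 * I) - δ m) * X m)
    (h3 : ∀ᶠ m : ℕ in atTop, ‖δ (m + 1) - δ m‖ ≤ C * (m : ℝ) ^ (-(5 / 4 : ℝ)))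
    (h4 : ∀ᶠ m : ℕ in atTop, c * (m : ℝ) ^ (-(1 / 3 : ℝ)) ≤ (δ m).im)
    (h5 : Tendsto δ atTop (𝓝 0))
    (h6 : ∃ᶠ m in atTop, ‖X m‖ ≤ 1 / 4) :
    ∀ᶠ m in atTop, ¬ (a m = 0 ∧ a (m + 1) = 0) := by
  have hA := I2_limsup a X δ c C hc h0 hX h1 h2 h3 h4 h5 h6 (1 / 100) (by norm_num)
  have hδ : ∀ᶠ m in atTop, ‖δ m‖ ≤ 1 / 100 := by
    have := (tendsto_zero_iff_norm_tendsto_zero.mp h5).eventually
      (gt_mem_nhds (show (0 : ℝ) < 1 / 100 by norm_num))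
    exact this.mono fun m hm => le_of_lt hm
  have h1' := h1 (1 / 100) (by norm_num)
  filter_upwards [hA, (tendsto_add_atTop_nat 1).eventually hA, h1',
    (tendsto_add_atTop_nat 1).eventually h1', h2, hδ] with m hA0 hA1 h10 h11 h2m hδm
  rintro ⟨ha0, ha1⟩
  rw [ha0] at h10
  rw [ha1] at h11
  have b0 := abs_le.mp h10
  have b1 := abs_le.mp h11
  set z := X m with hz
  have hre1 : z.re ≤ -(49 / 100) := by linarith [b0.1]
  have hre2 : -(51 / 100) ≤ z.re := by linarith [b0.2]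
  have him : |z.im| ≤ 3 / 20 + 1 / 100 := by
    have e1 : z.re ^ 2 + z.im ^ 2 ≤ (51 / 100) ^ 2 := by
      have e2 : ‖z‖ ^ 2 = z.re ^ 2 + z.im ^ 2 := by
        rw [Complex.sq_norm, normSq_apply]; ring
      rw [← e2]
      exact pow_le_pow_left₀ (norm_nonneg _) (by linarith) 2
    rw [abs_le]
    constructor <;> nlinarith
  have hcos : Real.cos (2 * Real.pi / 3) = -(1 / 2) := by
    have : 2 * Real.pi / 3 = 2 * (Real.pi / 3) := by ring
    rw [this, Real.cos_two_mul, Real.cos_pi_div_three]; norm_num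
  have hω : (exp (-(2 * Real.pi / 3 * I)) * z).re =
      Real.cos (2 * Real.pi / 3) * z.re + Real.sin (2 * Real.pi / 3) * z.im := by
    have e : exp (-(2 * Real.pi / 3 * I)) = exp (((-(2 * Real.pi / 3) : ℝ) : ℂ) * I) := by
      congr 1; push_cast; ring
    rw [e, mul_re, exp_ofReal_mul_I_re, exp_ofReal_mul_I_im, Real.cos_neg, Real.sin_neg]
    ring
  have hω2 : 0 ≤ (exp (-(2 * Real.pi / 3 * I)) * z).re := by
    rw [hω, hcos]
    have e1 : |Real.sin (2 * Real.pi / 3) * z.im| ≤ 3 / 20 + 1 / 100 := by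
      rw [abs_mul]
      calc |Real.sin (2 * Real.pi / 3)| * |z.im| ≤ 1 * |z.im| :=
            mul_le_mul_of_nonneg_right (Real.abs_sin_le_one _) (abs_nonneg _)
        _ ≤ 3 / 20 + 1 / 100 := by rw [one_mul]; exact him
    have e2 := (abs_le.mp e1).1
    linarith
  have hωn : ‖exp (-(2 * Real.pi / 3 * I)) * z‖ ≤ 51 / 100 := by
    have e : exp (-(2 * Real.pi / 3 * I)) = exp (((-(2 * Real.pi / 3) : ℝ) : ℂ) * I) := by
      congr 1; push_cast; ring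
    rw [e, norm_mul, norm_exp_ofReal_mul_I, one_mul]
    linarith
  have hstep : X (m + 1) = exp (-(2 * Real.pi / 3 * I)) * z +
      (exp (-δ m) - 1) * (exp (-(2 * Real.pi / 3 * I)) * z) := by
    rw [h2m, sub_eq_add_neg, exp_add]; ring
  have herr : ‖(exp (-δ m) - 1) * (exp (-(2 * Real.pi / 3 * I)) * z)‖ ≤ 1 / 20 := by
    rw [norm_mul]
    have e1 : ‖exp (-δ m) - 1‖ ≤ 2 * ‖-δ m‖ := norm_exp_sub_one_le (by rw [norm_neg]; linarith)
    rw [norm_neg] at e1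
    calc ‖exp (-δ m) - 1‖ * ‖exp (-(2 * Real.pi / 3 * I)) * z‖ ≤ (2 / 100) * (51 / 100) :=
          mul_le_mul (by linarith) hωn (norm_nonneg _) (by norm_num)
      _ ≤ 1 / 20 := by norm_num
  have hre3 : -(1 / 20) ≤ (X (m + 1)).re := by
    rw [hstep, add_re]
    have e1 := (abs_le.mp ((abs_re_le_norm _).trans herr)).1
    linarith
  linarith [b1.1]

end Pool.Agent.helper74.LG
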