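import Pool.Agent.helper74.LG.EL

set_option autoImplicit false

namespace Pool.Agent.helper74.LG

open Complex Set Filter Topology MeasureTheory

theorem K1_elog_re (w : ℂ) :
    (elog 2 Real.pi w).re = 2 * Real.log ‖1 + exp w‖ + (-2 * exp w + exp w ^ 2).re := by
  have h1 : exp (w - Real.pi * I) = -exp w := by
    rw [exp_sub, exp_pi_mul_I]; ring
  have h2 : exp (w + Real.pi * I) = -exp w := by
    rw [exp_add, exp_pi_mul_I]; ring
  have h3 : clPoly 2 Real.pi (exp w) = -2 * exp w + exp w ^ 2 := by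
    unfold clPoly
    rw [Finset.sum_Icc_succ_top (by norm_num : 1 ≤ 1 + 1), Finset.Icc_self, Finset.sum_singleton]
    have e1 : Real.cos (((1 : ℕ) : ℝ) * Real.pi) = -1 := by
      rw [Nat.cast_one, one_mul, Real.cos_pi]
    have e2 : Real.cos (((1 + 1 : ℕ) : ℝ) * Real.pi) = 1 := by
      norm_num [Real.cos_two_pi]
    rw [e1, e2]
    push_cast
    ring
  unfold elog
  rw [h1, h2, h3, sub_neg_eq_add, add_re, add_re, log_re]
  ring

theorem K1_norm (x θ : ℝ) : ‖1 + exp ((x : ℂ) + θ * I)‖ ^ 2 =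
    1 + 2 * Real.exp x * Real.cos θ + Real.exp x ^ 2 := by
  rw [← normSq_eq_norm_sq, normSq_apply, exp_add, ← ofReal_exp, exp_mul_I, ← ofReal_cos,
    ← ofReal_sin]
  simp only [add_re, one_re, mul_re, ofReal_re, I_re, mul_zero, ofReal_im, I_im, mul_one, sub_self,
    add_zero, add_im, mul_im, zero_add, one_im, zero_mul]
  have := Real.sin_sq_add_cos_sq θ
  nlinarith

theorem K1_kap (x θ : ℝ) : kap 2 Real.pi θ x =
    2 * Real.log (1 + Real.exp x) - 2 * Real.log ‖1 + exp ((x : ℂ) + θ * I)‖ -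
      2 * Real.exp x * (1 - Real.cos θ) + 2 * Real.exp x ^ 2 * (1 - Real.cos θ ^ 2) := by
  unfold kap
  rw [K1_elog_re, K1_elog_re]
  have h0 : ‖1 + exp (x : ℂ)‖ = 1 + Real.exp x := by
    rw [← ofReal_exp, ← ofReal_one, ← ofReal_add, norm_real, Real.norm_eq_abs,
      abs_of_pos (by positivity)]
  rw [h0]
  have h1 : (-2 * exp (x : ℂ) + exp (x : ℂ) ^ 2).re = -2 * Real.exp x + Real.exp x ^ 2 := by
    rw [← ofReal_exp]
    have : (-2 * ((Real.exp x : ℝ) : ℂ) + ((Real.exp x : ℝ) : ℂ) ^ 2) =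
      ((-2 * Real.exp x + Real.exp x ^ 2 : ℝ) : ℂ) := by push_cast; ring
    rw [this, ofReal_re]
  have h2 : (-2 * exp ((x : ℂ) + θ * I) + exp ((x : ℂ) + θ * I) ^ 2).re =
      -2 * Real.exp x * Real.cos θ + Real.exp x ^ 2 * (2 * Real.cos θ ^ 2 - 1) := by
    rw [exp_add, ← ofReal_exp, exp_mul_I, ← ofReal_cos, ← ofReal_sin, pow_two]
    simp only [add_re, neg_re, mul_re, ofReal_re, I_re, mul_zero, ofReal_im, I_im, mul_one,
      sub_self, add_zero, add_im, mul_im, zero_add, zero_mul, neg_im, re_ofNat, im_ofNat, neg_zero,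
      sub_zero]
    have := Real.sin_sq_add_cos_sq θ
    nlinarith
  rw [h1, h2]
  ring

/-- With `c = cos θ₀ ∈ (-1, -1/2]` and `u = 1 / (2 (1 + c)) ≥ 1` one gets
`kap = 2 (-u + 1/4 + (1/2) log ((1+u)^2 / ((u-1)^2 + 1))) ≤ 2 (-3/4 + (1/2) log 4) < 0`. -/
theorem kap_neg_pi (θ₀ : ℝ) (h1 : 2 * Real.pi / 3 ≤ θ₀) (h2 : θ₀ < Real.pi) :
    ∃ x₀ : ℝ, kap 2 Real.pi θ₀ x₀ < 0 := by
  have hpi := Real.pi_pos
  set c := Real.cos θ₀ with hc
  have hc1 : c ≤ -(1 / 2) := by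
    have e : Real.cos (2 * Real.pi / 3) = -(1 / 2) := by
      rw [show 2 * Real.pi / 3 = Real.pi - Real.pi / 3 by ring, Real.cos_pi_sub,
        Real.cos_pi_div_three]
    rw [← e]
    exact Real.cos_le_cos_of_nonneg_of_le_pi (by positivity) h2.le h1
  have hc2 : -1 < c := by
    rw [← Real.cos_pi]
    exact Real.cos_lt_cos_of_nonneg_of_le_pi (by nlinarith) le_rfl h2
  have hc3 : 0 < 1 + c := by linarith
  set u := 1 / (2 * (1 + c)) with hu
  have hu0 : 0 < u := by positivity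
  have hu1 : 1 ≤ u := by
    rw [hu, le_div_iff₀ (by positivity)]; linarith
  have huc : u * (1 + c) = 1 / 2 := by
    rw [hu]; field_simp
  refine ⟨Real.log u, ?_⟩
  rw [K1_kap, Real.exp_log hu0, ← hc]
  have hn : ‖1 + exp ((Real.log u : ℝ) + (θ₀ : ℂ) * I)‖ ^ 2 = (u - 1) ^ 2 + 1 := by
    rw [K1_norm, Real.exp_log hu0, ← hc]
    nlinarith
  have hn1 : 1 ≤ ‖1 + exp ((Real.log u : ℝ) + (θ₀ : ℂ) * I)‖ ^ 2 := by
    rw [hn]; nlinarith [sq_nonneg (u - 1)]
  have hlog0 : 0 ≤ 2 * Real.log ‖1 + exp ((Real.log u : ℝ) + (θ₀ : ℂ) * I)‖ := by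
    have e : 2 * Real.log ‖1 + exp ((Real.log u : ℝ) + (θ₀ : ℂ) * I)‖ =
      Real.log (‖1 + exp ((Real.log u : ℝ) + (θ₀ : ℂ) * I)‖ ^ 2) := by
      rw [Real.log_pow]; norm_num
    rw [e]
    exact Real.log_nonneg hn1
  have hlog1 : Real.log (1 + u) ≤ Real.log 2 + (u - 1) / 2 := by
    have e : 1 + u = 2 * ((u - 1) / 2 + 1) := by ring
    rw [e, Real.log_mul (by norm_num) (by nlinarith)]
    have := Real.log_le_sub_one_of_pos (show 0 < (u - 1) / 2 + 1 by nlinarith)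
    linarith
  have hl2 := Real.log_two_lt_d9
  have e1 : 2 * u ^ 2 * (1 - c ^ 2) = u * (1 - c) := by
    have : 2 * u ^ 2 * (1 - c ^ 2) = 2 * (u * (1 + c)) * (u * (1 - c)) := by ring
    rw [this, huc]; ring
  have e2 : u * (1 - c) = 2 * u - 1 / 2 := by linarith
  rw [e1]
  have e3 : 2 * u * (1 - c) = 2 * (u * (1 - c)) := by ring
  rw [e3, e2]
  linarith

end Pool.Agent.helper74.LG
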