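import Pool.Agent.helper74.LG.EL

set_option autoImplicit false

namespace Pool.Agent.helper74.LG

open Complex Set Filter Topology MeasureTheory

theorem K5_elog (w : ℂ) : elog 2 Real.pi w = 2 * log (1 + exp w) + (-2 * exp w + exp w ^ 2) := by
  have h1 : exp (w - Real.pi * I) = -exp w := by
    rw [exp_sub, exp_pi_mul_I]; ring
  have h2 : exp (w + Real.pi * I) = -exp w := by
    rw [exp_add, exp_pi_mul_I]; ring
  have h3 : clPoly 2 Real.pi (exp w) = -2 * exp w + exp w ^ 2 := by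
    unfold clPoly
    rw [Finset.sum_Icc_succ_top (by norm_num : 1 ≤ 1 + 1), Finset.Icc_self, Finset.sum_singleton]
    have e1 : Real.cos (((1 : ℕ) : ℝ) * Real.pi) = -1 := by
      rw [Nat.cast_one, one_mul, Real.cos_pi]
    have e2 : Real.cos (((1 + 1 : ℕ) : ℝ) * Real.pi) = 1 := by
      norm_num [Real.cos_two_pi]
    rw [e1, e2]
    push_cast
    ring
  unfold elog
  rw [h1, h2, h3, sub_neg_eq_add]
  ring

/-- The sign of the rotation for `θ₀ = 2π/3`, `ψ = π`:
`- Im elog' (x + i θ₀) = 2 u^4 sin θ₀ / (1 - u + u^2)`, `u = e^x`. -/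
theorem elog_drift (x : ℝ) :
    (deriv (elog 2 Real.pi) (x + (2 * Real.pi / 3 : ℝ) * I)).im ≤ 0 := by
  have hfun : elog 2 Real.pi = fun w => 2 * log (1 + exp w) + (-2 * exp w + exp w ^ 2) :=
    funext K5_elog
  set w₀ : ℂ := x + (2 * Real.pi / 3 : ℝ) * I with hw
  have hs : 0 < Real.sin (2 * Real.pi / 3) :=
    Real.sin_pos_of_pos_of_lt_pi (by positivity) (by linarith [Real.pi_pos])
  have him : (exp w₀).im = Real.exp x * Real.sin (2 * Real.pi / 3) := by
    rw [exp_im, hw]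
    simp
  have him0 : 0 < (1 + exp w₀).im := by
    rw [add_im, one_im, zero_add, him]
    positivity
  have hslit : 1 + exp w₀ ∈ slitPlane := by
    rw [mem_slitPlane_iff]
    exact Or.inr him0.ne'
  have hne : 1 + exp w₀ ≠ 0 := slitPlane_ne_zero hslit
  have hE : HasDerivAt exp (exp w₀) w₀ := Complex.hasDerivAt_exp w₀
  have h1 : HasDerivAt (fun w => log (1 + exp w)) (exp w₀ / (1 + exp w₀)) w₀ :=
    (hE.const_add 1).clog hslit
  have h2 : HasDerivAt (fun w => exp w ^ 2) (2 * exp w₀ * exp w₀) w₀ := by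
    have h := hE.pow 2
    have h' : HasDerivAt (fun w => exp w ^ 2) (((2 : ℕ) : ℂ) * exp w₀ ^ (2 - 1) * exp w₀) w₀ := h
    simpa using h'
  have h3 := (h1.const_mul 2).add ((hE.const_mul (-2)).add h2)
  have hd : deriv (elog 2 Real.pi) w₀ = 2 * exp w₀ ^ 3 / (1 + exp w₀) := by
    rw [hfun]
    have h4 : HasDerivAt (fun w => 2 * log (1 + exp w) + (-2 * exp w + exp w ^ 2))
        (2 * (exp w₀ / (1 + exp w₀)) + (-2 * exp w₀ + 2 * exp w₀ * exp w₀)) w₀ := h3
    rw [h4.deriv]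
    field_simp
    ring
  have hcube : exp w₀ ^ 3 = (Real.exp (3 * x) : ℂ) := by
    rw [← exp_nat_mul, hw]
    have : ((3 : ℕ) : ℂ) * (x + (2 * Real.pi / 3 : ℝ) * I) =
        ((3 * x : ℝ) : ℂ) + 2 * Real.pi * I := by
      push_cast; ring
    rw [this, exp_add, exp_two_pi_mul_I, mul_one, ← ofReal_exp]
  rw [hd, hcube]
  have : (2 * (Real.exp (3 * x) : ℂ) / (1 + exp w₀)).im =
      -(2 * Real.exp (3 * x) * (1 + exp w₀).im / normSq (1 + exp w₀)) := by
    rw [div_im]
    have e0 : (2 * (Real.exp (3 * x) : ℂ)) = ((2 * Real.exp (3 * x) : ℝ) : ℂ) := by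
      rw [ofReal_mul]; rfl
    have e1 : (2 * (Real.exp (3 * x) : ℂ)).im = 0 := by
      rw [e0, ofReal_im]
    have e2 : (2 * (Real.exp (3 * x) : ℂ)).re = 2 * Real.exp (3 * x) := by
      rw [e0, ofReal_re]
    rw [e1, e2]
    ring
  rw [this]
  have : 0 ≤ 2 * Real.exp (3 * x) * (1 + exp w₀).im / normSq (1 + exp w₀) := by
    have := normSq_nonneg (1 + exp w₀)
    positivity
  linarith

end Pool.Agent.helper74.LG
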