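import Pool.Agent.helper74.LG.Defs

set_option autoImplicit false

namespace Pool.Agent.helper74.LG

open Complex Set Filter Topology MeasureTheory

theorem S1_line (w₀ : ℂ) (t : ℝ) : HasDerivAt (fun t : ℝ => w₀ + (t : ℂ) * I) I t := by
  have h := ((Complex.ofRealCLM.hasDerivAt (x := t)).mul_const I).const_add w₀
  simpa using h

/-- mean value inequality on `[-r, r]` -/
theorem S1_mvt {g g' : ℝ → ℂ} {r M : ℝ} (hg : ∀ t, |t| ≤ r → HasDerivAt g (g' t) t)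
    (hM : ∀ t, |t| ≤ r → ‖g' t‖ ≤ M) (h0 : g 0 = 0) {y : ℝ} (hy : |y| ≤ r) :
    ‖g y‖ ≤ M * |y| := by
  have hr : 0 ≤ r := (abs_nonneg y).trans hy
  have h := Convex.norm_image_sub_le_of_norm_hasDerivWithin_le (f := g) (f' := g') (C := M)
    (s := Icc (-r) r) (x := 0) (y := y)
    (fun x hx => (hg x (abs_le.2 hx)).hasDerivWithinAt) (fun x hx => hM x (abs_le.2 hx))
    (convex_Icc _ _) ⟨by linarith, hr⟩ (abs_le.1 hy)
  rw [h0, sub_zero, sub_zero] at h
  simpa using h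

theorem S1_exp {a b : ℂ} {M : ℝ} (ha : a.re ≤ M) (hb : b.re ≤ M) :
    ‖exp a - exp b‖ ≤ Real.exp M * ‖a - b‖ := by
  refine Convex.norm_image_sub_le_of_norm_hasDerivWithin_le (f := exp) (f' := exp)
    (C := Real.exp M) (s := {c : ℂ | c.re ≤ M}) (x := b) (y := a)
    (fun x _ => (Complex.hasDerivAt_exp x).hasDerivWithinAt) ?_ (convex_halfSpace_re_le M) hb ha
  intro x hx
  rw [Complex.norm_exp]
  exact Real.exp_le_exp.2 hx

/-- the exponent is close to the quadratic one -/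
theorem S1_quad {K : ℂ → ℂ} {w₀ m : ℂ} {U : Set ℂ} {Λ M r : ℝ} (hU : IsOpen U)
    (hK : DifferentiableOn ℂ K U) (hr : ∀ y : ℝ, |y| ≤ r → w₀ + y * I ∈ U)
    (hm : deriv K w₀ = m) (hM0 : 0 ≤ M)
    (hM : ∀ y : ℝ, |y| ≤ r → ‖iteratedDeriv 2 K (w₀ + y * I) - Λ‖ ≤ M) {y : ℝ} (hy : |y| ≤ r) :
    ‖K (w₀ + y * I) - K w₀ - m * (y * I) - (-(Λ * (y : ℂ) ^ 2 / 2))‖ ≤ M * y ^ 2 := by
  have hK' : DifferentiableOn ℂ (deriv K) U := hK.deriv hU
  have d1 : ∀ t : ℝ, |t| ≤ r →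
      HasDerivAt (fun t : ℝ => K (w₀ + t * I)) (deriv K (w₀ + t * I) * I) t := by
    intro t ht
    have h1 : HasDerivAt K (deriv K (w₀ + t * I)) (w₀ + t * I) :=
      (hK.differentiableAt (hU.mem_nhds (hr t ht))).hasDerivAt
    exact HasDerivAt.comp t h1 (S1_line w₀ t)
  have d2 : ∀ t : ℝ, |t| ≤ r →
      HasDerivAt (fun t : ℝ => deriv K (w₀ + t * I)) (iteratedDeriv 2 K (w₀ + t * I) * I) t := by
    intro t ht
    have h1 : HasDerivAt (deriv K) (iteratedDeriv 2 K (w₀ + t * I)) (w₀ + t * I) := by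
      rw [iteratedDeriv_succ, iteratedDeriv_one]
      exact (hK'.differentiableAt (hU.mem_nhds (hr t ht))).hasDerivAt
    exact HasDerivAt.comp t h1 (S1_line w₀ t)
  have dq : ∀ t : ℝ, HasDerivAt (fun t : ℝ => (t : ℂ)) 1 t := by
    intro t
    simpa using (hasDerivAt_id t).ofReal_comp
  -- first derivative
  have b1 : ∀ t : ℝ, |t| ≤ r → ‖deriv K (w₀ + t * I) * I - m * I + Λ * (t : ℂ)‖ ≤ M * |t| := by
    intro t ht
    refine S1_mvt (g := fun t : ℝ => deriv K (w₀ + t * I) * I - m * I + Λ * (t : ℂ))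
      (g' := fun t : ℝ => iteratedDeriv 2 K (w₀ + t * I) * I * I + Λ * 1) (r := r) ?_ ?_ ?_ ht
    · intro x hx
      exact (((d2 x hx).mul_const I).sub_const _).add ((dq x).const_mul _)
    · intro x hx
      have e : iteratedDeriv 2 K (w₀ + x * I) * I * I + Λ * 1 =
          -(iteratedDeriv 2 K (w₀ + x * I) - Λ) := by
        rw [mul_assoc, Complex.I_mul_I]
        ring
      rw [e, norm_neg]
      exact hM x hx
    · simp [hm]
  have b2 : ‖K (w₀ + y * I) - K w₀ - m * (y * I) + Λ * (y : ℂ) ^ 2 / 2‖ ≤ (M * |y|) * |y| := by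
    refine S1_mvt (g := fun t : ℝ => K (w₀ + t * I) - K w₀ - m * (t * I) + Λ * (t : ℂ) ^ 2 / 2)
      (g' := fun t : ℝ => deriv K (w₀ + t * I) * I - m * (1 * I) + Λ * ((2 : ℕ) * (t : ℂ) ^ (2 - 1) * 1) / 2)
      (r := |y|) ?_ ?_ ?_ le_rfl
    · intro x hx
      have h3 := (((dq x).pow 2).const_mul (Λ : ℂ)).div_const 2
      have h4 := ((dq x).mul_const I).const_mul m
      exact ((((d1 x (hx.trans hy)).sub_const _).sub h4)).add h3
    · intro x hx
      have e : deriv K (w₀ + x * I) * I - m * (1 * I) + Λ * ((2 : ℕ) * (x : ℂ) ^ (2 - 1) * 1) / 2 =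
          deriv K (w₀ + x * I) * I - m * I + Λ * (x : ℂ) := by
        push_cast
        ring
      rw [e]
      exact (b1 x (hx.trans hy)).trans (mul_le_mul_of_nonneg_left hx hM0)
    · simp
  rw [sub_neg_eq_add]
  refine b2.trans (le_of_eq ?_)
  rw [mul_assoc, ← sq, sq_abs]

theorem S1_gauss {Λ : ℝ} (hΛ : 1 ≤ Λ) : ∫ y : ℝ, Real.exp (-(Λ / 4) * y ^ 2) =
    Real.sqrt (4 * Real.pi) / Real.sqrt Λ := by
  rw [integral_gaussian, ← Real.sqrt_div (by positivity)]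
  congr 1
  field_simp

theorem S1_int {Λ : ℝ} (hΛ : 1 ≤ Λ) : Integrable (fun y : ℝ => Real.exp (-(Λ / 4) * y ^ 2)) :=
  integrable_exp_neg_mul_sq (by linarith)

/-- pointwise bound of the difference of the integrands -/
theorem S1_point {Λ ι B y : ℝ} {a : ℂ} (hΛ : 1 ≤ Λ) (hι : 0 ≤ ι) (hB : 0 ≤ B)
    (h1 : ‖a - (-(Λ * (y : ℂ) ^ 2 / 2))‖ ≤ Λ / 8 * y ^ 2)
    (h2 : ‖a - (-(Λ * (y : ℂ) ^ 2 / 2))‖ ≤ (ι * Λ + B * Λ * |y|) * y ^ 2) :
    ‖exp a - exp (-(Λ * (y : ℂ) ^ 2 / 2))‖ ≤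
      (8 * ι + 128 * B / Real.sqrt Λ) * Real.exp (-(Λ / 4) * y ^ 2) := by
  have hbre : (-(Λ * (y : ℂ) ^ 2 / 2) : ℂ).re = -(Λ * y ^ 2 / 2) := by
    have : (-(Λ * (y : ℂ) ^ 2 / 2) : ℂ) = ((-(Λ * y ^ 2 / 2) : ℝ) : ℂ) := by push_cast; ring
    rw [this, Complex.ofReal_re]
  have hbre' : (-(Λ * (y : ℂ) ^ 2 / 2) : ℂ).re ≤ -(3 / 8 * Λ * y ^ 2) := by
    rw [hbre]
    nlinarith [mul_nonneg (by linarith : (0 : ℝ) ≤ Λ) (sq_nonneg y)]
  have hare : a.re ≤ -(3 / 8 * Λ * y ^ 2) := by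
    have h3 : a.re - (-(Λ * (y : ℂ) ^ 2 / 2) : ℂ).re ≤ Λ / 8 * y ^ 2 := by
      rw [← Complex.sub_re]
      exact (Complex.re_le_norm _).trans h1
    rw [hbre] at h3
    linarith
  refine (S1_exp hare hbre').trans ?_
  have hΛ0 : 0 < Λ := by linarith
  set q := Real.sqrt Λ with hq
  have hq0 : 0 < q := Real.sqrt_pos.2 hΛ0
  have hqq : q ^ 2 = Λ := Real.sq_sqrt hΛ0.le
  set s := q * |y| with hs
  have hs0 : 0 ≤ s := mul_nonneg hq0.le (abs_nonneg _)
  have hss : s ^ 2 = Λ * y ^ 2 := by rw [hs, mul_pow, hqq, sq_abs]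
  have hexp : Real.exp (-(3 / 8 * Λ * y ^ 2)) = Real.exp (-(s ^ 2 / 8)) * Real.exp (-(Λ / 4) * y ^ 2) := by
    rw [← Real.exp_add]
    congr 1
    rw [hss]
    ring
  rw [hexp, mul_comm (Real.exp (-(s ^ 2 / 8))), mul_assoc, mul_comm]
  apply mul_le_mul_of_nonneg_right _ (Real.exp_pos _).le
  have e1 : (ι * Λ + B * Λ * |y|) * y ^ 2 = ι * s ^ 2 + B / q * s ^ 3 := by
    have : s ^ 3 = s ^ 2 * (q * |y|) := by rw [hs]; ring
    rw [this, hss]
    field_simp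
  have hE := Real.quadratic_le_exp_of_nonneg (by positivity : 0 ≤ s ^ 2 / 8)
  have hE1 : s ^ 2 ≤ 8 * Real.exp (s ^ 2 / 8) := by nlinarith [sq_nonneg (s ^ 2)]
  have hE2 : s ^ 3 ≤ 128 * Real.exp (s ^ 2 / 8) := by
    have : s ^ 3 ≤ 1 + s ^ 4 := by
      nlinarith [sq_nonneg (s ^ 2 - s), sq_nonneg (s - 1), sq_nonneg (s ^ 2 - 1), sq_nonneg s]
    nlinarith [sq_nonneg (s ^ 2)]
  have hinv : Real.exp (-(s ^ 2 / 8)) * Real.exp (s ^ 2 / 8) = 1 := by
    rw [← Real.exp_add]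
    simp
  have hneg := Real.exp_pos (-(s ^ 2 / 8))
  calc Real.exp (-(s ^ 2 / 8)) * ‖a - (-(Λ * (y : ℂ) ^ 2 / 2))‖
      ≤ Real.exp (-(s ^ 2 / 8)) * (ι * s ^ 2 + B / q * s ^ 3) :=
        mul_le_mul_of_nonneg_left (h2.trans (le_of_eq e1)) hneg.le
    _ ≤ Real.exp (-(s ^ 2 / 8)) * (ι * (8 * Real.exp (s ^ 2 / 8)) +
          B / q * (128 * Real.exp (s ^ 2 / 8))) := by
        apply mul_le_mul_of_nonneg_left _ hneg.le
        apply add_le_add (mul_le_mul_of_nonneg_left hE1 hι)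
        exact mul_le_mul_of_nonneg_left hE2 (by positivity)
    _ = (8 * ι + 128 * B / q) * (Real.exp (-(s ^ 2 / 8)) * Real.exp (s ^ 2 / 8)) := by ring
    _ = 8 * ι + 128 * B / q := by rw [hinv, mul_one]

/-- Laplace's method on a vertical segment through a saddle point `w₀`.
Proof: `E y = K (w₀ + iy) - K w₀ - i m y` has `E 0 = E' 0 = 0`, `E'' = - K''`; so
`Re E ≤ -(7/16) Λ y^2`, `|E + Λ y^2 / 2| ≤ ι Λ y^2 / 2 + B Λ |y|^3 / 6`; use
`|e^a - e^b| ≤ |a - b| max (|e^a|, |e^b|)` and the Gaussian integral. -/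
theorem laplace (τ B : ℝ) (hτ : 0 < τ) (hB : 0 ≤ B) : ∃ C : ℝ, 0 < C ∧
    ∀ (Λ ι : ℝ) (K : ℂ → ℂ) (w₀ m : ℂ) (U : Set ℂ), 1 ≤ Λ → 0 ≤ ι → IsOpen U →
    DifferentiableOn ℂ K U → (∀ y : ℝ, |y| ≤ τ → w₀ + y * I ∈ U) → deriv K w₀ = m →
    (∀ y : ℝ, |y| ≤ τ → ‖iteratedDeriv 2 K (w₀ + y * I) - Λ‖ ≤ Λ / 8) →
    ‖iteratedDeriv 2 K w₀ - Λ‖ ≤ ι * Λ →
    (∀ y : ℝ, |y| ≤ τ → ‖iteratedDeriv 3 K (w₀ + y * I)‖ ≤ B * Λ) →
    ‖(∫ y in (-τ)..τ, exp (K (w₀ + y * I) - K w₀ - m * (y * I))) -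
        (Real.sqrt (2 * Real.pi / Λ) : ℂ)‖ ≤ C * (ι + 1 / Real.sqrt Λ) / Real.sqrt Λ := by
  set G := Real.sqrt (4 * Real.pi) with hG
  have hG0 : 0 < G := Real.sqrt_pos.2 (by positivity)
  refine ⟨(8 + 128 * B + 4 / τ ^ 2) * G, by positivity, ?_⟩
  intro Λ ι K w₀ m U hΛ hι hU hK hτU hm h2 h2' h3
  have hΛ0 : 0 < Λ := by linarith
  set q := Real.sqrt Λ with hq
  have hq0 : 0 < q := Real.sqrt_pos.2 hΛ0
  have hqq : q ^ 2 = Λ := Real.sq_sqrt hΛ0.le
  have hq1 : 1 ≤ q := by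
    rw [hq]
    exact Real.one_le_sqrt.2 hΛ
  -- the second derivative near `w₀`
  have hK' : DifferentiableOn ℂ (deriv K) U := hK.deriv hU
  have hK2 : DifferentiableOn ℂ (iteratedDeriv 2 K) U := by
    rw [show iteratedDeriv 2 K = deriv (deriv K) by
      rw [iteratedDeriv_succ, iteratedDeriv_one]]
    exact hK'.deriv hU
  have hsec : ∀ y : ℝ, |y| ≤ τ → ‖iteratedDeriv 2 K (w₀ + y * I) - Λ‖ ≤ ι * Λ + B * Λ * |y| := by
    intro y hy
    have d3 : ∀ t : ℝ, |t| ≤ τ → HasDerivAt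
        (fun t : ℝ => iteratedDeriv 2 K (w₀ + t * I) - iteratedDeriv 2 K w₀)
        (iteratedDeriv 3 K (w₀ + t * I) * I) t := by
      intro t ht
      have h1 : HasDerivAt (iteratedDeriv 2 K) (iteratedDeriv 3 K (w₀ + t * I)) (w₀ + t * I) := by
        rw [show iteratedDeriv 3 K = deriv (iteratedDeriv 2 K) from iteratedDeriv_succ]
        exact (hK2.differentiableAt (hU.mem_nhds (hτU t ht))).hasDerivAt
      exact (HasDerivAt.comp t h1 (S1_line w₀ t)).sub_const _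
    have h := S1_mvt (M := B * Λ) d3 (fun t ht => by
      rw [norm_mul, Complex.norm_I, mul_one]
      exact h3 t ht) (by simp) hy
    calc ‖iteratedDeriv 2 K (w₀ + y * I) - Λ‖
        = ‖(iteratedDeriv 2 K w₀ - Λ) +
            (iteratedDeriv 2 K (w₀ + y * I) - iteratedDeriv 2 K w₀)‖ := by congr 1; ring
      _ ≤ ι * Λ + B * Λ * |y| := (norm_add_le _ _).trans (add_le_add h2' h)
  -- pointwise bound
  have hpt : ∀ y : ℝ, |y| ≤ τ →
      ‖exp (K (w₀ + y * I) - K w₀ - m * (y * I)) - exp (-(Λ * (y : ℂ) ^ 2 / 2))‖ ≤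
        (8 * ι + 128 * B / q) * Real.exp (-(Λ / 4) * y ^ 2) := by
    intro y hy
    apply S1_point hΛ hι hB
    · exact S1_quad hU hK hτU hm (by positivity) h2 hy
    · refine S1_quad (r := |y|) hU hK (fun t ht => hτU t (ht.trans hy)) hm (by positivity) ?_ le_rfl
      intro t ht
      refine (hsec t (ht.trans hy)).trans ?_
      have : B * Λ * |t| ≤ B * Λ * |y| := mul_le_mul_of_nonneg_left ht (by positivity)
      linarith
  -- continuity
  have hcont : ContinuousOn (fun y : ℝ => exp (K (w₀ + y * I) - K w₀ - m * (y * I)))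
      (uIcc (-τ) τ) := by
    rw [uIcc_of_le (by linarith)]
    have hc1 : ContinuousOn (fun y : ℝ => K (w₀ + y * I)) (Icc (-τ) τ) :=
      hK.continuousOn.comp (by fun_prop) (fun y hy => hτU y (abs_le.2 hy))
    exact ((hc1.sub continuousOn_const).sub (by fun_prop)).cexp
  have hcont2 : Continuous (fun y : ℝ => exp (-(Λ * (y : ℂ) ^ 2 / 2))) := by fun_prop
  have hii1 := hcont.intervalIntegrable (μ := volume)
  have hii2 : IntervalIntegrable (fun y : ℝ => exp (-(Λ * (y : ℂ) ^ 2 / 2))) volume (-τ) τ :=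
    hcont2.intervalIntegrable _ _
  -- first part
  have part1 : ‖(∫ y in (-τ)..τ, exp (K (w₀ + y * I) - K w₀ - m * (y * I))) -
      ∫ y in (-τ)..τ, exp (-(Λ * (y : ℂ) ^ 2 / 2))‖ ≤ (8 * ι + 128 * B / q) * (G / q) := by
    rw [← intervalIntegral.integral_sub hii1 hii2]
    have hle : -τ ≤ τ := by linarith
    have hnn : 0 ≤ 8 * ι + 128 * B / q := by positivity
    have hint : Integrable (fun y : ℝ => (8 * ι + 128 * B / q) * Real.exp (-(Λ / 4) * y ^ 2)) :=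
      (S1_int hΛ).const_mul _
    calc ‖∫ y in (-τ)..τ, (exp (K (w₀ + y * I) - K w₀ - m * (y * I)) -
            exp (-(Λ * (y : ℂ) ^ 2 / 2)))‖
        ≤ ∫ y in (-τ)..τ, (8 * ι + 128 * B / q) * Real.exp (-(Λ / 4) * y ^ 2) := by
          apply intervalIntegral.norm_integral_le_of_norm_le hle
          · filter_upwards with y hy
            exact hpt y (abs_le.2 ⟨hy.1.le, hy.2⟩)
          · exact hint.intervalIntegrable
      _ ≤ ∫ y : ℝ, (8 * ι + 128 * B / q) * Real.exp (-(Λ / 4) * y ^ 2) := by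
          rw [intervalIntegral.integral_of_le hle]
          exact setIntegral_le_integral hint (Eventually.of_forall (fun y => by positivity))
      _ = (8 * ι + 128 * B / q) * (G / q) := by
          rw [integral_const_mul, S1_gauss hΛ]
  -- second part
  have hgI : Integrable (fun y : ℝ => exp (-(Λ * (y : ℂ) ^ 2 / 2))) := by
    have h := (integrable_exp_neg_mul_sq (show 0 < Λ / 2 by positivity)).ofReal (𝕜 := ℂ)
    refine h.congr (Eventually.of_forall (fun y => ?_))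
    show ((Real.exp (-(Λ / 2) * y ^ 2) : ℝ) : ℂ) = exp (-(Λ * (y : ℂ) ^ 2 / 2))
    rw [Complex.ofReal_exp]
    congr 1
    push_cast
    ring
  have hgv : ∫ y : ℝ, exp (-(Λ * (y : ℂ) ^ 2 / 2)) = (Real.sqrt (2 * Real.pi / Λ) : ℂ) := by
    have h := integral_gaussian (Λ / 2)
    have h' : ∫ y : ℝ, exp (-(Λ * (y : ℂ) ^ 2 / 2)) =
        ((∫ y : ℝ, Real.exp (-(Λ / 2) * y ^ 2) : ℝ) : ℂ) := by
      rw [← integral_complex_ofReal]
      congr 1
      funext y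
      rw [Complex.ofReal_exp]
      congr 1
      push_cast
      ring
    rw [h', h]
    congr 2
    field_simp
  have part2 : ‖(∫ y in (-τ)..τ, exp (-(Λ * (y : ℂ) ^ 2 / 2))) -
      (Real.sqrt (2 * Real.pi / Λ) : ℂ)‖ ≤ (4 / τ ^ 2 / q) * (G / q) := by
    have hle : -τ ≤ τ := by linarith
    rw [← hgv, intervalIntegral.integral_of_le hle,
      ← integral_add_compl (measurableSet_Ioc : MeasurableSet (Ioc (-τ) τ)) hgI, sub_add_cancel_left,
      norm_neg]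
    have hint : Integrable (fun y : ℝ => (4 / τ ^ 2 / q) * Real.exp (-(Λ / 4) * y ^ 2)) :=
      (S1_int hΛ).const_mul _
    calc ‖∫ y in (Ioc (-τ) τ)ᶜ, exp (-(Λ * (y : ℂ) ^ 2 / 2))‖
        ≤ ∫ y in (Ioc (-τ) τ)ᶜ, (4 / τ ^ 2 / q) * Real.exp (-(Λ / 4) * y ^ 2) := by
          apply norm_integral_le_of_norm_le hint.integrableOn
          rw [ae_restrict_iff' measurableSet_Ioc.compl]
          filter_upwards with y hy
          have hy' : τ ^ 2 ≤ y ^ 2 := by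
            rw [mem_compl_iff, mem_Ioc, not_and_or, not_lt, not_le] at hy
            rcases hy with h | h
            · nlinarith
            · nlinarith
          have hre : (-(Λ * (y : ℂ) ^ 2 / 2) : ℂ) = ((-(Λ * y ^ 2 / 2) : ℝ) : ℂ) := by
            push_cast; ring
          rw [hre, Complex.norm_exp, Complex.ofReal_re,
            show -(Λ * y ^ 2 / 2) = -(Λ * y ^ 2 / 4) + -(Λ / 4) * y ^ 2 by ring, Real.exp_add]
          apply mul_le_mul_of_nonneg_right _ (Real.exp_pos _).le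
          have hx : 0 < Λ * y ^ 2 / 4 := by
            have : 0 < τ ^ 2 := by positivity
            have : 0 < y ^ 2 := by linarith
            positivity
          have h4 : Real.exp (-(Λ * y ^ 2 / 4)) ≤ 1 / (Λ * y ^ 2 / 4) := by
            rw [Real.exp_neg, one_div]
            apply inv_anti₀ hx
            linarith [Real.add_one_le_exp (Λ * y ^ 2 / 4)]
          refine h4.trans ?_
          rw [div_div]
          have h5 : 1 / (Λ * y ^ 2 / 4) = 4 / (Λ * y ^ 2) := by field_simp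
          rw [h5]
          apply div_le_div_of_nonneg_left (by norm_num) (by positivity)
          have h6 : q ≤ Λ := by
            rw [← hqq]
            nlinarith
          have : τ ^ 2 * q ≤ y ^ 2 * Λ := mul_le_mul hy' h6 hq0.le (sq_nonneg _)
          linarith
      _ ≤ ∫ y : ℝ, (4 / τ ^ 2 / q) * Real.exp (-(Λ / 4) * y ^ 2) :=
          setIntegral_le_integral hint (Eventually.of_forall (fun y => by positivity))
      _ = (4 / τ ^ 2 / q) * (G / q) := by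
          rw [integral_const_mul, S1_gauss hΛ]
  calc ‖(∫ y in (-τ)..τ, exp (K (w₀ + y * I) - K w₀ - m * (y * I))) -
        (Real.sqrt (2 * Real.pi / Λ) : ℂ)‖
      = ‖((∫ y in (-τ)..τ, exp (K (w₀ + y * I) - K w₀ - m * (y * I))) -
          ∫ y in (-τ)..τ, exp (-(Λ * (y : ℂ) ^ 2 / 2))) +
        ((∫ y in (-τ)..τ, exp (-(Λ * (y : ℂ) ^ 2 / 2))) -
          (Real.sqrt (2 * Real.pi / Λ) : ℂ))‖ := by congr 1; ring
    _ ≤ (8 * ι + 128 * B / q) * (G / q) + (4 / τ ^ 2 / q) * (G / q) :=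
        (norm_add_le _ _).trans (add_le_add part1 part2)
    _ = (8 * ι + (128 * B + 4 / τ ^ 2) * (1 / q)) * G / q := by ring
    _ ≤ (8 + 128 * B + 4 / τ ^ 2) * G * (ι + 1 / q) / q := by
        apply div_le_div_of_nonneg_right _ hq0.le
        have hb : 0 ≤ (128 * B + 4 / τ ^ 2) * ι := by positivity
        have hc : 0 ≤ 8 * (1 / q) := by positivity
        have : 8 * ι + (128 * B + 4 / τ ^ 2) * (1 / q) ≤
            (8 + 128 * B + 4 / τ ^ 2) * (ι + 1 / q) := by nlinarith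
        calc (8 * ι + (128 * B + 4 / τ ^ 2) * (1 / q)) * G ≤
            ((8 + 128 * B + 4 / τ ^ 2) * (ι + 1 / q)) * G :=
              mul_le_mul_of_nonneg_right this hG0.le
          _ = (8 + 128 * B + 4 / τ ^ 2) * G * (ι + 1 / q) := by ring

end Pool.Agent.helper74.LG
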