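import Pool.Agent.helper74.LG.Defs

set_option autoImplicit false

namespace Pool.Agent.helper74.LG

open Complex Set Filter Topology MeasureTheory

/-- Shift of the contour from the line `Re w = s` to the vertical line through `w₁`
(`Complex.integral_boundary_rect_eq_zero_of_differentiableOn`). -/
theorem shift {K : ℂ → ℂ} {U : Set ℂ} (hU : IsOpen U) (hK : DifferentiableOn ℂ K U) (m : ℂ)
    (s t B : ℝ) (w₁ : ℂ) (ht : 0 ≤ t)
    (hsub : ∀ w : ℂ, w.re ∈ uIcc s w₁.re → |w.im - w₁.im| ≤ t → w ∈ U)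
    (hB : ∀ w : ℂ, w.re ∈ uIcc s w₁.re → |w.im - w₁.im| = t → ‖exp (K w - m * w)‖ ≤ B) :
    ‖(∫ y in (w₁.im - t)..(w₁.im + t), exp (K (s + y * I) - m * (s + y * I))) -
      ∫ y in (-t)..t, exp (K (w₁ + y * I) - m * (w₁ + y * I))‖ ≤ 2 * |w₁.re - s| * B := by
  set g : ℂ → ℂ := fun w => exp (K w - m * w) with hg
  have hmem : ∀ w : ℂ, w.re ∈ uIcc s w₁.re → w.im ∈ uIcc (w₁.im - t) (w₁.im + t) → w ∈ U := by
    intro w h1 h2
    refine hsub w h1 ?_
    rw [uIcc_of_le (by linarith)] at h2
    rw [abs_le]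
    constructor <;> linarith [h2.1, h2.2]
  have hdiff : DifferentiableOn ℂ g U := by
    intro w hw
    have h1 : DifferentiableAt ℂ K w := hK.differentiableAt (hU.mem_nhds hw)
    exact ((h1.sub (differentiableAt_id.const_mul m)).cexp).differentiableWithinAt
  have hrect := Complex.integral_boundary_rect_eq_zero_of_differentiableOn g
    (⟨s, w₁.im - t⟩ : ℂ) (⟨w₁.re, w₁.im + t⟩ : ℂ) (hdiff.mono (by
      intro w hw
      exact hmem w hw.1 hw.2))
  simp only [smul_eq_mul] at hrect
  -- the integral over the vertical line through `w₁`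
  have hshift : (∫ y in (w₁.im - t)..(w₁.im + t), g ((w₁.re : ℂ) + y * I))
      = ∫ y in (-t)..t, g (w₁ + y * I) := by
    have h1 := intervalIntegral.integral_comp_add_right (a := -t) (b := t)
      (fun y : ℝ => g ((w₁.re : ℂ) + y * I)) w₁.im
    have e1 : -t + w₁.im = w₁.im - t := by ring
    have e2 : t + w₁.im = w₁.im + t := by ring
    rw [e1, e2] at h1
    rw [← h1]
    refine intervalIntegral.integral_congr fun y _ => ?_
    have e3 : ((w₁.re : ℂ) + ((y + w₁.im : ℝ) : ℂ) * I) = w₁ + y * I := by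
      conv_rhs => rw [← Complex.re_add_im w₁]
      push_cast
      ring
    exact congrArg g e3
  have hbot : ‖∫ x in s..w₁.re, g ((x : ℂ) + ((w₁.im - t : ℝ) : ℂ) * I)‖ ≤ B * |w₁.re - s| := by
    refine intervalIntegral.norm_integral_le_of_norm_le_const fun x hx => ?_
    refine hB _ ?_ ?_
    · simp only [add_re, ofReal_re, mul_re, I_re, mul_zero, ofReal_im, I_im, mul_one, sub_self,
        add_zero]
      exact uIoc_subset_uIcc hx
    · simp only [add_im, ofReal_im, mul_im, ofReal_re, I_im, mul_one, I_re, mul_zero, add_zero,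
        zero_add]
      rw [sub_sub_cancel_left, abs_neg, abs_of_nonneg ht]
  have htop : ‖∫ x in s..w₁.re, g ((x : ℂ) + ((w₁.im + t : ℝ) : ℂ) * I)‖ ≤ B * |w₁.re - s| := by
    refine intervalIntegral.norm_integral_le_of_norm_le_const fun x hx => ?_
    refine hB _ ?_ ?_
    · simp only [add_re, ofReal_re, mul_re, I_re, mul_zero, ofReal_im, I_im, mul_one, sub_self,
        add_zero]
      exact uIoc_subset_uIcc hx
    · simp only [add_im, ofReal_im, mul_im, ofReal_re, I_im, mul_one, I_re, mul_zero, add_zero,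
        zero_add]
      rw [add_sub_cancel_left, abs_of_nonneg ht]
  rw [← hshift]
  have hkey : I * ((∫ y in (w₁.im - t)..(w₁.im + t), g ((s : ℂ) + y * I)) -
      ∫ y in (w₁.im - t)..(w₁.im + t), g ((w₁.re : ℂ) + y * I))
      = (∫ x in s..w₁.re, g ((x : ℂ) + ((w₁.im - t : ℝ) : ℂ) * I)) -
        ∫ x in s..w₁.re, g ((x : ℂ) + ((w₁.im + t : ℝ) : ℂ) * I) := by
    linear_combination -hrect
  have hn := congrArg norm hkey
  rw [norm_mul, norm_I, one_mul] at hn
  refine (le_of_eq hn).trans ((norm_sub_le _ _).trans ?_)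
  linarith

end Pool.Agent.helper74.LG
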