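import Pool.Agent.helper74.LG.Defs

set_option autoImplicit false

namespace Pool.Agent.helper74.LG

open Complex Set Filter Topology MeasureTheory

/-- Cauchy estimates for the derivatives of `K` (apply the Cauchy estimate on discs of radius
`τ / 2` to `K w - (H e^{ρ w} + H₁ e^{σ₁ w})`). -/
theorem deriv_bounds (P : CP) (hP : P.Ok) : ∃ C' : ℝ, 0 < C' ∧ ∀ f K, Cls P f K →
    ∀ w ∈ DS P.θ₀ (3 / 2 * P.τ), 1 ≤ w.re → ∀ n ∈ Finset.Icc 1 3,
      ‖iteratedDeriv n K w - (P.H * P.ρ ^ n * exp (P.ρ * w) +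
        P.H₁ * P.σ₁ ^ n * exp (P.σ₁ * w))‖ ≤ C' * Real.exp (P.σ * w.re) := by
  have hτ := hP.τ0
  have hσ := hP.σ0
  have hC := hP.C0
  have hτ1 : P.τ ≤ 1 := by
    have h1 := hP.τ1
    have h2 := hP.ρ1
    nlinarith
  -- the uniform constant
  have hpos : ∀ n : ℕ, 0 < (n.factorial : ℝ) * (P.C * Real.exp (P.σ * (P.τ / 2))) / (P.τ / 2) ^ n := by
    intro n
    have : 0 < (n.factorial : ℝ) := by exact_mod_cast n.factorial_pos
    positivity
  refine ⟨∑ n ∈ Finset.Icc 1 3,
    (n.factorial : ℝ) * (P.C * Real.exp (P.σ * (P.τ / 2))) / (P.τ / 2) ^ n,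
    Finset.sum_pos (fun n _ => hpos n) ⟨1, by simp⟩, ?_⟩
  intro f K hK w hw hw1 n hn
  set G : ℂ → ℂ := fun z => K z - (P.H * exp (P.ρ * z) + P.H₁ * exp (P.σ₁ * z)) with hG
  have hopen : IsOpen (DS P.θ₀ (2 * P.τ)) := by
    unfold DS
    have h1 : Continuous fun z : ℂ => |z.im| := Complex.continuous_im.abs
    have h2 : Continuous fun z : ℂ => |z.im - P.θ₀| := (Complex.continuous_im.sub continuous_const).abs
    exact (isOpen_lt h1 continuous_const).union (isOpen_lt h2 continuous_const)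
  have hball : Metric.closedBall w (P.τ / 2) ⊆ DS P.θ₀ (2 * P.τ) := by
    intro z hz
    have h1 : |z.im - w.im| ≤ P.τ / 2 := by
      have := Complex.abs_im_le_norm (z - w)
      rw [Complex.sub_im] at this
      rw [Metric.mem_closedBall, dist_eq_norm] at hz
      linarith
    rcases hw with hw | hw
    · left
      show |z.im| < 2 * P.τ
      have h2 := abs_sub_abs_le_abs_sub z.im w.im
      have h3 : |w.im| < 3 / 2 * P.τ := hw
      linarith
    · right
      show |z.im - P.θ₀| < 2 * P.τ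
      have h2 := abs_sub_abs_le_abs_sub (z.im - P.θ₀) (w.im - P.θ₀)
      have h3 : |w.im - P.θ₀| < 3 / 2 * P.τ := hw
      have h4 : z.im - P.θ₀ - (w.im - P.θ₀) = z.im - w.im := by ring
      rw [h4] at h2
      linarith
  have hwm : w ∈ DS P.θ₀ (2 * P.τ) := hball (Metric.mem_closedBall_self (by linarith))
  have hGd : DifferentiableOn ℂ G (DS P.θ₀ (2 * P.τ)) := by
    refine hK.an.sub ?_
    exact Differentiable.differentiableOn (by fun_prop)
  have hGc : DiffContOnCl ℂ G (Metric.ball w (P.τ / 2)) :=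
    (hGd.mono ((Metric.closure_ball_subset_closedBall).trans hball)).diffContOnCl
  have hbd : ∀ z ∈ Metric.sphere w (P.τ / 2),
      ‖G z‖ ≤ P.C * Real.exp (P.σ * (P.τ / 2)) * Real.exp (P.σ * w.re) := by
    intro z hz
    have hz' : ‖z - w‖ = P.τ / 2 := by rw [← dist_eq_norm]; exact hz
    have h1 : |z.re - w.re| ≤ P.τ / 2 := by
      have := Complex.abs_re_le_norm (z - w)
      rw [Complex.sub_re, hz'] at this
      exact this
    rw [abs_le] at h1
    have h2 := hK.asy z (hball (Metric.sphere_subset_closedBall hz)) (by linarith)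
    refine h2.trans ?_
    rw [mul_assoc, ← Real.exp_add]
    have h3 : P.σ * z.re ≤ P.σ * (P.τ / 2) + P.σ * w.re := by nlinarith
    have h4 := Real.exp_le_exp.mpr h3
    exact mul_le_mul_of_nonneg_left h4 hC.le
  have hCau := Complex.norm_iteratedDeriv_le_of_forall_mem_sphere_norm_le n (by linarith : 0 < P.τ / 2)
    hGc hbd
  have hKc : ContDiffAt ℂ n K w := by
    have h1 : AnalyticAt ℂ K w := hK.an.analyticAt (hopen.mem_nhds hwm)
    exact h1.contDiffAt
  have hit : iteratedDeriv n G w = iteratedDeriv n K w - (P.H * P.ρ ^ n * exp (P.ρ * w) +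
        P.H₁ * P.σ₁ ^ n * exp (P.σ₁ * w)) := by
    have c1 : ContDiff ℂ n (fun z : ℂ => (P.H : ℂ) * exp (P.ρ * z)) := by fun_prop
    have c2 : ContDiff ℂ n (fun z : ℂ => (P.H₁ : ℂ) * exp (P.σ₁ * z)) := by fun_prop
    rw [hG, iteratedDeriv_fun_sub hKc (c1.add c2).contDiffAt,
      iteratedDeriv_fun_add c1.contDiffAt c2.contDiffAt, iteratedDeriv_const_mul_field,
      iteratedDeriv_const_mul_field, iteratedDeriv_cexp_const_mul, iteratedDeriv_cexp_const_mul]
    ring
  rw [← hit]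
  refine hCau.trans ?_
  have h5 : (n.factorial : ℝ) * (P.C * Real.exp (P.σ * (P.τ / 2)) * Real.exp (P.σ * w.re)) /
      (P.τ / 2) ^ n = ((n.factorial : ℝ) * (P.C * Real.exp (P.σ * (P.τ / 2))) / (P.τ / 2) ^ n) *
        Real.exp (P.σ * w.re) := by ring
  rw [h5]
  refine mul_le_mul_of_nonneg_right ?_ (Real.exp_pos _).le
  exact Finset.single_le_sum (f := fun n : ℕ =>
    (n.factorial : ℝ) * (P.C * Real.exp (P.σ * (P.τ / 2))) / (P.τ / 2) ^ n)
    (fun k _ => (hpos k).le) hn

end Pool.Agent.helper74.LG
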