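import Pool.Agent.helper74.LG.A1
import Pool.Agent.helper74.LG.S1
import Pool.Agent.helper74.LG.S2
import Pool.Agent.helper74.LG.S3

set_option autoImplicit false

namespace Pool.Agent.helper74.LG

open Complex Set Filter Topology MeasureTheory

theorem S6_tendsto_exp {a A : ℝ} (ha : a < 0) :
    Tendsto (fun s : ℝ => A * Real.exp (a * s)) atTop (𝓝 0) := by
  have h1 : Tendsto (fun s : ℝ => a * s) atTop atBot :=
    tendsto_id.const_mul_atTop_of_neg ha
  have h2 := (Real.tendsto_exp_atBot.comp h1).const_mul A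
  simpa using h2

theorem S6_tendsto_dexp (a A : ℝ) {b c : ℝ} (hb : 0 < b) (hc : 0 < c) :
    Tendsto (fun s : ℝ => A * Real.exp (a * s) * Real.exp (-c * Real.exp (b * s)))
      atTop (𝓝 0) := by
  have h1 := tendsto_rpow_mul_exp_neg_mul_atTop_nhds_zero (a / b) c hc
  have h2 : Tendsto (fun s : ℝ => Real.exp (b * s)) atTop atTop :=
    Real.tendsto_exp_atTop.comp (tendsto_id.const_mul_atTop hb)
  have h3 := (h1.comp h2).const_mul A
  rw [mul_zero] at h3
  refine h3.congr (fun s => ?_)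
  simp only [Function.comp]
  rw [← Real.exp_mul, show b * s * (a / b) = a * s by field_simp]
  ring

theorem S6_open (θ₀ t : ℝ) : IsOpen (DS θ₀ t) := by
  have h1 : IsOpen {w : ℂ | |w.im| < t} := isOpen_lt (by fun_prop) continuous_const
  have h2 : IsOpen {w : ℂ | |w.im - θ₀| < t} := isOpen_lt (by fun_prop) continuous_const
  exact h1.union h2

/-- `s m` is large for large `m`, uniformly in the class -/
theorem S6_big (P : CP) (hP : P.Ok) (m₀ : ℕ) (C' : ℝ) (hC' : 0 < C') (S : ℝ) :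
    ∃ m₁ : ℕ, m₀ ≤ m₁ ∧ ∀ K s w₁, Sad P K m₀ C' s w₁ → ∀ m : ℕ, m₁ ≤ m → S ≤ s m := by
  obtain ⟨n, hn⟩ := exists_nat_gt ((P.H * P.ρ + C') * Real.exp (P.ρ * S))
  refine ⟨max m₀ n, le_max_left _ _, ?_⟩
  intro K s w₁ hS m hm
  obtain ⟨h2, -, -, -, hb⟩ := hS m ((le_max_left _ _).trans hm)
  by_contra hlt
  rw [not_le] at hlt
  have hρ := hP.ρ1
  have hnm : (n : ℝ) ≤ m := by exact_mod_cast (le_max_right _ _).trans hm
  have h3 := (abs_le.1 hb).2
  have hM : max P.σ P.σ₁ ≤ P.ρ := max_le hP.σρ.le hP.σ₁ρ.le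
  have h4 : Real.exp (max P.σ P.σ₁ * s m) ≤ Real.exp (P.ρ * s m) :=
    Real.exp_le_exp.2 (mul_le_mul_of_nonneg_right hM (by linarith))
  have h5 : Real.exp (P.ρ * s m) ≤ Real.exp (P.ρ * S) :=
    Real.exp_le_exp.2 (mul_le_mul_of_nonneg_left hlt.le (by linarith))
  have h6 : (P.H * P.ρ + C') * Real.exp (P.ρ * s m) ≤ (P.H * P.ρ + C') * Real.exp (P.ρ * S) :=
    mul_le_mul_of_nonneg_left h5 (by have := hP.H0; positivity)
  have h7 : C' * Real.exp (max P.σ P.σ₁ * s m) ≤ C' * Real.exp (P.ρ * s m) :=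
    mul_le_mul_of_nonneg_left h4 hC'.le
  nlinarith

/-- the Laplace method at the two saddle points -/
theorem S6_peak (P : CP) (hP : P.Ok) (C' κ : ℝ) (hC' : 0 < C') (hκ : 0 < κ) :
    ∃ S : ℝ, ∀ f K, Cls P f K → ∀ s : ℝ, S ≤ s → ∀ (w₀ m : ℂ) (θ : ℝ), (θ = 0 ∨ θ = P.θ₀) →
      ‖w₀ - (s + θ * I)‖ ≤ C' * Real.exp ((P.σ - P.ρ) * s) → deriv K w₀ = m →
      ‖(∫ y in (-(3 / 4 * P.τ))..(3 / 4 * P.τ), exp (K (w₀ + y * I) - K w₀ - m * (y * I))) -
        (Real.sqrt (2 * Real.pi / (P.H * P.ρ ^ 2 * Real.exp (P.ρ * s))) : ℂ)‖ ≤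
        κ / Real.sqrt (P.H * P.ρ ^ 2 * Real.exp (P.ρ * s)) := by
  obtain ⟨D₀, hD₀, hder⟩ := deriv_bounds P hP
  have hρ1 := hP.ρ1
  have hρ0 : 0 < P.ρ := by linarith
  have hH := hP.H0
  have hσ₁ := hP.σ₁0
  have hσ := hP.σ0
  have hH₁ := hP.H₁0
  have hτ := hP.τ0
  have hτ1 := hP.τ1
  have hσρ := hP.σρ
  have hσ₁ρ := hP.σ₁ρ
  set M := max P.σ P.σ₁ with hM
  have hMρ : M < P.ρ := max_lt hσρ hσ₁ρ
  have hHρ : 0 < P.H * P.ρ ^ 2 := by positivity
  set B : ℝ := Real.exp P.ρ * (P.H * P.ρ ^ 3 + P.H₁ * P.σ₁ ^ 3 + D₀) / (P.H * P.ρ ^ 2) with hB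
  have hB0 : 0 ≤ B := by positivity
  set D : ℝ := Real.exp P.ρ * (P.H₁ * P.σ₁ ^ 2 + D₀) / (P.H * P.ρ ^ 2) with hD
  have hD0 : 0 ≤ D := by positivity
  obtain ⟨CL, hCL, hlap⟩ := laplace (3 / 4 * P.τ) B (by positivity) hB0
  -- eventual smallness
  have e1 : Tendsto (fun s : ℝ => C' * Real.exp ((P.σ - P.ρ) * s)) atTop (𝓝 0) :=
    S6_tendsto_exp (by linarith)
  have e2 : Tendsto (fun s : ℝ => 2 * P.ρ * (C' * Real.exp ((P.σ - P.ρ) * s)) +
      D * Real.exp ((M - P.ρ) * s)) atTop (𝓝 0) := by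
    have h1 := e1.const_mul (2 * P.ρ)
    have h2 : Tendsto (fun s : ℝ => D * Real.exp ((M - P.ρ) * s)) atTop (𝓝 0) :=
      S6_tendsto_exp (by linarith)
    simpa using h1.add h2
  have e3 : Tendsto (fun s : ℝ => Real.sqrt (P.H * P.ρ ^ 2 * Real.exp (P.ρ * s))) atTop atTop := by
    apply Real.tendsto_sqrt_atTop.comp
    exact (Real.tendsto_exp_atTop.comp (tendsto_id.const_mul_atTop hρ0)).const_mul_atTop hHρ
  have ev : ∀ᶠ s : ℝ in atTop, C' * Real.exp ((P.σ - P.ρ) * s) ≤ P.τ / 4 ∧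
      2 * P.ρ * (C' * Real.exp ((P.σ - P.ρ) * s)) + D * Real.exp ((M - P.ρ) * s) ≤
        min (1 / 16) (κ / (2 * CL)) ∧
      max 1 (2 * CL / κ) ≤ Real.sqrt (P.H * P.ρ ^ 2 * Real.exp (P.ρ * s)) ∧ 2 ≤ s := by
    filter_upwards [e1.eventually (Iic_mem_nhds (by positivity : (0 : ℝ) < P.τ / 4)),
      e2.eventually (Iic_mem_nhds (by positivity : (0 : ℝ) < min (1 / 16) (κ / (2 * CL)))),
      e3.eventually (eventually_ge_atTop _), eventually_ge_atTop 2] with s h1 h2 h3 h4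
    exact ⟨h1, h2, h3, h4⟩
  obtain ⟨S, hS⟩ := eventually_atTop.1 ev
  refine ⟨S, ?_⟩
  intro f K hcls s hs w₀ m θ hθ hw hm
  obtain ⟨a1, a2, a3, a4⟩ := hS s hs
  set ε₁ := C' * Real.exp ((P.σ - P.ρ) * s) with hε₁
  set Λ := P.H * P.ρ ^ 2 * Real.exp (P.ρ * s) with hΛ
  have hΛ0 : 0 < Λ := by positivity
  have hq0 : 0 < Real.sqrt Λ := Real.sqrt_pos.2 hΛ0
  have hΛ1 : 1 ≤ Λ := by
    have h1 : 1 ≤ Real.sqrt Λ := (le_max_left _ _).trans a3
    exact Real.one_le_sqrt.1 h1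
  have hε₁0 : 0 ≤ ε₁ := by positivity
  have hper : exp (P.ρ * θ * I) = 1 := by
    rcases hθ with h | h
    · rw [h]; simp
    · rw [h]; exact hP.per
  have hτ64 : P.τ ≤ 1 / 64 := by nlinarith
  have hρτ : P.ρ * P.τ ≤ 1 / 32 := by nlinarith
  -- geometry
  have hdist : ∀ y : ℝ, ‖(w₀ + y * I) - (s + θ * I)‖ ≤ ε₁ + |y| := by
    intro y
    have : (w₀ + y * I) - (s + θ * I) = (w₀ - (s + θ * I)) + y * I := by ring
    rw [this]
    refine (norm_add_le _ _).trans (add_le_add hw ?_)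
    rw [norm_mul, Complex.norm_I, mul_one, Complex.norm_real, Real.norm_eq_abs]
  have him : ∀ y : ℝ, |(w₀ + y * I).im - θ| ≤ ε₁ + |y| := by
    intro y
    have h1 := (Complex.abs_im_le_norm ((w₀ + y * I) - (s + θ * I))).trans (hdist y)
    simpa using h1
  have hre0 : |w₀.re - s| ≤ ε₁ := by
    have h1 := (Complex.abs_re_le_norm (w₀ - (s + θ * I))).trans hw
    simpa using h1
  have hre : ∀ y : ℝ, (w₀ + y * I).re = w₀.re := by
    intro y
    simp
  have hx1 : w₀.re ≤ s + 1 := by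
    have := (abs_le.1 hre0).2
    linarith
  have hx2 : 1 ≤ w₀.re := by
    have := (abs_le.1 hre0).1
    linarith
  have hmem : ∀ y : ℝ, |y| ≤ 3 / 4 * P.τ → w₀ + y * I ∈ DS P.θ₀ (3 / 2 * P.τ) := by
    intro y hy
    have h1 := him y
    rcases hθ with h | h
    · left
      show |(w₀ + y * I).im| < 3 / 2 * P.τ
      rw [h, sub_zero] at h1
      linarith
    · right
      show |(w₀ + y * I).im - P.θ₀| < 3 / 2 * P.τ
      rw [h] at h1
      linarith
  have hmem2 : ∀ y : ℝ, |y| ≤ 3 / 4 * P.τ → w₀ + y * I ∈ DS P.θ₀ (2 * P.τ) := by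
    intro y hy
    rcases hmem y hy with h | h
    · left
      show |(w₀ + y * I).im| < 2 * P.τ
      exact lt_trans h (by linarith)
    · right
      show |(w₀ + y * I).im - P.θ₀| < 2 * P.τ
      exact lt_trans h (by linarith)
  -- exponentials
  have hexp : ∀ a : ℝ, 0 ≤ a → a ≤ P.ρ → Real.exp (a * w₀.re) ≤ Real.exp P.ρ * Real.exp (a * s) := by
    intro a ha ha'
    rw [← Real.exp_add]
    apply Real.exp_le_exp.2
    nlinarith
  have hexpM : ∀ a : ℝ, 0 ≤ a → a ≤ M → Real.exp (a * w₀.re) ≤ Real.exp P.ρ * Real.exp (M * s) := by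
    intro a ha ha'
    refine (hexp a ha (ha'.trans hMρ.le)).trans ?_
    apply mul_le_mul_of_nonneg_left _ (Real.exp_pos _).le
    apply Real.exp_le_exp.2
    nlinarith
  have hexpρ : ∀ a : ℝ, 0 ≤ a → a ≤ P.ρ → Real.exp (a * w₀.re) ≤
      Real.exp P.ρ * Real.exp (P.ρ * s) := by
    intro a ha ha'
    refine (hexp a ha ha').trans ?_
    apply mul_le_mul_of_nonneg_left _ (Real.exp_pos _).le
    apply Real.exp_le_exp.2
    nlinarith
  have hnexp : ∀ (a : ℝ) (w : ℂ), ‖exp (a * w)‖ = Real.exp (a * w.re) := by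
    intro a w
    rw [Complex.norm_exp]
    simp
  -- second derivative
  have hsec : ∀ y : ℝ, |y| ≤ 3 / 4 * P.τ → ‖iteratedDeriv 2 K (w₀ + y * I) - Λ‖ ≤
      (2 * P.ρ * (ε₁ + |y|) + D * Real.exp ((M - P.ρ) * s)) * Λ := by
    intro y hy
    have h1 := hder f K hcls (w₀ + y * I) (hmem y hy) (by rw [hre]; exact hx2) 2 (by simp)
    have h2 : exp (P.ρ * (w₀ + y * I)) =
        exp (P.ρ * s) * exp (P.ρ * ((w₀ + y * I) - (s + θ * I))) := by
      rw [show (P.ρ : ℂ) * (w₀ + y * I) = P.ρ * s + P.ρ * θ * I +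
        P.ρ * ((w₀ + y * I) - (s + θ * I)) by ring, Complex.exp_add, Complex.exp_add, hper, mul_one]
    have hz : ‖(P.ρ : ℂ) * ((w₀ + y * I) - (s + θ * I))‖ ≤ P.ρ * (ε₁ + |y|) := by
      rw [norm_mul, Complex.norm_real, Real.norm_eq_abs, abs_of_pos hρ0]
      exact mul_le_mul_of_nonneg_left (hdist y) hρ0.le
    have hz1 : ‖(P.ρ : ℂ) * ((w₀ + y * I) - (s + θ * I))‖ ≤ 1 := by
      refine hz.trans ?_
      nlinarith
    have h3 : ‖(P.H * P.ρ ^ 2 * exp (P.ρ * (w₀ + y * I)) : ℂ) - Λ‖ ≤ 2 * P.ρ * (ε₁ + |y|) * Λ := by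
      have e : (P.H * P.ρ ^ 2 * exp (P.ρ * (w₀ + y * I)) : ℂ) - Λ =
          Λ * (exp (P.ρ * ((w₀ + y * I) - (s + θ * I))) - 1) := by
        rw [h2, hΛ]
        push_cast
        ring
      rw [e, norm_mul, Complex.norm_real, Real.norm_eq_abs, abs_of_pos hΛ0, mul_comm]
      apply mul_le_mul_of_nonneg_right _ hΛ0.le
      refine (Complex.norm_exp_sub_one_le hz1).trans ?_
      linarith
    have h4 : ‖(P.H₁ * P.σ₁ ^ 2 * exp (P.σ₁ * (w₀ + y * I)) : ℂ)‖ ≤
        P.H₁ * P.σ₁ ^ 2 * (Real.exp P.ρ * Real.exp (M * s)) := by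
      rw [norm_mul, hnexp, hre]
      have : ‖(P.H₁ * P.σ₁ ^ 2 : ℂ)‖ = P.H₁ * P.σ₁ ^ 2 := by
        rw [show (P.H₁ * P.σ₁ ^ 2 : ℂ) = ((P.H₁ * P.σ₁ ^ 2 : ℝ) : ℂ) by push_cast; ring,
          Complex.norm_real, Real.norm_eq_abs, abs_of_nonneg (by positivity)]
      rw [this]
      exact mul_le_mul_of_nonneg_left (hexpM _ hσ₁.le (le_max_right _ _)) (by positivity)
    have h5 : D₀ * Real.exp (P.σ * (w₀ + y * I).re) ≤ D₀ * (Real.exp P.ρ * Real.exp (M * s)) := by
      rw [hre]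
      exact mul_le_mul_of_nonneg_left (hexpM _ hσ.le (le_max_left _ _)) hD₀.le
    have h6 : D * Real.exp ((M - P.ρ) * s) * Λ =
        (P.H₁ * P.σ₁ ^ 2 + D₀) * (Real.exp P.ρ * Real.exp (M * s)) := by
      have : Real.exp ((M - P.ρ) * s) * Real.exp (P.ρ * s) = Real.exp (M * s) := by
        rw [← Real.exp_add]
        congr 1
        ring
      rw [hD, hΛ, ← this]
      field_simp
    calc ‖iteratedDeriv 2 K (w₀ + y * I) - Λ‖
        = ‖(iteratedDeriv 2 K (w₀ + y * I) - (P.H * P.ρ ^ 2 * exp (P.ρ * (w₀ + y * I)) +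
            P.H₁ * P.σ₁ ^ 2 * exp (P.σ₁ * (w₀ + y * I)))) +
            (P.H * P.ρ ^ 2 * exp (P.ρ * (w₀ + y * I)) - Λ) +
            P.H₁ * P.σ₁ ^ 2 * exp (P.σ₁ * (w₀ + y * I))‖ := by congr 1; ring
      _ ≤ D₀ * (Real.exp P.ρ * Real.exp (M * s)) + 2 * P.ρ * (ε₁ + |y|) * Λ +
            P.H₁ * P.σ₁ ^ 2 * (Real.exp P.ρ * Real.exp (M * s)) := by
          refine (norm_add_le _ _).trans (add_le_add ((norm_add_le _ _).trans
            (add_le_add (h1.trans h5) h3)) h4)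
      _ = (2 * P.ρ * (ε₁ + |y|) + D * Real.exp ((M - P.ρ) * s)) * Λ := by
          rw [add_mul, h6]
          ring
  have hthird : ∀ y : ℝ, |y| ≤ 3 / 4 * P.τ → ‖iteratedDeriv 3 K (w₀ + y * I)‖ ≤ B * Λ := by
    intro y hy
    have h1 := hder f K hcls (w₀ + y * I) (hmem y hy) (by rw [hre]; exact hx2) 3 (by simp)
    have h3 : ‖(P.H * P.ρ ^ 3 * exp (P.ρ * (w₀ + y * I)) : ℂ)‖ ≤
        P.H * P.ρ ^ 3 * (Real.exp P.ρ * Real.exp (P.ρ * s)) := by
      rw [norm_mul, hnexp, hre]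
      have : ‖(P.H * P.ρ ^ 3 : ℂ)‖ = P.H * P.ρ ^ 3 := by
        rw [show (P.H * P.ρ ^ 3 : ℂ) = ((P.H * P.ρ ^ 3 : ℝ) : ℂ) by push_cast; ring,
          Complex.norm_real, Real.norm_eq_abs, abs_of_nonneg (by positivity)]
      rw [this]
      exact mul_le_mul_of_nonneg_left (hexpρ _ hρ0.le le_rfl) (by positivity)
    have h4 : ‖(P.H₁ * P.σ₁ ^ 3 * exp (P.σ₁ * (w₀ + y * I)) : ℂ)‖ ≤
        P.H₁ * P.σ₁ ^ 3 * (Real.exp P.ρ * Real.exp (P.ρ * s)) := by
      rw [norm_mul, hnexp, hre]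
      have : ‖(P.H₁ * P.σ₁ ^ 3 : ℂ)‖ = P.H₁ * P.σ₁ ^ 3 := by
        rw [show (P.H₁ * P.σ₁ ^ 3 : ℂ) = ((P.H₁ * P.σ₁ ^ 3 : ℝ) : ℂ) by push_cast; ring,
          Complex.norm_real, Real.norm_eq_abs, abs_of_nonneg (by positivity)]
      rw [this]
      exact mul_le_mul_of_nonneg_left (hexpρ _ hσ₁.le hσ₁ρ.le) (by positivity)
    have h5 : D₀ * Real.exp (P.σ * (w₀ + y * I).re) ≤ D₀ * (Real.exp P.ρ * Real.exp (P.ρ * s)) := by
      rw [hre]
      exact mul_le_mul_of_nonneg_left (hexpρ _ hσ.le hσρ.le) hD₀.le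
    calc ‖iteratedDeriv 3 K (w₀ + y * I)‖
        = ‖(iteratedDeriv 3 K (w₀ + y * I) - (P.H * P.ρ ^ 3 * exp (P.ρ * (w₀ + y * I)) +
            P.H₁ * P.σ₁ ^ 3 * exp (P.σ₁ * (w₀ + y * I)))) +
            P.H * P.ρ ^ 3 * exp (P.ρ * (w₀ + y * I)) +
            P.H₁ * P.σ₁ ^ 3 * exp (P.σ₁ * (w₀ + y * I))‖ := by congr 1; ring
      _ ≤ D₀ * (Real.exp P.ρ * Real.exp (P.ρ * s)) +
            P.H * P.ρ ^ 3 * (Real.exp P.ρ * Real.exp (P.ρ * s)) +
            P.H₁ * P.σ₁ ^ 3 * (Real.exp P.ρ * Real.exp (P.ρ * s)) := by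
          refine (norm_add_le _ _).trans (add_le_add ((norm_add_le _ _).trans
            (add_le_add (h1.trans h5) h3)) h4)
      _ = B * Λ := by
          rw [hB, hΛ]
          field_simp
          ring
  -- apply `laplace`
  have hι0 : 0 ≤ 2 * P.ρ * ε₁ + D * Real.exp ((M - P.ρ) * s) := by positivity
  have hfin := hlap Λ (2 * P.ρ * ε₁ + D * Real.exp ((M - P.ρ) * s)) K w₀ m
    (DS P.θ₀ (2 * P.τ)) hΛ1 hι0 (S6_open _ _) hcls.an hmem2 hm
    (fun y hy => by
      refine (hsec y hy).trans ?_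
      have h1 : 2 * P.ρ * |y| ≤ 1 / 16 := by nlinarith [abs_nonneg y]
      have h2 := a2.trans (min_le_left _ _)
      have h3 : 2 * P.ρ * (ε₁ + |y|) + D * Real.exp ((M - P.ρ) * s) ≤ 1 / 8 := by linarith
      calc _ ≤ 1 / 8 * Λ := mul_le_mul_of_nonneg_right h3 hΛ0.le
        _ = Λ / 8 := by ring)
    (by
      have h1 := hsec 0 (by simp; positivity)
      simpa using h1) hthird
  refine hfin.trans ?_
  apply div_le_div_of_nonneg_right _ hq0.le
  have h1 : 2 * P.ρ * ε₁ + D * Real.exp ((M - P.ρ) * s) ≤ κ / (2 * CL) :=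
    a2.trans (min_le_right _ _)
  have h2 : 1 / Real.sqrt Λ ≤ κ / (2 * CL) := by
    have h3 : 2 * CL / κ ≤ Real.sqrt Λ := (le_max_right _ _).trans a3
    rw [div_le_iff₀ hκ] at h3
    rw [div_le_div_iff₀ hq0 (by positivity)]
    linarith
  calc CL * (2 * P.ρ * ε₁ + D * Real.exp ((M - P.ρ) * s) + 1 / Real.sqrt Λ)
      ≤ CL * (κ / (2 * CL) + κ / (2 * CL)) :=
        mul_le_mul_of_nonneg_left (add_le_add h1 h2) hCL.le
    _ = κ := by field_simp; ring


theorem S6_per {a : ℝ} (h : exp (a * I) = 1) : Real.cos a = 1 ∧ Real.sin a = 0 := by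
  have h1 := congrArg Complex.re h
  have h2 := congrArg Complex.im h
  rw [Complex.exp_ofReal_mul_I_re] at h1
  rw [Complex.exp_ofReal_mul_I_im] at h2
  exact ⟨by simpa using h1, by simpa using h2⟩

/-- decay at height `θ₀ ± t` near the saddle point -/
theorem S6_side (P : CP) (hP : P.Ok) (C' : ℝ) (hC' : 0 < C') :
    ∃ c₂ S : ℝ, 0 < c₂ ∧ ∀ f K, Cls P f K → ∀ s : ℝ, S ≤ s → ∀ m : ℝ,
      |m - P.H * P.ρ * Real.exp (P.ρ * s)| ≤ C' * Real.exp (max P.σ P.σ₁ * s) → ∀ w : ℂ,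
      |w.re - s| ≤ C' * Real.exp ((P.σ - P.ρ) * s) → P.τ / 2 ≤ |w.im - P.θ₀| →
      |w.im - P.θ₀| ≤ P.τ →
      ‖exp (K w - m * w)‖ ≤ Real.exp ((K s).re - m * s) * Real.exp (-c₂ * Real.exp (P.ρ * s)) := by
  have hρ1 := hP.ρ1
  have hρ0 : 0 < P.ρ := by linarith
  have hH := hP.H0
  have hσ₁ := hP.σ₁0
  have hσ := hP.σ0
  have hH₁ := hP.H₁0
  have hτ := hP.τ0
  have hτ1 := hP.τ1
  have hσρ := hP.σρ
  have hσ₁ρ := hP.σ₁ρ
  have hC := hP.C0
  set M := max P.σ P.σ₁ with hM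
  have hM0 : 0 < M := lt_of_lt_of_le hσ (le_max_left _ _)
  have hMρ : M < P.ρ := max_lt hσρ hσ₁ρ
  have hρτ : P.ρ * P.τ ≤ 1 / 32 := by nlinarith
  have hpi := Real.pi_gt_three
  set c := Real.cos (P.ρ * P.τ / 2) with hc
  have hc1 : c < 1 := by
    have := Real.cos_lt_cos_of_nonneg_of_le_pi le_rfl
      (by linarith : P.ρ * P.τ / 2 ≤ Real.pi) (by positivity)
    rwa [Real.cos_zero] at this
  have hc0 : 0 ≤ c := Real.cos_nonneg_of_mem_Icc ⟨by have : 0 < P.ρ * P.τ := by positivity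
                                                     linarith, by linarith⟩
  set q := (1 - c) / 2 with hq
  have hq0 : 0 < q := by rw [hq]; linarith
  have hcq : c = 1 - 2 * q := by rw [hq]; ring
  set D := (P.H₁ + P.C) * Real.exp P.ρ + P.C with hD
  have hD0 : 0 < D := by positivity
  have e1 : Tendsto (fun s : ℝ => C' * Real.exp ((P.σ - P.ρ) * s)) atTop (𝓝 0) :=
    S6_tendsto_exp (by linarith)
  have e2 : Tendsto (fun s : ℝ => D * Real.exp ((M - P.ρ) * s)) atTop (𝓝 0) :=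
    S6_tendsto_exp (by linarith)
  have e3 : Tendsto (fun s : ℝ => (P.H * P.ρ + C') * (C' * Real.exp ((P.σ - P.ρ) * s))) atTop
      (𝓝 0) := by simpa using e1.const_mul (P.H * P.ρ + C')
  have ev : ∀ᶠ s : ℝ in atTop, C' * Real.exp ((P.σ - P.ρ) * s) ≤ min 1 (min (1 / P.ρ) (q / (2 * P.ρ))) ∧
      D * Real.exp ((M - P.ρ) * s) ≤ q * P.H / 4 ∧
      (P.H * P.ρ + C') * (C' * Real.exp ((P.σ - P.ρ) * s)) ≤ q * P.H / 4 ∧ 2 ≤ s := by
    filter_upwards [e1.eventually (Iic_mem_nhds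
        (by positivity : (0 : ℝ) < min 1 (min (1 / P.ρ) (q / (2 * P.ρ))))),
      e2.eventually (Iic_mem_nhds (by positivity : (0 : ℝ) < q * P.H / 4)),
      e3.eventually (Iic_mem_nhds (by positivity : (0 : ℝ) < q * P.H / 4)),
      eventually_ge_atTop 2] with s h1 h2 h3 h4
    exact ⟨h1, h2, h3, h4⟩
  obtain ⟨S, hS⟩ := eventually_atTop.1 ev
  refine ⟨q * P.H / 2, S, by positivity, ?_⟩
  intro f K hcls s hs m hm w hwre hw1 hw2
  obtain ⟨a1, a2, a3, a4⟩ := hS s hs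
  set ε₁ := C' * Real.exp ((P.σ - P.ρ) * s) with hε₁
  have hε₁0 : 0 ≤ ε₁ := by positivity
  have b1 : ε₁ ≤ 1 := a1.trans (min_le_left _ _)
  have b2 : P.ρ * ε₁ ≤ 1 := by
    have := a1.trans ((min_le_right _ _).trans (min_le_left _ _))
    rw [le_div_iff₀ hρ0] at this
    linarith
  have b3 : 2 * (P.ρ * ε₁) ≤ q := by
    have := a1.trans ((min_le_right _ _).trans (min_le_right _ _))
    rw [le_div_iff₀ (by positivity)] at this
    linarith
  set x := w.re with hx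
  have hx1 : x ≤ s + ε₁ := by have := (abs_le.1 hwre).2; linarith
  have hx2 : s - ε₁ ≤ x := by have := (abs_le.1 hwre).1; linarith
  have hx0 : 0 ≤ x := by linarith
  -- the asymptotics
  have hmw : w ∈ DS P.θ₀ (2 * P.τ) := Or.inr (show |w.im - P.θ₀| < 2 * P.τ by linarith)
  have hms : (s : ℂ) ∈ DS P.θ₀ (2 * P.τ) := Or.inl (show |(s : ℂ).im| < 2 * P.τ by
    rw [Complex.ofReal_im, abs_zero]; linarith)
  have as1 := hcls.asy w hmw hx0
  have as2 := hcls.asy s hms (by rw [Complex.ofReal_re]; linarith)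
  rw [Complex.ofReal_re] at as2
  have hre : ∀ (a b : ℝ) (w : ℂ), (b * exp (a * w)).re = b * (Real.exp (a * w.re) * Real.cos (a * w.im)) := by
    intro a b w
    rw [Complex.re_ofReal_mul, Complex.exp_re]
    simp
  have k1 : (K w).re ≤ P.H * (Real.exp (P.ρ * x) * Real.cos (P.ρ * w.im)) +
      P.H₁ * (Real.exp (P.σ₁ * x) * Real.cos (P.σ₁ * w.im)) + P.C * Real.exp (P.σ * x) := by
    have h1 := (Complex.re_le_norm _).trans as1
    rw [Complex.sub_re, Complex.add_re, hre, hre] at h1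
    linarith
  have k2 : P.H * Real.exp (P.ρ * s) + P.H₁ * Real.exp (P.σ₁ * s) - P.C * Real.exp (P.σ * s) ≤
      (K s).re := by
    have h1 := (neg_le_of_abs_le ((Complex.abs_re_le_norm _).trans as2))
    rw [Complex.sub_re, Complex.add_re, hre, hre] at h1
    simp only [Complex.ofReal_re, Complex.ofReal_im, mul_zero, Real.cos_zero, mul_one] at h1
    linarith
  -- the cosine
  have hcos : Real.cos (P.ρ * w.im) ≤ 1 - 2 * q := by
    obtain ⟨p1, p2⟩ := S6_per (a := P.ρ * P.θ₀) (by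
      have := hP.per
      rw [← this]; push_cast; rfl)
    have h1 : Real.cos (P.ρ * w.im) = Real.cos (P.ρ * |w.im - P.θ₀|) := by
      rw [show P.ρ * |w.im - P.θ₀| = |P.ρ * (w.im - P.θ₀)| by
        rw [abs_mul, abs_of_pos hρ0], Real.cos_abs,
        show P.ρ * w.im = P.ρ * P.θ₀ + P.ρ * (w.im - P.θ₀) by ring, Real.cos_add, p1, p2]
      ring
    rw [h1, ← hcq, hc]
    apply Real.cos_le_cos_of_nonneg_of_le_pi (by positivity)
    · nlinarith
    · nlinarith
  have r1 : Real.exp (P.ρ * x) ≤ (1 + q) * Real.exp (P.ρ * s) := by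
    have h1 : Real.exp (P.ρ * x) ≤ Real.exp (P.ρ * ε₁) * Real.exp (P.ρ * s) := by
      rw [← Real.exp_add]
      apply Real.exp_le_exp.2
      nlinarith
    refine h1.trans (mul_le_mul_of_nonneg_right ?_ (Real.exp_pos _).le)
    have h2 := Real.abs_exp_sub_one_le (x := P.ρ * ε₁) (by rw [abs_of_nonneg (by positivity)]; exact b2)
    rw [abs_of_nonneg (by positivity : 0 ≤ P.ρ * ε₁)] at h2
    have h3 := (abs_le.1 h2).2
    linarith
  have r2 : P.H * (Real.exp (P.ρ * x) * Real.cos (P.ρ * w.im)) ≤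
      (1 - q) * (P.H * Real.exp (P.ρ * s)) := by
    have h0 : 0 ≤ 1 - 2 * q := by rw [← hcq]; exact hc0
    have h1 : Real.exp (P.ρ * x) * Real.cos (P.ρ * w.im) ≤ (1 + q) * Real.exp (P.ρ * s) * (1 - 2 * q) :=
      (mul_le_mul_of_nonneg_left hcos (Real.exp_pos _).le).trans
        (mul_le_mul_of_nonneg_right r1 h0)
    have h2 : (1 + q) * Real.exp (P.ρ * s) * (1 - 2 * q) ≤ (1 - q) * Real.exp (P.ρ * s) := by
      have : 0 ≤ 2 * q ^ 2 * Real.exp (P.ρ * s) := by positivity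
      nlinarith
    have h3 := mul_le_mul_of_nonneg_left (h1.trans h2) hH.le
    linarith
  have r3 : ∀ a : ℝ, 0 ≤ a → a ≤ M → Real.exp (a * x) ≤ Real.exp P.ρ * Real.exp (M * s) := by
    intro a ha haM
    rw [← Real.exp_add]
    apply Real.exp_le_exp.2
    nlinarith
  have r4 : P.H₁ * (Real.exp (P.σ₁ * x) * Real.cos (P.σ₁ * w.im)) ≤
      P.H₁ * (Real.exp P.ρ * Real.exp (M * s)) := by
    apply mul_le_mul_of_nonneg_left _ hH₁
    calc Real.exp (P.σ₁ * x) * Real.cos (P.σ₁ * w.im) ≤ Real.exp (P.σ₁ * x) * 1 :=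
          mul_le_mul_of_nonneg_left (Real.cos_le_one _) (Real.exp_pos _).le
      _ ≤ _ := by rw [mul_one]; exact r3 _ hσ₁.le (le_max_right _ _)
  have r5 : P.C * Real.exp (P.σ * x) ≤ P.C * (Real.exp P.ρ * Real.exp (M * s)) :=
    mul_le_mul_of_nonneg_left (r3 _ hσ.le (le_max_left _ _)) hC.le
  have r6 : P.C * Real.exp (P.σ * s) ≤ P.C * Real.exp (M * s) := by
    apply mul_le_mul_of_nonneg_left _ hC.le
    apply Real.exp_le_exp.2
    exact mul_le_mul_of_nonneg_right (le_max_left _ _) (by linarith)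
  have r7 : 0 ≤ P.H₁ * Real.exp (P.σ₁ * s) := by positivity
  have r8 : m * (s - x) ≤ (P.H * P.ρ + C') * ε₁ * Real.exp (P.ρ * s) := by
    have h1 : |m| ≤ (P.H * P.ρ + C') * Real.exp (P.ρ * s) := by
      have h2 : |m| ≤ |m - P.H * P.ρ * Real.exp (P.ρ * s)| + P.H * P.ρ * Real.exp (P.ρ * s) := by
        have := abs_sub_abs_le_abs_sub m (P.H * P.ρ * Real.exp (P.ρ * s))
        rw [abs_of_pos (by positivity : 0 < P.H * P.ρ * Real.exp (P.ρ * s))] at this
        linarith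
      have h3 : Real.exp (M * s) ≤ Real.exp (P.ρ * s) :=
        Real.exp_le_exp.2 (mul_le_mul_of_nonneg_right hMρ.le (by linarith))
      nlinarith
    have h2 : |s - x| ≤ ε₁ := by rw [abs_sub_comm]; exact hwre
    calc m * (s - x) ≤ |m * (s - x)| := le_abs_self _
      _ = |m| * |s - x| := abs_mul _ _
      _ ≤ ((P.H * P.ρ + C') * Real.exp (P.ρ * s)) * ε₁ :=
          mul_le_mul h1 h2 (abs_nonneg _) (by positivity)
      _ = _ := by ring
  have r9 : Real.exp (M * s) = Real.exp ((M - P.ρ) * s) * Real.exp (P.ρ * s) := by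
    rw [← Real.exp_add]
    congr 1
    ring
  have hfin : (K w).re - m * x ≤ ((K s).re - m * s) + -(q * P.H / 2) * Real.exp (P.ρ * s) := by
    have hE := Real.exp_pos (P.ρ * s)
    have h1 : D * Real.exp (M * s) ≤ q * P.H / 4 * Real.exp (P.ρ * s) := by
      rw [r9, ← mul_assoc]
      exact mul_le_mul_of_nonneg_right a2 hE.le
    have h2 : (P.H * P.ρ + C') * ε₁ * Real.exp (P.ρ * s) ≤ q * P.H / 4 * Real.exp (P.ρ * s) :=
      mul_le_mul_of_nonneg_right a3 hE.le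
    have h3 : D * Real.exp (M * s) = P.H₁ * (Real.exp P.ρ * Real.exp (M * s)) +
        P.C * (Real.exp P.ρ * Real.exp (M * s)) + P.C * Real.exp (M * s) := by rw [hD]; ring
    nlinarith
  rw [Complex.norm_exp, ← Real.exp_add]
  apply Real.exp_le_exp.2
  rw [Complex.sub_re, Complex.re_ofReal_mul]
  exact hfin



/-- the integrand of Cauchy's formula -/
noncomputable def S6_g (f : ℂ → ℂ) (m : ℕ) (s θ : ℝ) : ℂ :=
  f (exp (s + θ * I)) * exp (-(m * (s + θ * I)))

theorem S6_neg {f : ℂ → ℂ} (hf : RealEnt f) (m : ℕ) (s θ : ℝ) :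
    S6_g f m s (-θ) = (starRingEnd ℂ) (S6_g f m s θ) := by
  unfold S6_g
  have h1 : ((s : ℂ) + ((-θ : ℝ) : ℂ) * I) = (starRingEnd ℂ) (s + θ * I) := by
    rw [map_add, map_mul, Complex.conj_ofReal, Complex.conj_ofReal, Complex.conj_I]
    push_cast
    ring
  rw [h1, Complex.exp_conj, hf.2, map_mul, ← Complex.exp_conj (-(m * (s + θ * I))), map_neg, map_mul,
    Complex.conj_natCast]

theorem S6_two_pi {f : ℂ → ℂ} (m : ℕ) (s θ : ℝ) :
    S6_g f m s (2 * Real.pi - θ) = S6_g f m s (-θ) := by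
  unfold S6_g
  have h1 : ((s : ℂ) + ((2 * Real.pi - θ : ℝ) : ℂ) * I) = (s + ((-θ : ℝ) : ℂ) * I) + 2 * Real.pi * I := by
    push_cast
    ring
  rw [h1, Complex.exp_periodic]
  congr 1
  rw [show -((m : ℂ) * ((s + ((-θ : ℝ) : ℂ) * I) + 2 * Real.pi * I)) =
    -(m * (s + ((-θ : ℝ) : ℂ) * I)) - m * (2 * Real.pi * I) by ring,
    Complex.exp_periodic.sub_nat_mul_eq]

theorem S6_decay {P : CP} (hP : P.Ok) {f K : ℂ → ℂ} (hcls : Cls P f K) (m : ℕ) {s : ℝ} (hs : 0 ≤ s)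
    {θ θ' : ℝ} (h : θ = θ' ∨ θ = -θ' ∨ θ = 2 * Real.pi - θ') (h1 : θ' ≤ Real.pi)
    (h2 : P.τ / 2 ≤ θ') (h3 : P.τ / 2 ≤ |θ' - P.θ₀|) :
    ‖S6_g f m s θ‖ ≤ Real.exp (P.C₀ - P.c * Real.exp (P.σm * s)) * Real.exp ((K s).re - m * s) := by
  have hτ := hP.τ0
  have key : ‖S6_g f m s θ'‖ ≤
      Real.exp (P.C₀ - P.c * Real.exp (P.σm * s)) * Real.exp ((K s).re - m * s) := by
    unfold S6_g
    rw [norm_mul]
    have h4 := hcls.dec s θ' hs h1 h2 h3
    have h5 : (f (exp s)).re = Real.exp ((K s).re) := by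
      have hmem : (s : ℂ) ∈ DS P.θ₀ (2 * P.τ) := Or.inl (show |(s : ℂ).im| < 2 * P.τ by
        rw [Complex.ofReal_im, abs_zero]; linarith)
      rw [← hcls.ex s hmem, Complex.exp_re, hcls.re s, Real.cos_zero, mul_one]
    have h6 : ‖exp (-(m * ((s : ℂ) + θ' * I)))‖ = Real.exp (-(m * s)) := by
      rw [Complex.norm_exp]
      congr 1
      simp
    rw [h6]
    rw [h5] at h4
    calc ‖f (exp (s + θ' * I))‖ * Real.exp (-(m * s))
        ≤ (Real.exp (P.C₀ - P.c * Real.exp (P.σm * s)) * Real.exp ((K s).re)) * Real.exp (-(m * s)) :=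
          mul_le_mul_of_nonneg_right h4 (Real.exp_pos _).le
      _ = _ := by
          rw [mul_assoc, ← Real.exp_add ((K s).re)]
          rfl
  have hneg : ‖S6_g f m s (-θ')‖ = ‖S6_g f m s θ'‖ := by
    rw [S6_neg hcls.ent, Complex.norm_conj]
  rcases h with h | h | h
  · rw [h]; exact key
  · rw [h, hneg]; exact key
  · rw [h, S6_two_pi, hneg]; exact key

theorem S6_cont {f : ℂ → ℂ} (hf : Differentiable ℂ f) (m : ℕ) (s : ℝ) :
    Continuous (S6_g f m s) := by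
  unfold S6_g
  have := hf.continuous
  fun_prop

/-- integral over an interval where the decay holds -/
theorem S6_restInt {g : ℝ → ℂ} {a b R : ℝ} (hab : a ≤ b) (hlen : b - a ≤ 2 * Real.pi) (hR : 0 ≤ R)
    (h : ∀ θ, a ≤ θ → θ ≤ b → ‖g θ‖ ≤ R) : ‖∫ θ in a..b, g θ‖ ≤ 2 * Real.pi * R := by
  have h1 := intervalIntegral.norm_integral_le_of_norm_le_const (a := a) (b := b) (C := R) (f := g)
    (fun x hx => by
      rw [uIoc_of_le hab] at hx
      exact h x hx.1.le hx.2)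
  rw [abs_of_nonneg (by linarith)] at h1
  refine h1.trans ?_
  nlinarith



theorem S6_sqrt {Λ : ℝ} (hΛ : 0 < Λ) :
    Real.sqrt (2 * Real.pi * Λ) / (2 * Real.pi) * Real.sqrt (2 * Real.pi / Λ) = 1 ∧
    Real.sqrt (2 * Real.pi * Λ) / (2 * Real.pi) ≤ Real.sqrt Λ := by
  have hpi := Real.pi_pos
  constructor
  · rw [div_mul_eq_mul_div, ← Real.sqrt_mul (by positivity),
      show 2 * Real.pi * Λ * (2 * Real.pi / Λ) = (2 * Real.pi) ^ 2 by field_simp,
      Real.sqrt_sq (by positivity)]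
    field_simp
  · rw [div_le_iff₀ (by positivity), Real.sqrt_mul (by positivity), mul_comm]
    apply mul_le_mul_of_nonneg_left _ (Real.sqrt_nonneg _)
    rw [Real.sqrt_le_left (by positivity)]
    nlinarith [Real.pi_gt_three]

/-- splitting of the integral over the circle, `θ₀ < π` -/
theorem S6_split {g : ℝ → ℂ} (hg : Continuous g) (b t : ℝ) :
    ∫ θ in (-Real.pi)..(-Real.pi + 2 * Real.pi), g θ =
      (∫ θ in (-t)..t, g θ) + (∫ θ in (b - t)..(b + t), g θ) +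
      (∫ θ in (-b - t)..(-b + t), g θ) + ((∫ θ in (-Real.pi)..(-b - t), g θ) +
      (∫ θ in (-b + t)..(-t), g θ) + (∫ θ in t..(b - t), g θ) + (∫ θ in (b + t)..Real.pi, g θ)) := by
  have hi : ∀ x y : ℝ, IntervalIntegrable g volume x y := fun x y => hg.intervalIntegrable x y
  rw [show -Real.pi + 2 * Real.pi = Real.pi by ring]
  rw [← intervalIntegral.integral_add_adjacent_intervals (hi (-Real.pi) (-b - t)) (hi (-b - t) Real.pi),
    ← intervalIntegral.integral_add_adjacent_intervals (hi (-b - t) (-b + t)) (hi (-b + t) Real.pi),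
    ← intervalIntegral.integral_add_adjacent_intervals (hi (-b + t) (-t)) (hi (-t) Real.pi),
    ← intervalIntegral.integral_add_adjacent_intervals (hi (-t) t) (hi t Real.pi),
    ← intervalIntegral.integral_add_adjacent_intervals (hi t (b - t)) (hi (b - t) Real.pi),
    ← intervalIntegral.integral_add_adjacent_intervals (hi (b - t) (b + t)) (hi (b + t) Real.pi)]
  ring

/-- splitting of the integral over the circle, `θ₀ = π` -/
theorem S6_split' {g : ℝ → ℂ} (hg : Continuous g) (b t : ℝ) :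
    ∫ θ in (-(Real.pi / 2))..(-(Real.pi / 2) + 2 * Real.pi), g θ =
      (∫ θ in (-t)..t, g θ) + (∫ θ in (b - t)..(b + t), g θ) +
      ((∫ θ in (-(Real.pi / 2))..(-t), g θ) + (∫ θ in t..(b - t), g θ) +
        (∫ θ in (b + t)..(-(Real.pi / 2) + 2 * Real.pi), g θ)) := by
  have hi : ∀ x y : ℝ, IntervalIntegrable g volume x y := fun x y => hg.intervalIntegrable x y
  set e := -(Real.pi / 2) + 2 * Real.pi with he
  rw [← intervalIntegral.integral_add_adjacent_intervals (hi (-(Real.pi / 2)) (-t)) (hi (-t) e),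
    ← intervalIntegral.integral_add_adjacent_intervals (hi (-t) t) (hi t e),
    ← intervalIntegral.integral_add_adjacent_intervals (hi t (b - t)) (hi (b - t) e),
    ← intervalIntegral.integral_add_adjacent_intervals (hi (b - t) (b + t)) (hi (b + t) e)]
  ring

/-- the main estimate in complex form -/
theorem S6_core (P : CP) (hP : P.Ok) (m₀ : ℕ) (C' η : ℝ) (hC' : 0 < C') (hη : 0 < η) :
    ∃ m₁ : ℕ, ∀ f K s w₁, Cls P f K → Sad P K m₀ C' s w₁ → ∀ m : ℕ, m₁ ≤ m →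
      ‖coef f m / (Nof P K s m : ℂ) - (1 + Xof K s w₁ m +
        if P.θ₀ = Real.pi then 0 else (starRingEnd ℂ) (Xof K s w₁ m))‖ ≤
          η * (1 + ‖Xof K s w₁ m‖) := by
  obtain ⟨S₁, hpeak⟩ := S6_peak P hP C' (η / 8) hC' (by positivity)
  obtain ⟨c₂, S₂, hc₂, hside⟩ := S6_side P hP C' hC'
  have hρ1 := hP.ρ1
  have hρ0 : 0 < P.ρ := by linarith
  have hH := hP.H0
  have hτ := hP.τ0
  have hτ1 := hP.τ1
  have hσρ := hP.σρ
  have hc := hP.c0
  have hσm := hP.σm0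
  have hτ64 : P.τ ≤ 1 / 64 := by nlinarith
  have hpi := Real.pi_gt_three
  have hpi4 := Real.pi_le_four
  have hHρ : 0 < P.H * P.ρ ^ 2 := by positivity
  -- eventual smallness
  have e1 : Tendsto (fun s : ℝ => C' * Real.exp ((P.σ - P.ρ) * s)) atTop (𝓝 0) :=
    S6_tendsto_exp (by linarith)
  have e2 := S6_tendsto_dexp P.ρ (P.H * P.ρ ^ 2) hρ0 hc₂
  have e3 := S6_tendsto_dexp P.ρ (32 * Real.exp P.C₀ * (P.H * P.ρ ^ 2)) hσm hc
  have e4 : Tendsto (fun s : ℝ => P.H * P.ρ ^ 2 * Real.exp (P.ρ * s)) atTop atTop :=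
    (Real.tendsto_exp_atTop.comp (tendsto_id.const_mul_atTop hρ0)).const_mul_atTop hHρ
  have ev : ∀ᶠ s : ℝ in atTop, C' * Real.exp ((P.σ - P.ρ) * s) ≤ P.τ / 4 ∧
      P.H * P.ρ ^ 2 * Real.exp (P.ρ * s) * Real.exp (-c₂ * Real.exp (P.ρ * s)) ≤ η / 8 ∧
      32 * Real.exp P.C₀ * (P.H * P.ρ ^ 2) * Real.exp (P.ρ * s) *
        Real.exp (-P.c * Real.exp (P.σm * s)) ≤ η / 2 ∧
      1 ≤ P.H * P.ρ ^ 2 * Real.exp (P.ρ * s) ∧ S₁ ≤ s ∧ S₂ ≤ s := by
    filter_upwards [e1.eventually (Iic_mem_nhds (by positivity : (0 : ℝ) < P.τ / 4)),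
      e2.eventually (Iic_mem_nhds (by positivity : (0 : ℝ) < η / 8)),
      e3.eventually (Iic_mem_nhds (by positivity : (0 : ℝ) < η / 2)),
      e4.eventually (eventually_ge_atTop _), eventually_ge_atTop S₁, eventually_ge_atTop S₂]
      with s h1 h2 h3 h4 h5 h6
    exact ⟨h1, h2, h3, h4, h5, h6⟩
  obtain ⟨S, hS⟩ := eventually_atTop.1 ev
  obtain ⟨m₁, hm₁, hbig⟩ := S6_big P hP m₀ C' hC' S
  refine ⟨m₁, ?_⟩
  intro f K s w₁ hcls hsad m hm
  have hSs := hbig K s w₁ hsad m hm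
  obtain ⟨a1, a2, a3, a4, a5, a6⟩ := hS (s m) hSs
  obtain ⟨q1, q2, q3, q4, q5⟩ := hsad m (hm₁.trans hm)
  set x : ℝ := s m with hx
  set w := w₁ m with hw
  set X := Xof K s w₁ m with hX
  set ε₁ := C' * Real.exp ((P.σ - P.ρ) * x) with hε₁
  set Λ := P.H * P.ρ ^ 2 * Real.exp (P.ρ * x) with hΛ
  have hΛ0 : 0 < Λ := by linarith
  set q := Real.sqrt Λ with hq
  have hq0 : 0 < q := Real.sqrt_pos.2 hΛ0
  have hqΛ : q ≤ Λ := by
    have h1 : q ^ 2 = Λ := Real.sq_sqrt hΛ0.le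
    have h2 : 1 ≤ q := Real.one_le_sqrt.2 a4
    nlinarith
  set L := Real.sqrt (2 * Real.pi / Λ) with hL
  set t := 3 / 4 * P.τ with ht
  set b := w.im with hb
  set g := S6_g f m x with hg
  have hgc : Continuous g := S6_cont hcls.ent.1 m x
  set N₀ := Real.exp ((K x).re - m * x) with hN₀
  have hN₀0 : 0 < N₀ := Real.exp_pos _
  set R := Real.exp (P.C₀ - P.c * Real.exp (P.σm * x)) * N₀ with hR
  have hR0 : 0 ≤ R := by positivity
  have hε₁τ : ε₁ ≤ P.τ / 4 := a1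
  have hbθ : |b - P.θ₀| ≤ ε₁ := by
    have h1 := (Complex.abs_im_le_norm (w - (x + P.θ₀ * I))).trans q4
    simpa using h1
  have hwre : |w.re - x| ≤ ε₁ := by
    have h1 := (Complex.abs_re_le_norm (w - (x + P.θ₀ * I))).trans q4
    simpa using h1
  have hb1 := (abs_le.1 hbθ).1
  have hb2 := (abs_le.1 hbθ).2
  have hθlo := hP.θlo
  have hθhi := hP.θhi
  -- `K` and `g`
  have hgK : ∀ θ : ℝ, ((x : ℂ) + θ * I) ∈ DS P.θ₀ (2 * P.τ) →
      g θ = exp (K (x + θ * I) - m * (x + θ * I)) := by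
    intro θ hθ
    rw [hg]
    unfold S6_g
    rw [← hcls.ex _ hθ, ← Complex.exp_add]
    rfl
  have hKx : K x = ((K x).re : ℂ) := by
    apply Complex.ext
    · rw [Complex.ofReal_re]
    · rw [Complex.ofReal_im]; exact hcls.re x
  have hN₀' : exp (K x - m * x) = (N₀ : ℂ) := by
    rw [hKx, hN₀, Complex.ofReal_exp]
    congr 1
    push_cast
    rfl
  have hXN : exp (K w - m * w) = X * N₀ := by
    rw [hX, ← hN₀']
    unfold Xof
    rw [← Complex.exp_add]
    congr 1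
    ring
  -- peak at 0
  set J0 := ∫ y in (-t)..t, exp (K (x + y * I) - K x - m * (y * I)) with hJ0
  set J1 := ∫ y in (-t)..t, exp (K (w + y * I) - K w - m * (y * I)) with hJ1
  have hJ0L : ‖J0 - (L : ℂ)‖ ≤ η / 8 / q := by
    have := hpeak f K hcls x a5 x m 0 (Or.inl rfl) (by
      simp only [Complex.ofReal_zero, zero_mul, add_zero, sub_self, norm_zero]
      positivity) q2
    exact this
  have hJ1L : ‖J1 - (L : ℂ)‖ ≤ η / 8 / q := hpeak f K hcls x a5 w m P.θ₀ (Or.inr rfl) q4 q3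
  have hI0 : ∫ θ in (-t)..t, g θ = N₀ * J0 := by
    rw [hJ0, ← hN₀', ← intervalIntegral.integral_const_mul]
    apply intervalIntegral.integral_congr
    intro y hy
    rw [uIcc_of_le (by linarith)] at hy
    simp only []
    rw [hgK y (Or.inl (by
      show |((x : ℂ) + y * I).im| < 2 * P.τ
      have : ((x : ℂ) + y * I).im = y := by simp
      rw [this]
      exact lt_of_le_of_lt (abs_le.2 hy) (by linarith))), ← Complex.exp_add]
    congr 1
    ring
  have hI1 : ‖(∫ θ in (b - t)..(b + t), g θ) - X * N₀ * J1‖ ≤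
      2 * ε₁ * (N₀ * Real.exp (-c₂ * Real.exp (P.ρ * x))) := by
    have e : X * N₀ * J1 = ∫ y in (-t)..t, exp (K (w + y * I) - m * (w + y * I)) := by
      rw [hJ1, ← hXN, ← intervalIntegral.integral_const_mul]
      apply intervalIntegral.integral_congr
      intro y _
      simp only []
      rw [← Complex.exp_add]
      congr 1
      ring
    have e' : ∫ θ in (b - t)..(b + t), g θ =
        ∫ θ in (b - t)..(b + t), exp (K (x + θ * I) - m * (x + θ * I)) := by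
      apply intervalIntegral.integral_congr
      intro y hy
      rw [uIcc_of_le (by linarith)] at hy
      exact hgK y (Or.inr (by
        show |((x : ℂ) + y * I).im - P.θ₀| < 2 * P.τ
        have : ((x : ℂ) + y * I).im = y := by simp
        rw [this, abs_lt]
        constructor <;> linarith [hy.1, hy.2]))
    rw [e, e']
    have hbetween : ∀ z : ℂ, z.re ∈ uIcc x w.re → |z.re - x| ≤ ε₁ := by
      intro z hz
      have h1 := abs_sub_left_of_mem_uIcc hz
      refine le_trans ?_ hwre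
      rw [abs_sub_comm z.re x] at *
      exact h1
    have h := shift (K := K) (S6_open P.θ₀ (2 * P.τ)) hcls.an m x t
      (N₀ * Real.exp (-c₂ * Real.exp (P.ρ * x))) w (by positivity)
      (fun z hz1 hz2 => Or.inr (by
        show |z.im - P.θ₀| < 2 * P.τ
        have h1 := abs_le.1 hz2
        rw [abs_lt]
        constructor <;> linarith [h1.1, h1.2]))
      (fun z hz1 hz2 => by
        have h1 := hside f K hcls x a6 m q5 z (hbetween z hz1)
        have h2 : P.τ / 2 ≤ |z.im - P.θ₀| := by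
          rcases abs_cases (z.im - b) with h3 | h3
          · rw [h3.1] at hz2
            exact (le_abs_self _).trans' (by linarith)
          · rw [h3.1] at hz2
            exact (neg_le_abs _).trans' (by linarith)
        have h3 : |z.im - P.θ₀| ≤ P.τ := by
          have h4 := abs_le.1 (le_of_eq hz2)
          rw [abs_le]
          constructor <;> linarith [h4.1, h4.2]
        exact h1 h2 h3)
    refine h.trans ?_
    apply mul_le_mul_of_nonneg_right _ (by positivity)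
    linarith
  -- the rest
  have hrest : ∀ {a c : ℝ}, a ≤ c → c - a ≤ 2 * Real.pi → (∀ θ, a ≤ θ → θ ≤ c → ∃ θ' : ℝ,
      (θ = θ' ∨ θ = -θ' ∨ θ = 2 * Real.pi - θ') ∧ θ' ≤ Real.pi ∧ P.τ / 2 ≤ θ' ∧
        P.τ / 2 ≤ |θ' - P.θ₀|) → ‖∫ θ in a..c, g θ‖ ≤ 2 * Real.pi * R := by
    intro a c hac hlen h
    apply S6_restInt hac hlen hR0
    intro θ h1 h2
    obtain ⟨θ', h3, h4, h5, h6⟩ := h θ h1 h2
    exact S6_decay hP hcls m (by linarith) h3 h4 h5 h6
  -- algebra
  set u := Real.sqrt (2 * Real.pi * Λ) / (2 * Real.pi) with hu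
  obtain ⟨hu1, hu2⟩ := S6_sqrt hΛ0
  rw [← hu, ← hL] at hu1
  rw [← hu, ← hq] at hu2
  have hu0 : 0 ≤ u := by positivity
  have hNof : Nof P K s m = N₀ / Real.sqrt (2 * Real.pi * Λ) := by
    unfold Nof
    rfl
  have hcoef : ∀ Z : ℂ, (1 / (2 * Real.pi) : ℂ) * Z / (Nof P K s m : ℂ) = (u : ℂ) / N₀ * Z := by
    intro Z
    rw [hNof, hu]
    have h1 : (Real.sqrt (2 * Real.pi * Λ) : ℂ) ≠ 0 := by
      exact_mod_cast (Real.sqrt_pos.2 (by positivity)).ne'
    have h2 : (N₀ : ℂ) ≠ 0 := by exact_mod_cast hN₀0.ne'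
    have h3 : (Real.pi : ℂ) ≠ 0 := by exact_mod_cast Real.pi_ne_zero
    push_cast
    field_simp
  have huN : ‖(u : ℂ) / N₀‖ = u / N₀ := by
    rw [norm_div, Complex.norm_real, Complex.norm_real, Real.norm_eq_abs, Real.norm_eq_abs,
      abs_of_nonneg hu0, abs_of_pos hN₀0]
  have huL : (u : ℂ) * L = 1 := by exact_mod_cast hu1
  have t0 : ‖(u : ℂ) / N₀ * (N₀ * J0) - 1‖ ≤ η / 8 := by
    have e : (u : ℂ) / N₀ * (N₀ * J0) - 1 = u * (J0 - L) := by
      have h2 : (N₀ : ℂ) ≠ 0 := by exact_mod_cast hN₀0.ne'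
      rw [mul_sub, huL]
      field_simp
    rw [e, norm_mul, Complex.norm_real, Real.norm_eq_abs, abs_of_nonneg hu0]
    calc u * ‖J0 - L‖ ≤ q * (η / 8 / q) := mul_le_mul hu2 hJ0L (norm_nonneg _) hq0.le
      _ = η / 8 := by field_simp
  have t1 : ‖(u : ℂ) / N₀ * (∫ θ in (b - t)..(b + t), g θ) - X‖ ≤ η / 8 * ‖X‖ + η / 8 := by
    have e : (u : ℂ) / N₀ * (∫ θ in (b - t)..(b + t), g θ) - X = X * (u * (J1 - L)) +
        (u : ℂ) / N₀ * ((∫ θ in (b - t)..(b + t), g θ) - X * N₀ * J1) := by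
      have h2 : (N₀ : ℂ) ≠ 0 := by exact_mod_cast hN₀0.ne'
      rw [mul_sub (u : ℂ), huL]
      field_simp
      ring
    rw [e]
    refine (norm_add_le _ _).trans (add_le_add ?_ ?_)
    · rw [norm_mul, norm_mul, Complex.norm_real, Real.norm_eq_abs, abs_of_nonneg hu0, mul_comm]
      apply mul_le_mul_of_nonneg_right _ (norm_nonneg _)
      calc u * ‖J1 - L‖ ≤ q * (η / 8 / q) := mul_le_mul hu2 hJ1L (norm_nonneg _) hq0.le
        _ = η / 8 := by field_simp
    · rw [norm_mul, huN]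
      calc u / N₀ * ‖(∫ θ in (b - t)..(b + t), g θ) - X * N₀ * J1‖
          ≤ u / N₀ * (2 * ε₁ * (N₀ * Real.exp (-c₂ * Real.exp (P.ρ * x)))) :=
            mul_le_mul_of_nonneg_left hI1 (by positivity)
        _ = 2 * ε₁ * (u * Real.exp (-c₂ * Real.exp (P.ρ * x))) := by field_simp
        _ ≤ 1 * (Λ * Real.exp (-c₂ * Real.exp (P.ρ * x))) := by
            apply mul_le_mul (by linarith) _ (by positivity) (by norm_num)
            exact mul_le_mul_of_nonneg_right (hu2.trans hqΛ) (Real.exp_pos _).le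
        _ ≤ η / 8 := by rw [one_mul]; exact a2
  have t2 : ∀ r : ℂ, ‖r‖ ≤ 4 * (2 * Real.pi * R) → ‖(u : ℂ) / N₀ * r‖ ≤ η / 2 := by
    intro r hr
    rw [norm_mul, huN]
    calc u / N₀ * ‖r‖ ≤ u / N₀ * (4 * (2 * Real.pi * R)) :=
          mul_le_mul_of_nonneg_left hr (by positivity)
      _ = u * (8 * Real.pi) * Real.exp (P.C₀ - P.c * Real.exp (P.σm * x)) := by
          rw [hR]
          field_simp
          ring
      _ ≤ Λ * 32 * Real.exp (P.C₀ - P.c * Real.exp (P.σm * x)) := by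
          apply mul_le_mul_of_nonneg_right _ (Real.exp_pos _).le
          exact mul_le_mul (hu2.trans hqΛ) (by linarith) (by positivity) hΛ0.le
      _ = 32 * Real.exp P.C₀ * (P.H * P.ρ ^ 2) * Real.exp (P.ρ * x) *
            Real.exp (-P.c * Real.exp (P.σm * x)) := by
          rw [show P.C₀ - P.c * Real.exp (P.σm * x) = P.C₀ + -P.c * Real.exp (P.σm * x) by ring,
            Real.exp_add, hΛ]
          ring
      _ ≤ η / 2 := a3
  by_cases hθπ : P.θ₀ = Real.pi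
  · -- `θ₀ = π`
    rw [if_pos hθπ, add_zero, coef_integral hcls.ent.1 m x (-(Real.pi / 2)), hcoef]
    have hsplit := S6_split' hgc b t
    set r := ((∫ θ in (-(Real.pi / 2))..(-t), g θ) + (∫ θ in t..(b - t), g θ) +
        (∫ θ in (b + t)..(-(Real.pi / 2) + 2 * Real.pi), g θ)) with hr
    have hrb : ‖r‖ ≤ 4 * (2 * Real.pi * R) := by
      have r1 : ‖∫ θ in (-(Real.pi / 2))..(-t), g θ‖ ≤ 2 * Real.pi * R := by
        apply hrest (by linarith) (by linarith)
        intro θ h1 h2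
        refine ⟨-θ, Or.inr (Or.inl (by ring)), by linarith, by linarith, ?_⟩
        exact (neg_le_abs _).trans' (by linarith)
      have r2 : ‖∫ θ in t..(b - t), g θ‖ ≤ 2 * Real.pi * R := by
        apply hrest (by linarith) (by linarith)
        intro θ h1 h2
        refine ⟨θ, Or.inl rfl, by linarith, by linarith, ?_⟩
        exact (neg_le_abs _).trans' (by linarith)
      have r3 : ‖∫ θ in (b + t)..(-(Real.pi / 2) + 2 * Real.pi), g θ‖ ≤ 2 * Real.pi * R := by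
        apply hrest (by linarith) (by linarith)
        intro θ h1 h2
        refine ⟨2 * Real.pi - θ, Or.inr (Or.inr (by ring)), by linarith, by linarith, ?_⟩
        exact (neg_le_abs _).trans' (by linarith)
      have h4 : 0 ≤ 2 * Real.pi * R := by positivity
      calc ‖r‖ ≤ 2 * Real.pi * R + 2 * Real.pi * R + 2 * Real.pi * R :=
            (norm_add_le _ _).trans (add_le_add ((norm_add_le _ _).trans (add_le_add r1 r2)) r3)
        _ ≤ _ := by linarith
    have e : (u : ℂ) / N₀ * (∫ θ in (-(Real.pi / 2))..(-(Real.pi / 2) + 2 * Real.pi),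
          f (exp (x + θ * I)) * exp (-(m * (x + θ * I)))) - (1 + X) =
        ((u : ℂ) / N₀ * (N₀ * J0) - 1) +
        ((u : ℂ) / N₀ * (∫ θ in (b - t)..(b + t), g θ) - X) + (u : ℂ) / N₀ * r := by
      have : (∫ θ in (-(Real.pi / 2))..(-(Real.pi / 2) + 2 * Real.pi),
          f (exp (x + θ * I)) * exp (-(m * (x + θ * I)))) =
          ∫ θ in (-(Real.pi / 2))..(-(Real.pi / 2) + 2 * Real.pi), g θ := rfl
      rw [this, hsplit, hI0]
      ring
    rw [e]
    refine (norm_add_le _ _).trans ((add_le_add ((norm_add_le _ _).trans (add_le_add t0 t1))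
      (t2 r hrb)).trans ?_)
    nlinarith [norm_nonneg X]
  · -- `θ₀ < π`
    have hlt : P.θ₀ < Real.pi := lt_of_le_of_ne hθhi hθπ
    have hτ2 := hP.τ2 hlt
    rw [if_neg hθπ, coef_integral hcls.ent.1 m x (-Real.pi), hcoef]
    have hsplit := S6_split hgc b t
    set r := ((∫ θ in (-Real.pi)..(-b - t), g θ) +
      (∫ θ in (-b + t)..(-t), g θ) + (∫ θ in t..(b - t), g θ) + (∫ θ in (b + t)..Real.pi, g θ))
      with hr
    have hrb : ‖r‖ ≤ 4 * (2 * Real.pi * R) := by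
      have r0 : ‖∫ θ in (-Real.pi)..(-b - t), g θ‖ ≤ 2 * Real.pi * R := by
        apply hrest (by linarith) (by linarith)
        intro θ h1 h2
        refine ⟨-θ, Or.inr (Or.inl (by ring)), by linarith, by linarith, ?_⟩
        exact (le_abs_self _).trans' (by linarith)
      have r1 : ‖∫ θ in (-b + t)..(-t), g θ‖ ≤ 2 * Real.pi * R := by
        apply hrest (by linarith) (by linarith)
        intro θ h1 h2
        refine ⟨-θ, Or.inr (Or.inl (by ring)), by linarith, by linarith, ?_⟩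
        exact (neg_le_abs _).trans' (by linarith)
      have r2 : ‖∫ θ in t..(b - t), g θ‖ ≤ 2 * Real.pi * R := by
        apply hrest (by linarith) (by linarith)
        intro θ h1 h2
        refine ⟨θ, Or.inl rfl, by linarith, by linarith, ?_⟩
        exact (neg_le_abs _).trans' (by linarith)
      have r3 : ‖∫ θ in (b + t)..Real.pi, g θ‖ ≤ 2 * Real.pi * R := by
        apply hrest (by linarith) (by linarith)
        intro θ h1 h2
        refine ⟨θ, Or.inl rfl, by linarith, by linarith, ?_⟩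
        exact (le_abs_self _).trans' (by linarith)
      calc ‖r‖ ≤ 2 * Real.pi * R + 2 * Real.pi * R + 2 * Real.pi * R + 2 * Real.pi * R :=
            (norm_add_le _ _).trans (add_le_add ((norm_add_le _ _).trans
              (add_le_add ((norm_add_le _ _).trans (add_le_add r0 r1)) r2)) r3)
        _ ≤ _ := by linarith
    have hconj : ∫ θ in (-b - t)..(-b + t), g θ =
        (starRingEnd ℂ) (∫ θ in (b - t)..(b + t), g θ) := by
      have h1 : ∫ θ in (b - t)..(b + t), g (-θ) = ∫ θ in (-(b + t))..(-(b - t)), g θ :=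
        intervalIntegral.integral_comp_neg g
      rw [show -b - t = -(b + t) by ring, show -b + t = -(b - t) by ring, ← h1]
      have h2 : ∀ θ : ℝ, g (-θ) = (starRingEnd ℂ) (g θ) := fun θ => S6_neg hcls.ent m x θ
      simp only [h2]
      rw [intervalIntegral.integral_of_le (by linarith), intervalIntegral.integral_of_le (by linarith)]
      exact integral_conj
    have t1' : ‖(u : ℂ) / N₀ * (∫ θ in (-b - t)..(-b + t), g θ) - (starRingEnd ℂ) X‖ ≤
        η / 8 * ‖X‖ + η / 8 := by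
      rw [hconj]
      have e : (u : ℂ) / N₀ * (starRingEnd ℂ) (∫ θ in (b - t)..(b + t), g θ) - (starRingEnd ℂ) X =
          (starRingEnd ℂ) ((u : ℂ) / N₀ * (∫ θ in (b - t)..(b + t), g θ) - X) := by
        rw [map_sub, map_mul, map_div₀, Complex.conj_ofReal, Complex.conj_ofReal]
      rw [e, Complex.norm_conj]
      exact t1
    have e : (u : ℂ) / N₀ * (∫ θ in (-Real.pi)..(-Real.pi + 2 * Real.pi),
          f (exp (x + θ * I)) * exp (-(m * (x + θ * I)))) - (1 + X + (starRingEnd ℂ) X) =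
        ((u : ℂ) / N₀ * (N₀ * J0) - 1) +
        ((u : ℂ) / N₀ * (∫ θ in (b - t)..(b + t), g θ) - X) +
        ((u : ℂ) / N₀ * (∫ θ in (-b - t)..(-b + t), g θ) - (starRingEnd ℂ) X) +
        (u : ℂ) / N₀ * r := by
      have : (∫ θ in (-Real.pi)..(-Real.pi + 2 * Real.pi),
          f (exp (x + θ * I)) * exp (-(m * (x + θ * I)))) =
          ∫ θ in (-Real.pi)..(-Real.pi + 2 * Real.pi), g θ := rfl
      rw [this, hsplit, hI0]
      ring
    rw [e]
    refine (norm_add_le _ _).trans ((add_le_add ((norm_add_le _ _).trans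
      (add_le_add ((norm_add_le _ _).trans (add_le_add t0 t1)) t1')) (t2 r hrb)).trans ?_)
    nlinarith [norm_nonneg X]

/-- The saddle point formula for the coefficients. `s = s m`, `w₁ = w₁ m`,
`Λ = H ρ^2 e^{ρ s}`; `laplace` at `s` and at `w₁` (`S6_peak`), `shift` and `S6_side` for the second
segment, `Cls.dec` (`S6_decay`) for the rest. -/
theorem sp_main (P : CP) (hP : P.Ok) (m₀ : ℕ) (C' η : ℝ) (hC' : 0 < C') (hη : 0 < η) :
    ∃ m₁ : ℕ, ∀ f K s w₁, Cls P f K → Sad P K m₀ C' s w₁ → ∀ m : ℕ, m₁ ≤ m →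
      |rco f m / Nof P K s m - (1 + pk P.θ₀ * (Xof K s w₁ m).re)| ≤
          η * (1 + ‖Xof K s w₁ m‖) ∧
      (P.θ₀ = Real.pi → |(Xof K s w₁ m).im| ≤ η * (1 + ‖Xof K s w₁ m‖)) := by
  obtain ⟨m₁, h⟩ := S6_core P hP m₀ C' η hC' hη
  refine ⟨m₁, ?_⟩
  intro f K s w₁ hcls hsad m hm
  have h1 := h f K s w₁ hcls hsad m hm
  have hco : coef f m = ((rco f m : ℝ) : ℂ) := by
    apply Complex.ext
    · rw [Complex.ofReal_re]; rfl
    · rw [Complex.ofReal_im]; exact coef_im hcls.ent m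
  have hdiv : coef f m / (Nof P K s m : ℂ) = ((rco f m / Nof P K s m : ℝ) : ℂ) := by
    rw [hco]
    push_cast
    rfl
  rw [hdiv] at h1
  set X := Xof K s w₁ m with hX
  by_cases hθ : P.θ₀ = Real.pi
  · rw [if_pos hθ, add_zero] at h1
    have hre := (Complex.abs_re_le_norm _).trans h1
    have him := (Complex.abs_im_le_norm _).trans h1
    simp only [Complex.sub_re, Complex.sub_im, Complex.add_re, Complex.add_im, Complex.one_re,
      Complex.one_im, Complex.ofReal_re, Complex.ofReal_im, zero_add, zero_sub, abs_neg] at hre him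
    refine ⟨?_, fun _ => him⟩
    rw [pk, if_pos hθ, one_mul]
    exact hre
  · rw [if_neg hθ] at h1
    have hre := (Complex.abs_re_le_norm _).trans h1
    simp only [Complex.sub_re, Complex.add_re, Complex.one_re, Complex.ofReal_re,
      Complex.conj_re] at hre
    refine ⟨?_, fun h => absurd h hθ⟩
    rw [pk, if_neg hθ]
    rw [show 1 + 2 * X.re = 1 + X.re + X.re by ring]
    exact hre

end Pool.Agent.helper74.LG
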