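import Pool.Agent.helper74.LG.S3

set_option autoImplicit false

namespace Pool.Agent.helper74.LG

open Complex Set Filter Topology MeasureTheory

theorem S7_T0 {K2 K3 : ℂ → ℂ} {S : Set ℂ} (hS : Convex ℝ S) {M : ℝ}
    (h2 : ∀ w ∈ S, HasDerivAt K2 (K3 w) w) (b3 : ∀ w ∈ S, ‖K3 w‖ ≤ M) {A B : ℂ} (hA : A ∈ S)
    (hB : B ∈ S) : ‖K2 B - K2 A‖ ≤ M * ‖B - A‖ :=
  hS.norm_image_sub_le_of_norm_hasDerivWithin_le
    (fun w hw => (h2 w hw).hasDerivWithinAt) b3 hA hB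

theorem S7_seg {A B w : ℂ} (hw : w ∈ segment ℝ A B) : ‖w - A‖ ≤ ‖B - A‖ := by
  obtain ⟨t, ht, rfl⟩ := (segment_eq_image' ℝ A B ▸ hw)
  simp only [add_sub_cancel_left, norm_smul, Real.norm_eq_abs]
  rw [abs_of_nonneg ht.1]
  exact mul_le_of_le_one_left (norm_nonneg _) ht.2

theorem S7_T1 {K1 K2 K3 : ℂ → ℂ} {S : Set ℂ} (hS : Convex ℝ S) {M : ℝ}
    (h1 : ∀ w ∈ S, HasDerivAt K1 (K2 w) w)
    (h2 : ∀ w ∈ S, HasDerivAt K2 (K3 w) w) (b3 : ∀ w ∈ S, ‖K3 w‖ ≤ M) {A B : ℂ} (hA : A ∈ S)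
    (hB : B ∈ S) : ‖K1 B - K1 A - K2 A * (B - A)‖ ≤ M * ‖B - A‖ ^ 2 := by
  have hM : 0 ≤ M := (norm_nonneg _).trans (b3 A hA)
  have hsub : segment ℝ A B ⊆ S := hS.segment_subset hA hB
  have key := (convex_segment A B).norm_image_sub_le_of_norm_hasDerivWithin_le
    (f := fun w => K1 w - K2 A * w) (f' := fun w => K2 w - K2 A) (C := M * ‖B - A‖)
    (fun w hw => by
      have e := (h1 w (hsub hw)).sub ((hasDerivAt_id w).const_mul (K2 A))
      simp only [id, mul_one] at e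
      exact e.hasDerivWithinAt)
    (fun w hw => (S7_T0 hS h2 b3 hA (hsub hw)).trans
      (mul_le_mul_of_nonneg_left (S7_seg hw) hM))
    (left_mem_segment ℝ A B) (right_mem_segment ℝ A B)
  have e1 : (K1 B - K2 A * B) - (K1 A - K2 A * A) = K1 B - K1 A - K2 A * (B - A) := by ring
  rw [e1] at key
  calc _ ≤ _ := key
    _ = _ := by ring

theorem S7_T2 {K K1 K2 K3 : ℂ → ℂ} {S : Set ℂ} (hS : Convex ℝ S) {M : ℝ}
    (h0 : ∀ w ∈ S, HasDerivAt K (K1 w) w)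
    (h1 : ∀ w ∈ S, HasDerivAt K1 (K2 w) w)
    (h2 : ∀ w ∈ S, HasDerivAt K2 (K3 w) w) (b3 : ∀ w ∈ S, ‖K3 w‖ ≤ M) {A B : ℂ} (hA : A ∈ S)
    (hB : B ∈ S) : ‖K B - K A - 1 / 2 * (K1 A + K1 B) * (B - A)‖ ≤ M * ‖B - A‖ ^ 3 := by
  have hM : 0 ≤ M := (norm_nonneg _).trans (b3 A hA)
  have hsub : segment ℝ A B ⊆ S := hS.segment_subset hA hB
  have key := (convex_segment A B).norm_image_sub_le_of_norm_hasDerivWithin_le
    (f := fun w => K w - 1 / 2 * (K1 A + K1 w) * (w - A))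
    (f' := fun w => K1 w - (1 / 2 * (K2 w) * (w - A) + 1 / 2 * (K1 A + K1 w) * 1))
    (C := M * ‖B - A‖ ^ 2)
    (fun w hw => by
      have e1 : HasDerivAt (fun w => 1 / 2 * (K1 A + K1 w)) (1 / 2 * K2 w) w :=
        ((h1 w (hsub hw)).const_add (K1 A)).const_mul (1 / 2 : ℂ)
      have e2 : HasDerivAt (fun w : ℂ => w - A) 1 w := (hasDerivAt_id w).sub_const A
      exact ((h0 w (hsub hw)).sub (e1.mul e2)).hasDerivWithinAt)
    (fun w hw => by
      have e3 : K1 w - (1 / 2 * (K2 w) * (w - A) + 1 / 2 * (K1 A + K1 w) * 1)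
          = -(1 / 2) * (K1 A - K1 w - K2 w * (A - w)) := by ring
      rw [e3, norm_mul]
      have e4 := S7_T1 hS h1 h2 b3 (hsub hw) hA
      have e5 : ‖A - w‖ ≤ ‖B - A‖ := by rw [norm_sub_rev]; exact S7_seg hw
      have e6 : ‖(-(1 / 2) : ℂ)‖ = 1 / 2 := by norm_num
      rw [e6]
      have e7 : M * ‖A - w‖ ^ 2 ≤ M * ‖B - A‖ ^ 2 := by gcongr
      have e8 : 0 ≤ M * ‖B - A‖ ^ 2 := by positivity
      linarith)
    (left_mem_segment ℝ A B) (right_mem_segment ℝ A B)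
  have e1 : (K B - 1 / 2 * (K1 A + K1 B) * (B - A)) - (K A - 1 / 2 * (K1 A + K1 A) * (A - A))
      = K B - K A - 1 / 2 * (K1 A + K1 B) * (B - A) := by ring
  rw [e1] at key
  calc _ ≤ _ := key
    _ = _ := by ring

theorem S7_T3 {K1 K2 : ℂ → ℂ} {S : Set ℂ} (hS : Convex ℝ S) {L : ℝ}
    (h1 : ∀ w ∈ S, HasDerivAt K1 (K2 w) w)
    (b2 : ∀ w ∈ S, ‖K2 w - L‖ ≤ L / 4) {A B : ℂ} (hA : A ∈ S)
    (hB : B ∈ S) : ‖K1 B - K1 A - L * (B - A)‖ ≤ L / 4 * ‖B - A‖ := by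
  have key := hS.norm_image_sub_le_of_norm_hasDerivWithin_le
    (f := fun w => K1 w - L * w) (f' := fun w => K2 w - L) (C := L / 4)
    (fun w hw => by
      have e := (h1 w hw).sub ((hasDerivAt_id w).const_mul (L : ℂ))
      simp only [id, mul_one] at e
      exact e.hasDerivWithinAt)
    b2 hA hB
  have e1 : (K1 B - L * B) - (K1 A - L * A) = K1 B - K1 A - L * (B - A) := by ring
  rw [e1] at key
  exact key


theorem S7_isOpen_DS (θ t : ℝ) : IsOpen (DS θ t) := by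
  apply IsOpen.union
  · exact isOpen_lt (continuous_im.abs) continuous_const
  · exact isOpen_lt ((continuous_im.sub continuous_const).abs) continuous_const

theorem S7_exp_dom {D E μ ρ : ℝ} (_hD : 0 ≤ D) (hE : 0 < E) (hμ : μ < ρ) :
    ∃ x₀ : ℝ, 2 ≤ x₀ ∧ ∀ a, x₀ ≤ a → D * Real.exp (μ * a) ≤ E * Real.exp (ρ * a) := by
  refine ⟨max 2 (D / (E * (ρ - μ))), le_max_left _ _, fun a ha => ?_⟩
  have h1 : D / (E * (ρ - μ)) ≤ a := (le_max_right _ _).trans ha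
  have h2 : 0 < ρ - μ := by linarith
  rw [div_le_iff₀ (by positivity)] at h1
  have h3 : (ρ - μ) * a + 1 ≤ Real.exp ((ρ - μ) * a) := Real.add_one_le_exp _
  have h4 : Real.exp (ρ * a) = Real.exp ((ρ - μ) * a) * Real.exp (μ * a) := by
    rw [← Real.exp_add]; ring_nf
  rw [h4, ← mul_assoc]
  apply mul_le_mul_of_nonneg_right _ (Real.exp_pos _).le
  nlinarith

/-- the size of the second derivative -/
noncomputable def S7_L (P : CP) (a : ℝ) : ℝ := P.H * P.ρ ^ 2 * Real.exp (P.ρ * a)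

theorem S7_near (P : CP) (hP : P.Ok) : ∃ r₀ x₀ C₅ : ℝ, 0 < r₀ ∧ 2 ≤ x₀ ∧ 0 < C₅ ∧
    ∀ f K, Cls P f K → ∀ a : ℝ, x₀ ≤ a →
      (∀ c : ℂ, (c = a ∨ c = a + P.θ₀ * I) →
        (∀ w ∈ Metric.closedBall c r₀, HasDerivAt K (deriv K w) w ∧
          HasDerivAt (deriv K) (deriv (deriv K) w) w ∧
          HasDerivAt (deriv (deriv K)) (deriv (deriv (deriv K)) w) w ∧
          ‖deriv (deriv K) w - (S7_L P a : ℂ)‖ ≤ S7_L P a / 4 ∧
          ‖deriv (deriv (deriv K)) w‖ ≤ C₅ * S7_L P a) ∧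
        ‖deriv (deriv K) c - (S7_L P a : ℂ)‖ ≤ C₅ * Real.exp (max P.σ P.σ₁ * a)) ∧
      ‖deriv (deriv K) (a + P.θ₀ * I) - deriv (deriv K) a‖ ≤ C₅ * Real.exp (P.σ * a) := by
  obtain ⟨C₃, hC₃, hb⟩ := deriv_bounds P hP
  have hρ : 0 < P.ρ := lt_trans one_pos hP.ρ1
  have hH := hP.H0
  have hH₁ := hP.H₁0
  have hσ₁ := hP.σ₁0
  set μ := max P.σ P.σ₁ with hμ
  have hμρ : μ < P.ρ := max_lt hP.σρ hP.σ₁ρ
  have hμ0 : 0 < μ := lt_of_lt_of_le hP.σ0 (le_max_left _ _)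
  have hHρ : 0 < P.H * P.ρ ^ 2 := by positivity
  set D2 := (P.H₁ * P.σ₁ ^ 2 + C₃) * Real.exp μ with hD2
  have hD2p : 0 < D2 := by positivity
  set D3 := (P.H * P.ρ ^ 3 * Real.exp P.ρ + (P.H₁ * P.σ₁ ^ 3 + C₃) * Real.exp μ)
    / (P.H * P.ρ ^ 2) with hD3
  have hD3p : 0 < D3 := by positivity
  obtain ⟨x₀, hx₀2, hx₀⟩ := S7_exp_dom (D := D2) (E := P.H * P.ρ ^ 2 / 8) hD2p.le (by positivity)
    hμρ
  set r₀ := min (min 1 P.τ) (1 / (16 * P.ρ)) with hr₀
  have hr₀p : 0 < r₀ := by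
    rw [hr₀]
    refine lt_min (lt_min one_pos hP.τ0) (by positivity)
  have hr1 : r₀ ≤ 1 := (min_le_left _ _).trans (min_le_left _ _)
  have hrτ : r₀ ≤ P.τ := (min_le_left _ _).trans (min_le_right _ _)
  have hrρ : r₀ ≤ 1 / (16 * P.ρ) := min_le_right _ _
  refine ⟨r₀, x₀, D2 + D3 + 2 * C₃, hr₀p, hx₀2, by positivity, ?_⟩
  intro f K hK a ha
  have ha0 : 0 < a := by linarith
  -- basic facts for points near c
  have hgeo : ∀ c : ℂ, (c = a ∨ c = a + P.θ₀ * I) → ∀ w ∈ Metric.closedBall c r₀,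
      w ∈ DS P.θ₀ (3 / 2 * P.τ) ∧ 1 ≤ w.re ∧ w.re ≤ a + 1 := by
    intro c hc w hw
    rw [Metric.mem_closedBall, Complex.dist_eq] at hw
    have h1 : |(w - c).re| ≤ r₀ := (abs_re_le_norm _).trans hw
    have h2 : |(w - c).im| ≤ r₀ := (abs_im_le_norm _).trans hw
    have hτ := hP.τ0
    rcases hc with rfl | rfl
    · simp only [sub_re, ofReal_re, sub_im, ofReal_im, sub_zero] at h1 h2
      have h3 := abs_le.1 h1
      refine ⟨Or.inl (lt_of_le_of_lt h2 (by linarith)), by linarith, by linarith⟩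
    · simp only [sub_re, add_re, ofReal_re, mul_re, I_re, mul_zero, ofReal_im, I_im, mul_one,
        sub_self, add_zero, sub_im, add_im, mul_im, zero_add] at h1 h2
      have h3 := abs_le.1 h1
      refine ⟨Or.inr (lt_of_le_of_lt h2 (by linarith)), by linarith, by linarith⟩
  have hexpc : ∀ c : ℂ, (c = a ∨ c = a + P.θ₀ * I) → exp (P.ρ * c) = Real.exp (P.ρ * a) := by
    intro c hc
    rcases hc with rfl | rfl
    · push_cast; rfl
    · rw [mul_add, exp_add]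
      have : (P.ρ : ℂ) * (P.θ₀ * I) = P.ρ * P.θ₀ * I := by ring
      rw [this, hP.per, mul_one]
      push_cast; rfl
  have hd2 : ∀ w : ℂ, iteratedDeriv 2 K w = deriv (deriv K) w := by
    intro w
    rw [iteratedDeriv_succ, iteratedDeriv_one]
  have hd3 : ∀ w : ℂ, iteratedDeriv 3 K w = deriv (deriv (deriv K)) w := by
    intro w
    rw [iteratedDeriv_succ, iteratedDeriv_succ, iteratedDeriv_one]
  have hexpμ : ∀ w : ℂ, 1 ≤ w.re → w.re ≤ a + 1 →
      Real.exp (P.σ * w.re) ≤ Real.exp μ * Real.exp (μ * a) ∧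
      Real.exp (P.σ₁ * w.re) ≤ Real.exp μ * Real.exp (μ * a) := by
    intro w h1 h2
    have e1 : P.σ * w.re ≤ μ + μ * a := by
      have : P.σ ≤ μ := le_max_left _ _
      nlinarith [hP.σ0]
    have e2 : P.σ₁ * w.re ≤ μ + μ * a := by
      have : P.σ₁ ≤ μ := le_max_right _ _
      nlinarith
    rw [← Real.exp_add]
    exact ⟨Real.exp_le_exp.2 e1, Real.exp_le_exp.2 e2⟩
  -- the second derivative
  have hK2 : ∀ c : ℂ, (c = a ∨ c = a + P.θ₀ * I) → ∀ w ∈ Metric.closedBall c r₀,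
      ‖deriv (deriv K) w - P.H * P.ρ ^ 2 * exp (P.ρ * w)‖ ≤ D2 * Real.exp (μ * a) := by
    intro c hc w hw
    obtain ⟨g1, g2, g3⟩ := hgeo c hc w hw
    have e1 := hb f K hK w g1 g2 2 (by simp)
    rw [hd2] at e1
    obtain ⟨e2, e3⟩ := hexpμ w g2 g3
    have e4 : deriv (deriv K) w - P.H * P.ρ ^ 2 * exp (P.ρ * w)
        = (deriv (deriv K) w - (P.H * P.ρ ^ 2 * exp (P.ρ * w) +
          P.H₁ * P.σ₁ ^ 2 * exp (P.σ₁ * w))) + P.H₁ * P.σ₁ ^ 2 * exp (P.σ₁ * w) := by ring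
    have e5 : ‖(P.H₁ : ℂ) * P.σ₁ ^ 2 * exp (P.σ₁ * w)‖ = P.H₁ * P.σ₁ ^ 2 * Real.exp (P.σ₁ * w.re) := by
      rw [norm_mul, norm_mul, norm_pow, norm_real, norm_real, Complex.norm_exp, re_ofReal_mul,
        Real.norm_of_nonneg hH₁, Real.norm_of_nonneg hσ₁.le]
    rw [e4]
    refine (norm_add_le _ _).trans ?_
    rw [e5]
    have e6 : C₃ * Real.exp (P.σ * w.re) ≤ C₃ * (Real.exp μ * Real.exp (μ * a)) :=
      mul_le_mul_of_nonneg_left e2 hC₃.le
    have e7 : P.H₁ * P.σ₁ ^ 2 * Real.exp (P.σ₁ * w.re)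
        ≤ P.H₁ * P.σ₁ ^ 2 * (Real.exp μ * Real.exp (μ * a)) :=
      mul_le_mul_of_nonneg_left e3 (by positivity)
    calc _ ≤ C₃ * (Real.exp μ * Real.exp (μ * a))
          + P.H₁ * P.σ₁ ^ 2 * (Real.exp μ * Real.exp (μ * a)) := by linarith
      _ = D2 * Real.exp (μ * a) := by rw [hD2]; ring
  have hmain : ∀ c : ℂ, (c = a ∨ c = a + P.θ₀ * I) → ∀ w ∈ Metric.closedBall c r₀,
      ‖P.H * P.ρ ^ 2 * exp (P.ρ * w) - (S7_L P a : ℂ)‖ ≤ S7_L P a / 8 := by
    intro c hc w hw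
    rw [Metric.mem_closedBall, Complex.dist_eq] at hw
    have e1 : (P.H : ℂ) * P.ρ ^ 2 * exp (P.ρ * w) - (S7_L P a : ℂ)
        = (S7_L P a : ℂ) * (exp (P.ρ * (w - c)) - 1) := by
      have e2 : exp (P.ρ * w) = exp (P.ρ * c) * exp (P.ρ * (w - c)) := by
        rw [← exp_add]; congr 1; ring
      rw [e2, hexpc c hc]
      unfold S7_L
      push_cast
      ring
    have e3 : ‖(P.ρ : ℂ) * (w - c)‖ ≤ 1 / 16 := by
      rw [norm_mul, norm_real, Real.norm_of_nonneg hρ.le]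
      calc P.ρ * ‖w - c‖ ≤ P.ρ * (1 / (16 * P.ρ)) :=
            mul_le_mul_of_nonneg_left (hw.trans hrρ) hρ.le
        _ = 1 / 16 := by field_simp
    have e4 := Complex.norm_exp_sub_one_le (x := (P.ρ : ℂ) * (w - c)) (e3.trans (by norm_num))
    have hL : 0 ≤ S7_L P a := by unfold S7_L; positivity
    rw [e1, norm_mul, norm_real, Real.norm_of_nonneg hL]
    calc S7_L P a * ‖exp (P.ρ * (w - c)) - 1‖ ≤ S7_L P a * (1 / 8) :=
          mul_le_mul_of_nonneg_left (by linarith) hL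
      _ = S7_L P a / 8 := by ring
  have hx := hx₀ a ha
  have hx' : D2 * Real.exp (μ * a) ≤ S7_L P a / 8 := by
    unfold S7_L; linarith
  refine ⟨?_, ?_⟩
  · intro c hc
    refine ⟨?_, ?_⟩
    · intro w hw
      obtain ⟨g1, g2, g3⟩ := hgeo c hc w hw
      have hτ := hP.τ0
      have g4 : w ∈ DS P.θ₀ (2 * P.τ) := by
        rcases g1 with g | g
        · exact Or.inl (by linarith)
        · exact Or.inr (by linarith)
      have hO := S7_isOpen_DS P.θ₀ (2 * P.τ)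
      have d0 := hK.an
      have d1 := d0.deriv hO
      have d2 := d1.deriv hO
      have hn := hO.mem_nhds g4
      refine ⟨(d0.differentiableAt hn).hasDerivAt, (d1.differentiableAt hn).hasDerivAt,
        (d2.differentiableAt hn).hasDerivAt, ?_, ?_⟩
      · have e1 := hK2 c hc w hw
        have e2 := hmain c hc w hw
        have e3 : deriv (deriv K) w - (S7_L P a : ℂ)
            = (deriv (deriv K) w - P.H * P.ρ ^ 2 * exp (P.ρ * w))
              + (P.H * P.ρ ^ 2 * exp (P.ρ * w) - (S7_L P a : ℂ)) := by ring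
        rw [e3]
        refine (norm_add_le _ _).trans ?_
        linarith
      · have e1 := hb f K hK w g1 g2 3 (by simp)
        rw [hd3] at e1
        obtain ⟨e2, e3⟩ := hexpμ w g2 g3
        have e4 : deriv (deriv (deriv K)) w
            = (deriv (deriv (deriv K)) w - (P.H * P.ρ ^ 3 * exp (P.ρ * w) +
              P.H₁ * P.σ₁ ^ 3 * exp (P.σ₁ * w))) + P.H * P.ρ ^ 3 * exp (P.ρ * w)
              + P.H₁ * P.σ₁ ^ 3 * exp (P.σ₁ * w) := by ring
        have e5 : ‖(P.H₁ : ℂ) * P.σ₁ ^ 3 * exp (P.σ₁ * w)‖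
            = P.H₁ * P.σ₁ ^ 3 * Real.exp (P.σ₁ * w.re) := by
          rw [norm_mul, norm_mul, norm_pow, norm_real, norm_real, Complex.norm_exp, re_ofReal_mul,
            Real.norm_of_nonneg hH₁, Real.norm_of_nonneg hσ₁.le]
        have e5' : ‖(P.H : ℂ) * P.ρ ^ 3 * exp (P.ρ * w)‖
            = P.H * P.ρ ^ 3 * Real.exp (P.ρ * w.re) := by
          rw [norm_mul, norm_mul, norm_pow, norm_real, norm_real, Complex.norm_exp, re_ofReal_mul,
            Real.norm_of_nonneg hH.le, Real.norm_of_nonneg hρ.le]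
        rw [e4]
        refine (norm_add_le _ _).trans ?_
        refine (add_le_add (norm_add_le _ _) le_rfl).trans ?_
        rw [e5, e5']
        have hμa : Real.exp (μ * a) ≤ Real.exp (P.ρ * a) :=
          Real.exp_le_exp.2 (mul_le_mul_of_nonneg_right hμρ.le ha0.le)
        have e2' : Real.exp (P.σ * w.re) ≤ Real.exp μ * Real.exp (P.ρ * a) :=
          e2.trans (mul_le_mul_of_nonneg_left hμa (Real.exp_pos _).le)
        have e3' : Real.exp (P.σ₁ * w.re) ≤ Real.exp μ * Real.exp (P.ρ * a) :=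
          e3.trans (mul_le_mul_of_nonneg_left hμa (Real.exp_pos _).le)
        have e8 : Real.exp (P.ρ * w.re) ≤ Real.exp P.ρ * Real.exp (P.ρ * a) := by
          rw [← Real.exp_add]
          exact Real.exp_le_exp.2 (by nlinarith)
        have e6 : C₃ * Real.exp (P.σ * w.re) ≤ C₃ * (Real.exp μ * Real.exp (P.ρ * a)) :=
          mul_le_mul_of_nonneg_left e2' hC₃.le
        have e7 : P.H₁ * P.σ₁ ^ 3 * Real.exp (P.σ₁ * w.re)
            ≤ P.H₁ * P.σ₁ ^ 3 * (Real.exp μ * Real.exp (P.ρ * a)) :=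
          mul_le_mul_of_nonneg_left e3' (by positivity)
        have e9 : P.H * P.ρ ^ 3 * Real.exp (P.ρ * w.re)
            ≤ P.H * P.ρ ^ 3 * (Real.exp P.ρ * Real.exp (P.ρ * a)) :=
          mul_le_mul_of_nonneg_left e8 (by positivity)
        have e10 : D3 * S7_L P a = (P.H * P.ρ ^ 3 * Real.exp P.ρ
            + (P.H₁ * P.σ₁ ^ 3 + C₃) * Real.exp μ) * Real.exp (P.ρ * a) := by
          rw [hD3]; unfold S7_L; field_simp
        have hL : 0 ≤ S7_L P a := by unfold S7_L; positivity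
        have e11 : (D2 + D3 + 2 * C₃) * S7_L P a = D3 * S7_L P a + (D2 + 2 * C₃) * S7_L P a := by
          ring
        have e12 : 0 ≤ (D2 + 2 * C₃) * S7_L P a := by positivity
        rw [e11, e10]
        linarith
    · have hcm : c ∈ Metric.closedBall c r₀ := Metric.mem_closedBall_self hr₀p.le
      have e1 := hK2 c hc c hcm
      have e2 : (P.H : ℂ) * P.ρ ^ 2 * exp (P.ρ * c) = (S7_L P a : ℂ) := by
        rw [hexpc c hc]; unfold S7_L; push_cast; ring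
      rw [e2] at e1
      refine e1.trans (mul_le_mul_of_nonneg_right ?_ (Real.exp_pos _).le)
      linarith
  · -- periodicity
    have h1 := hgeo (a : ℂ) (Or.inl rfl) a (Metric.mem_closedBall_self hr₀p.le)
    have h2 := hgeo (a + P.θ₀ * I : ℂ) (Or.inr rfl) _ (Metric.mem_closedBall_self hr₀p.le)
    have e1 := hb f K hK _ h1.1 h1.2.1 2 (by simp)
    have e2 := hb f K hK _ h2.1 h2.2.1 2 (by simp)
    rw [hd2] at e1 e2
    have hre : ((a : ℂ) + P.θ₀ * I).re = a := by simp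
    rw [hre] at e2
    rw [ofReal_re] at e1
    have e3 : (P.H₁ : ℂ) * P.σ₁ ^ 2 * exp (P.σ₁ * (a + P.θ₀ * I))
        = P.H₁ * P.σ₁ ^ 2 * exp (P.σ₁ * a) := by
      rcases hP.per₁ with h | h
      · rw [h]; simp
      · rw [mul_add, exp_add]
        have : (P.σ₁ : ℂ) * (P.θ₀ * I) = P.σ₁ * P.θ₀ * I := by ring
        rw [this, h, mul_one]
    have e4 : exp (P.ρ * (a + P.θ₀ * I)) = exp (P.ρ * a) := by
      rw [hexpc _ (Or.inr rfl), hexpc _ (Or.inl rfl)]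
    rw [e3, e4] at e2
    have e5 : deriv (deriv K) (a + P.θ₀ * I) - deriv (deriv K) a
        = (deriv (deriv K) (a + P.θ₀ * I) - (P.H * P.ρ ^ 2 * exp (P.ρ * a)
          + P.H₁ * P.σ₁ ^ 2 * exp (P.σ₁ * a))) - (deriv (deriv K) a
          - (P.H * P.ρ ^ 2 * exp (P.ρ * a) + P.H₁ * P.σ₁ ^ 2 * exp (P.σ₁ * a))) := by ring
    rw [e5]
    refine (norm_sub_le _ _).trans ?_
    have e6 : 0 ≤ (D2 + D3) * Real.exp (P.σ * a) := by positivity
    have e7 : (D2 + D3 + 2 * C₃) * Real.exp (P.σ * a)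
        = (D2 + D3) * Real.exp (P.σ * a) + (C₃ * Real.exp (P.σ * a)
          + C₃ * Real.exp (P.σ * a)) := by ring
    rw [e7]
    linarith

theorem S7_large (P : CP) (hP : P.Ok) (m₀ : ℕ) (C' : ℝ) (hC' : 0 < C') (X : ℝ) :
    ∃ m₁ : ℕ, m₀ ≤ m₁ ∧ ∀ K s w₁, Sad P K m₀ C' s w₁ → ∀ m : ℕ, m₁ ≤ m → X ≤ s m := by
  have hρ : 0 < P.ρ := lt_trans one_pos hP.ρ1
  have hH := hP.H0
  obtain ⟨N, hN⟩ := exists_nat_gt (P.H * P.ρ * Real.exp (P.ρ * X)
    + C' * Real.exp (max P.σ P.σ₁ * X))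
  refine ⟨max m₀ N, le_max_left _ _, fun K s w₁ hS m hm => ?_⟩
  by_contra hcon
  push Not at hcon
  obtain ⟨-, -, -, -, h5⟩ := hS m ((le_max_left _ _).trans hm)
  have hNm : (N : ℝ) ≤ m := by exact_mod_cast (le_max_right _ _).trans hm
  have hμ0 : 0 < max P.σ P.σ₁ := lt_of_lt_of_le hP.σ0 (le_max_left _ _)
  have e1 : P.H * P.ρ * Real.exp (P.ρ * s m) ≤ P.H * P.ρ * Real.exp (P.ρ * X) := by gcongr
  have e2 : C' * Real.exp (max P.σ P.σ₁ * s m) ≤ C' * Real.exp (max P.σ P.σ₁ * X) := by gcongr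
  have e3 := (abs_le.1 h5).2
  linarith

theorem S7_step (P : CP) (hP : P.Ok) (m₀ : ℕ) (C' : ℝ) (hC' : 0 < C') :
    ∃ (m₁ : ℕ) (C₇ : ℝ), m₀ ≤ m₁ ∧ 0 < C₇ ∧ ∀ f K s w₁, Cls P f K → Sad P K m₀ C' s w₁ →
      ∀ m : ℕ, m₁ ≤ m → s m ≤ s (m + 1) ∧
      ‖(w₁ (m + 1) - s (m + 1)) - (w₁ m - s m)‖ ≤ C₇ * Real.exp ((P.σ - 2 * P.ρ) * s m) ∧
      ‖(K (w₁ (m + 1)) - (m + 1) * w₁ (m + 1) - K (w₁ m) + m * w₁ m)
        + 1 / 2 * (w₁ m + w₁ (m + 1))‖ ≤ C₇ * Real.exp ((P.σ - 2 * P.ρ) * s m) ∧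
      ‖(K (s (m + 1)) - (m + 1) * s (m + 1) - K (s m) + m * s m)
        + 1 / 2 * (s m + s (m + 1))‖ ≤ C₇ * Real.exp ((P.σ - 2 * P.ρ) * s m) ∧
      ‖(w₁ m - s m - P.θ₀ * I) - (deriv K (s m) - deriv K (s m + P.θ₀ * I)) / (S7_L P (s m) : ℂ)‖
        ≤ C₇ * Real.exp ((P.σ + max P.σ P.σ₁ - 2 * P.ρ) * s m) := by
  obtain ⟨r₀, x₀, C₅, hr₀, hx₀2, hC₅, hnear⟩ := S7_near P hP
  have hρ : 0 < P.ρ := lt_trans one_pos hP.ρ1
  have hH := hP.H0
  set q := P.H * P.ρ ^ 2 with hq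
  have hq0 : 0 < q := by positivity
  set μ := max P.σ P.σ₁ with hμ
  have hμρ : μ < P.ρ := max_lt hP.σρ hP.σ₁ρ
  have hσμ : P.σ ≤ μ := le_max_left _ _
  have hμ0 : 0 < μ := lt_of_lt_of_le hP.σ0 hσμ
  obtain ⟨x₁, -, hx₁⟩ := S7_exp_dom (D := 4 / r₀) (E := q) (by positivity) hq0 hρ
  obtain ⟨x₂, -, hx₂⟩ := S7_exp_dom (D := C') (E := r₀ / 2) hC'.le (by positivity) hP.σρ
  obtain ⟨m₁, hm₁, hlarge⟩ := S7_large P hP m₀ C' hC' (max x₀ (max x₁ x₂))
  set Ca := 2 * (8 * C₅ + 2 * (C₅ * (q * C' + 1))) / q ^ 2 with hCa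
  set Cb := 8 * C₅ / q ^ 2 with hCb
  set Cc := (C₅ * C' + C₅ * q * C' ^ 2) / q with hCc
  have hCa0 : 0 < Ca := by positivity
  have hCb0 : 0 < Cb := by positivity
  have hCc0 : 0 < Cc := by positivity
  refine ⟨m₁, Ca + Cb + Cc, hm₁, by positivity, ?_⟩
  intro f K s w₁ hK hS m hm
  obtain ⟨-, sa2, sa3, sa4, -⟩ := hS m (hm₁.trans hm)
  obtain ⟨-, sb2, sb3, sb4, -⟩ := hS (m + 1) (hm₁.trans (hm.trans (Nat.le_succ m)))
  set a := s m with ha
  set b := s (m + 1) with hb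
  have hax := hlarge K s w₁ hS m hm
  have hbx := hlarge K s w₁ hS (m + 1) (hm.trans (Nat.le_succ m))
  rw [← ha] at hax
  rw [← hb] at hbx
  have hax0 : x₀ ≤ a := (le_max_left _ _).trans hax
  have hax1 : x₁ ≤ a := (le_max_left _ _).trans ((le_max_right _ _).trans hax)
  have hax2 : x₂ ≤ a := (le_max_right _ _).trans ((le_max_right _ _).trans hax)
  have hbx0 : x₀ ≤ b := (le_max_left _ _).trans hbx
  have ha0 : 0 < a := by linarith
  set L := S7_L P a with hL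
  have hL0 : 0 < L := by rw [hL]; unfold S7_L; positivity
  have hLr : 4 / r₀ ≤ L := by
    have := hx₁ a hax1
    rw [zero_mul, Real.exp_zero, mul_one] at this
    exact this
  -- real part
  have hreal : ∀ x : ℝ, x₀ ≤ x → HasDerivAt (fun y : ℝ => (deriv K y).re)
      (deriv (deriv K) x).re x ∧ 3 / 4 * S7_L P x ≤ (deriv (deriv K) x).re := by
    intro x hx
    have h1 := ((hnear f K hK x hx).1 x (Or.inl rfl)).1 x (Metric.mem_closedBall_self hr₀.le)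
    refine ⟨h1.2.1.real_of_complex, ?_⟩
    have h2 : |(deriv (deriv K) x - (S7_L P x : ℂ)).re| ≤ S7_L P x / 4 :=
      (abs_re_le_norm _).trans h1.2.2.2.1
    rw [sub_re, ofReal_re] at h2
    have := (abs_le.1 h2).1
    linarith
  have hLmono : ∀ x y : ℝ, x ≤ y → S7_L P x ≤ S7_L P y := by
    intro x y hxy
    unfold S7_L
    gcongr
  have hLpos : ∀ x : ℝ, 0 < S7_L P x := by intro x; unfold S7_L; positivity
  have fa : (deriv K a).re = m := by rw [sa2]; simp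
  have fb : (deriv K b).re = m + 1 := by rw [sb2]; simp
  have hab : a < b := by
    rcases lt_trichotomy a b with h | h | h
    · exact h
    · exfalso
      rw [h, fb] at fa
      linarith
    · exfalso
      obtain ⟨ξ, hξ, hξ'⟩ := exists_hasDerivAt_eq_slope (fun y : ℝ => (deriv K y).re)
        (fun y : ℝ => (deriv (deriv K) y).re) h
        (fun y hy => (hreal y (hbx0.trans hy.1)).1.continuousAt.continuousWithinAt)
        (fun y hy => (hreal y (hbx0.trans hy.1.le)).1)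
      have e1 := (hreal ξ (hbx0.trans hξ.1.le)).2
      have e2 := hLpos ξ
      simp only [fa, fb] at hξ'
      have e3 : ((m : ℝ) - (m + 1)) / (a - b) < 0 := by
        apply div_neg_of_neg_of_pos <;> linarith
      linarith
  have hk : b - a ≤ 2 / L := by
    obtain ⟨ξ, hξ, hξ'⟩ := exists_hasDerivAt_eq_slope (fun y : ℝ => (deriv K y).re)
      (fun y : ℝ => (deriv (deriv K) y).re) hab
      (fun y hy => (hreal y (hax0.trans hy.1)).1.continuousAt.continuousWithinAt)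
      (fun y hy => (hreal y (hax0.trans hy.1.le)).1)
    have e1 := (hreal ξ (hax0.trans hξ.1.le)).2
    have e2 := hLmono a ξ hξ.1.le
    simp only [fa, fb] at hξ'
    have e3 : ((m : ℝ) + 1 - m) = 1 := by ring
    rw [e3] at hξ'
    have hba : 0 < b - a := by linarith
    rw [le_div_iff₀ hL0]
    have e4 : 3 / 4 * L ≤ 1 / (b - a) := by rw [← hξ']; linarith
    rw [le_div_iff₀ hba] at e4
    nlinarith
  have h2L : 2 / L ≤ r₀ / 2 := by
    rw [div_le_iff₀ hL0]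
    have : 4 / r₀ * (r₀ / 2) ≤ L * (r₀ / 2) := mul_le_mul_of_nonneg_right hLr (by positivity)
    have e : 4 / r₀ * (r₀ / 2) = 2 := by field_simp; norm_num
    linarith
  -- small quantities
  set ea := Real.exp ((P.σ - P.ρ) * a) with hea
  have hea' : C' * ea ≤ r₀ / 2 := by
    have h1 := hx₂ a hax2
    have h2 : Real.exp (P.σ * a) = ea * Real.exp (P.ρ * a) := by
      rw [hea, ← Real.exp_add]; ring_nf
    rw [h2, ← mul_assoc] at h1
    exact le_of_mul_le_mul_right h1 (Real.exp_pos _)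
  have hDa : ‖w₁ m - (a + P.θ₀ * I)‖ ≤ C' * ea := sa4
  have hDb : ‖w₁ (m + 1) - (b + P.θ₀ * I)‖ ≤ C' * ea := by
    refine sb4.trans (mul_le_mul_of_nonneg_left ?_ hC'.le)
    rw [hea]
    apply Real.exp_le_exp.2
    have : P.σ - P.ρ < 0 := by linarith [hP.σρ]
    nlinarith
  set A := w₁ m with hA
  set B := w₁ (m + 1) with hB
  set c : ℂ := a + P.θ₀ * I with hc
  -- membership
  have hk' : ‖(b : ℂ) - a‖ ≤ 2 / L := by
    rw [← ofReal_sub, norm_real, Real.norm_of_nonneg (by linarith)]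
    exact hk
  have mA : A ∈ Metric.closedBall c r₀ := by
    rw [Metric.mem_closedBall, Complex.dist_eq]
    linarith
  have mB : B ∈ Metric.closedBall c r₀ := by
    rw [Metric.mem_closedBall, Complex.dist_eq]
    have e : B - c = (B - (b + P.θ₀ * I)) + ((b : ℂ) - a) := by rw [hc]; ring
    rw [e]
    refine (norm_add_le _ _).trans ?_
    linarith
  have mc : c ∈ Metric.closedBall c r₀ := Metric.mem_closedBall_self hr₀.le
  have ma : (a : ℂ) ∈ Metric.closedBall (a : ℂ) r₀ := Metric.mem_closedBall_self hr₀.le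
  have mb : (b : ℂ) ∈ Metric.closedBall (a : ℂ) r₀ := by
    rw [Metric.mem_closedBall, Complex.dist_eq]
    linarith
  obtain ⟨near1, near2⟩ := hnear f K hK a hax0
  obtain ⟨Na, Na'⟩ := near1 a (Or.inl rfl)
  obtain ⟨Nc, Nc'⟩ := near1 c (Or.inr rfl)
  rw [← hL] at Na Nc Nc'
  have cva := convex_closedBall (a : ℂ) r₀
  have cvc := convex_closedBall c r₀
  have T3 := S7_T3 cvc (fun w hw => (Nc w hw).2.1) (fun w hw => (Nc w hw).2.2.2.1) mA mB
  have hBA1 : deriv K B - deriv K A = 1 := by rw [sb3, sa3]; push_cast; ring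
  have hba1 : deriv K b - deriv K a = 1 := by rw [sb2, sa2]; push_cast; ring
  rw [hBA1] at T3
  have hh : ‖B - A‖ ≤ 2 / L := by
    rw [le_div_iff₀ hL0]
    have e1 : ‖(L : ℂ) * (B - A)‖ = L * ‖B - A‖ := by
      rw [norm_mul, norm_real, Real.norm_of_nonneg hL0.le]
    have e2 : ‖(L : ℂ) * (B - A)‖ ≤ ‖(1 : ℂ)‖ + ‖(1 : ℂ) - L * (B - A)‖ := by
      have : (L : ℂ) * (B - A) = 1 - (1 - L * (B - A)) := by ring
      conv_lhs => rw [this]
      exact norm_sub_le _ _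
    rw [norm_one, e1] at e2
    nlinarith [norm_nonneg (B - A)]
  have T1A := S7_T1 cvc (fun w hw => (Nc w hw).2.1) (fun w hw => (Nc w hw).2.2.1)
    (fun w hw => (Nc w hw).2.2.2.2) mA mB
  have T1a := S7_T1 cva (fun w hw => (Na w hw).2.1) (fun w hw => (Na w hw).2.2.1)
    (fun w hw => (Na w hw).2.2.2.2) ma mb
  rw [hBA1] at T1A
  rw [hba1] at T1a
  have hsq : ∀ x : ℝ, 0 ≤ x → x ≤ 2 / L → C₅ * L * x ^ 2 ≤ 4 * C₅ / L := by
    intro x hx hx2
    have : x ^ 2 ≤ (2 / L) ^ 2 := by gcongr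
    calc C₅ * L * x ^ 2 ≤ C₅ * L * (2 / L) ^ 2 := by gcongr
      _ = 4 * C₅ / L := by field_simp; norm_num
  have hcu : ∀ x : ℝ, 0 ≤ x → x ≤ 2 / L → C₅ * L * x ^ 3 ≤ 8 * C₅ / L ^ 2 := by
    intro x hx hx2
    have : x ^ 3 ≤ (2 / L) ^ 3 := by gcongr
    calc C₅ * L * x ^ 3 ≤ C₅ * L * (2 / L) ^ 3 := by gcongr
      _ = 8 * C₅ / L ^ 2 := by field_simp; norm_num
  have T1A' := T1A.trans (hsq _ (norm_nonneg _) hh)
  have T1a' := T1a.trans (hsq _ (norm_nonneg _) hk')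
  -- comparison of second derivatives
  set es := Real.exp (P.σ * a) with hes
  have hes1 : 1 ≤ es := Real.one_le_exp (mul_nonneg hP.σ0.le ha0.le)
  have hLea : L * ea = q * es := by
    rw [hL, hea, hes]
    unfold S7_L
    rw [mul_assoc, ← Real.exp_add, ← hq]
    congr 2
    ring
  have hAc : ‖A - c‖ ≤ C' * ea := hDa
  have hK2 : ‖deriv (deriv K) A - deriv (deriv K) a‖ ≤ C₅ * (q * C' + 1) * es := by
    have e1 := S7_T0 cvc (fun w hw => (Nc w hw).2.2.1) (fun w hw => (Nc w hw).2.2.2.2) mc mA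
    have e2 : deriv (deriv K) A - deriv (deriv K) a = (deriv (deriv K) A - deriv (deriv K) c)
        + (deriv (deriv K) c - deriv (deriv K) a) := by ring
    rw [e2]
    refine (norm_add_le _ _).trans ?_
    have e3 : C₅ * L * ‖A - c‖ ≤ C₅ * L * (C' * ea) := by gcongr
    have e4 : C₅ * L * (C' * ea) = C₅ * (q * C') * es := by
      calc C₅ * L * (C' * ea) = C₅ * C' * (L * ea) := by ring
        _ = _ := by rw [hLea]; ring
    have e5 : ‖deriv (deriv K) c - deriv (deriv K) a‖ ≤ C₅ * es := near2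
    calc _ ≤ C₅ * (q * C') * es + C₅ * es := by linarith
      _ = _ := by ring
  have hE2 : Real.exp ((P.σ - 2 * P.ρ) * a) = q ^ 2 * es / L ^ 2 := by
    rw [eq_div_iff (by positivity), hL, hes]
    unfold S7_L
    have : P.H * P.ρ ^ 2 = q := rfl
    rw [this]
    have e : Real.exp ((P.σ - 2 * P.ρ) * a) * (q * Real.exp (P.ρ * a)) ^ 2
        = q ^ 2 * (Real.exp ((P.σ - 2 * P.ρ) * a) * Real.exp (P.ρ * a) * Real.exp (P.ρ * a)) := by
      ring
    rw [e, ← Real.exp_add, ← Real.exp_add]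
    ring_nf
  have hE2p : 0 < Real.exp ((P.σ - 2 * P.ρ) * a) := Real.exp_pos _
  refine ⟨hab.le, ?_, ?_, ?_, ?_⟩
  · -- increments
    have e0 : (B - b) - (A - a) = (B - A) - (b - a) := by ring
    rw [e0]
    have e1 : deriv (deriv K) A * ((B - A) - (b - a))
        = -(1 - deriv (deriv K) A * (B - A)) + (1 - deriv (deriv K) a * (b - a))
          - (deriv (deriv K) A - deriv (deriv K) a) * (b - a) := by ring
    have e2 : ‖deriv (deriv K) A * ((B - A) - (b - a))‖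
        ≤ 4 * C₅ / L + 4 * C₅ / L + C₅ * (q * C' + 1) * es * (2 / L) := by
      rw [e1]
      refine (norm_sub_le _ _).trans ?_
      refine add_le_add ((norm_add_le _ _).trans ?_) ?_
      · rw [norm_neg]
        exact add_le_add T1A' T1a'
      · rw [norm_mul]
        exact mul_le_mul hK2 hk' (norm_nonneg _) (by positivity)
    have e3 : L / 2 ≤ ‖deriv (deriv K) A‖ := by
      have h1 := (Nc A mA).2.2.2.1
      have h2 : ‖(L : ℂ)‖ ≤ ‖deriv (deriv K) A‖ + ‖deriv (deriv K) A - L‖ := by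
        have : (L : ℂ) = deriv (deriv K) A - (deriv (deriv K) A - L) := by ring
        conv_lhs => rw [this]
        exact norm_sub_le _ _
      rw [norm_real, Real.norm_of_nonneg hL0.le] at h2
      linarith
    rw [norm_mul] at e2
    have e4 : L / 2 * ‖(B - A) - (b - a)‖ ≤ 4 * C₅ / L + 4 * C₅ / L
        + C₅ * (q * C' + 1) * es * (2 / L) :=
      (mul_le_mul_of_nonneg_right e3 (norm_nonneg _)).trans e2
    have e5 : ‖(B - A) - (b - a)‖ ≤ 2 / L * (4 * C₅ / L + 4 * C₅ / L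
        + C₅ * (q * C' + 1) * es * (2 / L)) := by
      have := mul_le_mul_of_nonneg_left e4 (show 0 ≤ 2 / L by positivity)
      have h : 2 / L * (L / 2 * ‖(B - A) - (b - a)‖) = ‖(B - A) - (b - a)‖ := by
        field_simp
      rwa [h] at this
    refine e5.trans ?_
    have e6' : ∀ X : ℝ, 2 / L * (4 * C₅ / L + 4 * C₅ / L + X * (2 / L))
        = 2 * (8 * C₅ + 2 * X) / L ^ 2 := by
      intro X
      field_simp
      ring
    have e6 : 2 / L * (4 * C₅ / L + 4 * C₅ / L + C₅ * (q * C' + 1) * es * (2 / L))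
        = 2 * (8 * C₅ + 2 * (C₅ * (q * C' + 1)) * es) / L ^ 2 := by
      rw [e6']
      ring
    rw [e6]
    have e7 : Ca * Real.exp ((P.σ - 2 * P.ρ) * a)
        = 2 * (8 * C₅ * es + 2 * (C₅ * (q * C' + 1)) * es) / L ^ 2 := by
      rw [hE2, hCa]; field_simp
    have e8 : 2 * (8 * C₅ + 2 * (C₅ * (q * C' + 1)) * es) / L ^ 2
        ≤ Ca * Real.exp ((P.σ - 2 * P.ρ) * a) := by
      rw [e7]
      have h8 : 8 * C₅ ≤ 8 * C₅ * es := le_mul_of_one_le_right (by positivity) hes1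
      exact div_le_div_of_nonneg_right (by linarith) (by positivity)
    have e9 : 0 ≤ (Cb + Cc) * Real.exp ((P.σ - 2 * P.ρ) * a) := by positivity
    calc _ ≤ _ := e8
      _ ≤ (Ca + Cb + Cc) * Real.exp ((P.σ - 2 * P.ρ) * a) := by
        rw [show Ca + Cb + Cc = Ca + (Cb + Cc) by ring, add_mul]; linarith
  · have T2 := S7_T2 cvc (fun w hw => (Nc w hw).1) (fun w hw => (Nc w hw).2.1)
      (fun w hw => (Nc w hw).2.2.1) (fun w hw => (Nc w hw).2.2.2.2) mA mB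
    have T2' := T2.trans (hcu _ (norm_nonneg _) hh)
    rw [sa3, sb3] at T2'
    have e1 : (K B - (m + 1) * B - K A + m * A) + 1 / 2 * (A + B)
        = K B - K A - 1 / 2 * ((m : ℂ) + ((m + 1 : ℕ) : ℂ)) * (B - A) := by push_cast; ring
    rw [e1]
    refine T2'.trans ?_
    have e2 : 8 * C₅ / L ^ 2 ≤ Cb * Real.exp ((P.σ - 2 * P.ρ) * a) := by
      rw [hE2, hCb]
      have : 8 * C₅ / q ^ 2 * (q ^ 2 * es / L ^ 2) = 8 * C₅ * es / L ^ 2 := by field_simp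
      rw [this]
      have h8 : 8 * C₅ ≤ 8 * C₅ * es := le_mul_of_one_le_right (by positivity) hes1
      exact div_le_div_of_nonneg_right h8 (by positivity)
    have e9 : 0 ≤ (Ca + Cc) * Real.exp ((P.σ - 2 * P.ρ) * a) := by positivity
    calc _ ≤ _ := e2
      _ ≤ (Ca + Cb + Cc) * Real.exp ((P.σ - 2 * P.ρ) * a) := by
        rw [show Ca + Cb + Cc = Cb + (Ca + Cc) by ring, add_mul]; linarith
  · have T2 := S7_T2 cva (fun w hw => (Na w hw).1) (fun w hw => (Na w hw).2.1)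
      (fun w hw => (Na w hw).2.2.1) (fun w hw => (Na w hw).2.2.2.2) ma mb
    have T2' := T2.trans (hcu _ (norm_nonneg _) hk')
    rw [sa2, sb2] at T2'
    have e1 : (K b - (m + 1) * b - K a + m * a) + 1 / 2 * (a + b)
        = K b - K a - 1 / 2 * ((m : ℂ) + ((m + 1 : ℕ) : ℂ)) * (b - a) := by push_cast; ring
    rw [e1]
    refine T2'.trans ?_
    have e2 : 8 * C₅ / L ^ 2 ≤ Cb * Real.exp ((P.σ - 2 * P.ρ) * a) := by
      rw [hE2, hCb]
      have : 8 * C₅ / q ^ 2 * (q ^ 2 * es / L ^ 2) = 8 * C₅ * es / L ^ 2 := by field_simp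
      rw [this]
      have h8 : 8 * C₅ ≤ 8 * C₅ * es := le_mul_of_one_le_right (by positivity) hes1
      exact div_le_div_of_nonneg_right h8 (by positivity)
    have e9 : 0 ≤ (Ca + Cc) * Real.exp ((P.σ - 2 * P.ρ) * a) := by positivity
    calc _ ≤ _ := e2
      _ ≤ (Ca + Cb + Cc) * Real.exp ((P.σ - 2 * P.ρ) * a) := by
        rw [show Ca + Cb + Cc = Cb + (Ca + Cc) by ring, add_mul]; linarith
  · -- leading term
    have T1c := S7_T1 cvc (fun w hw => (Nc w hw).2.1) (fun w hw => (Nc w hw).2.2.1)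
      (fun w hw => (Nc w hw).2.2.2.2) mc mA
    have e1 : (A - a - P.θ₀ * I) - (deriv K a - deriv K c) / (L : ℂ)
        = -((deriv K A - deriv K c - deriv (deriv K) c * (A - c))
            + (deriv (deriv K) c - L) * (A - c)) / (L : ℂ) := by
      have hLc : (L : ℂ) ≠ 0 := by exact_mod_cast hL0.ne'
      rw [sa3, sa2, hc]
      field_simp
      ring
    rw [e1, norm_div, norm_neg, norm_real, Real.norm_of_nonneg hL0.le]
    set em := Real.exp (μ * a) with hem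
    have e2 : ‖(deriv K A - deriv K c - deriv (deriv K) c * (A - c))
            + (deriv (deriv K) c - L) * (A - c)‖ ≤ C₅ * L * (C' * ea) ^ 2
            + C₅ * em * (C' * ea) := by
      refine (norm_add_le _ _).trans ?_
      refine add_le_add (T1c.trans ?_) ?_
      · gcongr
      · rw [norm_mul]
        exact mul_le_mul Nc' hAc (norm_nonneg _) (by positivity)
    have e3 : (C₅ * L * (C' * ea) ^ 2 + C₅ * em * (C' * ea)) / L
        ≤ Cc * Real.exp ((P.σ + μ - 2 * P.ρ) * a) := by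
      rw [div_le_iff₀ hL0]
      have k1 : Real.exp ((P.σ + μ - 2 * P.ρ) * a) * L = q * (em * ea) := by
        rw [hL, hem, hea]
        unfold S7_L
        rw [← Real.exp_add, mul_left_comm, ← Real.exp_add, ← hq]
        congr 2
        ring
      have k2 : L * ea ^ 2 = q * (es * ea) := by
        calc L * ea ^ 2 = (L * ea) * ea := by ring
          _ = _ := by rw [hLea]; ring
      have k3 : es ≤ em := by
        rw [hes, hem]; exact Real.exp_le_exp.2 (mul_le_mul_of_nonneg_right hσμ ha0.le)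
      have k4 : 0 < ea := Real.exp_pos _
      calc C₅ * L * (C' * ea) ^ 2 + C₅ * em * (C' * ea)
          = C₅ * C' ^ 2 * (L * ea ^ 2) + C₅ * C' * (em * ea) := by ring
        _ = C₅ * C' ^ 2 * (q * (es * ea)) + C₅ * C' * (em * ea) := by rw [k2]
        _ ≤ C₅ * C' ^ 2 * (q * (em * ea)) + C₅ * C' * (em * ea) := by gcongr
        _ = Cc * (Real.exp ((P.σ + μ - 2 * P.ρ) * a) * L) := by
          rw [k1, hCc]; field_simp; ring
        _ = _ := by ring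
    have e4 : 0 ≤ (Ca + Cb) * Real.exp ((P.σ + μ - 2 * P.ρ) * a) := by positivity
    calc _ ≤ (C₅ * L * (C' * ea) ^ 2 + C₅ * em * (C' * ea)) / L :=
          div_le_div_of_nonneg_right e2 hL0.le
      _ ≤ _ := e3
      _ ≤ (Ca + Cb + Cc) * Real.exp ((P.σ + μ - 2 * P.ρ) * a) := by
        rw [add_mul _ Cc]; linarith

theorem sp_drift (P : CP) (hP : P.Ok) (m₀ : ℕ) (C' : ℝ) (hC' : 0 < C') :
    ∃ (m₁ : ℕ) (C'' : ℝ), 0 < C'' ∧ ∀ f K s w₁, Cls P f K → Sad P K m₀ C' s w₁ →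
      ∃ δ : ℕ → ℂ, ∀ m : ℕ, m₁ ≤ m →
      Xof K s w₁ (m + 1) = exp (-(P.θ₀ * I) - δ m) * Xof K s w₁ m ∧
      ‖δ m‖ ≤ C'' * Real.exp ((P.σ - P.ρ) * s m) ∧
      ‖δ (m + 1) - δ m‖ ≤ C'' * Real.exp ((P.σ - 2 * P.ρ) * s m) ∧
      ‖δ m - (deriv K (s m) - deriv K (s m + P.θ₀ * I)) /
          ((P.H * P.ρ ^ 2 * Real.exp (P.ρ * s m) : ℝ) : ℂ)‖ ≤
        C'' * Real.exp ((P.σ + max P.σ P.σ₁ - 2 * P.ρ) * s m) := by
  obtain ⟨m₁, C₇, hm₁, hC₇, hstep⟩ := S7_step P hP m₀ C' hC'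
  have hρ : 0 < P.ρ := lt_trans one_pos hP.ρ1
  refine ⟨m₁, C' + 5 * C₇, by positivity, ?_⟩
  intro f K s w₁ hK hS
  refine ⟨fun m => -((K (w₁ (m + 1)) - (m + 1) * w₁ (m + 1) - K (w₁ m) + m * w₁ m)
    - (K (s (m + 1)) - (m + 1) * s (m + 1) - K (s m) + m * s m)) - P.θ₀ * I, ?_⟩
  intro m hm
  obtain ⟨a1, a2, a3, a4, a5⟩ := hstep f K s w₁ hK hS m hm
  obtain ⟨b1, b2, b3, b4, b5⟩ := hstep f K s w₁ hK hS (m + 1) (hm.trans (Nat.le_succ m))
  obtain ⟨hs2, -, -, hD, -⟩ := hS m (hm₁.trans hm)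
  have hs0 : 0 < s m := by linarith
  set E2 := Real.exp ((P.σ - 2 * P.ρ) * s m) with hE2
  have hE2p : 0 < E2 := Real.exp_pos _
  have hσρ := hP.σρ
  have hσ0 := hP.σ0
  have hE2' : Real.exp ((P.σ - 2 * P.ρ) * s (m + 1)) ≤ E2 := by
    rw [hE2]; apply Real.exp_le_exp.2; nlinarith
  -- bound of the difference from the mean
  have hdm : ∀ (u v x y k1 k2 : ℂ) (Cc : ℝ), ‖k1 + 1 / 2 * (u + v)‖ ≤ Cc → ‖k2 + 1 / 2 * (x + y)‖ ≤ Cc →
      ‖(-(k1 - k2) - P.θ₀ * I) - (1 / 2 * ((u - x - P.θ₀ * I) + (v - y - P.θ₀ * I)))‖ ≤ 2 * Cc := by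
    intro u v x y k1 k2 Cc h1 h2
    have e : (-(k1 - k2) - P.θ₀ * I) - (1 / 2 * ((u - x - P.θ₀ * I) + (v - y - P.θ₀ * I)))
        = -(k1 + 1 / 2 * (u + v)) + (k2 + 1 / 2 * (x + y)) := by ring
    rw [e]
    refine (norm_add_le _ _).trans ?_
    rw [norm_neg]
    linarith
  have g1 := hdm _ _ _ _ _ _ _ a3 a4
  have g2 := hdm _ _ _ _ _ _ _ b3 b4
  set k1 := K (w₁ (m + 1)) - (m + 1) * w₁ (m + 1) - K (w₁ m) + m * w₁ m with hk1
  set k2 := K (s (m + 1)) - (m + 1) * s (m + 1) - K (s m) + m * s m with hk2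
  set D0 := w₁ m - s m - P.θ₀ * I with hD0
  set D1 := w₁ (m + 1) - s (m + 1) - P.θ₀ * I with hD1
  set D2 := w₁ (m + 1 + 1) - s (m + 1 + 1) - P.θ₀ * I with hD2
  have hd1 : ‖D1 - D0‖ ≤ C₇ * E2 := by
    have : D1 - D0 = (w₁ (m + 1) - s (m + 1)) - (w₁ m - s m) := by rw [hD1, hD0]; ring
    rw [this]; exact a2
  have hd2 : ‖D2 - D1‖ ≤ C₇ * E2 := by
    have : D2 - D1 = (w₁ (m + 1 + 1) - s (m + 1 + 1)) - (w₁ (m + 1) - s (m + 1)) := by
      rw [hD1, hD2]; ring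
    rw [this]; exact b2.trans (mul_le_mul_of_nonneg_left hE2' hC₇.le)
  have hD0n : ‖D0‖ ≤ C' * Real.exp ((P.σ - P.ρ) * s m) := by
    have : D0 = w₁ m - (s m + P.θ₀ * I) := by rw [hD0]; ring
    rw [this]; exact hD
  -- distance to D0
  have hδD : ‖(-(k1 - k2) - P.θ₀ * I) - D0‖ ≤ 3 * C₇ * E2 := by
    have e : (-(k1 - k2) - P.θ₀ * I) - D0 = ((-(k1 - k2) - P.θ₀ * I) - (1 / 2 * (D0 + D1)))
        + 1 / 2 * (D1 - D0) := by ring
    rw [e]
    refine (norm_add_le _ _).trans ?_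
    rw [norm_mul]
    have : ‖(1 / 2 : ℂ)‖ = 1 / 2 := by norm_num
    rw [this]
    nlinarith
  have hE2a : E2 ≤ Real.exp ((P.σ - P.ρ) * s m) := by
    rw [hE2]; apply Real.exp_le_exp.2; nlinarith
  have hmax : P.σ ≤ max P.σ P.σ₁ := le_max_left _ _
  have hE2b : E2 ≤ Real.exp ((P.σ + max P.σ P.σ₁ - 2 * P.ρ) * s m) := by
    rw [hE2]; apply Real.exp_le_exp.2; nlinarith
  refine ⟨?_, ?_, ?_, ?_⟩
  · unfold Xof
    rw [← exp_add]
    congr 1
    push_cast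
    ring
  · have e : (-(k1 - k2) - P.θ₀ * I) = ((-(k1 - k2) - P.θ₀ * I) - D0) + D0 := by ring
    simp only
    rw [e]
    refine (norm_add_le _ _).trans ?_
    have p1 : 3 * C₇ * E2 ≤ 3 * C₇ * Real.exp ((P.σ - P.ρ) * s m) := by gcongr
    have p2 : 0 ≤ 2 * C₇ * Real.exp ((P.σ - P.ρ) * s m) := by positivity
    calc _ ≤ 3 * C₇ * Real.exp ((P.σ - P.ρ) * s m) + C' * Real.exp ((P.σ - P.ρ) * s m) := by
          linarith
      _ ≤ (C' + 5 * C₇) * Real.exp ((P.σ - P.ρ) * s m) := by nlinarith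
  · have e : ∀ x y : ℂ, x - y = (x - 1 / 2 * (D1 + D2)) - (y - 1 / 2 * (D0 + D1))
        + 1 / 2 * (D1 - D0) + 1 / 2 * (D2 - D1) := by intro x y; ring
    rw [e]
    refine (norm_add_le _ _).trans ?_
    refine (add_le_add (norm_add_le _ _) le_rfl).trans ?_
    refine (add_le_add (add_le_add (norm_sub_le _ _) le_rfl) le_rfl).trans ?_
    have h12 : ‖(1 / 2 : ℂ)‖ = 1 / 2 := by norm_num
    rw [norm_mul, norm_mul, h12]
    have g2' := g2.trans (mul_le_mul_of_nonneg_left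
      (mul_le_mul_of_nonneg_left hE2' hC₇.le) (by norm_num : (0 : ℝ) ≤ 2))
    have p : 0 ≤ C' * E2 := by positivity
    push_cast at g2' ⊢
    calc _ ≤ 2 * (C₇ * E2) + 2 * (C₇ * E2) + 1 / 2 * (C₇ * E2) + 1 / 2 * (C₇ * E2) := by
          refine add_le_add (add_le_add (add_le_add g2' g1) ?_) ?_
          · exact mul_le_mul_of_nonneg_left hd1 (by norm_num)
          · exact mul_le_mul_of_nonneg_left hd2 (by norm_num)
      _ ≤ (C' + 5 * C₇) * E2 := by nlinarith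
  · have e : ∀ t : ℂ, (-(k1 - k2) - P.θ₀ * I) - t = ((-(k1 - k2) - P.θ₀ * I) - D0) + (D0 - t) := by
      intro t; ring
    simp only
    rw [e]
    refine (norm_add_le _ _).trans ?_
    have p1 : 3 * C₇ * E2 ≤ 3 * C₇ * Real.exp ((P.σ + max P.σ P.σ₁ - 2 * P.ρ) * s m) := by gcongr
    have p2 : 0 ≤ (C' + C₇) * Real.exp ((P.σ + max P.σ P.σ₁ - 2 * P.ρ) * s m) := by positivity
    have a5' : ‖D0 - (deriv K (s m) - deriv K (s m + P.θ₀ * I)) /
          ((P.H * P.ρ ^ 2 * Real.exp (P.ρ * s m) : ℝ) : ℂ)‖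
        ≤ C₇ * Real.exp ((P.σ + max P.σ P.σ₁ - 2 * P.ρ) * s m) := a5
    calc _ ≤ 3 * C₇ * Real.exp ((P.σ + max P.σ P.σ₁ - 2 * P.ρ) * s m)
          + C₇ * Real.exp ((P.σ + max P.σ P.σ₁ - 2 * P.ρ) * s m) := by linarith
      _ ≤ (C' + 5 * C₇) * Real.exp ((P.σ + max P.σ P.σ₁ - 2 * P.ρ) * s m) := by nlinarith

end Pool.Agent.helper74.LG
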