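import Pool.Agent.helper74.LG.TT
import Pool.Agent.helper74.LG.FN
import Pool.Agent.helper74.LG.ME
import Pool.Agent.helper74.LG.S7
import Pool.Agent.helper74.LG.S5
import Pool.Agent.helper74.LG.S6
import Pool.Agent.helper74.LG.I2
import Pool.Agent.helper74.LG.K1
import Pool.Agent.helper74.LG.K5
import Pool.Agent.helper74.LG.EC
import Pool.Agent.helper74.LG.EL
import Pool.Agent.helper38.LacOrd
import Pool.Agent.helper38.LacFinal

set_option autoImplicit false

namespace Pool.Agent.helper74.LG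

open Complex Set Filter Topology MeasureTheory

/-- The base function `exp (z^3 + z)`. -/
noncomputable def F3_Ψ (z : ℂ) : ℂ := exp (z ^ 3 + z)

/-- Its logarithm. -/
noncomputable def F3_K (w : ℂ) : ℂ := exp (3 * w) + exp w

theorem F3_cos {τ : ℝ} (hτ : 0 < τ) : ∃ c : ℝ, 0 < c ∧ ∀ θ : ℝ, θ ≤ Real.pi → τ / 2 ≤ θ →
    τ / 2 ≤ |θ - 2 * Real.pi / 3| → c ≤ 1 - Real.cos (3 * θ) := by
  set S : Set ℝ := Icc (τ / 2) Real.pi ∩ {θ | τ / 2 ≤ |θ - 2 * Real.pi / 3|} with hS
  have hSc : IsCompact S := isCompact_Icc.inter_right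
    (isClosed_le continuous_const ((continuous_id.sub continuous_const).abs))
  rcases S.eq_empty_or_nonempty with he | hne
  · refine ⟨1, one_pos, fun θ h1 h2 h3 => ?_⟩
    have : θ ∈ S := ⟨⟨h2, h1⟩, h3⟩
    rw [he] at this
    exact absurd this (Set.notMem_empty _)
  · obtain ⟨θm, hθm, hmin⟩ := hSc.exists_isMinOn hne
      (f := fun θ => 1 - Real.cos (3 * θ)) (by fun_prop)
    refine ⟨1 - Real.cos (3 * θm), ?_, fun θ h1 h2 h3 => hmin ⟨⟨h2, h1⟩, h3⟩⟩
    have hle := Real.cos_le_one (3 * θm)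
    rcases hle.lt_or_eq with h | h
    · linarith
    · exfalso
      rw [Real.cos_eq_one_iff] at h
      obtain ⟨n, hn⟩ := h
      have hpi := Real.pi_pos
      have h1 : 0 < θm := by linarith [hθm.1.1]
      have h2 : θm ≤ Real.pi := hθm.1.2
      have hn0 : (0 : ℝ) < n := by
        by_contra hcon
        push Not at hcon
        nlinarith
      have hn2 : (n : ℝ) < 2 := by
        by_contra hcon
        push Not at hcon
        nlinarith
      have hn1 : n = 1 := by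
        have a1 : 0 < n := by exact_mod_cast hn0
        have a2 : n < 2 := by exact_mod_cast hn2
        omega
      rw [hn1] at hn
      have h3 : θm - 2 * Real.pi / 3 = 0 := by push_cast at hn; linarith
      have h4 := hθm.2
      rw [Set.mem_ofPred_eq, h3, abs_zero] at h4
      linarith

theorem F3_Ψ_exp (w : ℂ) : exp (F3_K w) = F3_Ψ (exp w) := by
  unfold F3_K F3_Ψ
  rw [← Complex.exp_nat_mul]
  norm_num

theorem F3_norm (s θ : ℝ) : ‖F3_Ψ (exp (s + θ * I))‖ =
    Real.exp (Real.exp (3 * s) * Real.cos (3 * θ) + Real.exp s * Real.cos θ) := by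
  rw [← F3_Ψ_exp, Complex.norm_exp]
  congr 1
  unfold F3_K
  rw [add_re, Complex.exp_re, Complex.exp_re]
  simp

theorem F3_val (s : ℝ) : (F3_Ψ (exp s)).re = Real.exp (Real.exp (3 * s) + Real.exp s) := by
  rw [← F3_Ψ_exp]
  have : F3_K (s : ℂ) = ((Real.exp (3 * s) + Real.exp s : ℝ) : ℂ) := by
    unfold F3_K; push_cast; ring
  rw [this, Complex.exp_ofReal_re]

theorem F3_base (τ : ℝ) (hτ : 0 < τ) :
    Base 3 1 1 0 (2 * Real.pi / 3) τ Real.pi 2 ∅ F3_Ψ F3_K := by
  constructor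
  · refine ⟨by unfold F3_Ψ; fun_prop, fun z => ?_⟩
    unfold F3_Ψ
    rw [← Complex.exp_conj, map_add, map_pow]
  · unfold F3_K; fun_prop
  · intro w _; exact F3_Ψ_exp w
  · intro x
    have : F3_K (x : ℂ) = ((Real.exp (3 * x) + Real.exp x : ℝ) : ℂ) := by
      unfold F3_K; push_cast; ring
    rw [this, ofReal_im]
  · unfold F3_Ψ; simp
  · refine ⟨1, fun w _ _ => ?_⟩
    unfold F3_K
    have : exp (3 * w) + exp w - ((1 : ℝ) * exp ((3 : ℝ) * w) + ((0 : ℝ) : ℂ) * exp ((1 : ℝ) * w)) =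
        exp w := by push_cast; ring
    rw [this, Complex.norm_exp, one_mul]
  · obtain ⟨c, hc, h⟩ := F3_cos hτ
    refine ⟨0, c, 3, hc, by norm_num, fun s θ hs h1 h2 h3 _ => ?_⟩
    rw [F3_norm, F3_val, ← Real.exp_add]
    apply Real.exp_le_exp.2
    have h4 := h θ h1 h2 h3
    have h5 := Real.cos_le_one θ
    have h6 := Real.exp_pos (3 * s)
    have h7 := Real.exp_pos s
    nlinarith
  · exact ⟨0, fun s θ _ h => absurd h (Set.notMem_empty _)⟩
  · exact ⟨0, fun z hz => absurd hz (Complex.exp_ne_zero _)⟩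


/-- Coefficients of `exp (z^k)`. -/
theorem F3_exp_pow (k : ℕ) (hk : 0 < k) (m : ℕ) :
    coef (fun z => exp (z ^ k)) m = if k ∣ m then (1 / ((m / k).factorial : ℂ)) else 0 := by
  apply coef_eq_of_hasSum
  intro z
  have h1 : HasSum (fun n : ℕ => (z ^ k) ^ n / (n.factorial : ℂ)) (exp (z ^ k)) := by
    rw [Complex.exp_eq_exp_ℂ]
    exact NormedSpace.expSeries_div_hasSum_exp (z ^ k)
  have hinj : Function.Injective (fun n : ℕ => k * n) := fun a b h => Nat.eq_of_mul_eq_mul_left hk h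
  rw [← hinj.hasSum_iff]
  · convert h1 using 1
    funext n
    simp only [Function.comp]
    rw [if_pos (dvd_mul_right k n), Nat.mul_div_cancel_left n hk, pow_mul]
    ring
  · intro m hm
    rw [if_neg, zero_mul]
    rintro ⟨n, rfl⟩
    exact hm ⟨n, rfl⟩

theorem F3_exp_pow_nonneg (k : ℕ) (hk : 0 < k) (m : ℕ) :
    ∃ r : ℝ, 0 ≤ r ∧ coef (fun z => exp (z ^ k)) m = r ∧ (k ∣ m → 0 < r) := by
  rw [F3_exp_pow k hk m]
  split_ifs with h
  · exact ⟨1 / ((m / k).factorial : ℝ), by positivity, by push_cast; rfl, fun _ => by positivity⟩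
  · exact ⟨0, le_rfl, by simp, fun h' => absurd h' h⟩

/-- Products of functions with nonnegative coefficients. -/
theorem F3_mul {f g : ℂ → ℂ} (hf : Differentiable ℂ f) (hg : Differentiable ℂ g)
    (h1 : ∀ m, ∃ r : ℝ, 0 < r ∧ coef f m = r) (h2 : ∀ m, ∃ r : ℝ, 0 ≤ r ∧ coef g m = r)
    (h3 : ∃ r : ℝ, 0 < r ∧ coef g 0 = r) :
    ∀ m, ∃ r : ℝ, 0 < r ∧ coef (fun z => f z * g z) m = r := by
  intro m
  rw [coef_mul hf hg]
  choose a ha0 ha using h1
  choose b hb0 hb using h2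
  refine ⟨∑ k ∈ Finset.range (m + 1), a k * b (m - k), ?_, ?_⟩
  · rw [Finset.sum_range_succ]
    have e1 : 0 < a m * b (m - m) := by
      obtain ⟨r, hr, hr'⟩ := h3
      have : b 0 = r := by
        have := (hb 0).symm.trans hr'
        exact_mod_cast this
      rw [Nat.sub_self, this]
      exact mul_pos (ha0 m) hr
    have e2 : 0 ≤ ∑ k ∈ Finset.range m, a k * b (m - k) :=
      Finset.sum_nonneg fun k _ => mul_nonneg (ha0 k).le (hb0 _)
    linarith
  · push_cast
    exact Finset.sum_congr rfl fun k _ => by rw [ha, hb]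

theorem F3_pos (m : ℕ) : 0 < rco (fun z => F3_Ψ z * exp (z ^ 2)) m := by
  have d1 : ∀ k : ℕ, Differentiable ℂ (fun z : ℂ => exp (z ^ k)) := fun k => by fun_prop
  have p1 : ∀ m, ∃ r : ℝ, 0 < r ∧ coef (fun z => exp (z ^ 1)) m = r := fun m => by
    obtain ⟨r, -, h2, h3⟩ := F3_exp_pow_nonneg 1 one_pos m
    exact ⟨r, h3 (one_dvd m), h2⟩
  have q : ∀ k : ℕ, 0 < k → (∀ m, ∃ r : ℝ, 0 ≤ r ∧ coef (fun z => exp (z ^ k)) m = r) ∧
      ∃ r : ℝ, 0 < r ∧ coef (fun z => exp (z ^ k)) 0 = r := fun k hk => by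
    refine ⟨fun m => ?_, ?_⟩
    · obtain ⟨r, h1, h2, -⟩ := F3_exp_pow_nonneg k hk m
      exact ⟨r, h1, h2⟩
    · obtain ⟨r, -, h2, h3⟩ := F3_exp_pow_nonneg k hk 0
      exact ⟨r, h3 (dvd_zero k), h2⟩
  have s1 := F3_mul (d1 1) (d1 3) p1 (q 3 (by norm_num)).1 (q 3 (by norm_num)).2
  have s2 := F3_mul (f := fun z => exp (z ^ 1) * exp (z ^ 3)) ((d1 1).mul (d1 3)) (d1 2) s1
    (q 2 (by norm_num)).1 (q 2 (by norm_num)).2
  obtain ⟨r, hr, h⟩ := s2 m
  have e : (fun z : ℂ => F3_Ψ z * exp (z ^ 2)) =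
      fun z => exp (z ^ 1) * exp (z ^ 3) * exp (z ^ 2) := by
    funext z
    simp only [F3_Ψ]
    rw [← Complex.exp_add, ← Complex.exp_add, ← Complex.exp_add]
    congr 1; ring
  unfold rco
  rw [e, h, ofReal_re]
  exact hr


/-- The angle `2π/3` is admissible for `ψ = π`. -/
theorem F3_ang {θ : ℝ} (h : |θ| ≤ 5 * Real.pi / 6) : θ ∈ Ang Real.pi (Real.pi / 6) := by
  left; linarith

/-- The sign of the rotation of the cluster product. -/
theorem F3_deriv_Kcl (Mb Ma : ℝ) (h : CC 2 Real.pi Mb Ma) :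
    ∃ t₀ : ℝ, 2 ≤ t₀ ∧ ∀ t, t₀ ≤ t → ∀ μ T A M, Cfg 2 (qc 2 Real.pi) Mb Ma t μ T A M →
      ∀ x : ℝ, (deriv (Kcl 2 Real.pi μ T) (x + (2 * Real.pi / 3 : ℝ) * I)).im ≤ 0 := by
  have hpi := Real.pi_pos
  obtain ⟨C1, hC1, hel⟩ := elog_facts 2 le_rfl Real.pi (Real.pi / 6) (by linarith) le_rfl
    (by linarith)
  obtain ⟨t₀, C, ht₀, hC, hcs⟩ := cfg_sum 2 Real.pi Mb Ma 1 h one_pos
  refine ⟨t₀, ht₀, fun t ht μ T A M hcfg x => ?_⟩
  obtain ⟨hs1, -, -⟩ := hcs t ht μ T A M hcfg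
  have hT : ∀ j, 2 ≤ T j := EC_T (ht₀.trans ht) hcfg
  have hel' : ∀ w : ℂ, w.im ∈ Ang Real.pi (Real.pi / 6) →
      ‖elog 2 Real.pi w‖ ≤ C1 * Real.exp (((2 : ℕ) + 1) * w.re) ∧
        ‖elog 2 Real.pi w‖ ≤ C1 * Real.exp ((2 : ℕ) * w.re) :=
    fun w hw => ⟨(hel w hw).2.2.1, (hel w hw).2.2.2.1⟩
  set w : ℂ := x + (2 * Real.pi / 3 : ℝ) * I with hw
  have hwre : w.re = x := by simp [hw]
  have hwim : w.im = 2 * Real.pi / 3 := by simp [hw]
  set s : Set ℂ := {v : ℂ | v.re < x + 1 ∧ |v.im - 2 * Real.pi / 3| < Real.pi / 6} with hs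
  have hso : IsOpen s := by
    apply IsOpen.inter
    · exact isOpen_lt continuous_re continuous_const
    · exact isOpen_lt ((continuous_im.sub continuous_const).abs) continuous_const
  have hws : w ∈ s := ⟨by rw [hwre]; linarith, by rw [hwim, sub_self, abs_zero]; linarith⟩
  have hang : ∀ v ∈ s, v.im ∈ Ang Real.pi (Real.pi / 6) := by
    intro v hv
    apply F3_ang
    have h1 := abs_lt.1 hv.2
    rw [abs_le]
    constructor <;> linarith [h1.1, h1.2]
  have hsum := hasSum_deriv_of_summable_norm (U := s)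
    (F := fun (j : ℕ) (v : ℂ) => (μ j : ℂ) * elog 2 Real.pi (v - Real.log (T j)))
    ((hs1 (Real.exp (x + 1)) (Real.exp_pos _).le).mul_left C1)
    (fun j v hv => by
      have him : (v - (Real.log (T j) : ℂ)).im = v.im := by simp
      obtain ⟨-, h2, -⟩ := hel (v - Real.log (T j)) (by rw [him]; exact hang v hv)
      have h3 : DifferentiableAt ℂ (fun v : ℂ => v - (Real.log (T j) : ℂ)) v := by fun_prop
      exact ((DifferentiableAt.comp v h2 h3).const_mul _).differentiableWithinAt) hso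
    (fun j v hv => EC_bound hC1 hel' μ T hT (hang v hv) (Real.exp_le_exp.mpr hv.1.le) j) hws
  have hder : ∀ j, deriv (fun v : ℂ => (μ j : ℂ) * elog 2 Real.pi (v - Real.log (T j))) w =
      (μ j : ℂ) * deriv (elog 2 Real.pi) ((x - Real.log (T j) : ℝ) + (2 * Real.pi / 3 : ℝ) * I) := by
    intro j
    rw [deriv_const_mul_field, deriv_comp_sub_const]
    congr 2
    rw [hw]; push_cast; ring
  have him := Complex.hasSum_im hsum
  change (deriv (fun v : ℂ => ∑' j : ℕ, (μ j : ℂ) * elog 2 Real.pi (v - Real.log (T j))) w).im ≤ 0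
  refine hasSum_le (g := fun _ : ℕ => (0 : ℝ)) (fun j => ?_) him hasSum_zero
  rw [hder j, ← ofReal_natCast, im_ofReal_mul]
  exact mul_nonpos_of_nonneg_of_nonpos (Nat.cast_nonneg _) (elog_drift _)


theorem F3_cos43 : Real.cos ((2 : ℕ) * (2 * Real.pi / 3)) = -1 / 2 := by
  have : ((2 : ℕ) : ℝ) * (2 * Real.pi / 3) = Real.pi + Real.pi / 3 := by push_cast; ring
  rw [this, Real.cos_add]
  simp
  norm_num

theorem F3_sin43 : Real.sin (2 * (2 * Real.pi / 3)) = -(Real.sqrt 3 / 2) := by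
  have : 2 * (2 * Real.pi / 3) = Real.pi + Real.pi / 3 := by ring
  rw [this, Real.sin_add]
  simp

theorem F3_sin23 : Real.sin (2 * Real.pi / 3) = Real.sqrt 3 / 2 := by
  have : 2 * Real.pi / 3 = Real.pi - Real.pi / 3 := by ring
  rw [this, Real.sin_pi_sub, Real.sin_pi_div_three]

/-- The rotation of the logarithm of the function. -/
theorem F3_im {μ : ℕ → ℕ} {T : ℕ → ℝ} (x : ℝ) (hx : 0 ≤ x)
    (hd : DifferentiableAt ℂ (Kcl 2 Real.pi μ T) (x + (2 * Real.pi / 3 : ℝ) * I))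
    (h : (deriv (Kcl 2 Real.pi μ T) (x + (2 * Real.pi / 3 : ℝ) * I)).im ≤ 0) :
    (deriv (Kfam F3_K 2 Real.pi μ T) (x + (2 * Real.pi / 3 : ℝ) * I)).im ≤
      -(1 / 2 * Real.exp (2 * x)) := by
  set w : ℂ := x + (2 * Real.pi / 3 : ℝ) * I with hw
  have e1 : HasDerivAt F3_K (3 * exp (3 * w) + exp w) w := by
    unfold F3_K
    have h1 : HasDerivAt (fun w : ℂ => exp (3 * w)) (exp (3 * w) * (3 * 1)) w :=
      ((hasDerivAt_id w).const_mul 3).cexp
    have h2 : HasDerivAt (fun w : ℂ => exp (3 * w) + exp w) (exp (3 * w) * (3 * 1) + exp w) w :=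
      h1.add (Complex.hasDerivAt_exp w)
    have h3 : (3 * exp (3 * w) + exp w : ℂ) = exp (3 * w) * (3 * 1) + exp w := by ring
    rw [h3]
    exact h2
  have e2 : HasDerivAt (fun w : ℂ => exp (((2 : ℕ) : ℂ) * w)) (2 * exp (2 * w)) w := by
    have h1 : HasDerivAt (fun w : ℂ => exp (((2 : ℕ) : ℂ) * w))
      (exp (((2 : ℕ) : ℂ) * w) * (((2 : ℕ) : ℂ) * 1)) w := ((hasDerivAt_id w).const_mul _).cexp
    convert h1 using 1
    push_cast; ring
  have e3 : HasDerivAt (Kfam F3_K 2 Real.pi μ T)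
      (3 * exp (3 * w) + exp w + 2 * exp (2 * w) + deriv (Kcl 2 Real.pi μ T) w) w := by
    unfold Kfam
    exact (e1.add e2).add hd.hasDerivAt
  rw [e3.deriv]
  have i1 : (3 * exp (3 * w)).im = 0 := by
    have : exp (3 * w) = ((Real.exp (3 * x) : ℝ) : ℂ) := by
      rw [hw, show (3 : ℂ) * ((x : ℂ) + ((2 * Real.pi / 3 : ℝ) : ℂ) * I) =
        ((3 * x : ℝ) : ℂ) + 2 * Real.pi * I by push_cast; ring, Complex.exp_add,
        Complex.exp_two_pi_mul_I, mul_one, ofReal_exp]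
    rw [this, show (3 : ℂ) = ((3 : ℝ) : ℂ) by simp, ← ofReal_mul, ofReal_im]
  have i2 : (exp w).im = Real.exp x * (Real.sqrt 3 / 2) := by
    rw [Complex.exp_im, ← F3_sin23]
    simp [hw]
  have i3 : (2 * exp (2 * w)).im = -(Real.exp (2 * x) * Real.sqrt 3) := by
    have h1 : (exp (2 * w)).im = Real.exp (2 * x) * Real.sin (2 * (2 * Real.pi / 3)) := by
      rw [Complex.exp_im]
      simp [hw]
    have h2 : (2 * exp (2 * w)).im = 2 * (exp (2 * w)).im := by simp
    rw [h2, h1, F3_sin43]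
    ring
  simp only [add_im, i1, i2, i3]
  have h3 : Real.exp x ≤ Real.exp (2 * x) := Real.exp_le_exp.2 (by linarith)
  have h4 : (1 : ℝ) ≤ Real.sqrt 3 := by
    rw [show (1 : ℝ) = Real.sqrt 1 by simp]
    exact Real.sqrt_le_sqrt (by norm_num)
  have h5 := Real.exp_pos x
  have h6 := Real.exp_pos (2 * x)
  nlinarith [mul_le_mul_of_nonneg_right h3 (show 0 ≤ Real.sqrt 3 / 2 by linarith),
    mul_le_mul_of_nonneg_left h4 h6.le]

/-- Conversion of exponentials of `s m` into powers of `m`. -/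
theorem F3_pow {s m a : ℝ} (hm : 0 < m) (ha : 0 ≤ a) (h : |s - Real.log (m / (1 * 3)) / 3| ≤ 1) :
    Real.exp (-(a * s)) ≤ Real.exp a * (m / 3) ^ (-(a / 3)) ∧
      Real.exp (-a) * (m / 3) ^ (-(a / 3)) ≤ Real.exp (-(a * s)) := by
  have h1 := abs_le.1 h
  rw [one_mul] at h1
  have h2 : (m / 3) ^ (-(a / 3)) = Real.exp (-(a * (Real.log (m / 3) / 3))) := by
    rw [Real.rpow_def_of_pos (by positivity)]
    congr 1; ring
  rw [h2, ← Real.exp_add, ← Real.exp_add]
  constructor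
  · apply Real.exp_le_exp.2
    nlinarith [h1.1]
  · apply Real.exp_le_exp.2
    nlinarith [h1.2]

theorem F3_pow_mono {m p : ℝ} (hm : 3 ≤ m) (hp : 5 / 4 ≤ p) :
    (m / 3) ^ (-p) ≤ 3 ^ (5 / 4 : ℝ) * m ^ (-(5 / 4 : ℝ)) := by
  have h1 : (m / 3) ^ (-p) ≤ (m / 3) ^ (-(5 / 4 : ℝ)) := by
    apply Real.rpow_le_rpow_of_exponent_le
    · rw [le_div_iff₀ (by norm_num)]; linarith
    · linarith
  have h2 : (m / 3) ^ (-(5 / 4 : ℝ)) = 3 ^ (5 / 4 : ℝ) * m ^ (-(5 / 4 : ℝ)) := by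
    rw [Real.div_rpow (by linarith) (by norm_num), Real.rpow_neg (by norm_num : (0:ℝ) ≤ 3)]
    field_simp
  rw [← h2]
  exact h1

theorem F3_pow_low {m : ℝ} (hm : 0 < m) :
    m ^ (-(1 / 3 : ℝ)) ≤ (m / 3) ^ (-((1 : ℝ) / 3)) := by
  apply Real.rpow_le_rpow_of_nonpos (by positivity)
  · rw [div_le_iff₀ (by norm_num)]; linarith
  · norm_num


/-- Order `3`: `Ψ = exp (z^3 + z)`, `d = 2`, `ψ = π`, `θ₀ = 2π/3`, phase drift. -/
theorem lower_three :
    ∃ f ∈ Pool.Agent.helper38.Lac.Gord ((3 : ℝ) : EReal) 2,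
      Pool.Agent.helper38.Lac.delta f = Real.pi := by
  have hpi := Real.pi_pos
  have hpi3 := Real.pi_gt_three
  obtain ⟨x₀, hx₀⟩ := kap_neg_pi (2 * Real.pi / 3) le_rfl (by linarith)
  set k := kap 2 Real.pi (2 * Real.pi / 3) x₀ with hk
  set Ma : ℝ := (3 / 2 * Real.exp ((2 : ℕ) * x₀) + 1) / (-k) with hMa
  have hMa0 : 0 < Ma := by
    apply div_pos
    · positivity
    · linarith
  have hK1 : (1 - Real.cos ((2 : ℕ) * (2 * Real.pi / 3))) * Real.exp ((2 : ℕ) * x₀) + Ma * k < 0 := by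
    rw [F3_cos43]
    have : Ma * k = -(3 / 2 * Real.exp ((2 : ℕ) * x₀) + 1) := by
      have hk0 : k ≠ 0 := hx₀.ne
      rw [hMa, div_mul_eq_mul_div, div_neg, mul_div_assoc, div_self hk0, mul_one]
    rw [this]; linarith
  have hq : qc 2 Real.pi = 1 := by
    unfold qc; push_cast; simp
  have hτ : (0 : ℝ) < 1 / 128 := by norm_num
  have hper : exp (((3 : ℝ) : ℂ) * ((2 * Real.pi / 3 : ℝ) : ℂ) * I) = 1 := by
    rw [show ((3 : ℝ) : ℂ) * ((2 * Real.pi / 3 : ℝ) : ℂ) * I = 2 * Real.pi * I by push_cast; ring,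
      Complex.exp_two_pi_mul_I]
  obtain ⟨ε₁, Mb, hε₁, hcc, htouch⟩ := exists_touch 3 1 1 0 (2 * Real.pi / 3) (1 / 128) Real.pi 2 ∅
    F3_Ψ F3_K (F3_base _ hτ) le_rfl (by norm_num) one_pos one_pos (by norm_num) le_rfl
    (by linarith) (by linarith) hτ (by norm_num) (fun _ => by linarith) hper (Or.inl rfl)
    (by rw [F3_cos43]; norm_num) (Set.empty_subset _) F3_pos Real.pi Ma (Real.pi / 6) 1 x₀
    (by linarith) le_rfl hMa0 (by rw [hq]; linarith) (by linarith) (by linarith)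
    (fun θ hθ => F3_ang (by
      rw [abs_le]; constructor <;> linarith [hθ.1, hθ.2])) (Set.empty_subset _) one_pos
    (fun θ hθ => absurd hθ (Set.notMem_empty _)) hK1
  obtain ⟨t₀, ht₀, hdK⟩ := F3_deriv_Kcl Mb Ma hcc
  obtain ⟨t₁, C₁, ht₁, hC₁, hKf⟩ := Kcl_facts 2 Real.pi Mb Ma 1 (Real.pi / 6) hcc one_pos
    (by linarith)
  set ε : ℝ := min ε₁ (1 / 4) with hε
  have hε0 : 0 < ε := lt_min hε₁ (by norm_num)
  have hε4 : ε ≤ 1 / 4 := min_le_right _ _
  obtain ⟨t, C, c, C₀, C', μ, T, A, M, m₀, s, w₁, htmin, ht, hC', hcfg, hP, hcls, hsad, hnn,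
    hfreq, hquiet, hzero⟩ := htouch ε (max t₀ t₁) hε0 (min_le_left _ _)
  set f := fam F3_Ψ 2 Real.pi μ T with hf
  set K := Kfam F3_K 2 Real.pi μ T with hK
  set P : CP := ⟨3, 1, 1, 0, 2 * Real.pi / 3, 1 / 128, ((2 : ℕ) : ℝ) + ε, C, ((2 : ℕ) : ℝ) - ε, c, C₀⟩
    with hPdef
  obtain ⟨m₁, C'', hC'', hdr⟩ := sp_drift P hP m₀ C' hC'
  obtain ⟨δ, hδ⟩ := hdr _ _ _ _ hcls hsad
  obtain ⟨m₂, hloc⟩ := sp_loc P hP m₀ C' 1 hC' one_pos
  have hlocm : ∀ m : ℕ, m₂ ≤ m → |s m - Real.log (m / (1 * 3)) / 3| ≤ 1 :=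
    fun m hm => hloc _ _ _ _ hcls hsad m hm
  have hslim : Tendsto s atTop atTop := by
    have h1 : Tendsto (fun m : ℕ => Real.log (m / (1 * 3)) / 3 - 1) atTop atTop := by
      apply tendsto_atTop_add_const_right
      apply Tendsto.atTop_div_const (by norm_num)
      apply Real.tendsto_log_atTop.comp
      apply Tendsto.atTop_div_const (by norm_num)
      exact tendsto_natCast_atTop_atTop
    refine tendsto_atTop_mono' _ ?_ h1
    filter_upwards [eventually_ge_atTop m₂] with m hm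
    linarith [(abs_le.1 (hlocm m hm)).1]
  have hNpos : ∀ m, 0 < Nof P K s m := by
    intro m
    unfold Nof
    have hH := hP.H0
    have hρ : 0 < P.ρ := by linarith [hP.ρ1]
    apply div_pos (Real.exp_pos _)
    apply Real.sqrt_pos.2
    have := Real.exp_pos (P.ρ * s m)
    positivity
  have hpk : pk (2 * Real.pi / 3) = 2 := by
    unfold pk; rw [if_neg]; intro h; linarith
  have hθc : ((2 * Real.pi / 3 : ℝ) : ℂ) = 2 * (Real.pi : ℂ) / 3 := by push_cast; ring
  -- the drift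
  have hIm : ∀ᶠ m : ℕ in atTop, (1 / 36 : ℝ) * Real.exp (-(1 * s m)) ≤ (δ m).im := by
    have h1 : ∀ᶠ x : ℝ in atTop, C'' * Real.exp (-(3 / 2) * x) ≤ 1 / 36 * Real.exp (-1 * x) := by
      have := TT_exp_le (p := -1) (q := -(3 / 2)) (c := 1 / 36) (C := C'') (by norm_num)
        (by norm_num)
      exact this
    filter_upwards [hslim.eventually h1, hslim.eventually (eventually_ge_atTop 0),
      eventually_ge_atTop (max m₀ m₁)] with m h2 h3 h4
    obtain ⟨-, -, -, h5⟩ := hδ m ((le_max_right _ _).trans h4)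
    have hs1 := (hsad m ((le_max_left _ _).trans h4)).2.1
    have h6 := (abs_im_le_norm _).trans h5
    have hangle : ((s m : ℂ) + (2 * Real.pi / 3 : ℝ) * I).im ∈ Ang Real.pi (Real.pi / 6) := by
      apply F3_ang
      simp only [add_im, ofReal_im, mul_im, ofReal_re, I_im, mul_one, I_re, mul_zero, add_zero,
        zero_add]
      rw [abs_of_pos (by positivity)]
      linarith
    have h7 := F3_im (s m) h3
      (hKf t ((le_max_right _ _).trans htmin) μ T A M hcfg _ hangle).2.1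
      (hdK t ((le_max_left _ _).trans htmin) μ T A M hcfg (s m))
    have e1 : ((deriv K (s m) - deriv K (s m + (P.θ₀ : ℂ) * I)) /
          ((P.H * P.ρ ^ 2 * Real.exp (P.ρ * s m) : ℝ) : ℂ)).im =
        -(deriv K (s m + (2 * Real.pi / 3 : ℝ) * I)).im / (9 * Real.exp (3 * s m)) := by
      rw [Complex.div_ofReal_im]
      rw [sub_im, hs1]
      simp only [natCast_im, zero_sub, hPdef]
      norm_num
    rw [sub_im, e1] at h6
    have h8 : 1 / 18 * Real.exp (-(1 * s m)) ≤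
        -(deriv K (s m + (2 * Real.pi / 3 : ℝ) * I)).im / (9 * Real.exp (3 * s m)) := by
      rw [le_div_iff₀ (by positivity)]
      have : 1 / 18 * Real.exp (-(1 * s m)) * (9 * Real.exp (3 * s m)) =
          1 / 2 * Real.exp (2 * s m) := by
        rw [show 1 / 18 * Real.exp (-(1 * s m)) * (9 * Real.exp (3 * s m)) =
          1 / 2 * (Real.exp (-(1 * s m)) * Real.exp (3 * s m)) by ring, ← Real.exp_add]
        congr 2; ring
      rw [this]
      linarith
    have h9 : C'' * Real.exp ((P.σ + max P.σ P.σ₁ - 2 * P.ρ) * s m) ≤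
        C'' * Real.exp (-(3 / 2) * s m) := by
      apply mul_le_mul_of_nonneg_left _ hC''.le
      apply Real.exp_le_exp.2
      apply mul_le_mul_of_nonneg_right _ h3
      have e2 : max P.σ P.σ₁ = 2 + ε := by
        simp only [hPdef]
        rw [max_eq_left]
        · push_cast; ring
        · push_cast; linarith
      rw [e2]
      simp only [hPdef]
      push_cast
      linarith
    have h10 := (abs_le.1 h6).1
    have e3 : (-1 : ℝ) * s m = -(1 * s m) := by ring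
    rw [e3] at h2
    have h11 := Real.exp_pos (-(1 * s m))
    linarith
  have h5' : Tendsto δ atTop (𝓝 0) := by
    rw [tendsto_zero_iff_norm_tendsto_zero]
    have h1 : Tendsto (fun m : ℕ => C'' * Real.exp ((P.σ - P.ρ) * s m)) atTop (𝓝 0) := by
      rw [show (0 : ℝ) = C'' * 0 by ring]
      apply Tendsto.const_mul
      apply Real.tendsto_exp_atBot.comp
      apply Tendsto.const_mul_atTop_of_neg _ hslim
      have := hP.σρ
      linarith
    refine squeeze_zero' (Eventually.of_forall fun m => norm_nonneg _) ?_ h1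
    filter_upwards [eventually_ge_atTop m₁] with m hm
    exact (hδ m hm).2.1
  have hiso := iso_drift (fun m => rco f m / Nof P K s m) (fun m => Xof K s w₁ m) δ
    (1 / 36 * Real.exp (-1)) (C'' * (Real.exp (4 - ε) * 3 ^ (5 / 4 : ℝ))) (by positivity)
    (fun m => div_nonneg (hnn m) (hNpos m).le)
    (Eventually.of_forall fun m => by unfold Xof; exact Complex.exp_ne_zero _)
    (fun η hη => by
      obtain ⟨m₃, h3⟩ := sp_main P hP m₀ C' η hC' hη
      filter_upwards [eventually_ge_atTop m₃] with m hm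
      have := (h3 _ _ _ _ hcls hsad m hm).1
      rw [show P.θ₀ = 2 * Real.pi / 3 from rfl, hpk] at this
      exact this)
    (by
      filter_upwards [eventually_ge_atTop m₁] with m hm
      have := (hδ m hm).1
      rw [show P.θ₀ = 2 * Real.pi / 3 from rfl, hθc] at this
      exact this)
    (by
      filter_upwards [eventually_ge_atTop (max m₁ (max m₂ 3))] with m hm
      simp only [max_le_iff] at hm
      have h1 := (hδ m hm.1).2.2.1
      have hm3 : (3 : ℝ) ≤ m := by exact_mod_cast hm.2.2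
      have h2 := (F3_pow (a := 4 - ε) (by linarith : (0 : ℝ) < m) (by linarith)
        (hlocm m hm.2.1)).1
      have h3 := F3_pow_mono (p := (4 - ε) / 3) hm3 (by linarith)
      refine h1.trans ?_
      rw [mul_assoc, mul_assoc]
      apply mul_le_mul_of_nonneg_left _ hC''.le
      have e1 : (P.σ - 2 * P.ρ) * s m = -((4 - ε) * s m) := by
        simp only [hPdef]; push_cast; ring
      rw [e1]
      exact h2.trans (mul_le_mul_of_nonneg_left h3 (Real.exp_pos _).le))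
    (by
      filter_upwards [hIm, eventually_ge_atTop (max m₂ 1)] with m h1 hm
      simp only [max_le_iff] at hm
      have hm1 : (0 : ℝ) < m := by exact_mod_cast hm.2
      have h2 := (F3_pow (a := 1) hm1 (by norm_num) (hlocm m hm.1)).2
      have h3 := F3_pow_low hm1
      refine le_trans ?_ h1
      rw [mul_assoc]
      apply mul_le_mul_of_nonneg_left _ (by norm_num)
      refine le_trans ?_ h2
      exact mul_le_mul_of_nonneg_left h3 (Real.exp_pos _).le)
    h5' hquiet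
  have hzinf := FN_inf hcfg ht hzero
  have hadj : ∀ᶠ m in atTop, ¬ (rco f m = 0 ∧ rco f (m + 1) = 0) := by
    filter_upwards [hiso] with m h hcon
    exact h ⟨by simp [hcon.1], by simp [hcon.2]⟩
  have hmem := mem_Gord_two (H := 1) (C := C + 0) (σ' := max (((2 : ℕ) : ℝ) + ε) 1)
    (by norm_num : (0 : ℝ) < 3) one_pos
    (max_lt (by push_cast; linarith) (by norm_num)) hcls.ent hnn hadj hfreq hzinf
    (FN_growth hP hcls)
  refine ⟨f, hmem, le_antisymm (Pool.Agent.helper38.Lac.delta_le_pi hzinf) ?_⟩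
  apply le_delta_of hcls.ent.1 hzinf (R := 0)
  intro z hz _
  rcases (hzero z).1 hz with h4 | ⟨j, h4 | h4⟩
  · exact absurd h4 (Complex.exp_ne_zero _)
  · rw [h4, (FN_arg (by linarith [(FN_T_mono hcfg ht).1 j]) (by linarith) le_rfl).1]
  · rw [h4, (FN_arg (by linarith [(FN_T_mono hcfg ht).1 j]) (by linarith) le_rfl).2]

end Pool.Agent.helper74.LG
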