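import Pool.Agent.helper74.LG.Defs2

set_option autoImplicit false

namespace Pool.Agent.helper74.LG

open Complex Set Filter Topology MeasureTheory

/-- `log (1 + x)` minus its Taylor polynomial of degree `p`. -/
noncomputable def lp (p : ℕ) (x : ℂ) : ℂ :=
  log (1 + x) - ∑ j ∈ Finset.Icc 1 p, (-1 : ℂ) ^ (j - 1) * x ^ j / j

/-- The Weierstrass factor of genus `p` with zero `-1`. -/
noncomputable def Ep (p : ℕ) (x : ℂ) : ℂ :=
  (1 + x) * exp (-∑ j ∈ Finset.Icc 1 p, (-1 : ℂ) ^ (j - 1) * x ^ j / j)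

/-- `t(x) = x^(1/ρ)`; the zeros of `FF` are `- tt ρ (n + 1)`. -/
noncomputable def tt (ρ x : ℝ) : ℝ := x ^ (1 / ρ)

/-- The constants that remove the polynomial part. -/
noncomputable def gam (ρ : ℝ) (i : ℕ) : ℝ :=
  ∑' n : ℕ, ((∫ x in (n : ℝ)..(n + 1), x ^ (-(i : ℝ) / ρ)) - ((n : ℝ) + 1) ^ (-(i : ℝ) / ρ))

/-- The normalised canonical product with zeros `- (n+1)^(1/ρ)`. -/
noncomputable def FF (ρ : ℝ) (z : ℂ) : ℂ :=
  exp (∑ i ∈ Finset.Icc 1 ⌊ρ⌋₊, (-1 : ℂ) ^ i * gam ρ i * z ^ i / i) *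
    ∏' n : ℕ, Ep ⌊ρ⌋₊ (z / tt ρ (n + 1))

/-- The summands of the remainder. -/
noncomputable def rn (ρ : ℝ) (n : ℕ) (w : ℂ) : ℂ :=
  log (1 + exp w / tt ρ (n + 1)) - ∫ x in (n : ℝ)..(n + 1), log (1 + exp w / tt ρ x)

end Pool.Agent.helper74.LG
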