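import Pool.Agent.helper74.LG.Defs3

set_option autoImplicit false

namespace Pool.Agent.helper74.LG

open Complex Set Filter Topology MeasureTheory

theorem FE_tt_pos (ρ : ℝ) (n : ℕ) : 0 < tt ρ ((n : ℝ) + 1) :=
  Real.rpow_pos_of_pos (by positivity) _

theorem FE_Ep_conj (p : ℕ) (x : ℂ) :
    Ep p ((starRingEnd ℂ) x) = (starRingEnd ℂ) (Ep p x) := by
  unfold Ep
  rw [map_mul, map_add, map_one, ← exp_conj, map_neg, map_sum]
  congr 3
  refine Finset.sum_congr rfl fun j _ => ?_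
  rw [map_div₀, map_mul, map_pow, map_pow, map_neg, map_one, conj_natCast]

theorem FE_Ep_eq_zero (p : ℕ) (x : ℂ) (h : Ep p x = 0) : x = -1 := by
  unfold Ep at h
  rcases mul_eq_zero.mp h with h | h
  · linear_combination h
  · exact absurd h (exp_ne_zero _)

theorem FE_Ep_bound (p : ℕ) (x : ℂ) (hx : ‖x‖ ≤ 1 / 4) :
    ‖Ep p x - 1‖ ≤ 4 * ‖x‖ ^ (p + 1) := by
  have h := norm_log_sub_logTaylor_le p (z := x) (by linarith)
  have h0 : 0 ≤ ‖x‖ := norm_nonneg x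
  have hp0 : 0 ≤ ‖x‖ ^ (p + 1) := by positivity
  have h1 : (1 - ‖x‖)⁻¹ ≤ 2 := by
    rw [inv_le_comm₀ (by linarith) (by norm_num)]
    linarith
  have h2 : ‖x‖ ^ (p + 1) * (1 - ‖x‖)⁻¹ / ((p : ℝ) + 1) ≤ 2 * ‖x‖ ^ (p + 1) := by
    have h3 : ‖x‖ ^ (p + 1) * (1 - ‖x‖)⁻¹ ≤ ‖x‖ ^ (p + 1) * 2 :=
      mul_le_mul_of_nonneg_left h1 hp0
    have h4 : ‖x‖ ^ (p + 1) * (1 - ‖x‖)⁻¹ / ((p : ℝ) + 1) ≤ ‖x‖ ^ (p + 1) * (1 - ‖x‖)⁻¹ := by
      apply div_le_self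
      · exact mul_nonneg hp0 (inv_nonneg.mpr (by linarith))
      · have : (0 : ℝ) ≤ p := Nat.cast_nonneg p
        linarith
    linarith
  have h5 := h.trans h2
  have h6 : ‖x‖ ^ (p + 1) ≤ 1 / 4 := by
    calc ‖x‖ ^ (p + 1) ≤ ‖x‖ ^ 1 := pow_le_pow_of_le_one h0 (by linarith) (by omega)
      _ ≤ 1 / 4 := by rw [pow_one]; exact hx
  have hne : 1 + x ≠ 0 := by
    intro h7
    have : x = -1 := by linear_combination h7
    rw [this, norm_neg, norm_one] at hx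
    norm_num at hx
  have hE : Ep p x = exp (log (1 + x) - logTaylor (p + 1) x) := by
    unfold Ep
    rw [sub_eq_add_neg, exp_add, exp_log hne]
    congr 3
    unfold logTaylor
    rw [Finset.range_eq_Ico, Finset.sum_eq_sum_Ico_succ_bot (by omega)]
    simp only [Nat.cast_zero, div_zero, zero_add]
    have : Finset.Icc 1 p = Finset.Ico 1 (p + 1) := by
      ext a; simp only [Finset.mem_Icc, Finset.mem_Ico]; omega
    rw [this]
    refine Finset.sum_congr rfl fun j hj => ?_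
    have hj1 : 1 ≤ j := (Finset.mem_Ico.mp hj).1
    have : (-1 : ℂ) ^ (j + 1) = (-1 : ℂ) ^ (j - 1) := by
      obtain ⟨k, rfl⟩ : ∃ k, j = k + 1 := ⟨j - 1, by omega⟩
      rw [Nat.add_sub_cancel, pow_add, pow_add]
      norm_num
    rw [this]
  rw [hE]
  refine (norm_exp_sub_one_le (by linarith)).trans ?_
  linarith

theorem FE_summable (ρ : ℝ) (hρ : 1 < ρ) (R : ℝ) :
    Summable (fun n : ℕ => 4 * (R / tt ρ ((n : ℝ) + 1)) ^ (⌊ρ⌋₊ + 1)) := by
  have h0 : 0 < ρ := by linarith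
  have hs : 1 < ((⌊ρ⌋₊ : ℝ) + 1) / ρ := by
    rw [lt_div_iff₀ h0, one_mul]
    exact Nat.lt_floor_add_one ρ
  have h1 := (summable_nat_add_iff 1).mpr (Real.summable_one_div_nat_rpow.mpr hs)
  have h2 : (fun n : ℕ => 4 * (R / tt ρ ((n : ℝ) + 1)) ^ (⌊ρ⌋₊ + 1)) =
      fun n : ℕ => (4 * R ^ (⌊ρ⌋₊ + 1)) * (1 / (((n + 1 : ℕ) : ℝ)) ^ (((⌊ρ⌋₊ : ℝ) + 1) / ρ)) := by
    funext n
    have hn : (0 : ℝ) ≤ (n : ℝ) + 1 := by positivity
    have h3 : tt ρ ((n : ℝ) + 1) ^ (⌊ρ⌋₊ + 1) = ((n : ℝ) + 1) ^ (((⌊ρ⌋₊ : ℝ) + 1) / ρ) := by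
      unfold tt
      rw [← Real.rpow_natCast, ← Real.rpow_mul hn]
      congr 1
      push_cast
      field_simp
    rw [div_pow, h3]
    push_cast
    ring
  rw [h2]
  exact h1.mul_left _

theorem FE_bound (ρ : ℝ) (hρ : 1 < ρ) (R : ℝ) :
    ∀ᶠ n : ℕ in atTop, ∀ z ∈ Metric.ball (0 : ℂ) R,
      ‖Ep ⌊ρ⌋₊ (z / tt ρ ((n : ℝ) + 1)) - 1‖ ≤ 4 * (R / tt ρ ((n : ℝ) + 1)) ^ (⌊ρ⌋₊ + 1) := by
  have h0 : 0 < ρ := by linarith
  have ht : Tendsto (fun n : ℕ => tt ρ ((n : ℝ) + 1)) atTop atTop := by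
    unfold tt
    exact (tendsto_rpow_atTop (by positivity : 0 < 1 / ρ)).comp
      (tendsto_atTop_add_const_right _ _ tendsto_natCast_atTop_atTop)
  filter_upwards [ht.eventually_ge_atTop (4 * R)] with n hn z hz
  have hz' : ‖z‖ < R := by simpa using hz
  have hp := FE_tt_pos ρ n
  have h1 : ‖z / tt ρ ((n : ℝ) + 1)‖ = ‖z‖ / tt ρ ((n : ℝ) + 1) := by
    rw [norm_div, norm_real, Real.norm_eq_abs, abs_of_pos hp]
  have h2 : ‖z / tt ρ ((n : ℝ) + 1)‖ ≤ 1 / 4 := by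
    rw [h1, div_le_iff₀ hp]; linarith
  refine (FE_Ep_bound _ _ h2).trans ?_
  rw [h1]
  have : ‖z‖ / tt ρ ((n : ℝ) + 1) ≤ R / tt ρ ((n : ℝ) + 1) :=
    div_le_div_of_nonneg_right hz'.le hp.le
  gcongr

theorem FE_Ep_diff (p : ℕ) : Differentiable ℂ (Ep p) := by
  unfold Ep
  fun_prop

theorem FE_prod (ρ : ℝ) (hρ : 1 < ρ) (R : ℝ) :
    HasProdLocallyUniformlyOn (fun (n : ℕ) (z : ℂ) => Ep ⌊ρ⌋₊ (z / tt ρ ((n : ℝ) + 1)))
      (fun z => ∏' n : ℕ, Ep ⌊ρ⌋₊ (z / tt ρ ((n : ℝ) + 1))) (Metric.ball (0 : ℂ) R) := by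
  have h := (FE_summable ρ hρ R).hasProdLocallyUniformlyOn_nat_one_add
    (f := fun (n : ℕ) (z : ℂ) => Ep ⌊ρ⌋₊ (z / tt ρ ((n : ℝ) + 1)) - 1)
    (K := Metric.ball (0 : ℂ) R) Metric.isOpen_ball (FE_bound ρ hρ R) (by
      intro n
      apply Continuous.continuousOn
      have := (FE_Ep_diff ⌊ρ⌋₊).continuous
      exact (this.comp (continuous_id.div_const _)).sub continuous_const)
  simpa using h

theorem FE_mult (ρ : ℝ) (hρ : 1 < ρ) (z : ℂ) :
    Multipliable (fun n : ℕ => Ep ⌊ρ⌋₊ (z / tt ρ ((n : ℝ) + 1))) := by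
  have h := FE_prod ρ hρ (‖z‖ + 1)
  exact (h.hasProd (by simp : z ∈ Metric.ball (0 : ℂ) (‖z‖ + 1))).multipliable

theorem FE_sumn (ρ : ℝ) (hρ : 1 < ρ) (z : ℂ) :
    Summable (fun n : ℕ => ‖Ep ⌊ρ⌋₊ (z / tt ρ ((n : ℝ) + 1)) - 1‖) := by
  apply Summable.of_norm_bounded_eventually_nat (FE_summable ρ hρ (‖z‖ + 1))
  filter_upwards [FE_bound ρ hρ (‖z‖ + 1)] with n hn
  rw [norm_norm]
  exact hn z (by simp)

theorem FE_ne_zero (ρ : ℝ) (hρ : 1 < ρ) (z : ℂ)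
    (h : ∀ n : ℕ, Ep ⌊ρ⌋₊ (z / tt ρ ((n : ℝ) + 1)) ≠ 0) :
    ∏' n : ℕ, Ep ⌊ρ⌋₊ (z / tt ρ ((n : ℝ) + 1)) ≠ 0 := by
  have := tprod_one_add_ne_zero_of_summable
    (f := fun n : ℕ => Ep ⌊ρ⌋₊ (z / tt ρ ((n : ℝ) + 1)) - 1) (by simpa using h)
    (FE_sumn ρ hρ z)
  simpa using this

/-- `FF ρ` is a real entire function with zeros `- (n+1)^(1/ρ)`. -/
theorem FF_facts (ρ : ℝ) (hρ : 1 < ρ) (hni : ∀ n : ℕ, ρ ≠ n) :
    RealEnt (FF ρ) ∧ (∀ x : ℝ, 0 ≤ x → 0 < (FF ρ x).re) ∧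
    (∀ z : ℂ, FF ρ z = 0 → z.im = 0 ∧ z.re < 0) := by
  have hzero : ∀ z : ℂ, FF ρ z = 0 → ∃ n : ℕ, z = -(tt ρ ((n : ℝ) + 1) : ℂ) := by
    intro z hz
    unfold FF at hz
    rcases mul_eq_zero.mp hz with hz | hz
    · exact absurd hz (exp_ne_zero _)
    · by_contra hcon
      push Not at hcon
      refine FE_ne_zero ρ hρ z (fun n hn => hcon n ?_) hz
      have h1 := FE_Ep_eq_zero _ _ hn
      have h2 : (tt ρ ((n : ℝ) + 1) : ℂ) ≠ 0 := by
        exact_mod_cast (FE_tt_pos ρ n).ne'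
      rw [div_eq_iff h2] at h1
      rw [h1]; ring
  have hconj : ∀ z, FF ρ ((starRingEnd ℂ) z) = (starRingEnd ℂ) (FF ρ z) := by
    intro z
    unfold FF
    rw [map_mul, ← exp_conj, map_sum, (FE_mult ρ hρ z).map_tprod (starRingEnd ℂ) continuous_conj]
    congr 1
    · congr 1
      refine Finset.sum_congr rfl fun j _ => ?_
      rw [map_div₀, map_mul, map_mul, map_pow, map_pow, map_neg, map_one, conj_natCast,
        conj_ofReal]
    · refine tprod_congr fun n => ?_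
      rw [← FE_Ep_conj, map_div₀, conj_ofReal]
  refine ⟨⟨?_, hconj⟩, ?_, ?_⟩
  · unfold FF
    apply Differentiable.mul
    · fun_prop
    · intro z
      have h := FE_prod ρ hρ (‖z‖ + 1)
      rw [hasProdLocallyUniformlyOn_iff_tendstoLocallyUniformlyOn] at h
      have h2 := h.differentiableOn (by
        filter_upwards with s
        apply Differentiable.differentiableOn
        apply Differentiable.fun_finsetProd
        intro i _
        exact (FE_Ep_diff _).comp (differentiable_id.div_const _)) Metric.isOpen_ball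
      exact h2.differentiableAt (Metric.isOpen_ball.mem_nhds (by simp))
  · intro x hx
    have him : (FF ρ x).im = 0 := by
      have h := hconj x
      rw [conj_ofReal] at h
      have h2 := congrArg Complex.im h
      rw [conj_im] at h2
      linarith
    have hne : FF ρ x ≠ 0 := by
      intro h
      obtain ⟨n, hn⟩ := hzero _ h
      have h1 := congrArg Complex.re hn
      rw [neg_re, ofReal_re, ofReal_re] at h1
      have := FE_tt_pos ρ n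
      linarith
    have hnn : 0 ≤ (FF ρ x).re := by
      have hfac : ∀ n : ℕ, Ep ⌊ρ⌋₊ ((x : ℂ) / tt ρ ((n : ℝ) + 1)) =
          (((1 + x / tt ρ ((n : ℝ) + 1)) * Real.exp (-∑ j ∈ Finset.Icc 1 ⌊ρ⌋₊,
            (-1 : ℝ) ^ (j - 1) * (x / tt ρ ((n : ℝ) + 1)) ^ j / j) : ℝ) : ℂ) := by
        intro n
        unfold Ep
        push_cast
        rfl
      have hpre : exp (∑ i ∈ Finset.Icc 1 ⌊ρ⌋₊, (-1 : ℂ) ^ i * gam ρ i * (x : ℂ) ^ i / i) =
          ((Real.exp (∑ i ∈ Finset.Icc 1 ⌊ρ⌋₊, (-1 : ℝ) ^ i * gam ρ i * x ^ i / i) : ℝ) : ℂ) := by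
        push_cast
        rfl
      have hm := (FE_mult ρ hρ x).hasProd
      have hlim := (continuous_re.tendsto _).comp hm
      have hge : 0 ≤ (∏' n : ℕ, Ep ⌊ρ⌋₊ ((x : ℂ) / tt ρ ((n : ℝ) + 1))).re := by
        refine ge_of_tendsto' hlim fun s => ?_
        simp only [Function.comp]
        rw [Finset.prod_congr rfl (fun n _ => hfac n), ← ofReal_prod, ofReal_re]
        apply Finset.prod_nonneg
        intro n _
        have := FE_tt_pos ρ n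
        positivity
      unfold FF
      rw [hpre, re_ofReal_mul]
      exact mul_nonneg (Real.exp_pos _).le hge
    rcases hnn.lt_or_eq with h | h
    · exact h
    · exact absurd (Complex.ext h.symm him) hne
  · intro z hz
    obtain ⟨n, hn⟩ := hzero z hz
    have := FE_tt_pos ρ n
    rw [hn]
    constructor
    · rw [neg_im, ofReal_im, neg_zero]
    · rw [neg_re, ofReal_re]; linarith

end Pool.Agent.helper74.LG
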