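import Pool.Agent.helper74.LG.Defs3

set_option autoImplicit false

namespace Pool.Agent.helper74.LG

open Complex Set Filter Topology MeasureTheory

/-- The constants `gam` converge. -/
theorem gam_summable (ρ : ℝ) (hρ : 1 < ρ) (i : ℕ) (hi : (i : ℝ) < ρ) :
    Summable (fun n : ℕ => (∫ x in (n : ℝ)..(n + 1), x ^ (-(i : ℝ) / ρ)) -
      ((n : ℝ) + 1) ^ (-(i : ℝ) / ρ)) := by
  have h0 : 0 < ρ := by linarith
  have hi0 : (0 : ℝ) ≤ (i : ℝ) := Nat.cast_nonneg i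
  set r := -(i : ℝ) / ρ with hr
  have hr0 : r ≤ 0 := by
    rw [hr, neg_div]
    have : 0 ≤ (i : ℝ) / ρ := by positivity
    linarith
  have hr1 : -1 < r := by
    rw [hr, lt_div_iff₀ h0]; linarith
  rw [← summable_nat_add_iff 1]
  have hint : ∀ a b : ℝ, IntervalIntegrable (fun x : ℝ => x ^ r) volume a b :=
    fun a b => intervalIntegral.intervalIntegrable_rpow' hr1
  have hlow : ∀ n : ℕ, 0 ≤ (∫ x in ((n + 1 : ℕ) : ℝ)..(((n + 1 : ℕ) : ℝ) + 1), x ^ r) -
      (((n + 1 : ℕ) : ℝ) + 1) ^ r := by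
    intro n
    have hn : (0 : ℝ) < ((n + 1 : ℕ) : ℝ) := by positivity
    have h := intervalIntegral.integral_mono_on
      (f := fun _ => (((n + 1 : ℕ) : ℝ) + 1) ^ r) (g := fun x : ℝ => x ^ r)
      (a := ((n + 1 : ℕ) : ℝ)) (b := ((n + 1 : ℕ) : ℝ) + 1) (μ := volume) (by linarith)
      intervalIntegrable_const (hint _ _) (by
        intro x hx
        exact Real.rpow_le_rpow_of_nonpos (by linarith [hx.1]) hx.2 hr0)
    rw [intervalIntegral.integral_const, smul_eq_mul, add_sub_cancel_left, one_mul] at h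
    linarith
  have hup : ∀ n : ℕ, (∫ x in ((n + 1 : ℕ) : ℝ)..(((n + 1 : ℕ) : ℝ) + 1), x ^ r) -
      (((n + 1 : ℕ) : ℝ) + 1) ^ r ≤ ((n : ℝ) + 1) ^ r - (((n + 1 : ℕ) : ℝ) + 1) ^ r := by
    intro n
    have hn : (0 : ℝ) < ((n + 1 : ℕ) : ℝ) := by positivity
    have h := intervalIntegral.integral_mono_on
      (g := fun _ => (((n + 1 : ℕ) : ℝ)) ^ r) (f := fun x : ℝ => x ^ r)
      (a := ((n + 1 : ℕ) : ℝ)) (b := ((n + 1 : ℕ) : ℝ) + 1) (μ := volume) (by linarith)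
      (hint _ _) intervalIntegrable_const (by
        intro x hx
        exact Real.rpow_le_rpow_of_nonpos hn hx.1 hr0)
    rw [intervalIntegral.integral_const, smul_eq_mul, add_sub_cancel_left, one_mul] at h
    have e : ((n : ℝ) + 1) = ((n + 1 : ℕ) : ℝ) := by push_cast; ring
    rw [e]
    linarith
  apply summable_of_sum_range_le (c := 1) hlow
  intro N
  have h1 : ∀ N : ℕ, ∑ n ∈ Finset.range N, (((n : ℝ) + 1) ^ r - (((n + 1 : ℕ) : ℝ) + 1) ^ r) =
      1 - ((N : ℝ) + 1) ^ r := by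
    intro N
    induction N with
    | zero => simp
    | succ N ih =>
      rw [Finset.sum_range_succ, ih]
      ring
  calc ∑ n ∈ Finset.range N, ((∫ x in ((n + 1 : ℕ) : ℝ)..(((n + 1 : ℕ) : ℝ) + 1), x ^ r) -
      (((n + 1 : ℕ) : ℝ) + 1) ^ r)
      ≤ ∑ n ∈ Finset.range N, (((n : ℝ) + 1) ^ r - (((n + 1 : ℕ) : ℝ) + 1) ^ r) :=
        Finset.sum_le_sum fun n _ => hup n
    _ = 1 - ((N : ℝ) + 1) ^ r := h1 N
    _ ≤ 1 := by
        have : 0 ≤ ((N : ℝ) + 1) ^ r := by positivity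
        linarith

end Pool.Agent.helper74.LG
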