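import Pool.Agent.helper74.LG.Defs3

set_option autoImplicit false

namespace Pool.Agent.helper74.LG

open Complex Set Filter Topology MeasureTheory

theorem FR_den {w : ℂ} {ε : ℝ} (hε : 0 < ε) (hw : |w.im| ≤ Real.pi - ε) {s : ℝ} (hs : 0 ≤ s) :
    Real.sin (ε / 2) * (1 + s * ‖exp w‖) ≤ ‖1 + (s : ℂ) * exp w‖ := by
  have hεπ : ε ≤ Real.pi := by linarith [abs_nonneg w.im]
  have hsin : 0 ≤ Real.sin (ε / 2) :=
    Real.sin_nonneg_of_nonneg_of_le_pi (by linarith) (by linarith)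
  have hcos : -Real.cos ε ≤ Real.cos w.im := by
    rw [← Real.cos_abs w.im, ← Real.cos_pi_sub]
    exact Real.cos_le_cos_of_nonneg_of_le_pi (abs_nonneg _) (by linarith) hw
  have hr : 0 < ‖exp w‖ := norm_pos_iff.2 (exp_ne_zero w)
  have hx : 0 ≤ s * ‖exp w‖ := mul_nonneg hs hr.le
  apply abs_le_of_sq_le_sq' _ (norm_nonneg _) |>.2
  rw [← normSq_eq_norm_sq, normSq_apply]
  have hre : (1 + (s : ℂ) * exp w).re = 1 + s * ‖exp w‖ * Real.cos w.im := by
    simp [exp_re, norm_exp]; ring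
  have him : (1 + (s : ℂ) * exp w).im = s * ‖exp w‖ * Real.sin w.im := by
    simp [exp_im, norm_exp]; ring
  rw [hre, him]
  set x := s * ‖exp w‖ with hxdef
  have h1 : Real.sin (ε / 2) ^ 2 = (1 - Real.cos ε) / 2 := by
    have := Real.cos_sq (ε / 2)
    have h2 := Real.sin_sq_add_cos_sq (ε / 2)
    have h3 : 2 * (ε / 2) = ε := by ring
    rw [h3] at this
    linarith
  have h4 : Real.sin w.im ^ 2 = 1 - Real.cos w.im ^ 2 := by
    have := Real.sin_sq_add_cos_sq w.im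
    linarith
  have h5 : (1 + x * Real.cos w.im) * (1 + x * Real.cos w.im) + x * Real.sin w.im *
      (x * Real.sin w.im) = 1 + 2 * x * Real.cos w.im + x ^ 2 := by
    have : x * Real.sin w.im * (x * Real.sin w.im) = x ^ 2 * Real.sin w.im ^ 2 := by ring
    rw [this, h4]
    ring
  rw [h5, mul_pow, h1]
  have h6 : 0 ≤ (1 + Real.cos ε) / 2 * (1 - x) ^ 2 := by
    have := Real.neg_one_le_cos ε
    have : 0 ≤ 1 + Real.cos ε := by linarith
    positivity
  nlinarith [mul_le_mul_of_nonneg_left hcos hx]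

theorem FR_slit {w : ℂ} (hw : |w.im| < Real.pi) {s : ℝ} (hs : 0 ≤ s) :
    1 + (s : ℂ) * exp w ∈ slitPlane := by
  rw [mem_slitPlane_iff]
  by_contra h
  push Not at h
  obtain ⟨h1, h2⟩ := h
  have hre : (1 + (s : ℂ) * exp w).re = 1 + s * (Real.exp w.re * Real.cos w.im) := by
    simp [exp_re]
  have him : (1 + (s : ℂ) * exp w).im = s * (Real.exp w.re * Real.sin w.im) := by
    simp [exp_im]
  rw [hre] at h1
  rw [him] at h2
  have hE := Real.exp_pos w.re
  have hs0 : s ≠ 0 := by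
    rintro rfl
    simp at h1
    linarith
  have hsin : Real.sin w.im = 0 := by
    rcases mul_eq_zero.1 h2 with h | h
    · exact absurd h hs0
    · rcases mul_eq_zero.1 h with h | h
      · exact absurd h hE.ne'
      · exact h
  rw [abs_lt] at hw
  have h0 : w.im = 0 := (Real.sin_eq_zero_iff_of_lt_of_lt hw.1 hw.2).1 hsin
  rw [h0] at h1
  simp at h1
  have : 0 ≤ s * Real.exp w.re := mul_nonneg hs hE.le
  linarith

theorem FR_step {w : ℂ} {ε : ℝ} (hε : 0 < ε) (hw : |w.im| ≤ Real.pi - ε) {R : ℝ}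
    (hR : ‖exp w‖ ≤ R) {s₁ s₂ : ℝ} (h1 : 0 ≤ s₁) (h2 : s₁ ≤ s₂) :
    ‖log (1 + (s₂ : ℂ) * exp w) - log (1 + (s₁ : ℂ) * exp w)‖ ≤
      (1 / Real.sin (ε / 2)) * (Real.log (1 + s₂ * R) - Real.log (1 + s₁ * R)) := by
  have hεπ : ε ≤ Real.pi := by linarith [abs_nonneg w.im]
  have hsin : 0 < Real.sin (ε / 2) :=
    Real.sin_pos_of_pos_of_lt_pi (by linarith) (by linarith [Real.pi_pos])
  have hw' : |w.im| < Real.pi := by linarith
  have hr : 0 < ‖exp w‖ := norm_pos_iff.2 (exp_ne_zero w)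
  have hR0 : 0 < R := lt_of_lt_of_le hr hR
  have hder : ∀ x : ℝ, 0 ≤ x → HasDerivAt
      (fun x : ℝ => log (1 + (x : ℂ) * exp w) - log (1 + (s₁ : ℂ) * exp w))
      (exp w / (1 + (x : ℂ) * exp w)) x := by
    intro x hx
    have ha : HasDerivAt (fun x : ℝ => 1 + (x : ℂ) * exp w) (exp w) x := by
      have := ((Complex.ofRealCLM.hasDerivAt (x := x)).mul_const (exp w)).const_add 1
      simpa using this
    have hb := ha.clog_real (FR_slit hw' hx)
    simpa using hb.sub_const (log (1 + (s₁ : ℂ) * exp w))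
  have hderB : ∀ x : ℝ, 0 ≤ x → HasDerivAt
      (fun x : ℝ => (1 / Real.sin (ε / 2)) * (Real.log (1 + x * R) - Real.log (1 + s₁ * R)))
      ((1 / Real.sin (ε / 2)) * (R / (1 + x * R))) x := by
    intro x hx
    have hne : 1 + x * R ≠ 0 := by positivity
    have ha : HasDerivAt (fun x : ℝ => 1 + x * R) R x := by
      simpa using ((hasDerivAt_id x).mul_const R).const_add 1
    exact ((ha.log hne).sub_const _).const_mul _
  refine image_norm_le_of_norm_deriv_right_le_deriv_boundary' (a := s₁) (b := s₂)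
    (f := fun x : ℝ => log (1 + (x : ℂ) * exp w) - log (1 + (s₁ : ℂ) * exp w))
    (f' := fun x : ℝ => exp w / (1 + (x : ℂ) * exp w))
    (B := fun x : ℝ => (1 / Real.sin (ε / 2)) * (Real.log (1 + x * R) - Real.log (1 + s₁ * R)))
    (B' := fun x : ℝ => (1 / Real.sin (ε / 2)) * (R / (1 + x * R))) ?_ ?_ ?_ ?_ ?_ ?_
    (right_mem_Icc.2 h2)
  · intro x hx
    exact (hder x (h1.trans hx.1)).continuousAt.continuousWithinAt
  · intro x hx
    exact (hder x (h1.trans hx.1)).hasDerivWithinAt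
  · simp
  · intro x hx
    exact (hderB x (h1.trans hx.1)).continuousAt.continuousWithinAt
  · intro x hx
    exact (hderB x (h1.trans hx.1)).hasDerivWithinAt
  · intro x hx
    have hx0 : 0 ≤ x := h1.trans hx.1
    have hd := FR_den hε hw hx0
    have hp1 : 0 < 1 + x * ‖exp w‖ := by positivity
    have hp2 : 0 < 1 + x * R := by positivity
    rw [norm_div, div_le_iff₀ (lt_of_lt_of_le (mul_pos hsin hp1) hd)]
    calc ‖exp w‖ = (1 / Real.sin (ε / 2)) * (‖exp w‖ / (1 + x * ‖exp w‖)) *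
          (Real.sin (ε / 2) * (1 + x * ‖exp w‖)) := by
            field_simp
      _ ≤ (1 / Real.sin (ε / 2)) * (R / (1 + x * R)) * ‖1 + (x : ℂ) * exp w‖ := by
            apply mul_le_mul _ hd (by positivity) (by positivity)
            apply mul_le_mul_of_nonneg_left _ (by positivity)
            rw [div_le_div_iff₀ hp1 hp2]
            nlinarith

theorem FR_tt_pos {ρ x : ℝ} (hx : 0 < x) : 0 < tt ρ x := Real.rpow_pos_of_pos hx _

theorem FR_tt_mono {ρ : ℝ} (hρ : 1 < ρ) {x y : ℝ} (hx : 0 < x) (hxy : x ≤ y) :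
    (tt ρ y)⁻¹ ≤ (tt ρ x)⁻¹ :=
  inv_anti₀ (FR_tt_pos hx) (Real.rpow_le_rpow hx.le hxy (by positivity))

/-- the real comparison function -/
noncomputable def FR_g (ρ R x : ℝ) : ℝ := Real.log (1 + (tt ρ x)⁻¹ * R)

theorem FR_eq (ρ x : ℝ) (w : ℂ) : exp w / (tt ρ x : ℂ) = (((tt ρ x)⁻¹ : ℝ) : ℂ) * exp w := by
  push_cast
  rw [div_eq_inv_mul]

theorem FR_diff {ρ : ℝ} (hρ : 1 < ρ) {w : ℂ} {ε : ℝ} (hε : 0 < ε) (hw : |w.im| ≤ Real.pi - ε)
    {R : ℝ} (hR : ‖exp w‖ ≤ R) {x y : ℝ} (hx : 0 < x) (hxy : x ≤ y) :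
    ‖log (1 + exp w / tt ρ x) - log (1 + exp w / tt ρ y)‖ ≤
      (1 / Real.sin (ε / 2)) * (FR_g ρ R x - FR_g ρ R y) := by
  rw [FR_eq, FR_eq]
  exact FR_step hε hw hR (inv_nonneg.2 (FR_tt_pos (hx.trans_le hxy)).le) (FR_tt_mono hρ hx hxy)

theorem FR_abs {ρ : ℝ} {w : ℂ} {ε : ℝ} (hε : 0 < ε) (hw : |w.im| ≤ Real.pi - ε)
    {R : ℝ} (hR : ‖exp w‖ ≤ R) {x : ℝ} (hx : 0 < x) :
    ‖log (1 + exp w / tt ρ x)‖ ≤ (1 / Real.sin (ε / 2)) * FR_g ρ R x := by
  rw [FR_eq]
  have := FR_step hε hw hR (le_refl 0) (inv_nonneg.2 (FR_tt_pos (ρ := ρ) hx).le)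
  simpa [FR_g] using this

theorem FR_g_le {ρ : ℝ} (hρ : 1 < ρ) {R : ℝ} (hR : 0 ≤ R) {x : ℝ} (hx : 0 < x) :
    FR_g ρ R x ≤ Real.log (1 + R) + |Real.log x| := by
  unfold FR_g
  have h0 : (tt ρ x)⁻¹ ≤ Real.exp |Real.log x| := by
    unfold tt
    rw [← Real.rpow_neg hx.le, Real.rpow_def_of_pos hx]
    apply Real.exp_le_exp.2
    have h1 : -(1 / ρ) * Real.log x ≤ (1 / ρ) * |Real.log x| := by
      have := neg_abs_le (Real.log x)
      have h2 : 0 < 1 / ρ := by positivity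
      nlinarith
    have h3 : 1 / ρ ≤ 1 := by
      rw [div_le_one (by linarith)]
      exact hρ.le
    nlinarith [abs_nonneg (Real.log x)]
  have h1 : (1 : ℝ) ≤ Real.exp |Real.log x| := Real.one_le_exp (abs_nonneg _)
  have h2 : 1 + (tt ρ x)⁻¹ * R ≤ (1 + R) * Real.exp |Real.log x| := by nlinarith
  have h3 : 0 < 1 + (tt ρ x)⁻¹ * R := by
    have := (inv_pos.2 (FR_tt_pos (ρ := ρ) hx)).le
    positivity
  calc Real.log (1 + (tt ρ x)⁻¹ * R) ≤ Real.log ((1 + R) * Real.exp |Real.log x|) :=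
        Real.log_le_log h3 h2
    _ = Real.log (1 + R) + |Real.log x| := by
        rw [Real.log_mul (by positivity) (Real.exp_pos _).ne', Real.log_exp]

theorem FR_g_nonneg {ρ : ℝ} {R : ℝ} (hR : 0 ≤ R) {x : ℝ} (hx : 0 < x) :
    0 ≤ FR_g ρ R x := by
  unfold FR_g
  apply Real.log_nonneg
  have := mul_nonneg (inv_pos.2 (FR_tt_pos (ρ := ρ) hx)).le hR
  linarith

theorem FR_g_anti {ρ : ℝ} (hρ : 1 < ρ) {R : ℝ} (hR : 0 ≤ R) {x y : ℝ} (hx : 0 < x)
    (hxy : x ≤ y) : FR_g ρ R y ≤ FR_g ρ R x := by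
  unfold FR_g
  have h1 := FR_tt_mono hρ hx hxy
  have h2 := mul_nonneg (inv_pos.2 (FR_tt_pos (ρ := ρ) (hx.trans_le hxy))).le hR
  apply Real.log_le_log (by linarith)
  nlinarith

theorem FR_cont_tt {ρ : ℝ} : ContinuousOn (fun x : ℝ => ((tt ρ x : ℝ) : ℂ)) (Ioi 0) := by
  intro x hx
  apply ContinuousAt.continuousWithinAt
  unfold tt
  exact Complex.continuous_ofReal.continuousAt.comp
    (Real.continuousAt_rpow_const x (1 / ρ) (Or.inl (ne_of_gt hx)))

theorem FR_cont {ρ : ℝ} {w : ℂ} (hw : |w.im| < Real.pi) :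
    ContinuousOn (fun x : ℝ => log (1 + exp w / tt ρ x)) (Ioi 0) := by
  have h1 : ContinuousOn (fun x : ℝ => 1 + exp w / tt ρ x) (Ioi 0) := by
    refine continuousOn_const.add (continuousOn_const.div FR_cont_tt ?_)
    intro x hx
    exact_mod_cast (FR_tt_pos (ρ := ρ) hx).ne'
  refine h1.clog ?_
  intro x hx
  rw [FR_eq]
  exact FR_slit hw (inv_nonneg.2 (FR_tt_pos hx).le)

theorem FR_aesm {f : ℝ → ℂ} (hf : ContinuousOn f (Ioi 0)) {a b : ℝ} (ha : 0 ≤ a) (hab : a ≤ b) :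
    AEStronglyMeasurable f (volume.restrict (Set.uIoc a b)) := by
  rw [uIoc_of_le hab]
  refine (hf.mono ?_).aestronglyMeasurable measurableSet_Ioc
  intro x hx
  exact lt_of_le_of_lt ha hx.1

theorem FR_log_ii (a b : ℝ) : IntervalIntegrable (fun x : ℝ => |Real.log x|) volume a b :=
  intervalIntegral.intervalIntegrable_log'.norm

theorem FR_ii {ρ : ℝ} (hρ : 1 < ρ) {w : ℂ} (hw : |w.im| < Real.pi) {a b : ℝ} (ha : 0 ≤ a)
    (hab : a ≤ b) :
    IntervalIntegrable (fun x : ℝ => log (1 + exp w / tt ρ x)) volume a b := by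
  have hε : 0 < Real.pi - |w.im| := by linarith
  have hb : IntervalIntegrable (fun x : ℝ => (1 / Real.sin ((Real.pi - |w.im|) / 2)) *
      (Real.log (1 + ‖exp w‖) + |Real.log x|)) volume a b := by
    apply IntervalIntegrable.const_mul
    exact intervalIntegrable_const.add intervalIntegral.intervalIntegrable_log'.norm
  refine hb.mono_fun' (FR_aesm (FR_cont hw) ha hab) ?_
  rw [uIoc_of_le hab]
  filter_upwards [ae_restrict_mem measurableSet_Ioc] with x hx
  have hx0 : 0 < x := lt_of_le_of_lt ha hx.1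
  have hsin : 0 < Real.sin ((Real.pi - |w.im|) / 2) :=
    Real.sin_pos_of_pos_of_lt_pi (by linarith) (by linarith [Real.pi_pos, abs_nonneg w.im])
  refine (FR_abs (ρ := ρ) hε (by linarith) (le_refl ‖exp w‖) hx0).trans ?_
  exact mul_le_mul_of_nonneg_left (FR_g_le hρ (norm_nonneg _) hx0) (by positivity)

theorem FR_rn_succ {ρ : ℝ} (hρ : 1 < ρ) {w : ℂ} {ε : ℝ} (hε : 0 < ε)
    (hw : |w.im| ≤ Real.pi - ε) {R : ℝ} (hR : ‖exp w‖ ≤ R) (n : ℕ) :
    ‖rn ρ (n + 1) w‖ ≤
      (1 / Real.sin (ε / 2)) * (FR_g ρ R (n + 1) - FR_g ρ R (n + 1 + 1)) := by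
  have hw' : |w.im| < Real.pi := by linarith
  have hsin : 0 < Real.sin (ε / 2) :=
    Real.sin_pos_of_pos_of_lt_pi (by linarith) (by linarith [Real.pi_pos, abs_nonneg w.im])
  have hn : (0 : ℝ) < n + 1 := by positivity
  have h1 : rn ρ (n + 1) w = -∫ x in ((n : ℝ) + 1)..(n + 1 + 1),
      (log (1 + exp w / tt ρ x) - log (1 + exp w / tt ρ (n + 1 + 1))) := by
    unfold rn
    rw [intervalIntegral.integral_sub (FR_ii hρ hw' hn.le (by linarith))
      intervalIntegrable_const]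
    rw [intervalIntegral.integral_const]
    push_cast
    simp
  rw [h1, norm_neg]
  have h2 : ∀ x ∈ Set.uIoc ((n : ℝ) + 1) (n + 1 + 1),
      ‖log (1 + exp w / tt ρ x) - log (1 + exp w / tt ρ (n + 1 + 1))‖ ≤
      (1 / Real.sin (ε / 2)) * (FR_g ρ R (n + 1) - FR_g ρ R (n + 1 + 1)) := by
    intro x hx
    rw [uIoc_of_le (by linarith)] at hx
    refine (FR_diff hρ hε hw hR (hn.trans hx.1) hx.2).trans ?_
    apply mul_le_mul_of_nonneg_left _ (by positivity)
    have := FR_g_anti hρ ((norm_nonneg _).trans hR) hn hx.1.le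
    linarith
  have h3 := intervalIntegral.norm_integral_le_of_norm_le_const h2
  simpa using h3

/-- the majorant -/
noncomputable def FR_u (ρ c R : ℝ) : ℕ → ℝ
  | 0 => c * (2 * Real.log (1 + R) + ∫ x in (0 : ℝ)..1, |Real.log x|)
  | (n + 1) => c * (FR_g ρ R (n + 1) - FR_g ρ R (n + 1 + 1))

theorem FR_rn_zero {ρ : ℝ} (hρ : 1 < ρ) {w : ℂ} {ε : ℝ} (hε : 0 < ε)
    (hw : |w.im| ≤ Real.pi - ε) {R : ℝ} (hR : ‖exp w‖ ≤ R) :
    ‖rn ρ 0 w‖ ≤ (1 / Real.sin (ε / 2)) *
      (2 * Real.log (1 + R) + ∫ x in (0 : ℝ)..1, |Real.log x|) := by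
  have hw' : |w.im| < Real.pi := by linarith
  have hsin : 0 < Real.sin (ε / 2) :=
    Real.sin_pos_of_pos_of_lt_pi (by linarith) (by linarith [Real.pi_pos, abs_nonneg w.im])
  have hR0 : 0 ≤ R := (norm_nonneg _).trans hR
  unfold rn
  refine (norm_sub_le _ _).trans ?_
  have h1 : ‖log (1 + exp w / tt ρ (((0 : ℕ) : ℝ) + 1))‖ ≤
      (1 / Real.sin (ε / 2)) * Real.log (1 + R) := by
    refine (FR_abs hε hw hR (by norm_num)).trans (le_of_eq ?_)
    simp [FR_g, tt]
  have h2 : ‖∫ x in (((0 : ℕ) : ℝ))..(((0 : ℕ) : ℝ) + 1), log (1 + exp w / tt ρ x)‖ ≤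
      (1 / Real.sin (ε / 2)) * (Real.log (1 + R) + ∫ x in (0 : ℝ)..1, |Real.log x|) := by
    have h3 := intervalIntegral.norm_integral_le_of_norm_le (μ := volume) (a := 0) (b := 1)
      (f := fun x : ℝ => log (1 + exp w / tt ρ x))
      (g := fun x : ℝ => (1 / Real.sin (ε / 2)) * (Real.log (1 + R) + |Real.log x|))
      zero_le_one (by
        refine Eventually.of_forall fun x hx => ?_
        refine (FR_abs hε hw hR hx.1).trans ?_
        exact mul_le_mul_of_nonneg_left (FR_g_le hρ hR0 hx.1) (by positivity))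
      (by
        apply IntervalIntegrable.const_mul
        exact intervalIntegrable_const.add intervalIntegral.intervalIntegrable_log'.norm)
    rw [intervalIntegral.integral_const_mul, intervalIntegral.integral_add
      intervalIntegrable_const (FR_log_ii 0 1),
      intervalIntegral.integral_const] at h3
    simpa using h3
  calc _ ≤ (1 / Real.sin (ε / 2)) * Real.log (1 + R) +
      (1 / Real.sin (ε / 2)) * (Real.log (1 + R) + ∫ x in (0 : ℝ)..1, |Real.log x|) :=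
        add_le_add h1 h2
    _ = _ := by ring

theorem FR_rn_le {ρ : ℝ} (hρ : 1 < ρ) {w : ℂ} {ε : ℝ} (hε : 0 < ε)
    (hw : |w.im| ≤ Real.pi - ε) {R : ℝ} (hR : ‖exp w‖ ≤ R) (n : ℕ) :
    ‖rn ρ n w‖ ≤ FR_u ρ (1 / Real.sin (ε / 2)) R n := by
  cases n with
  | zero => exact FR_rn_zero hρ hε hw hR
  | succ n => exact FR_rn_succ hρ hε hw hR n

theorem FR_u_nonneg {ρ : ℝ} (hρ : 1 < ρ) {c R : ℝ} (hc : 0 ≤ c) (hR : 0 ≤ R) (n : ℕ) :
    0 ≤ FR_u ρ c R n := by
  cases n with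
  | zero =>
    have h1 : 0 ≤ Real.log (1 + R) := Real.log_nonneg (by linarith)
    have h2 : 0 ≤ ∫ x in (0 : ℝ)..1, |Real.log x| :=
      intervalIntegral.integral_nonneg zero_le_one fun x _ => abs_nonneg _
    unfold FR_u
    positivity
  | succ n =>
    have := FR_g_anti (ρ := ρ) hρ hR (x := (n : ℝ) + 1) (y := n + 1 + 1) (by positivity)
      (by linarith)
    exact mul_nonneg hc (by linarith)

theorem FR_u_sum {ρ : ℝ} {c R : ℝ} (hc : 0 ≤ c) (hR : 0 ≤ R) (n : ℕ) :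
    ∑ i ∈ Finset.range n, FR_u ρ c R i ≤
      c * (3 * Real.log (1 + R) + ∫ x in (0 : ℝ)..1, |Real.log x|) := by
  have h1 : 0 ≤ Real.log (1 + R) := Real.log_nonneg (by linarith)
  have h2 : 0 ≤ ∫ x in (0 : ℝ)..1, |Real.log x| :=
    intervalIntegral.integral_nonneg zero_le_one fun x _ => abs_nonneg _
  cases n with
  | zero =>
    rw [Finset.range_zero, Finset.sum_empty]
    positivity
  | succ n =>
    have h3 : ∑ i ∈ Finset.range (n + 1), FR_u ρ c R i =
        c * (2 * Real.log (1 + R) + ∫ x in (0 : ℝ)..1, |Real.log x|) +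
          c * (FR_g ρ R 1 - FR_g ρ R (n + 1)) := by
      induction n with
      | zero => simp [FR_u]
      | succ n ih =>
        rw [Finset.sum_range_succ, ih]
        simp only [FR_u]
        push_cast
        ring
    have h4 : FR_g ρ R 1 = Real.log (1 + R) := by simp [FR_g, tt]
    have h5 := FR_g_nonneg (ρ := ρ) hR (x := (n : ℝ) + 1) (by positivity)
    rw [h3, h4]
    nlinarith

theorem FR_u_summable {ρ : ℝ} (hρ : 1 < ρ) {c R : ℝ} (hc : 0 ≤ c) (hR : 0 ≤ R) :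
    Summable (FR_u ρ c R) :=
  summable_of_sum_range_le (FR_u_nonneg hρ hc hR) (FR_u_sum hc hR)

theorem FR_den' {w : ℂ} {ε : ℝ} (hε : 0 < ε) (hw : |w.im| ≤ Real.pi - ε) {s : ℝ} (hs : 0 ≤ s) :
    ‖(s : ℂ) * exp w / (1 + (s : ℂ) * exp w)‖ ≤ 1 / Real.sin (ε / 2) := by
  have hsin : 0 < Real.sin (ε / 2) :=
    Real.sin_pos_of_pos_of_lt_pi (by linarith) (by linarith [Real.pi_pos, abs_nonneg w.im])
  have hd := FR_den hε hw hs
  have hn := norm_nonneg (exp w)
  have hp1 : 0 < 1 + s * ‖exp w‖ := by positivity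
  have hn1 : ‖(s : ℂ) * exp w‖ = s * ‖exp w‖ := by
    rw [norm_mul, Complex.norm_real, Real.norm_of_nonneg hs]
  rw [norm_div, hn1, div_le_div_iff₀ (lt_of_lt_of_le (mul_pos hsin hp1) hd) hsin]
  nlinarith [mul_nonneg hs hn]

theorem FR_rn_diff {ρ : ℝ} (hρ : 1 < ρ) (n : ℕ) :
    DifferentiableOn ℂ (rn ρ n) {w : ℂ | |w.im| < Real.pi} := by
  intro w₀ hw₀
  have hw₀' : |w₀.im| < Real.pi := hw₀
  apply DifferentiableAt.differentiableWithinAt
  have hlog : ∀ x : ℝ, 0 < x → ∀ w : ℂ, |w.im| < Real.pi →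
      HasDerivAt (fun w : ℂ => log (1 + exp w / tt ρ x))
        ((((tt ρ x)⁻¹ : ℝ) : ℂ) * exp w / (1 + (((tt ρ x)⁻¹ : ℝ) : ℂ) * exp w)) w := by
    intro x hx w hw
    have h1 : HasDerivAt (fun w : ℂ => 1 + (((tt ρ x)⁻¹ : ℝ) : ℂ) * exp w)
        ((((tt ρ x)⁻¹ : ℝ) : ℂ) * exp w) w :=
      ((Complex.hasDerivAt_exp w).const_mul _).const_add 1
    have h2 := h1.clog (FR_slit hw (inv_nonneg.2 (FR_tt_pos (ρ := ρ) hx).le))
    refine h2.congr_of_eventuallyEq (Eventually.of_forall fun v => ?_)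
    simp only [FR_eq]
  set ε : ℝ := (Real.pi - |w₀.im|) / 2 with hεdef
  have hε : 0 < ε := by rw [hεdef]; linarith
  have hS : {w : ℂ | |w.im| < Real.pi - ε} ∈ 𝓝 w₀ := by
    apply IsOpen.mem_nhds
    · exact isOpen_lt (by fun_prop) continuous_const
    · show |w₀.im| < Real.pi - ε
      rw [hεdef]
      linarith
  have hn0 : (0 : ℝ) ≤ n := Nat.cast_nonneg n
  have hint := intervalIntegral.hasDerivAt_integral_of_dominated_loc_of_deriv_le
    (μ := volume) (a := (n : ℝ)) (b := n + 1) (x₀ := w₀)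
    (F := fun (w : ℂ) (x : ℝ) => log (1 + exp w / tt ρ x))
    (F' := fun (w : ℂ) (x : ℝ) =>
      (((tt ρ x)⁻¹ : ℝ) : ℂ) * exp w / (1 + (((tt ρ x)⁻¹ : ℝ) : ℂ) * exp w))
    (bound := fun _ => 1 / Real.sin (ε / 2)) hS ?_ ?_ ?_ ?_ ?_ ?_
  · have h1 := hlog (n + 1) (by positivity) w₀ hw₀'
    unfold rn
    exact h1.differentiableAt.sub hint.2.differentiableAt
  · filter_upwards [hS] with w hw
    exact FR_aesm (FR_cont (lt_trans hw (by linarith))) hn0 (by linarith)
  · exact FR_ii hρ hw₀' hn0 (by linarith)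
  · apply FR_aesm _ hn0 (by linarith)
    have hc : ContinuousOn (fun x : ℝ => (((tt ρ x)⁻¹ : ℝ) : ℂ) * exp w₀) (Ioi 0) := by
      refine ContinuousOn.mul ?_ continuousOn_const
      have := (FR_cont_tt (ρ := ρ)).inv₀ (fun x hx => by
        exact_mod_cast (FR_tt_pos (ρ := ρ) hx).ne')
      refine this.congr fun x _ => ?_
      push_cast
      rfl
    refine hc.div (continuousOn_const.add hc) ?_
    intro x hx
    exact slitPlane_ne_zero (FR_slit hw₀' (inv_nonneg.2 (FR_tt_pos (ρ := ρ) hx).le))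
  · refine Eventually.of_forall fun x hx w hw => ?_
    rw [uIoc_of_le (by linarith)] at hx
    have hx0 : 0 < x := lt_of_le_of_lt hn0 hx.1
    exact FR_den' hε (le_of_lt hw) (inv_nonneg.2 (FR_tt_pos hx0).le)
  · exact intervalIntegrable_const
  · refine Eventually.of_forall fun x hx w hw => ?_
    rw [uIoc_of_le (by linarith)] at hx
    have hx0 : 0 < x := lt_of_le_of_lt hn0 hx.1
    exact hlog x hx0 w (lt_trans hw (by linarith))

/-- The remainder: `|log (1+z/t_n) - log (1 + z/t(x))| ≤ C ∫_{t(x)}^{t_n} |z| / (t (t + |z|)) dt`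
for `|arg z| ≤ π - ε`, so the sum over `n ≥ 1` is `≤ C log (1 + |z|)`; the term `n = 0` is
`O (1 + log |z|)`. -/
theorem rn_facts (ρ : ℝ) (hρ : 1 < ρ) :
    (∀ w : ℂ, |w.im| < Real.pi → Summable (fun n => rn ρ n w)) ∧
    DifferentiableOn ℂ (fun w => ∑' n, rn ρ n w) {w : ℂ | |w.im| < Real.pi} ∧
    ∀ ε : ℝ, 0 < ε → ∃ C : ℝ, 0 < C ∧ ∀ w : ℂ, 0 ≤ w.re → |w.im| ≤ Real.pi - ε →
      ‖∑' n, rn ρ n w‖ ≤ C * (1 + w.re) := by
  refine ⟨?_, ?_, ?_⟩
  · intro w hw
    have hε : 0 < Real.pi - |w.im| := by linarith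
    have hsin : 0 < Real.sin ((Real.pi - |w.im|) / 2) :=
      Real.sin_pos_of_pos_of_lt_pi (by linarith) (by linarith [Real.pi_pos, abs_nonneg w.im])
    refine Summable.of_norm_bounded (FR_u_summable hρ
      (c := 1 / Real.sin ((Real.pi - |w.im|) / 2)) (by positivity) (norm_nonneg (exp w))) ?_
    intro n
    exact FR_rn_le hρ hε (by linarith) le_rfl n
  · intro w₀ hw₀
    have hw₀' : |w₀.im| < Real.pi := hw₀
    set ε : ℝ := (Real.pi - |w₀.im|) / 2 with hεdef
    have hε : 0 < ε := by rw [hεdef]; linarith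
    have hsin : 0 < Real.sin (ε / 2) := by
      apply Real.sin_pos_of_pos_of_lt_pi (by linarith)
      rw [hεdef]
      linarith [Real.pi_pos, abs_nonneg w₀.im]
    set U : Set ℂ := {w : ℂ | |w.im| < Real.pi - ε ∧ ‖exp w‖ < ‖exp w₀‖ + 1} with hU
    have hUo : IsOpen U := by
      have hU1 : IsOpen {w : ℂ | |w.im| < Real.pi - ε} := isOpen_lt (by fun_prop) continuous_const
      have hU2 : IsOpen {w : ℂ | ‖exp w‖ < ‖exp w₀‖ + 1} :=
        isOpen_lt (by fun_prop) continuous_const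
      exact hU1.inter hU2
    have hmem : w₀ ∈ U := by
      refine ⟨?_, by linarith⟩
      rw [hεdef]
      linarith
    have hd := differentiableOn_tsum_of_summable_norm (U := U) (F := fun n => rn ρ n)
      (FR_u_summable hρ (c := 1 / Real.sin (ε / 2)) (R := ‖exp w₀‖ + 1) (by positivity)
        (by positivity))
      (fun n => (FR_rn_diff hρ n).mono fun w hw => lt_trans hw.1 (by linarith)) hUo
      (fun n w hw => FR_rn_le hρ hε hw.1.le hw.2.le n)
    exact ((hd w₀ hmem).differentiableAt (hUo.mem_nhds hmem)).differentiableWithinAt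
  · intro ε hε
    by_cases hεπ : ε ≤ Real.pi
    · have hsin : 0 < Real.sin (ε / 2) :=
        Real.sin_pos_of_pos_of_lt_pi (by linarith) (by linarith [Real.pi_pos])
      set c := 1 / Real.sin (ε / 2) with hc
      have hc0 : 0 < c := by positivity
      set J : ℝ := ∫ x in (0 : ℝ)..1, |Real.log x| with hJ
      have hJ0 : 0 ≤ J := intervalIntegral.integral_nonneg zero_le_one fun x _ => abs_nonneg _
      refine ⟨c * (3 + J), by positivity, fun w hw hwi => ?_⟩
      have hR : ‖exp w‖ = Real.exp w.re := norm_exp w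
      have hsm := FR_u_summable hρ hc0.le (norm_nonneg (exp w))
      have h1 : ‖∑' n, rn ρ n w‖ ≤ ∑' n, FR_u ρ c ‖exp w‖ n :=
        tsum_of_norm_bounded hsm.hasSum (fun n => FR_rn_le hρ hε hwi le_rfl n)
      have h2 : ∑' n, FR_u ρ c ‖exp w‖ n ≤ c * (3 * Real.log (1 + ‖exp w‖) + J) :=
        Real.tsum_le_of_sum_range_le (FR_u_nonneg hρ hc0.le (norm_nonneg _))
          (FR_u_sum hc0.le (norm_nonneg _))
      have h3 : Real.log (1 + ‖exp w‖) ≤ 1 + w.re := by
        rw [hR]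
        have h4 : 1 + Real.exp w.re ≤ Real.exp (1 + w.re) := by
          rw [Real.exp_add]
          have h5 : (2 : ℝ) ≤ Real.exp 1 := by
            have := Real.add_one_le_exp (1 : ℝ)
            linarith
          have h6 := Real.one_le_exp hw
          nlinarith
        calc Real.log (1 + Real.exp w.re) ≤ Real.log (Real.exp (1 + w.re)) :=
              Real.log_le_log (by positivity) h4
          _ = _ := Real.log_exp _
      refine (h1.trans h2).trans ?_
      rw [mul_assoc]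
      apply mul_le_mul_of_nonneg_left _ hc0.le
      nlinarith
    · refine ⟨1, one_pos, fun w _ hwi => ?_⟩
      have := abs_nonneg w.im
      linarith

end Pool.Agent.helper74.LG

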