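import Pool.Agent.helper74.LG.FE

set_option autoImplicit false

namespace Pool.Agent.helper74.LG

open Complex Set Filter Topology MeasureTheory

/-! ### Power sums -/

theorem FU_S1 {a : ℝ} (ha0 : 0 < a) (ha1 : a < 1) {N : ℝ} (hN : 0 < N) (n : ℕ) :
    ∑ i ∈ Finset.range n, (N / (i + 1)) ^ a ≤ N ^ a * (n : ℝ) ^ (1 - a) / (1 - a) := by
  have hc : 0 < 1 - a := by linarith
  induction n with
  | zero =>
    simp only [Finset.range_zero, Finset.sum_empty]
    have : (0 : ℝ) ≤ ((0 : ℕ) : ℝ) ^ (1 - a) := Real.rpow_nonneg (by simp) _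
    have h2 : 0 ≤ N ^ a := Real.rpow_nonneg hN.le _
    positivity
  | succ n ih =>
    rw [Finset.sum_range_succ]
    have hx : (0 : ℝ) < (n : ℝ) + 1 := by positivity
    have h1 : (N / ((n : ℝ) + 1)) ^ a = N ^ a * (((n : ℝ) + 1) ^ (1 - a) * (1 / ((n : ℝ) + 1))) := by
      rw [Real.div_rpow hN.le hx.le, Real.rpow_sub hx, Real.rpow_one]
      field_simp
    have hb : (n : ℝ) ^ (1 - a) ≤ ((n : ℝ) + 1) ^ (1 - a) * (1 - (1 - a) * (1 / ((n : ℝ) + 1))) := by
      have h2 := _root_.rpow_one_add_le_one_add_mul_self (s := -(1 / ((n : ℝ) + 1)))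
        (by
          rw [neg_le_neg_iff, div_le_one hx]
          linarith [Nat.cast_nonneg (α := ℝ) n]) hc.le (by linarith)
      have h3 : (n : ℝ) = ((n : ℝ) + 1) * (1 + -(1 / ((n : ℝ) + 1))) := by
        field_simp
        ring
      have h4 : (0 : ℝ) ≤ 1 + -(1 / ((n : ℝ) + 1)) := by
        have : 1 / ((n : ℝ) + 1) ≤ 1 := by
          rw [div_le_one hx]
          linarith [Nat.cast_nonneg (α := ℝ) n]
        linarith
      calc (n : ℝ) ^ (1 - a) = (((n : ℝ) + 1) * (1 + -(1 / ((n : ℝ) + 1)))) ^ (1 - a) := by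
            rw [← h3]
        _ = ((n : ℝ) + 1) ^ (1 - a) * (1 + -(1 / ((n : ℝ) + 1))) ^ (1 - a) :=
            Real.mul_rpow hx.le h4
        _ ≤ _ := by
            apply mul_le_mul_of_nonneg_left _ (Real.rpow_nonneg hx.le _)
            linarith
    rw [h1]
    push_cast
    have hNa : 0 < N ^ a := Real.rpow_pos_of_pos hN _
    rw [le_div_iff₀ hc] at ih ⊢
    nlinarith [mul_le_mul_of_nonneg_left hb hNa.le]

theorem FU_S2 {b : ℝ} (hb : 1 < b) {N : ℝ} (hN : 0 < N) {M : ℕ} (hM : 1 ≤ M) (n : ℕ) :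
    ∑ i ∈ Finset.range n, (N / (((M + i : ℕ) : ℝ) + 1)) ^ b ≤
      N ^ b * ((M : ℝ) ^ (1 - b) - ((M + n : ℕ) : ℝ) ^ (1 - b)) / (b - 1) := by
  have hc : 0 < b - 1 := by linarith
  induction n with
  | zero => simp
  | succ n ih =>
    rw [Finset.sum_range_succ]
    have hx' : (1 : ℝ) ≤ ((M + n : ℕ) : ℝ) := by
      exact_mod_cast (by omega : 1 ≤ M + n)
    set y : ℝ := ((M + n : ℕ) : ℝ) with hy
    have hx : (0 : ℝ) < y + 1 := by linarith
    have hy0 : 0 < y := by linarith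
    have h1 : (N / (y + 1)) ^ b = N ^ b * ((y + 1) ^ (1 - b) * (1 / (y + 1))) := by
      rw [Real.div_rpow hN.le hx.le, Real.rpow_sub hx, Real.rpow_one]
      field_simp
    have h2 : (y + 1) ^ (1 - b) * (1 + (b - 1) * (1 / (y + 1))) ≤ y ^ (1 - b) := by
      have h3 : y = (y + 1) * (y / (y + 1)) := by field_simp
      have h5 : 0 < y / (y + 1) := by positivity
      have h4 : 1 + (b - 1) * (1 / (y + 1)) ≤ (y / (y + 1)) ^ (1 - b) := by
        rw [Real.rpow_def_of_pos h5]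
        have h6 : Real.log (y / (y + 1)) ≤ y / (y + 1) - 1 := Real.log_le_sub_one_of_pos h5
        have h7 : y / (y + 1) - 1 = -(1 / (y + 1)) := by field_simp; ring
        rw [h7] at h6
        have h8 : (b - 1) * (1 / (y + 1)) ≤ Real.log (y / (y + 1)) * (1 - b) := by nlinarith
        calc 1 + (b - 1) * (1 / (y + 1)) ≤ Real.exp ((b - 1) * (1 / (y + 1))) := by
              have := Real.add_one_le_exp ((b - 1) * (1 / (y + 1)))
              linarith
          _ ≤ _ := Real.exp_le_exp.2 h8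
      calc (y + 1) ^ (1 - b) * (1 + (b - 1) * (1 / (y + 1)))
          ≤ (y + 1) ^ (1 - b) * (y / (y + 1)) ^ (1 - b) :=
            mul_le_mul_of_nonneg_left h4 (Real.rpow_nonneg hx.le _)
        _ = ((y + 1) * (y / (y + 1))) ^ (1 - b) := (Real.mul_rpow hx.le h5.le).symm
        _ = y ^ (1 - b) := by rw [← h3]
    have h9 : ((M + (n + 1) : ℕ) : ℝ) = y + 1 := by
      rw [hy]
      push_cast
      ring
    rw [h1, h9]
    have hNb : 0 < N ^ b := Real.rpow_pos_of_pos hN _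
    rw [le_div_iff₀ hc] at ih ⊢
    nlinarith [mul_le_mul_of_nonneg_left h2 hNb.le]

theorem FU_sum {a b : ℝ} (ha0 : 0 < a) (ha1 : a < 1) (hb : 1 < b) {N : ℝ} (hN : 1 ≤ N) (n : ℕ) :
    ∑ i ∈ Finset.range n, min ((N / ((i : ℝ) + 1)) ^ a) ((N / ((i : ℝ) + 1)) ^ b) ≤
      (2 / (1 - a) + 1 / (b - 1)) * N := by
  have hN0 : 0 < N := by linarith
  set M : ℕ := ⌈N⌉₊ with hM
  have hM1 : N ≤ M := Nat.le_ceil N
  have hM2 : (M : ℝ) < N + 1 := Nat.ceil_lt_add_one hN0.le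
  have hM3 : 1 ≤ M := by
    have : (1 : ℝ) ≤ M := by linarith
    exact_mod_cast this
  have hM0 : (0 : ℝ) < M := by linarith
  have hnn : ∀ i : ℕ, 0 ≤ min ((N / ((i : ℝ) + 1)) ^ a) ((N / ((i : ℝ) + 1)) ^ b) := by
    intro i
    exact le_min (Real.rpow_nonneg (by positivity) _) (Real.rpow_nonneg (by positivity) _)
  have h1 : ∑ i ∈ Finset.range n, min ((N / ((i : ℝ) + 1)) ^ a) ((N / ((i : ℝ) + 1)) ^ b) ≤
      ∑ i ∈ Finset.range (M + n), min ((N / ((i : ℝ) + 1)) ^ a) ((N / ((i : ℝ) + 1)) ^ b) := by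
    apply Finset.sum_le_sum_of_subset_of_nonneg
    · exact Finset.range_subset_range.2 (by omega)
    · intro i _ _
      exact hnn i
  refine h1.trans ?_
  rw [Finset.sum_range_add]
  have h2 : ∑ i ∈ Finset.range M, min ((N / ((i : ℝ) + 1)) ^ a) ((N / ((i : ℝ) + 1)) ^ b) ≤
      2 / (1 - a) * N := by
    refine (Finset.sum_le_sum fun i _ => min_le_left _ _).trans ?_
    refine (FU_S1 ha0 ha1 hN0 M).trans ?_
    have h3 : (M : ℝ) ^ (1 - a) ≤ 2 * N ^ (1 - a) := by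
      calc (M : ℝ) ^ (1 - a) ≤ (2 * N) ^ (1 - a) :=
            Real.rpow_le_rpow hM0.le (by linarith) (by linarith)
        _ = 2 ^ (1 - a) * N ^ (1 - a) := Real.mul_rpow (by norm_num) hN0.le
        _ ≤ 2 * N ^ (1 - a) := by
            apply mul_le_mul_of_nonneg_right _ (Real.rpow_nonneg hN0.le _)
            calc (2 : ℝ) ^ (1 - a) ≤ 2 ^ (1 : ℝ) :=
                  Real.rpow_le_rpow_of_exponent_le (by norm_num) (by linarith)
              _ = 2 := Real.rpow_one 2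
    have h4 : N ^ a * N ^ (1 - a) = N := by
      rw [← Real.rpow_add hN0]
      simp
    have hNa : 0 < N ^ a := Real.rpow_pos_of_pos hN0 _
    have h1a : 0 < 1 - a := by linarith
    rw [div_mul_eq_mul_div, div_le_div_iff_of_pos_right h1a]
    nlinarith [mul_le_mul_of_nonneg_left h3 hNa.le]
  have h5 : ∑ i ∈ Finset.range n, min ((N / (((M + i : ℕ) : ℝ) + 1)) ^ a)
      ((N / (((M + i : ℕ) : ℝ) + 1)) ^ b) ≤ 1 / (b - 1) * N := by
    refine (Finset.sum_le_sum fun i _ => min_le_right _ _).trans ?_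
    refine (FU_S2 hb hN0 hM3 n).trans ?_
    have hb1 : 0 < b - 1 := by linarith
    have h6 : (M : ℝ) ^ (1 - b) ≤ N ^ (1 - b) :=
      Real.rpow_le_rpow_of_nonpos hN0 hM1 (by linarith)
    have h7 : (0 : ℝ) ≤ ((M + n : ℕ) : ℝ) ^ (1 - b) := Real.rpow_nonneg (Nat.cast_nonneg _) _
    have h4 : N ^ b * N ^ (1 - b) = N := by
      rw [← Real.rpow_add hN0]
      simp
    have hNb : 0 < N ^ b := Real.rpow_pos_of_pos hN0 _
    rw [div_mul_eq_mul_div, div_le_div_iff_of_pos_right hb1]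
    nlinarith [mul_le_mul_of_nonneg_left h6 hNb.le, mul_nonneg hNb.le h7]
  rw [add_mul]
  exact add_le_add h2 h5

/-! ### One factor -/

/-- the polynomial part -/
noncomputable def FU_P (p : ℕ) (x : ℂ) : ℂ := ∑ j ∈ Finset.Icc 1 p, (-1 : ℂ) ^ (j - 1) * x ^ j / j

theorem FU_Ep (p : ℕ) (x : ℂ) : Ep p x = (1 + x) * exp (-FU_P p x) := rfl

theorem FU_Ep_lp (p : ℕ) {x : ℂ} (hx : 1 + x ≠ 0) : Ep p x = exp (lp p x) := by
  have : lp p x = log (1 + x) + -FU_P p x := rfl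
  rw [FU_Ep, this, exp_add, exp_log hx]

theorem FU_logTaylor (p : ℕ) (x : ℂ) : logTaylor (p + 1) x = FU_P p x := by
  induction p with
  | zero => simp [logTaylor_succ, logTaylor_zero, FU_P]
  | succ p ih =>
    rw [logTaylor_succ, Pi.add_apply, ih]
    unfold FU_P
    rw [Finset.sum_Icc_succ_top (by omega)]
    congr 2
    rw [show p + 1 + 1 = (p + 1 - 1) + 2 by omega, pow_add]
    simp

theorem FU_exp_I (a b : ℝ) : ‖exp (a * I) - exp (b * I)‖ ≤ |a - b| := by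
  have h1 : exp (a * I) - exp (b * I) = exp (b * I) * (exp (I * ((a - b : ℝ) : ℂ)) - 1) := by
    rw [mul_sub, ← exp_add, mul_one]
    congr 2
    push_cast
    ring
  rw [h1, norm_mul, norm_exp_ofReal_mul_I, one_mul]
  exact Real.norm_exp_I_mul_ofReal_sub_one_le

theorem FU_pow (σ θ θ' : ℝ) (j : ℕ) :
    ‖exp (σ + θ * I) ^ j - exp (σ + θ' * I) ^ j‖ ≤ Real.exp σ ^ j * (j * |θ - θ'|) := by
  have h1 : ∀ t : ℝ, exp (σ + t * I) ^ j = ((Real.exp σ : ℝ) : ℂ) ^ j * exp ((j * t : ℝ) * I) := by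
    intro t
    rw [exp_add, mul_pow, ← exp_nat_mul (t * I)]
    push_cast
    congr 2
    ring
  rw [h1, h1, ← mul_sub, norm_mul, norm_pow, Complex.norm_real, Real.norm_of_nonneg
    (Real.exp_pos σ).le]
  apply mul_le_mul_of_nonneg_left _ (by positivity)
  refine (FU_exp_I _ _).trans (le_of_eq ?_)
  rw [← mul_sub, abs_mul, abs_of_nonneg (Nat.cast_nonneg j)]

theorem FU_norm_exp (σ θ : ℝ) : ‖exp ((σ : ℂ) + θ * I)‖ = Real.exp σ := by
  rw [norm_exp]
  simp

theorem FU_P_lip (p : ℕ) (σ θ θ' : ℝ) :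
    ‖FU_P p (exp (σ + θ * I)) - FU_P p (exp (σ + θ' * I))‖ ≤
      (∑ j ∈ Finset.Icc 1 p, Real.exp σ ^ j) * |θ - θ'| := by
  unfold FU_P
  rw [← Finset.sum_sub_distrib, Finset.sum_mul]
  refine (norm_sum_le _ _).trans (Finset.sum_le_sum fun j hj => ?_)
  have hj1 : 1 ≤ j := (Finset.mem_Icc.1 hj).1
  have hj0 : (0 : ℝ) < j := by exact_mod_cast hj1
  have h1 : (-1 : ℂ) ^ (j - 1) * exp (σ + θ * I) ^ j / j -
      (-1 : ℂ) ^ (j - 1) * exp (σ + θ' * I) ^ j / j =
      (-1 : ℂ) ^ (j - 1) * (exp (σ + θ * I) ^ j - exp (σ + θ' * I) ^ j) / j := by ring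
  rw [h1, norm_div, norm_mul, norm_pow, norm_neg, norm_one, one_pow, one_mul,
    Complex.norm_natCast, div_le_iff₀ hj0]
  refine (FU_pow σ θ θ' j).trans (le_of_eq ?_)
  ring

/-- the comparison function -/
noncomputable def FU_phi (p : ℕ) (u : ℝ) : ℝ := min (u ^ p) (u ^ (p + 1))

theorem FU_big (p : ℕ) {σ θ θ' : ℝ} (hσ : 1 / 2 ≤ Real.exp σ) (h0 : 0 ≤ θ')
    (h1 : θ' ≤ θ) (h2 : θ ≤ Real.pi) :
    ‖Ep p (exp (σ + θ * I))‖ ≤
      Real.exp ((p * 2 ^ (p + 1)) * (θ - θ') * FU_phi p (Real.exp σ)) *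
        ‖Ep p (exp (σ + θ' * I))‖ := by
  set u := Real.exp σ with hu
  have hu0 : 0 < u := Real.exp_pos σ
  have hnorm : ∀ t : ℝ, ‖1 + exp ((σ : ℂ) + t * I)‖ ^ 2 = 1 + 2 * u * Real.cos t + u ^ 2 := by
    intro t
    rw [← normSq_eq_norm_sq, normSq_apply]
    have hre : (1 + exp ((σ : ℂ) + t * I)).re = 1 + u * Real.cos t := by
      simp [exp_re, hu]
    have him : (1 + exp ((σ : ℂ) + t * I)).im = u * Real.sin t := by
      simp [exp_im, hu]
    rw [hre, him]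
    have := Real.sin_sq_add_cos_sq t
    nlinarith
  have ha : ‖1 + exp ((σ : ℂ) + θ * I)‖ ≤ ‖1 + exp ((σ : ℂ) + θ' * I)‖ := by
    apply abs_le_of_sq_le_sq' _ (norm_nonneg _) |>.2
    rw [hnorm, hnorm]
    have := Real.cos_le_cos_of_nonneg_of_le_pi h0 h2 h1
    nlinarith
  rw [FU_Ep, FU_Ep, norm_mul, norm_mul, norm_exp, norm_exp]
  have hb := FU_P_lip p σ θ θ'
  have hc : (-FU_P p (exp (σ + θ * I))).re ≤
      (p * 2 ^ (p + 1)) * (θ - θ') * FU_phi p u + (-FU_P p (exp (σ + θ' * I))).re := by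
    have h3 : (-FU_P p (exp (σ + θ * I))).re - (-FU_P p (exp (σ + θ' * I))).re ≤
        ‖FU_P p (exp (σ + θ * I)) - FU_P p (exp (σ + θ' * I))‖ := by
      have h4 := abs_re_le_norm (FU_P p (exp (σ + θ * I)) - FU_P p (exp (σ + θ' * I)))
      have h5 := neg_abs_le (FU_P p (exp (σ + θ * I)) - FU_P p (exp (σ + θ' * I))).re
      simp only [sub_re, neg_re] at h4 h5 ⊢
      linarith
    have h6 : ∑ j ∈ Finset.Icc 1 p, u ^ j ≤ p * 2 ^ (p + 1) * FU_phi p u := by
      have h7 : ∀ j ∈ Finset.Icc 1 p, u ^ j ≤ 2 ^ (p + 1) * FU_phi p u := by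
        intro j hj
        have hjp := (Finset.mem_Icc.1 hj).2
        have h8 : u ^ j ≤ 2 ^ p * u ^ p := by
          have h9 : (1 : ℝ) ≤ 2 * u := by linarith
          calc u ^ j ≤ (2 * u) ^ j := by
                apply pow_le_pow_left₀ hu0.le
                linarith
            _ ≤ (2 * u) ^ p := pow_le_pow_right₀ h9 hjp
            _ = 2 ^ p * u ^ p := mul_pow _ _ _
        have h10 : u ^ p ≤ 2 * FU_phi p u := by
          have h12 : u ^ p / 2 ≤ FU_phi p u := by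
            unfold FU_phi
            apply le_min
            · have := pow_pos hu0 p
              linarith
            · have := pow_pos hu0 p
              rw [pow_succ]
              nlinarith
          linarith
        calc u ^ j ≤ 2 ^ p * u ^ p := h8
          _ ≤ 2 ^ p * (2 * FU_phi p u) := mul_le_mul_of_nonneg_left h10 (by positivity)
          _ = 2 ^ (p + 1) * FU_phi p u := by ring
      refine (Finset.sum_le_sum h7).trans (le_of_eq ?_)
      rw [Finset.sum_const, Nat.card_Icc]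
      simp
      ring
    rw [abs_of_nonneg (by linarith : 0 ≤ θ - θ')] at hb
    have h11 := mul_le_mul_of_nonneg_right h6 (by linarith : 0 ≤ θ - θ')
    nlinarith
  calc ‖1 + exp ((σ : ℂ) + θ * I)‖ * Real.exp (-FU_P p (exp (σ + θ * I))).re
      ≤ ‖1 + exp ((σ : ℂ) + θ' * I)‖ * Real.exp ((p * 2 ^ (p + 1)) * (θ - θ') * FU_phi p u +
        (-FU_P p (exp (σ + θ' * I))).re) :=
        mul_le_mul ha (Real.exp_le_exp.2 hc) (Real.exp_pos _).le (norm_nonneg _)
    _ = _ := by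
        rw [Real.exp_add]
        ring

theorem FU_small (p : ℕ) {σ θ θ' : ℝ} (hσ : Real.exp σ ≤ 1 / 2) (h1 : θ' ≤ θ) :
    ‖Ep p (exp (σ + θ * I))‖ ≤
      Real.exp (2 * (θ - θ') * FU_phi p (Real.exp σ)) * ‖Ep p (exp (σ + θ' * I))‖ := by
  set u := Real.exp σ with hu
  have hu0 : 0 < u := Real.exp_pos σ
  have hnorm : ∀ t : ℝ, ‖exp ((σ : ℂ) + t * I)‖ = u := fun t => FU_norm_exp σ t
  have hne : ∀ t : ℝ, 1 + exp ((σ : ℂ) + t * I) ≠ 0 := by
    intro t h
    have h3 : exp ((σ : ℂ) + t * I) = -1 := by linear_combination h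
    have h4 := hnorm t
    rw [h3, norm_neg, norm_one] at h4
    linarith
  rw [FU_Ep_lp p (hne θ), FU_Ep_lp p (hne θ'), norm_exp, norm_exp, ← Real.exp_add]
  apply Real.exp_le_exp.2
  have hphi : FU_phi p u = u ^ (p + 1) := by
    unfold FU_phi
    apply min_eq_right
    rw [pow_succ]
    have := pow_pos hu0 p
    nlinarith
  have hlip : ‖lp p (exp (σ + θ * I)) - lp p (exp (σ + θ' * I))‖ ≤
      2 * u ^ p * ‖exp (σ + θ * I) - exp (σ + θ' * I)‖ := by
    have hsub : ∀ x ∈ Metric.closedBall (0 : ℂ) u, ‖x‖ ≤ u := fun x hx => by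
      simpa using hx
    refine (convex_closedBall (0 : ℂ) u).norm_image_sub_le_of_norm_hasDerivWithin_le
      (f := lp p) (f' := fun x => (-x) ^ p * (1 + x)⁻¹) (C := 2 * u ^ p) ?_ ?_ ?_ ?_
    · intro x hx
      have hx1 := hsub x hx
      have h5 := hasDerivAt_log_sub_logTaylor p (z := x)
        (mem_slitPlane_of_norm_lt_one (by linarith))
      have h6 : (fun z : ℂ => log (1 + z) - logTaylor (p + 1) z) = lp p := by
        funext z
        rw [FU_logTaylor]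
        rfl
      rw [h6] at h5
      exact h5.hasDerivWithinAt
    · intro x hx
      have hx1 := hsub x hx
      rw [norm_mul, norm_pow, norm_neg, norm_inv]
      have h7 : 1 / 2 ≤ ‖1 + x‖ := by
        have h8 := norm_sub_norm_le (1 : ℂ) (-x)
        rw [norm_one, norm_neg, sub_neg_eq_add] at h8
        linarith
      have h9 : ‖1 + x‖⁻¹ ≤ 2 := by
        rw [inv_le_comm₀ (by linarith) (by norm_num)]
        linarith
      have h10 : ‖x‖ ^ p ≤ u ^ p := pow_le_pow_left₀ (norm_nonneg _) hx1 p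
      calc ‖x‖ ^ p * ‖1 + x‖⁻¹ ≤ u ^ p * 2 :=
            mul_le_mul h10 h9 (inv_nonneg.2 (norm_nonneg _)) (by positivity)
        _ = 2 * u ^ p := by ring
    · simp [hnorm]
    · simp [hnorm]
  have hd := FU_pow σ θ θ' 1
  rw [pow_one, pow_one, pow_one, Nat.cast_one, one_mul, abs_of_nonneg (by linarith)] at hd
  have h3 : (lp p (exp (σ + θ * I))).re - (lp p (exp (σ + θ' * I))).re ≤
      ‖lp p (exp (σ + θ * I)) - lp p (exp (σ + θ' * I))‖ := by
    rw [← sub_re]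
    exact re_le_norm _
  rw [hphi, pow_succ]
  have h4 : 0 ≤ 2 * u ^ p := by positivity
  nlinarith [mul_le_mul_of_nonneg_left hd h4]

theorem FU_factor (p : ℕ) (hp : 1 ≤ p) {σ θ θ' : ℝ} (h0 : 0 ≤ θ')
    (h1 : θ' ≤ θ) (h2 : θ ≤ Real.pi) :
    ‖Ep p (exp (σ + θ * I))‖ ≤
      Real.exp ((p * 2 ^ (p + 1)) * (θ - θ') * FU_phi p (Real.exp σ)) *
        ‖Ep p (exp (σ + θ' * I))‖ := by
  rcases le_total (1 / 2) (Real.exp σ) with h | h
  · exact FU_big p h h0 h1 h2
  · refine (FU_small p h h1).trans ?_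
    apply mul_le_mul_of_nonneg_right _ (norm_nonneg _)
    apply Real.exp_le_exp.2
    have hphi : 0 ≤ FU_phi p (Real.exp σ) := le_min (by positivity) (by positivity)
    have hθ : 0 ≤ θ - θ' := by linarith
    have h3 : (2 : ℝ) ≤ p * 2 ^ (p + 1) := by
      have h4 : (1 : ℝ) ≤ p := by exact_mod_cast hp
      have h5 : (2 : ℝ) ^ 1 ≤ 2 ^ (p + 1) := pow_le_pow_right₀ (by norm_num) (by omega)
      nlinarith
    have := mul_nonneg hθ hphi
    nlinarith

/-! ### The product -/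

theorem FU_tt {ρ : ℝ} (n : ℕ) : tt ρ (n + 1) = Real.exp (Real.log (n + 1) / ρ) := by
  unfold tt
  rw [Real.rpow_def_of_pos (by positivity)]
  congr 1
  ring

theorem FU_scale {ρ : ℝ} (s θ : ℝ) (n : ℕ) :
    exp (s + θ * I) / tt ρ (n + 1) =
      exp (((s - Real.log (n + 1) / ρ : ℝ) : ℂ) + θ * I) := by
  rw [FU_tt, ofReal_exp, ← exp_sub]
  congr 1
  push_cast
  ring

theorem FU_phi_eq {ρ : ℝ} (hρ : 0 < ρ) (p : ℕ) (s : ℝ) (n : ℕ) :
    FU_phi p (Real.exp (s - Real.log (n + 1) / ρ)) =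
      min ((Real.exp (ρ * s) / ((n : ℝ) + 1)) ^ ((p : ℝ) / ρ))
        ((Real.exp (ρ * s) / ((n : ℝ) + 1)) ^ (((p : ℝ) + 1) / ρ)) := by
  have hn : (0 : ℝ) < (n : ℝ) + 1 := by positivity
  have h1 : ∀ k : ℕ, Real.exp (s - Real.log (n + 1) / ρ) ^ k =
      (Real.exp (ρ * s) / ((n : ℝ) + 1)) ^ ((k : ℝ) / ρ) := by
    intro k
    rw [← Real.exp_nat_mul, Real.rpow_def_of_pos (by positivity),
      Real.log_div (Real.exp_pos _).ne' hn.ne', Real.log_exp]
    congr 1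
    field_simp
  unfold FU_phi
  rw [h1, h1]
  push_cast
  rfl

theorem FU_mult {ρ : ℝ} (hρ : 1 < ρ) (z : ℂ) :
    Multipliable (fun n : ℕ => Ep ⌊ρ⌋₊ (z / tt ρ (n + 1))) := by
  set p := ⌊ρ⌋₊ with hp
  have hρ0 : 0 < ρ := by linarith
  have hp1 : ρ < p + 1 := Nat.lt_floor_add_one ρ
  have hsum : Summable (fun n : ℕ => ‖z / tt ρ (n + 1)‖ ^ (p + 1)) := by
    have hb : 1 < ((p : ℝ) + 1) / ρ := by
      rw [one_lt_div hρ0]
      exact hp1
    have h1 := (Real.summable_one_div_nat_rpow (p := ((p : ℝ) + 1) / ρ)).2 hb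
    have h2 := ((summable_nat_add_iff 1).2 h1).mul_left (‖z‖ ^ (p + 1))
    refine h2.congr fun n => ?_
    have hn : (0 : ℝ) < (n : ℝ) + 1 := by positivity
    have h3 : (tt ρ (n + 1)) ^ (p + 1) = ((n : ℝ) + 1) ^ (((p : ℝ) + 1) / ρ) := by
      unfold tt
      rw [← Real.rpow_natCast, ← Real.rpow_mul hn.le]
      congr 1
      push_cast
      ring
    have h4 : 0 < tt ρ (n + 1) := Real.rpow_pos_of_pos hn _
    rw [norm_div, Complex.norm_real, Real.norm_of_nonneg h4.le, div_pow, h3]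
    push_cast
    ring
  have hev : ∀ᶠ n : ℕ in atTop, ‖z / tt ρ (n + 1)‖ ≤ 1 / 2 := by
    have h1 := hsum.tendsto_atTop_zero.eventually_le_const
      (u := (1 / 2 : ℝ) ^ (p + 1)) (by positivity)
    filter_upwards [h1] with n hn
    exact (pow_le_pow_iff_left₀ (norm_nonneg _) (by norm_num) (by omega)).1 hn
  have hs : Summable (fun n : ℕ => Ep p (z / tt ρ (n + 1)) - 1) := by
    refine Summable.of_norm_bounded_eventually_nat (hsum.mul_left 4) ?_
    filter_upwards [hev] with n hn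
    set x := z / tt ρ (n + 1) with hx
    have hne : 1 + x ≠ 0 := by
      intro h
      have h3 : x = -1 := by linear_combination h
      rw [h3, norm_neg, norm_one] at hn
      norm_num at hn
    have hl : ‖lp p x‖ ≤ 2 * ‖x‖ ^ (p + 1) := by
      have h5 := norm_log_sub_logTaylor_le p (z := x) (by linarith)
      rw [FU_logTaylor] at h5
      have h6 : log (1 + x) - FU_P p x = lp p x := rfl
      rw [h6] at h5
      refine h5.trans ?_
      have h7 : (1 - ‖x‖)⁻¹ ≤ 2 := by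
        rw [inv_le_comm₀ (by linarith) (by norm_num)]
        linarith
      have h8 : (0 : ℝ) ≤ ‖x‖ ^ (p + 1) := by positivity
      calc ‖x‖ ^ (p + 1) * (1 - ‖x‖)⁻¹ / (p + 1) ≤ ‖x‖ ^ (p + 1) * (1 - ‖x‖)⁻¹ / 1 := by
            apply div_le_div_of_nonneg_left _ one_pos (by linarith [Nat.cast_nonneg (α := ℝ) p])
            have : 0 < 1 - ‖x‖ := by linarith
            positivity
        _ ≤ 2 * ‖x‖ ^ (p + 1) := by
            rw [div_one]
            nlinarith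
    have h9 : ‖x‖ ^ (p + 1) ≤ 1 / 2 := by
      calc ‖x‖ ^ (p + 1) ≤ (1 / 2 : ℝ) ^ (p + 1) :=
            pow_le_pow_left₀ (norm_nonneg _) hn _
        _ ≤ (1 / 2 : ℝ) ^ 1 := pow_le_pow_of_le_one (by norm_num) (by norm_num) (by omega)
        _ = 1 / 2 := pow_one _
    rw [FU_Ep_lp p hne]
    refine (norm_exp_sub_one_le (by linarith)).trans ?_
    linarith
  have hm := Complex.multipliable_one_add_of_summable hs
  refine hm.congr fun n => ?_
  ring

theorem FU_main {ρ : ℝ} (hρ : 1 < ρ) (hni : ∀ n : ℕ, ρ ≠ n) : ∃ C : ℝ, 0 < C ∧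
    ∀ s θ θ' : ℝ, 0 ≤ s → 0 ≤ θ' → θ' ≤ θ → θ ≤ Real.pi →
      ‖FF ρ (exp (s + θ * I))‖ ≤
        Real.exp (C * (θ - θ') * Real.exp (ρ * s)) * ‖FF ρ (exp (s + θ' * I))‖ := by
  have hρ0 : 0 < ρ := by linarith
  set p := ⌊ρ⌋₊ with hp
  have hp1 : ρ < p + 1 := Nat.lt_floor_add_one ρ
  have hp2 : (p : ℝ) < ρ := lt_of_le_of_ne (Nat.floor_le hρ0.le) (hni p).symm
  have hp3 : 1 ≤ p := by
    rw [hp]
    exact (Nat.one_le_floor_iff ρ).2 hρ.le
  have hp0 : (0 : ℝ) < p := by exact_mod_cast hp3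
  set a : ℝ := (p : ℝ) / ρ with ha
  set b : ℝ := ((p : ℝ) + 1) / ρ with hb
  have ha0 : 0 < a := by positivity
  have ha1 : a < 1 := by
    rw [ha, div_lt_one hρ0]
    exact hp2
  have hb1 : 1 < b := by
    rw [hb, one_lt_div hρ0]
    exact hp1
  set K : ℝ := p * 2 ^ (p + 1) with hK
  have hK0 : 0 < K := by positivity
  set C0 : ℝ := 2 / (1 - a) + 1 / (b - 1) with hC0
  have hC00 : 0 < C0 := by
    have h1 : 0 < 1 - a := by linarith
    have h2 : 0 < b - 1 := by linarith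
    positivity
  set Γ : ℝ := ∑ i ∈ Finset.Icc 1 p, |gam ρ i| with hΓ
  have hΓ0 : 0 ≤ Γ := Finset.sum_nonneg fun i _ => abs_nonneg _
  refine ⟨K * C0 + Γ, by positivity, fun s θ θ' hs h0 h1 h2 => ?_⟩
  have hθ : 0 ≤ θ - θ' := by linarith
  set N : ℝ := Real.exp (ρ * s) with hN
  have hN1 : 1 ≤ N := Real.one_le_exp (by positivity)
  have hN0 : 0 < N := by linarith
  -- the product
  have hprod : ‖∏' n : ℕ, Ep p (exp (s + θ * I) / tt ρ (n + 1))‖ ≤
      Real.exp (K * C0 * (θ - θ') * N) *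
        ‖∏' n : ℕ, Ep p (exp (s + θ' * I) / tt ρ (n + 1))‖ := by
    have t1 := (FU_mult hρ (exp (s + θ * I))).hasProd.tendsto_prod_nat.norm
    have t2 := ((FU_mult hρ (exp (s + θ' * I))).hasProd.tendsto_prod_nat.norm).const_mul
      (Real.exp (K * C0 * (θ - θ') * N))
    refine le_of_tendsto_of_tendsto' t1 t2 fun n => ?_
    rw [norm_prod, norm_prod]
    have h3 : ∀ i ∈ Finset.range n, ‖Ep ⌊ρ⌋₊ (exp (s + θ * I) / tt ρ (i + 1))‖ ≤
        Real.exp (K * (θ - θ') * min ((N / ((i : ℝ) + 1)) ^ a) ((N / ((i : ℝ) + 1)) ^ b)) *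
          ‖Ep ⌊ρ⌋₊ (exp (s + θ' * I) / tt ρ (i + 1))‖ := by
      intro i _
      rw [FU_scale, FU_scale, ← FU_phi_eq hρ0]
      exact FU_factor p hp3 h0 h1 h2
    refine (Finset.prod_le_prod (fun i _ => norm_nonneg _) h3).trans ?_
    rw [Finset.prod_mul_distrib, ← Real.exp_sum, ← Finset.mul_sum]
    apply mul_le_mul_of_nonneg_right _ (Finset.prod_nonneg fun i _ => norm_nonneg _)
    apply Real.exp_le_exp.2
    have h4 := FU_sum ha0 ha1 hb1 hN1 n
    calc K * (θ - θ') * _ ≤ K * (θ - θ') * (C0 * N) :=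
          mul_le_mul_of_nonneg_left h4 (by positivity)
      _ = _ := by ring
  -- the polynomial
  have hpol : ‖exp (∑ i ∈ Finset.Icc 1 p, (-1 : ℂ) ^ i * gam ρ i * exp (s + θ * I) ^ i / i)‖ ≤
      Real.exp (Γ * (θ - θ') * N) *
      ‖exp (∑ i ∈ Finset.Icc 1 p, (-1 : ℂ) ^ i * gam ρ i * exp (s + θ' * I) ^ i / i)‖ := by
    rw [norm_exp, norm_exp, ← Real.exp_add]
    apply Real.exp_le_exp.2
    have h5 : ‖(∑ i ∈ Finset.Icc 1 p, (-1 : ℂ) ^ i * gam ρ i * exp (s + θ * I) ^ i / i) -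
        ∑ i ∈ Finset.Icc 1 p, (-1 : ℂ) ^ i * gam ρ i * exp (s + θ' * I) ^ i / i‖ ≤
        Γ * (θ - θ') * N := by
      rw [← Finset.sum_sub_distrib, hΓ, mul_assoc, Finset.sum_mul]
      refine (norm_sum_le _ _).trans (Finset.sum_le_sum fun i hi => ?_)
      have hi1 := (Finset.mem_Icc.1 hi).1
      have hi2 := (Finset.mem_Icc.1 hi).2
      have hi0 : (0 : ℝ) < i := by exact_mod_cast hi1
      have h6 : (-1 : ℂ) ^ i * gam ρ i * exp (s + θ * I) ^ i / i -
          (-1 : ℂ) ^ i * gam ρ i * exp (s + θ' * I) ^ i / i =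
          (-1 : ℂ) ^ i * gam ρ i * (exp (s + θ * I) ^ i - exp (s + θ' * I) ^ i) / i := by ring
      rw [h6, norm_div, norm_mul, norm_mul, norm_pow, norm_neg, norm_one, one_pow, one_mul,
        Complex.norm_natCast, Complex.norm_real, Real.norm_eq_abs, div_le_iff₀ hi0, mul_assoc]
      apply mul_le_mul_of_nonneg_left _ (abs_nonneg _)
      refine (FU_pow s θ θ' i).trans ?_
      rw [abs_of_nonneg hθ]
      have h7 : Real.exp s ^ i ≤ N := by
        rw [← Real.exp_nat_mul, hN]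
        apply Real.exp_le_exp.2
        apply mul_le_mul_of_nonneg_right _ hs
        have : (i : ℝ) ≤ p := by exact_mod_cast hi2
        linarith
      calc Real.exp s ^ i * (i * (θ - θ')) ≤ N * (i * (θ - θ')) :=
            mul_le_mul_of_nonneg_right h7 (by positivity)
        _ = _ := by ring
    have h8 := re_le_norm ((∑ i ∈ Finset.Icc 1 p, (-1 : ℂ) ^ i * gam ρ i * exp (s + θ * I) ^ i / i) -
        ∑ i ∈ Finset.Icc 1 p, (-1 : ℂ) ^ i * gam ρ i * exp (s + θ' * I) ^ i / i)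
    rw [sub_re] at h8
    linarith
  unfold FF
  rw [norm_mul, norm_mul]
  calc _ ≤ (Real.exp (Γ * (θ - θ') * N) *
      ‖exp (∑ i ∈ Finset.Icc 1 p, (-1 : ℂ) ^ i * gam ρ i * exp (s + θ' * I) ^ i / i)‖) *
      (Real.exp (K * C0 * (θ - θ') * N) *
        ‖∏' n : ℕ, Ep p (exp (s + θ' * I) / tt ρ (n + 1))‖) :=
        mul_le_mul hpol hprod (norm_nonneg _) (by positivity)
    _ = Real.exp ((K * C0 + Γ) * (θ - θ') * N) *
        (‖exp (∑ i ∈ Finset.Icc 1 p, (-1 : ℂ) ^ i * gam ρ i * exp (s + θ' * I) ^ i / i)‖ *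
        ‖∏' n : ℕ, Ep p (exp (s + θ' * I) / tt ρ (n + 1))‖) := by
        rw [show (K * C0 + Γ) * (θ - θ') * N = Γ * (θ - θ') * N + K * C0 * (θ - θ') * N by ring,
          Real.exp_add]
        ring

/-- Upper bound up to the negative ray: `|1 + u e^{iθ}|` is decreasing in `θ ∈ [0, π]`, and the
other terms (polynomial parts for `t ≤ C r`, `lp` for `t > C r`) are Lipschitz in `θ` with total
constant `O (r^ρ)`; compare the angle `θ` with `min θ (π - ε')`. -/
theorem FF_upper (ρ κ : ℝ) (hρ : 1 < ρ) (hni : ∀ n : ℕ, ρ ≠ n)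
    (hasy : ∀ ε : ℝ, 0 < ε → ∃ C : ℝ, ∀ s θ : ℝ, 0 ≤ s → |θ| ≤ Real.pi - ε →
      ‖FF ρ (exp (s + θ * I))‖ ≤
        Real.exp (κ * Real.cos (ρ * θ) * Real.exp (ρ * s) + C * (1 + s))) :
    ∀ ε : ℝ, 0 < ε → ∃ s₀ : ℝ, ∀ s θ : ℝ, s₀ ≤ s → |θ| ≤ Real.pi →
      ‖FF ρ (exp (s + θ * I))‖ ≤
        Real.exp ((κ * Real.cos (ρ * θ) + ε) * Real.exp (ρ * s)) := by
  intro ε hε
  obtain ⟨C1, hC1, hmain⟩ := FU_main hρ hni
  have hρ0 : 0 < ρ := by linarith
  set D : ℝ := C1 + |κ| * ρ with hD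
  have hD0 : 0 < D := by positivity
  set ε' : ℝ := min Real.pi (ε / 2 / D) with hε'
  have hε'0 : 0 < ε' := lt_min Real.pi_pos (by positivity)
  have hε'π : ε' ≤ Real.pi := min_le_left _ _
  have hε'D : D * ε' ≤ ε / 2 := by
    calc D * ε' ≤ D * (ε / 2 / D) := mul_le_mul_of_nonneg_left (min_le_right _ _) hD0.le
      _ = ε / 2 := by field_simp
  obtain ⟨C, hC⟩ := hasy ε' hε'0
  -- for large `s` the term `C (1 + s)` is small
  have hlarge : ∃ s₀ : ℝ, 0 ≤ s₀ ∧ ∀ s : ℝ, s₀ ≤ s → C * (1 + s) ≤ ε / 2 * Real.exp (ρ * s) := by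
    have h1 : Tendsto (fun s : ℝ => (C * (1 + s)) * Real.exp (-(ρ * s))) atTop (𝓝 0) := by
      have h2 : Tendsto (fun s : ℝ => s ^ 1 * Real.exp (-(ρ * s))) atTop (𝓝 0) := by
        have := Real.tendsto_pow_mul_exp_neg_atTop_nhds_zero 1
        have h3 := (this.comp (tendsto_id.const_mul_atTop hρ0)).const_mul (1 / ρ)
        rw [mul_zero] at h3
        refine h3.congr fun s => ?_
        simp only [Function.comp, id, pow_one]
        field_simp
      have h4 : Tendsto (fun s : ℝ => Real.exp (-(ρ * s))) atTop (𝓝 0) :=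
        Real.tendsto_exp_neg_atTop_nhds_zero.comp (tendsto_id.const_mul_atTop hρ0)
      have h5 := ((h4.add h2).const_mul C)
      simp only [add_zero, mul_zero] at h5
      refine h5.congr fun s => ?_
      ring
    have h6 := h1.eventually_le_const (u := ε / 2) (by positivity)
    obtain ⟨s₁, hs₁⟩ := eventually_atTop.1 h6
    refine ⟨max s₁ 0, le_max_right _ _, fun s hs => ?_⟩
    have h7 := hs₁ s ((le_max_left _ _).trans hs)
    have h8 := mul_le_mul_of_nonneg_right h7 (Real.exp_pos (ρ * s)).le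
    have h9 : C * (1 + s) * Real.exp (-(ρ * s)) * Real.exp (ρ * s) = C * (1 + s) := by
      rw [mul_assoc, ← Real.exp_add]
      simp
    rw [h9] at h8
    exact h8
  obtain ⟨s₀, hs₀, hs₀'⟩ := hlarge
  have hpos : ∀ s θ : ℝ, s₀ ≤ s → 0 ≤ θ → θ ≤ Real.pi →
      ‖FF ρ (exp (s + θ * I))‖ ≤
        Real.exp ((κ * Real.cos (ρ * θ) + ε) * Real.exp (ρ * s)) := by
    intro s θ hs h0 h1
    set θ' : ℝ := min θ (Real.pi - ε') with hθ'
    have h2 : 0 ≤ θ' := le_min h0 (by linarith)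
    have h3 : θ' ≤ θ := min_le_left _ _
    have h4 : θ - θ' ≤ ε' := by
      rcases min_choice θ (Real.pi - ε') with h | h
      · rw [hθ', h]
        linarith
      · rw [hθ', h]
        linarith
    have h5 : |θ'| ≤ Real.pi - ε' := by
      rw [abs_of_nonneg h2]
      exact min_le_right _ _
    refine (hmain s θ θ' (hs₀.trans hs) h2 h3 h1).trans ?_
    refine (mul_le_mul_of_nonneg_left (hC s θ' (hs₀.trans hs) h5) (Real.exp_pos _).le).trans ?_
    rw [← Real.exp_add]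
    apply Real.exp_le_exp.2
    set N := Real.exp (ρ * s) with hN
    have hN0 : 0 < N := Real.exp_pos _
    have h6 : κ * Real.cos (ρ * θ') ≤ κ * Real.cos (ρ * θ) + |κ| * ρ * (θ - θ') := by
      have h7 : |Real.cos (ρ * θ') - Real.cos (ρ * θ)| ≤ |ρ * θ' - ρ * θ| :=
        Real.abs_cos_sub_cos_le _ _
      have h8 : |ρ * θ' - ρ * θ| = ρ * (θ - θ') := by
        rw [← mul_sub, abs_mul, abs_of_pos hρ0, abs_sub_comm, abs_of_nonneg (by linarith)]
      rw [h8] at h7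
      have h9 : κ * (Real.cos (ρ * θ') - Real.cos (ρ * θ)) ≤ |κ| * (ρ * (θ - θ')) := by
        refine (le_abs_self _).trans ?_
        rw [abs_mul]
        exact mul_le_mul_of_nonneg_left h7 (abs_nonneg _)
      linarith
    have h10 := hs₀' s hs
    have h11 : C1 * (θ - θ') + |κ| * ρ * (θ - θ') ≤ ε / 2 := by
      calc C1 * (θ - θ') + |κ| * ρ * (θ - θ') = D * (θ - θ') := by rw [hD]; ring
        _ ≤ D * ε' := mul_le_mul_of_nonneg_left h4 hD0.le
        _ ≤ ε / 2 := hε'D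
    have h12 := mul_le_mul_of_nonneg_right h6 hN0.le
    have h13 := mul_le_mul_of_nonneg_right h11 hN0.le
    linarith
  refine ⟨s₀, fun s θ hs hθ => ?_⟩
  rcases le_total 0 θ with h | h
  · rw [abs_of_nonneg h] at hθ
    exact hpos s θ hs h hθ
  · rw [abs_of_nonpos h] at hθ
    have h1 := hpos s (-θ) hs (by linarith) hθ
    have h2 : exp ((s : ℂ) + θ * I) = (starRingEnd ℂ) (exp ((s : ℂ) + ((-θ : ℝ) : ℂ) * I)) := by
      rw [← exp_conj]
      congr 1
      simp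
    rw [h2, (FF_facts ρ hρ hni).1.2, RCLike.norm_conj]
    have h3 : Real.cos (ρ * -θ) = Real.cos (ρ * θ) := by
      rw [mul_neg, Real.cos_neg]
    rw [h3] at h1
    exact h1

end Pool.Agent.helper74.LG
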