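import Pool.Agent.helper74.LG.Defs3

set_option autoImplicit false

namespace Pool.Agent.helper74.LG

open Complex Set Filter Topology MeasureTheory

/-- The half line is the disjoint union of the unit intervals. -/
theorem FX_union : (⋃ n : ℕ, Ioc (n : ℝ) ((n : ℝ) + 1)) = Ioi (0 : ℝ) := by
  ext x
  simp only [mem_iUnion, mem_Ioc, mem_Ioi]
  constructor
  · rintro ⟨n, h1, h2⟩
    have : (0 : ℝ) ≤ n := Nat.cast_nonneg n
    linarith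
  · intro hx
    have h0 : 0 < ⌈x⌉₊ := Nat.ceil_pos.2 hx
    refine ⟨⌈x⌉₊ - 1, ?_, ?_⟩
    · have h1 := Nat.ceil_lt_add_one hx.le
      rw [Nat.cast_sub (by omega)]
      push_cast
      linarith
    · have h1 := Nat.le_ceil x
      rw [Nat.cast_sub (by omega)]
      push_cast
      linarith

theorem FX_disj : Pairwise (Function.onFun Disjoint
    (fun n : ℕ => Ioc (n : ℝ) ((n : ℝ) + 1))) := by
  intro m n hmn
  rw [Function.onFun, Set.disjoint_left]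
  rintro x ⟨h1, h2⟩ ⟨h3, h4⟩
  have h5 : (m : ℝ) < n + 1 := by linarith
  have h6 : (n : ℝ) < m + 1 := by linarith
  have h7 : m < n + 1 := by exact_mod_cast h5
  have h8 : n < m + 1 := by exact_mod_cast h6
  omega

/-- `1 + exp w / t` does not vanish. -/
theorem FX_ne (w : ℂ) (hw : |w.im| < Real.pi) (t : ℝ) (ht : 0 < t) :
    1 + exp w / t ≠ 0 := by
  intro h
  have ht' : (t : ℂ) ≠ 0 := by exact_mod_cast ht.ne'
  have h1 : exp w = -t := by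
    field_simp at h
    linear_combination h
  have him := congrArg Complex.im h1
  have hre := congrArg Complex.re h1
  rw [Complex.exp_im] at him
  rw [Complex.exp_re] at hre
  simp only [neg_im, ofReal_im, neg_zero, mul_eq_zero, neg_re, ofReal_re] at him hre
  rcases him with h2 | h2
  · exact absurd h2 (Real.exp_pos _).ne'
  · rw [abs_lt] at hw
    have h3 : w.im = 0 := (Real.sin_eq_zero_iff_of_lt_of_lt hw.1 hw.2).1 h2
    rw [h3, Real.cos_zero, mul_one] at hre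
    have := Real.exp_pos w.re
    linarith

theorem FX_tt_pow (ρ : ℝ) (j : ℕ) (z : ℂ) (x : ℝ) (hx : 0 < x) :
    (z / tt ρ x) ^ j = z ^ j * ((x ^ (-(j : ℝ) / ρ) : ℝ) : ℂ) := by
  have h1 : x ^ (-(j : ℝ) / ρ) = (tt ρ x ^ j)⁻¹ := by
    rw [tt, ← Real.rpow_natCast, ← Real.rpow_mul hx.le, ← Real.rpow_neg hx.le]
    congr 1
    ring
  rw [h1, div_pow]
  push_cast
  rw [div_eq_mul_inv]

/-- The interval integral of the polynomial part. -/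
theorem FX_poly (ρ : ℝ) (hρ : 1 < ρ) (hni : ∀ n : ℕ, ρ ≠ n) (z : ℂ) (n : ℕ) :
    IntegrableOn (fun x : ℝ => ∑ j ∈ Finset.Icc 1 ⌊ρ⌋₊, (-1 : ℂ) ^ (j - 1) *
      (z / tt ρ x) ^ j / j) (Ioc (n : ℝ) (n + 1)) ∧
    ∫ x in Ioc (n : ℝ) (n + 1), (∑ j ∈ Finset.Icc 1 ⌊ρ⌋₊, (-1 : ℂ) ^ (j - 1) *
      (z / tt ρ x) ^ j / j) =
      ∑ j ∈ Finset.Icc 1 ⌊ρ⌋₊, (-1 : ℂ) ^ (j - 1) * z ^ j / j *
        ((∫ x in (n : ℝ)..(n + 1), x ^ (-(j : ℝ) / ρ) : ℝ) : ℂ) := by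
  have hfl : ∀ j ∈ Finset.Icc 1 ⌊ρ⌋₊, (j : ℝ) < ρ := by
    intro j hj
    have h1 := (Finset.mem_Icc.1 hj).2
    have h2 : (j : ℝ) ≤ ρ := (Nat.le_floor_iff (by linarith)).1 h1
    exact lt_of_le_of_ne h2 (fun h => hni j h.symm)
  have hint : ∀ j ∈ Finset.Icc 1 ⌊ρ⌋₊, IntervalIntegrable
      (fun x : ℝ => x ^ (-(j : ℝ) / ρ)) volume (n : ℝ) (n + 1) := by
    intro j hj
    apply intervalIntegral.intervalIntegrable_rpow'
    have h1 := hfl j hj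
    rw [neg_div, neg_lt_neg_iff, div_lt_one (by linarith)]
    exact h1
  have hle : (n : ℝ) ≤ n + 1 := by linarith
  have hintC : ∀ j ∈ Finset.Icc 1 ⌊ρ⌋₊, IntegrableOn
      (fun x : ℝ => (-1 : ℂ) ^ (j - 1) * z ^ j / j * ((x ^ (-(j : ℝ) / ρ) : ℝ) : ℂ))
      (Ioc (n : ℝ) (n + 1)) := by
    intro j hj
    have h1 := (intervalIntegrable_iff_integrableOn_Ioc_of_le hle).1 (hint j hj)
    exact (h1.ofReal (𝕜 := ℂ)).const_mul _
  have heq : ∀ x ∈ Ioc (n : ℝ) (n + 1), (∑ j ∈ Finset.Icc 1 ⌊ρ⌋₊, (-1 : ℂ) ^ (j - 1) *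
      (z / tt ρ x) ^ j / j) = ∑ j ∈ Finset.Icc 1 ⌊ρ⌋₊,
        (-1 : ℂ) ^ (j - 1) * z ^ j / j * ((x ^ (-(j : ℝ) / ρ) : ℝ) : ℂ) := by
    intro x hx
    have hx0 : 0 < x := lt_of_le_of_lt (Nat.cast_nonneg n) hx.1
    apply Finset.sum_congr rfl
    intro j _
    rw [FX_tt_pow ρ j z x hx0]
    ring
  constructor
  · rw [integrableOn_congr_fun heq measurableSet_Ioc]
    exact integrable_finsetSum _ hintC
  · rw [setIntegral_congr_fun measurableSet_Ioc heq, integral_finsetSum _ hintC]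
    apply Finset.sum_congr rfl
    intro j _
    rw [integral_const_mul, intervalIntegral.integral_of_le hle]
    congr 1
    exact integral_ofReal

/-- The logarithm of `FF ρ` on the slit plane. Termwise:
`lp p (z/t(x))` integrated over `[n, n+1]` plus `rn` plus the `gam` terms is `log Ep`. -/
theorem FF_exp (ρ κ : ℝ) (hρ : 1 < ρ) (hni : ∀ n : ℕ, ρ ≠ n)
    (hκ : ∀ w : ℂ, |w.im| < Real.pi →
      IntegrableOn (fun x : ℝ => lp ⌊ρ⌋₊ (exp w / tt ρ x)) (Ioi 0) ∧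
      ∫ x in Ioi (0 : ℝ), lp ⌊ρ⌋₊ (exp w / tt ρ x) = κ * exp (ρ * w))
    (hr : ∀ w : ℂ, |w.im| < Real.pi → Summable (fun n => rn ρ n w))
    (hg : ∀ i : ℕ, (i : ℝ) < ρ →
      Summable (fun n : ℕ => (∫ x in (n : ℝ)..(n + 1), x ^ (-(i : ℝ) / ρ)) -
        ((n : ℝ) + 1) ^ (-(i : ℝ) / ρ)))
    (w : ℂ) (hw : |w.im| < Real.pi) :
    exp (κ * exp (ρ * w) + ∑' n, rn ρ n w) = FF ρ (exp w) := by
  obtain ⟨hI, hK⟩ := hκ w hw
  have hs1 : HasSum (fun n : ℕ => ∫ x in Ioc (n : ℝ) (n + 1), lp ⌊ρ⌋₊ (exp w / tt ρ x))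
      (κ * exp (ρ * w)) := by
    rw [← hK, ← FX_union]
    exact hasSum_integral_iUnion (fun _ => measurableSet_Ioc) FX_disj (by rwa [FX_union])
  have hs2 : HasSum (fun n : ℕ => rn ρ n w) (∑' n, rn ρ n w) := (hr w hw).hasSum
  have hfl : ∀ j ∈ Finset.Icc 1 ⌊ρ⌋₊, (j : ℝ) < ρ := by
    intro j hj
    have h1 := (Finset.mem_Icc.1 hj).2
    have h2 : (j : ℝ) ≤ ρ := (Nat.le_floor_iff (by linarith)).1 h1
    exact lt_of_le_of_ne h2 (fun h => hni j h.symm)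
  have hs3 : HasSum (fun n : ℕ => ∑ i ∈ Finset.Icc 1 ⌊ρ⌋₊, (-1 : ℂ) ^ i * (exp w) ^ i / i *
      (((∫ x in (n : ℝ)..(n + 1), x ^ (-(i : ℝ) / ρ)) -
        ((n : ℝ) + 1) ^ (-(i : ℝ) / ρ) : ℝ) : ℂ))
      (∑ i ∈ Finset.Icc 1 ⌊ρ⌋₊, (-1 : ℂ) ^ i * (exp w) ^ i / i * (gam ρ i : ℂ)) := by
    apply hasSum_sum
    intro i hi
    apply HasSum.mul_left
    exact Complex.hasSum_ofReal.2 (hg i (hfl i hi)).hasSum
  have hs4 := (hs1.add hs2).sub hs3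
  have hterm : ∀ n : ℕ, ((∫ x in Ioc (n : ℝ) (n + 1), lp ⌊ρ⌋₊ (exp w / tt ρ x)) + rn ρ n w) -
      ∑ i ∈ Finset.Icc 1 ⌊ρ⌋₊, (-1 : ℂ) ^ i * (exp w) ^ i / i *
      (((∫ x in (n : ℝ)..(n + 1), x ^ (-(i : ℝ) / ρ)) -
        ((n : ℝ) + 1) ^ (-(i : ℝ) / ρ) : ℝ) : ℂ) =
      log (1 + exp w / tt ρ (n + 1)) + -∑ j ∈ Finset.Icc 1 ⌊ρ⌋₊, (-1 : ℂ) ^ (j - 1) *
        (exp w / tt ρ (n + 1)) ^ j / j := by
    intro n
    have hle : (n : ℝ) ≤ n + 1 := by linarith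
    have hn1 : (0 : ℝ) < (n : ℝ) + 1 := by positivity
    obtain ⟨hP1, hP2⟩ := FX_poly ρ hρ hni (exp w) n
    have hI' : IntegrableOn (fun x : ℝ => lp ⌊ρ⌋₊ (exp w / tt ρ x)) (Ioc (n : ℝ) (n + 1)) :=
      hI.mono_set (fun x hx => lt_of_le_of_lt (Nat.cast_nonneg n) hx.1)
    have h1 : ∫ x in Ioc (n : ℝ) (n + 1), log (1 + exp w / tt ρ x) =
        (∫ x in Ioc (n : ℝ) (n + 1), lp ⌊ρ⌋₊ (exp w / tt ρ x)) +
        ∫ x in Ioc (n : ℝ) (n + 1), (∑ j ∈ Finset.Icc 1 ⌊ρ⌋₊, (-1 : ℂ) ^ (j - 1) *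
      (exp w / tt ρ x) ^ j / j) := by
      rw [← integral_add hI' hP1]
      congr 1
      ext x
      simp only [lp]
      ring
    rw [rn, intervalIntegral.integral_of_le hle, h1, hP2]
    have h2 : ∀ i ∈ Finset.Icc 1 ⌊ρ⌋₊, (-1 : ℂ) ^ i * (exp w) ^ i / i *
      (((∫ x in (n : ℝ)..(n + 1), x ^ (-(i : ℝ) / ρ)) -
        ((n : ℝ) + 1) ^ (-(i : ℝ) / ρ) : ℝ) : ℂ) =
        (-1 : ℂ) ^ (i - 1) * (exp w / tt ρ (n + 1)) ^ i / i -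
        (-1 : ℂ) ^ (i - 1) * (exp w) ^ i / i *
        ((∫ x in (n : ℝ)..(n + 1), x ^ (-(i : ℝ) / ρ) : ℝ) : ℂ) := by
      intro i hi
      have hi1 : 1 ≤ i := (Finset.mem_Icc.1 hi).1
      have h3 : (-1 : ℂ) ^ i = -(-1 : ℂ) ^ (i - 1) := by
        obtain ⟨k, rfl⟩ : ∃ k, i = k + 1 := ⟨i - 1, by omega⟩
        simp [pow_succ]
      rw [FX_tt_pow ρ i (exp w) ((n : ℝ) + 1) hn1, h3]
      push_cast
      ring
    rw [Finset.sum_congr rfl h2, Finset.sum_sub_distrib]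
    ring
  have hs5 := hs4.congr_fun (fun n => (hterm n).symm)
  have hP := hs5.cexp
  rw [FF]
  have hfac : (cexp ∘ fun n : ℕ => log (1 + exp w / tt ρ (n + 1)) +
      -∑ j ∈ Finset.Icc 1 ⌊ρ⌋₊, (-1 : ℂ) ^ (j - 1) * (exp w / tt ρ (n + 1)) ^ j / j) =
      fun n : ℕ => Ep ⌊ρ⌋₊ (exp w / tt ρ (n + 1)) := by
    ext n
    have hn1 : (0 : ℝ) < (n : ℝ) + 1 := by positivity
    have ht : 0 < tt ρ ((n : ℝ) + 1) := Real.rpow_pos_of_pos hn1 _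
    simp only [Function.comp, Ep]
    rw [Complex.exp_add, Complex.exp_log (FX_ne w hw _ ht)]
  rw [hfac] at hP
  rw [hP.tprod_eq, ← Complex.exp_add]
  congr 1
  have h6 : ∑ i ∈ Finset.Icc 1 ⌊ρ⌋₊, (-1 : ℂ) ^ i * (gam ρ i : ℂ) * (exp w) ^ i / i =
      ∑ i ∈ Finset.Icc 1 ⌊ρ⌋₊, (-1 : ℂ) ^ i * (exp w) ^ i / i * (gam ρ i : ℂ) := by
    apply Finset.sum_congr rfl
    intro i _
    ring
  rw [h6]
  ring

end Pool.Agent.helper74.LG
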