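import Pool.Agent.helper74.LG.FA
import Pool.Agent.helper74.LG.FG
import Pool.Agent.helper74.LG.FR
import Pool.Agent.helper74.LG.FE
import Pool.Agent.helper74.LG.FX
import Pool.Agent.helper74.LG.FU

set_option autoImplicit false

namespace Pool.Agent.helper74.LG

open Complex Set Filter Topology MeasureTheory

/-- For real arguments the summands of the remainder are real. -/
theorem FZ_rn_real (ρ : ℝ) (n : ℕ) (x : ℝ) : ∃ r : ℝ, rn ρ n (x : ℂ) = (r : ℂ) := by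
  have hlog : ∀ y : ℝ, 0 ≤ y →
      log (1 + exp (x : ℂ) / tt ρ y) = ((Real.log (1 + Real.exp x / tt ρ y) : ℝ) : ℂ) := by
    intro y hy
    have h0 : 0 ≤ tt ρ y := Real.rpow_nonneg hy _
    have h1 : 0 ≤ 1 + Real.exp x / tt ρ y := by
      have := div_nonneg (Real.exp_pos x).le h0
      linarith
    rw [Complex.ofReal_log h1]
    push_cast
    rfl
  refine ⟨Real.log (1 + Real.exp x / tt ρ (n + 1)) -
    ∫ y in (n : ℝ)..(n + 1), Real.log (1 + Real.exp x / tt ρ y), ?_⟩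
  rw [rn, Complex.ofReal_sub, ← intervalIntegral.integral_ofReal, hlog _ (by positivity)]
  congr 1
  apply intervalIntegral.integral_congr
  intro y hy
  rw [uIcc_of_le (by linarith)] at hy
  exact hlog y (le_trans (Nat.cast_nonneg n) hy.1)

/-- Summary. -/
theorem exists_base_prod (ρ : ℝ) (hρ : 1 < ρ) (hni : ∀ n : ℕ, ρ ≠ n) :
    ∃ (F L : ℂ → ℂ) (κ : ℝ), RealEnt F ∧ 0 < (-1) ^ ⌊ρ⌋₊ * κ ∧
      (∀ x : ℝ, 0 ≤ x → 0 < (F x).re) ∧ (∀ z : ℂ, F z = 0 → z.im = 0 ∧ z.re < 0) ∧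
      DifferentiableOn ℂ L {w : ℂ | |w.im| < Real.pi} ∧
      (∀ w : ℂ, |w.im| < Real.pi → exp (L w) = F (exp w)) ∧ (∀ x : ℝ, (L x).im = 0) ∧
      (∀ ε : ℝ, 0 < ε → ∃ C : ℝ, 0 < C ∧ ∀ w : ℂ, 0 ≤ w.re → |w.im| ≤ Real.pi - ε →
        ‖L w - κ * exp (ρ * w)‖ ≤ C * (1 + w.re)) ∧
      (∀ ε : ℝ, 0 < ε → ∃ s₀ : ℝ, ∀ s θ : ℝ, s₀ ≤ s → |θ| ≤ Real.pi →
        ‖F (exp (s + θ * I))‖ ≤ Real.exp ((κ * Real.cos (ρ * θ) + ε) * Real.exp (ρ * s))) := by
  obtain ⟨κ, hκs, hκ⟩ := lp_integral ρ hρ hni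
  obtain ⟨hr, hdiff, hbd⟩ := rn_facts ρ hρ
  have hg := fun i hi => gam_summable ρ hρ i hi
  obtain ⟨hRE, hpos, hzero⟩ := FF_facts ρ hρ hni
  have hexp : ∀ w : ℂ, |w.im| < Real.pi →
      exp (κ * exp (ρ * w) + ∑' n, rn ρ n w) = FF ρ (exp w) :=
    fun w hw => FF_exp ρ κ hρ hni hκ hr hg w hw
  refine ⟨FF ρ, fun w => κ * exp (ρ * w) + ∑' n, rn ρ n w, κ, hRE, hκs, hpos, hzero, ?_, hexp,
    ?_, ?_, ?_⟩
  · refine DifferentiableOn.add ?_ hdiff
    apply Differentiable.differentiableOn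
    fun_prop
  · intro x
    choose r hr' using fun n : ℕ => FZ_rn_real ρ n x
    have h1 : (fun n : ℕ => rn ρ n (x : ℂ)) = fun n => ((r n : ℝ) : ℂ) := funext hr'
    show (κ * exp (ρ * (x : ℂ)) + ∑' n, rn ρ n (x : ℂ)).im = 0
    rw [h1, ← Complex.ofReal_tsum, ← Complex.ofReal_mul, ← Complex.ofReal_exp,
      ← Complex.ofReal_mul, ← Complex.ofReal_add, Complex.ofReal_im]
  · intro ε hε
    obtain ⟨C, hC, h⟩ := hbd ε hε
    refine ⟨C, hC, fun w hw1 hw2 => ?_⟩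
    have h1 := h w hw1 hw2
    have h2 : (κ * exp (ρ * w) + ∑' n, rn ρ n w) - κ * exp (ρ * w) = ∑' n, rn ρ n w := by ring
    show ‖(κ * exp (ρ * w) + ∑' n, rn ρ n w) - κ * exp (ρ * w)‖ ≤ C * (1 + w.re)
    rw [h2]
    exact h1
  · apply FF_upper ρ κ hρ hni
    intro ε hε
    obtain ⟨C, hC, h⟩ := hbd ε hε
    refine ⟨C, fun s θ hs hθ => ?_⟩
    have hre : ((s : ℂ) + θ * I).re = s := by simp
    have him : ((s : ℂ) + θ * I).im = θ := by simp
    have hlt : |((s : ℂ) + θ * I).im| < Real.pi := by rw [him]; linarith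
    have h1 := h ((s : ℂ) + θ * I) (by rw [hre]; exact hs) (by rw [him]; exact hθ)
    rw [hre] at h1
    rw [← hexp _ hlt, Complex.norm_exp, Complex.add_re]
    apply Real.exp_le_exp.2
    have h2 : (κ * exp (ρ * ((s : ℂ) + θ * I))).re =
        κ * Real.cos (ρ * θ) * Real.exp (ρ * s) := by
      rw [Complex.re_ofReal_mul, Complex.exp_re]
      have h3 : ((ρ : ℂ) * ((s : ℂ) + θ * I)).re = ρ * s := by
        simp
      have h4 : ((ρ : ℂ) * ((s : ℂ) + θ * I)).im = ρ * θ := by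
        simp
      rw [h3, h4]
      ring
    rw [h2]
    have h3 := Complex.re_le_norm (∑' n, rn ρ n ((s : ℂ) + θ * I))
    linarith

end Pool.Agent.helper74.LG
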