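import Pool.Agent.helper74.LG.A1

set_option autoImplicit false

namespace Pool.Agent.helper74.LG

open Complex Set Filter Topology MeasureTheory

/-- The homogenised polynomial with step `e`. -/
noncomputable def PO_Phi (a : ℕ → ℝ) (n : ℕ) (p : ℝ × ℝ) : ℝ :=
  ∑ j ∈ Finset.range (n + 1), a j * (∏ i ∈ Finset.range j, (p.1 - i * p.2)) *
    ∏ i ∈ Finset.range (n - j), (1 - p.1 - i * p.2)

theorem PO_Phi_cont (a : ℕ → ℝ) (n : ℕ) : Continuous (PO_Phi a n) := by
  unfold PO_Phi
  fun_prop

theorem PO_Phi_zero (a : ℕ → ℝ) (n : ℕ) (han : 0 < a n)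
    (hp : ∀ x : ℝ, 0 ≤ x → 0 < ∑ j ∈ Finset.range (n + 1), a j * x ^ j) (x : ℝ) (h0 : 0 ≤ x)
    (h1 : x ≤ 1) : 0 < PO_Phi a n (x, 0) := by
  unfold PO_Phi
  simp only [mul_zero, sub_zero, Finset.prod_const, Finset.card_range]
  rcases h1.lt_or_eq with h1 | h1
  · have hx : 0 < 1 - x := by linarith
    have e : ∑ j ∈ Finset.range (n + 1), a j * x ^ j * (1 - x) ^ (n - j) =
        (1 - x) ^ n * ∑ j ∈ Finset.range (n + 1), a j * (x / (1 - x)) ^ j := by
      rw [Finset.mul_sum]
      refine Finset.sum_congr rfl fun j hj => ?_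
      have hjn : j ≤ n := Nat.lt_succ_iff.mp (Finset.mem_range.mp hj)
      rw [div_pow]
      have : (1 - x) ^ n = (1 - x) ^ (n - j) * (1 - x) ^ j := by
        rw [← pow_add, Nat.sub_add_cancel hjn]
      rw [this]
      field_simp
    rw [e]
    exact mul_pos (pow_pos hx n) (hp _ (div_nonneg h0 hx.le))
  · subst h1
    rw [Finset.sum_range_succ]
    have : ∑ j ∈ Finset.range n, a j * (1 : ℝ) ^ j * (1 - 1) ^ (n - j) = 0 := by
      refine Finset.sum_eq_zero fun j hj => ?_
      have : n - j ≠ 0 := by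
        have := Finset.mem_range.mp hj
        omega
      rw [sub_self, zero_pow this, mul_zero]
    rw [this]
    simpa using han

theorem PO_desc (k j : ℕ) : ((k.descFactorial j : ℕ) : ℝ) = ∏ i ∈ Finset.range j, ((k : ℝ) - i) := by
  induction j with
  | zero => simp
  | succ j ih =>
    rw [Nat.descFactorial_succ, Finset.prod_range_succ, ← ih]
    push_cast
    by_cases h : j ≤ k
    · rw [Nat.cast_sub h]
      ring
    · have : k.descFactorial j = 0 := Nat.descFactorial_eq_zero_iff_lt.mpr (by omega)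
      rw [this]
      simp

/-- The relation of binomial coefficients and descending factorials. -/
theorem PO_choose (M n k j : ℕ) (hj : j ≤ n) (hk : k ≤ M + n) (hjk : j ≤ k) :
    M.choose (k - j) * (k.factorial * (M + n - k).factorial) =
      M.factorial * (k.descFactorial j * (M + n - k).descFactorial (n - j)) := by
  by_cases h : k - j ≤ M
  · have h1 : (k - j).factorial * k.descFactorial j = k.factorial :=
      Nat.factorial_mul_descFactorial hjk
    have h2 : n - j ≤ M + n - k := by omega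
    have h3 : (M + n - k - (n - j)).factorial * (M + n - k).descFactorial (n - j)
        = (M + n - k).factorial := Nat.factorial_mul_descFactorial h2
    have h4 : M + n - k - (n - j) = M - (k - j) := by omega
    rw [h4] at h3
    have h5 : M.choose (k - j) * (k - j).factorial * (M - (k - j)).factorial = M.factorial :=
      Nat.choose_mul_factorial_mul_factorial h
    rw [← h1, ← h3, ← h5]
    ring
  · rw [Nat.choose_eq_zero_of_lt (by omega)]
    have : (M + n - k).descFactorial (n - j) = 0 := Nat.descFactorial_eq_zero_iff_lt.mpr (by omega)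
    rw [this]
    ring

/-- Polya's theorem for polynomials in one variable. -/
theorem PO_poly (a : ℕ → ℝ) (n : ℕ) (han : 0 < a n)
    (hp : ∀ x : ℝ, 0 ≤ x → 0 < ∑ j ∈ Finset.range (n + 1), a j * x ^ j) :
    ∃ M : ℕ, ∀ k, k ≤ M + n → 0 < ∑ j ∈ Finset.range (n + 1),
      if j ≤ k then a j * (M.choose (k - j) : ℝ) else 0 := by
  have hopen : IsOpen {p : ℝ × ℝ | 0 < PO_Phi a n p} :=
    isOpen_lt continuous_const (PO_Phi_cont a n)
  have hsub : Icc (0 : ℝ) 1 ×ˢ ({0} : Set ℝ) ⊆ {p : ℝ × ℝ | 0 < PO_Phi a n p} := by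
    rintro ⟨x, e⟩ ⟨hx, he⟩
    have : e = 0 := he
    subst this
    exact PO_Phi_zero a n han hp x hx.1 hx.2
  obtain ⟨U, V, hU, hV, hUs, hVs, hUV⟩ :=
    generalized_tube_lemma isCompact_Icc isCompact_singleton hopen hsub
  have hV0 : V ∈ 𝓝 (0 : ℝ) := hV.mem_nhds (hVs (mem_singleton 0))
  have hlim : Tendsto (fun K : ℕ => 1 / ((K : ℝ) + 1)) atTop (𝓝 0) :=
    tendsto_one_div_add_atTop_nhds_zero_nat
  obtain ⟨K₀, hK₀⟩ := eventually_atTop.mp (hlim.eventually hV0)
  refine ⟨K₀ + 1, fun k hk => ?_⟩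
  set M := K₀ + 1 with hM
  have hKpos : (0 : ℝ) < ((M + n : ℕ) : ℝ) := by
    have : 0 < M + n := by omega
    exact_mod_cast this
  set K : ℕ := M + n with hK
  have hKV : 1 / (K : ℝ) ∈ V := by
    have := hK₀ (K - 1) (by omega)
    have e : ((K - 1 : ℕ) : ℝ) + 1 = K := by
      rw [Nat.cast_sub (by omega)]
      push_cast
      ring
    rw [e] at this
    exact this
  have hkU : (k : ℝ) / K ∈ U := by
    apply hUs
    refine ⟨by positivity, ?_⟩
    rw [div_le_one hKpos]
    exact_mod_cast hk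
  have hpos : 0 < PO_Phi a n ((k : ℝ) / K, 1 / K) := hUV ⟨hkU, hKV⟩
  have hprod1 : ∀ j, ∏ i ∈ Finset.range j, ((k : ℝ) / K - i * (1 / K)) =
      (k.descFactorial j : ℝ) / (K : ℝ) ^ j := by
    intro j
    rw [PO_desc]
    have : ∀ i ∈ Finset.range j, ((k : ℝ) / K - i * (1 / K)) = ((k : ℝ) - i) / K := by
      intro i _
      field_simp
    rw [Finset.prod_congr rfl this, Finset.prod_div_distrib, Finset.prod_const, Finset.card_range]
  have hprod2 : ∀ j, ∏ i ∈ Finset.range j, (1 - (k : ℝ) / K - i * (1 / K)) =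
      ((K - k).descFactorial j : ℝ) / (K : ℝ) ^ j := by
    intro j
    rw [PO_desc]
    have : ∀ i ∈ Finset.range j, (1 - (k : ℝ) / K - i * (1 / K)) = (((K - k : ℕ) : ℝ) - i) / K := by
      intro i _
      rw [Nat.cast_sub hk]
      field_simp
    rw [Finset.prod_congr rfl this, Finset.prod_div_distrib, Finset.prod_const, Finset.card_range]
  have hfac : (0 : ℝ) < (k.factorial : ℝ) * ((K - k).factorial : ℝ) := by positivity
  have hkey : ((k.factorial : ℝ) * ((K - k).factorial : ℝ)) * (∑ j ∈ Finset.range (n + 1),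
      if j ≤ k then a j * (M.choose (k - j) : ℝ) else 0) =
      (M.factorial : ℝ) * (K : ℝ) ^ n * PO_Phi a n ((k : ℝ) / K, 1 / K) := by
    unfold PO_Phi
    rw [Finset.mul_sum, Finset.mul_sum]
    refine Finset.sum_congr rfl fun j hj => ?_
    have hjn : j ≤ n := Nat.lt_succ_iff.mp (Finset.mem_range.mp hj)
    rw [hprod1, hprod2]
    have hKn : (K : ℝ) ^ n = (K : ℝ) ^ j * (K : ℝ) ^ (n - j) := by
      rw [← pow_add, Nat.add_sub_cancel' hjn]
    by_cases hjk : j ≤ k
    · rw [if_pos hjk]
      have h := PO_choose M n k j hjn hk hjk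
      have h' : (M.choose (k - j) : ℝ) * ((k.factorial : ℝ) * ((K - k).factorial : ℝ)) =
          (M.factorial : ℝ) * ((k.descFactorial j : ℝ) * ((K - k).descFactorial (n - j) : ℝ)) := by
        exact_mod_cast h
      rw [hKn]
      have : (k.factorial : ℝ) * ((K - k).factorial : ℝ) * (a j * (M.choose (k - j) : ℝ)) =
          a j * ((M.choose (k - j) : ℝ) * ((k.factorial : ℝ) * ((K - k).factorial : ℝ))) := by ring
      rw [this, h']
      field_simp
    · rw [if_neg hjk]
      have : k.descFactorial j = 0 := Nat.descFactorial_eq_zero_iff_lt.mpr (by omega)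
      rw [this]
      simp
  have hright : 0 < (M.factorial : ℝ) * (K : ℝ) ^ n * PO_Phi a n ((k : ℝ) / K, 1 / K) := by
    have : (0 : ℝ) < M.factorial := by exact_mod_cast Nat.factorial_pos M
    positivity
  rw [← hkey] at hright
  exact (pos_iff_pos_of_mul_pos hright).mp hfac

/-- Coefficients of `(1 + z) ^ M`. -/
theorem PO_coef_pow (M m : ℕ) : coef (fun z => (1 + z) ^ M) m = (M.choose m : ℂ) := by
  apply coef_eq_of_hasSum (a := fun m => (M.choose m : ℂ))
  intro z
  have h : HasSum (fun m => (M.choose m : ℂ) * z ^ m)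
      (∑ m ∈ Finset.range (M + 1), (M.choose m : ℂ) * z ^ m) := by
    apply hasSum_sum_of_ne_finset_zero
    intro m hm
    rw [Nat.choose_eq_zero_of_lt (by simpa [Nat.lt_succ_iff] using hm)]
    simp
  have e : (1 + z) ^ M = ∑ m ∈ Finset.range (M + 1), (M.choose m : ℂ) * z ^ m := by
    rw [add_comm 1 z, add_pow]
    refine Finset.sum_congr rfl fun m _ => ?_
    rw [one_pow, mul_one, mul_comm]
  rw [e]
  exact h

/-- Truncations are positive on the half line. -/
theorem PO_trunc (a : ℕ → ℝ) (F : ℝ → ℝ) (hF : Continuous F)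
    (hsum : ∀ x : ℝ, HasSum (fun m => a m * x ^ m) (F x)) (hpos : ∀ x : ℝ, 0 ≤ x → 0 < F x)
    (m₀ : ℕ) (hev : ∀ m, m₀ ≤ m → 0 < a m) :
    ∃ n, m₀ ≤ n ∧ ∀ x : ℝ, 0 ≤ x → 0 < ∑ j ∈ Finset.range (n + 1), a j * x ^ j := by
  set Bd : ℝ := ∑ m ∈ Finset.range m₀, |a m| with hBd
  have hBd0 : 0 ≤ Bd := Finset.sum_nonneg fun _ _ => abs_nonneg _
  have ham : 0 < a m₀ := hev m₀ le_rfl
  set R : ℝ := max 1 (Bd / a m₀ + 1) with hR
  have hR1 : 1 ≤ R := le_max_left _ _
  -- large x
  have hlarge : ∀ n, m₀ ≤ n → ∀ x : ℝ, R ≤ x → 0 < ∑ j ∈ Finset.range (n + 1), a j * x ^ j := by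
    intro n hn x hx
    have hx1 : 1 ≤ x := le_trans hR1 hx
    have hx0 : 0 < x := by linarith
    have h1 : ∑ j ∈ Finset.range (m₀ + 1), a j * x ^ j ≤ ∑ j ∈ Finset.range (n + 1), a j * x ^ j := by
      apply Finset.sum_le_sum_of_subset_of_nonneg
      · intro j hj
        rw [Finset.mem_range] at hj ⊢
        omega
      · intro j _ hj
        have : m₀ ≤ j := by
          rw [Finset.mem_range] at hj
          omega
        exact mul_nonneg (hev j this).le (pow_nonneg hx0.le j)
    refine lt_of_lt_of_le ?_ h1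
    rw [Finset.sum_range_succ]
    have h2 : -(Bd * (x ^ m₀ / x)) ≤ ∑ j ∈ Finset.range m₀, a j * x ^ j := by
      rw [hBd, Finset.sum_mul, ← Finset.sum_neg_distrib]
      refine Finset.sum_le_sum fun j hj => ?_
      have hjm : j < m₀ := Finset.mem_range.mp hj
      have h3 : x ^ j ≤ x ^ m₀ / x := by
        rw [le_div_iff₀ hx0, ← pow_succ]
        exact pow_le_pow_right₀ hx1 hjm
      have h4 : -|a j| ≤ a j := neg_abs_le _
      have h5 : |a j| * x ^ j ≤ |a j| * (x ^ m₀ / x) :=
        mul_le_mul_of_nonneg_left h3 (abs_nonneg _)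
      have h6 : (-|a j|) * x ^ j ≤ a j * x ^ j := mul_le_mul_of_nonneg_right h4 (pow_nonneg hx0.le j)
      linarith
    have h7 : Bd / x < a m₀ := by
      rw [div_lt_iff₀ hx0]
      have h8 : Bd / a m₀ + 1 ≤ x := le_trans (le_max_right _ _) hx
      have h9 : Bd / a m₀ < x := by linarith
      rw [div_lt_iff₀ ham] at h9
      linarith
    have h10 : 0 < x ^ m₀ := pow_pos hx0 _
    have h11 : Bd * (x ^ m₀ / x) = x ^ m₀ * (Bd / x) := by ring
    rw [h11] at h2
    nlinarith
  -- small x
  obtain ⟨x₀, hx₀, hmin⟩ := isCompact_Icc.exists_isMinOn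
    (nonempty_Icc.mpr (by linarith : (0 : ℝ) ≤ R)) hF.continuousOn
  have hc : 0 < F x₀ := hpos x₀ hx₀.1
  have htail : Tendsto (fun n => F R - ∑ j ∈ Finset.range n, a j * R ^ j) atTop (𝓝 0) := by
    have := (hsum R).tendsto_sum_nat
    have h2 := this.const_sub (F R)
    simpa using h2
  obtain ⟨N, hN⟩ := eventually_atTop.mp (htail.eventually (gt_mem_nhds hc))
  refine ⟨max N m₀, le_max_right _ _, fun x hx => ?_⟩
  set n := max N m₀ with hn
  have hnm : m₀ ≤ n := le_max_right _ _
  rcases le_or_gt R x with h | h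
  · exact hlarge n hnm x h
  · -- tail at x ≤ tail at R
    have ht : ∀ y : ℝ, HasSum (fun m => a (m + (n + 1)) * y ^ (m + (n + 1)))
        (F y - ∑ j ∈ Finset.range (n + 1), a j * y ^ j) := by
      intro y
      have := (hasSum_nat_add_iff' (f := fun m => a m * y ^ m) (n + 1)).mpr (hsum y)
      exact this
    have h1 : F x - ∑ j ∈ Finset.range (n + 1), a j * x ^ j ≤
        F R - ∑ j ∈ Finset.range (n + 1), a j * R ^ j := by
      refine hasSum_le (fun m => ?_) (ht x) (ht R)
      exact mul_le_mul_of_nonneg_left (pow_le_pow_left₀ hx h.le _) (hev _ (by omega)).le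
    have h2 := hN (n + 1) (by omega)
    have h3 : F x₀ ≤ F x := hmin ⟨hx, h.le⟩
    linarith

/-- Polya's theorem for real entire functions with eventually positive coefficients. -/
theorem polya {f : ℂ → ℂ} (hf : RealEnt f) (hpos : ∀ x : ℝ, 0 ≤ x → 0 < (f x).re) (m₀ : ℕ)
    (hev : ∀ m, m₀ ≤ m → 0 < rco f m) :
    ∃ M : ℕ, ∀ m, 0 < rco (fun z => (1 + z) ^ M * f z) m := by
  have hco : ∀ m, coef f m = (rco f m : ℂ) := by
    intro m
    apply Complex.ext
    · simp [rco]
    · rw [coef_im hf]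
      simp
  have hsum : ∀ x : ℝ, HasSum (fun m => rco f m * x ^ m) ((f x).re) := by
    intro x
    have h := hasSum_coef hf.1 (x : ℂ)
    have h2 := Complex.hasSum_re h
    have e : (fun m => (coef f m * (x : ℂ) ^ m).re) = fun m => rco f m * x ^ m := by
      funext m
      rw [hco m, ← Complex.ofReal_pow, ← Complex.ofReal_mul, Complex.ofReal_re]
    rwa [e] at h2
  have hcont : Continuous fun x : ℝ => (f x).re :=
    Complex.continuous_re.comp (hf.1.continuous.comp Complex.continuous_ofReal)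
  obtain ⟨n, hn, hp⟩ := PO_trunc (rco f) (fun x => (f x).re) hcont hsum hpos m₀ hev
  obtain ⟨M, hM⟩ := PO_poly (rco f) n (hev n hn) hp
  refine ⟨M, fun m => ?_⟩
  have hd : Differentiable ℂ (fun z : ℂ => (1 + z) ^ M) := by fun_prop
  have hval : rco (fun z => (1 + z) ^ M * f z) m =
      ∑ j ∈ Finset.range (m + 1), rco f j * (M.choose (m - j) : ℝ) := by
    rw [rco, coef_mul hd hf.1]
    rw [← Finset.sum_range_reflect]
    rw [Complex.re_sum]
    refine Finset.sum_congr rfl fun j hj => ?_
    have hjm : j ≤ m := Nat.lt_succ_iff.mp (Finset.mem_range.mp hj)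
    have e1 : m + 1 - 1 - j = m - j := by omega
    have e2 : m - (m - j) = j := by omega
    rw [e1, e2, PO_coef_pow, hco j]
    have : ((M.choose (m - j) : ℂ) * (rco f j : ℂ)) = ((rco f j * (M.choose (m - j) : ℝ) : ℝ) : ℂ) := by
      push_cast
      ring
    rw [this, Complex.ofReal_re]
  rw [hval]
  by_cases hm : m ≤ M + n
  · have h1 := hM m hm
    refine lt_of_lt_of_le h1 ?_
    have h2 : ∑ j ∈ Finset.range (n + 1), (if j ≤ m then rco f j * (M.choose (m - j) : ℝ) else 0)
        = ∑ j ∈ (Finset.range (n + 1)).filter (fun j => j ≤ m), rco f j * (M.choose (m - j) : ℝ) := by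
      rw [Finset.sum_filter]
    rw [h2]
    apply Finset.sum_le_sum_of_subset_of_nonneg
    · intro j hj
      rw [Finset.mem_filter] at hj
      rw [Finset.mem_range]
      omega
    · intro j hj hj'
      rw [Finset.mem_range] at hj
      have : n < j := by
        by_contra hcon
        apply hj'
        rw [Finset.mem_filter, Finset.mem_range]
        omega
      exact mul_nonneg (hev j (by omega)).le (Nat.cast_nonneg _)
  · push Not at hm
    apply Finset.sum_pos'
    · intro j hj
      by_cases hj2 : n < j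
      · exact mul_nonneg (hev j (by omega)).le (Nat.cast_nonneg _)
      · rw [Nat.choose_eq_zero_of_lt (by omega)]
        simp
    · refine ⟨m, Finset.mem_range.mpr (by omega), ?_⟩
      rw [Nat.sub_self, Nat.choose_zero_right]
      simpa using hev m (by omega)

end Pool.Agent.helper74.LG
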