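import Pool.Agent.helper74.LG.S3

set_option autoImplicit false

namespace Pool.Agent.helper74.LG

open Complex Set Filter Topology MeasureTheory

theorem S4_isOpen_DS (θ t : ℝ) : IsOpen (DS θ t) := by
  have h1 : IsOpen {w : ℂ | |w.im| < t} :=
    isOpen_lt (continuous_abs.comp Complex.continuous_im) continuous_const
  have h2 : IsOpen {w : ℂ | |w.im - θ| < t} :=
    isOpen_lt (continuous_abs.comp (Complex.continuous_im.sub continuous_const)) continuous_const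
  exact h1.union h2

theorem S4_DS_mono (θ : ℝ) {t t' : ℝ} (h : t ≤ t') : DS θ t ⊆ DS θ t' := by
  intro w hw
  rcases hw with hw | hw
  · exact Or.inl (lt_of_lt_of_le hw h)
  · exact Or.inr (lt_of_lt_of_le hw h)

theorem S4_small (a B ε : ℝ) (ha : a < 0) (hε : 0 < ε) :
    ∃ s₀ : ℝ, ∀ s, s₀ ≤ s → B * Real.exp (a * s) ≤ ε := by
  have h1 : Tendsto (fun s : ℝ => a * s) atTop atBot := tendsto_id.const_mul_atTop_of_neg ha
  have h2 : Tendsto (fun s : ℝ => B * Real.exp (a * s)) atTop (𝓝 (B * 0)) :=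
    (Real.tendsto_exp_atBot.comp h1).const_mul B
  rw [mul_zero] at h2
  have h3 := h2.eventually (gt_mem_nhds hε)
  obtain ⟨s₀, hs₀⟩ := eventually_atTop.mp h3
  exact ⟨s₀, fun s hs => (hs₀ s hs).le⟩

theorem S4_deriv_im {K : ℂ → ℂ} {θ t : ℝ} (hK : DifferentiableOn ℂ K (DS θ t)) (ht : 0 < t)
    (hre : ∀ x : ℝ, (K x).im = 0) (x : ℝ) : (deriv K x).im = 0 := by
  have hx : (x : ℂ) ∈ DS θ t := Or.inl (by simpa using ht)
  have h1 : HasDerivAt K (deriv K x) (x : ℂ) :=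
    ((hK x hx).differentiableAt ((S4_isOpen_DS θ t).mem_nhds hx)).hasDerivAt
  have h2 : HasDerivAt (fun y : ℝ => K y) (deriv K x) x := h1.comp_ofReal
  have h3 : HasDerivAt (fun y : ℝ => star (K y)) (star (deriv K x)) x := h2.star
  have h4 : (fun y : ℝ => star (K y)) = fun y : ℝ => K y :=
    funext fun y => Complex.conj_eq_iff_im.mpr (hre y)
  rw [h4] at h3
  exact Complex.conj_eq_iff_im.mp (h3.unique h2)

theorem S4_diff_deriv {K : ℂ → ℂ} {θ t : ℝ} (hK : DifferentiableOn ℂ K (DS θ t)) :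
    DifferentiableOn ℂ (deriv K) (DS θ t) :=
  hK.deriv (S4_isOpen_DS θ t)

/-- the first derivative on the real axis -/
theorem S4_real_bound (P : CP) (hP : P.Ok) {C1 : ℝ} {f K : ℂ → ℂ} (_hcl : Cls P f K)
    (h3 : ∀ w ∈ DS P.θ₀ (3 / 2 * P.τ), 1 ≤ w.re → ∀ n ∈ Finset.Icc 1 3,
      ‖iteratedDeriv n K w - (P.H * P.ρ ^ n * exp (P.ρ * w) +
        P.H₁ * P.σ₁ ^ n * exp (P.σ₁ * w))‖ ≤ C1 * Real.exp (P.σ * w.re)) (x : ℝ) (hx : 1 ≤ x) :
    |(deriv K x).re - (P.H * P.ρ * Real.exp (P.ρ * x) + P.H₁ * P.σ₁ * Real.exp (P.σ₁ * x))|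
      ≤ C1 * Real.exp (P.σ * x) := by
  have hmem : (x : ℂ) ∈ DS P.θ₀ (3 / 2 * P.τ) := Or.inl (by
    have := hP.τ0
    simp only [Complex.ofReal_im, abs_zero]; positivity)
  have h := h3 x hmem (by simpa using hx) 1 (by simp)
  rw [iteratedDeriv_one] at h
  have e : ((P.H : ℂ) * P.ρ ^ 1 * exp (P.ρ * (x : ℂ)) + P.H₁ * P.σ₁ ^ 1 * exp (P.σ₁ * (x : ℂ)))
      = ((P.H * P.ρ * Real.exp (P.ρ * x) + P.H₁ * P.σ₁ * Real.exp (P.σ₁ * x) : ℝ) : ℂ) := by
    push_cast; ring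
  rw [e] at h
  have h2 := (Complex.abs_re_le_norm _).trans h
  rw [Complex.sub_re, Complex.ofReal_re, Complex.ofReal_re] at h2
  exact h2

/-- the periodicity at the second peak -/
theorem S4_exp_rho (P : CP) (hP : P.Ok) (s : ℝ) :
    exp (P.ρ * (s + P.θ₀ * I)) = (Real.exp (P.ρ * s) : ℂ) := by
  rw [show (P.ρ : ℂ) * (s + P.θ₀ * I) = P.ρ * s + P.ρ * P.θ₀ * I by ring, Complex.exp_add,
    hP.per, mul_one]
  push_cast
  rfl

theorem S4_exp_sigma (P : CP) (hP : P.Ok) (s : ℝ) (c : ℂ) :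
    P.H₁ * c * exp (P.σ₁ * (s + P.θ₀ * I)) = P.H₁ * c * (Real.exp (P.σ₁ * s) : ℂ) := by
  rcases hP.per₁ with h | h
  · rw [h]; simp
  · rw [show (P.σ₁ : ℂ) * (s + P.θ₀ * I) = P.σ₁ * s + P.σ₁ * P.θ₀ * I by ring, Complex.exp_add,
      h, mul_one]
    push_cast
    rfl

/-- the second saddle point -/
theorem S4_contr (P : CP) (hP : P.Ok) (C1 : ℝ) (hC1 : 0 < C1) : ∃ s₀ : ℝ, 2 ≤ s₀ ∧
    ∀ f K, Cls P f K →
    (∀ w ∈ DS P.θ₀ (3 / 2 * P.τ), 1 ≤ w.re → ∀ n ∈ Finset.Icc 1 3,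
      ‖iteratedDeriv n K w - (P.H * P.ρ ^ n * exp (P.ρ * w) +
        P.H₁ * P.σ₁ ^ n * exp (P.σ₁ * w))‖ ≤ C1 * Real.exp (P.σ * w.re)) →
    ∀ s : ℝ, s₀ ≤ s → ∀ m : ℂ, deriv K s = m →
    ∃ w : ℂ, deriv K w = m ∧
      ‖w - (s + P.θ₀ * I)‖ ≤ 4 * C1 / (P.H * P.ρ ^ 2) * Real.exp ((P.σ - P.ρ) * s) := by
  have hH := hP.H0
  have hρ : 0 < P.ρ := lt_trans one_pos hP.ρ1
  have hτ := hP.τ0
  have hτ1 := hP.τ1
  have hτρ : 32 * P.ρ * P.τ ≤ 1 := by nlinarith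
  have hτs : 32 * P.τ ≤ 1 := by nlinarith
  have hHρ : 0 < P.H * P.ρ ^ 2 := by positivity
  obtain ⟨s1, hs1⟩ := S4_small (P.σ - P.ρ) (4 * C1 / (P.H * P.ρ ^ 2)) P.τ
    (by linarith [hP.σρ]) hτ
  obtain ⟨s2, hs2⟩ := S4_small (P.σ₁ - P.ρ) (P.H₁ * P.σ₁ ^ 2 * Real.exp P.σ₁)
    (P.H * P.ρ ^ 2 / 8) (by linarith [hP.σ₁ρ]) (by positivity)
  obtain ⟨s3, hs3⟩ := S4_small (P.σ - P.ρ) (C1 * Real.exp P.σ)
    (P.H * P.ρ ^ 2 / 8) (by linarith [hP.σρ]) (by positivity)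
  refine ⟨max 2 (max s1 (max s2 s3)), le_max_left _ _, ?_⟩
  intro f K hcl h3 s hs m hm
  have hs2' : 2 ≤ s := le_trans (le_max_left _ _) hs
  have q1 := hs1 s (le_trans ((le_max_left _ _).trans (le_max_right _ _)) hs)
  have q2 := hs2 s (le_trans (((le_max_left _ _).trans (le_max_right _ _)).trans
    (le_max_right _ _)) hs)
  have q3 := hs3 s (le_trans (((le_max_right _ _).trans (le_max_right _ _)).trans
    (le_max_right _ _)) hs)
  set r : ℝ := 4 * C1 / (P.H * P.ρ ^ 2) * Real.exp ((P.σ - P.ρ) * s) with hr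
  set Λ : ℝ := P.H * P.ρ ^ 2 * Real.exp (P.ρ * s) with hΛ
  have hr0 : 0 < r := by positivity
  have hΛ0 : 0 < Λ := by positivity
  have hΛc : (Λ : ℂ) ≠ 0 := by exact_mod_cast hΛ0.ne'
  set z₀ : ℂ := s + P.θ₀ * I with hz₀
  have hz₀re : z₀.re = s := by simp [hz₀]
  have hz₀im : z₀.im = P.θ₀ := by simp [hz₀]
  -- the ball is in the domain
  have hball : ∀ w ∈ Metric.closedBall z₀ r, w ∈ DS P.θ₀ (3 / 2 * P.τ) ∧ 1 ≤ w.re ∧
      w.re ≤ s + 1 := by
    intro w hw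
    rw [Metric.mem_closedBall, dist_eq_norm] at hw
    have h1 := (Complex.abs_im_le_norm (w - z₀)).trans hw
    have h2 := (Complex.abs_re_le_norm (w - z₀)).trans hw
    rw [Complex.sub_im, hz₀im] at h1
    rw [Complex.sub_re, hz₀re] at h2
    refine ⟨Or.inr (by linarith), ?_, ?_⟩
    · have := (abs_le.mp h2).1
      linarith
    · have := (abs_le.mp h2).2
      linarith
  have hsub : ∀ w ∈ Metric.closedBall z₀ r, w ∈ DS P.θ₀ (2 * P.τ) := fun w hw =>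
    S4_DS_mono P.θ₀ (by linarith) (hball w hw).1
  -- the derivative of deriv K
  have hd2 : ∀ w ∈ Metric.closedBall z₀ r, HasDerivAt (deriv K) (iteratedDeriv 2 K w) w := by
    intro w hw
    have h1 := ((S4_diff_deriv hcl.an) w (hsub w hw)).differentiableAt
      ((S4_isOpen_DS _ _).mem_nhds (hsub w hw))
    have h2 : iteratedDeriv 2 K w = deriv (deriv K) w := by
      rw [iteratedDeriv_succ, iteratedDeriv_one]
    rw [h2]
    exact h1.hasDerivAt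
  -- bound of the second derivative
  have hb2 : ∀ w ∈ Metric.closedBall z₀ r, ‖1 - iteratedDeriv 2 K w / Λ‖ ≤ 1 / 2 := by
    intro w hw
    obtain ⟨g1, g2, g3⟩ := hball w hw
    have h := h3 w g1 g2 2 (by simp)
    have e1 : exp (P.ρ * w) = (Real.exp (P.ρ * s) : ℂ) * exp (P.ρ * (w - z₀)) := by
      rw [← S4_exp_rho P hP s, ← hz₀, ← Complex.exp_add]
      congr 1
      ring
    have e2 : 1 - iteratedDeriv 2 K w / Λ = -(exp (P.ρ * (w - z₀)) - 1)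
        - (iteratedDeriv 2 K w - (P.H * P.ρ ^ 2 * exp (P.ρ * w) +
        P.H₁ * P.σ₁ ^ 2 * exp (P.σ₁ * w))) / Λ - P.H₁ * P.σ₁ ^ 2 * exp (P.σ₁ * w) / Λ := by
      have hΛ2 : (P.H : ℂ) * P.ρ ^ 2 * (Real.exp (P.ρ * s) : ℂ) = (Λ : ℂ) := by
        rw [hΛ]; push_cast; rfl
      have e3 : (P.H : ℂ) * P.ρ ^ 2 * exp (P.ρ * w) = Λ * exp (P.ρ * (w - z₀)) := by
        rw [e1, ← mul_assoc, hΛ2]
      rw [e3]
      generalize exp (P.ρ * (w - z₀)) = E
      generalize iteratedDeriv 2 K w = D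
      generalize (P.H₁ : ℂ) * P.σ₁ ^ 2 * exp (P.σ₁ * w) = G
      field_simp
      ring
    have b1 : ‖exp (P.ρ * (w - z₀)) - 1‖ ≤ 1 / 8 := by
      have n1 : ‖(P.ρ : ℂ) * (w - z₀)‖ ≤ P.ρ * P.τ := by
        rw [norm_mul, Complex.norm_real, Real.norm_of_nonneg hρ.le]
        rw [Metric.mem_closedBall, dist_eq_norm] at hw
        exact mul_le_mul_of_nonneg_left (hw.trans q1) hρ.le
      have n2 := Complex.norm_exp_sub_one_le (x := (P.ρ : ℂ) * (w - z₀)) (by nlinarith)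
      nlinarith
    have b2 : ‖(iteratedDeriv 2 K w - (P.H * P.ρ ^ 2 * exp (P.ρ * w) +
        P.H₁ * P.σ₁ ^ 2 * exp (P.σ₁ * w))) / Λ‖ ≤ 1 / 8 := by
      rw [norm_div, Complex.norm_real, Real.norm_of_nonneg hΛ0.le, div_le_iff₀ hΛ0]
      refine h.trans ?_
      have k1 : Real.exp (P.σ * w.re) ≤ Real.exp P.σ * Real.exp (P.σ * s) := by
        rw [← Real.exp_add]
        exact Real.exp_le_exp.mpr (by nlinarith [hP.σ0])
      have k2 : Real.exp (P.σ * s) = Real.exp ((P.σ - P.ρ) * s) * Real.exp (P.ρ * s) := by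
        rw [← Real.exp_add]; congr 1; ring
      calc C1 * Real.exp (P.σ * w.re) ≤ C1 * (Real.exp P.σ * Real.exp (P.σ * s)) := by gcongr
        _ = (C1 * Real.exp P.σ * Real.exp ((P.σ - P.ρ) * s)) * Real.exp (P.ρ * s) := by
            rw [k2]; ring
        _ ≤ (P.H * P.ρ ^ 2 / 8) * Real.exp (P.ρ * s) := by gcongr
        _ = 1 / 8 * Λ := by rw [hΛ]; ring
    have b3 : ‖P.H₁ * P.σ₁ ^ 2 * exp (P.σ₁ * w) / (Λ : ℂ)‖ ≤ 1 / 8 := by
      rw [norm_div, Complex.norm_real, Real.norm_of_nonneg hΛ0.le, div_le_iff₀ hΛ0]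
      rw [norm_mul, Complex.norm_exp]
      have n0 : ‖(P.H₁ : ℂ) * P.σ₁ ^ 2‖ = P.H₁ * P.σ₁ ^ 2 := by
        rw [norm_mul, norm_pow, Complex.norm_real, Complex.norm_real,
          Real.norm_of_nonneg hP.H₁0, Real.norm_of_nonneg hP.σ₁0.le]
      rw [n0]
      have n1 : ((P.σ₁ : ℂ) * w).re = P.σ₁ * w.re := by simp
      rw [n1]
      have k1 : Real.exp (P.σ₁ * w.re) ≤ Real.exp P.σ₁ * Real.exp (P.σ₁ * s) := by
        rw [← Real.exp_add]
        exact Real.exp_le_exp.mpr (by nlinarith [hP.σ₁0])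
      have k2 : Real.exp (P.σ₁ * s) = Real.exp ((P.σ₁ - P.ρ) * s) * Real.exp (P.ρ * s) := by
        rw [← Real.exp_add]; congr 1; ring
      have hh : 0 ≤ P.H₁ * P.σ₁ ^ 2 := mul_nonneg hP.H₁0 (by positivity)
      calc P.H₁ * P.σ₁ ^ 2 * Real.exp (P.σ₁ * w.re)
          ≤ P.H₁ * P.σ₁ ^ 2 * (Real.exp P.σ₁ * Real.exp (P.σ₁ * s)) := by gcongr
        _ = (P.H₁ * P.σ₁ ^ 2 * Real.exp P.σ₁ * Real.exp ((P.σ₁ - P.ρ) * s))
            * Real.exp (P.ρ * s) := by rw [k2]; ring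
        _ ≤ (P.H * P.ρ ^ 2 / 8) * Real.exp (P.ρ * s) := by gcongr
        _ = 1 / 8 * Λ := by rw [hΛ]; ring
    rw [e2]
    calc _ ≤ ‖-(exp (P.ρ * (w - z₀)) - 1)
        - (iteratedDeriv 2 K w - (P.H * P.ρ ^ 2 * exp (P.ρ * w) +
        P.H₁ * P.σ₁ ^ 2 * exp (P.σ₁ * w))) / Λ‖ + ‖P.H₁ * P.σ₁ ^ 2 * exp (P.σ₁ * w) / (Λ : ℂ)‖ :=
          norm_sub_le _ _
      _ ≤ (‖-(exp (P.ρ * (w - z₀)) - 1)‖ + ‖(iteratedDeriv 2 K w -
        (P.H * P.ρ ^ 2 * exp (P.ρ * w) + P.H₁ * P.σ₁ ^ 2 * exp (P.σ₁ * w))) / Λ‖)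
        + ‖P.H₁ * P.σ₁ ^ 2 * exp (P.σ₁ * w) / (Λ : ℂ)‖ := by
          gcongr
          exact norm_sub_le _ _
      _ ≤ (1 / 8 + 1 / 8) + 1 / 8 := by
          rw [norm_neg]
          gcongr
      _ ≤ 1 / 2 := by norm_num
  -- the contraction
  set T : ℂ → ℂ := fun w => w - (deriv K w - m) / Λ with hT
  have hTd : ∀ w ∈ Metric.closedBall z₀ r,
      HasDerivWithinAt T (1 - iteratedDeriv 2 K w / Λ) (Metric.closedBall z₀ r) w := by
    intro w hw
    exact ((hasDerivAt_id w).sub (((hd2 w hw).sub_const m).div_const (Λ : ℂ))).hasDerivWithinAt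
  have hTl : ∀ x ∈ Metric.closedBall z₀ r, ∀ y ∈ Metric.closedBall z₀ r,
      ‖T y - T x‖ ≤ 1 / 2 * ‖y - x‖ := fun x hx y hy =>
    (convex_closedBall z₀ r).norm_image_sub_le_of_norm_hasDerivWithin_le hTd hb2 hx hy
  have hz₀mem : z₀ ∈ Metric.closedBall z₀ r := Metric.mem_closedBall_self hr0.le
  -- the value at the centre
  have hT0 : ‖T z₀ - z₀‖ ≤ r / 2 := by
    obtain ⟨g1, g2, g3⟩ := hball z₀ hz₀mem
    have h := h3 z₀ g1 g2 1 (by simp)
    have hsm : (s : ℂ) ∈ DS P.θ₀ (3 / 2 * P.τ) := Or.inl (by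
      simp only [Complex.ofReal_im, abs_zero]; positivity)
    have h' := h3 s hsm (by simp only [Complex.ofReal_re]; linarith) 1 (by simp)
    rw [iteratedDeriv_one] at h h'
    rw [hm] at h'
    rw [hz₀re] at h
    rw [Complex.ofReal_re] at h'
    have e1 : exp (P.ρ * (s : ℂ)) = (Real.exp (P.ρ * s) : ℂ) := by push_cast; rfl
    have e2 : exp (P.σ₁ * (s : ℂ)) = (Real.exp (P.σ₁ * s) : ℂ) := by push_cast; rfl
    rw [hz₀, S4_exp_rho P hP s, S4_exp_sigma P hP s, ← hz₀] at h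
    rw [e1, e2] at h'
    have h4 : ‖deriv K z₀ - m‖ ≤ 2 * (C1 * Real.exp (P.σ * s)) := by
      have : deriv K z₀ - m = (deriv K z₀ - (P.H * P.ρ ^ 1 * (Real.exp (P.ρ * s) : ℂ) +
          P.H₁ * P.σ₁ ^ 1 * (Real.exp (P.σ₁ * s) : ℂ)))
        - (m - (P.H * P.ρ ^ 1 * (Real.exp (P.ρ * s) : ℂ) +
          P.H₁ * P.σ₁ ^ 1 * (Real.exp (P.σ₁ * s) : ℂ))) := by ring
      rw [this]
      refine (norm_sub_le _ _).trans ?_
      linarith
    have h5 : T z₀ - z₀ = -((deriv K z₀ - m) / Λ) := by rw [hT]; ring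
    rw [h5, norm_neg, norm_div, Complex.norm_real, Real.norm_of_nonneg hΛ0.le, div_le_iff₀ hΛ0]
    refine h4.trans (le_of_eq ?_)
    have k2 : Real.exp (P.σ * s) = Real.exp ((P.σ - P.ρ) * s) * Real.exp (P.ρ * s) := by
      rw [← Real.exp_add]; congr 1; ring
    rw [hr, hΛ, k2]
    field_simp
    ring
  have hmaps : MapsTo T (Metric.closedBall z₀ r) (Metric.closedBall z₀ r) := by
    intro w hw
    have h1 := hTl z₀ hz₀mem w hw
    rw [Metric.mem_closedBall, dist_eq_norm] at hw ⊢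
    calc ‖T w - z₀‖ = ‖(T w - T z₀) + (T z₀ - z₀)‖ := by congr 1; ring
      _ ≤ ‖T w - T z₀‖ + ‖T z₀ - z₀‖ := norm_add_le _ _
      _ ≤ 1 / 2 * r + r / 2 := by
          refine add_le_add (h1.trans ?_) hT0
          gcongr
      _ = r := by ring
  have hcw : ContractingWith (1 / 2) (hmaps.restrict T _ _) := by
    refine ⟨by
      rw [← NNReal.coe_lt_coe]; push_cast; norm_num, ?_⟩
    refine LipschitzWith.of_dist_le_mul fun x y => ?_
    have := hTl y y.2 x x.2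
    rw [Subtype.dist_eq, Subtype.dist_eq, dist_eq_norm, dist_eq_norm]
    push_cast
    exact this
  obtain ⟨w, hw, hfix, -⟩ := hcw.exists_fixedPoint' Metric.isClosed_closedBall.isComplete hmaps
    hz₀mem (edist_ne_top _ _)
  refine ⟨w, ?_, ?_⟩
  · have h1 : T w = w := hfix
    have h2 : (deriv K w - m) / Λ = 0 := by
      have : w - (deriv K w - m) / Λ = w := h1
      linear_combination -this
    rw [div_eq_zero_iff] at h2
    rcases h2 with h2 | h2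
    · exact sub_eq_zero.mp h2
    · exact absurd h2 hΛc
  · rw [Metric.mem_closedBall, dist_eq_norm] at hw
    exact hw

/-- Existence of the saddle points. `K'` is real and increasing on `[s₀, ∞)` (intermediate value
theorem); `w₁` by the contraction `w ↦ w - (K' w - m) / Λ`, `Λ = H ρ^2 e^{ρ s}`, on the ball
around `s + i θ₀` with radius `C e^{(σ - ρ) s}`; note
`K' (s + i θ₀) - K' s = O (e^{σ s})` because `exp (ρ θ₀ i) = 1` and `H₁ = 0 ∨ exp (σ₁ θ₀ i) = 1`. -/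
theorem exists_sad (P : CP) (hP : P.Ok) : ∃ (m₀ : ℕ) (C' : ℝ), 0 < C' ∧ ∀ f K, Cls P f K →
    ∃ (s : ℕ → ℝ) (w₁ : ℕ → ℂ), Sad P K m₀ C' s w₁ := by
  obtain ⟨C1, hC1, h3⟩ := deriv_bounds P hP
  obtain ⟨s₀, hs₀2, hcon⟩ := S4_contr P hP C1 hC1
  have hH := hP.H0
  have hρ : 0 < P.ρ := lt_trans one_pos hP.ρ1
  have hσ := hP.σ0
  have hσ₁ := hP.σ₁0
  have hH₁ := hP.H₁0
  set A : ℝ := P.H * P.ρ + P.H₁ * P.σ₁ + C1 with hA
  have hA0 : 0 < A := by positivity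
  -- upper bound of the derivative
  have hup : ∀ f K, Cls P f K → ∀ x : ℝ, 1 ≤ x → (deriv K x).re ≤ A * Real.exp (P.ρ * x) := by
    intro f K hcl x hx
    have h := (abs_le.mp (S4_real_bound P hP hcl (h3 f K hcl) x hx)).2
    have k1 : Real.exp (P.σ₁ * x) ≤ Real.exp (P.ρ * x) :=
      Real.exp_le_exp.mpr (by nlinarith [hP.σ₁ρ])
    have k2 : Real.exp (P.σ * x) ≤ Real.exp (P.ρ * x) :=
      Real.exp_le_exp.mpr (by nlinarith [hP.σρ])
    have k3 : P.H₁ * P.σ₁ * Real.exp (P.σ₁ * x) ≤ P.H₁ * P.σ₁ * Real.exp (P.ρ * x) := by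
      gcongr
    have k4 : C1 * Real.exp (P.σ * x) ≤ C1 * Real.exp (P.ρ * x) := by gcongr
    rw [hA]
    nlinarith
  obtain ⟨m₀, hm₀⟩ := exists_nat_gt (A * Real.exp (P.ρ * s₀))
  have key : ∀ f K, Cls P f K → ∀ m : ℕ, m₀ ≤ m → ∃ (s : ℝ) (w : ℂ), 2 ≤ s ∧ deriv K s = m ∧
      deriv K w = m ∧ ‖w - (s + P.θ₀ * I)‖ ≤
        4 * C1 / (P.H * P.ρ ^ 2) * Real.exp ((P.σ - P.ρ) * s) ∧
      |(m : ℝ) - P.H * P.ρ * Real.exp (P.ρ * s)| ≤ A * Real.exp (max P.σ P.σ₁ * s) := by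
    intro f K hcl m hm
    have hmlt : A * Real.exp (P.ρ * s₀) < m := lt_of_lt_of_le hm₀ (by exact_mod_cast hm)
    -- a point where the derivative is at least `m`
    obtain ⟨b, hb2, hb⟩ : ∃ b : ℝ, s₀ ≤ b ∧ (m : ℝ) ≤ (deriv K b).re := by
      obtain ⟨b1, hb1⟩ := S4_small (P.σ - P.ρ) C1 (P.H * P.ρ / 2) (by linarith [hP.σρ])
        (by positivity)
      obtain ⟨b2, hb2⟩ := S4_small (-P.ρ) (m : ℝ) (P.H * P.ρ / 2) (by linarith)
        (by positivity)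
      refine ⟨max s₀ (max b1 b2), le_max_left _ _, ?_⟩
      set b := max s₀ (max b1 b2) with hbdef
      have hbs : s₀ ≤ b := le_max_left _ _
      have h1 := hb1 b ((le_max_left _ _).trans (le_max_right _ _))
      have h2 := hb2 b ((le_max_right _ _).trans (le_max_right _ _))
      have h := (abs_le.mp (S4_real_bound P hP hcl (h3 f K hcl) b (by linarith))).1
      have k2 : Real.exp (P.σ * b) = Real.exp ((P.σ - P.ρ) * b) * Real.exp (P.ρ * b) := by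
        rw [← Real.exp_add]; congr 1; ring
      have k3 : Real.exp (-P.ρ * b) * Real.exp (P.ρ * b) = 1 := by
        rw [← Real.exp_add, neg_mul, neg_add_cancel, Real.exp_zero]
      have k4 : 0 < Real.exp (P.ρ * b) := Real.exp_pos _
      have k5 : C1 * Real.exp (P.σ * b) ≤ P.H * P.ρ / 2 * Real.exp (P.ρ * b) := by
        rw [k2, ← mul_assoc]
        gcongr
      have k6 : (m : ℝ) ≤ P.H * P.ρ / 2 * Real.exp (P.ρ * b) := by
        calc (m : ℝ) = m * (Real.exp (-P.ρ * b) * Real.exp (P.ρ * b)) := by rw [k3, mul_one]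
          _ = (m * Real.exp (-P.ρ * b)) * Real.exp (P.ρ * b) := by ring
          _ ≤ P.H * P.ρ / 2 * Real.exp (P.ρ * b) := by gcongr
      have k7 : 0 ≤ P.H₁ * P.σ₁ * Real.exp (P.σ₁ * b) := by positivity
      nlinarith
    have hcont : ContinuousOn (fun x : ℝ => (deriv K x).re) (Icc s₀ b) := by
      intro x _
      have hx : (x : ℂ) ∈ DS P.θ₀ (2 * P.τ) := Or.inl (by
        have := hP.τ0
        simp only [Complex.ofReal_im, abs_zero]; positivity)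
      have h1 : ContinuousAt (deriv K) (x : ℂ) :=
        (((S4_diff_deriv hcl.an) x hx).differentiableAt
          ((S4_isOpen_DS _ _).mem_nhds hx)).continuousAt
      have h2 : ContinuousAt (fun x : ℝ => deriv K x) x :=
        ContinuousAt.comp (f := fun x : ℝ => (x : ℂ)) h1 Complex.continuous_ofReal.continuousAt
      exact (Complex.continuous_re.continuousAt.comp h2).continuousWithinAt
    have hlow : (deriv K s₀).re ≤ m :=
      (hup f K hcl s₀ (by linarith)).trans hmlt.le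
    obtain ⟨s, hs, hsm⟩ := intermediate_value_Icc hb2 hcont ⟨hlow, hb⟩
    have hsm' : deriv K s = m := by
      apply Complex.ext
      · rw [Complex.natCast_re]; exact hsm
      · rw [Complex.natCast_im]
        exact S4_deriv_im hcl.an (by have := hP.τ0; positivity) hcl.re s
    obtain ⟨w, hw, hwn⟩ := hcon f K hcl (h3 f K hcl) s hs.1 m hsm'
    refine ⟨s, w, le_trans hs₀2 hs.1, hsm', hw, hwn, ?_⟩
    have hs1 : 1 ≤ s := by linarith [hs.1]
    have h := S4_real_bound P hP hcl (h3 f K hcl) s hs1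
    have hsm2 : (deriv K s).re = m := hsm
    rw [hsm2] at h
    have k1 : Real.exp (P.σ₁ * s) ≤ Real.exp (max P.σ P.σ₁ * s) :=
      Real.exp_le_exp.mpr (mul_le_mul_of_nonneg_right (le_max_right _ _) (by linarith))
    have k2 : Real.exp (P.σ * s) ≤ Real.exp (max P.σ P.σ₁ * s) :=
      Real.exp_le_exp.mpr (mul_le_mul_of_nonneg_right (le_max_left _ _) (by linarith))
    have k3 : P.H₁ * P.σ₁ * Real.exp (P.σ₁ * s)
        ≤ P.H₁ * P.σ₁ * Real.exp (max P.σ P.σ₁ * s) := by gcongr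
    have k4 : C1 * Real.exp (P.σ * s) ≤ C1 * Real.exp (max P.σ P.σ₁ * s) := by gcongr
    have k5 : 0 ≤ P.H₁ * P.σ₁ * Real.exp (P.σ₁ * s) := by positivity
    have k6 : 0 ≤ P.H * P.ρ * Real.exp (max P.σ P.σ₁ * s) := by positivity
    rw [abs_le] at h ⊢
    rw [hA]
    constructor <;> nlinarith [h.1, h.2]
  set C' : ℝ := max (4 * C1 / (P.H * P.ρ ^ 2)) A with hC'
  refine ⟨m₀, C', lt_of_lt_of_le hA0 (le_max_right _ _), ?_⟩
  intro f K hcl
  choose! s w hsw using key f K hcl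
  refine ⟨s, w, fun m hm => ?_⟩
  obtain ⟨h1, h2, h4, h5, h6⟩ := hsw m hm
  refine ⟨h1, h2, h4, h5.trans ?_, h6.trans ?_⟩
  · gcongr
    exact le_max_left _ _
  · gcongr
    exact le_max_right _ _

end Pool.Agent.helper74.LG
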