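import Pool.Agent.helper74.LG.S3
import Pool.Agent.helper74.LG.S4

set_option autoImplicit false

namespace Pool.Agent.helper74.LG

open Complex Set Filter Topology MeasureTheory

theorem S9_large (P : CP) (hP : P.Ok) (m₀ : ℕ) (C' : ℝ) (hC' : 0 < C') (s₀ : ℝ) :
    ∃ m₁ : ℕ, m₀ ≤ m₁ ∧ ∀ K s w₁, Sad P K m₀ C' s w₁ → ∀ m : ℕ, m₁ ≤ m → s₀ ≤ s m := by
  have hH := hP.H0
  have hρ : 0 < P.ρ := lt_trans one_pos hP.ρ1
  obtain ⟨n, hn⟩ := exists_nat_gt ((P.H * P.ρ + C') * Real.exp (P.ρ * s₀))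
  refine ⟨max m₀ n, le_max_left _ _, ?_⟩
  intro K s w₁ hS m hm
  obtain ⟨h1, -, -, -, h5⟩ := hS m ((le_max_left _ _).trans hm)
  by_contra hlt
  rw [not_le] at hlt
  have h2 := (abs_le.mp h5).2
  have k1 : Real.exp (max P.σ P.σ₁ * s m) ≤ Real.exp (P.ρ * s m) :=
    Real.exp_le_exp.mpr (mul_le_mul_of_nonneg_right (max_le hP.σρ.le hP.σ₁ρ.le) (by linarith))
  have k2 : Real.exp (P.ρ * s m) ≤ Real.exp (P.ρ * s₀) :=
    Real.exp_le_exp.mpr (mul_le_mul_of_nonneg_left hlt.le hρ.le)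
  have k3 : (m : ℝ) ≤ (P.H * P.ρ + C') * Real.exp (P.ρ * s m) := by
    have : C' * Real.exp (max P.σ P.σ₁ * s m) ≤ C' * Real.exp (P.ρ * s m) := by gcongr
    nlinarith
  have k4 : (P.H * P.ρ + C') * Real.exp (P.ρ * s m) ≤ (P.H * P.ρ + C') * Real.exp (P.ρ * s₀) := by
    gcongr
  have k5 : (n : ℝ) ≤ m := by exact_mod_cast (le_max_right _ _).trans hm
  linarith

/-- The modulus of `X`: with `φ w = K w - m w`, `φ' w₁ = 0`, so
`|φ (s + i θ₀) - φ w₁| ≤ sup |K''| |w₁ - s - i θ₀|^2 ≤ C e^{(2σ - ρ) s}`; and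
`Re (m i θ₀) = 0`. -/
theorem sp_mod (P : CP) (hP : P.Ok) (m₀ : ℕ) (C' : ℝ) (hC' : 0 < C') :
    ∃ (m₁ : ℕ) (C'' : ℝ), 0 < C'' ∧ ∀ f K s w₁, Cls P f K → Sad P K m₀ C' s w₁ →
      ∀ m : ℕ, m₁ ≤ m →
      |Real.log ‖Xof K s w₁ m‖ + ((K (s m)).re - (K (s m + P.θ₀ * I)).re)| ≤
        C'' * Real.exp ((2 * P.σ - P.ρ) * s m) := by
  obtain ⟨C1, hC1, h3⟩ := deriv_bounds P hP
  have hH := hP.H0
  have hρ : 0 < P.ρ := lt_trans one_pos hP.ρ1
  have hσ := hP.σ0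
  have hσ₁ := hP.σ₁0
  have hH₁ := hP.H₁0
  have hτ := hP.τ0
  have hτ1 := hP.τ1
  have hτs : 32 * P.τ ≤ 1 := by nlinarith
  set A : ℝ := P.H * P.ρ ^ 2 + P.H₁ * P.σ₁ ^ 2 + C1 with hA
  have hA0 : 0 < A := by positivity
  obtain ⟨s₀, hs₀⟩ := S4_small (P.σ - P.ρ) C' P.τ (by linarith [hP.σρ]) hτ
  obtain ⟨m₁, hm₀₁, hm₁⟩ := S9_large P hP m₀ C' hC' s₀
  refine ⟨m₁, 2 * (A * Real.exp P.ρ) * C' ^ 2, by positivity, ?_⟩
  intro f K s w₁ hcl hS m hm
  have hsm := hm₁ K s w₁ hS m hm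
  obtain ⟨h1, -, hw, hwn, -⟩ := hS m (hm₀₁.trans hm)
  have hr := hs₀ _ hsm
  have hXof : Xof K s w₁ m = exp (K (w₁ m) - m * w₁ m - K (s m) + m * (s m)) := rfl
  rw [hXof]
  generalize s m = t at h1 hsm hwn hr ⊢
  generalize w₁ m = v at hw hwn ⊢
  set R : ℝ := C' * Real.exp ((P.σ - P.ρ) * t) with hR
  set M : ℝ := A * Real.exp P.ρ * Real.exp (P.ρ * t) with hM
  have hR0 : 0 < R := by positivity
  have hM0 : 0 < M := by positivity
  set z₀ : ℂ := t + P.θ₀ * I with hz₀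
  have hz₀re : z₀.re = t := by simp [hz₀]
  have hz₀im : z₀.im = P.θ₀ := by simp [hz₀]
  -- the ball is in the domain
  have hball : ∀ w ∈ Metric.closedBall z₀ R, w ∈ DS P.θ₀ (3 / 2 * P.τ) ∧ 1 ≤ w.re ∧
      w.re ≤ t + 1 := by
    intro w hw
    rw [Metric.mem_closedBall, dist_eq_norm] at hw
    have h1 := (Complex.abs_im_le_norm (w - z₀)).trans hw
    have h2 := (Complex.abs_re_le_norm (w - z₀)).trans hw
    rw [Complex.sub_im, hz₀im] at h1
    rw [Complex.sub_re, hz₀re] at h2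
    refine ⟨Or.inr (by linarith), ?_, ?_⟩
    · have := (abs_le.mp h2).1
      linarith
    · have := (abs_le.mp h2).2
      linarith
  have hsub : ∀ w ∈ Metric.closedBall z₀ R, w ∈ DS P.θ₀ (2 * P.τ) := fun w hw =>
    S4_DS_mono P.θ₀ (by linarith) (hball w hw).1
  -- the derivatives
  have hd1 : ∀ w ∈ Metric.closedBall z₀ R, HasDerivAt K (deriv K w) w := fun w hw =>
    ((hcl.an w (hsub w hw)).differentiableAt
      ((S4_isOpen_DS _ _).mem_nhds (hsub w hw))).hasDerivAt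
  have hd2 : ∀ w ∈ Metric.closedBall z₀ R, HasDerivAt (deriv K) (iteratedDeriv 2 K w) w := by
    intro w hw
    have h1 := ((S4_diff_deriv hcl.an) w (hsub w hw)).differentiableAt
      ((S4_isOpen_DS _ _).mem_nhds (hsub w hw))
    have h2 : iteratedDeriv 2 K w = deriv (deriv K) w := by
      rw [iteratedDeriv_succ, iteratedDeriv_one]
    rw [h2]
    exact h1.hasDerivAt
  have hb2 : ∀ w ∈ Metric.closedBall z₀ R, ‖iteratedDeriv 2 K w‖ ≤ M := by
    intro w hw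
    obtain ⟨g1, g2, g3⟩ := hball w hw
    have h := h3 f K hcl w g1 g2 2 (by simp)
    have n1 : ‖(P.H : ℂ) * P.ρ ^ 2 * exp (P.ρ * w)‖ = P.H * P.ρ ^ 2 * Real.exp (P.ρ * w.re) := by
      rw [norm_mul, norm_mul, norm_pow, Complex.norm_exp, Complex.norm_real, Complex.norm_real,
        Real.norm_of_nonneg hH.le, Real.norm_of_nonneg hρ.le]
      simp
    have n2 : ‖(P.H₁ : ℂ) * P.σ₁ ^ 2 * exp (P.σ₁ * w)‖
        = P.H₁ * P.σ₁ ^ 2 * Real.exp (P.σ₁ * w.re) := by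
      rw [norm_mul, norm_mul, norm_pow, Complex.norm_exp, Complex.norm_real, Complex.norm_real,
        Real.norm_of_nonneg hH₁, Real.norm_of_nonneg hσ₁.le]
      simp
    have k0 : Real.exp (P.ρ * w.re) ≤ Real.exp P.ρ * Real.exp (P.ρ * t) := by
      rw [← Real.exp_add]
      exact Real.exp_le_exp.mpr (by nlinarith)
    have k1 : Real.exp (P.σ₁ * w.re) ≤ Real.exp P.ρ * Real.exp (P.ρ * t) := by
      refine le_trans (Real.exp_le_exp.mpr ?_) k0
      exact mul_le_mul_of_nonneg_right hP.σ₁ρ.le (by linarith)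
    have k2 : Real.exp (P.σ * w.re) ≤ Real.exp P.ρ * Real.exp (P.ρ * t) := by
      refine le_trans (Real.exp_le_exp.mpr ?_) k0
      exact mul_le_mul_of_nonneg_right hP.σρ.le (by linarith)
    have e1 : iteratedDeriv 2 K w = (iteratedDeriv 2 K w - (P.H * P.ρ ^ 2 * exp (P.ρ * w) +
        P.H₁ * P.σ₁ ^ 2 * exp (P.σ₁ * w))) + (P.H * P.ρ ^ 2 * exp (P.ρ * w) +
        P.H₁ * P.σ₁ ^ 2 * exp (P.σ₁ * w)) := by ring
    rw [e1]
    calc _ ≤ C1 * Real.exp (P.σ * w.re) + (P.H * P.ρ ^ 2 * Real.exp (P.ρ * w.re) +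
          P.H₁ * P.σ₁ ^ 2 * Real.exp (P.σ₁ * w.re)) := by
          refine (norm_add_le _ _).trans (add_le_add h ?_)
          refine (norm_add_le _ _).trans ?_
          rw [n1, n2]
      _ ≤ C1 * (Real.exp P.ρ * Real.exp (P.ρ * t)) + (P.H * P.ρ ^ 2 *
          (Real.exp P.ρ * Real.exp (P.ρ * t)) +
          P.H₁ * P.σ₁ ^ 2 * (Real.exp P.ρ * Real.exp (P.ρ * t))) := by gcongr
      _ = M := by rw [hM, hA]; ring
  have hvmem : v ∈ Metric.closedBall z₀ R := by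
    rw [Metric.mem_closedBall, dist_eq_norm]; exact hwn
  have hzmem : z₀ ∈ Metric.closedBall z₀ R := Metric.mem_closedBall_self hR0.le
  have hφd : ∀ w ∈ Metric.closedBall z₀ R,
      HasDerivWithinAt (fun w => K w - m * w) (deriv K w - m) (Metric.closedBall z₀ R) w := by
    intro w hw
    have := (hd1 w hw).sub ((hasDerivAt_id w).const_mul (m : ℂ))
    rw [mul_one] at this
    exact this.hasDerivWithinAt
  have hφb : ∀ w ∈ Metric.closedBall z₀ R, ‖deriv K w - m‖ ≤ M * (2 * R) := by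
    intro w hw'
    have g1 := (convex_closedBall z₀ R).norm_image_sub_le_of_norm_hasDerivWithin_le
      (fun x hx => (hd2 x hx).hasDerivWithinAt) hb2 hvmem hw'
    rw [hw] at g1
    refine g1.trans ?_
    gcongr
    rw [Metric.mem_closedBall, dist_eq_norm] at hw'
    calc ‖w - v‖ = ‖(w - z₀) - (v - z₀)‖ := by congr 1; ring
      _ ≤ ‖w - z₀‖ + ‖v - z₀‖ := norm_sub_le _ _
      _ ≤ R + R := add_le_add hw' hwn
      _ = 2 * R := by ring
  have hmain := (convex_closedBall z₀ R).norm_image_sub_le_of_norm_hasDerivWithin_le hφd hφb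
    hzmem hvmem
  have e4 : Real.log ‖exp (K v - m * v - K t + m * t)‖ + ((K t).re - (K z₀).re)
      = ((K v - m * v) - (K z₀ - m * z₀)).re := by
    rw [Complex.norm_exp, Real.log_exp]
    simp only [Complex.sub_re, Complex.add_re, Complex.mul_re, Complex.natCast_re,
      Complex.natCast_im, Complex.ofReal_re, Complex.ofReal_im, hz₀re, hz₀im]
    ring
  rw [e4]
  refine (Complex.abs_re_le_norm _).trans (hmain.trans ?_)
  have k3 : Real.exp ((2 * P.σ - P.ρ) * t)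
      = Real.exp (P.ρ * t) * Real.exp ((P.σ - P.ρ) * t) ^ 2 := by
    rw [← Real.exp_nat_mul, ← Real.exp_add]
    congr 1
    push_cast
    ring
  calc M * (2 * R) * ‖v - z₀‖ ≤ M * (2 * R) * R := by gcongr
    _ = 2 * (A * Real.exp P.ρ) * C' ^ 2 * Real.exp ((2 * P.σ - P.ρ) * t) := by
        rw [k3, hM, hR]; ring

end Pool.Agent.helper74.LG
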