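import Pool.Agent.helper74.LG.DB
import Pool.Agent.helper74.LG.S4
import Pool.Agent.helper74.LG.S6
import Pool.Agent.helper74.LG.S9
import Pool.Agent.helper74.LG.S5
import Pool.Agent.helper74.LG.PO

set_option autoImplicit false

namespace Pool.Agent.helper74.LG

open Complex Set Filter Topology MeasureTheory

theorem TP_mem_real (θ₀ t : ℝ) (ht : 0 < t) (x : ℝ) : (x : ℂ) ∈ DS θ₀ t := by
  left
  simpa using ht

theorem TP_mem_second (θ₀ t : ℝ) (ht : 0 < t) (s : ℝ) : (s + θ₀ * I : ℂ) ∈ DS θ₀ t := by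
  right
  simpa using ht

theorem TP_im_lt (θ₀ τ : ℝ) (hθ : Real.pi / 2 < θ₀) (hτ : 0 < τ) (hτ2 : θ₀ + 2 * τ < Real.pi) (w : ℂ)
    (hw : w ∈ DS θ₀ (2 * τ)) : |w.im| < θ₀ + 2 * τ := by
  have hpi := Real.pi_pos
  rcases hw with h | h
  · linarith
  · rw [abs_lt] at h ⊢
    constructor <;> linarith

theorem TP_slit (θ₀ τ : ℝ) (hθ : Real.pi / 2 < θ₀) (hτ : 0 < τ) (hτ2 : θ₀ + 2 * τ < Real.pi) (w : ℂ)
    (hw : w ∈ DS θ₀ (2 * τ)) : 1 + exp w ∈ Complex.slitPlane := by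
  have h1 := TP_im_lt θ₀ τ hθ hτ hτ2 w hw
  rw [Complex.mem_slitPlane_iff]
  by_contra hcon
  push Not at hcon
  obtain ⟨h2, h3⟩ := hcon
  rw [Complex.add_im, Complex.one_im, zero_add, Complex.exp_im] at h3
  rw [Complex.add_re, Complex.one_re, Complex.exp_re] at h2
  have h4 : Real.sin w.im = 0 := by
    rcases mul_eq_zero.1 h3 with h | h
    · exact absurd h (Real.exp_pos _).ne'
    · exact h
  have h5 : w.im = 0 := by
    rw [abs_lt] at h1
    exact (Real.sin_eq_zero_iff_of_lt_of_lt (by linarith) (by linarith)).1 h4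
  rw [h5, Real.cos_zero, mul_one] at h2
  linarith [Real.exp_pos w.re]

theorem TP_norm_lower (θ₀ τ : ℝ) (hθ : Real.pi / 2 < θ₀) (hτ : 0 < τ) (hτ2 : θ₀ + 2 * τ < Real.pi)
    (w : ℂ) (hw : w ∈ DS θ₀ (2 * τ)) : Real.sin (θ₀ + 2 * τ) ≤ ‖1 + exp w‖ := by
  have h1 := TP_im_lt θ₀ τ hθ hτ hτ2 w hw
  have hpi := Real.pi_pos
  have hsin : 0 < Real.sin (θ₀ + 2 * τ) := Real.sin_pos_of_pos_of_lt_pi (by linarith) hτ2
  have hsq : ‖1 + exp w‖ ^ 2 = (1 + Real.exp w.re * Real.cos w.im) ^ 2 +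
      (Real.exp w.re * Real.sin w.im) ^ 2 := by
    rw [← Complex.normSq_eq_norm_sq, Complex.normSq_apply, Complex.add_re, Complex.one_re,
      Complex.exp_re, Complex.add_im, Complex.one_im, zero_add, Complex.exp_im]
    ring
  rcases le_total 0 (Real.cos w.im) with hc | hc
  · have : 1 ≤ ‖1 + exp w‖ ^ 2 := by
      rw [hsq]
      have := mul_nonneg (Real.exp_pos w.re).le hc
      nlinarith [sq_nonneg (Real.exp w.re * Real.sin w.im)]
    have h2 : 1 ≤ ‖1 + exp w‖ := by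
      by_contra hcon
      push Not at hcon
      nlinarith [norm_nonneg (1 + exp w)]
    exact (Real.sin_le_one _).trans h2
  · -- then `π/2 ≤ |w.im|`
    have hcs : Real.cos (θ₀ + 2 * τ) ≤ Real.cos w.im := by
      rw [← Real.cos_abs w.im]
      exact Real.cos_le_cos_of_nonneg_of_le_pi (abs_nonneg _) hτ2.le h1.le
    have h3 : Real.sin (θ₀ + 2 * τ) ^ 2 ≤ Real.sin w.im ^ 2 := by
      have a1 := Real.sin_sq_add_cos_sq (θ₀ + 2 * τ)
      have a2 := Real.sin_sq_add_cos_sq w.im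
      nlinarith
    have h4 : Real.sin w.im ^ 2 ≤ ‖1 + exp w‖ ^ 2 := by
      rw [hsq]
      have a2 := Real.sin_sq_add_cos_sq w.im
      nlinarith [sq_nonneg (Real.exp w.re + Real.cos w.im)]
    exact le_of_sq_le_sq (h3.trans h4) (norm_nonneg _)

theorem TP_log_bound (θ₀ τ : ℝ) (hθ : Real.pi / 2 < θ₀) (hτ : 0 < τ) (hτ2 : θ₀ + 2 * τ < Real.pi)
    (w : ℂ) (hw : w ∈ DS θ₀ (2 * τ)) (hre : 0 ≤ w.re) :
    ‖log (1 + exp w)‖ ≤ (2 + 1 / Real.sin (θ₀ + 2 * τ) + Real.pi) * Real.exp w.re := by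
  have hpi := Real.pi_pos
  have hsin : 0 < Real.sin (θ₀ + 2 * τ) := Real.sin_pos_of_pos_of_lt_pi (by linarith) hτ2
  have h1 := TP_norm_lower θ₀ τ hθ hτ hτ2 w hw
  have hn : 0 < ‖1 + exp w‖ := hsin.trans_le h1
  have he : 1 ≤ Real.exp w.re := Real.one_le_exp hre
  have h2 : ‖1 + exp w‖ ≤ 2 * Real.exp w.re := by
    refine (norm_add_le _ _).trans ?_
    rw [norm_one, Complex.norm_exp]
    linarith
  have h3 : |Real.log ‖1 + exp w‖| ≤ 2 * Real.exp w.re + 1 / Real.sin (θ₀ + 2 * τ) := by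
    rw [abs_le]
    constructor
    · have h4 : -Real.log ‖1 + exp w‖ ≤ 1 / Real.sin (θ₀ + 2 * τ) := by
        rw [← Real.log_inv]
        have h5 := Real.log_le_sub_one_of_pos (inv_pos.2 hn)
        have h6 : ‖1 + exp w‖⁻¹ ≤ 1 / Real.sin (θ₀ + 2 * τ) := by
          rw [one_div]
          exact inv_anti₀ hsin h1
        linarith
      have := Real.exp_pos w.re
      linarith
    · have h5 := Real.log_le_sub_one_of_pos hn
      have : 0 < 1 / Real.sin (θ₀ + 2 * τ) := by positivity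
      linarith
  have h4 : ‖log (1 + exp w)‖ ≤ |(log (1 + exp w)).re| + |(log (1 + exp w)).im| :=
    Complex.norm_le_abs_re_add_abs_im _
  rw [Complex.log_re, Complex.log_im] at h4
  have h5 := Complex.abs_arg_le_pi (1 + exp w)
  have h6 : 0 < 1 / Real.sin (θ₀ + 2 * τ) := by positivity
  nlinarith

theorem TP_f_pos (θ₀ τ : ℝ) (hτ : 0 < τ) (d : ℕ) (hd : 2 ≤ d) (Ψ KΨ : ℂ → ℂ)
    (hex : ∀ w ∈ DS θ₀ (2 * τ), exp (KΨ w) = Ψ (exp w)) (hre : ∀ x : ℝ, (KΨ x).im = 0)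
    (hz0 : 0 < (Ψ 0).re) (x : ℝ) (hx : 0 ≤ x) : 0 < (Ψ x * exp ((x : ℂ) ^ d)).re := by
  have he : exp ((x : ℂ) ^ d) = ((Real.exp (x ^ d) : ℝ) : ℂ) := by push_cast; rfl
  rw [he, Complex.re_mul_ofReal]
  refine mul_pos ?_ (Real.exp_pos _)
  rcases hx.eq_or_lt with h | h
  · rw [← h]; simpa using hz0
  · have h1 := hex (Real.log x) (TP_mem_real θ₀ (2 * τ) (by positivity) _)
    rw [← Complex.ofReal_exp, Real.exp_log h] at h1
    have h2 : KΨ (Real.log x) = (((KΨ (Real.log x)).re : ℝ) : ℂ) := by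
      apply Complex.ext
      · simp
      · simp [hre]
    rw [← h1, h2, Complex.exp_ofReal_re]
    exact Real.exp_pos _

/-- the difference of the two real parts -/
theorem TP_gap (ρ H σ₁ H₁ θ₀ τ : ℝ) (d : ℕ) (KΨ : ℂ → ℂ) (hτ : 0 < τ)
    (hper : exp (ρ * θ₀ * I) = 1) (hper₁ : H₁ = 0 ∨ exp (σ₁ * θ₀ * I) = 1) (C : ℝ)
    (hasy : ∀ w ∈ DS θ₀ (2 * τ), 0 ≤ w.re →
      ‖KΨ w - (H * exp (ρ * w) + H₁ * exp (σ₁ * w))‖ ≤ C * Real.exp w.re) (s : ℝ) (hs : 0 ≤ s) :
    (1 - Real.cos (d * θ₀)) * Real.exp (d * s) - 2 * C * Real.exp s ≤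
      (KΨ s + exp (d * s)).re - (KΨ (s + θ₀ * I) + exp (d * (s + θ₀ * I))).re := by
  have h1 := hasy s (TP_mem_real θ₀ (2 * τ) (by positivity) s) (by simpa using hs)
  have h2 := hasy (s + θ₀ * I) (TP_mem_second θ₀ (2 * τ) (by positivity) s) (by simpa using hs)
  have e1 : (H : ℂ) * exp (ρ * (s + θ₀ * I)) + H₁ * exp (σ₁ * (s + θ₀ * I)) =
      H * exp (ρ * s) + H₁ * exp (σ₁ * s) := by
    have a1 : exp ((ρ : ℂ) * (s + θ₀ * I)) = exp (ρ * s) := by
      rw [mul_add, Complex.exp_add, ← mul_assoc, hper, mul_one]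
    rw [a1]
    rcases hper₁ with h | h
    · rw [h]; simp
    · have a2 : exp ((σ₁ : ℂ) * (s + θ₀ * I)) = exp (σ₁ * s) := by
        rw [mul_add, Complex.exp_add, ← mul_assoc, h, mul_one]
      rw [a2]
  rw [e1] at h2
  set Q : ℂ := H * exp (ρ * s) + H₁ * exp (σ₁ * s) with hQ
  have r1 : |(KΨ s - Q).re| ≤ C * Real.exp s := by
    have := (Complex.abs_re_le_norm _).trans h1
    simpa using this
  have r2 : |(KΨ (s + θ₀ * I) - Q).re| ≤ C * Real.exp s := by
    have := (Complex.abs_re_le_norm _).trans h2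
    simpa using this
  rw [Complex.sub_re, abs_le] at r1 r2
  have e2 : (exp ((d : ℂ) * s)).re = Real.exp (d * s) := by
    rw [Complex.exp_re]; simp
  have e3 : (exp ((d : ℂ) * (s + θ₀ * I))).re = Real.exp (d * s) * Real.cos (d * θ₀) := by
    rw [Complex.exp_re]; simp
  rw [Complex.add_re, Complex.add_re, e2, e3]
  nlinarith [r1.1, r2.2]

/-- Eventually positive coefficients of the base function, and multiplication by `(1+z)^M`.
By `base_cls` (small `ε`), `exists_sad`, `sp_main`, `sp_mod`: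
`log ‖X m‖ = -(Re (K s) - Re (K (s + iθ₀))) + O (e^{(2(d+ε) - ρ) s})`, and
`Re (K s) - Re (K (s + iθ₀)) ≥ (1 - cos dθ₀) e^{ds} - 2 C e^s`, so `X m → 0` and the coefficients of
`Ψ e^{z^d}` are eventually positive; then `polya`. Multiplication by `(1+z)^M` keeps `Base`
(`|1 + r e^{iθ}| ≤ 1 + r`, `log (1 + e^w) = O (e^{Re w})`, analytic for `|Im w| < π`). -/
theorem base_polya (ρ H σ₁ H₁ θ₀ τ δ₀ : ℝ) (d : ℕ) (E : Set ℝ) (Ψ KΨ : ℂ → ℂ)
    (hB : Base ρ H σ₁ H₁ θ₀ τ δ₀ d E Ψ KΨ) (hd : 2 ≤ d) (hdρ : (d : ℝ) < ρ)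
    (hH : 0 < H) (hσ₁ : 0 < σ₁) (hσρ : σ₁ < ρ) (hH₁ : 0 ≤ H₁) (hθ : Real.pi / 2 < θ₀)
    (hθ' : θ₀ < Real.pi) (hτ : 0 < τ) (hτ1 : 32 * (ρ + 1) * τ ≤ 1) (hτ2 : θ₀ + 2 * τ < Real.pi)
    (hper : exp (ρ * θ₀ * I) = 1) (hper₁ : H₁ = 0 ∨ exp (σ₁ * θ₀ * I) = 1)
    (hb : Real.cos (d * θ₀) < 1)
    (hE : E ⊆ Icc 0 Real.pi) (c₃ : ℝ) (hc₃ : 0 < c₃) (hE3 : ∀ θ ∈ E, c₃ ≤ 1 - Real.cos (d * θ)) :
    ∃ M : ℕ, Base ρ H σ₁ H₁ θ₀ τ δ₀ d E (fun z => (1 + z) ^ M * Ψ z)
        (fun w => KΨ w + M * log (1 + exp w)) ∧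
      ∀ m, 0 < rco (fun z => (1 + z) ^ M * Ψ z * exp (z ^ d)) m := by
  have hpi := Real.pi_pos
  have hdR : (2 : ℝ) ≤ d := by exact_mod_cast hd
  obtain ⟨C₁, hasy⟩ := hB.asy
  -- eventually positive coefficients
  have hev : ∃ m₀ : ℕ, ∀ m, m₀ ≤ m → 0 < rco (fun z => Ψ z * exp (z ^ d)) m := by
    obtain ⟨ε₀, hε₀, hcls⟩ := base_cls ρ H σ₁ H₁ θ₀ τ δ₀ d E Ψ KΨ hB hd hdρ hτ c₃ hE hc₃ hE3
    set ε : ℝ := min (min ε₀ ((ρ - d) / 4)) 1 with hε
    have hε0 : 0 < ε := lt_min (lt_min hε₀ (by linarith)) one_pos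
    have hε1 : ε ≤ ε₀ := (min_le_left _ _).trans (min_le_left _ _)
    have hε2 : ε ≤ (ρ - d) / 4 := (min_le_left _ _).trans (min_le_right _ _)
    have hε3 : ε ≤ 1 := min_le_right _ _
    obtain ⟨C, c, C₀, hC, hc, hK⟩ := hcls ε hε0 hε1
    set P : CP := ⟨ρ, H, σ₁, H₁, θ₀, τ, d + ε, C, d - ε, c, C₀⟩ with hP
    have hOk : P.Ok :=
      { ρ1 := by show 1 < ρ; linarith
        H0 := hH
        σ₁0 := hσ₁
        σ₁ρ := hσρ
        H₁0 := hH₁
        θlo := hθ
        θhi := hθ'.le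
        τ0 := hτ
        τ1 := hτ1
        τ2 := fun _ => hτ2
        σ0 := by show 0 < (d : ℝ) + ε; linarith
        σρ := by show (d : ℝ) + ε < ρ; linarith
        C0 := hC
        σm0 := by show 0 < (d : ℝ) - ε; linarith
        c0 := hc
        per := hper
        per₁ := hper₁ }
    obtain ⟨m₀, C', hC', hsad⟩ := exists_sad P hOk
    obtain ⟨s, w₁, hS⟩ := hsad _ _ hK
    obtain ⟨m₁, hmain⟩ := sp_main P hOk m₀ C' (1 / 4) hC' (by norm_num)
    obtain ⟨m₂, C'', hC'', hmod⟩ := sp_mod P hOk m₀ C' hC'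
    set b : ℝ := 1 - Real.cos (d * θ₀) with hbd
    have hb0 : 0 < b := by linarith
    set C₁' : ℝ := max C₁ 1 with hC₁'
    have hC₁p : 0 < C₁' := lt_of_lt_of_le one_pos (le_max_right _ _)
    -- decay of the error terms
    obtain ⟨m₃, _, hd1⟩ := S5_decay P hOk m₀ C' (d - 1) (b / (8 * C₁')) hC' (by linarith) (by positivity)
    obtain ⟨m₄, _, hd2⟩ := S5_decay P hOk m₀ C' (ρ - d - 2 * ε) (b / (4 * C'')) hC' (by linarith)
      (by positivity)
    obtain ⟨m₅, _, hd3⟩ := S5_decay P hOk m₀ C' (d : ℝ) (b / 16) hC' (by linarith) (by positivity)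
    refine ⟨max (max (max m₀ m₁) (max m₂ m₃)) (max m₄ m₅), fun m hm => ?_⟩
    have hm0 : m₀ ≤ m := by omega
    have hm1 : m₁ ≤ m := by omega
    have hm2 : m₂ ≤ m := by omega
    have hm3 : m₃ ≤ m := by omega
    have hm4 : m₄ ≤ m := by omega
    have hm5 : m₅ ≤ m := by omega
    have hs2 : 2 ≤ s m := (hS m hm0).1
    have g1 := hmod _ _ s w₁ hK hS m hm2
    have g2 := TP_gap ρ H σ₁ H₁ θ₀ τ d KΨ hτ hper hper₁ C₁ hasy (s m) (by linarith)
    have q1 := hd1 _ s w₁ hS m hm3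
    have q2 := hd2 _ s w₁ hS m hm4
    have q3 := hd3 _ s w₁ hS m hm5
    set S := s m with hSd
    set X := Xof (fun w => KΨ w + exp (d * w)) s w₁ m with hX
    -- compare with `exp (d S)`
    have hE0 := Real.exp_pos ((d : ℝ) * S)
    have t1 : Real.exp S ≤ b / (8 * C₁') * Real.exp (d * S) := by
      have e : Real.exp S = Real.exp (-((d - 1) * S)) * Real.exp (d * S) := by
        rw [← Real.exp_add]; congr 1; ring
      rw [e]
      exact mul_le_mul_of_nonneg_right q1 hE0.le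
    have t2 : Real.exp ((2 * (d + ε) - ρ) * S) ≤ b / (4 * C'') * Real.exp (d * S) := by
      have e : Real.exp ((2 * (d + ε) - ρ) * S) =
          Real.exp (-((ρ - d - 2 * ε) * S)) * Real.exp (d * S) := by
        rw [← Real.exp_add]; congr 1; ring
      rw [e]
      exact mul_le_mul_of_nonneg_right q2 hE0.le
    have t3 : 16 / b ≤ Real.exp (d * S) := by
      have e : Real.exp (-((d : ℝ) * S)) * Real.exp (d * S) = 1 := by
        rw [← Real.exp_add]; simp
      rw [div_le_iff₀ hb0]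
      nlinarith
    have u1 : 2 * C₁ * Real.exp S ≤ b / 4 * Real.exp (d * S) := by
      have : C₁ ≤ C₁' := le_max_left _ _
      calc 2 * C₁ * Real.exp S ≤ 2 * C₁' * Real.exp S := by
            have := Real.exp_pos S
            nlinarith
        _ ≤ 2 * C₁' * (b / (8 * C₁') * Real.exp (d * S)) :=
            mul_le_mul_of_nonneg_left t1 (by positivity)
        _ = b / 4 * Real.exp (d * S) := by field_simp; ring
    have u2 : C'' * Real.exp ((2 * (d + ε) - ρ) * S) ≤ b / 4 * Real.exp (d * S) := by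
      calc C'' * Real.exp ((2 * (d + ε) - ρ) * S) ≤ C'' * (b / (4 * C'') * Real.exp (d * S)) :=
            mul_le_mul_of_nonneg_left t2 hC''.le
        _ = b / 4 * Real.exp (d * S) := by field_simp
    have g1' : Real.log ‖X‖ + (((fun w => KΨ w + exp (d * w)) (S : ℂ)).re -
        ((fun w => KΨ w + exp (d * w)) ((S : ℂ) + θ₀ * I)).re) ≤
        C'' * Real.exp ((2 * (d + ε) - ρ) * S) := (abs_le.1 g1).2
    simp only at g1'
    have hlog : Real.log ‖X‖ ≤ -(b / 2) * Real.exp (d * S) := by linarith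
    have hlog8 : Real.log ‖X‖ ≤ -8 := by
      have : b / 2 * (16 / b) ≤ b / 2 * Real.exp (d * S) := mul_le_mul_of_nonneg_left t3 (by positivity)
      have e : b / 2 * (16 / b) = 8 := by field_simp; norm_num
      linarith
    have hXpos : 0 < ‖X‖ := by
      rw [hX]
      unfold Xof
      exact norm_pos_iff.2 (Complex.exp_ne_zero _)
    have hX8 : ‖X‖ ≤ 1 / 8 := by
      have h1 : ‖X‖ = Real.exp (Real.log ‖X‖) := (Real.exp_log hXpos).symm
      rw [h1]
      calc Real.exp (Real.log ‖X‖) ≤ Real.exp (-8) := Real.exp_le_exp.2 hlog8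
        _ ≤ 1 / 8 := by
            rw [Real.exp_neg, one_div]
            refine inv_anti₀ (by norm_num) ?_
            have := Real.add_one_le_exp (8 : ℝ)
            linarith
    have g3 := (hmain _ _ s w₁ hK hS m hm1).1
    have hpk : pk P.θ₀ = 2 := by
      unfold pk
      rw [if_neg]
      exact hθ'.ne
    rw [hpk] at g3
    have hN : 0 < Nof P (fun w => KΨ w + exp (d * w)) s m := by
      unfold Nof
      refine div_pos (Real.exp_pos _) (Real.sqrt_pos.2 ?_)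
      have : (0 : ℝ) < ρ := by linarith
      show 0 < 2 * Real.pi * (H * ρ ^ 2 * Real.exp (ρ * s m))
      positivity
    have hre : |X.re| ≤ ‖X‖ := Complex.abs_re_le_norm X
    have g4 := (abs_le.1 g3).1
    have g5 := (abs_le.1 hre).1
    have hq : 0 < rco (fun z => Ψ z * exp (z ^ d)) m / Nof P (fun w => KΨ w + exp (d * w)) s m := by
      have g4' : -(1 / 4 * (1 + ‖X‖)) ≤ rco (fun z => Ψ z * exp (z ^ d)) m /
        Nof P (fun w => KΨ w + exp (d * w)) s m - (1 + 2 * X.re) := g4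
      linarith
    have := mul_pos hq hN
    rwa [div_mul_cancel₀ _ hN.ne'] at this
  obtain ⟨m₀, hev⟩ := hev
  have hfent : RealEnt (fun z => Ψ z * exp (z ^ d)) := by
    obtain ⟨h1, h2⟩ := hB.ent
    refine ⟨h1.mul (by fun_prop), fun z => ?_⟩
    show Ψ ((starRingEnd ℂ) z) * exp (((starRingEnd ℂ) z) ^ d) = (starRingEnd ℂ) (Ψ z * exp (z ^ d))
    rw [h2, map_mul, ← Complex.exp_conj, map_pow]
  obtain ⟨M, hM⟩ := polya hfent
    (fun x hx => TP_f_pos θ₀ τ hτ d hd Ψ KΨ hB.ex hB.re hB.z0 x hx) m₀ hev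
  refine ⟨M, ?_, fun m => ?_⟩
  · have hreal : ∀ s : ℝ, ((1 + exp (s : ℂ)) ^ M * Ψ (exp s)).re =
        (1 + Real.exp s) ^ M * (Ψ (exp s)).re := by
      intro s
      have e : (1 + exp (s : ℂ)) ^ M = (((1 + Real.exp s) ^ M : ℝ) : ℂ) := by push_cast; rfl
      rw [e, Complex.re_ofReal_mul]
    have hnorm : ∀ s θ : ℝ, ‖(1 + exp ((s : ℂ) + θ * I)) ^ M‖ ≤ (1 + Real.exp s) ^ M := by
      intro s θ
      rw [norm_pow]
      refine pow_le_pow_left₀ (norm_nonneg _) ?_ _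
      refine (norm_add_le _ _).trans ?_
      rw [norm_one, Complex.norm_exp]
      simp
    refine ⟨?_, ?_, ?_, ?_, ?_, ?_, ?_, ?_, ?_⟩
    · obtain ⟨h1, h2⟩ := hB.ent
      refine ⟨(by fun_prop : Differentiable ℂ (fun z : ℂ => (1 + z) ^ M)).mul h1, fun z => ?_⟩
      show (1 + (starRingEnd ℂ) z) ^ M * Ψ ((starRingEnd ℂ) z) =
        (starRingEnd ℂ) ((1 + z) ^ M * Ψ z)
      rw [h2, map_mul, map_pow, map_add, map_one]
    · refine hB.an.add (DifferentiableOn.mul (differentiableOn_const _) ?_)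
      intro w hw
      have h1 := TP_slit θ₀ τ hθ hτ hτ2 w hw
      have : DifferentiableAt ℂ (fun w => log (1 + exp w)) w := by
        refine DifferentiableAt.clog ?_ h1
        fun_prop
      exact this.differentiableWithinAt
    · intro w hw
      have h1 := Complex.slitPlane_ne_zero (TP_slit θ₀ τ hθ hτ hτ2 w hw)
      show exp (KΨ w + M * log (1 + exp w)) = (1 + exp w) ^ M * Ψ (exp w)
      rw [Complex.exp_add, Complex.exp_nat_mul, Complex.exp_log h1, hB.ex w hw]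
      ring
    · intro x
      have e : log (1 + exp (x : ℂ)) = ((Real.log (1 + Real.exp x) : ℝ) : ℂ) := by
        rw [Complex.ofReal_log (by positivity)]
        push_cast
        rfl
      show (KΨ x + M * log (1 + exp (x : ℂ))).im = 0
      rw [e, Complex.add_im, hB.re x]
      simp
    · show 0 < ((1 + (0 : ℂ)) ^ M * Ψ 0).re
      simpa using hB.z0
    · refine ⟨C₁ + M * (2 + 1 / Real.sin (θ₀ + 2 * τ) + Real.pi), fun w hw hre => ?_⟩
      have h1 := hasy w hw hre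
      have h2 := TP_log_bound θ₀ τ hθ hτ hτ2 w hw hre
      have e : KΨ w + M * log (1 + exp w) - (H * exp (ρ * w) + H₁ * exp (σ₁ * w)) =
          (KΨ w - (H * exp (ρ * w) + H₁ * exp (σ₁ * w))) + M * log (1 + exp w) := by ring
      rw [e]
      refine (norm_add_le _ _).trans ?_
      rw [norm_mul, Complex.norm_natCast, add_mul]
      refine add_le_add h1 ?_
      rw [mul_assoc]
      exact mul_le_mul_of_nonneg_left h2 (Nat.cast_nonneg M)
    · obtain ⟨C, c, σ₂, hc, hσ, hup⟩ := hB.up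
      refine ⟨C, c, σ₂, hc, hσ, fun s θ hs h1 h2 h3 h4 => ?_⟩
      show ‖(1 + exp ((s : ℂ) + θ * I)) ^ M * Ψ (exp (s + θ * I))‖ ≤
        Real.exp (C - c * Real.exp (σ₂ * s)) * ((1 + exp (s : ℂ)) ^ M * Ψ (exp s)).re
      rw [norm_mul, hreal]
      have h5 := mul_le_mul (hnorm s θ) (hup s θ hs h1 h2 h3 h4) (norm_nonneg _) (by positivity)
      linarith
    · obtain ⟨C, hup⟩ := hB.upE
      refine ⟨C, fun s θ hs h1 => ?_⟩
      show ‖(1 + exp ((s : ℂ) + θ * I)) ^ M * Ψ (exp (s + θ * I))‖ ≤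
        Real.exp C * ((1 + exp (s : ℂ)) ^ M * Ψ (exp s)).re
      rw [norm_mul, hreal]
      have h5 := mul_le_mul (hnorm s θ) (hup s θ hs h1) (norm_nonneg _) (by positivity)
      linarith
    · obtain ⟨R, hR⟩ := hB.zer
      refine ⟨max R 2, fun z hz hzn => ?_⟩
      have h1 : R ≤ ‖z‖ := (le_max_left _ _).trans hzn
      have h2 : 2 ≤ ‖z‖ := (le_max_right _ _).trans hzn
      refine hR z ?_ h1
      rcases mul_eq_zero.1 hz with h | h
      · exfalso
        have h3 : 1 + z = 0 := by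
          by_contra hne
          exact pow_ne_zero M hne h
        have h4 : z = -1 := by linear_combination h3
        rw [h4, norm_neg, norm_one] at h2
        norm_num at h2
      · exact h
  · have := hM m
    have e : (fun z => (1 + z) ^ M * Ψ z * exp (z ^ d)) =
        fun z => (1 + z) ^ M * (Ψ z * exp (z ^ d)) := by
      funext z; ring
    rw [e]
    exact this

end Pool.Agent.helper74.LG
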