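import Pool.Agent.helper74.LG.FN
import Pool.Agent.helper74.LG.FZ
import Pool.Agent.helper74.LG.TP
import Pool.Agent.helper74.LG.K1
import Pool.Agent.helper38.LacOrd
import Pool.Agent.helper38.LacFinal
import Pool.Agent.helper74.LG.Defs3

set_option autoImplicit false

namespace Pool.Agent.helper74.LG

open Complex Set Filter Topology MeasureTheory

/-- A factor of a base function: `log F = κ e^{s w} + O(1 + Re w)`. -/
structure IA_Fac (s κ : ℝ) (F L : ℂ → ℂ) : Prop where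
  ent : RealEnt F
  pos : ∀ x : ℝ, 0 ≤ x → 0 < (F x).re
  zer : ∀ z : ℂ, F z = 0 → z.im = 0 ∧ z.re < 0
  an : DifferentiableOn ℂ L {w : ℂ | |w.im| < Real.pi}
  ex : ∀ w : ℂ, |w.im| < Real.pi → exp (L w) = F (exp w)
  re : ∀ x : ℝ, (L x).im = 0
  asy : ∀ ε : ℝ, 0 < ε → ∃ C : ℝ, 0 < C ∧ ∀ w : ℂ, 0 ≤ w.re → |w.im| ≤ Real.pi - ε →
        ‖L w - κ * exp (s * w)‖ ≤ C * (1 + w.re)
  up : ∀ ε : ℝ, 0 < ε → ∃ s₀ : ℝ, ∀ x θ : ℝ, s₀ ≤ x → |θ| ≤ Real.pi →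
        ‖F (exp (x + θ * I))‖ ≤ Real.exp ((κ * Real.cos (s * θ) + ε) * Real.exp (s * x))

theorem IA_fac_prod (s : ℝ) (hs : 1 < s) (hni : ∀ n : ℕ, s ≠ n) :
    ∃ (F L : ℂ → ℂ) (κ : ℝ), IA_Fac s κ F L ∧ 0 < (-1) ^ ⌊s⌋₊ * κ := by
  obtain ⟨F, L, κ, h1, h2, h3, h4, h5, h6, h7, h8, h9⟩ := exists_base_prod s hs hni
  exact ⟨F, L, κ, ⟨h1, h3, h4, h5, h6, h7, h8, h9⟩, h2⟩

theorem IA_fac_one (s : ℝ) : IA_Fac s 0 (fun _ => 1) (fun _ => 0) := by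
  refine ⟨⟨differentiable_const _, fun z => by simp⟩, fun x _ => by simp, fun z h => by simp at h,
    differentiableOn_const _, fun w _ => by simp, fun x => by simp, fun ε _ => ?_, fun ε hε => ?_⟩
  · refine ⟨1, one_pos, fun w hw _ => ?_⟩
    simp; linarith
  · refine ⟨0, fun x θ _ _ => ?_⟩
    rw [norm_one]
    refine Real.one_le_exp (mul_nonneg (by simp; exact hε.le) (Real.exp_pos _).le)

theorem IA_exp_re (s x θ : ℝ) : (exp (s * (x + θ * I))).re = Real.exp (s * x) * Real.cos (s * θ) := by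
  have h : (s : ℂ) * (x + θ * I) = ((s * x : ℝ) : ℂ) + ((s * θ : ℝ) : ℂ) * I := by
    push_cast; ring
  rw [h, Complex.exp_add, Complex.exp_mul_I, ← Complex.ofReal_exp, ← Complex.ofReal_cos,
    ← Complex.ofReal_sin, Complex.re_ofReal_mul, Complex.add_re, Complex.ofReal_re,
    Complex.re_ofReal_mul, Complex.I_re, mul_zero, add_zero]

theorem IA_exp_im (s x : ℝ) : (exp (s * (x : ℂ))).im = 0 := by
  rw [← Complex.ofReal_mul, ← Complex.ofReal_exp, Complex.ofReal_im]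

theorem IA_fac_exp (N : ℕ) : IA_Fac (N : ℝ) 1 (fun z => exp (z ^ N)) (fun w => exp ((N : ℂ) * w)) := by
  refine ⟨⟨(differentiable_id.pow N).cexp, fun z => ?_⟩, fun x _ => ?_, fun z h => ?_,
    ((differentiable_id.const_mul (N : ℂ)).cexp).differentiableOn, fun w _ => ?_, fun x => ?_,
    fun ε _ => ?_, fun ε hε => ?_⟩
  · rw [← Complex.exp_conj, map_pow]
  · rw [← Complex.ofReal_pow, ← Complex.ofReal_exp, Complex.ofReal_re]
    exact Real.exp_pos _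
  · exact absurd h (Complex.exp_ne_zero _)
  · rw [← Complex.exp_nat_mul]
  · have := IA_exp_im (N : ℝ) x
    simpa using this
  · refine ⟨1, one_pos, fun w hw _ => ?_⟩
    have : exp ((N : ℂ) * w) - ((1 : ℝ) : ℂ) * exp (((N : ℝ) : ℂ) * w) = 0 := by
      push_cast; ring
    rw [this, norm_zero]
    linarith
  · refine ⟨0, fun x θ _ _ => ?_⟩
    rw [Complex.norm_exp, ← Complex.exp_nat_mul]
    refine Real.exp_le_exp.2 ?_
    have := IA_exp_re (N : ℝ) x θ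
    push_cast at this
    rw [this]
    have h1 := Real.exp_pos ((N : ℝ) * x)
    nlinarith

theorem IA_real {F : ℂ → ℂ} (hF : RealEnt F) (x : ℝ) : (F (exp x)).im = 0 := by
  have h := hF.2 (exp x)
  rw [← Complex.exp_conj, Complex.conj_ofReal] at h
  exact Complex.conj_eq_iff_im.mp h.symm

/-- the value on the positive real axis -/
theorem IA_val {s κ : ℝ} {F L : ℂ → ℂ} (h : IA_Fac s κ F L) (x : ℝ) :
    (F (exp x)).re = Real.exp (L x).re := by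
  have h1 : exp (L x) = F (exp x) := h.ex x (by simp [Real.pi_pos])
  have h2 : L x = ((L x).re : ℂ) := by
    apply Complex.ext
    · simp
    · simp [h.re x]
  rw [← h1]
  rw [h2, ← Complex.ofReal_exp, Complex.ofReal_re, Complex.ofReal_re]

/-- ratio of the modulus and the value on the real axis -/
theorem IA_ratio {s κ : ℝ} {F L : ℂ → ℂ} (h : IA_Fac s κ F L) (ε η : ℝ) (hε : 0 < ε)
    (hεπ : ε ≤ Real.pi) (hη : 0 < η) :
    ∃ C x₀ : ℝ, 0 < C ∧ 0 ≤ x₀ ∧ ∀ x θ : ℝ, x₀ ≤ x → |θ| ≤ Real.pi →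
      ‖F (exp (x + θ * I))‖ ≤ Real.exp (-(κ * (1 - Real.cos (s * θ)) * Real.exp (s * x)) +
        C * (1 + x) + (if |θ| ≤ Real.pi - ε then 0 else η * Real.exp (s * x))) *
        (F (exp x)).re := by
  obtain ⟨C, hC, hasy⟩ := h.asy ε hε
  obtain ⟨s₀, hup⟩ := h.up η hη
  refine ⟨2 * C, max s₀ 0, by positivity, le_max_right _ _, fun x θ hx hθ => ?_⟩
  have hx0 : 0 ≤ x := (le_max_right _ _).trans hx
  have hxs : s₀ ≤ x := (le_max_left _ _).trans hx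
  rw [IA_val h, ← Real.exp_add]
  have hreal : κ * Real.exp (s * x) - C * (1 + x) ≤ (L x).re := by
    have h1 := hasy (x : ℂ) (by simpa using hx0) (by simp; linarith)
    have h2 := (Complex.abs_re_le_norm _).trans h1
    have h3 := IA_exp_re s x 0
    simp only [Complex.ofReal_zero, zero_mul, add_zero, mul_zero, Real.cos_zero, mul_one] at h3
    rw [Complex.sub_re, Complex.re_ofReal_mul, h3] at h2
    have h4 := (abs_le.1 h2).1
    simp only [Complex.ofReal_re] at h4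
    linarith
  by_cases hθ' : |θ| ≤ Real.pi - ε
  · rw [if_pos hθ']
    have hw : |((x : ℂ) + θ * I).im| ≤ Real.pi - ε := by simpa using hθ'
    have hw' : |((x : ℂ) + θ * I).im| < Real.pi := by linarith
    rw [← h.ex _ hw', Complex.norm_exp]
    refine Real.exp_le_exp.2 ?_
    have h1 := hasy ((x : ℂ) + θ * I) (by simpa using hx0) hw
    have h2 := (Complex.abs_re_le_norm _).trans h1
    rw [Complex.sub_re, Complex.re_ofReal_mul, IA_exp_re] at h2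
    have h4 := (abs_le.1 h2).2
    have h5 : ((x : ℂ) + θ * I).re = x := by simp
    rw [h5] at h4
    nlinarith
  · rw [if_neg hθ']
    refine (hup x θ hxs hθ).trans (Real.exp_le_exp.2 ?_)
    have h6 : 0 ≤ C * (1 + x) := by positivity
    nlinarith

/-- the double strip is contained in the slit plane region -/
theorem IA_strip {θ₀ τ : ℝ} (h0 : 0 < θ₀) {w : ℂ} (hw : w ∈ DS θ₀ (2 * τ)) :
    |w.im| ≤ Real.pi - (Real.pi - θ₀ - 2 * τ) := by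
  rcases hw with hw | hw
  · linarith
  · have h1 := abs_lt.1 hw
    rw [abs_le]
    constructor <;> linarith

/-- polynomial factors are absorbed -/
theorem IA_poly (a b' s : ℝ) (ha0 : 0 < a) (hb' : 0 < b') (hs : 1 ≤ s) :
    ∃ D : ℝ, ∀ x : ℝ, 0 ≤ x → a * (1 + x) ≤ D + b' * Real.exp (s * x) := by
  have hs0 : 0 < s := by linarith
  set b : ℝ := b' * s with hb
  have hb0 : 0 < b := by positivity
  set y : ℝ := max (Real.log (a / b)) 0 with hy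
  refine ⟨a * (1 + y), fun x hx => ?_⟩
  by_cases hxy : x ≤ y
  · have h1 : a * (1 + x) ≤ a * (1 + y) := by nlinarith
    have h2 : 0 ≤ b' * Real.exp (s * x) := by positivity
    linarith
  · push Not at hxy
    have hy0 : 0 ≤ y := le_max_right _ _
    have e1 : a / b ≤ Real.exp y := by
      rw [← Real.exp_log (div_pos ha0 hb0)]
      exact Real.exp_le_exp.2 (le_max_left _ _)
    have e2 : a ≤ b * Real.exp y := by
      rw [div_le_iff₀ hb0] at e1; linarith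
    have e3 : s * (x - y) ≤ Real.exp (s * (x - y)) := by
      linarith [Real.add_one_le_exp (s * (x - y))]
    have e4 : Real.exp (s * x) = Real.exp (s * (x - y)) * Real.exp (s * y) := by
      rw [← Real.exp_add]; congr 1; ring
    have e5 : Real.exp y ≤ Real.exp (s * y) := Real.exp_le_exp.2 (by nlinarith)
    have e6 : s * (x - y) * Real.exp y ≤ Real.exp (s * x) := by
      rw [e4]
      exact mul_le_mul e3 e5 (Real.exp_pos _).le (Real.exp_pos _).le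
    have e7 : a * (x - y) ≤ b' * Real.exp (s * x) := by
      calc a * (x - y) ≤ b * Real.exp y * (x - y) :=
            mul_le_mul_of_nonneg_right e2 (by linarith)
        _ = b' * (s * (x - y) * Real.exp y) := by rw [hb]; ring
        _ ≤ _ := mul_le_mul_of_nonneg_left e6 hb'.le
    nlinarith

/-- the lower bound of `g` -/
theorem IA_low (ρ H σ₁ H₁ θ₀ τ : ℝ) (hτ : 0 < τ)
    (hg : ∀ θ : ℝ, 0 < θ → θ ≤ Real.pi → θ ≠ θ₀ →
      0 < H * (1 - Real.cos (ρ * θ)) + H₁ * (1 - Real.cos (σ₁ * θ))) :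
    ∃ c : ℝ, 0 < c ∧ ∀ θ : ℝ, θ ≤ Real.pi → τ / 2 ≤ θ → τ / 2 ≤ |θ - θ₀| →
        c ≤ H * (1 - Real.cos (ρ * θ)) + H₁ * (1 - Real.cos (σ₁ * θ)) := by
  set S : Set ℝ := Icc (τ / 2) Real.pi ∩ {θ | τ / 2 ≤ |θ - θ₀|} with hS
  have hScomp : IsCompact S := isCompact_Icc.inter_right
    (isClosed_le continuous_const ((continuous_id.sub continuous_const).abs))
  have hcont : Continuous fun θ : ℝ =>
      H * (1 - Real.cos (ρ * θ)) + H₁ * (1 - Real.cos (σ₁ * θ)) := by fun_prop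
  rcases S.eq_empty_or_nonempty with hemp | hne
  · refine ⟨1, one_pos, fun θ a b d => ?_⟩
    have : θ ∈ S := ⟨⟨b, a⟩, d⟩
    rw [hemp] at this
    exact absurd this (Set.notMem_empty _)
  · obtain ⟨θm, hθm, hmin⟩ := hScomp.exists_isMinOn hne hcont.continuousOn
    refine ⟨_, hg θm ?_ hθm.1.2 ?_, fun θ a b d => hmin ⟨⟨b, a⟩, d⟩⟩
    · have := hθm.1.1; linarith
    · intro he
      have := hθm.2
      rw [he] at this
      simp at this
      linarith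

/-- the leading terms of the exponent -/
theorem IA_key (ρ H σ₁ H₁ σ₂ ε η c' c x θ : ℝ) (hH : 0 < H) (hH₁ : 0 ≤ H₁) (hσρ : σ₁ ≤ ρ)
    (hσ₂ρ : σ₂ ≤ ρ) (hσ₂ : H₁ = 0 ∨ σ₂ ≤ σ₁) (hx : 0 ≤ x) (hθ0 : 0 < θ) (hθπ : θ ≤ Real.pi)
    (hρ0 : 0 < ρ) (hc' : c' = (1 - Real.cos (ρ * Real.pi)) / 2) (hc'0 : 0 < c')
    (hε : ε ≤ c' / ρ) (hε0 : 0 < ε) (hη : η = H * c' / 4)
    (hgc : c ≤ H * (1 - Real.cos (ρ * θ)) + H₁ * (1 - Real.cos (σ₁ * θ))) :
    -(H * (1 - Real.cos (ρ * θ)) * Real.exp (ρ * x)) +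
          (if |θ| ≤ Real.pi - ε then 0 else η * Real.exp (ρ * x)) +
          (-(H₁ * (1 - Real.cos (σ₁ * θ)) * Real.exp (σ₁ * x)) +
          (if |θ| ≤ Real.pi - ε then 0 else η * Real.exp (σ₁ * x))) ≤
          -(min c (H * c' / 2) * Real.exp (σ₂ * x)) := by
  set c2 : ℝ := min c (H * c' / 2) with hc2
  have hEρ : Real.exp (σ₂ * x) ≤ Real.exp (ρ * x) :=
    Real.exp_le_exp.2 (mul_le_mul_of_nonneg_right hσ₂ρ hx)
  have hEσ : Real.exp (σ₁ * x) ≤ Real.exp (ρ * x) :=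
    Real.exp_le_exp.2 (mul_le_mul_of_nonneg_right hσρ hx)
  have hcos0 := Real.cos_le_one (ρ * θ)
  have hcos1 := Real.cos_le_one (σ₁ * θ)
  have hη0 : 0 ≤ η := by rw [hη]; positivity
  by_cases hcase : |θ| ≤ Real.pi - ε
  · rw [if_pos hcase, if_pos hcase]
    have b0 : H * (1 - Real.cos (ρ * θ)) * Real.exp (σ₂ * x) ≤
        H * (1 - Real.cos (ρ * θ)) * Real.exp (ρ * x) :=
      mul_le_mul_of_nonneg_left hEρ (mul_nonneg hH.le (by linarith))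
    have b1 : H₁ * (1 - Real.cos (σ₁ * θ)) * Real.exp (σ₂ * x) ≤
        H₁ * (1 - Real.cos (σ₁ * θ)) * Real.exp (σ₁ * x) := by
      rcases hσ₂ with hz | hle
      · rw [hz]; simp
      · exact mul_le_mul_of_nonneg_left
          (Real.exp_le_exp.2 (mul_le_mul_of_nonneg_right hle hx))
          (mul_nonneg hH₁ (by linarith))
    have b3 : c2 * Real.exp (σ₂ * x) ≤
        (H * (1 - Real.cos (ρ * θ)) + H₁ * (1 - Real.cos (σ₁ * θ))) *
          Real.exp (σ₂ * x) :=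
      mul_le_mul_of_nonneg_right ((min_le_left _ _).trans hgc) (Real.exp_pos _).le
    linarith
  · rw [if_neg hcase, if_neg hcase]
    have hθε : Real.pi - ε < θ := by
      rw [abs_of_pos hθ0] at hcase
      linarith
    have hcosb : c' ≤ 1 - Real.cos (ρ * θ) := by
      have d1 : |Real.cos (ρ * θ) - Real.cos (ρ * Real.pi)| ≤ |ρ * θ - ρ * Real.pi| :=
        Real.abs_cos_sub_cos_le (ρ * θ) (ρ * Real.pi)
      have d2 : |ρ * θ - ρ * Real.pi| ≤ c' := by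
        rw [← mul_sub, abs_mul, abs_of_pos hρ0]
        have d3 : |θ - Real.pi| ≤ ε := by
          rw [abs_le]; constructor <;> linarith
        calc ρ * |θ - Real.pi| ≤ ρ * ε := mul_le_mul_of_nonneg_left d3 hρ0.le
          _ ≤ ρ * (c' / ρ) := mul_le_mul_of_nonneg_left hε hρ0.le
          _ = c' := by field_simp
      have d4 := (abs_le.1 (d1.trans d2)).2
      linarith
    have hE0 := Real.exp_pos (ρ * x)
    have b0 : H * c' * Real.exp (ρ * x) ≤ H * (1 - Real.cos (ρ * θ)) * Real.exp (ρ * x) :=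
      mul_le_mul_of_nonneg_right (mul_le_mul_of_nonneg_left hcosb hH.le) hE0.le
    have b1 : 0 ≤ H₁ * (1 - Real.cos (σ₁ * θ)) * Real.exp (σ₁ * x) :=
      mul_nonneg (mul_nonneg hH₁ (by linarith)) (Real.exp_pos _).le
    have b2 : η * Real.exp (σ₁ * x) ≤ η * Real.exp (ρ * x) :=
      mul_le_mul_of_nonneg_left hEσ hη0
    have b3 : c2 * Real.exp (σ₂ * x) ≤ (H * c' / 2) * Real.exp (ρ * x) :=
      mul_le_mul (min_le_right _ _) hEρ (Real.exp_pos _).le (by positivity)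
    have b4 : η * Real.exp (ρ * x) = H * c' / 4 * Real.exp (ρ * x) := by rw [hη]
    linarith

/-- small arguments -/
theorem IA_small {s₀ κ₀ s₁ κ₁ : ℝ} {F₀ L₀ F₁ L₁ : ℂ → ℂ} (h0 : IA_Fac s₀ κ₀ F₀ L₀)
    (h1 : IA_Fac s₁ κ₁ F₁ L₁) (X : ℝ) (hX0 : 0 ≤ X) :
    ∃ B : ℝ, ∀ x θ : ℝ, 0 ≤ x → x ≤ X → 0 ≤ θ → θ ≤ Real.pi →
        ‖F₀ (exp (x + θ * I)) * F₁ (exp (x + θ * I))‖ ≤
          Real.exp B * ((F₀ (exp x)).re * (F₁ (exp x)).re) := by
  have hpi := Real.pi_pos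
  have hF0 := h0.ent.1.continuous
  have hF1 := h1.ent.1.continuous
  have hpos0 : ∀ x : ℝ, 0 < (F₀ (exp x)).re := fun x => by
    rw [IA_val h0]; exact Real.exp_pos _
  have hpos1 : ∀ x : ℝ, 0 < (F₁ (exp x)).re := fun x => by
    rw [IA_val h1]; exact Real.exp_pos _
  have hcA : Continuous fun p : ℝ × ℝ =>
      ‖F₀ (exp (p.1 + p.2 * I)) * F₁ (exp (p.1 + p.2 * I))‖ := by fun_prop
  obtain ⟨p, hp, hpmax⟩ := (isCompact_Icc.prod isCompact_Icc).exists_isMaxOn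
    (s := Icc (0 : ℝ) X ×ˢ Icc (0 : ℝ) Real.pi) ⟨(0, 0), ⟨⟨le_rfl, hX0⟩, ⟨le_rfl, hpi.le⟩⟩⟩
    hcA.continuousOn
  set M : ℝ := ‖F₀ (exp (p.1 + p.2 * I)) * F₁ (exp (p.1 + p.2 * I))‖ with hM
  have hM0 : 0 ≤ M := norm_nonneg _
  have hcB : Continuous fun x : ℝ => (F₀ (exp x)).re * (F₁ (exp x)).re := by fun_prop
  obtain ⟨q, hq, hqmin⟩ := isCompact_Icc.exists_isMinOn (s := Icc (0 : ℝ) X)
    ⟨0, ⟨le_rfl, hX0⟩⟩ hcB.continuousOn
  set m : ℝ := (F₀ (exp q)).re * (F₁ (exp q)).re with hm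
  have hm0 : 0 < m := mul_pos (hpos0 q) (hpos1 q)
  refine ⟨M / m, fun x θ a1 a2 a3 a4 => ?_⟩
  have b1 : ‖F₀ (exp (x + θ * I)) * F₁ (exp (x + θ * I))‖ ≤ M :=
    hpmax (show ((x, θ) : ℝ × ℝ) ∈ Icc (0 : ℝ) X ×ˢ Icc (0 : ℝ) Real.pi from
      ⟨⟨a1, a2⟩, ⟨a3, a4⟩⟩)
  have b2 : m ≤ (F₀ (exp x)).re * (F₁ (exp x)).re := hqmin ⟨a1, a2⟩
  have b3 : M / m ≤ Real.exp (M / m) := by linarith [Real.add_one_le_exp (M / m)]
  calc _ ≤ M := b1
    _ = M / m * m := by field_simp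
    _ ≤ Real.exp (M / m) * ((F₀ (exp x)).re * (F₁ (exp x)).re) :=
      mul_le_mul b3 b2 hm0.le (Real.exp_pos _).le

/-- the upper bound away from the peaks -/
theorem IA_up (ρ H σ₁ H₁ σ₂ θ₀ τ : ℝ) (F₀ L₀ F₁ L₁ : ℂ → ℂ) (h0 : IA_Fac ρ H F₀ L₀)
    (h1 : IA_Fac σ₁ H₁ F₁ L₁) (hH : 0 < H) (hH₁ : 0 ≤ H₁) (hσρ : σ₁ < ρ)
    (h2 : 2 < σ₂) (hσ₂ρ : σ₂ ≤ ρ) (hσ₂ : H₁ = 0 ∨ σ₂ ≤ σ₁) (hτ : 0 < τ)
    (hg : ∀ θ : ℝ, 0 < θ → θ ≤ Real.pi → θ ≠ θ₀ →
      0 < H * (1 - Real.cos (ρ * θ)) + H₁ * (1 - Real.cos (σ₁ * θ)))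
    (hπ : Real.cos (ρ * Real.pi) < 1) :
    ∃ C c : ℝ, 0 < c ∧ ∀ x θ : ℝ, 0 ≤ x → θ ≤ Real.pi → τ / 2 ≤ θ → τ / 2 ≤ |θ - θ₀| →
      ‖F₀ (exp (x + θ * I)) * F₁ (exp (x + θ * I))‖ ≤ Real.exp (C - c * Real.exp (σ₂ * x)) *
        ((F₀ (exp x)).re * (F₁ (exp x)).re) := by
  have hpi := Real.pi_pos
  have hpos0 : ∀ x : ℝ, 0 < (F₀ (exp x)).re := fun x => by
    rw [IA_val h0]; exact Real.exp_pos _
  have hpos1 : ∀ x : ℝ, 0 < (F₁ (exp x)).re := fun x => by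
    rw [IA_val h1]; exact Real.exp_pos _
  have hρ0 : 0 < ρ := by linarith
  obtain ⟨c', hc'⟩ : ∃ c' : ℝ, c' = (1 - Real.cos (ρ * Real.pi)) / 2 := ⟨_, rfl⟩
  have hc'0 : 0 < c' := by rw [hc']; linarith
  obtain ⟨ε, hε⟩ : ∃ ε : ℝ, ε = min (c' / ρ) (Real.pi / 2) := ⟨_, rfl⟩
  have hε0 : 0 < ε := hε ▸ lt_min (div_pos hc'0 hρ0) (by positivity)
  have hεπ : ε ≤ Real.pi := hε ▸ (min_le_right _ _).trans (by linarith)
  have hεc : ε ≤ c' / ρ := hε ▸ min_le_left _ _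
  obtain ⟨η, hη⟩ : ∃ η : ℝ, η = H * c' / 4 := ⟨_, rfl⟩
  have hη0 : 0 < η := by rw [hη]; positivity
  obtain ⟨C0, x0, hC0, hx0, hr0⟩ := IA_ratio h0 ε η hε0 hεπ hη0
  obtain ⟨C1, x1, hC1, hx1, hr1⟩ := IA_ratio h1 ε η hε0 hεπ hη0
  obtain ⟨c, hc, hgc⟩ := IA_low ρ H σ₁ H₁ θ₀ τ hτ hg
  obtain ⟨c2, hc2⟩ : ∃ c2 : ℝ, c2 = min c (H * c' / 2) := ⟨_, rfl⟩
  have hc20 : 0 < c2 := hc2 ▸ lt_min hc (by positivity)
  obtain ⟨X, hX⟩ : ∃ X : ℝ, X = max x0 x1 := ⟨_, rfl⟩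
  have hX0 : 0 ≤ X := hX ▸ hx0.trans (le_max_left _ _)
  have hlarge : ∀ x θ : ℝ, X ≤ x → θ ≤ Real.pi → τ / 2 ≤ θ → τ / 2 ≤ |θ - θ₀| →
      ‖F₀ (exp (x + θ * I)) * F₁ (exp (x + θ * I))‖ ≤
        Real.exp (-(c2 * Real.exp (σ₂ * x)) + (C0 + C1) * (1 + x)) *
          ((F₀ (exp x)).re * (F₁ (exp x)).re) := by
    intro x θ hx hθπ hθτ hθθ
    have hx' : 0 ≤ x := hX0.trans hx
    have hθ0 : 0 < θ := by linarith
    have habs : |θ| ≤ Real.pi := by rw [abs_of_pos hθ0]; exact hθπ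
    have a0 := hr0 x θ ((hX ▸ le_max_left _ _ : x0 ≤ X).trans hx) habs
    have a1 := hr1 x θ ((hX ▸ le_max_right _ _ : x1 ≤ X).trans hx) habs
    rw [norm_mul]
    have a2 := mul_le_mul a0 a1 (norm_nonneg _)
      (mul_nonneg (Real.exp_pos _).le (hpos0 x).le)
    refine a2.trans ?_
    have hP : 0 < (F₀ (exp x)).re * (F₁ (exp x)).re := mul_pos (hpos0 x) (hpos1 x)
    have hkey := IA_key ρ H σ₁ H₁ σ₂ ε η c' c x θ hH hH₁ hσρ.le hσ₂ρ hσ₂ hx' hθ0 hθπ hρ0 hc'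
      hc'0 hεc hε0 hη (hgc θ hθπ hθτ hθθ)
    rw [← hc2] at hkey
    rw [mul_mul_mul_comm, ← Real.exp_add]
    refine mul_le_mul_of_nonneg_right (Real.exp_le_exp.2 ?_) hP.le
    linarith
  obtain ⟨B, hBs⟩ := IA_small h0 h1 X hX0
  obtain ⟨D, hD⟩ := IA_poly (C0 + C1) (c2 / 2) σ₂ (by positivity) (by positivity) (by linarith)
  refine ⟨max D (B + c2 / 2 * Real.exp (σ₂ * X)), c2 / 2, by positivity,
    fun x θ hx hθπ hθτ hθθ => ?_⟩
  have hP : 0 < (F₀ (exp x)).re * (F₁ (exp x)).re := mul_pos (hpos0 x) (hpos1 x)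
  by_cases hxX : X ≤ x
  · refine (hlarge x θ hxX hθπ hθτ hθθ).trans (mul_le_mul_of_nonneg_right ?_ hP.le)
    refine Real.exp_le_exp.2 ?_
    have := hD x hx
    have := le_max_left D (B + c2 / 2 * Real.exp (σ₂ * X))
    linarith
  · push Not at hxX
    refine (hBs x θ hx hxX.le (by linarith) hθπ).trans (mul_le_mul_of_nonneg_right ?_ hP.le)
    refine Real.exp_le_exp.2 ?_
    have e1 := le_max_right D (B + c2 / 2 * Real.exp (σ₂ * X))
    have e2 : Real.exp (σ₂ * x) ≤ Real.exp (σ₂ * X) :=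
      Real.exp_le_exp.2 (by nlinarith)
    have e3 := mul_le_mul_of_nonneg_left e2 (show 0 ≤ c2 / 2 by positivity)
    linarith

theorem IA_base (ρ H σ₁ H₁ σ₂ θ₀ τ : ℝ) (F₀ L₀ F₁ L₁ : ℂ → ℂ) (h0 : IA_Fac ρ H F₀ L₀)
    (h1 : IA_Fac σ₁ H₁ F₁ L₁) (hH : 0 < H) (hH₁ : 0 ≤ H₁) (hσρ : σ₁ < ρ)
    (h2 : 2 < σ₂) (hσ₂ρ : σ₂ ≤ ρ) (hσ₂ : H₁ = 0 ∨ σ₂ ≤ σ₁) (hθ : 0 < θ₀) (hτ : 0 < τ)
    (hτ2 : θ₀ + 2 * τ < Real.pi)
    (hg : ∀ θ : ℝ, 0 < θ → θ ≤ Real.pi → θ ≠ θ₀ →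
      0 < H * (1 - Real.cos (ρ * θ)) + H₁ * (1 - Real.cos (σ₁ * θ)))
    (hπ : Real.cos (ρ * Real.pi) < 1) :
    Base ρ H σ₁ H₁ θ₀ τ Real.pi 2 ∅ (fun z => F₀ z * F₁ z) (fun w => L₀ w + L₁ w) := by
  have hpi := Real.pi_pos
  have hsub : DS θ₀ (2 * τ) ⊆ {w : ℂ | |w.im| < Real.pi} := fun w hw => by
    have := IA_strip hθ hw
    show |w.im| < Real.pi
    linarith
  refine ⟨?_, ?_, ?_, ?_, ?_, ?_, ?_, ?_, ?_⟩
  · refine ⟨h0.ent.1.mul h1.ent.1, fun z => ?_⟩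
    show F₀ ((starRingEnd ℂ) z) * F₁ ((starRingEnd ℂ) z) = (starRingEnd ℂ) (F₀ z * F₁ z)
    rw [map_mul, h0.ent.2, h1.ent.2]
  · exact (h0.an.mono hsub).add (h1.an.mono hsub)
  · intro w hw
    rw [Complex.exp_add, h0.ex w (hsub hw), h1.ex w (hsub hw)]
  · intro x
    rw [Complex.add_im, h0.re, h1.re, add_zero]
  · have e0 : (F₀ 0).im = 0 := by
      have h := h0.ent.2 0
      rw [map_zero] at h
      exact Complex.conj_eq_iff_im.mp h.symm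
    have e1 : (F₁ 0).im = 0 := by
      have h := h1.ent.2 0
      rw [map_zero] at h
      exact Complex.conj_eq_iff_im.mp h.symm
    have p0 := h0.pos 0 le_rfl
    have p1 := h1.pos 0 le_rfl
    simp only [Complex.ofReal_zero] at p0 p1
    show 0 < (F₀ 0 * F₁ 0).re
    rw [Complex.mul_re, e0, e1]
    have := mul_pos p0 p1
    linarith
  · obtain ⟨C0, hC0, ha0⟩ := h0.asy (Real.pi - θ₀ - 2 * τ) (by linarith)
    obtain ⟨C1, hC1, ha1⟩ := h1.asy (Real.pi - θ₀ - 2 * τ) (by linarith)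
    refine ⟨C0 + C1, fun w hw hw0 => ?_⟩
    have hst := IA_strip hθ hw
    have b0 := ha0 w hw0 hst
    have b1 := ha1 w hw0 hst
    have he : 1 + w.re ≤ Real.exp w.re := by linarith [Real.add_one_le_exp w.re]
    have e : L₀ w + L₁ w - (H * exp (ρ * w) + H₁ * exp (σ₁ * w)) =
        (L₀ w - H * exp (ρ * w)) + (L₁ w - H₁ * exp (σ₁ * w)) := by ring
    rw [e]
    refine (norm_add_le _ _).trans ?_
    calc _ ≤ C0 * (1 + w.re) + C1 * (1 + w.re) := add_le_add b0 b1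
      _ = (C0 + C1) * (1 + w.re) := by ring
      _ ≤ (C0 + C1) * Real.exp w.re := mul_le_mul_of_nonneg_left he (by positivity)
  · obtain ⟨C, c, hc, hup⟩ := IA_up ρ H σ₁ H₁ σ₂ θ₀ τ F₀ L₀ F₁ L₁ h0 h1 hH hH₁ hσρ h2 hσ₂ρ hσ₂
      hτ hg hπ
    refine ⟨C, c, σ₂, hc, by norm_num; exact h2, fun x θ hx hθπ hθτ hθθ _ => ?_⟩
    show ‖F₀ (exp (x + θ * I)) * F₁ (exp (x + θ * I))‖ ≤ _ * (F₀ (exp x) * F₁ (exp x)).re
    have hreP : (F₀ (exp x) * F₁ (exp x)).re = (F₀ (exp x)).re * (F₁ (exp x)).re := by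
      rw [Complex.mul_re, IA_real h0.ent, IA_real h1.ent]; ring
    rw [hreP]
    exact hup x θ hx hθπ hθτ hθθ
  · exact ⟨0, fun s θ _ hθ => absurd hθ (Set.notMem_empty _)⟩
  · refine ⟨0, fun z hz _ => ?_⟩
    have : z.im = 0 ∧ z.re < 0 := by
      rcases mul_eq_zero.1 hz with h | h
      · exact h0.zer z h
      · exact h1.zer z h
    rw [Complex.arg_eq_pi_iff.2 ⟨this.2, this.1⟩, abs_of_pos hpi]

/-- the generic instance with `d = 2`, `ψ = π` -/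
theorem IA_core (ρ H σ₁ H₁ σ₂ θ₀ : ℝ) (F₀ L₀ F₁ L₁ : ℂ → ℂ) (h0 : IA_Fac ρ H F₀ L₀)
    (h1 : IA_Fac σ₁ H₁ F₁ L₁) (hH : 0 < H) (hH₁ : 0 ≤ H₁) (hσ₁ : 0 < σ₁) (hσρ : σ₁ < ρ)
    (h2 : 2 < σ₂) (hσ₂ρ : σ₂ ≤ ρ) (hσ₂ : H₁ = 0 ∨ σ₂ ≤ σ₁) (hθ : 2 * Real.pi / 3 < θ₀)
    (hθ' : θ₀ < Real.pi) (hper : exp (ρ * θ₀ * I) = 1)
    (hper₁ : H₁ = 0 ∨ exp (σ₁ * θ₀ * I) = 1)
    (hg : ∀ θ : ℝ, 0 < θ → θ ≤ Real.pi → θ ≠ θ₀ →
      0 < H * (1 - Real.cos (ρ * θ)) + H₁ * (1 - Real.cos (σ₁ * θ)))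
    (hπ : Real.cos (ρ * Real.pi) < 1) :
    ∃ f ∈ Pool.Agent.helper38.Lac.Gord (ρ : EReal) 2,
      Pool.Agent.helper38.Lac.delta f = Real.pi := by
  have hpi := Real.pi_pos
  have hρ2 : 2 < ρ := by linarith
  set τ : ℝ := min (1 / (32 * (ρ + 1))) ((Real.pi - θ₀) / 4) with hτ
  have hτ0 : 0 < τ := lt_min (by positivity) (by linarith)
  have hτ1 : 32 * (ρ + 1) * τ ≤ 1 := by
    have : τ ≤ 1 / (32 * (ρ + 1)) := min_le_left _ _
    rw [le_div_iff₀ (by positivity)] at this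
    linarith
  have hτ2 : θ₀ + 2 * τ < Real.pi := by
    have : τ ≤ (Real.pi - θ₀) / 4 := min_le_right _ _
    linarith
  have hθ0 : 0 < θ₀ := lt_trans (by positivity) hθ
  have hθ12 : Real.pi / 2 < θ₀ := lt_trans (by linarith) hθ
  have hB := IA_base ρ H σ₁ H₁ σ₂ θ₀ τ F₀ L₀ F₁ L₁ h0 h1 hH hH₁ hσρ h2 hσ₂ρ hσ₂ hθ0 hτ0 hτ2
    hg hπ
  have hb : Real.cos (((2 : ℕ) : ℝ) * θ₀) < 1 := by
    push_cast
    rw [Real.cos_two_mul]
    have h3 : Real.cos θ₀ < 0 := Real.cos_neg_of_pi_div_two_lt_of_lt hθ12 (by linarith)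
    have h4 : -1 < Real.cos θ₀ := by
      rw [← Real.cos_pi]
      exact Real.cos_lt_cos_of_nonneg_of_le_pi hθ0.le le_rfl hθ'
    nlinarith
  obtain ⟨M, hBM, hposM⟩ := base_polya ρ H σ₁ H₁ θ₀ τ Real.pi 2 ∅ _ _ hB le_rfl
    (by push_cast; exact hρ2) hH hσ₁ hσρ hH₁ hθ12 hθ' hτ0 hτ1 hτ2 hper hper₁ hb
    (Set.empty_subset _) 1 one_pos (fun θ hθ => absurd hθ (Set.notMem_empty _))
  obtain ⟨x₀, hx₀⟩ := kap_neg_pi θ₀ hθ.le hθ'
  set k₀ : ℝ := kap 2 Real.pi θ₀ x₀ with hk₀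
  set a₀ : ℝ := (1 - Real.cos (((2 : ℕ) : ℝ) * θ₀)) * Real.exp (((2 : ℕ) : ℝ) * x₀) with ha₀
  have ha₀0 : 0 < a₀ := mul_pos (by linarith) (Real.exp_pos _)
  set Ma : ℝ := 2 * a₀ / (-k₀) with hMa
  have hMa0 : 0 < Ma := div_pos (by linarith) (by linarith)
  have hqc : qc 2 Real.pi = 1 := by
    unfold qc
    push_cast
    rw [Real.cos_two_pi]
    norm_num
  obtain ⟨f, hf, hδ⟩ := lower_main ρ H σ₁ H₁ θ₀ τ Real.pi 2 ∅ _ _ hBM le_rfl
    (by push_cast; exact hρ2) hH hσ₁ hσρ hH₁ hθ12 hθ'.le hθ.ne' hτ0 hτ1 (fun _ => hτ2) hper hper₁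
    hb (Set.empty_subset _) hposM Real.pi Ma (Real.pi - θ₀ - 2 * τ) 1 x₀ (by linarith) le_rfl
    hMa0 (by rw [hqc]; linarith) (by linarith) (by linarith)
    (fun θ hθI => Or.inl (by
      have a1 := hθI.1
      have a2 := hθI.2
      rw [abs_le]
      constructor <;> linarith)) (Set.empty_subset _) one_pos
    (fun θ hθ => absurd hθ (Set.notMem_empty _)) (by
      rw [← hk₀, ← ha₀, hMa]
      have : 2 * a₀ / (-k₀) * k₀ = -(2 * a₀) := by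
        field_simp [hx₀.ne]
      rw [this]; linarith)
  refine ⟨f, hf, le_antisymm (Pool.Agent.helper38.Lac.delta_le_pi hf.1.1) ?_⟩
  rwa [min_self] at hδ

/-- positivity away from the active peak -/
theorem IA_gpos (k : ℕ) (hk : 1 ≤ k) (ρ H σ₁ H₁ : ℝ) (hρ0 : 0 < ρ) (hρ : ρ < 2 * k + 2)
    (hH : 0 < H) (hH₁ : 0 ≤ H₁) (hc : k = 1 ∨ (0 < H₁ ∧ σ₁ = ρ / k)) (θ : ℝ) (hθ0 : 0 < θ)
    (hθπ : θ ≤ Real.pi) (hne : θ ≠ 2 * Real.pi * k / ρ) :
    0 < H * (1 - Real.cos (ρ * θ)) + H₁ * (1 - Real.cos (σ₁ * θ)) := by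
  have hpi := Real.pi_pos
  have hk0 : (0 : ℝ) < k := by exact_mod_cast hk
  have hcos0 := Real.cos_le_one (ρ * θ)
  have hcos1 := Real.cos_le_one (σ₁ * θ)
  have p0 : 0 ≤ H * (1 - Real.cos (ρ * θ)) := mul_nonneg hH.le (by linarith)
  have p1 : 0 ≤ H₁ * (1 - Real.cos (σ₁ * θ)) := mul_nonneg hH₁ (by linarith)
  by_contra hcon
  push Not at hcon
  have z0 : H * (1 - Real.cos (ρ * θ)) = 0 := by linarith
  have z1 : H₁ * (1 - Real.cos (σ₁ * θ)) = 0 := by linarith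
  have c0 : Real.cos (ρ * θ) = 1 := by
    rcases mul_eq_zero.1 z0 with h | h
    · exact absurd h hH.ne'
    · linarith
  obtain ⟨j, hj⟩ := (Real.cos_eq_one_iff _).1 c0
  have hj0 : 0 < j := by
    have h1 : 0 < (j : ℝ) * (2 * Real.pi) := by rw [hj]; positivity
    have h2 : 0 < (j : ℝ) := by
      by_contra hn
      push Not at hn
      have := mul_nonpos_of_nonpos_of_nonneg hn (show 0 ≤ 2 * Real.pi by positivity)
      linarith
    exact_mod_cast h2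
  have hjk : j ≤ k := by
    have h1 : (j : ℝ) * (2 * Real.pi) < (2 * k + 2) * Real.pi := by
      rw [hj]
      calc ρ * θ ≤ ρ * Real.pi := mul_le_mul_of_nonneg_left hθπ hρ0.le
        _ < (2 * k + 2) * Real.pi := mul_lt_mul_of_pos_right hρ hpi
    have h2 : (j : ℝ) < k + 1 := by
      by_contra hn
      push Not at hn
      nlinarith
    have h3 : j < (k : ℤ) + 1 := by exact_mod_cast h2
    omega
  have hjeq : j = k := by
    rcases hc with h1 | ⟨h1, h2⟩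
    · omega
    · have c1 : Real.cos (σ₁ * θ) = 1 := by
        rcases mul_eq_zero.1 z1 with h | h
        · exact absurd h h1.ne'
        · linarith
      obtain ⟨i, hi⟩ := (Real.cos_eq_one_iff _).1 c1
      have h3 : (j : ℝ) = k * i := by
        have e1 : (k : ℝ) * ((i : ℝ) * (2 * Real.pi)) = (j : ℝ) * (2 * Real.pi) := by
          rw [hi, hj, h2]; field_simp
        have e2 : ((k : ℝ) * i - j) * (2 * Real.pi) = 0 := by linarith
        rcases mul_eq_zero.1 e2 with h | h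
        · linarith
        · linarith
      have h4 : j = k * i := by exact_mod_cast h3
      have h5 : 0 < i := by
        by_contra hn
        push Not at hn
        have : (k : ℤ) * i ≤ 0 := mul_nonpos_of_nonneg_of_nonpos (by omega) hn
        omega
      have h6 : (k : ℤ) ≤ k * i := by nlinarith
      omega
  apply hne
  rw [eq_div_iff hρ0.ne']
  have : (j : ℝ) = k := by exact_mod_cast hjeq
  rw [this] at hj
  linarith

theorem IA_per (ρ θ₀ : ℝ) (n : ℕ) (h : ρ * θ₀ = 2 * Real.pi * n) : exp (ρ * θ₀ * I) = 1 := by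
  have h1 : (ρ : ℂ) * θ₀ * I = (n : ℂ) * (2 * Real.pi * I) := by
    have : (ρ : ℂ) * θ₀ = ((ρ * θ₀ : ℝ) : ℂ) := by push_cast; ring
    rw [this, h]
    push_cast
    ring
  rw [h1, Complex.exp_nat_mul_two_pi_mul_I]

/-- `ρ ∈ (2k, 2k+1)`: `Ψ = FF ρ` (`k = 1`) or `FF ρ * FF (ρ/k)` times `(1+z)^M`, `θ₀ = 2πk/ρ`,
`d = 2`, `ψ = π`. -/
theorem lower_A (k : ℕ) (hk : 1 ≤ k) (ρ : ℝ) (h1 : 2 * (k : ℝ) < ρ) (h2 : ρ < 2 * k + 1) :
    ∃ f ∈ Pool.Agent.helper38.Lac.Gord (ρ : EReal) 2,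
      Pool.Agent.helper38.Lac.delta f = Real.pi := by
  have hpi := Real.pi_pos
  have hk1 : (1 : ℝ) ≤ k := by exact_mod_cast hk
  have hρ0 : 0 < ρ := by linarith
  have hfl : ⌊ρ⌋₊ = 2 * k := by
    rw [Nat.floor_eq_iff hρ0.le]
    push_cast
    exact ⟨h1.le, h2⟩
  have hni : ∀ n : ℕ, ρ ≠ n := by
    intro n hn
    rw [hn] at h1 h2
    have a1 : 2 * k < n := by exact_mod_cast h1
    have a2 : n < 2 * k + 1 := by exact_mod_cast h2
    omega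
  obtain ⟨F₀, L₀, H, hF0, hsgn⟩ := IA_fac_prod ρ (by linarith) hni
  have hH : 0 < H := by
    rw [hfl] at hsgn
    simpa using hsgn
  have hθ : 2 * Real.pi / 3 < 2 * Real.pi * k / ρ := by
    rw [div_lt_div_iff₀ (by norm_num) hρ0]
    have : ρ < 3 * k := by linarith
    nlinarith
  have hθ' : 2 * Real.pi * k / ρ < Real.pi := by
    rw [div_lt_iff₀ hρ0]
    nlinarith
  have hper := IA_per ρ (2 * Real.pi * k / ρ) k (by field_simp)
  have hπ : Real.cos (ρ * Real.pi) < 1 := by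
    refine lt_of_le_of_ne (Real.cos_le_one _) fun he => ?_
    obtain ⟨j, hj⟩ := (Real.cos_eq_one_iff _).1 he
    have e1 : (j : ℝ) * 2 = ρ := by
      have : ((j : ℝ) * 2 - ρ) * Real.pi = 0 := by linarith
      rcases mul_eq_zero.1 this with h | h
      · linarith
      · exact absurd h hpi.ne'
    rw [← e1] at h1 h2
    have a1 : 2 * (k : ℤ) < j * 2 := by exact_mod_cast h1
    have a2 : j * 2 < 2 * (k : ℤ) + 1 := by exact_mod_cast h2
    omega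
  rcases Nat.lt_or_ge k 2 with hk2 | hk2
  · -- k = 1
    have hk' : k = 1 := by omega
    refine IA_core ρ H 1 0 ρ (2 * Real.pi * k / ρ) F₀ L₀ _ _ hF0 (IA_fac_one 1) hH le_rfl one_pos
      (by linarith) (by linarith) le_rfl (Or.inl rfl) hθ hθ' hper (Or.inl rfl) ?_ hπ
    intro θ a1 a2 a3
    exact IA_gpos k hk ρ H 1 0 hρ0 (by linarith) hH le_rfl (Or.inl hk') θ a1 a2 a3
  · have hk2' : (2 : ℝ) ≤ k := by exact_mod_cast hk2
    have hk0 : (0 : ℝ) < k := by linarith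
    have b1 : 2 < ρ / k := by rw [lt_div_iff₀ hk0]; linarith
    have b2 : ρ / k < 3 := by rw [div_lt_iff₀ hk0]; linarith
    have hfl1 : ⌊ρ / k⌋₊ = 2 := by
      rw [Nat.floor_eq_iff (by linarith)]
      push_cast
      exact ⟨b1.le, by linarith⟩
    have hni1 : ∀ n : ℕ, ρ / k ≠ n := by
      intro n hn
      rw [hn] at b1 b2
      have a1 : 2 < n := by exact_mod_cast b1
      have a2 : n < 3 := by exact_mod_cast b2
      omega
    obtain ⟨F₁, L₁, H₁, hF1, hsgn1⟩ := IA_fac_prod (ρ / k) (by linarith) hni1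
    have hH₁ : 0 < H₁ := by
      rw [hfl1] at hsgn1
      simpa using hsgn1
    refine IA_core ρ H (ρ / k) H₁ (ρ / k) (2 * Real.pi * k / ρ) F₀ L₀ F₁ L₁ hF0 hF1 hH hH₁.le
      (by linarith) ?_ b1 ?_ (Or.inr le_rfl) hθ hθ' hper
      (Or.inr (IA_per (ρ / k) _ 1 (by push_cast; field_simp))) ?_ hπ
    · rw [div_lt_iff₀ hk0]; nlinarith
    · rw [div_le_iff₀ hk0]; nlinarith
    · intro θ a1 a2 a3
      exact IA_gpos k hk ρ H (ρ / k) H₁ hρ0 (by linarith) hH hH₁.le (Or.inr ⟨hH₁, rfl⟩) θ a1 a2 a3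

end Pool.Agent.helper74.LG
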