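import Pool.Agent.helper74.LG.EL

set_option autoImplicit false

namespace Pool.Agent.helper74.LG

open Complex Set Filter Topology MeasureTheory

theorem K2_taylor (z : ℂ) (hz : ‖z‖ ≤ 1 / 2) :
    ‖log (1 - z) + z + z ^ 2 / 2 + z ^ 3 / 3‖ ≤ ‖z‖ ^ 4 / 2 := by
  have h := norm_log_sub_logTaylor_le 3 (z := -z) (by rw [norm_neg]; linarith)
  have e : log (1 + -z) - logTaylor (3 + 1) (-z) = log (1 - z) + z + z ^ 2 / 2 + z ^ 3 / 3 := by
    simp only [logTaylor_succ, logTaylor_zero, Pi.add_apply]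
    rw [← sub_eq_add_neg]
    push_cast
    ring
  rw [e, norm_neg] at h
  refine h.trans ?_
  have h0 : 0 ≤ ‖z‖ := norm_nonneg z
  have h1 : (1 - ‖z‖)⁻¹ ≤ 2 := by
    rw [inv_le_comm₀ (by linarith) (by norm_num)]
    linarith
  have h2 : 0 ≤ ‖z‖ ^ 4 := by positivity
  have h3 : ‖z‖ ^ (3 + 1) * (1 - ‖z‖)⁻¹ ≤ ‖z‖ ^ 4 * 2 := by
    apply mul_le_mul_of_nonneg_left h1 h2
  have h4 : ‖z‖ ^ (3 + 1) * (1 - ‖z‖)⁻¹ / ((3 : ℕ) + 1) ≤ ‖z‖ ^ 4 * 2 / ((3 : ℕ) + 1) := by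
    apply div_le_div_of_nonneg_right h3 (by positivity)
  refine h4.trans (le_of_eq ?_)
  push_cast
  ring

theorem K2_elog (ψ : ℝ) (w : ℂ) (hw : ‖exp w‖ ≤ 1 / 2) :
    ‖elog 2 ψ w + (2 / 3 * Real.cos (3 * ψ) : ℝ) * exp w ^ 3‖ ≤ ‖exp w‖ ^ 4 := by
  set x := exp w with hx
  have a1 : exp (w - ψ * I) = x * exp (-(ψ * I)) := by rw [hx, ← exp_add]; ring_nf
  have a2 : exp (w + ψ * I) = x * exp (ψ * I) := by rw [hx, ← exp_add]
  set p := exp (ψ * I) with hp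
  set q := exp (-(ψ * I)) with hq
  have np : ‖p‖ = 1 := by rw [hp]; exact norm_exp_ofReal_mul_I ψ
  have nq : ‖q‖ = 1 := by
    rw [hq, show -((ψ : ℂ) * I) = ((-ψ : ℝ) : ℂ) * I by push_cast; ring]
    exact norm_exp_ofReal_mul_I (-ψ)
  have c1 : p + q = 2 * (Real.cos ψ : ℂ) := by
    rw [hp, hq, ofReal_cos, Complex.cos, neg_mul]
    ring
  have c2 : p ^ 2 + q ^ 2 = 2 * (Real.cos (2 * ψ) : ℂ) := by
    rw [hp, hq, ofReal_cos, Complex.cos, ← exp_nat_mul, ← exp_nat_mul]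
    push_cast
    ring_nf
  have c3 : p ^ 3 + q ^ 3 = 2 * (Real.cos (3 * ψ) : ℂ) := by
    rw [hp, hq, ofReal_cos, Complex.cos, ← exp_nat_mul, ← exp_nat_mul]
    push_cast
    ring_nf
  have hpoly : clPoly 2 ψ x = 2 * (Real.cos ψ : ℂ) * x + (Real.cos (2 * ψ) : ℂ) * x ^ 2 := by
    unfold clPoly
    rw [Finset.sum_Icc_succ_top (by norm_num : 1 ≤ 1 + 1), Finset.Icc_self, Finset.sum_singleton]
    push_cast
    ring_nf
  have t1 := K2_taylor (x * q) (by rw [norm_mul, nq, mul_one]; exact hw)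
  have t2 := K2_taylor (x * p) (by rw [norm_mul, np, mul_one]; exact hw)
  rw [norm_mul, nq, mul_one] at t1
  rw [norm_mul, np, mul_one] at t2
  have e : elog 2 ψ w + (2 / 3 * Real.cos (3 * ψ) : ℝ) * x ^ 3 =
      (log (1 - x * q) + x * q + (x * q) ^ 2 / 2 + (x * q) ^ 3 / 3) +
      (log (1 - x * p) + x * p + (x * p) ^ 2 / 2 + (x * p) ^ 3 / 3) := by
    unfold elog
    rw [a1, a2, ← hx, hpoly]
    have d1 : x * q + x * p = x * (2 * (Real.cos ψ : ℂ)) := by rw [← c1]; ring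
    have d2 : (x * q) ^ 2 + (x * p) ^ 2 = x ^ 2 * (2 * (Real.cos (2 * ψ) : ℂ)) := by
      rw [← c2]; ring
    have d3 : (x * q) ^ 3 + (x * p) ^ 3 = x ^ 3 * (2 * (Real.cos (3 * ψ) : ℂ)) := by
      rw [← c3]; ring
    have : (log (1 - x * q) + x * q + (x * q) ^ 2 / 2 + (x * q) ^ 3 / 3) +
      (log (1 - x * p) + x * p + (x * p) ^ 2 / 2 + (x * p) ^ 3 / 3) =
      log (1 - x * q) + log (1 - x * p) + (x * q + x * p) + ((x * q) ^ 2 + (x * p) ^ 2) / 2 +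
        ((x * q) ^ 3 + (x * p) ^ 3) / 3 := by ring
    rw [this, d1, d2, d3]
    push_cast
    ring
  rw [e]
  refine (norm_add_le _ _).trans ?_
  linarith

/-- For small `u = e^x`: `kap = - (2/3) cos (3ψ) (1 - cos (3θ₀)) u^3 + O (u^4)`. -/
theorem kap_neg_small (ψ θ₀ : ℝ) (h1 : 3 * Real.pi / 4 < ψ) (h2 : ψ < 5 * Real.pi / 6)
    (h3 : Real.pi / 2 < θ₀) (h4 : θ₀ < 2 * Real.pi / 3) :
    ∃ x₀ : ℝ, kap 2 ψ θ₀ x₀ < 0 := by
  have hpi := Real.pi_pos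
  have hc : 0 < Real.cos (3 * ψ) := by
    rw [← Real.cos_sub_two_pi]
    apply Real.cos_pos_of_mem_Ioo
    constructor <;> linarith
  have hd : 0 < 1 - Real.cos (3 * θ₀) := by
    have h5 : Real.cos (3 * θ₀) ≠ 1 := by
      intro h
      rw [Real.cos_eq_one_iff] at h
      obtain ⟨n, hn⟩ := h
      have h6 : (n : ℝ) * (2 * Real.pi) < 1 * (2 * Real.pi) := by linarith
      have h7 : 0 * (2 * Real.pi) < (n : ℝ) * (2 * Real.pi) := by linarith
      have h8 : (n : ℝ) < 1 := lt_of_mul_lt_mul_right h6 (by linarith)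
      have h9 : (0 : ℝ) < (n : ℝ) := lt_of_mul_lt_mul_right h7 (by linarith)
      have h10 : n < 1 := by exact_mod_cast h8
      have h11 : 0 < n := by exact_mod_cast h9
      omega
    have := Real.cos_le_one (3 * θ₀)
    rcases lt_or_eq_of_le this with h | h
    · linarith
    · exact absurd h h5
  set a := Real.cos (3 * ψ) with ha
  set b := 1 - Real.cos (3 * θ₀) with hb
  set u := min (1 / 2) (a * b / 6) with hu
  have hu0 : 0 < u := by
    rw [hu]; apply lt_min <;> positivity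
  have hu1 : u ≤ 1 / 2 := min_le_left _ _
  have hu2 : u ≤ a * b / 6 := min_le_right _ _
  refine ⟨Real.log u, ?_⟩
  have E1 : exp ((Real.log u : ℝ) : ℂ) = (u : ℂ) := by
    rw [← ofReal_exp, Real.exp_log hu0]
  have E2 : exp ((Real.log u : ℝ) + (θ₀ : ℂ) * I) = (u : ℂ) * exp (θ₀ * I) := by
    rw [exp_add, E1]
  have N1 : ‖exp ((Real.log u : ℝ) : ℂ)‖ = u := by
    rw [E1, norm_real, Real.norm_eq_abs, abs_of_pos hu0]
  have N2 : ‖exp ((Real.log u : ℝ) + (θ₀ : ℂ) * I)‖ = u := by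
    rw [E2, norm_mul, norm_exp_ofReal_mul_I, norm_real, Real.norm_eq_abs, abs_of_pos hu0, mul_one]
  have B1 := K2_elog ψ ((Real.log u : ℝ) : ℂ) (by rw [N1]; exact hu1)
  have B2 := K2_elog ψ ((Real.log u : ℝ) + (θ₀ : ℂ) * I) (by rw [N2]; exact hu1)
  rw [N1] at B1
  rw [N2] at B2
  have R1 := (abs_re_le_norm _).trans B1
  have R2 := (abs_re_le_norm _).trans B2
  rw [add_re, re_ofReal_mul] at R1 R2
  have P1 : (exp ((Real.log u : ℝ) : ℂ) ^ 3).re = u ^ 3 := by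
    rw [E1, ← ofReal_pow, ofReal_re]
  have P2 : (exp ((Real.log u : ℝ) + (θ₀ : ℂ) * I) ^ 3).re = u ^ 3 * Real.cos (3 * θ₀) := by
    rw [E2, mul_pow, ← ofReal_pow, re_ofReal_mul, ← exp_nat_mul]
    have : ((3 : ℕ) : ℂ) * (θ₀ * I) = ((3 * θ₀ : ℝ) : ℂ) * I := by push_cast; ring
    rw [this, exp_ofReal_mul_I_re]
  rw [P1] at R1
  rw [P2] at R2
  have Q1 := (abs_le.mp R1).2
  have Q2 := (abs_le.mp R2).1
  unfold kap
  have hcos : Real.cos (3 * θ₀) = 1 - b := by rw [hb]; ring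
  rw [hcos, ← ha] at Q2
  rw [← ha] at Q1
  have u3 : 0 < u ^ 3 := by positivity
  have key : 2 * u ^ 4 < 2 / 3 * a * b * u ^ 3 := by
    have : 2 * u ^ 4 = 2 * u * u ^ 3 := by ring
    rw [this]
    apply mul_lt_mul_of_pos_right _ u3
    have : 0 < a * b := by positivity
    linarith
  nlinarith

end Pool.Agent.helper74.LG
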