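import Pool.Agent.helper74.LG.FN
import Pool.Agent.helper74.LG.FZ
import Pool.Agent.helper74.LG.TP
import Pool.Agent.helper74.LG.K1
import Pool.Agent.helper74.LG.K2
import Pool.Agent.helper38.LacOrd
import Pool.Agent.helper74.LG.Defs3

set_option autoImplicit false

namespace Pool.Agent.helper74.LG

open Complex Set Filter Topology MeasureTheory

/-- The properties of the canonical factors. -/
structure IB_Fac (ρ κ : ℝ) (F L : ℂ → ℂ) : Prop where
  ent : RealEnt F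
  pos : ∀ x : ℝ, 0 ≤ x → 0 < (F x).re
  zer : ∀ z : ℂ, F z = 0 → z.im = 0 ∧ z.re < 0
  an : DifferentiableOn ℂ L {w : ℂ | |w.im| < Real.pi}
  ex : ∀ w : ℂ, |w.im| < Real.pi → exp (L w) = F (exp w)
  re : ∀ x : ℝ, (L x).im = 0
  asy : ∀ ε : ℝ, 0 < ε → ∃ C : ℝ, 0 < C ∧ ∀ w : ℂ, 0 ≤ w.re → |w.im| ≤ Real.pi - ε →
        ‖L w - κ * exp (ρ * w)‖ ≤ C * (1 + w.re)
  up : ∀ ε : ℝ, 0 < ε → ∃ s₀ : ℝ, ∀ s θ : ℝ, s₀ ≤ s → |θ| ≤ Real.pi →
        ‖F (exp (s + θ * I))‖ ≤ Real.exp ((κ * Real.cos (ρ * θ) + ε) * Real.exp (ρ * s))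

theorem IB_triv (σ : ℝ) : IB_Fac σ 0 (fun _ => 1) (fun _ => 0) where
  ent := ⟨differentiable_const _, fun z => by simp⟩
  pos := fun x _ => by simp
  zer := fun z h => absurd h one_ne_zero
  an := differentiableOn_const _
  ex := fun w _ => by simp
  re := fun x => by simp
  asy := fun ε _ => ⟨1, one_pos, fun w h _ => by simp; linarith⟩
  up := fun ε hε => ⟨0, fun s θ _ _ => by
    simp only [norm_one, zero_mul, zero_add]
    exact Real.one_le_exp (by positivity)⟩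

theorem IB_isOpen : IsOpen {w : ℂ | |w.im| < Real.pi} :=
  isOpen_lt (continuous_im.abs) continuous_const

theorem IB_conn : IsPreconnected {w : ℂ | |w.im| < Real.pi} := by
  have h : {w : ℂ | |w.im| < Real.pi} = imCLM ⁻¹' (Ioo (-Real.pi) Real.pi) := by
    ext w
    simp only [mem_ofPred_eq, mem_preimage, imCLM_apply, mem_Ioo, abs_lt]
  rw [h]
  apply Convex.isPreconnected
  exact (convex_Ioo _ _).linear_preimage (imCLM : ℂ →L[ℝ] ℝ).toLinearMap

/-- Schwarz reflection for the logarithm. -/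
theorem IB_symm {ρ κ : ℝ} {F L : ℂ → ℂ} (h : IB_Fac ρ κ F L) (w : ℂ) (hw : |w.im| < Real.pi) :
    L ((starRingEnd ℂ) w) = (starRingEnd ℂ) (L w) := by
  have hO := IB_isOpen
  have hA : AnalyticOnNhd ℂ L {w : ℂ | |w.im| < Real.pi} := h.an.analyticOnNhd hO
  have hB : DifferentiableOn ℂ (fun w => (starRingEnd ℂ) (L ((starRingEnd ℂ) w)))
      {w : ℂ | |w.im| < Real.pi} := by
    intro z hz
    have hz' : |((starRingEnd ℂ) z).im| < Real.pi := by rw [conj_im, abs_neg]; exact hz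
    have := (h.an.differentiableAt (hO.mem_nhds hz'))
    exact (differentiableAt_conj_conj_iff.2 this).differentiableWithinAt
  have hB' := hB.analyticOnNhd hO
  have key := hB'.eqOn_of_preconnected_of_frequently_eq hA IB_conn (z₀ := 0)
    (by simp [Real.pi_pos]) (by
      have h1 : ∃ᶠ x : ℝ in 𝓝[≠] 0, (starRingEnd ℂ) (L ((starRingEnd ℂ) (x : ℂ))) = L x := by
        apply Filter.Eventually.frequently
        filter_upwards with x
        rw [conj_ofReal]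
        exact conj_eq_iff_im.2 (h.re x)
      have h2 : Tendsto (fun x : ℝ => (x : ℂ)) (𝓝[≠] 0) (𝓝[≠] 0) := by
        apply tendsto_nhdsWithin_of_tendsto_nhds_of_eventually_within
        · have : Tendsto (fun x : ℝ => (x : ℂ)) (𝓝 0) (𝓝 ((0 : ℝ) : ℂ)) :=
            continuous_ofReal.tendsto 0
          rw [ofReal_zero] at this
          exact this.mono_left nhdsWithin_le_nhds
        · filter_upwards [self_mem_nhdsWithin] with x hx
          simpa using hx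
      exact h2.frequently h1)
  have h3 := key hw
  simp only at h3
  rw [← h3, conj_conj]

/-- the base function -/
noncomputable def IB_Psi (β : ℝ) (F F₁ : ℂ → ℂ) (z : ℂ) : ℂ :=
  F (z * exp (β * I)) * F (z * exp (-(β * I))) * F₁ z

/-- its logarithm -/
noncomputable def IB_K (β : ℝ) (L L₁ : ℂ → ℂ) (w : ℂ) : ℂ :=
  L (w + β * I) + L (w - β * I) + L₁ w

theorem IB_im1 (β : ℝ) (w : ℂ) : (w + β * I).im = w.im + β := by simp
theorem IB_im2 (β : ℝ) (w : ℂ) : (w - β * I).im = w.im - β := by simp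
theorem IB_re1 (β : ℝ) (w : ℂ) : (w + β * I).re = w.re := by simp
theorem IB_re2 (β : ℝ) (w : ℂ) : (w - β * I).re = w.re := by simp

theorem IB_abs1 {β x t : ℝ} (hβ : 0 ≤ β) (h : |x| + β ≤ t) : |x + β| ≤ t ∧ |x - β| ≤ t ∧ |x| ≤ t := by
  refine ⟨?_, ?_, by linarith⟩
  · exact (abs_add_le _ _).trans (by rw [abs_of_nonneg hβ]; exact h)
  · exact (abs_sub _ _).trans (by rw [abs_of_nonneg hβ]; exact h)

theorem IB_abs2 {β x t : ℝ} (hβ : 0 ≤ β) (h : |x| + β < t) : |x + β| < t ∧ |x - β| < t ∧ |x| < t := by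
  refine ⟨?_, ?_, by linarith⟩
  · exact (abs_add_le _ _).trans_lt (by rw [abs_of_nonneg hβ]; exact h)
  · exact (abs_sub _ _).trans_lt (by rw [abs_of_nonneg hβ]; exact h)

section
variable {ρ κ σ₁ κ₁ : ℝ} {F L F₁ L₁ : ℂ → ℂ}

theorem IB_ent (hF : IB_Fac ρ κ F L) (hF₁ : IB_Fac σ₁ κ₁ F₁ L₁) (β : ℝ) :
    RealEnt (IB_Psi β F F₁) := by
  constructor
  · unfold IB_Psi
    have h1 : Differentiable ℂ (fun z : ℂ => F (z * exp (β * I))) :=
      hF.ent.1.comp (differentiable_id.mul_const _)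
    have h2 : Differentiable ℂ (fun z : ℂ => F (z * exp (-(β * I)))) :=
      hF.ent.1.comp (differentiable_id.mul_const _)
    exact (h1.mul h2).mul hF₁.ent.1
  · intro z
    unfold IB_Psi
    have e1 : (starRingEnd ℂ) z * exp (β * I) = (starRingEnd ℂ) (z * exp (-(β * I))) := by
      rw [map_mul, ← exp_conj, map_neg, map_mul, conj_ofReal, conj_I]
      congr 2; ring
    have e2 : (starRingEnd ℂ) z * exp (-(β * I)) = (starRingEnd ℂ) (z * exp (β * I)) := by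
      rw [map_mul, ← exp_conj, map_mul, conj_ofReal, conj_I]
      congr 2; ring
    rw [e1, e2, hF.ent.2, hF.ent.2, hF₁.ent.2, map_mul, map_mul]
    ring

theorem IB_exK (hF : IB_Fac ρ κ F L) (hF₁ : IB_Fac σ₁ κ₁ F₁ L₁) {β : ℝ} (hβ : 0 ≤ β) (w : ℂ)
    (hw : |w.im| + β < Real.pi) : exp (IB_K β L L₁ w) = IB_Psi β F F₁ (exp w) := by
  obtain ⟨h1, h2, h3⟩ := IB_abs2 hβ hw
  unfold IB_K IB_Psi
  rw [exp_add, exp_add, hF.ex _ (by rw [IB_im1]; exact h1), hF.ex _ (by rw [IB_im2]; exact h2),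
    hF₁.ex _ h3, exp_add, sub_eq_add_neg, exp_add]

theorem IB_anK (hF : IB_Fac ρ κ F L) (hF₁ : IB_Fac σ₁ κ₁ F₁ L₁) {β : ℝ} (hβ : 0 ≤ β) :
    DifferentiableOn ℂ (IB_K β L L₁) {w : ℂ | |w.im| + β < Real.pi} := by
  intro w hw
  obtain ⟨h1, h2, h3⟩ := IB_abs2 hβ hw
  have hO := IB_isOpen
  unfold IB_K
  have d1 : DifferentiableAt ℂ (fun w : ℂ => L (w + β * I)) w := by
    apply DifferentiableAt.comp (g := L) (f := fun w : ℂ => w + β * I)
    · exact hF.an.differentiableAt (hO.mem_nhds (by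
        show |(w + β * I).im| < Real.pi
        rw [IB_im1]; exact h1))
    · exact (differentiableAt_id).add_const _
  have d2 : DifferentiableAt ℂ (fun w : ℂ => L (w - β * I)) w := by
    apply DifferentiableAt.comp (g := L) (f := fun w : ℂ => w - β * I)
    · exact hF.an.differentiableAt (hO.mem_nhds (by
        show |(w - β * I).im| < Real.pi
        rw [IB_im2]; exact h2))
    · exact (differentiableAt_id).sub_const _
  have d3 : DifferentiableAt ℂ L₁ w := hF₁.an.differentiableAt (hO.mem_nhds h3)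
  exact ((d1.add d2).add d3).differentiableWithinAt

theorem IB_reK (hF : IB_Fac ρ κ F L) (hF₁ : IB_Fac σ₁ κ₁ F₁ L₁) {β : ℝ} (hβ : 0 ≤ β)
    (hβπ : β < Real.pi) (x : ℝ) : (IB_K β L L₁ x).im = 0 := by
  unfold IB_K
  have h1 : L ((x : ℂ) - β * I) = (starRingEnd ℂ) (L ((x : ℂ) + β * I)) := by
    rw [← IB_symm hF]
    · congr 1
      rw [map_add, map_mul, conj_ofReal, conj_ofReal, conj_I]; ring
    · rw [IB_im1, ofReal_im, zero_add, abs_of_nonneg hβ]; exact hβπ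
  rw [h1, add_im, add_im, conj_im, hF₁.re]
  ring

theorem IB_asyK (hF : IB_Fac ρ κ F L) (hF₁ : IB_Fac σ₁ κ₁ F₁ L₁) {β : ℝ} (hβ : 0 ≤ β) (ε : ℝ)
    (hε : 0 < ε) : ∃ C : ℝ, 0 < C ∧ ∀ w : ℂ, 0 ≤ w.re → |w.im| + β ≤ Real.pi - ε →
      ‖IB_K β L L₁ w - ((2 * κ * Real.cos (ρ * β) : ℝ) * exp (ρ * w) + κ₁ * exp (σ₁ * w))‖
        ≤ C * (1 + w.re) := by
  obtain ⟨C, hC, h⟩ := hF.asy ε hε
  obtain ⟨C₁, hC₁, h₁⟩ := hF₁.asy ε hε
  refine ⟨2 * C + C₁, by positivity, fun w hw hi => ?_⟩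
  obtain ⟨i1, i2, i3⟩ := IB_abs1 hβ hi
  have a1 := h (w + β * I) (by rw [IB_re1]; exact hw) (by rw [IB_im1]; exact i1)
  have a2 := h (w - β * I) (by rw [IB_re2]; exact hw) (by rw [IB_im2]; exact i2)
  have a3 := h₁ w hw i3
  rw [IB_re1] at a1
  rw [IB_re2] at a2
  have e1 : ((2 * κ * Real.cos (ρ * β) : ℝ) : ℂ) * exp (ρ * w)
      = κ * exp (ρ * (w + β * I)) + κ * exp (ρ * (w - β * I)) := by
    have e2 : exp (ρ * (w + β * I)) = exp (ρ * w) * exp ((ρ * β) * I) := by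
      rw [← exp_add]; congr 1; ring
    have e3 : exp (ρ * (w - β * I)) = exp (ρ * w) * exp (-(ρ * β) * I) := by
      rw [← exp_add]; congr 1; ring
    rw [e2, e3]
    push_cast
    rw [Complex.cos]
    ring
  rw [e1]
  have e4 : IB_K β L L₁ w - (κ * exp (ρ * (w + β * I)) + κ * exp (ρ * (w - β * I))
      + κ₁ * exp (σ₁ * w)) = (L (w + β * I) - κ * exp (ρ * (w + β * I)))
        + (L (w - β * I) - κ * exp (ρ * (w - β * I))) + (L₁ w - κ₁ * exp (σ₁ * w)) := by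
    unfold IB_K; ring
  rw [e4]
  refine (norm_add_le _ _).trans ?_
  refine (add_le_add (norm_add_le _ _) le_rfl).trans ?_
  calc _ ≤ C * (1 + w.re) + C * (1 + w.re) + C₁ * (1 + w.re) := add_le_add (add_le_add a1 a2) a3
    _ = _ := by ring

theorem IB_zer (hF : IB_Fac ρ κ F L) (hF₁ : IB_Fac σ₁ κ₁ F₁ L₁) {β : ℝ} (hβ : 0 < β)
    (hβπ : β < Real.pi) (z : ℂ) (hz : IB_Psi β F F₁ z = 0) : Real.pi - β ≤ |arg z| := by
  have key : ∀ (γ : ℝ), |γ| < Real.pi → γ ≠ 0 → ∀ u : ℂ, (u.im = 0 ∧ u.re < 0) →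
      Real.pi - |γ| ≤ |arg (u * exp (γ * I))| := by
    intro γ hγ hγ0 u hu
    have e1 : u * exp (γ * I) = ((-u.re : ℝ) : ℂ) * (cos ((γ - Real.pi : ℝ)) +
        sin ((γ - Real.pi : ℝ)) * I) := by
      rw [← exp_mul_I]
      have : u = ((u.re : ℝ) : ℂ) := by
        apply Complex.ext <;> simp [hu.1]
      have e2 : exp (((γ - Real.pi : ℝ) : ℂ) * I) = -exp (γ * I) := by
        push_cast
        rw [sub_mul, exp_sub, exp_pi_mul_I]
        ring
      rw [e2]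
      conv_lhs => rw [this]
      push_cast
      ring
    have e1' : u * exp (γ * I) = ((-u.re : ℝ) : ℂ) * (cos ((γ + Real.pi : ℝ)) +
        sin ((γ + Real.pi : ℝ)) * I) := by
      rw [← exp_mul_I]
      have : u = ((u.re : ℝ) : ℂ) := by
        apply Complex.ext <;> simp [hu.1]
      have e2 : exp (((γ + Real.pi : ℝ) : ℂ) * I) = -exp (γ * I) := by
        push_cast
        rw [add_mul, exp_add, exp_pi_mul_I]
        ring
      rw [e2]
      conv_lhs => rw [this]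
      push_cast
      ring
    have hr : 0 < -u.re := by linarith [hu.2]
    rcases lt_or_gt_of_ne hγ0 with h | h
    · rw [e1', arg_mul_cos_add_sin_mul_I hr ⟨by rw [abs_of_neg h] at hγ; linarith,
        by linarith⟩, abs_of_neg h]
      rw [abs_of_neg h] at hγ
      rw [abs_of_pos (by linarith)]
      linarith
    · rw [abs_of_pos h] at hγ
      rw [e1, arg_mul_cos_add_sin_mul_I hr ⟨by linarith, by linarith⟩, abs_of_pos h]
      rw [abs_of_neg (by linarith)]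
      linarith
  unfold IB_Psi at hz
  rcases mul_eq_zero.1 hz with hz | hz
  · rcases mul_eq_zero.1 hz with hz | hz
    · have h1 := key (-β) (by rw [abs_neg, abs_of_pos hβ]; exact hβπ) (by linarith) _ (hF.zer _ hz)
      have e : z * exp (β * I) * exp (((-β : ℝ) : ℂ) * I) = z := by
        rw [mul_assoc, ← exp_add]
        push_cast
        have : (β : ℂ) * I + -β * I = 0 := by ring
        rw [this, exp_zero, mul_one]
      rw [e, abs_neg, abs_of_pos hβ] at h1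
      exact h1
    · have h1 := key β (by rw [abs_of_pos hβ]; exact hβπ) (by linarith) _ (hF.zer _ hz)
      have e : z * exp (-(β * I)) * exp ((β : ℂ) * I) = z := by
        rw [mul_assoc, ← exp_add]
        have : -((β : ℂ) * I) + β * I = 0 := by ring
        rw [this, exp_zero, mul_one]
      rw [e, abs_of_pos hβ] at h1
      exact h1
  · obtain ⟨h1, h2⟩ := hF₁.zer z hz
    have : arg z = Real.pi := arg_eq_pi_iff.2 ⟨h2, h1⟩
    rw [this, abs_of_pos Real.pi_pos]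
    linarith

end

section
variable {ρ κ σ₁ κ₁ : ℝ} {F L F₁ L₁ : ℂ → ℂ}

theorem IB_mainre (ρ s θ H : ℝ) : ((H : ℂ) * exp (ρ * (s + θ * I))).re
    = H * Real.cos (ρ * θ) * Real.exp (ρ * s) := by
  have e : (ρ : ℂ) * (s + θ * I) = ((ρ * s : ℝ) : ℂ) + ((ρ * θ : ℝ) : ℂ) * I := by
    push_cast; ring
  rw [e, exp_add, ← ofReal_exp, re_ofReal_mul, re_ofReal_mul, exp_ofReal_mul_I_re]
  ring

/-- bounds on the real axis and in region I -/
theorem IB_low (hF : IB_Fac ρ κ F L) (hF₁ : IB_Fac σ₁ κ₁ F₁ L₁) {β : ℝ} (hβ : 0 ≤ β)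
    {ε : ℝ} (hε : 0 < ε) (hβε : β ≤ Real.pi - ε) : ∃ C : ℝ, 0 < C ∧
      (∀ s : ℝ, 0 ≤ s → Real.exp (2 * κ * Real.cos (ρ * β) * Real.exp (ρ * s)
        + κ₁ * Real.exp (σ₁ * s) - C * (1 + s)) ≤ (IB_Psi β F F₁ (exp s)).re) ∧
      (∀ s θ : ℝ, 0 ≤ s → |θ| + β ≤ Real.pi - ε → ‖IB_Psi β F F₁ (exp (s + θ * I))‖
        ≤ Real.exp (2 * κ * Real.cos (ρ * β) * Real.cos (ρ * θ) * Real.exp (ρ * s)
          + κ₁ * Real.cos (σ₁ * θ) * Real.exp (σ₁ * s) + C * (1 + s))) := by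
  obtain ⟨C, hC, h⟩ := IB_asyK hF hF₁ hβ ε hε
  have hb : β < Real.pi := by linarith
  refine ⟨C, hC, ?_, ?_⟩
  · intro s hs
    have him : |(s : ℂ).im| + β ≤ Real.pi - ε := by simp; exact hβε
    have h1 := h (s : ℂ) (by simpa using hs) him
    have h2 := IB_exK hF hF₁ hβ (s : ℂ) (by linarith)
    rw [← h2]
    have h3 : IB_K β L L₁ (s : ℂ) = (((IB_K β L L₁ (s : ℂ)).re : ℝ) : ℂ) := by
      apply Complex.ext
      · simp
      · rw [IB_reK hF hF₁ hβ hb, ofReal_im]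
    rw [h3, ← ofReal_exp, ofReal_re]
    apply Real.exp_le_exp.2
    have h4 := (abs_re_le_norm _).trans h1
    rw [sub_re, add_re] at h4
    have e1 := IB_mainre ρ s 0 (2 * κ * Real.cos (ρ * β))
    have e2 := IB_mainre σ₁ s 0 κ₁
    simp only [ofReal_zero, zero_mul, add_zero, mul_zero, Real.cos_zero, mul_one] at e1 e2
    rw [e1, e2, ofReal_re] at h4
    have := (abs_le.1 h4).1
    linarith
  · intro s θ hs hθ
    have him : |((s : ℂ) + θ * I).im| + β ≤ Real.pi - ε := by simpa using hθ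
    have h1 := h ((s : ℂ) + θ * I) (by simpa using hs) him
    have h2 := IB_exK hF hF₁ hβ ((s : ℂ) + θ * I) (by linarith)
    rw [← h2, Complex.norm_exp]
    apply Real.exp_le_exp.2
    have h4 := (abs_re_le_norm _).trans h1
    rw [sub_re, add_re, IB_mainre, IB_mainre] at h4
    have hre : ((s : ℂ) + θ * I).re = s := by simp
    rw [hre] at h4
    have := (abs_le.1 h4).2
    linarith

/-- region II -/
theorem IB_far (hF : IB_Fac ρ κ F L) (hF₁ : IB_Fac σ₁ κ₁ F₁ L₁) {β ν σ₂ : ℝ} (hβ : 0 < β)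
    (hβπ : β < Real.pi) (hν : 0 ≤ ν) (hβν : 0 ≤ Real.pi - β - ν)
    (hκ : κ < 0) (hH : 0 < 2 * κ * Real.cos (ρ * β)) (hκ₁ : 0 ≤ κ₁)
    (hσρ : σ₁ ≤ ρ) (hσ₂ : σ₂ ≤ ρ)
    (hII : ∀ θ : ℝ, Real.pi - β - ν ≤ θ → θ ≤ Real.pi - β → Real.cos (ρ * θ) ≤ 0)
    (hp : Real.cos (ρ * β) < Real.cos (ρ * (Real.pi - β))) :
    ∃ ε s₀ : ℝ, 0 < ε ∧ 0 ≤ s₀ ∧ ∀ s θ : ℝ, s₀ ≤ s → Real.pi - β - ν ≤ θ → θ ≤ Real.pi →
      ‖IB_Psi β F F₁ (exp (s + θ * I))‖ ≤ Real.exp (2 * κ * Real.cos (ρ * β) * Real.exp (ρ * s)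
        + κ₁ * Real.exp (σ₁ * s) - ε * Real.exp (σ₂ * s)) := by
  set H := 2 * κ * Real.cos (ρ * β) with hHdef
  set p := Real.cos (ρ * (Real.pi - β)) with hpdef
  have hp0 : p ≤ 0 := hII (Real.pi - β) (by linarith) le_rfl
  have hgap : 0 < H - 2 * κ * p := by
    have : H - 2 * κ * p = 2 * κ * (Real.cos (ρ * β) - p) := by rw [hHdef]; ring
    rw [this]
    apply mul_pos_of_neg_of_neg <;> linarith
  set ε := min (H / 4) ((H - 2 * κ * p) / 4) with hεdef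
  have hε : 0 < ε := lt_min (by positivity) (by positivity)
  have hε1 : ε ≤ H / 4 := min_le_left _ _
  have hε2 : ε ≤ (H - 2 * κ * p) / 4 := min_le_right _ _
  obtain ⟨s₁, hs₁⟩ := hF.up ε hε
  obtain ⟨s₂, hs₂⟩ := hF₁.up ε hε
  refine ⟨ε, max 0 (max s₁ s₂), hε, le_max_left _ _, ?_⟩
  intro s θ hs hθ1 hθ2
  have hs0 : 0 ≤ s := (le_max_left _ _).trans hs
  have hss1 : s₁ ≤ s := (le_max_left _ _).trans ((le_max_right _ _).trans hs)
  have hss2 : s₂ ≤ s := (le_max_right _ _).trans ((le_max_right _ _).trans hs)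
  have hpi := Real.pi_pos
  have hθ0 : 0 ≤ θ := by linarith
  -- the three factors
  have b2 : ‖F (exp (s + θ * I) * exp (-(β * I)))‖
      ≤ Real.exp ((κ * Real.cos (ρ * (θ - β)) + ε) * Real.exp (ρ * s)) := by
    have e : exp ((s : ℂ) + θ * I) * exp (-(β * I)) = exp (s + ((θ - β : ℝ) : ℂ) * I) := by
      rw [← exp_add]; congr 1; push_cast; ring
    rw [e]
    exact hs₁ s (θ - β) hss1 (abs_le.2 ⟨by linarith, by linarith⟩)
  have b3 : ‖F₁ (exp (s + θ * I))‖ ≤ Real.exp ((κ₁ + ε) * Real.exp (σ₁ * s)) := by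
    refine (hs₂ s θ hss2 (abs_le.2 ⟨by linarith, by linarith⟩)).trans (Real.exp_le_exp.2 ?_)
    apply mul_le_mul_of_nonneg_right _ (Real.exp_pos _).le
    have := mul_le_mul_of_nonneg_left (Real.cos_le_one (σ₁ * θ)) hκ₁
    linarith
  have b1 : ∃ x : ℝ, ‖F (exp (s + θ * I) * exp (β * I))‖
      ≤ Real.exp ((x + ε) * Real.exp (ρ * s)) ∧ x + κ * Real.cos (ρ * (θ - β)) ≤ H - 4 * ε := by
    by_cases hc : θ ≤ Real.pi - β
    · refine ⟨κ * Real.cos (ρ * (θ + β)), ?_, ?_⟩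
      · have e : exp ((s : ℂ) + θ * I) * exp (β * I) = exp (s + ((θ + β : ℝ) : ℂ) * I) := by
          rw [← exp_add]; congr 1; push_cast; ring
        rw [e]
        exact hs₁ s (θ + β) hss1 (abs_le.2 ⟨by linarith, by linarith⟩)
      · have e : κ * Real.cos (ρ * (θ + β)) + κ * Real.cos (ρ * (θ - β))
            = H * Real.cos (ρ * θ) := by
          have : ρ * (θ + β) = ρ * θ + ρ * β := by ring
          rw [this]
          have : ρ * (θ - β) = ρ * θ - ρ * β := by ring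
          rw [this, Real.cos_add, Real.cos_sub, hHdef]
          ring
        rw [e]
        have := mul_nonpos_of_nonneg_of_nonpos hH.le (hII θ hθ1 hc)
        linarith
    · push Not at hc
      refine ⟨κ * Real.cos (ρ * (θ + β - 2 * Real.pi)), ?_, ?_⟩
      · have e : exp ((s : ℂ) + θ * I) * exp (β * I)
            = exp (s + ((θ + β - 2 * Real.pi : ℝ) : ℂ) * I) := by
          rw [← exp_add, ← exp_periodic.sub_eq]; congr 1; push_cast; ring
        rw [e]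
        exact hs₁ s (θ + β - 2 * Real.pi) hss1 (abs_le.2 ⟨by linarith, by linarith⟩)
      · have e : κ * Real.cos (ρ * (θ + β - 2 * Real.pi)) + κ * Real.cos (ρ * (θ - β))
            = (2 * κ * p) * Real.cos (ρ * (Real.pi - θ)) := by
          have e1 : ρ * (θ + β - 2 * Real.pi) = -(ρ * (Real.pi - θ) + ρ * (Real.pi - β)) := by ring
          have e2 : ρ * (θ - β) = -(ρ * (Real.pi - θ) - ρ * (Real.pi - β)) := by ring
          rw [e1, e2, Real.cos_neg, Real.cos_neg, Real.cos_add, Real.cos_sub, hpdef]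
          ring
        rw [e]
        have h1 : 0 ≤ 2 * κ * p := by
          have : 2 * κ ≤ 0 := by linarith
          exact mul_nonneg_of_nonpos_of_nonpos this hp0
        have h2 := mul_le_mul_of_nonneg_left (Real.cos_le_one (ρ * (Real.pi - θ))) h1
        linarith
  obtain ⟨x, b1, hx⟩ := b1
  unfold IB_Psi
  rw [norm_mul, norm_mul]
  have hes : Real.exp (σ₁ * s) ≤ Real.exp (ρ * s) :=
    Real.exp_le_exp.2 (mul_le_mul_of_nonneg_right hσρ hs0)
  have hes2 : Real.exp (σ₂ * s) ≤ Real.exp (ρ * s) :=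
    Real.exp_le_exp.2 (mul_le_mul_of_nonneg_right hσ₂ hs0)
  have hep : 0 < Real.exp (ρ * s) := Real.exp_pos _
  calc _ ≤ Real.exp ((x + ε) * Real.exp (ρ * s))
        * Real.exp ((κ * Real.cos (ρ * (θ - β)) + ε) * Real.exp (ρ * s))
        * Real.exp ((κ₁ + ε) * Real.exp (σ₁ * s)) := by gcongr
    _ = Real.exp ((x + κ * Real.cos (ρ * (θ - β)) + 2 * ε) * Real.exp (ρ * s)
        + (κ₁ + ε) * Real.exp (σ₁ * s)) := by
      rw [← Real.exp_add, ← Real.exp_add]; congr 1; ring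
    _ ≤ _ := by
      apply Real.exp_le_exp.2
      have t1 : (x + κ * Real.cos (ρ * (θ - β)) + 2 * ε) * Real.exp (ρ * s)
          ≤ (H - 2 * ε) * Real.exp (ρ * s) :=
        mul_le_mul_of_nonneg_right (by linarith) hep.le
      have t2 : ε * Real.exp (σ₁ * s) ≤ ε * Real.exp (ρ * s) :=
        mul_le_mul_of_nonneg_left hes hε.le
      have t3 : ε * Real.exp (σ₂ * s) ≤ ε * Real.exp (ρ * s) :=
        mul_le_mul_of_nonneg_left hes2 hε.le
      nlinarith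

theorem IB_up (hF : IB_Fac ρ κ F L) (hF₁ : IB_Fac σ₁ κ₁ F₁ L₁) {β ν σ₂ τ θ₀ : ℝ} (hβ : 0 < β)
    (hν : 0 < ν) (hβν : 0 ≤ Real.pi - β - ν) (hτ : 0 < τ)
    (hκ : κ < 0) (hH : 0 < 2 * κ * Real.cos (ρ * β)) (hκ₁ : 0 ≤ κ₁)
    (hσρ : σ₁ ≤ ρ) (hσ₂ : σ₂ ≤ ρ) (h2 : 2 < σ₂) (hσ : κ₁ = 0 ∨ σ₂ ≤ σ₁)
    (hI : ∀ θ : ℝ, τ / 2 ≤ θ → θ ≤ Real.pi - β - ν → τ / 2 ≤ |θ - θ₀| →
      0 < 2 * κ * Real.cos (ρ * β) * (1 - Real.cos (ρ * θ)) + κ₁ * (1 - Real.cos (σ₁ * θ)))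
    (hII : ∀ θ : ℝ, Real.pi - β - ν ≤ θ → θ ≤ Real.pi - β → Real.cos (ρ * θ) ≤ 0)
    (hp : Real.cos (ρ * β) < Real.cos (ρ * (Real.pi - β))) :
    ∃ C c : ℝ, 0 < c ∧ ∀ s θ : ℝ, 0 ≤ s → θ ≤ Real.pi → τ / 2 ≤ θ → τ / 2 ≤ |θ - θ₀| →
      ‖IB_Psi β F F₁ (exp (s + θ * I))‖
        ≤ Real.exp (C - c * Real.exp (σ₂ * s)) * (IB_Psi β F F₁ (exp s)).re := by
  have hpi := Real.pi_pos
  have hβπ : β < Real.pi := by linarith
  set H := 2 * κ * Real.cos (ρ * β) with hHdef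
  obtain ⟨C₁, hC₁, hlow, hregI⟩ := IB_low hF hF₁ hβ.le (ε := ν) hν (by linarith)
  obtain ⟨ε, s₀, hε, hs₀, hfar⟩ := IB_far hF hF₁ hβ hβπ hν.le hβν hκ hH hκ₁ hσρ hσ₂ hII hp
  rw [← hHdef] at hlow hregI hfar
  -- the constant of region I
  set S : Set ℝ := Icc (τ / 2) (Real.pi - β - ν) ∩ {θ | τ / 2 ≤ |θ - θ₀|} with hS
  have hSc : IsCompact S := by
    apply isCompact_Icc.inter_right
    exact isClosed_le continuous_const ((continuous_id.sub continuous_const).abs)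
  have hPc : Continuous (fun θ : ℝ => H * (1 - Real.cos (ρ * θ)) + κ₁ * (1 - Real.cos (σ₁ * θ))) := by
    fun_prop
  obtain ⟨c₀, hc₀, hcS⟩ : ∃ c₀ : ℝ, 0 < c₀ ∧ ∀ θ ∈ S,
      c₀ ≤ H * (1 - Real.cos (ρ * θ)) + κ₁ * (1 - Real.cos (σ₁ * θ)) := by
    rcases S.eq_empty_or_nonempty with hE | hN
    · exact ⟨1, one_pos, fun θ hθ => by rw [hE] at hθ; exact absurd hθ (notMem_empty _)⟩
    · obtain ⟨θm, hθm, hmin⟩ := hSc.exists_isMinOn hN hPc.continuousOn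
      exact ⟨_, hI θm hθm.1.1 hθm.1.2 hθm.2, fun θ hθ => hmin hθ⟩
  set c₁ := min c₀ ε with hc₁
  have hc₁0 : 0 < c₁ := lt_min hc₀ hε
  -- large s
  have hlarge : ∀ s θ : ℝ, s₀ ≤ s → θ ≤ Real.pi → τ / 2 ≤ θ → τ / 2 ≤ |θ - θ₀| →
      ‖IB_Psi β F F₁ (exp (s + θ * I))‖
        ≤ Real.exp (2 * C₁ * (1 + s) - c₁ * Real.exp (σ₂ * s)) * (IB_Psi β F F₁ (exp s)).re := by
    intro s θ hs h1 h2 h3
    have hs0 : 0 ≤ s := hs₀.trans hs
    have hl := hlow s hs0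
    have hb : ‖IB_Psi β F F₁ (exp (s + θ * I))‖ ≤ Real.exp (H * Real.exp (ρ * s)
        + κ₁ * Real.exp (σ₁ * s) - c₁ * Real.exp (σ₂ * s) + C₁ * (1 + s)) := by
      by_cases hc : θ ≤ Real.pi - β - ν
      · refine (hregI s θ hs0 (by rw [abs_of_nonneg (by linarith)]; linarith)).trans
          (Real.exp_le_exp.2 ?_)
        have hc0 := hcS θ ⟨⟨h2, hc⟩, h3⟩
        have k1 : Real.exp (σ₂ * s) ≤ Real.exp (ρ * s) :=
          Real.exp_le_exp.2 (mul_le_mul_of_nonneg_right hσ₂ hs0)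
        have k2 : 0 ≤ H * (1 - Real.cos (ρ * θ)) :=
          mul_nonneg hH.le (by linarith [Real.cos_le_one (ρ * θ)])
        have k3 : 0 ≤ κ₁ * (1 - Real.cos (σ₁ * θ)) :=
          mul_nonneg hκ₁ (by linarith [Real.cos_le_one (σ₁ * θ)])
        have k4 : H * (1 - Real.cos (ρ * θ)) * Real.exp (σ₂ * s)
            ≤ H * (1 - Real.cos (ρ * θ)) * Real.exp (ρ * s) := mul_le_mul_of_nonneg_left k1 k2
        have k5 : κ₁ * (1 - Real.cos (σ₁ * θ)) * Real.exp (σ₂ * s)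
            ≤ κ₁ * (1 - Real.cos (σ₁ * θ)) * Real.exp (σ₁ * s) := by
          rcases hσ with h | h
          · rw [h]; simp
          · exact mul_le_mul_of_nonneg_left
              (Real.exp_le_exp.2 (mul_le_mul_of_nonneg_right h hs0)) k3
        have k6 : c₁ * Real.exp (σ₂ * s) ≤ (H * (1 - Real.cos (ρ * θ))
            + κ₁ * (1 - Real.cos (σ₁ * θ))) * Real.exp (σ₂ * s) :=
          mul_le_mul_of_nonneg_right ((min_le_left _ _).trans hc0) (Real.exp_pos _).le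
        nlinarith
      · push Not at hc
        refine (hfar s θ hs hc.le h1).trans (Real.exp_le_exp.2 ?_)
        have k6 : c₁ * Real.exp (σ₂ * s) ≤ ε * Real.exp (σ₂ * s) :=
          mul_le_mul_of_nonneg_right (min_le_right _ _) (Real.exp_pos _).le
        have k7 : 0 ≤ C₁ * (1 + s) := by positivity
        linarith
    refine hb.trans ?_
    calc _ = Real.exp (2 * C₁ * (1 + s) - c₁ * Real.exp (σ₂ * s))
          * Real.exp (H * Real.exp (ρ * s) + κ₁ * Real.exp (σ₁ * s) - C₁ * (1 + s)) := by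
          rw [← Real.exp_add]; congr 1; ring
      _ ≤ _ := mul_le_mul_of_nonneg_left hl (Real.exp_pos _).le
  -- small s
  have hcont : Continuous (fun q : ℝ × ℝ => ‖IB_Psi β F F₁ (exp (q.1 + q.2 * I))‖) := by
    have h1 : Continuous (IB_Psi β F F₁) := (IB_ent hF hF₁ β).1.continuous
    have h2 : Continuous (fun q : ℝ × ℝ => exp ((q.1 : ℂ) + q.2 * I)) := by fun_prop
    exact (h1.comp h2).norm
  have hcont2 : Continuous (fun s : ℝ => (IB_Psi β F F₁ (exp s)).re) := by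
    have : Continuous (IB_Psi β F F₁) := (IB_ent hF hF₁ β).1.continuous
    exact Complex.continuous_re.comp (this.comp (continuous_exp.comp continuous_ofReal))
  obtain ⟨B, hB⟩ := (isCompact_Icc.prod isCompact_Icc :
    IsCompact (Icc (0 : ℝ) s₀ ×ˢ Icc (0 : ℝ) Real.pi)).bddAbove_image hcont.continuousOn
  obtain ⟨sm, hsm, hmin⟩ := (isCompact_Icc (a := (0 : ℝ)) (b := s₀)).exists_isMinOn
    ⟨0, ⟨le_rfl, hs₀⟩⟩ hcont2.continuousOn
  set b := (IB_Psi β F F₁ (exp sm)).re with hb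
  have hb0 : 0 < b := lt_of_lt_of_le (Real.exp_pos _) (hlow sm hsm.1)
  set B' := max B 0 with hB'
  refine ⟨B' / b + c₁ / 2 * Real.exp (σ₂ * s₀) + 2 * C₁ ^ 2 / c₁, c₁ / 2, by positivity, ?_⟩
  intro s θ hs h1 h2' h3
  by_cases hc : s₀ ≤ s
  · refine (hlarge s θ hc h1 h2' h3).trans ?_
    have hpos : 0 ≤ (IB_Psi β F F₁ (exp s)).re := (Real.exp_pos _).le.trans (hlow s hs)
    apply mul_le_mul_of_nonneg_right _ hpos
    apply Real.exp_le_exp.2
    have k1 : (1 + s) ^ 2 ≤ Real.exp (σ₂ * s) := by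
      have : 1 + s ≤ Real.exp s := by linarith [Real.add_one_le_exp s]
      calc (1 + s) ^ 2 ≤ (Real.exp s) ^ 2 := by gcongr
        _ = Real.exp (2 * s) := by rw [← Real.exp_nat_mul]; norm_num
        _ ≤ _ := Real.exp_le_exp.2 (mul_le_mul_of_nonneg_right h2.le hs)
    have k2 : 2 * C₁ * (1 + s) ≤ c₁ / 2 * (1 + s) ^ 2 + 2 * C₁ ^ 2 / c₁ := by
      have : 0 ≤ c₁ / 2 * ((1 + s) - 2 * C₁ / c₁) ^ 2 := by positivity
      have e : c₁ / 2 * ((1 + s) - 2 * C₁ / c₁) ^ 2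
          = c₁ / 2 * (1 + s) ^ 2 - 2 * C₁ * (1 + s) + 2 * C₁ ^ 2 / c₁ := by
        field_simp; ring
      linarith
    have k3 : c₁ / 2 * (1 + s) ^ 2 ≤ c₁ / 2 * Real.exp (σ₂ * s) :=
      mul_le_mul_of_nonneg_left k1 (by positivity)
    have k4 : 0 ≤ B' / b + c₁ / 2 * Real.exp (σ₂ * s₀) := by
      have : 0 ≤ B' := le_max_right _ _
      positivity
    linarith
  · push Not at hc
    have m1 : ‖IB_Psi β F F₁ (exp (s + θ * I))‖ ≤ B := by
      apply hB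
      exact ⟨(s, θ), ⟨⟨hs, hc.le⟩, ⟨by linarith, h1⟩⟩, rfl⟩
    have m2 : b ≤ (IB_Psi β F F₁ (exp s)).re := hmin ⟨hs, hc.le⟩
    have m3 : B ≤ B' := le_max_left _ _
    have m4 : B' / b ≤ Real.exp (B' / b) := by linarith [Real.add_one_le_exp (B' / b)]
    have m5 : Real.exp (σ₂ * s) ≤ Real.exp (σ₂ * s₀) :=
      Real.exp_le_exp.2 (mul_le_mul_of_nonneg_left hc.le (by linarith))
    have m6 : Real.exp (B' / b) ≤ Real.exp (B' / b + c₁ / 2 * Real.exp (σ₂ * s₀)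
        + 2 * C₁ ^ 2 / c₁ - c₁ / 2 * Real.exp (σ₂ * s)) := by
      apply Real.exp_le_exp.2
      have : c₁ / 2 * Real.exp (σ₂ * s) ≤ c₁ / 2 * Real.exp (σ₂ * s₀) :=
        mul_le_mul_of_nonneg_left m5 (by positivity)
      have : 0 ≤ 2 * C₁ ^ 2 / c₁ := by positivity
      linarith
    calc _ ≤ B' := m1.trans m3
      _ = B' / b * b := by field_simp
      _ ≤ Real.exp (B' / b + c₁ / 2 * Real.exp (σ₂ * s₀)
        + 2 * C₁ ^ 2 / c₁ - c₁ / 2 * Real.exp (σ₂ * s)) * (IB_Psi β F F₁ (exp s)).re :=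
          mul_le_mul (m4.trans m6) m2 hb0.le (Real.exp_pos _).le

theorem IB_base (hF : IB_Fac ρ κ F L) (hF₁ : IB_Fac σ₁ κ₁ F₁ L₁) {β ν σ₂ τ θ₀ e₀ : ℝ} (hβ : 0 < β)
    (hν : 0 < ν) (hβν : 0 ≤ Real.pi - β - ν) (hτ : 0 < τ) (hθ₀ : 0 < θ₀) (he₀ : 0 < e₀)
    (hstrip : θ₀ + 2 * τ + β ≤ Real.pi - e₀)
    (hκ : κ < 0) (hH : 0 < 2 * κ * Real.cos (ρ * β)) (hκ₁ : 0 ≤ κ₁)
    (hσρ : σ₁ ≤ ρ) (hσ₂ : σ₂ ≤ ρ) (h2 : 2 < σ₂) (hσ : κ₁ = 0 ∨ σ₂ ≤ σ₁)
    (hI : ∀ θ : ℝ, τ / 2 ≤ θ → θ ≤ Real.pi - β - ν → τ / 2 ≤ |θ - θ₀| →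
      0 < 2 * κ * Real.cos (ρ * β) * (1 - Real.cos (ρ * θ)) + κ₁ * (1 - Real.cos (σ₁ * θ)))
    (hII : ∀ θ : ℝ, Real.pi - β - ν ≤ θ → θ ≤ Real.pi - β → Real.cos (ρ * θ) ≤ 0)
    (hp : Real.cos (ρ * β) < Real.cos (ρ * (Real.pi - β))) :
    Base ρ (2 * κ * Real.cos (ρ * β)) σ₁ κ₁ θ₀ τ (Real.pi - β) 2 ∅ (IB_Psi β F F₁)
      (IB_K β L L₁) := by
  have hpi := Real.pi_pos
  have hβπ : β < Real.pi := by linarith
  have hDS : ∀ w ∈ DS θ₀ (2 * τ), |w.im| + β ≤ Real.pi - e₀ := by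
    intro w hw
    rcases hw with h | h
    · linarith
    · have : |w.im| ≤ |w.im - θ₀| + |θ₀| := by
        have := abs_add_le (w.im - θ₀) θ₀
        rwa [sub_add_cancel] at this
      rw [abs_of_pos hθ₀] at this
      linarith
  refine ⟨IB_ent hF hF₁ β, ?_, ?_, IB_reK hF hF₁ hβ.le hβπ, ?_, ?_, ?_, ?_, ?_⟩
  · exact (IB_anK hF hF₁ hβ.le).mono (fun w hw => by
      have := hDS w hw
      show |w.im| + β < Real.pi
      linarith)
  · intro w hw
    exact IB_exK hF hF₁ hβ.le w (by have := hDS w hw; linarith)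
  · obtain ⟨C₁, hC₁, hlow, -⟩ := IB_low hF hF₁ hβ.le (ε := ν) hν (by linarith)
    unfold IB_Psi
    have hF0 : 0 < (F 0).re := by simpa using hF.pos 0 le_rfl
    have hF10 : 0 < (F₁ 0).re := by simpa using hF₁.pos 0 le_rfl
    have hFi : (F 0).im = 0 := by
      have := hF.ent.2 0
      rw [map_zero] at this
      exact conj_eq_iff_im.1 this.symm
    have hF1i : (F₁ 0).im = 0 := by
      have := hF₁.ent.2 0
      rw [map_zero] at this
      exact conj_eq_iff_im.1 this.symm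
    simp only [zero_mul]
    have e1 : F 0 = (((F 0).re : ℝ) : ℂ) := by apply Complex.ext <;> simp [hFi]
    have e2 : F₁ 0 = (((F₁ 0).re : ℝ) : ℂ) := by apply Complex.ext <;> simp [hF1i]
    rw [e1, e2, ← ofReal_mul, ← ofReal_mul, ofReal_re]
    positivity
  · obtain ⟨C, hC, h⟩ := IB_asyK hF hF₁ hβ.le e₀ he₀
    refine ⟨C, fun w hw hre => (h w hre (hDS w hw)).trans ?_⟩
    apply mul_le_mul_of_nonneg_left _ hC.le
    linarith [Real.add_one_le_exp w.re]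
  · obtain ⟨C, c, hc, h⟩ := IB_up hF hF₁ hβ hν hβν hτ hκ hH hκ₁ hσρ hσ₂ h2 hσ hI hII hp
    refine ⟨C, c, σ₂, hc, by push_cast; exact h2, fun s θ hs h1 h2 h3 _ => h s θ hs h1 h2 h3⟩
  · exact ⟨0, fun s θ _ hθ => absurd hθ (notMem_empty _)⟩
  · exact ⟨0, fun z hz _ => IB_zer hF hF₁ hβ hβπ z hz⟩

end

theorem IB_fac_of {σ : ℝ} (hσ : 1 < σ) (hni : ∀ n : ℕ, σ ≠ n) :
    ∃ (F L : ℂ → ℂ) (κ : ℝ), 0 < (-1) ^ ⌊σ⌋₊ * κ ∧ IB_Fac σ κ F L := by
  obtain ⟨F, L, κ, h1, h2, h3, h4, h5, h6, h7, h8, h9⟩ := exists_base_prod σ hσ hni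
  exact ⟨F, L, κ, h2, ⟨h1, h3, h4, h5, h6, h7, h8, h9⟩⟩

theorem IB_cos_lt_one {x : ℝ} (h0 : 0 < x) (h1 : x < 2 * Real.pi) : Real.cos x < 1 := by
  refine lt_of_le_of_ne (Real.cos_le_one x) (fun h => ?_)
  have := (Real.cos_eq_one_iff_of_lt_of_lt (by linarith [Real.pi_pos]) h1).1 h
  linarith

/-- the choice of the cluster angle -/
theorem IB_kap (j : ℕ) (ρ : ℝ) (h1 : 2 * (j : ℝ) + 3 < ρ) (h2 : ρ < 2 * (j : ℝ) + 4) :
    ∃ ψ x₀ : ℝ, ψ ≤ Real.pi ∧ 2 * Real.pi * (j + 1) / ρ < ψ ∧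
      Real.pi / 2 + (j + 1) * Real.pi / ρ ≤ ψ ∧ 0 < qc 2 ψ ∧
      kap 2 ψ (2 * Real.pi * (j + 1) / ρ) x₀ < 0 := by
  have hpi := Real.pi_pos
  have hj : (0 : ℝ) ≤ j := Nat.cast_nonneg j
  have hρ : 0 < ρ := by linarith
  rcases Nat.eq_zero_or_pos j with rfl | hj1
  · simp only [Nat.cast_zero, mul_zero, zero_add, mul_one, one_mul] at h1 h2 ⊢
    have a1 : Real.pi / 4 < Real.pi / ρ := by
      rw [div_lt_div_iff₀ (by norm_num) hρ]; nlinarith
    have a2 : Real.pi / ρ < Real.pi / 3 := by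
      rw [div_lt_div_iff₀ hρ (by norm_num)]; nlinarith
    have e : 2 * Real.pi / ρ = 2 * (Real.pi / ρ) := by ring
    obtain ⟨x₀, hx₀⟩ := kap_neg_small (Real.pi / 2 + Real.pi / ρ) (2 * Real.pi / ρ)
      (by linarith) (by linarith) (by rw [e]; linarith) (by rw [e]; linarith)
    refine ⟨_, x₀, by linarith, by rw [e]; linarith, le_rfl, ?_, hx₀⟩
    unfold qc
    have e2 : ((2 : ℕ) : ℝ) * (Real.pi / 2 + Real.pi / ρ) = 2 * (Real.pi / ρ) + Real.pi := by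
      push_cast; ring
    rw [e2, Real.cos_add_pi]
    have : Real.cos (2 * (Real.pi / ρ)) < 0 :=
      Real.cos_neg_of_pi_div_two_lt_of_lt (by linarith) (by linarith)
    push_cast
    linarith
  · have hj1' : (1 : ℝ) ≤ j := by exact_mod_cast hj1
    have a1 : 2 * Real.pi / 3 ≤ 2 * Real.pi * (j + 1) / ρ := by
      rw [div_le_div_iff₀ (by norm_num) hρ]
      nlinarith
    have a2 : 2 * Real.pi * (j + 1) / ρ < Real.pi := by
      rw [div_lt_iff₀ hρ]; nlinarith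
    obtain ⟨x₀, hx₀⟩ := kap_neg_pi _ a1 a2
    refine ⟨Real.pi, x₀, le_rfl, a2, ?_, ?_, hx₀⟩
    · have : (j + 1) * Real.pi / ρ ≤ Real.pi / 2 := by
        rw [div_le_div_iff₀ hρ (by norm_num)]; nlinarith
      linarith
    · unfold qc
      have : ((2 : ℕ) : ℝ) * Real.pi = 2 * Real.pi := by push_cast; ring
      rw [this, Real.cos_two_pi]
      norm_num

/-- the second factor -/
theorem IB_second (j : ℕ) (ρ : ℝ) (h1 : 2 * (j : ℝ) + 3 < ρ) (h2 : ρ < 2 * (j : ℝ) + 4) :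
    ∃ (σ₁ κ₁ σ₂ : ℝ) (F₁ L₁ : ℂ → ℂ), IB_Fac σ₁ κ₁ F₁ L₁ ∧ 0 ≤ κ₁ ∧ 0 < σ₁ ∧ σ₁ < ρ ∧ 2 < σ₂ ∧
      σ₂ ≤ ρ ∧ (κ₁ = 0 ∨ σ₂ ≤ σ₁) ∧
      (κ₁ = 0 ∨ exp (σ₁ * (2 * Real.pi * (j + 1) / ρ : ℝ) * I) = 1) ∧
      (∀ n : ℕ, 1 ≤ n → n < j + 1 → 0 < κ₁ * (1 - Real.cos (σ₁ * (2 * Real.pi * n / ρ)))) := by
  have hpi := Real.pi_pos
  have hj : (0 : ℝ) ≤ j := Nat.cast_nonneg j
  have hρ : 0 < ρ := by linarith
  rcases Nat.eq_zero_or_pos j with rfl | hj1
  · refine ⟨1, 0, ρ, _, _, IB_triv 1, le_rfl, one_pos, by linarith, by linarith, le_rfl,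
      Or.inl rfl, Or.inl rfl, fun n hn hn' => by omega⟩
  · have hj1' : (1 : ℝ) ≤ j := by exact_mod_cast hj1
    have hX : (0 : ℝ) < (j : ℝ) + 1 := by linarith
    set σ₁ := ρ / ((j : ℝ) + 1) with hσ₁
    have s1 : 2 < σ₁ := by rw [hσ₁, lt_div_iff₀ hX]; linarith
    have s2 : σ₁ < 3 := by rw [hσ₁, div_lt_iff₀ hX]; linarith
    obtain ⟨F₁, L₁, κ₁, hκ₁, hF₁⟩ := IB_fac_of (σ := σ₁) (by linarith) (by
      intro n hn
      rw [hn] at s1 s2
      have : 2 < n := by exact_mod_cast s1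
      have : n < 3 := by exact_mod_cast s2
      omega)
    have hfl : ⌊σ₁⌋₊ = 2 := by
      rw [Nat.floor_eq_iff (by linarith)]
      norm_num
      exact ⟨s1.le, by linarith⟩
    rw [hfl] at hκ₁
    have hκ₁0 : 0 < κ₁ := by simpa using hκ₁
    have sρ : σ₁ < ρ := by
      rw [hσ₁, div_lt_iff₀ hX]; nlinarith
    refine ⟨σ₁, κ₁, σ₁, F₁, L₁, hF₁, hκ₁0.le, by linarith, sρ, s1, sρ.le, Or.inr le_rfl,
      Or.inr ?_, ?_⟩
    · have e : (σ₁ : ℂ) * ((2 * Real.pi * (j + 1) / ρ : ℝ) : ℂ) * I = 2 * Real.pi * I := by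
        rw [← ofReal_mul]
        have : σ₁ * (2 * Real.pi * (j + 1) / ρ) = 2 * Real.pi := by
          rw [hσ₁]; field_simp
        rw [this]
        push_cast; ring
      rw [e, exp_two_pi_mul_I]
    · intro n hn hn'
      have hn1 : (1 : ℝ) ≤ n := by exact_mod_cast hn
      have hn2 : (n : ℝ) < j + 1 := by exact_mod_cast hn'
      have e : σ₁ * (2 * Real.pi * n / ρ) = 2 * Real.pi * (n / ((j : ℝ) + 1)) := by
        rw [hσ₁]; field_simp
      have f1 : 0 < (n : ℝ) / ((j : ℝ) + 1) := by positivity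
      have f2 : (n : ℝ) / ((j : ℝ) + 1) < 1 := by rw [div_lt_one hX]; exact hn2
      rw [e]
      apply mul_pos hκ₁0
      have := IB_cos_lt_one (x := 2 * Real.pi * (n / ((j : ℝ) + 1))) (by positivity)
        (by nlinarith)
      linarith

/-- `ρ ∈ (2k-1, 2k)`, `k ≥ 2`: `Ψ = FF ρ (z e^{iβ}) FF ρ (z e^{-iβ})` (times `FF (ρ/(k-1))` if
`k ≥ 3`) times `(1+z)^M`, `β` slightly above `π/2 - (k-1)π/ρ`, `θ₀ = 2π(k-1)/ρ`, `d = 2`;
`ψ = π` if `k ≥ 3`, `ψ ∈ [π/2 + π/ρ, 5π/6)` if `k = 2`. -/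
theorem lower_B (k : ℕ) (hk : 2 ≤ k) (ρ : ℝ) (h1 : 2 * (k : ℝ) - 1 < ρ) (h2 : ρ < 2 * k)
    (ε : ℝ) (hε : 0 < ε) :
    ∃ f ∈ Pool.Agent.helper38.Lac.Gord (ρ : EReal) 2,
      Real.pi / 2 + (k - 1) * Real.pi / ρ - ε ≤ Pool.Agent.helper38.Lac.delta f := by
  obtain ⟨j, rfl⟩ : ∃ j, k = j + 2 := ⟨k - 2, by omega⟩
  have hpi := Real.pi_pos
  have hj : (0 : ℝ) ≤ j := Nat.cast_nonneg j
  push_cast at h1 h2 ⊢
  have h1' : 2 * (j : ℝ) + 3 < ρ := by linarith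
  have h2' : ρ < 2 * (j : ℝ) + 4 := by linarith
  have hρ : 0 < ρ := by linarith
  have hX : (j : ℝ) + 2 - 1 = j + 1 := by ring
  rw [hX]
  -- the base factors
  obtain ⟨F, L, κ, hκ, hF⟩ := IB_fac_of (σ := ρ) (by linarith) (by
    intro n hn
    rw [hn] at h1' h2'
    have : 2 * j + 3 < n := by exact_mod_cast h1'
    have : n < 2 * j + 4 := by exact_mod_cast h2'
    omega)
  have hfl : ⌊ρ⌋₊ = 2 * j + 3 := by
    rw [Nat.floor_eq_iff hρ.le]
    push_cast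
    exact ⟨h1'.le, by linarith⟩
  have hodd : Odd (2 * j + 3) := ⟨j + 1, by ring⟩
  rw [hfl, hodd.neg_one_pow] at hκ
  have hκ0 : κ < 0 := by linarith
  obtain ⟨σ₁, κ₁, σ₂, F₁, L₁, hF₁, hκ₁, hσ₁0, hσ₁ρ, hσ₂, hσ₂ρ, hσc, hper₁, hsep⟩ :=
    IB_second j ρ h1' h2'
  obtain ⟨ψ, x₀, hψπ, hθψ, hDψ, hqc, hkap⟩ := IB_kap j ρ h1' h2'
  set θ₀ := 2 * Real.pi * (j + 1) / ρ with hθ₀def
  have hρθ : ρ * θ₀ = 2 * Real.pi * (j + 1) := by rw [hθ₀def]; field_simp
  have hθlo : Real.pi / 2 < θ₀ := by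
    rw [hθ₀def, div_lt_div_iff₀ (by norm_num) hρ]; nlinarith
  have hθhi : θ₀ < Real.pi := by
    rw [hθ₀def, div_lt_iff₀ hρ]; nlinarith
  set β₀ := Real.pi / 2 - (j + 1) * Real.pi / ρ with hβ₀def
  have hθβ : θ₀ + 2 * β₀ = Real.pi := by rw [hθ₀def, hβ₀def]; ring
  have hβ₀ : 0 < β₀ := by linarith
  have hρβ₀ : ρ * β₀ = ρ * Real.pi / 2 - (j + 1) * Real.pi := by rw [hβ₀def]; field_simp
  set a := (ρ - (2 * (j : ℝ) + 3)) * Real.pi / 2 with hadef
  have ha : 0 < a := by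
    have : 0 < ρ - (2 * (j : ℝ) + 3) := by linarith
    positivity
  set η := min ε (min (a / (4 * ρ)) (min (β₀ / 4) (Real.pi / (4 * ρ)))) with hηdef
  have hη : 0 < η := by
    refine lt_min hε (lt_min (by positivity) (lt_min (by positivity) (by positivity)))
  have hη1 : η ≤ ε := min_le_left _ _
  have hη2 : η ≤ a / (4 * ρ) := (min_le_right _ _).trans (min_le_left _ _)
  have hη3 : η ≤ β₀ / 4 := (min_le_right _ _).trans ((min_le_right _ _).trans (min_le_left _ _))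
  have hη4 : η ≤ Real.pi / (4 * ρ) :=
    (min_le_right _ _).trans ((min_le_right _ _).trans (min_le_right _ _))
  have hρη2 : ρ * η ≤ a / 4 := by
    have := mul_le_mul_of_nonneg_left hη2 hρ.le
    have e : ρ * (a / (4 * ρ)) = a / 4 := by field_simp
    linarith
  have hρη4 : ρ * η ≤ Real.pi / 4 := by
    have := mul_le_mul_of_nonneg_left hη4 hρ.le
    have e : ρ * (Real.pi / (4 * ρ)) = Real.pi / 4 := by field_simp
    linarith
  have hρη0 : 0 < ρ * η := by positivity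
  set ν := min (a / (4 * ρ)) (β₀ / 4) with hνdef
  have hν : 0 < ν := lt_min (by positivity) (by positivity)
  have hρν : ρ * ν ≤ a / 4 := by
    have := mul_le_mul_of_nonneg_left (min_le_left (a / (4 * ρ)) (β₀ / 4)) hρ.le
    have e : ρ * (a / (4 * ρ)) = a / 4 := by field_simp
    linarith
  have hν2 : ν ≤ β₀ / 4 := min_le_right _ _
  set β := β₀ + η with hβdef
  have hβ : 0 < β := by positivity
  have hρβ : ρ * β = ρ * Real.pi / 2 - (j + 1) * Real.pi + ρ * η := by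
    rw [hβdef, mul_add, hρβ₀]
  have hρπ : ρ * Real.pi / 2 = (j + 1) * Real.pi + Real.pi / 2 + a := by rw [hadef]; ring
  have ha2 : a < Real.pi / 2 := by
    have : (ρ - (2 * (j : ℝ) + 3)) * Real.pi < 1 * Real.pi :=
      mul_lt_mul_of_pos_right (by linarith) hpi
    rw [hadef]; linarith
  have hcosβ : Real.cos (ρ * β) < 0 := by
    apply Real.cos_neg_of_pi_div_two_lt_of_lt
    · rw [hρβ, hρπ]; linarith
    · rw [hρβ, hρπ]; linarith
  have hH : 0 < 2 * κ * Real.cos (ρ * β) := by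
    apply mul_pos_of_neg_of_neg _ hcosβ
    linarith
  -- condition II
  have hII : ∀ θ : ℝ, Real.pi - β - ν ≤ θ → θ ≤ Real.pi - β → Real.cos (ρ * θ) ≤ 0 := by
    intro θ t1 t2
    have u1 := mul_le_mul_of_nonneg_left t1 hρ.le
    have u2 := mul_le_mul_of_nonneg_left t2 hρ.le
    have e1 : ρ * (Real.pi - β - ν) = 2 * (ρ * Real.pi / 2) - ρ * β - ρ * ν := by ring
    have e2 : ρ * (Real.pi - β) = 2 * (ρ * Real.pi / 2) - ρ * β := by ring
    rw [e1, hρβ, hρπ] at u1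
    rw [e2, hρβ, hρπ] at u2
    have e3 := Real.cos_sub_nat_mul_two_pi (ρ * θ) (j + 1)
    rw [← e3]
    push_cast
    apply Real.cos_nonpos_of_pi_div_two_le_of_le
    · linarith
    · linarith
  have hp : Real.cos (ρ * β) < Real.cos (ρ * (Real.pi - β)) := by
    set u := ρ * Real.pi / 2 - (j + 1) * Real.pi with hu
    have hu1 : Real.pi / 2 < u := by rw [hu, hρπ]; linarith
    have hu2 : u < Real.pi := by rw [hu, hρπ]; linarith
    have e1 : ρ * (Real.pi - β) - ((j + 1 : ℕ) : ℝ) * (2 * Real.pi) = u - ρ * η := by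
      have : ρ * (Real.pi - β) = 2 * (ρ * Real.pi / 2) - ρ * β := by ring
      rw [this, hρβ, hu]
      push_cast; ring
    rw [← Real.cos_sub_nat_mul_two_pi (ρ * (Real.pi - β)) (j + 1), e1, hρβ,
      Real.cos_add u (ρ * η), Real.cos_sub u (ρ * η)]
    have s1 : 0 < Real.sin u := Real.sin_pos_of_pos_of_lt_pi (by linarith) hu2
    have s2 : 0 < Real.sin (ρ * η) := Real.sin_pos_of_pos_of_lt_pi hρη0 (by linarith)
    have := mul_pos s1 s2
    linarith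
  -- the step tau
  set τ := min (1 / (32 * (ρ + 1))) (min (β₀ / 8) ((ψ - θ₀) / 4)) with hτdef
  have hg : 0 < ψ - θ₀ := by linarith
  have hτ : 0 < τ := lt_min (by positivity) (lt_min (by positivity) (by positivity))
  have hτ1 : 32 * (ρ + 1) * τ ≤ 1 := by
    have := mul_le_mul_of_nonneg_left (min_le_left (1 / (32 * (ρ + 1)))
      (min (β₀ / 8) ((ψ - θ₀) / 4))) (show 0 ≤ 32 * (ρ + 1) by positivity)
    have e : 32 * (ρ + 1) * (1 / (32 * (ρ + 1))) = 1 := by field_simp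
    linarith
  have hτ2 : τ ≤ β₀ / 8 := (min_le_right _ _).trans (min_le_left _ _)
  have hτ3 : τ ≤ (ψ - θ₀) / 4 := (min_le_right _ _).trans (min_le_right _ _)
  have hθτ : θ₀ + 2 * τ < Real.pi := by linarith
  -- condition I
  have hI : ∀ θ : ℝ, τ / 2 ≤ θ → θ ≤ Real.pi - β - ν → τ / 2 ≤ |θ - θ₀| →
      0 < 2 * κ * Real.cos (ρ * β) * (1 - Real.cos (ρ * θ)) + κ₁ * (1 - Real.cos (σ₁ * θ)) := by
    intro θ t1 t2 t3
    have k1 : 0 ≤ κ₁ * (1 - Real.cos (σ₁ * θ)) :=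
      mul_nonneg hκ₁ (by linarith [Real.cos_le_one (σ₁ * θ)])
    rcases (Real.cos_le_one (ρ * θ)).lt_or_eq with hc | hc
    · have : 0 < 2 * κ * Real.cos (ρ * β) * (1 - Real.cos (ρ * θ)) :=
        mul_pos hH (by linarith)
      linarith
    · obtain ⟨n, hn⟩ := (Real.cos_eq_one_iff _).1 hc
      have hθ0 : 0 < θ := by linarith
      have hθπ : θ < Real.pi := by linarith
      have n0 : 0 < n := by
        have : 0 < (n : ℝ) * (2 * Real.pi) := by rw [hn]; positivity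
        have : 0 < (n : ℝ) := (mul_pos_iff_of_pos_right (by positivity : 0 < 2 * Real.pi)).1 this
        exact_mod_cast this
      have n1 : n < (j : ℤ) + 2 := by
        have : (n : ℝ) * (2 * Real.pi) < ρ * Real.pi := by
          rw [hn]; exact mul_lt_mul_of_pos_left hθπ hρ
        have h5 : ρ * Real.pi < (2 * (j : ℝ) + 4) * Real.pi := mul_lt_mul_of_pos_right h2' hpi
        have : (n : ℝ) < (j : ℝ) + 2 := by
          refine lt_of_mul_lt_mul_right (a := 2 * Real.pi) ?_ (by positivity)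
          linarith
        exact_mod_cast this
      have n2 : n ≠ (j : ℤ) + 1 := by
        intro h
        rw [h] at hn
        have : θ = θ₀ := by
          have h3 : ρ * θ = ρ * θ₀ := by rw [hρθ, ← hn]; push_cast; ring
          exact mul_left_cancel₀ hρ.ne' h3
        rw [this, sub_self, abs_zero] at t3
        linarith
      obtain ⟨q, rfl⟩ : ∃ q : ℕ, n = q := ⟨n.toNat, by omega⟩
      have hq := hsep q (by omega) (by omega)
      have e : θ = 2 * Real.pi * q / ρ := by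
        rw [eq_div_iff hρ.ne', mul_comm θ, ← hn]
        push_cast; ring
      rw [hc, sub_self, mul_zero, zero_add, e]
      exact hq
  have hB := IB_base hF hF₁ (β := β) (ν := ν) (σ₂ := σ₂) (τ := τ) (θ₀ := θ₀) (e₀ := β₀ / 2) hβ hν
    (by linarith) hτ (by linarith) (by positivity) (by linarith) hκ0 hH hκ₁ hσ₁ρ.le hσ₂ρ hσ₂ hσc
    hI hII hp
  have hper : exp (ρ * θ₀ * I) = 1 := by
    rw [← ofReal_mul, hρθ]
    have : ((2 * Real.pi * (j + 1) : ℝ) : ℂ) * I = ((j + 1 : ℕ) : ℂ) * (2 * Real.pi * I) := by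
      push_cast; ring
    rw [this, exp_nat_mul_two_pi_mul_I]
  have hdρ : ((2 : ℕ) : ℝ) < ρ := by push_cast; linarith
  have hb : Real.cos (((2 : ℕ) : ℝ) * θ₀) < 1 := by
    apply IB_cos_lt_one
    · push_cast; linarith
    · push_cast; linarith
  obtain ⟨M, hB', hpos⟩ := base_polya ρ _ σ₁ κ₁ θ₀ τ (Real.pi - β) 2 ∅ _ _ hB le_rfl hdρ hH hσ₁0
    hσ₁ρ hκ₁ hθlo hθhi hτ hτ1 hθτ hper hper₁ hb (empty_subset _) 1 one_pos
    (fun θ hθ => absurd hθ (notMem_empty _))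
  have hθ3 : θ₀ ≠ 2 * Real.pi / 3 := by
    intro h
    have h3 : ρ * (2 * Real.pi / 3) = 2 * Real.pi * (j + 1) := by rw [← h]; exact hρθ
    have h4 : ρ = 3 * ((j : ℝ) + 1) := by
      have : 2 * Real.pi * ρ = 2 * Real.pi * (3 * ((j : ℝ) + 1)) := by linarith
      exact mul_left_cancel₀ (by positivity) this
    rw [h4] at h1' h2'
    have h5 : 0 < j := by
      have : (0 : ℝ) < j := by linarith
      exact_mod_cast this
    have h6 : j < 1 := by
      have : (j : ℝ) < 1 := by linarith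
      exact_mod_cast this
    omega
  set X := (1 - Real.cos (((2 : ℕ) : ℝ) * θ₀)) * Real.exp (((2 : ℕ) : ℝ) * x₀) with hXdef
  have hX0 : 0 ≤ X := mul_nonneg (by linarith) (Real.exp_pos _).le
  set Ma := (X + 1) / (-kap 2 ψ θ₀ x₀) with hMadef
  have hnk : 0 < -kap 2 ψ θ₀ x₀ := by linarith
  have hMa : 0 < Ma := by positivity
  have hK1 : X + Ma * kap 2 ψ θ₀ x₀ < 0 := by
    have : Ma * kap 2 ψ θ₀ x₀ = -(X + 1) := by
      have e : Ma * (-kap 2 ψ θ₀ x₀) = X + 1 := by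
        rw [hMadef]; exact div_mul_cancel₀ _ hnk.ne'
      linarith
    linarith
  obtain ⟨f, hf, hdel⟩ := lower_main ρ _ σ₁ κ₁ θ₀ τ (Real.pi - β) 2 ∅ _ _ hB' le_rfl hdρ hH hσ₁0
    hσ₁ρ hκ₁ hθlo hθhi.le hθ3 hτ hτ1 (fun _ => hθτ) hper hper₁ hb (empty_subset _) hpos
    ψ Ma ((ψ - θ₀) / 4) 1 x₀ (by linarith) hψπ hMa (by positivity) (by positivity)
    (by linarith)
    (by
      intro θ hθ
      left
      rw [abs_of_nonneg (by linarith [hθ.1])]
      linarith [hθ.2])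
    (empty_subset _) one_pos (fun θ hθ => absurd hθ (notMem_empty _)) hK1
  refine ⟨f, hf, le_trans ?_ hdel⟩
  apply le_min
  · have : Real.pi - β = Real.pi / 2 + (j + 1) * Real.pi / ρ - η := by
      rw [hβdef, hβ₀def]; ring
    linarith
  · linarith

end Pool.Agent.helper74.LG
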