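import Pool.Agent.helper74.LG.EL

set_option autoImplicit false

namespace Pool.Agent.helper74.LG

open Complex Set Filter Topology MeasureTheory

/-- the real part of one factor, in polar coordinates -/
noncomputable def K3_G (u φ : ℝ) : ℝ :=
  Real.log (1 - 2 * u * Real.cos φ + u ^ 2) + 2 * Real.cos φ * u + Real.cos (2 * φ) * u ^ 2 +
    2 / 3 * Real.cos (3 * φ) * u ^ 3

theorem K3_log_norm (u φ : ℝ) : Real.log ‖1 - u * exp (φ * I)‖ =
    1 / 2 * Real.log (1 - 2 * u * Real.cos φ + u ^ 2) := by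
  have h : ‖1 - u * exp (φ * I)‖ ^ 2 = 1 - 2 * u * Real.cos φ + u ^ 2 := by
    rw [← normSq_eq_norm_sq, normSq_apply, exp_mul_I, ← ofReal_cos, ← ofReal_sin]
    simp only [sub_re, one_re, mul_re, ofReal_re, add_re, I_re, mul_zero, ofReal_im, I_im, mul_one,
      sub_self, add_zero, add_im, mul_im, zero_add, sub_im, one_im, zero_mul, sub_zero]
    have := Real.sin_sq_add_cos_sq φ
    nlinarith
  rw [← h, Real.log_pow]
  push_cast
  ring

theorem K3_elog_re (ψ θ x : ℝ) : (elog 3 ψ (x + θ * I)).re =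
    1 / 2 * (K3_G (Real.exp x) (θ - ψ) + K3_G (Real.exp x) (θ + ψ)) := by
  set u := Real.exp x with hu
  have h1 : exp ((x : ℂ) + θ * I - ψ * I) = u * exp ((θ - ψ : ℝ) * I) := by
    rw [hu, ofReal_exp, ← exp_add]
    congr 1
    push_cast
    ring
  have h2 : exp ((x : ℂ) + θ * I + ψ * I) = u * exp ((θ + ψ : ℝ) * I) := by
    rw [hu, ofReal_exp, ← exp_add]
    congr 1
    push_cast
    ring
  have hp : ∀ n : ℕ, exp ((x : ℂ) + θ * I) ^ n = (u ^ n : ℝ) * exp ((n * θ : ℝ) * I) := by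
    intro n
    rw [hu, ofReal_pow, ofReal_exp, ← exp_nat_mul, ← exp_nat_mul, ← exp_add]
    congr 1
    push_cast
    ring
  have h3 : (clPoly 3 ψ (exp ((x : ℂ) + θ * I))).re = 2 * Real.cos ψ * (u * Real.cos θ) +
      Real.cos (2 * ψ) * (u ^ 2 * Real.cos (2 * θ)) +
      2 / 3 * Real.cos (3 * ψ) * (u ^ 3 * Real.cos (3 * θ)) := by
    unfold clPoly
    rw [Finset.sum_Icc_succ_top (by norm_num : 1 ≤ 2 + 1),
      Finset.sum_Icc_succ_top (by norm_num : 1 ≤ 1 + 1), Finset.Icc_self, Finset.sum_singleton]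
    rw [hp, hp, hp]
    simp only [add_re, re_ofReal_mul, exp_ofReal_mul_I_re]
    push_cast
    ring_nf
  unfold elog
  rw [h1, h2, add_re, add_re, log_re, log_re, K3_log_norm, K3_log_norm, h3]
  have c1 : 2 * (Real.cos ψ * Real.cos θ) = Real.cos (θ - ψ) + Real.cos (θ + ψ) := by
    rw [Real.cos_sub, Real.cos_add]; ring
  have c2 : 2 * (Real.cos (2 * ψ) * Real.cos (2 * θ)) =
      Real.cos (2 * (θ - ψ)) + Real.cos (2 * (θ + ψ)) := by
    rw [mul_sub, mul_add, Real.cos_sub, Real.cos_add]; ring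
  have c3 : 2 * (Real.cos (3 * ψ) * Real.cos (3 * θ)) =
      Real.cos (3 * (θ - ψ)) + Real.cos (3 * (θ + ψ)) := by
    rw [mul_sub, mul_add, Real.cos_sub, Real.cos_add]; ring
  unfold K3_G
  linear_combination u * c1 + u ^ 2 / 2 * c2 + u ^ 3 / 3 * c3

theorem K3_kap (ψ θ x : ℝ) : kap 3 ψ θ x = K3_G (Real.exp x) ψ -
    1 / 2 * (K3_G (Real.exp x) (θ - ψ) + K3_G (Real.exp x) (θ + ψ)) := by
  unfold kap
  have h0 := K3_elog_re ψ 0 x
  rw [ofReal_zero, zero_mul, add_zero] at h0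
  rw [h0, K3_elog_re]
  have e : K3_G (Real.exp x) (0 - ψ) = K3_G (Real.exp x) ψ := by
    unfold K3_G
    rw [zero_sub, mul_neg, mul_neg, Real.cos_neg, Real.cos_neg, Real.cos_neg]
  rw [e, zero_add]
  ring


theorem K3_num : 2 * Real.log (13 / 3) < 2.96 := by
  have h1 : Real.log (13 / 3) < 1.48 := by
    rw [Real.log_lt_iff_lt_exp (by norm_num)]
    have h2 : Real.exp 1.48 = Real.exp 0.74 ^ 2 := by
      rw [← Real.exp_nat_mul]; norm_num
    have h3 : (2.085 : ℝ) ≤ Real.exp 0.74 := by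
      refine le_trans ?_ (Real.sum_le_exp_of_nonneg (by norm_num) 5)
      norm_num [Finset.sum_range_succ, Nat.factorial]
    rw [h2]
    calc (13 / 3 : ℝ) < 2.085 ^ 2 := by norm_num
      _ ≤ _ := pow_le_pow_left₀ (by norm_num) h3 2
  linarith

theorem K3_val : (1 - Real.cos ((3 : ℕ) * Real.pi)) * Real.exp ((3 : ℕ) * Real.log (8 / 5)) +
      1 * kap 3 (Real.pi - 0) Real.pi (Real.log (8 / 5)) < 0 := by
  rw [K3_kap]
  have hc3 : Real.cos (3 * Real.pi) = -1 := by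
    rw [show 3 * Real.pi = Real.pi + 2 * Real.pi by ring, Real.cos_add_two_pi, Real.cos_pi]
  have hc6 : Real.cos (3 * (2 * Real.pi)) = 1 := by
    rw [show 3 * (2 * Real.pi) = (3 : ℕ) * (2 * Real.pi) by norm_num]
    exact Real.cos_nat_mul_two_pi 3
  have hc4 : Real.cos (2 * (2 * Real.pi)) = 1 := by
    rw [show 2 * (2 * Real.pi) = (2 : ℕ) * (2 * Real.pi) by norm_num]
    exact Real.cos_nat_mul_two_pi 2
  have he : Real.exp ((3 : ℕ) * Real.log (8 / 5)) = (8 / 5) ^ 3 := by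
    rw [Real.exp_nat_mul, Real.exp_log (by norm_num)]
  rw [he, Real.exp_log (by norm_num), sub_zero, sub_self, ← two_mul]
  unfold K3_G
  simp only [mul_zero, Real.cos_zero, Real.cos_two_pi, Real.cos_pi, hc3, hc6, hc4]
  push_cast
  rw [hc3]
  have e1 : (1 - 2 * (8 / 5) * (-1) + (8 / 5) ^ 2 : ℝ) = (13 / 5) ^ 2 := by norm_num
  have e2 : (1 - 2 * (8 / 5) * 1 + (8 / 5) ^ 2 : ℝ) = (3 / 5) ^ 2 := by norm_num
  rw [e1, e2, Real.log_pow, Real.log_pow]
  have e3 : Real.log (13 / 5) = Real.log (13 / 3) + Real.log (3 / 5) := by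
    rw [← Real.log_mul (by norm_num) (by norm_num)]; norm_num
  rw [e3]
  have := K3_num
  push_cast
  nlinarith

/-- `d = 3`, `θ₀ = π`, `u = 8/5`: at `β = 0` the value is
`(2/3) u^3 + 2 log ((u+1)/(u-1)) - 4 u < - 7/10`; continuity in `β`. -/
theorem kap_three (_ : True) : ∃ β₁ : ℝ, 0 < β₁ ∧ ∀ β : ℝ, 0 < β → β < β₁ →
    (1 - Real.cos ((3 : ℕ) * Real.pi)) * Real.exp ((3 : ℕ) * Real.log (8 / 5)) +
      1 * kap 3 (Real.pi - β) Real.pi (Real.log (8 / 5)) < 0 ∧
    0 < 1 + qc 3 (Real.pi - β) * 1 := by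
  set g : ℝ → ℝ := fun β => (1 - Real.cos ((3 : ℕ) * Real.pi)) *
    Real.exp ((3 : ℕ) * Real.log (8 / 5)) +
      1 * kap 3 (Real.pi - β) Real.pi (Real.log (8 / 5)) with hg
  have hG : ∀ f : ℝ → ℝ, Continuous f → 1 - 2 * (8 / 5) * Real.cos (f 0) + (8 / 5 : ℝ) ^ 2 ≠ 0 →
      ContinuousAt (fun β => K3_G (8 / 5) (f β)) 0 := by
    intro f hf hne
    unfold K3_G
    have hlog : ContinuousAt (fun β => Real.log (1 - 2 * (8 / 5) * Real.cos (f β) +
        (8 / 5 : ℝ) ^ 2)) 0 := by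
      refine ContinuousAt.log ?_ hne
      fun_prop
    refine ((hlog.add ?_).add ?_).add ?_ <;> fun_prop
  have hcont : ContinuousAt g 0 := by
    have e : g = fun β => (1 - Real.cos ((3 : ℕ) * Real.pi)) *
        Real.exp ((3 : ℕ) * Real.log (8 / 5)) + 1 * (K3_G (8 / 5) (Real.pi - β) -
        1 / 2 * (K3_G (8 / 5) (Real.pi - (Real.pi - β)) +
          K3_G (8 / 5) (Real.pi + (Real.pi - β)))) := by
      funext β
      rw [hg]
      simp only
      rw [K3_kap, Real.exp_log (by norm_num)]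
    rw [e]
    have hpos : ∀ φ : ℝ, 1 - 2 * (8 / 5) * Real.cos φ + (8 / 5 : ℝ) ^ 2 ≠ 0 := by
      intro φ
      have := Real.cos_le_one φ
      nlinarith
    have a1 := hG (fun β => Real.pi - β) (by fun_prop) (hpos _)
    have a2 := hG (fun β => Real.pi - (Real.pi - β)) (by fun_prop) (hpos _)
    have a3 := hG (fun β => Real.pi + (Real.pi - β)) (by fun_prop) (hpos _)
    exact continuousAt_const.add (continuousAt_const.mul
      (a1.sub (continuousAt_const.mul (a2.add a3))))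
  have hneg : ∀ᶠ β in 𝓝 0, g β < 0 := hcont.eventually_lt continuousAt_const K3_val
  obtain ⟨ε, hε, h⟩ := Metric.eventually_nhds_iff.mp hneg
  refine ⟨ε, hε, fun β h0 h1 => ⟨h (by rw [Real.dist_eq, sub_zero, abs_of_pos h0]; exact h1), ?_⟩⟩
  unfold qc
  have := Real.neg_one_le_cos ((3 : ℕ) * (Real.pi - β))
  push_cast at this ⊢
  linarith

end Pool.Agent.helper74.LG
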