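import Pool.Agent.helper74.LG.EL

set_option autoImplicit false

namespace Pool.Agent.helper74.LG

open Complex Set Filter Topology MeasureTheory

/-- the real part of one factor, in polar coordinates -/
noncomputable def K4_G (u φ : ℝ) : ℝ :=
  Real.log (1 - 2 * u * Real.cos φ + u ^ 2) + 2 * Real.cos φ * u + Real.cos (2 * φ) * u ^ 2 +
    2 / 3 * Real.cos (3 * φ) * u ^ 3

theorem K4_log_norm (u φ : ℝ) : Real.log ‖1 - u * exp (φ * I)‖ =
    1 / 2 * Real.log (1 - 2 * u * Real.cos φ + u ^ 2) := by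
  have h : ‖1 - u * exp (φ * I)‖ ^ 2 = 1 - 2 * u * Real.cos φ + u ^ 2 := by
    rw [← normSq_eq_norm_sq, normSq_apply, exp_mul_I, ← ofReal_cos, ← ofReal_sin]
    simp only [sub_re, one_re, mul_re, ofReal_re, add_re, I_re, mul_zero, ofReal_im, I_im, mul_one,
      sub_self, add_zero, add_im, mul_im, zero_add, sub_im, one_im, zero_mul, sub_zero]
    have := Real.sin_sq_add_cos_sq φ
    nlinarith
  rw [← h, Real.log_pow]
  push_cast
  ring

theorem K4_elog_re (ψ θ x : ℝ) : (elog 3 ψ (x + θ * I)).re =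
    1 / 2 * (K4_G (Real.exp x) (θ - ψ) + K4_G (Real.exp x) (θ + ψ)) := by
  set u := Real.exp x with hu
  have h1 : exp ((x : ℂ) + θ * I - ψ * I) = u * exp ((θ - ψ : ℝ) * I) := by
    rw [hu, ofReal_exp, ← exp_add]
    congr 1
    push_cast
    ring
  have h2 : exp ((x : ℂ) + θ * I + ψ * I) = u * exp ((θ + ψ : ℝ) * I) := by
    rw [hu, ofReal_exp, ← exp_add]
    congr 1
    push_cast
    ring
  have hp : ∀ n : ℕ, exp ((x : ℂ) + θ * I) ^ n = (u ^ n : ℝ) * exp ((n * θ : ℝ) * I) := by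
    intro n
    rw [hu, ofReal_pow, ofReal_exp, ← exp_nat_mul, ← exp_nat_mul, ← exp_add]
    congr 1
    push_cast
    ring
  have h3 : (clPoly 3 ψ (exp ((x : ℂ) + θ * I))).re = 2 * Real.cos ψ * (u * Real.cos θ) +
      Real.cos (2 * ψ) * (u ^ 2 * Real.cos (2 * θ)) +
      2 / 3 * Real.cos (3 * ψ) * (u ^ 3 * Real.cos (3 * θ)) := by
    unfold clPoly
    rw [Finset.sum_Icc_succ_top (by norm_num : 1 ≤ 2 + 1),
      Finset.sum_Icc_succ_top (by norm_num : 1 ≤ 1 + 1), Finset.Icc_self, Finset.sum_singleton]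
    rw [hp, hp, hp]
    simp only [add_re, re_ofReal_mul, exp_ofReal_mul_I_re]
    push_cast
    ring_nf
  unfold elog
  rw [h1, h2, add_re, add_re, log_re, log_re, K4_log_norm, K4_log_norm, h3]
  have c1 : 2 * (Real.cos ψ * Real.cos θ) = Real.cos (θ - ψ) + Real.cos (θ + ψ) := by
    rw [Real.cos_sub, Real.cos_add]; ring
  have c2 : 2 * (Real.cos (2 * ψ) * Real.cos (2 * θ)) =
      Real.cos (2 * (θ - ψ)) + Real.cos (2 * (θ + ψ)) := by
    rw [mul_sub, mul_add, Real.cos_sub, Real.cos_add]; ring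
  have c3 : 2 * (Real.cos (3 * ψ) * Real.cos (3 * θ)) =
      Real.cos (3 * (θ - ψ)) + Real.cos (3 * (θ + ψ)) := by
    rw [mul_sub, mul_add, Real.cos_sub, Real.cos_add]; ring
  unfold K4_G
  linear_combination u * c1 + u ^ 2 / 2 * c2 + u ^ 3 / 3 * c3

theorem K4_kap (ψ θ x : ℝ) : kap 3 ψ θ x = K4_G (Real.exp x) ψ -
    1 / 2 * (K4_G (Real.exp x) (θ - ψ) + K4_G (Real.exp x) (θ + ψ)) := by
  unfold kap
  have h0 := K4_elog_re ψ 0 x
  rw [ofReal_zero, zero_mul, add_zero] at h0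
  rw [h0, K4_elog_re]
  have e : K4_G (Real.exp x) (0 - ψ) = K4_G (Real.exp x) ψ := by
    unfold K4_G
    rw [zero_sub, mul_neg, mul_neg, Real.cos_neg, Real.cos_neg, Real.cos_neg]
  rw [e, zero_add]
  ring


/-- the derivative of the polar form is `2 Im (z^4 / (1 - z))` -/
theorem K4_deriv (u : ℝ) (hu : 0 < u) (φ : ℝ) (hφ : Real.cos φ ≤ 1 / 2) :
    ∃ D : ℝ, HasDerivAt (K4_G u) D φ ∧ |D| ≤ 3 * u ^ 3 := by
  set Q : ℝ := 1 - 2 * u * Real.cos φ + u ^ 2 with hQ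
  have hQ1 : 3 / 4 * u ^ 2 ≤ Q := by
    nlinarith [sq_nonneg (u / 2 - 1)]
  have hQ0 : 0 < Q := by nlinarith [sq_nonneg u]
  have d1 : HasDerivAt (fun φ => 1 - 2 * u * Real.cos φ + u ^ 2) (2 * u * Real.sin φ) φ := by
    have h := (((Real.hasDerivAt_cos φ).const_mul (2 * u)).const_sub 1).add_const (u ^ 2)
    exact h.congr_deriv (by ring)
  have d2 : HasDerivAt (fun φ => Real.log (1 - 2 * u * Real.cos φ + u ^ 2))
      (2 * u * Real.sin φ / Q) φ := d1.log hQ0.ne'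
  have d3 : HasDerivAt (fun φ => 2 * Real.cos φ * u) (-2 * Real.sin φ * u) φ := by
    have h := ((Real.hasDerivAt_cos φ).const_mul 2).mul_const u
    exact h.congr_deriv (by ring)
  have d4 : HasDerivAt (fun φ => Real.cos (2 * φ) * u ^ 2) (-2 * Real.sin (2 * φ) * u ^ 2) φ := by
    have h0 : HasDerivAt (fun φ : ℝ => 2 * φ) 2 φ := by
      simpa using (hasDerivAt_id φ).const_mul (2 : ℝ)
    have h := h0.cos.mul_const (u ^ 2)
    exact h.congr_deriv (by ring)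
  have d5 : HasDerivAt (fun φ => 2 / 3 * Real.cos (3 * φ) * u ^ 3)
      (-2 * Real.sin (3 * φ) * u ^ 3) φ := by
    have h0 : HasDerivAt (fun φ : ℝ => 3 * φ) 3 φ := by
      simpa using (hasDerivAt_id φ).const_mul (3 : ℝ)
    have h := (h0.cos.const_mul (2 / 3)).mul_const (u ^ 3)
    exact h.congr_deriv (by ring)
  have d := ((d2.add d3).add d4).add d5
  refine ⟨_, d, ?_⟩
  -- closed form
  have s2 : Real.sin (2 * φ) = 2 * Real.sin φ * Real.cos φ := Real.sin_two_mul φ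
  have s3 : Real.sin (3 * φ) = 3 * Real.sin φ - 4 * Real.sin φ ^ 3 := Real.sin_three_mul φ
  have s4 : Real.sin (4 * φ) = 4 * Real.sin φ * Real.cos φ * (1 - 2 * Real.sin φ ^ 2) := by
    rw [show 4 * φ = 2 * (2 * φ) by ring, Real.sin_two_mul, Real.sin_two_mul, Real.cos_two_mul]
    have := Real.sin_sq_add_cos_sq φ
    linear_combination (8 * Real.sin φ * Real.cos φ) * this
  have key : 2 * u * Real.sin φ / Q + -2 * Real.sin φ * u + -2 * Real.sin (2 * φ) * u ^ 2 +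
      -2 * Real.sin (3 * φ) * u ^ 3 =
      2 * u ^ 4 * (Real.sin (4 * φ) - u * Real.sin (3 * φ)) / Q := by
    rw [eq_div_iff hQ0.ne', add_mul, add_mul, add_mul, div_mul_cancel₀ _ hQ0.ne', hQ, s2, s3, s4]
    have hsc := Real.sin_sq_add_cos_sq φ
    have hc2 : Real.cos φ ^ 2 = 1 - Real.sin φ ^ 2 := by linarith
    set S := Real.sin φ
    set C := Real.cos φ
    linear_combination (8 * S * u ^ 3) * hc2
  rw [key]
  -- bound through the norm
  have hN : (Real.sin (4 * φ) - u * Real.sin (3 * φ)) ^ 2 ≤ Q := by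
    have e : Q - (Real.sin (4 * φ) - u * Real.sin (3 * φ)) ^ 2 =
        (Real.cos (4 * φ) - u * Real.cos (3 * φ)) ^ 2 := by
      have h1 : Real.cos φ = Real.cos (4 * φ) * Real.cos (3 * φ) +
          Real.sin (4 * φ) * Real.sin (3 * φ) := by
        rw [← Real.cos_sub]; congr 1; ring
      have h4 := Real.sin_sq_add_cos_sq (4 * φ)
      have h3 := Real.sin_sq_add_cos_sq (3 * φ)
      rw [hQ, h1]
      linear_combination (-1 : ℝ) * h4 - u ^ 2 * h3
    nlinarith [sq_nonneg (Real.cos (4 * φ) - u * Real.cos (3 * φ))]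
  have hN' : |Real.sin (4 * φ) - u * Real.sin (3 * φ)| ≤ Real.sqrt Q := Real.abs_le_sqrt hN
  have hsQ : 0 < Real.sqrt Q := Real.sqrt_pos.mpr hQ0
  have hsq : Real.sqrt Q * Real.sqrt Q = Q := Real.mul_self_sqrt hQ0.le
  have hsu : 2 / 3 * u ≤ Real.sqrt Q := by
    apply Real.le_sqrt_of_sq_le
    nlinarith
  rw [abs_div, abs_mul, abs_of_pos hQ0, abs_of_pos (by positivity : 0 < 2 * u ^ 4),
    div_le_iff₀ hQ0]
  calc 2 * u ^ 4 * |Real.sin (4 * φ) - u * Real.sin (3 * φ)|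
      ≤ 2 * u ^ 4 * Real.sqrt Q := mul_le_mul_of_nonneg_left hN' (by positivity)
    _ = 3 * u ^ 3 * (2 / 3 * u * Real.sqrt Q) := by ring
    _ ≤ 3 * u ^ 3 * (Real.sqrt Q * Real.sqrt Q) := by
        refine mul_le_mul_of_nonneg_left ?_ (by positivity)
        exact mul_le_mul_of_nonneg_right hsu hsQ.le
    _ = 3 * u ^ 3 * Q := by rw [hsq]

theorem K4_lip (u : ℝ) (hu : 0 < u) (s : Set ℝ) (hs : Convex ℝ s)
    (hc : ∀ φ ∈ s, Real.cos φ ≤ 1 / 2) {a b : ℝ} (ha : a ∈ s) (hb : b ∈ s) :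
    |K4_G u b - K4_G u a| ≤ 3 * u ^ 3 * |b - a| := by
  have h1 : ∀ φ ∈ s, HasDerivWithinAt (K4_G u) (deriv (K4_G u) φ) s φ := by
    intro φ hφ
    obtain ⟨D, hD, -⟩ := K4_deriv u hu φ (hc φ hφ)
    rw [hD.deriv]
    exact hD.hasDerivWithinAt
  have h2 : ∀ φ ∈ s, ‖deriv (K4_G u) φ‖ ≤ 3 * u ^ 3 := by
    intro φ hφ
    obtain ⟨D, hD, hb⟩ := K4_deriv u hu φ (hc φ hφ)
    rw [hD.deriv]
    exact hb
  have := hs.norm_image_sub_le_of_norm_hasDerivWithin_le h1 h2 ha hb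
  simpa [Real.norm_eq_abs] using this

theorem K4_base (u : ℝ) (hu : 0 < u) : -(2 / 3 * u ^ 3) ≤
    K4_G u Real.pi - 1 / 2 * (K4_G u (-(Real.pi / 2)) + K4_G u (-(Real.pi / 2))) := by
  have hc3 : Real.cos (3 * Real.pi) = -1 := by
    rw [show 3 * Real.pi = Real.pi + 2 * Real.pi by ring, Real.cos_add_two_pi, Real.cos_pi]
  have hc32 : Real.cos (3 * -(Real.pi / 2)) = 0 := by
    rw [show 3 * -(Real.pi / 2) = Real.pi / 2 - 2 * Real.pi by ring, Real.cos_sub_two_pi,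
      Real.cos_pi_div_two]
  have hc22 : Real.cos (2 * -(Real.pi / 2)) = -1 := by
    rw [show 2 * -(Real.pi / 2) = -Real.pi by ring, Real.cos_neg, Real.cos_pi]
  unfold K4_G
  rw [hc3, hc32, hc22, Real.cos_neg, Real.cos_pi_div_two, Real.cos_pi, Real.cos_two_pi]
  have e1 : (1 - 2 * u * (-1) + u ^ 2 : ℝ) = (1 + u) ^ 2 := by ring
  have e2 : (1 - 2 * u * 0 + u ^ 2 : ℝ) = 1 + u ^ 2 := by ring
  rw [e1, e2, Real.log_pow]
  have l1 : Real.log (1 + u ^ 2) ≤ u ^ 2 := by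
    have := Real.log_le_sub_one_of_pos (x := 1 + u ^ 2) (by positivity)
    linarith
  have l2 : u - u ^ 2 / 2 ≤ Real.log (1 + u) := by
    refine le_trans ?_ (Real.le_log_one_add_of_nonneg hu.le)
    rw [le_div_iff₀ (by positivity)]
    nlinarith [pow_pos hu 3]
  push_cast
  nlinarith

/-- `d = 3` near the angle `π/2`. At `β = 0`, `θ = π/2`, `u = e^x`:
`kap = 2 log (1+u) - log (1+u^2) - 2u + 2u^2 - (2/3) u^3` and
`2 log (1+u) - log (1+u^2) - 2u + 2u^2 ≥ 0` (derivative `(2u^2+2u^3+4u^4)/((1+u)(1+u^2))`);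
perturbation `O ((β + e) u^3)`. -/
theorem kap_three_E (_ : True) : ∃ β₁ e₁ c₃ : ℝ, 0 < β₁ ∧ 0 < e₁ ∧ e₁ < 1 / 4 ∧ 0 < c₃ ∧
    ∀ β : ℝ, 0 < β → β < β₁ → ∀ θ : ℝ, |θ - Real.pi / 2| ≤ e₁ → ∀ x M : ℝ, 0 < M → M ≤ 1 →
      c₃ * Real.exp ((3 : ℕ) * x) ≤ (1 - Real.cos ((3 : ℕ) * θ)) * Real.exp ((3 : ℕ) * x) +
        M * kap 3 (Real.pi - β) θ x := by
  refine ⟨1 / 72, 1 / 72, 1 / 6, by norm_num, by norm_num, by norm_num, by norm_num, ?_⟩
  intro β hβ hβ1 θ hθ x M hM hM1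
  set u := Real.exp x with hu
  have hu0 : 0 < u := Real.exp_pos x
  have hexp : Real.exp ((3 : ℕ) * x) = u ^ 3 := Real.exp_nat_mul x 3
  have hu3 : 0 < u ^ 3 := pow_pos hu0 3
  obtain ⟨hθ1, hθ2⟩ := abs_le.mp hθ
  have hpi := Real.pi_gt_three
  have hpi4 := Real.pi_lt_d2
  -- the intervals
  have c1 : ∀ φ ∈ Icc (Real.pi - 1 / 2) (Real.pi + 1 / 2), Real.cos φ ≤ 1 / 2 := by
    intro φ hφ
    have : Real.cos φ ≤ 0 := Real.cos_nonpos_of_pi_div_two_le_of_le (by linarith [hφ.1])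
      (by linarith [hφ.2])
    linarith
  have c2 : ∀ φ ∈ Icc (-(Real.pi / 2) - 1 / 4) (-(Real.pi / 2) + 1 / 4),
      Real.cos φ ≤ 1 / 2 := by
    intro φ hφ
    have h1 : Real.cos φ = Real.sin (φ + Real.pi / 2) := by rw [Real.sin_add_pi_div_two]
    rw [h1]
    have h2 : |φ + Real.pi / 2| ≤ 1 / 4 := abs_le.mpr ⟨by linarith [hφ.1], by linarith [hφ.2]⟩
    have h3 := Real.abs_sin_le_abs (x := φ + Real.pi / 2)
    linarith [le_abs_self (Real.sin (φ + Real.pi / 2))]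
  have p1 := K4_lip u hu0 (Icc (Real.pi - 1 / 2) (Real.pi + 1 / 2)) (convex_Icc _ _) c1
    (a := Real.pi) (b := Real.pi - β) ⟨by linarith, by linarith⟩ ⟨by linarith, by linarith⟩
  have p2 := K4_lip u hu0 _ (convex_Icc _ _) c2
    (a := -(Real.pi / 2)) (b := θ - (Real.pi - β)) ⟨by linarith, by linarith⟩
    ⟨by linarith, by linarith⟩
  have p3 := K4_lip u hu0 _ (convex_Icc _ _) c2
    (a := -(Real.pi / 2)) (b := θ + (Real.pi - β) - 2 * Real.pi) ⟨by linarith, by linarith⟩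
    ⟨by linarith, by linarith⟩
  have e3 : K4_G u (θ + (Real.pi - β) - 2 * Real.pi) = K4_G u (θ + (Real.pi - β)) := by
    unfold K4_G
    have h2 : Real.cos (2 * (θ + (Real.pi - β) - 2 * Real.pi)) =
        Real.cos (2 * (θ + (Real.pi - β))) := by
      rw [show 2 * (θ + (Real.pi - β) - 2 * Real.pi) =
        2 * (θ + (Real.pi - β)) - (2 : ℕ) * (2 * Real.pi) by push_cast; ring,
        Real.cos_sub_nat_mul_two_pi]
    have h3 : Real.cos (3 * (θ + (Real.pi - β) - 2 * Real.pi)) =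
        Real.cos (3 * (θ + (Real.pi - β))) := by
      rw [show 3 * (θ + (Real.pi - β) - 2 * Real.pi) =
        3 * (θ + (Real.pi - β)) - (3 : ℕ) * (2 * Real.pi) by push_cast; ring,
        Real.cos_sub_nat_mul_two_pi]
    rw [Real.cos_sub_two_pi, h2, h3]
  rw [e3] at p3
  have q1 : |Real.pi - β - Real.pi| ≤ 1 / 72 := abs_le.mpr ⟨by linarith, by linarith⟩
  have q2 : |θ - (Real.pi - β) - -(Real.pi / 2)| ≤ 1 / 36 := abs_le.mpr ⟨by linarith, by linarith⟩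
  have q3 : |θ + (Real.pi - β) - 2 * Real.pi - -(Real.pi / 2)| ≤ 1 / 36 :=
    abs_le.mpr ⟨by linarith, by linarith⟩
  have r1 := p1.trans (mul_le_mul_of_nonneg_left q1 (by positivity))
  have r2 := p2.trans (mul_le_mul_of_nonneg_left q2 (by positivity))
  have r3 := p3.trans (mul_le_mul_of_nonneg_left q3 (by positivity))
  have hb := K4_base u hu0
  have hk : -(2 / 3 * u ^ 3) - 1 / 8 * u ^ 3 ≤ kap 3 (Real.pi - β) θ x := by
    rw [K4_kap]
    have a1 := (abs_le.mp r1).1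
    have a2 := (abs_le.mp r2).2
    have a3 := (abs_le.mp r3).2
    linarith
  have hcos : Real.cos ((3 : ℕ) * θ) ≤ 1 / 24 := by
    have e : Real.cos ((3 : ℕ) * θ) = Real.sin (3 * (θ - Real.pi / 2)) := by
      rw [show ((3 : ℕ) : ℝ) * θ = 3 * (θ - Real.pi / 2) + Real.pi / 2 + Real.pi by push_cast; ring,
        Real.cos_add_pi, Real.cos_add_pi_div_two, neg_neg]
    rw [e]
    have h3 := Real.abs_sin_le_abs (x := 3 * (θ - Real.pi / 2))
    rw [abs_mul, abs_of_pos (by norm_num : (0 : ℝ) < 3)] at h3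
    linarith [le_abs_self (Real.sin (3 * (θ - Real.pi / 2)))]
  rw [hexp]
  have hM2 : M * (-(2 / 3 * u ^ 3) - 1 / 8 * u ^ 3) ≤ M * kap 3 (Real.pi - β) θ x :=
    mul_le_mul_of_nonneg_left hk hM.le
  have hM3 : -(2 / 3 * u ^ 3) - 1 / 8 * u ^ 3 ≤ M * (-(2 / 3 * u ^ 3) - 1 / 8 * u ^ 3) := by
    nlinarith
  have hM4 : (1 - 1 / 24) * u ^ 3 ≤ (1 - Real.cos ((3 : ℕ) * θ)) * u ^ 3 :=
    mul_le_mul_of_nonneg_right (by linarith) hu3.le
  linarith

end Pool.Agent.helper74.LG
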