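import Pool.Agent.helper74.LG.FN
import Pool.Agent.helper74.LG.K3
import Pool.Agent.helper74.LG.K4
import Pool.Agent.helper38.LacOrd
import Pool.Agent.helper74.LG.Defs3

set_option autoImplicit false

namespace Pool.Agent.helper74.LG

open Complex Set Filter Topology MeasureTheory

/-- Entire functions with real nonnegative coefficients. -/
def IE_PP (f : ℂ → ℂ) : Prop := Differentiable ℂ f ∧ ∀ m, 0 ≤ (coef f m).re ∧ (coef f m).im = 0

theorem IE_mul_re {f g : ℂ → ℂ} (hf : IE_PP f) (hg : IE_PP g) (m : ℕ) :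
    (coef (fun z => f z * g z) m).re =
      ∑ k ∈ Finset.range (m + 1), (coef f k).re * (coef g (m - k)).re := by
  rw [coef_mul hf.1 hg.1, Complex.re_sum]
  refine Finset.sum_congr rfl fun k _ => ?_
  rw [Complex.mul_re, (hf.2 k).2, zero_mul, sub_zero]

theorem IE_mul {f g : ℂ → ℂ} (hf : IE_PP f) (hg : IE_PP g) : IE_PP (fun z => f z * g z) := by
  refine ⟨hf.1.mul hg.1, fun m => ⟨?_, ?_⟩⟩
  · rw [IE_mul_re hf hg]
    exact Finset.sum_nonneg fun k _ => mul_nonneg (hf.2 k).1 (hg.2 _).1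
  · rw [coef_mul hf.1 hg.1, Complex.im_sum]
    refine Finset.sum_eq_zero fun k _ => ?_
    rw [Complex.mul_im, (hf.2 k).2, (hg.2 _).2]
    ring

theorem IE_coef_exp (j : ℕ) (hj : 1 ≤ j) (m : ℕ) :
    coef (fun z => exp (z ^ j)) m = if j ∣ m then 1 / (((m / j).factorial : ℕ) : ℂ) else 0 := by
  refine coef_eq_of_hasSum (a := fun m => if j ∣ m then 1 / (((m / j).factorial : ℕ) : ℂ) else 0)
    (fun z => ?_) m
  have h1 : HasSum (fun n : ℕ => (z ^ j) ^ n / (n.factorial : ℂ)) (exp (z ^ j)) := by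
    have := NormedSpace.expSeries_div_hasSum_exp (z ^ j)
    rwa [← Complex.exp_eq_exp_ℂ] at this
  have hinj : Function.Injective (fun n : ℕ => j * n) := by
    intro a b hab
    exact Nat.eq_of_mul_eq_mul_left (by omega) hab
  rw [← hinj.hasSum_iff]
  · convert h1 using 1
    funext n
    simp only [Function.comp_apply]
    rw [if_pos (Dvd.intro n rfl), Nat.mul_div_cancel_left n (by omega), pow_mul]
    ring
  · intro m hm
    rw [if_neg, zero_mul]
    rintro ⟨n, hn⟩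
    exact hm ⟨n, hn.symm⟩

theorem IE_exp_PP (j : ℕ) (hj : 1 ≤ j) : IE_PP (fun z => exp (z ^ j)) := by
  refine ⟨by fun_prop, fun m => ?_⟩
  rw [IE_coef_exp j hj]
  split_ifs
  · have e : (1 / (((m / j).factorial : ℕ) : ℂ)) = ((1 / ((m / j).factorial : ℝ) : ℝ) : ℂ) := by
      push_cast; rfl
    rw [e]
    exact ⟨by rw [Complex.ofReal_re]; positivity, Complex.ofReal_im _⟩
  · exact ⟨le_rfl, rfl⟩

/-- all coefficients of `exp (z^(2k) + z^4 + z) exp (z^3)` are positive -/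
theorem IE_pos (k : ℕ) (hk : 2 ≤ k) (m : ℕ) :
    0 < rco (fun z => exp (z ^ (2 * k) + z ^ 4 + z) * exp (z ^ 3)) m := by
  have hr : IE_PP (fun z => exp (z ^ (2 * k)) * exp (z ^ 4) * exp (z ^ 3)) :=
    IE_mul (IE_mul (IE_exp_PP (2 * k) (by omega)) (IE_exp_PP 4 (by norm_num)))
      (IE_exp_PP 3 (by norm_num))
  have h1 := IE_exp_PP 1 le_rfl
  have e : (fun z => exp (z ^ (2 * k) + z ^ 4 + z) * exp (z ^ 3)) =
      fun z => (fun z => exp (z ^ 1)) z * (fun z => exp (z ^ (2 * k)) * exp (z ^ 4) * exp (z ^ 3)) z := by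
    funext z
    simp only [pow_one]
    rw [← Complex.exp_add, ← Complex.exp_add, ← Complex.exp_add, ← Complex.exp_add]
    congr 1
    ring
  rw [e]
  unfold rco
  rw [IE_mul_re h1 hr]
  have hm : (coef (fun z => exp (z ^ 1)) m).re * (coef (fun z => exp (z ^ (2 * k)) * exp (z ^ 4) *
      exp (z ^ 3)) (m - m)).re ≤ _ :=
    Finset.single_le_sum (f := fun i => (coef (fun z => exp (z ^ 1)) i).re *
      (coef (fun z => exp (z ^ (2 * k)) * exp (z ^ 4) * exp (z ^ 3)) (m - i)).re)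
      (fun i _ => mul_nonneg (h1.2 i).1 (hr.2 _).1) (Finset.mem_range.2 (Nat.lt_succ_self m))
  refine lt_of_lt_of_le ?_ hm
  have a1 : (coef (fun z => exp (z ^ 1)) m).re = 1 / (m.factorial : ℝ) := by
    rw [IE_coef_exp 1 le_rfl, if_pos (one_dvd m), Nat.div_one]
    have e : (1 / ((m.factorial : ℕ) : ℂ)) = ((1 / (m.factorial : ℝ) : ℝ) : ℂ) := by
      push_cast; rfl
    rw [e, Complex.ofReal_re]
  have a2 : (coef (fun z => exp (z ^ (2 * k)) * exp (z ^ 4) * exp (z ^ 3)) (m - m)).re = 1 := by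
    rw [Nat.sub_self]
    unfold coef
    have h0 : (2 * k) ≠ 0 := by omega
    simp [h0]
  rw [a1, a2, mul_one]
  positivity

theorem IE_re_exp (n : ℕ) (s θ : ℝ) :
    (exp (s + θ * I) ^ n).re = Real.exp (n * s) * Real.cos (n * θ) := by
  rw [← Complex.exp_nat_mul, Complex.exp_re]
  congr 2
  · simp
  · simp

/-- the base function -/
theorem IE_base (k : ℕ) (hk : 2 ≤ k) (H σ₁ H₁ τ e₁ : ℝ) (hτ : 0 < τ) (he : 0 < e₁) (he4 : e₁ < 1 / 4)
    (hHH : ∀ w : ℂ, (H : ℂ) * exp (((2 * (k : ℝ) : ℝ) : ℂ) * w) + H₁ * exp (σ₁ * w) =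
      exp (w) ^ (2 * k) + exp w ^ 4) :
    Base (2 * (k : ℝ)) H σ₁ H₁ Real.pi τ Real.pi 3 {θ : ℝ | |θ - Real.pi / 2| ≤ e₁}
      (fun z => exp (z ^ (2 * k) + z ^ 4 + z)) (fun w => exp w ^ (2 * k) + exp w ^ 4 + exp w) := by
  have hk0 : (2 * k) ≠ 0 := by omega
  have hn : ∀ s θ : ℝ, ‖exp (exp (s + θ * I) ^ (2 * k) + exp (s + θ * I) ^ 4 + exp (s + θ * I))‖ =
      Real.exp (Real.exp ((2 * k : ℕ) * s) * Real.cos ((2 * k : ℕ) * θ) +
        Real.exp ((4 : ℕ) * s) * Real.cos ((4 : ℕ) * θ) + Real.exp s * Real.cos θ) := by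
    intro s θ
    rw [Complex.norm_exp, Complex.add_re, Complex.add_re, IE_re_exp, IE_re_exp]
    have := IE_re_exp 1 s θ
    rw [pow_one] at this
    rw [this]
    simp
  have hr : ∀ s : ℝ, (exp (exp (s : ℂ) ^ (2 * k) + exp (s : ℂ) ^ 4 + exp (s : ℂ))).re =
      Real.exp (Real.exp ((2 * k : ℕ) * s) + Real.exp ((4 : ℕ) * s) + Real.exp s) := by
    intro s
    have e : exp (s : ℂ) ^ (2 * k) + exp (s : ℂ) ^ 4 + exp (s : ℂ) =
        ((Real.exp ((2 * k : ℕ) * s) + Real.exp ((4 : ℕ) * s) + Real.exp s : ℝ) : ℂ) := by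
      rw [← Complex.exp_nat_mul, ← Complex.exp_nat_mul]
      push_cast
      rfl
    rw [e, Complex.exp_ofReal_re]
  refine ⟨⟨by fun_prop, fun z => ?_⟩, ?_, fun w _ => rfl, fun x => ?_, ?_, ⟨1, fun w _ _ => ?_⟩, ?_, ?_,
    ⟨0, fun z hz => absurd hz (Complex.exp_ne_zero _)⟩⟩
  · show exp _ = (starRingEnd ℂ) (exp _)
    rw [← Complex.exp_conj]
    simp
  · have : Differentiable ℂ (fun w => exp w ^ (2 * k) + exp w ^ 4 + exp w) := by fun_prop
    exact this.differentiableOn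
  · have e : exp (x : ℂ) ^ (2 * k) + exp (x : ℂ) ^ 4 + exp (x : ℂ) =
        ((Real.exp x ^ (2 * k) + Real.exp x ^ 4 + Real.exp x : ℝ) : ℂ) := by
      push_cast
      rfl
    show (exp (x : ℂ) ^ (2 * k) + exp (x : ℂ) ^ 4 + exp (x : ℂ)).im = 0
    rw [e, Complex.ofReal_im]
  · show 0 < (exp ((0 : ℂ) ^ (2 * k) + 0 ^ 4 + 0)).re
    rw [zero_pow hk0]
    norm_num
  · rw [hHH w]
    have e : exp w ^ (2 * k) + exp w ^ 4 + exp w - (exp w ^ (2 * k) + exp w ^ 4) = exp w := by ring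
    rw [e, Complex.norm_exp, one_mul]
  · -- suppression away from `E`
    have hpi := Real.pi_gt_three
    set c : ℝ := min (1 - Real.cos (4 * min (τ / 2) e₁)) 1 with hc
    have hm0 : 0 < min (τ / 2) e₁ := lt_min (by positivity) he
    have hm1 : min (τ / 2) e₁ < 1 / 4 := (min_le_right _ _).trans_lt he4
    have hc0 : 0 < c := by
      refine lt_min ?_ one_pos
      have : Real.cos (4 * min (τ / 2) e₁) < Real.cos 0 :=
        Real.cos_lt_cos_of_nonneg_of_le_pi le_rfl (by linarith) (by linarith)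
      rw [Real.cos_zero] at this
      linarith
    refine ⟨0, c, 4, hc0, by norm_num, fun s θ hs hθ1 hθ2 hθ3 hθE => ?_⟩
    have hn' := hn s θ
    have hr' := hr s
    show ‖exp (exp ((s : ℂ) + θ * I) ^ (2 * k) + exp ((s : ℂ) + θ * I) ^ 4 + exp ((s : ℂ) + θ * I))‖ ≤
      Real.exp (0 - c * Real.exp (4 * s)) * (exp (exp (s : ℂ) ^ (2 * k) + exp (s : ℂ) ^ 4 + exp (s : ℂ))).re
    rw [hn', hr', ← Real.exp_add]
    refine Real.exp_le_exp.2 ?_
    -- the cosine bound
    have hcos : Real.cos (4 * θ) ≤ 1 - c := by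
      have hc1 : 1 - Real.cos (4 * min (τ / 2) e₁) ≥ c := min_le_left _ _
      have h4 : Real.cos (4 * θ) ≤ Real.cos (4 * min (τ / 2) e₁) := by
        have hθπ : τ / 2 ≤ Real.pi - θ := by
          have : |θ - Real.pi| = Real.pi - θ := by
            rw [abs_sub_comm, abs_of_nonneg (by linarith)]
          rwa [this] at hθ3
        have hE' : e₁ < |θ - Real.pi / 2| := by
          by_contra hh
          exact hθE (not_lt.1 hh)
        have hmτ : min (τ / 2) e₁ ≤ τ / 2 := min_le_left _ _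
        have hme : min (τ / 2) e₁ ≤ e₁ := min_le_right _ _
        -- reduce to `x = 4 θ` or `4 θ - 2 π` in `[4 m, 2 π - 4 m]`
        have key : ∀ x : ℝ, 4 * min (τ / 2) e₁ ≤ x → x ≤ 2 * Real.pi - 4 * min (τ / 2) e₁ →
            Real.cos x ≤ Real.cos (4 * min (τ / 2) e₁) := by
          intro x h1 h2
          rcases le_total x Real.pi with h3 | h3
          · exact Real.cos_le_cos_of_nonneg_of_le_pi (by linarith) h3 h1
          · rw [← Real.cos_two_pi_sub x]
            exact Real.cos_le_cos_of_nonneg_of_le_pi (by linarith) (by linarith) (by linarith)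
        rcases lt_abs.1 hE' with h5 | h5
        · rw [← Real.cos_sub_two_pi (4 * θ)]
          exact key _ (by linarith) (by linarith)
        · exact key _ (by linarith) (by linarith)
      linarith
    have e4 : Real.exp (((4 : ℕ) : ℝ) * s) = Real.exp (4 * s) := by norm_num
    have c4 : Real.cos (((4 : ℕ) : ℝ) * θ) = Real.cos (4 * θ) := by norm_num
    rw [e4, c4]
    have p1 := Real.exp_pos (((2 * k : ℕ) : ℝ) * s)
    have p2 := Real.exp_pos (4 * s)
    have p3 := Real.exp_pos s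
    have q1 := Real.cos_le_one (((2 * k : ℕ) : ℝ) * θ)
    have q3 := Real.cos_le_one θ
    have r1 : Real.exp (((2 * k : ℕ) : ℝ) * s) * Real.cos (((2 * k : ℕ) : ℝ) * θ) ≤
        Real.exp (((2 * k : ℕ) : ℝ) * s) := by nlinarith
    have r2 : Real.exp (4 * s) * Real.cos (4 * θ) ≤ Real.exp (4 * s) * (1 - c) :=
      mul_le_mul_of_nonneg_left hcos p2.le
    have r3 : Real.exp s * Real.cos θ ≤ Real.exp s := by nlinarith
    nlinarith
  · refine ⟨0, fun s θ _ _ => ?_⟩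
    show ‖exp (exp ((s : ℂ) + θ * I) ^ (2 * k) + exp ((s : ℂ) + θ * I) ^ 4 + exp ((s : ℂ) + θ * I))‖ ≤
      Real.exp 0 * (exp (exp (s : ℂ) ^ (2 * k) + exp (s : ℂ) ^ 4 + exp (s : ℂ))).re
    rw [hn s θ, hr s, Real.exp_zero, one_mul]
    refine Real.exp_le_exp.2 ?_
    have p1 := Real.exp_pos (((2 * k : ℕ) : ℝ) * s)
    have p2 := Real.exp_pos (((4 : ℕ) : ℝ) * s)
    have p3 := Real.exp_pos s
    have q1 := Real.cos_le_one (((2 * k : ℕ) : ℝ) * θ)
    have q2 := Real.cos_le_one (((4 : ℕ) : ℝ) * θ)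
    have q3 := Real.cos_le_one θ
    nlinarith [mul_le_mul_of_nonneg_left q1 p1.le, mul_le_mul_of_nonneg_left q2 p2.le,
      mul_le_mul_of_nonneg_left q3 p3.le]

theorem IE_exp_even (n : ℕ) : exp (((2 * (n : ℝ) : ℝ) : ℂ) * Real.pi * I) = 1 := by
  have : ((2 * (n : ℝ) : ℝ) : ℂ) * Real.pi * I = (n : ℤ) * (2 * Real.pi * I) := by
    push_cast; ring
  rw [this]
  exact Complex.exp_int_mul_two_pi_mul_I n

/-- `ρ = 2k`, `k ≥ 2`: `Ψ = exp (z^(2k) + z^4 + z)` (`exp (z^4 + z)` if `k = 2`), `θ₀ = π`,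
`d = 3`, `ψ = π - β`, `E` a neighbourhood of `π/2`. -/
theorem lower_even (k : ℕ) (hk : 2 ≤ k) (ε : ℝ) (hε : 0 < ε) :
    ∃ f ∈ Pool.Agent.helper38.Lac.Gord ((2 * (k : ℝ) : ℝ) : EReal) 2,
      Real.pi - ε ≤ Pool.Agent.helper38.Lac.delta f := by
  obtain ⟨β₁, hβ₁, hK3⟩ := kap_three trivial
  obtain ⟨β₂, e₁, c₃, hβ₂, he₁, he4, hc₃, hK4⟩ := kap_three_E trivial
  have hpi := Real.pi_gt_three
  have hpi4 := Real.pi_le_four
  set β : ℝ := min (min (β₁ / 2) (β₂ / 2)) (min ε (1 / 4)) with hβ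
  have hβ0 : 0 < β := lt_min (lt_min (by positivity) (by positivity)) (lt_min hε (by norm_num))
  have hβb1 : β < β₁ := lt_of_le_of_lt ((min_le_left _ _).trans (min_le_left _ _)) (by linarith)
  have hβb2 : β < β₂ := lt_of_le_of_lt ((min_le_left _ _).trans (min_le_right _ _)) (by linarith)
  have hβε : β ≤ ε := (min_le_right _ _).trans (min_le_left _ _)
  have hβ4 : β ≤ 1 / 4 := (min_le_right _ _).trans (min_le_right _ _)
  have hkR : (2 : ℝ) ≤ k := by exact_mod_cast hk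
  set τ : ℝ := min (1 / (32 * (2 * (k : ℝ) + 1))) (β / 4) with hτd
  have hτ0 : 0 < τ := lt_min (by positivity) (by positivity)
  have hτ1 : 32 * (2 * (k : ℝ) + 1) * τ ≤ 1 := by
    have : τ ≤ 1 / (32 * (2 * (k : ℝ) + 1)) := min_le_left _ _
    rw [le_div_iff₀ (by positivity)] at this
    linarith
  have hτβ : τ ≤ β / 4 := min_le_right _ _
  -- parameters
  obtain ⟨H, σ₁, H₁, hH, hσ₁, hσρ, hH₁, hper₁, hHH⟩ : ∃ H σ₁ H₁ : ℝ, 0 < H ∧ 0 < σ₁ ∧
      σ₁ < 2 * (k : ℝ) ∧ 0 ≤ H₁ ∧ (H₁ = 0 ∨ exp (σ₁ * Real.pi * I) = 1) ∧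
      ∀ w : ℂ, (H : ℂ) * exp (((2 * (k : ℝ) : ℝ) : ℂ) * w) + H₁ * exp (σ₁ * w) =
        exp (w) ^ (2 * k) + exp w ^ 4 := by
    have hp : ∀ w : ℂ, exp (((2 * (k : ℝ) : ℝ) : ℂ) * w) = exp w ^ (2 * k) := by
      intro w
      rw [← Complex.exp_nat_mul]
      push_cast
      rfl
    rcases hk.eq_or_lt with h2 | h3
    · refine ⟨2, 1, 0, by norm_num, one_pos, by rw [← h2]; norm_num, le_rfl, Or.inl rfl, fun w => ?_⟩
      rw [hp, ← h2]
      push_cast
      ring
    · have hk3 : (3 : ℝ) ≤ k := by exact_mod_cast h3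
      refine ⟨1, 4, 1, one_pos, by norm_num, by linarith, zero_le_one, Or.inr ?_, fun w => ?_⟩
      · have := IE_exp_even 2
        convert this using 3
        push_cast
        norm_num
      · rw [hp]
        have : exp (((4 : ℝ) : ℂ) * w) = exp w ^ 4 := by
          rw [← Complex.exp_nat_mul]
          push_cast
          rfl
        rw [this]
        push_cast
        ring
  have hbase := IE_base k hk H σ₁ H₁ τ e₁ hτ0 he₁ he4 hHH
  have h3 := hK3 β hβ0 hβb1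
  obtain ⟨f, hf, hδ⟩ := lower_main (2 * (k : ℝ)) H σ₁ H₁ Real.pi τ Real.pi 3
    {θ : ℝ | |θ - Real.pi / 2| ≤ e₁} _ _ hbase (by norm_num) (by push_cast; linarith) hH hσ₁ hσρ hH₁
    (by linarith) le_rfl (by intro h; linarith) hτ0 hτ1 (fun h => absurd h (lt_irrefl _))
    (by exact_mod_cast IE_exp_even k) hper₁
    (by
      have : Real.cos (((3 : ℕ) : ℝ) * Real.pi) = -1 := by
        have e : ((3 : ℕ) : ℝ) * Real.pi = Real.pi + 2 * Real.pi := by push_cast; ring
        rw [e, Real.cos_add_two_pi, Real.cos_pi]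
      rw [this]; norm_num)
    (by
      intro θ hθ
      have := abs_le.1 (show |θ - Real.pi / 2| ≤ e₁ from hθ)
      constructor <;> linarith)
    (fun m => IE_pos k hk m)
    (Real.pi - β) 1 (β / 2) c₃ (Real.log (8 / 5)) (by linarith) (by linarith) one_pos h3.2 (by linarith)
    (by linarith)
    (by
      intro θ hθ
      right
      rw [abs_le]
      constructor <;> linarith [hθ.1, hθ.2])
    (by
      intro θ hθ
      left
      have := abs_le.1 (show |θ - Real.pi / 2| ≤ e₁ from hθ)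
      rw [abs_le]
      constructor <;> linarith)
    hc₃ (fun θ hθ x M hM hM1 => hK4 β hβ0 hβb2 θ hθ x M hM hM1) h3.1
  refine ⟨f, hf, le_trans ?_ hδ⟩
  exact le_min (by linarith) (by linarith)

end Pool.Agent.helper74.LG
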