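import Pool.Agent.helper74.LG.IA

set_option autoImplicit false

namespace Pool.Agent.helper74.LG

open Complex Set Filter Topology MeasureTheory

/-- `ρ = 2k+1`, `k ≥ 2`: `Ψ = exp (z^(2k+1)) * FF ((2k+1)/k)` times `(1+z)^M`,
`θ₀ = 2πk/(2k+1)`, `d = 2`, `ψ = π`. -/
theorem lower_odd (k : ℕ) (hk : 2 ≤ k) :
    ∃ f ∈ Pool.Agent.helper38.Lac.Gord ((2 * (k : ℝ) + 1 : ℝ) : EReal) 2,
      Pool.Agent.helper38.Lac.delta f = Real.pi := by
  have hpi := Real.pi_pos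
  obtain ⟨ρ, hρ⟩ : ∃ ρ : ℝ, ρ = 2 * (k : ℝ) + 1 := ⟨_, rfl⟩
  have hk2' : (2 : ℝ) ≤ k := by exact_mod_cast hk
  have hk0 : (0 : ℝ) < k := by linarith
  have hρ0 : 0 < ρ := by linarith
  have hF0 : IA_Fac ρ 1 (fun z => exp (z ^ (2 * k + 1))) (fun w => exp (((2 * k + 1 : ℕ) : ℂ) * w)) := by
    have h := IA_fac_exp (2 * k + 1)
    have e : ((2 * k + 1 : ℕ) : ℝ) = ρ := by rw [hρ]; push_cast; ring
    rwa [e] at h
  have hθ : 2 * Real.pi / 3 < 2 * Real.pi * k / ρ := by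
    rw [div_lt_div_iff₀ (by norm_num) hρ0]
    have : ρ < 3 * k := by linarith
    nlinarith
  have hθ' : 2 * Real.pi * k / ρ < Real.pi := by
    rw [div_lt_iff₀ hρ0]
    nlinarith
  have hper := IA_per ρ (2 * Real.pi * k / ρ) k (by field_simp)
  have hπ : Real.cos (ρ * Real.pi) < 1 := by
    refine lt_of_le_of_ne (Real.cos_le_one _) fun he => ?_
    obtain ⟨j, hj⟩ := (Real.cos_eq_one_iff _).1 he
    have e1 : (j : ℝ) * 2 = ρ := by
      have : ((j : ℝ) * 2 - ρ) * Real.pi = 0 := by linarith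
      rcases mul_eq_zero.1 this with h | h
      · linarith
      · exact absurd h hpi.ne'
    rw [hρ] at e1
    have a1 : j * 2 = 2 * (k : ℤ) + 1 := by exact_mod_cast e1
    omega
  have b1 : 2 < ρ / k := by rw [lt_div_iff₀ hk0]; linarith
  have b2 : ρ / k < 3 := by rw [div_lt_iff₀ hk0]; linarith
  have hfl1 : ⌊ρ / k⌋₊ = 2 := by
    rw [Nat.floor_eq_iff (by linarith)]
    push_cast
    exact ⟨b1.le, by linarith⟩
  have hni1 : ∀ n : ℕ, ρ / k ≠ n := by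
    intro n hn
    rw [hn] at b1 b2
    have a1 : 2 < n := by exact_mod_cast b1
    have a2 : n < 3 := by exact_mod_cast b2
    omega
  obtain ⟨F₁, L₁, H₁, hF1, hsgn1⟩ := IA_fac_prod (ρ / k) (by linarith) hni1
  have hH₁ : 0 < H₁ := by
    rw [hfl1] at hsgn1
    simpa using hsgn1
  have key := IA_core ρ 1 (ρ / k) H₁ (ρ / k) (2 * Real.pi * k / ρ) _ _ F₁ L₁ hF0 hF1 one_pos
    hH₁.le (by linarith) (by rw [div_lt_iff₀ hk0]; nlinarith) b1
    (by rw [div_le_iff₀ hk0]; nlinarith) (Or.inr le_rfl) hθ hθ' hper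
    (Or.inr (IA_per (ρ / k) _ 1 (by push_cast; field_simp)))
    (fun θ a1 a2 a3 => IA_gpos k (by omega) ρ 1 (ρ / k) H₁ hρ0 (by linarith) one_pos hH₁.le
      (Or.inr ⟨hH₁, rfl⟩) θ a1 a2 a3) hπ
  rwa [hρ] at key

end Pool.Agent.helper74.LG
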