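import Pool.Agent.helper74.LG.Defs

set_option autoImplicit false

namespace Pool.Agent.helper74.LG

open Complex Set Filter Topology MeasureTheory

/-- Taylor series of an entire function. -/
theorem hasSum_coef {f : ℂ → ℂ} (hf : Differentiable ℂ f) (z : ℂ) :
    HasSum (fun m => coef f m * z ^ m) (f z) := by
  have h := Complex.hasSum_taylorSeries_of_entire hf 0 z
  have h2 : (fun m => coef f m * z ^ m) =
      fun n : ℕ => ((n.factorial : ℂ))⁻¹ • (z - 0) ^ n • iteratedDeriv n f 0 := by
    funext m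
    simp only [coef, sub_zero, smul_eq_mul]
    ring
  rw [h2]
  exact h

/-- Uniqueness of the coefficients. -/
theorem coef_eq_of_hasSum {f : ℂ → ℂ} {a : ℕ → ℂ} (h : ∀ z, HasSum (fun m => a m * z ^ m) (f z))
    (m : ℕ) : coef f m = a m := by
  have h1 : HasFPowerSeriesAt f (FormalMultilinearSeries.ofScalars ℂ a) 0 := by
    rw [hasFPowerSeriesAt_iff]
    refine Filter.Eventually.of_forall fun z => ?_
    have := h z
    simp only [FormalMultilinearSeries.coeff_ofScalars, smul_eq_mul, zero_add]
    have h2 : (fun n => z ^ n * a n) = fun m => a m * z ^ m := by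
      funext n
      ring
    rw [h2]
    exact this
  have h2 := h1.analyticAt.hasFPowerSeriesAt
  have h3 := h2.eq_formalMultilinearSeries h1
  have h4 := congrArg (fun p => p.coeff m) h3
  simp only [FormalMultilinearSeries.coeff_ofScalars] at h4
  exact h4

/-- The Taylor coefficients of a real entire function are real. -/
theorem coef_im {f : ℂ → ℂ} (hf : RealEnt f) (m : ℕ) : (coef f m).im = 0 := by
  have h1 : ∀ z, HasSum (fun m => (starRingEnd ℂ) (coef f m) * z ^ m) (f z) := by
    intro z
    have h2 := hasSum_coef hf.1 ((starRingEnd ℂ) z)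
    have h3 := h2.map (starRingEnd ℂ) Complex.continuous_conj
    rw [hf.2 z, Complex.conj_conj] at h3
    convert h3 using 1
    ext n
    simp
  have h4 := coef_eq_of_hasSum h1 m
  exact Complex.conj_eq_iff_im.mp h4.symm

/-- Cauchy's formula in logarithmic coordinates. -/
theorem coef_integral {f : ℂ → ℂ} (hf : Differentiable ℂ f) (m : ℕ) (s a : ℝ) :
    coef f m = (1 / (2 * Real.pi) : ℂ) * ∫ θ in a..(a + 2 * Real.pi),
      f (exp (s + θ * I)) * exp (-(m * (s + θ * I))) := by
  have hper : Function.Periodic (fun θ : ℝ => f (exp (s + θ * I)) * exp (-(m * (s + θ * I))))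
      (2 * Real.pi) := by
    intro θ
    have e1 : exp ((s : ℂ) + ((θ + 2 * Real.pi : ℝ) : ℂ) * I) = exp (s + θ * I) := by
      rw [show (s : ℂ) + ((θ + 2 * Real.pi : ℝ) : ℂ) * I = (s + θ * I) + 2 * Real.pi * I by
        push_cast; ring]
      exact Complex.exp_periodic _
    have e2 : ∀ w : ℂ, exp (-((m : ℂ) * w)) = (exp w)⁻¹ ^ m := by
      intro w
      rw [← mul_neg, Complex.exp_nat_mul, Complex.exp_neg]
    simp only [e2, e1]
  rw [hper.intervalIntegral_add_eq a 0, zero_add]
  have hR : 0 < Real.exp s := Real.exp_pos s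
  have hc := (hf.diffContOnCl (s := Metric.ball 0 (Real.exp s))).circleIntegral_one_div_sub_center_pow_smul
    hR m
  unfold circleIntegral at hc
  have e0 : (∫ θ in (0 : ℝ)..2 * Real.pi, deriv (circleMap 0 (Real.exp s)) θ •
      (fun z => (1 / (z - 0) ^ (m + 1)) • f z) (circleMap 0 (Real.exp s) θ)) =
      ∫ θ in (0 : ℝ)..2 * Real.pi, I * (f (exp (s + θ * I)) * exp (-(m * (s + θ * I)))) := by
    refine intervalIntegral.integral_congr fun θ _ => ?_
    have e1 : circleMap 0 (Real.exp s) θ = exp (s + θ * I) := by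
      rw [circleMap, zero_add, Complex.exp_add, Complex.ofReal_exp]
    have e2 : exp (-((m : ℂ) * (s + θ * I))) = (exp (s + θ * I))⁻¹ ^ m := by
      rw [← mul_neg, Complex.exp_nat_mul, Complex.exp_neg]
    have e3 : exp (s + θ * I) ≠ 0 := Complex.exp_ne_zero _
    simp only [deriv_circleMap, smul_eq_mul, sub_zero, e1, e2, inv_pow]
    generalize exp (s + θ * I) = z at e3 ⊢
    rw [pow_succ]
    field_simp
  rw [e0, intervalIntegral.integral_const_mul, smul_eq_mul] at hc
  unfold coef
  have hI : I ≠ 0 := Complex.I_ne_zero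
  have hpi : (Real.pi : ℂ) ≠ 0 := by exact_mod_cast Real.pi_ne_zero
  have h4 : (m.factorial : ℂ) ≠ 0 := by exact_mod_cast m.factorial_ne_zero
  have hc2 : I * (∫ θ in (0 : ℝ)..2 * Real.pi, f (exp (s + θ * I)) * exp (-(m * (s + θ * I)))) =
      I * (2 * Real.pi / (m.factorial : ℂ) * iteratedDeriv m f 0) := by
    rw [hc]
    ring
  rw [mul_left_cancel₀ hI hc2]
  field_simp

/-- Product with a polynomial / another entire function: Cauchy product. -/
theorem coef_mul {f g : ℂ → ℂ} (hf : Differentiable ℂ f) (hg : Differentiable ℂ g) (m : ℕ) :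
    coef (fun z => f z * g z) m = ∑ k ∈ Finset.range (m + 1), coef f k * coef g (m - k) := by
  unfold coef
  have h1 := iteratedDeriv_mul (n := m) (x := (0 : ℂ)) (f := f) (g := g)
    (hf.contDiff.contDiffAt) (hg.contDiff.contDiffAt)
  have h2 : (fun z => f z * g z) = f * g := rfl
  rw [h2, h1, Finset.sum_div]
  refine Finset.sum_congr rfl fun k hk => ?_
  have hk' : k ≤ m := Nat.lt_succ_iff.mp (Finset.mem_range.mp hk)
  have h3 : (m.choose k : ℂ) * (k.factorial : ℂ) * ((m - k).factorial : ℂ) = (m.factorial : ℂ) := by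
    exact_mod_cast Nat.choose_mul_factorial_mul_factorial hk'
  have h4 : (m.factorial : ℂ) ≠ 0 := by exact_mod_cast m.factorial_ne_zero
  have h5 : (k.factorial : ℂ) ≠ 0 := by exact_mod_cast k.factorial_ne_zero
  have h6 : ((m - k).factorial : ℂ) ≠ 0 := by exact_mod_cast (m - k).factorial_ne_zero
  field_simp
  rw [← h3]
  ring

/-- Continuity of the coefficients with respect to uniform convergence on the unit circle. -/
theorem norm_coef_sub_le {f g : ℂ → ℂ} (hf : Differentiable ℂ f) (hg : Differentiable ℂ g)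
    (ε : ℝ) (h : ∀ z : ℂ, ‖z‖ = 1 → ‖f z - g z‖ ≤ ε) (m : ℕ) : ‖coef f m - coef g m‖ ≤ ε := by
  rw [coef_integral hf m 0 0, coef_integral hg m 0 0, ← mul_sub, ← intervalIntegral.integral_sub]
  · rw [norm_mul]
    have h1 : ‖∫ θ in (0 : ℝ)..(0 + 2 * Real.pi),
        (f (exp ((0 : ℝ) + θ * I)) * exp (-(m * ((0 : ℝ) + θ * I))) -
          g (exp ((0 : ℝ) + θ * I)) * exp (-(m * ((0 : ℝ) + θ * I))))‖ ≤
        ε * |0 + 2 * Real.pi - 0| := by
      refine intervalIntegral.norm_integral_le_of_norm_le_const fun θ _ => ?_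
      rw [← sub_mul, norm_mul]
      have e1 : ‖exp (((0 : ℝ) : ℂ) + θ * I)‖ = 1 := by
        rw [Complex.norm_exp]
        simp
      have e2 : ‖exp (-((m : ℂ) * (((0 : ℝ) : ℂ) + θ * I)))‖ = 1 := by
        rw [Complex.norm_exp]
        simp
      rw [e2, mul_one]
      exact h _ e1
    have hpi : 0 < Real.pi := Real.pi_pos
    have h2 : ‖(1 / (2 * Real.pi) : ℂ)‖ = 1 / (2 * Real.pi) := by
      rw [show (1 / (2 * Real.pi) : ℂ) = ((1 / (2 * Real.pi) : ℝ) : ℂ) by push_cast; ring]
      rw [Complex.norm_real, Real.norm_of_nonneg (by positivity)]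
    rw [h2]
    calc 1 / (2 * Real.pi) * _ ≤ 1 / (2 * Real.pi) * (ε * |0 + 2 * Real.pi - 0|) := by
          gcongr
      _ = ε := by
          rw [show (0 : ℝ) + 2 * Real.pi - 0 = 2 * Real.pi by ring, abs_of_pos (by positivity)]
          field_simp
  · have hc := hf.continuous
    exact Continuous.intervalIntegrable (by fun_prop) _ _
  · have hc := hg.continuous
    exact Continuous.intervalIntegrable (by fun_prop) _ _

end Pool.Agent.helper74.LG
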