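import Pool.Agent.helper74.LG.CF

set_option autoImplicit false

namespace Pool.Agent.helper74.LG

open Complex Set Filter Topology MeasureTheory

/-- The errors in the block formula: clusters below and above the `i`-th one. -/
theorem cfg_block (d : ℕ) (ψ Mb Ma ω : ℝ) (h : CC d ψ Mb Ma) (hω : 0 < ω) :
    ∃ t₀ : ℝ, 2 ≤ t₀ ∧ ∀ t, t₀ ≤ t → ∀ μ T A M, Cfg d (qc d ψ) Mb Ma t μ T A M →
      ∀ (i : ℕ) (x : ℝ), (∀ j, j + 1 = i → 3 / 2 * Real.log (T j) ≤ x) →
      x ≤ 2 / 3 * Real.log (T (i + 1)) →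
      ∑ j ∈ Finset.range i, (μ j : ℝ) * Real.exp ((d - 1) * (x - Real.log (T j))) ≤
        ω * A i * Real.exp (d * x) ∧
      Summable (fun j => (μ (i + 1 + j) : ℝ) *
        Real.exp ((d + 1) * (x - Real.log (T (i + 1 + j))))) ∧
      ∑' j, (μ (i + 1 + j) : ℝ) * Real.exp ((d + 1) * (x - Real.log (T (i + 1 + j)))) ≤
        ω * A i * Real.exp (d * x) := by
  obtain ⟨t₁, ht₁, hg⟩ := cfg_growth d ψ Mb Ma (1 / 8) h (by norm_num)
  have hMa : 0 < Ma := h.Mb0.trans_le h.MbMa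
  set Y : ℝ := 2 * Ma / ω with hY
  have hY0 : 0 < Y := by positivity
  refine ⟨max t₁ (max (Y ^ 4) (Y ^ 24)), ht₁.trans (le_max_left _ _), ?_⟩
  intro t ht μ T A M hc i x hx1 hx2
  obtain ⟨hA0, -, hT, hAe, hAl⟩ := hg t ((le_max_left _ _).trans ht) μ T A M hc
  have ht2 : 2 ≤ t := ht₁.trans ((le_max_left _ _).trans ht)
  have hY4 : Y ^ 4 ≤ t := (le_max_left _ _).trans ((le_max_right _ _).trans ht)
  have hY24 : Y ^ 24 ≤ t := (le_max_right _ _).trans ((le_max_right _ _).trans ht)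
  have htT : ∀ j, t ≤ T j := fun j =>
    le_trans (le_self_pow₀ (by linarith) (by positivity)) (hT j)
  have h1 : ∀ j, 1 ≤ T j := fun j => by linarith [htT j]
  have hT0 : ∀ j, 0 < T j := fun j => by linarith [h1 j]
  have hTm : ∀ j, T j ≤ T (j + 1) := fun j =>
    le_trans (le_self_pow₀ (h1 j) (by norm_num)) (hc.sp j)
  have hTd : ∀ j, 128 * T j ≤ T (j + 1) := by
    intro j
    refine le_trans ?_ (hc.sp j)
    have h2 : 2 ≤ T j := ht2.trans (htT j)
    have h7 : (128 : ℝ) ≤ T j ^ 7 := by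
      calc (128 : ℝ) = 2 ^ 7 := by norm_num
        _ ≤ T j ^ 7 := pow_le_pow_left₀ (by norm_num) h2 7
    calc 128 * T j ≤ T j ^ 7 * T j := mul_le_mul_of_nonneg_right h7 (hT0 j).le
      _ = T j ^ 8 := by ring
  have hAj : ∀ j, A j ≤ T j ^ (1 / 8 : ℝ) := by
    intro j
    rcases j with _ | j
    · rw [hc.A0]
      exact Real.one_le_rpow (h1 0) (by norm_num)
    · exact (hAe j).trans (Real.rpow_le_rpow (hT0 j).le (hTm j) (by norm_num))
  have hM0 : ∀ j, 0 < M j := fun j => h.Mb0.trans_le (hc.Mlo j)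
  have hexpl : ∀ j (a : ℝ), Real.exp (a * (x - Real.log (T j))) =
      Real.exp (a * x) * T j ^ (-a) := by
    intro j a
    rw [Real.rpow_def_of_pos (hT0 j), ← Real.exp_add]
    congr 1; ring
  -- lower clusters
  have termL : ∀ j, (μ j : ℝ) * Real.exp ((d - 1) * (x - Real.log (T j))) ≤
      Real.exp ((d - 1) * x) * (Ma * T j ^ (9 / 8 : ℝ)) := by
    intro j
    have hTj := hT0 j
    rw [hexpl, hc.mu j]
    have e1 : T j ^ d * T j ^ (-((d : ℝ) - 1)) = T j := by
      rw [← Real.rpow_natCast, ← Real.rpow_add hTj]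
      rw [show (d : ℝ) + -((d : ℝ) - 1) = 1 by ring, Real.rpow_one]
    have e2 : A j * T j ≤ T j ^ (9 / 8 : ℝ) := by
      calc A j * T j ≤ T j ^ (1 / 8 : ℝ) * T j := mul_le_mul_of_nonneg_right (hAj j) hTj.le
        _ = T j ^ (9 / 8 : ℝ) := by
          nth_rewrite 2 [← Real.rpow_one (T j)]
          rw [← Real.rpow_add hTj]; norm_num
    calc A j * M j * T j ^ d * (Real.exp ((d - 1) * x) * T j ^ (-((d : ℝ) - 1)))
        = Real.exp ((d - 1) * x) * (M j * (A j * (T j ^ d * T j ^ (-((d : ℝ) - 1))))) := by ring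
      _ = Real.exp ((d - 1) * x) * (M j * (A j * T j)) := by rw [e1]
      _ ≤ _ := by
          refine mul_le_mul_of_nonneg_left ?_ (Real.exp_pos _).le
          exact mul_le_mul (hc.Mhi j) e2 (mul_nonneg (hA0 j).le hTj.le) hMa.le
  have sumL : ∀ n, ∑ j ∈ Finset.range (n + 1), T j ^ (9 / 8 : ℝ) ≤ 2 * T n ^ (9 / 8 : ℝ) := by
    intro n
    induction n with
    | zero =>
      simp only [zero_add, Finset.sum_range_one]
      have : 0 < T 0 ^ (9 / 8 : ℝ) := Real.rpow_pos_of_pos (hT0 0) _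
      linarith
    | succ n ih =>
      rw [Finset.sum_range_succ]
      have : 2 * T n ^ (9 / 8 : ℝ) ≤ T (n + 1) ^ (9 / 8 : ℝ) := by
        have a1 : (2 * T n) ^ (9 / 8 : ℝ) ≤ T (n + 1) ^ (9 / 8 : ℝ) := by
          refine Real.rpow_le_rpow (by linarith [hT0 n]) ?_ (by norm_num)
          linarith [hTd n, hT0 n]
        refine le_trans ?_ a1
        rw [Real.mul_rpow (by norm_num) (hT0 n).le]
        refine mul_le_mul_of_nonneg_right ?_ (by have := hT0 n; positivity)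
        have := Real.rpow_le_rpow_of_exponent_le (show (1 : ℝ) ≤ 2 by norm_num)
          (show (1 : ℝ) ≤ 9 / 8 by norm_num)
        rwa [Real.rpow_one] at this
      linarith
  -- upper clusters
  have termU : ∀ j, (μ j : ℝ) * Real.exp ((d + 1) * (x - Real.log (T j))) ≤
      Real.exp ((d + 1) * x) * (Ma * T j ^ (-(7 / 8) : ℝ)) := by
    intro j
    have hTj := hT0 j
    rw [hexpl, hc.mu j]
    have e1 : T j ^ d * T j ^ (-((d : ℝ) + 1)) = T j ^ (-1 : ℝ) := by
      rw [← Real.rpow_natCast, ← Real.rpow_add hTj]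
      congr 1; ring
    have e2 : A j * T j ^ (-1 : ℝ) ≤ T j ^ (-(7 / 8) : ℝ) := by
      calc A j * T j ^ (-1 : ℝ) ≤ T j ^ (1 / 8 : ℝ) * T j ^ (-1 : ℝ) :=
            mul_le_mul_of_nonneg_right (hAj j) (Real.rpow_pos_of_pos hTj _).le
        _ = T j ^ (-(7 / 8) : ℝ) := by
          rw [← Real.rpow_add hTj]; norm_num
    calc A j * M j * T j ^ d * (Real.exp ((d + 1) * x) * T j ^ (-((d : ℝ) + 1)))
        = Real.exp ((d + 1) * x) * (M j * (A j * (T j ^ d * T j ^ (-((d : ℝ) + 1))))) := by ring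
      _ = Real.exp ((d + 1) * x) * (M j * (A j * T j ^ (-1 : ℝ))) := by rw [e1]
      _ ≤ _ := by
          refine mul_le_mul_of_nonneg_left ?_ (Real.exp_pos _).le
          refine mul_le_mul (hc.Mhi j) e2 (mul_nonneg (hA0 j).le ?_) hMa.le
          exact (Real.rpow_pos_of_pos hTj _).le
  have growU : ∀ k, T (i + 1) * 128 ^ k ≤ T (i + 1 + k) := by
    intro k
    induction k with
    | zero => simp
    | succ k ih =>
      rw [pow_succ, ← add_assoc]
      have := hTd (i + 1 + k)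
      nlinarith
  have termU2 : ∀ k, (μ (i + 1 + k) : ℝ) *
      Real.exp ((d + 1) * (x - Real.log (T (i + 1 + k)))) ≤
      Real.exp ((d + 1) * x) * (Ma * T (i + 1) ^ (-(7 / 8) : ℝ)) * (1 / 2) ^ k := by
    intro k
    refine (termU (i + 1 + k)).trans ?_
    have hTi := hT0 (i + 1)
    have a1 : T (i + 1 + k) ^ (-(7 / 8) : ℝ) ≤ T (i + 1) ^ (-(7 / 8) : ℝ) * (1 / 2) ^ k := by
      have a2 : T (i + 1 + k) ^ (-(7 / 8) : ℝ) ≤ (T (i + 1) * 128 ^ k) ^ (-(7 / 8) : ℝ) :=
        Real.rpow_le_rpow_of_nonpos (by positivity) (growU k) (by norm_num)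
      refine a2.trans ?_
      rw [Real.mul_rpow hTi.le (by positivity)]
      refine mul_le_mul_of_nonneg_left ?_ (Real.rpow_pos_of_pos hTi _).le
      have a3 : ((128 : ℝ) ^ k) ^ (-(7 / 8) : ℝ) = ((128 : ℝ) ^ (-(7 / 8) : ℝ)) ^ k := by
        rw [← Real.rpow_natCast, ← Real.rpow_natCast, ← Real.rpow_mul (by norm_num),
          ← Real.rpow_mul (by norm_num)]
        congr 1; ring
      rw [a3]
      refine pow_le_pow_left₀ (Real.rpow_pos_of_pos (by norm_num) _).le ?_ k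
      have a4 : (128 : ℝ) ^ (-(7 / 8) : ℝ) ≤ 128 ^ (-(1 / 7) : ℝ) :=
        Real.rpow_le_rpow_of_exponent_le (by norm_num) (by norm_num)
      refine a4.trans (le_of_eq ?_)
      rw [show (128 : ℝ) = 2 ^ (7 : ℝ) by norm_num, ← Real.rpow_mul (by norm_num)]
      rw [show (7 : ℝ) * -(1 / 7) = -1 by norm_num, Real.rpow_neg_one]; norm_num
    calc Real.exp ((d + 1) * x) * (Ma * T (i + 1 + k) ^ (-(7 / 8) : ℝ))
        ≤ Real.exp ((d + 1) * x) * (Ma * (T (i + 1) ^ (-(7 / 8) : ℝ) * (1 / 2) ^ k)) := by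
          refine mul_le_mul_of_nonneg_left ?_ (Real.exp_pos _).le
          exact mul_le_mul_of_nonneg_left a1 hMa.le
      _ = _ := by ring
  have hgeo : HasSum (fun j : ℕ => ((1 : ℝ) / 2) ^ j) 2 := by
    simpa using hasSum_geometric_two
  have hsumU : Summable (fun j => (μ (i + 1 + j) : ℝ) *
        Real.exp ((d + 1) * (x - Real.log (T (i + 1 + j))))) :=
    Summable.of_nonneg_of_le (fun j => by positivity) termU2 (hgeo.summable.mul_left _)
  have hAi0 := hA0 i
  refine ⟨?_, hsumU, ?_⟩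
  · rcases i with _ | n
    · simp only [Finset.range_zero, Finset.sum_empty]
      positivity
    · have hx := hx1 n rfl
      have hTn := hT0 n
      have b1 : ∑ j ∈ Finset.range (n + 1), (μ j : ℝ) *
          Real.exp ((d - 1) * (x - Real.log (T j))) ≤
          Real.exp ((d - 1) * x) * (Ma * (2 * T n ^ (9 / 8 : ℝ))) := by
        calc ∑ j ∈ Finset.range (n + 1), (μ j : ℝ) * Real.exp ((d - 1) * (x - Real.log (T j)))
            ≤ ∑ j ∈ Finset.range (n + 1), Real.exp ((d - 1) * x) * (Ma * T j ^ (9 / 8 : ℝ)) :=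
              Finset.sum_le_sum (fun j _ => termL j)
          _ = Real.exp ((d - 1) * x) * (Ma * ∑ j ∈ Finset.range (n + 1), T j ^ (9 / 8 : ℝ)) := by
              rw [← Finset.mul_sum, ← Finset.mul_sum]
          _ ≤ _ := by
              refine mul_le_mul_of_nonneg_left ?_ (Real.exp_pos _).le
              exact mul_le_mul_of_nonneg_left (sumL n) hMa.le
      refine b1.trans ?_
      have b2 : Real.exp (d * x) = Real.exp ((d - 1) * x) * Real.exp x := by
        rw [← Real.exp_add]; congr 1; ring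
      have b3 : T n ^ (3 / 2 : ℝ) ≤ Real.exp x := by
        rw [Real.rpow_def_of_pos hTn]
        exact Real.exp_le_exp.2 (by linarith)
      have b4 : T n ^ (-(1 / 8) : ℝ) ≤ A (n + 1) := hAl n
      have b5 : 2 * Ma ≤ ω * T n ^ (1 / 4 : ℝ) := by
        have c1 : Y ≤ T n ^ (1 / 4 : ℝ) := by
          have c2 : Y ^ 4 ≤ T n := hY4.trans (htT n)
          have c3 := Real.rpow_le_rpow (by positivity) c2 (show (0 : ℝ) ≤ 1 / 4 by norm_num)
          rw [← Real.rpow_natCast, ← Real.rpow_mul hY0.le] at c3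
          norm_num at c3
          exact c3
        rw [hY, div_le_iff₀ hω] at c1
        linarith
      have b6 : T n ^ (-(1 / 8) : ℝ) * T n ^ (3 / 2 : ℝ) = T n ^ (1 / 4 : ℝ) * T n ^ (9 / 8 : ℝ) := by
        rw [← Real.rpow_add hTn, ← Real.rpow_add hTn]; norm_num
      have b7 : 0 < T n ^ (9 / 8 : ℝ) := Real.rpow_pos_of_pos hTn _
      have b8 : T n ^ (-(1 / 8) : ℝ) * T n ^ (3 / 2 : ℝ) ≤ A (n + 1) * Real.exp x :=
        mul_le_mul b4 b3 (Real.rpow_pos_of_pos hTn _).le hAi0.le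
      calc Real.exp ((d - 1) * x) * (Ma * (2 * T n ^ (9 / 8 : ℝ)))
          = Real.exp ((d - 1) * x) * ((2 * Ma) * T n ^ (9 / 8 : ℝ)) := by ring
        _ ≤ Real.exp ((d - 1) * x) * ((ω * T n ^ (1 / 4 : ℝ)) * T n ^ (9 / 8 : ℝ)) := by
            refine mul_le_mul_of_nonneg_left ?_ (Real.exp_pos _).le
            exact mul_le_mul_of_nonneg_right b5 b7.le
        _ = Real.exp ((d - 1) * x) * (ω * (T n ^ (-(1 / 8) : ℝ) * T n ^ (3 / 2 : ℝ))) := by
            rw [b6]; ring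
        _ ≤ Real.exp ((d - 1) * x) * (ω * (A (n + 1) * Real.exp x)) := by
            refine mul_le_mul_of_nonneg_left ?_ (Real.exp_pos _).le
            exact mul_le_mul_of_nonneg_left b8 hω.le
        _ = ω * A (n + 1) * Real.exp (d * x) := by rw [b2]; ring
  · have hTi := hT0 (i + 1)
    have b1 : ∑' j, (μ (i + 1 + j) : ℝ) * Real.exp ((d + 1) * (x - Real.log (T (i + 1 + j)))) ≤
        Real.exp ((d + 1) * x) * (Ma * T (i + 1) ^ (-(7 / 8) : ℝ)) * 2 := by
      calc _ ≤ ∑' j : ℕ, Real.exp ((d + 1) * x) * (Ma * T (i + 1) ^ (-(7 / 8) : ℝ)) *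
            (1 / 2) ^ j := hsumU.tsum_le_tsum termU2 (hgeo.summable.mul_left _)
        _ = _ := by rw [tsum_mul_left, hgeo.tsum_eq]
    refine b1.trans ?_
    have b2 : Real.exp ((d + 1) * x) = Real.exp (d * x) * Real.exp x := by
      rw [← Real.exp_add]; congr 1; ring
    have b3 : Real.exp x ≤ T (i + 1) ^ (2 / 3 : ℝ) := by
      rw [Real.rpow_def_of_pos hTi]
      exact Real.exp_le_exp.2 (by linarith)
    have b4 : T (i + 1) ^ (-(1 / 8) : ℝ) ≤ A i := by
      rcases i with _ | n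
      · rw [hc.A0]
        exact Real.rpow_le_one_of_one_le_of_nonpos (h1 _) (by norm_num)
      · refine le_trans ?_ (hAl n)
        exact Real.rpow_le_rpow_of_nonpos (hT0 n) ((hTm n).trans (hTm (n + 1))) (by norm_num)
    have b5 : 2 * Ma ≤ ω * T (i + 1) ^ (1 / 12 : ℝ) := by
      have c1 : Y ≤ T (i + 1) ^ (1 / 24 : ℝ) := by
        have c2 : Y ^ 24 ≤ T (i + 1) := hY24.trans (htT _)
        have c3 := Real.rpow_le_rpow (by positivity) c2 (show (0 : ℝ) ≤ 1 / 24 by norm_num)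
        rw [← Real.rpow_natCast, ← Real.rpow_mul hY0.le] at c3
        norm_num at c3
        exact c3
      have c4 : T (i + 1) ^ (1 / 24 : ℝ) ≤ T (i + 1) ^ (1 / 12 : ℝ) :=
        Real.rpow_le_rpow_of_exponent_le (h1 _) (by norm_num)
      have c5 := c1.trans c4
      rw [hY, div_le_iff₀ hω] at c5
      linarith
    have b7 : 0 < T (i + 1) ^ (-(7 / 8) : ℝ) := Real.rpow_pos_of_pos hTi _
    have b8 : 0 < T (i + 1) ^ (2 / 3 : ℝ) := Real.rpow_pos_of_pos hTi _
    have b6 : T (i + 1) ^ (1 / 12 : ℝ) * T (i + 1) ^ (-(7 / 8) : ℝ) * T (i + 1) ^ (2 / 3 : ℝ) =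
        T (i + 1) ^ (-(1 / 8) : ℝ) := by
      rw [← Real.rpow_add hTi, ← Real.rpow_add hTi]; norm_num
    calc Real.exp ((d + 1) * x) * (Ma * T (i + 1) ^ (-(7 / 8) : ℝ)) * 2
        = Real.exp (d * x) * ((2 * Ma) * T (i + 1) ^ (-(7 / 8) : ℝ) * Real.exp x) := by
          rw [b2]; ring
      _ ≤ Real.exp (d * x) * ((ω * T (i + 1) ^ (1 / 12 : ℝ)) * T (i + 1) ^ (-(7 / 8) : ℝ) *
            T (i + 1) ^ (2 / 3 : ℝ)) := by
          refine mul_le_mul_of_nonneg_left ?_ (Real.exp_pos _).le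
          refine mul_le_mul ?_ b3 (Real.exp_pos _).le (by positivity)
          exact mul_le_mul_of_nonneg_right b5 b7.le
      _ = Real.exp (d * x) * (ω * (T (i + 1) ^ (1 / 12 : ℝ) * T (i + 1) ^ (-(7 / 8) : ℝ) *
            T (i + 1) ^ (2 / 3 : ℝ))) := by ring
      _ ≤ Real.exp (d * x) * (ω * A i) := by
          rw [b6]
          refine mul_le_mul_of_nonneg_left ?_ (Real.exp_pos _).le
          exact mul_le_mul_of_nonneg_left b4 hω.le
      _ = ω * A i * Real.exp (d * x) := by ring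

end Pool.Agent.helper74.LG
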