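import Pool.Agent.helper74.LG.Defs2

set_option autoImplicit false

namespace Pool.Agent.helper74.LG

open Complex Set Filter Topology MeasureTheory

/-- Growth of a sparse configuration. -/
theorem cfg_growth (d : ℕ) (ψ Mb Ma ε : ℝ) (h : CC d ψ Mb Ma) (hε : 0 < ε) :
    ∃ t₀ : ℝ, 2 ≤ t₀ ∧ ∀ t, t₀ ≤ t → ∀ μ T A M, Cfg d (qc d ψ) Mb Ma t μ T A M →
      (∀ j, 0 < A j) ∧ (∀ j, 0 < μ j) ∧ (∀ j, t ^ (8 ^ j) ≤ T j) ∧
      (∀ j, A (j + 1) ≤ T j ^ ε) ∧ (∀ j, T j ^ (-ε) ≤ A (j + 1)) := by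
  set q : ℝ := qc d ψ with hq
  have hMa : 0 < Ma := h.Mb0.trans_le h.MbMa
  set b : ℝ := min 1 (1 + q * Ma) with hb
  set B : ℝ := 1 + |q| * Ma with hB
  have hb0 : 0 < b := lt_min one_pos h.Q
  have hB1 : 1 ≤ B := by
    have : 0 ≤ |q| * Ma := by positivity
    linarith
  set X : ℝ := max B (1 / b) with hX
  have hX1 : 1 ≤ X := hB1.trans (le_max_left _ _)
  refine ⟨max 2 (X ^ (1 / ε)), le_max_left _ _, ?_⟩
  intro t ht μ T A M hc
  have ht2 : 2 ≤ t := (le_max_left _ _).trans ht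
  have htX : X ^ (1 / ε) ≤ t := (le_max_right _ _).trans ht
  have htε : X ≤ t ^ ε := by
    have h1 := Real.rpow_le_rpow (by positivity) htX hε.le
    rw [← Real.rpow_mul (by linarith), one_div, inv_mul_cancel₀ hε.ne', Real.rpow_one] at h1
    exact h1
  have hfac : ∀ j, b ≤ 1 + q * M j ∧ 1 + q * M j ≤ B := by
    intro j
    have h1 := hc.Mlo j
    have h2 := hc.Mhi j
    have h3 : 0 < M j := h.Mb0.trans_le h1
    constructor
    · rcases le_or_gt 0 q with h4 | h4
      · exact (min_le_left _ _).trans (by nlinarith)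
      · exact (min_le_right _ _).trans (by nlinarith)
    · have h4 : q * M j ≤ |q| * Ma :=
        (mul_le_mul_of_nonneg_right (le_abs_self q) h3.le).trans
          (mul_le_mul_of_nonneg_left h2 (abs_nonneg q))
      linarith
  have hA : ∀ j, b ^ j ≤ A j ∧ A j ≤ B ^ j := by
    intro j
    induction j with
    | zero => rw [hc.A0]; simp
    | succ j ih =>
      obtain ⟨h1, h2⟩ := ih
      obtain ⟨h3, h4⟩ := hfac j
      have h5 : 0 < A j := (pow_pos hb0 j).trans_le h1
      rw [hc.As, pow_succ, pow_succ]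
      exact ⟨mul_le_mul h1 h3 hb0.le h5.le, mul_le_mul h2 h4 (hb0.le.trans h3) (by positivity)⟩
  have hApos : ∀ j, 0 < A j := fun j => (pow_pos hb0 j).trans_le (hA j).1
  have hT : ∀ j, t ^ (8 ^ j) ≤ T j := by
    intro j
    induction j with
    | zero => simpa using hc.t0
    | succ j ih =>
      refine le_trans ?_ (hc.sp j)
      rw [pow_succ, pow_mul]
      exact pow_le_pow_left₀ (by positivity) ih 8
  have hTpos : ∀ j, 0 < T j := fun j => (by positivity : (0:ℝ) < t ^ (8 ^ j)).trans_le (hT j)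
  have hTε : ∀ j, X ^ (j + 1) ≤ T j ^ ε := by
    intro j
    have h1 : j + 1 ≤ 8 ^ j := Nat.lt_pow_self (by norm_num)
    calc X ^ (j + 1) ≤ (t ^ ε) ^ (j + 1) := pow_le_pow_left₀ (by linarith) htε _
      _ = (t ^ (j + 1)) ^ ε := by
          rw [← Real.rpow_natCast, ← Real.rpow_mul (by linarith), ← Real.rpow_natCast,
            ← Real.rpow_mul (by linarith), mul_comm]
      _ ≤ (t ^ (8 ^ j)) ^ ε :=
          Real.rpow_le_rpow (by positivity) (pow_le_pow_right₀ (by linarith) h1) hε.le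
      _ ≤ T j ^ ε := Real.rpow_le_rpow (by positivity) (hT j) hε.le
  refine ⟨hApos, ?_, hT, ?_, ?_⟩
  · intro j
    have h1 : (0:ℝ) < (μ j : ℝ) := by
      rw [hc.mu j]
      have := hApos j
      have h2 : 0 < M j := h.Mb0.trans_le (hc.Mlo j)
      have := hTpos j
      positivity
    exact_mod_cast h1
  · intro j
    refine (hA (j + 1)).2.trans (le_trans ?_ (hTε j))
    exact pow_le_pow_left₀ (by linarith) (le_max_left _ _) _
  · intro j
    refine le_trans ?_ (hA (j + 1)).1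
    rw [Real.rpow_neg (hTpos j).le]
    have h1 : (1 / b) ^ (j + 1) ≤ T j ^ ε :=
      (pow_le_pow_left₀ (by positivity) (le_max_right _ _) _).trans (hTε j)
    have h2 := inv_anti₀ (by positivity) h1
    refine h2.trans (le_of_eq ?_)
    rw [one_div, inv_pow, inv_inv]

end Pool.Agent.helper74.LG
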