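import Pool.Agent.helper74.LG.CG
import Pool.Agent.helper74.LG.CS

set_option autoImplicit false

namespace Pool.Agent.helper74.LG

open Complex Set Filter Topology MeasureTheory

theorem EN_factor {C r : ℝ} (hC : 0 < C) (hr : 0 ≤ r) {a : ℂ} (h1 : ‖a‖ ≤ Real.exp (C * r))
    (h3 : ‖a - 1‖ ≤ C * r * Real.exp (C * r)) {n : ℕ} (hn : 0 < n) :
    ‖a ^ n - 1‖ ≤ C * ((n : ℝ) * r) * Real.exp (2 * C * ((n : ℝ) * r)) := by
  have hn1 : (1 : ℝ) ≤ n := by exact_mod_cast hn
  have hrn : r ≤ (n : ℝ) * r := by nlinarith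
  have hnr : 0 ≤ (n : ℝ) * r := by positivity
  have e : a ^ n - 1 = (a - 1) * ∑ i ∈ Finset.range n, a ^ i := (mul_geom_sum a n).symm
  rw [e, norm_mul]
  have hE1 : 1 ≤ Real.exp (C * r) := Real.one_le_exp (by positivity)
  have hsum : ‖∑ i ∈ Finset.range n, a ^ i‖ ≤ (n : ℝ) * Real.exp (C * ((n : ℝ) * r)) := by
    calc ‖∑ i ∈ Finset.range n, a ^ i‖ ≤ ∑ i ∈ Finset.range n, Real.exp (C * ((n : ℝ) * r)) := by
          refine norm_sum_le_of_le _ fun i hi => ?_
          rw [norm_pow]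
          calc ‖a‖ ^ i ≤ Real.exp (C * r) ^ i := pow_le_pow_left₀ (norm_nonneg _) h1 i
            _ ≤ Real.exp (C * r) ^ n := pow_le_pow_right₀ hE1 (Finset.mem_range.mp hi).le
            _ = Real.exp (C * ((n : ℝ) * r)) := by
              rw [← Real.exp_nat_mul]
              ring_nf
      _ = (n : ℝ) * Real.exp (C * ((n : ℝ) * r)) := by
          rw [Finset.sum_const, Finset.card_range, nsmul_eq_mul]
  have h4 : ‖a - 1‖ ≤ C * r * Real.exp (C * ((n : ℝ) * r)) := by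
    refine le_trans h3 ?_
    refine mul_le_mul_of_nonneg_left ?_ (by positivity)
    exact Real.exp_le_exp.mpr (mul_le_mul_of_nonneg_left hrn hC.le)
  calc ‖a - 1‖ * ‖∑ i ∈ Finset.range n, a ^ i‖ ≤
      (C * r * Real.exp (C * ((n : ℝ) * r))) * ((n : ℝ) * Real.exp (C * ((n : ℝ) * r))) :=
        mul_le_mul h4 hsum (norm_nonneg _) (by positivity)
    _ = C * ((n : ℝ) * r) * Real.exp (2 * C * ((n : ℝ) * r)) := by
      have : Real.exp (2 * C * ((n : ℝ) * r)) =
          Real.exp (C * ((n : ℝ) * r)) * Real.exp (C * ((n : ℝ) * r)) := by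
        rw [← Real.exp_add]
        ring_nf
      rw [this]
      ring

theorem EN_exp_sub_one (u : ℝ) : Real.exp u - 1 ≤ u * Real.exp u := by
  have h := Real.add_one_le_exp (-u)
  have h2 : (-u + 1) * Real.exp u ≤ Real.exp (-u) * Real.exp u :=
    mul_le_mul_of_nonneg_right h (Real.exp_nonneg _)
  rw [← Real.exp_add, neg_add_cancel, Real.exp_zero] at h2
  linarith

/-- The functions of the family are real entire functions; their zeros; an upper bound of the
infinite product. -/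
theorem fam_facts (d : ℕ) (ψ Mb Ma ε : ℝ) (h : CC d ψ Mb Ma) (hε : 0 < ε) :
    ∃ t₀ C : ℝ, 2 ≤ t₀ ∧ 0 < C ∧ ∀ t, t₀ ≤ t → ∀ μ T A M, Cfg d (qc d ψ) Mb Ma t μ T A M →
      (∀ Ψ, RealEnt Ψ → RealEnt (fam Ψ d ψ μ T)) ∧
      (∀ Ψ z, fam Ψ d ψ μ T z = 0 ↔
        Ψ z = 0 ∨ ∃ j, z = T j * exp (ψ * I) ∨ z = T j * exp (-(ψ * I))) ∧
      (∀ z : ℂ, 1 ≤ ‖z‖ → ‖∏' j, cl d ψ (z / T j) ^ μ j‖ ≤
        Real.exp (C * ‖z‖ ^ ((d : ℝ) + ε))) ∧
      (∀ z : ℂ, ‖z‖ ≤ 1 → ‖(∏' j, cl d ψ (z / T j) ^ μ j) - 1‖ ≤ C / Real.sqrt t) := by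
  obtain ⟨C, hC, hcl⟩ := cl_facts d h.hd ψ
  obtain ⟨t₁, C₁, ht₁, hC₁, hsum⟩ := cfg_sum d ψ Mb Ma ε h hε
  obtain ⟨t₂, ht₂, hgr⟩ := cfg_growth d ψ Mb Ma ε h hε
  set D : ℝ := C * C₁ * Real.exp (2 * C * C₁) with hD
  have hD0 : 0 < D := by positivity
  refine ⟨max t₁ t₂, max (C * C₁) (D * Real.exp D), le_trans ht₁ (le_max_left _ _),
    lt_max_of_lt_left (by positivity), ?_⟩
  intro t ht μ T A M hcfg
  obtain ⟨hs1, hs2, hs3⟩ := hsum t (le_trans (le_max_left _ _) ht) μ T A M hcfg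
  obtain ⟨-, hμ, hT, -, -⟩ := hgr t (le_trans (le_max_right _ _) ht) μ T A M hcfg
  have ht2 : 2 ≤ t := le_trans ht₁ (le_trans (le_max_left _ _) ht)
  have hT0 : ∀ j, 0 < T j := fun j => lt_of_lt_of_le (by positivity) (hT j)
  have hsq : 1 ≤ Real.sqrt t := by
    rw [Real.one_le_sqrt]
    linarith
  have hsq0 : 0 < Real.sqrt t := by linarith
  -- the summable majorant
  let y : ℝ → ℕ → ℝ := fun r j => (μ j : ℝ) * (r / T j) ^ (d + 1)
  have hy0 : ∀ r, 0 ≤ r → ∀ j, 0 ≤ y r j := by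
    intro r hr j
    have := (hT0 j).le
    positivity
  have hys : ∀ r, 0 ≤ r → Summable (y r) := fun r hr => (hs3 r hr).1
  have hyt : ∀ r, 0 ≤ r → ∑' j, y r j ≤ C₁ * r ^ (d + 1) / Real.sqrt t := fun r hr => (hs3 r hr).2
  have hyt' : ∀ r, 0 ≤ r → ∑' j, y r j ≤ C₁ * r ^ (d + 1) := fun r hr =>
    le_trans (hyt r hr) (div_le_self (by positivity) hsq)
  have hymono : ∀ r s, 0 ≤ r → r ≤ s → ∀ j, y r j ≤ y s j := by
    intro r s hr hrs j
    have h0 := (hT0 j)
    refine mul_le_mul_of_nonneg_left ?_ (Nat.cast_nonneg _)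
    exact pow_le_pow_left₀ (by positivity) (div_le_div_of_nonneg_right hrs h0.le) _
  have hnormdiv : ∀ (z : ℂ) j, ‖z / (T j : ℂ)‖ = ‖z‖ / T j := by
    intro z j
    rw [norm_div, Complex.norm_real, Real.norm_eq_abs, abs_of_pos (hT0 j)]
  have hfac : ∀ (R : ℝ) (z : ℂ) j, ‖z‖ ≤ R → ‖cl d ψ (z / T j) ^ μ j - 1‖ ≤
      (C * Real.exp (2 * C * (C₁ * R ^ (d + 1)))) * y R j := by
    intro R z j hz
    have hR : 0 ≤ R := le_trans (norm_nonneg z) hz
    obtain ⟨c1, c2, c3⟩ := hcl (z / T j)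
    rw [hnormdiv] at c1 c2 c3
    have hr0 : 0 ≤ (‖z‖ / T j) ^ (d + 1) := by
      have := (hT0 j).le
      positivity
    have h1 := EN_factor hC hr0 c1 c3 (hμ j)
    have h2 : (μ j : ℝ) * (‖z‖ / T j) ^ (d + 1) ≤ y R j := hymono _ _ (norm_nonneg z) hz j
    have h3 : y R j ≤ C₁ * R ^ (d + 1) :=
      le_trans ((hys R hR).le_tsum j (fun i _ => hy0 R hR i)) (hyt' R hR)
    refine le_trans h1 ?_
    have h4 : Real.exp (2 * C * ((μ j : ℝ) * (‖z‖ / T j) ^ (d + 1))) ≤
        Real.exp (2 * C * (C₁ * R ^ (d + 1))) :=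
      Real.exp_le_exp.mpr (mul_le_mul_of_nonneg_left (le_trans h2 h3) (by positivity))
    calc C * ((μ j : ℝ) * (‖z‖ / T j) ^ (d + 1)) *
        Real.exp (2 * C * ((μ j : ℝ) * (‖z‖ / T j) ^ (d + 1)))
        ≤ C * y R j * Real.exp (2 * C * (C₁ * R ^ (d + 1))) :=
          mul_le_mul (mul_le_mul_of_nonneg_left h2 hC.le) h4 (Real.exp_nonneg _)
            (mul_nonneg hC.le (hy0 R hR j))
      _ = _ := by ring
  have hsn : ∀ z : ℂ, Summable fun j => ‖cl d ψ (z / T j) ^ μ j - 1‖ := by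
    intro z
    refine Summable.of_nonneg_of_le (fun _ => norm_nonneg _)
      (fun j => hfac ‖z‖ z j le_rfl) ((hys ‖z‖ (norm_nonneg z)).mul_left _)
  have heq : ∀ (z : ℂ) j, 1 + (cl d ψ (z / T j) ^ μ j - 1) = cl d ψ (z / T j) ^ μ j := by
    intro z j
    ring
  have hmul : ∀ z : ℂ, Multipliable fun j => cl d ψ (z / T j) ^ μ j := by
    intro z
    have := multipliable_one_add_of_summable (hsn z)
    simpa only [heq] using this
  -- differentiability of the product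
  have hdiff : Differentiable ℂ fun z : ℂ => ∏' j, cl d ψ (z / T j) ^ μ j := by
    intro z₀
    have hd : DifferentiableOn ℂ (fun z : ℂ => ∏' j, cl d ψ (z / T j) ^ μ j)
        (Metric.ball 0 (‖z₀‖ + 1)) := by
      have hR : (0 : ℝ) ≤ ‖z₀‖ + 1 := by positivity
      have hdj : ∀ j, Differentiable ℂ fun z : ℂ => cl d ψ (z / T j) ^ μ j := by
        intro j
        exact ((cl_differentiable d ψ).comp (differentiable_id.div_const _)).pow _
      have hprod := Summable.hasProdLocallyUniformlyOn_nat_one_add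
        (f := fun j (z : ℂ) => cl d ψ (z / T j) ^ μ j - 1) (K := Metric.ball 0 (‖z₀‖ + 1))
        Metric.isOpen_ball ((hys (‖z₀‖ + 1) hR).mul_left
          (C * Real.exp (2 * C * (C₁ * (‖z₀‖ + 1) ^ (d + 1)))))
        (Eventually.of_forall fun j z hz => hfac _ z j (mem_ball_zero_iff.mp hz).le)
        (fun j => ((hdj j).continuous.sub continuous_const).continuousOn)
      simp only [heq] at hprod
      have h2 := hprod.tendstoLocallyUniformlyOn_finsetRange
      refine h2.differentiableOn (Eventually.of_forall fun n => ?_) Metric.isOpen_ball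
      refine DifferentiableOn.fun_finsetProd fun j _ => (hdj j).differentiableOn
    exact hd.differentiableAt (Metric.isOpen_ball.mem_nhds (by
      rw [mem_ball_zero_iff]
      linarith))
  refine ⟨?_, ?_, ?_, ?_⟩
  · -- real entire
    intro Ψ hΨ
    refine ⟨?_, ?_⟩
    · show Differentiable ℂ fun z => Ψ z * exp (z ^ d) * ∏' j, cl d ψ (z / T j) ^ μ j
      exact (hΨ.1.mul (by fun_prop)).mul hdiff
    · intro z
      show Ψ ((starRingEnd ℂ) z) * exp ((starRingEnd ℂ) z ^ d) *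
        (∏' j, cl d ψ ((starRingEnd ℂ) z / T j) ^ μ j) =
        (starRingEnd ℂ) (Ψ z * exp (z ^ d) * ∏' j, cl d ψ (z / T j) ^ μ j)
      rw [map_mul, map_mul, hΨ.2, ← Complex.exp_conj, map_pow]
      congr 1
      rw [(hmul z).map_tprod (starRingEnd ℂ) Complex.continuous_conj]
      refine tprod_congr fun j => ?_
      rw [map_pow, ← cl_conj, map_div₀, Complex.conj_ofReal]
  · -- zeros
    intro Ψ z
    have hz : (∏' j, cl d ψ (z / T j) ^ μ j) = 0 ↔
        ∃ j, z = T j * exp (ψ * I) ∨ z = T j * exp (-(ψ * I)) := by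
      have hTc : ∀ j, (T j : ℂ) ≠ 0 := fun j => by exact_mod_cast (hT0 j).ne'
      have hj : ∀ j, cl d ψ (z / T j) ^ μ j = 0 ↔
          z = T j * exp (ψ * I) ∨ z = T j * exp (-(ψ * I)) := by
        intro j
        rw [pow_eq_zero_iff (hμ j).ne', cl_eq_zero_iff, div_eq_iff (hTc j), div_eq_iff (hTc j),
          mul_comm, mul_comm (exp (-(ψ * I)))]
      constructor
      · intro h0
        by_contra hcon
        push Not at hcon
        have := tprod_one_add_ne_zero_of_summable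
          (f := fun j => cl d ψ (z / T j) ^ μ j - 1) (fun j => by
            rw [heq]
            intro h1
            rcases (hj j).mp h1 with h2 | h2
            · exact (hcon j).1 h2
            · exact (hcon j).2 h2) (hsn z)
        simp only [heq] at this
        exact this h0
      · rintro ⟨j, h1⟩
        exact tprod_of_exists_eq_zero ⟨j, (hj j).mpr h1⟩
    show Ψ z * exp (z ^ d) * (∏' j, cl d ψ (z / T j) ^ μ j) = 0 ↔ _
    rw [mul_eq_zero, mul_eq_zero, hz]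
    simp [Complex.exp_ne_zero]
  · -- upper bound
    intro z hz
    have hr : 0 ≤ ‖z‖ := norm_nonneg z
    have hlim := (hmul z).hasProd
    have hlim2 : Tendsto (fun s : Finset ℕ => ‖∏ j ∈ s, cl d ψ (z / T j) ^ μ j‖) atTop
        (𝓝 ‖∏' j, cl d ψ (z / T j) ^ μ j‖) := by
      exact (continuous_norm.tendsto _).comp hlim
    refine le_of_tendsto' hlim2 fun s => ?_
    have hterm : ∀ j, ‖cl d ψ (z / T j) ^ μ j‖ ≤
        Real.exp (C * ((μ j : ℝ) * min ((‖z‖ / T j) ^ (d + 1)) ((‖z‖ / T j) ^ d))) := by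
      intro j
      obtain ⟨c1, c2, -⟩ := hcl (z / T j)
      rw [hnormdiv] at c1 c2
      have hm : ‖cl d ψ (z / T j)‖ ≤
          Real.exp (C * min ((‖z‖ / T j) ^ (d + 1)) ((‖z‖ / T j) ^ d)) := by
        rcases min_choice ((‖z‖ / T j) ^ (d + 1)) ((‖z‖ / T j) ^ d) with hm | hm
        · rw [hm]
          exact c1
        · rw [hm]
          exact c2
      rw [norm_pow]
      refine le_trans (pow_le_pow_left₀ (norm_nonneg _) hm _) ?_
      rw [← Real.exp_nat_mul]
      apply le_of_eq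
      congr 1
      ring
    rw [norm_prod]
    have hle1 : ∏ j ∈ s, ‖cl d ψ (z / T j) ^ μ j‖ ≤
        ∏ j ∈ s, Real.exp (C * ((μ j : ℝ) * min ((‖z‖ / T j) ^ (d + 1)) ((‖z‖ / T j) ^ d))) :=
      Finset.prod_le_prod (fun _ _ => norm_nonneg _) fun j _ => hterm j
    refine le_trans hle1 ?_
    rw [← Real.exp_sum, ← Finset.mul_sum]
    apply Real.exp_le_exp.mpr
    have hsumle : ∑ j ∈ s, (μ j : ℝ) * min ((‖z‖ / T j) ^ (d + 1)) ((‖z‖ / T j) ^ d) ≤
        C₁ * ‖z‖ ^ ((d : ℝ) + ε) := by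
      refine le_trans ((hs1 ‖z‖ hr).sum_le_tsum s fun j _ => ?_) (hs2 ‖z‖ hz)
      have := (hT0 j).le
      positivity
    calc C * ∑ j ∈ s, (μ j : ℝ) * min ((‖z‖ / T j) ^ (d + 1)) ((‖z‖ / T j) ^ d)
        ≤ C * (C₁ * ‖z‖ ^ ((d : ℝ) + ε)) := mul_le_mul_of_nonneg_left hsumle hC.le
      _ = C * C₁ * ‖z‖ ^ ((d : ℝ) + ε) := by ring
      _ ≤ max (C * C₁) (D * Real.exp D) * ‖z‖ ^ ((d : ℝ) + ε) :=
        mul_le_mul_of_nonneg_right (le_max_left _ _) (by positivity)
  · -- near one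
    intro z hz
    have hlim := (hmul z).hasProd
    have hlim2 : Tendsto (fun s : Finset ℕ => ‖(∏ j ∈ s, cl d ψ (z / T j) ^ μ j) - 1‖) atTop
        (𝓝 ‖(∏' j, cl d ψ (z / T j) ^ μ j) - 1‖) := by
      exact (continuous_norm.tendsto _).comp (Tendsto.sub_const hlim 1)
    have hfin : ∀ s : Finset ℕ, ‖(∏ j ∈ s, cl d ψ (z / T j) ^ μ j) - 1‖ ≤
        Real.exp (D / Real.sqrt t) - 1 := by
      intro s
      have h1 := Finset.norm_prod_one_add_sub_one_le s (fun j => cl d ψ (z / T j) ^ μ j - 1)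
      simp only [heq] at h1
      refine le_trans h1 ?_
      refine sub_le_sub_right (Real.exp_le_exp.mpr ?_) 1
      calc ∑ j ∈ s, ‖cl d ψ (z / T j) ^ μ j - 1‖
          ≤ ∑ j ∈ s, (C * Real.exp (2 * C * (C₁ * 1 ^ (d + 1)))) * y 1 j :=
            Finset.sum_le_sum fun j _ => hfac 1 z j hz
        _ = (C * Real.exp (2 * C * (C₁ * 1 ^ (d + 1)))) * ∑ j ∈ s, y 1 j := by
            rw [Finset.mul_sum]
        _ ≤ (C * Real.exp (2 * C * (C₁ * 1 ^ (d + 1)))) * (C₁ * 1 ^ (d + 1) / Real.sqrt t) := by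
            refine mul_le_mul_of_nonneg_left ?_ (by positivity)
            exact le_trans ((hys 1 zero_le_one).sum_le_tsum s fun j _ => hy0 1 zero_le_one j)
              (hyt 1 zero_le_one)
        _ = D / Real.sqrt t := by
            rw [hD, one_pow, mul_one]
            ring_nf
    refine le_trans (le_of_tendsto' hlim2 hfin) ?_
    have h2 := EN_exp_sub_one (D / Real.sqrt t)
    refine le_trans h2 ?_
    have h3 : Real.exp (D / Real.sqrt t) ≤ Real.exp D :=
      Real.exp_le_exp.mpr (div_le_self hD0.le hsq)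
    calc D / Real.sqrt t * Real.exp (D / Real.sqrt t) ≤ D / Real.sqrt t * Real.exp D :=
          mul_le_mul_of_nonneg_left h3 (by positivity)
      _ = D * Real.exp D / Real.sqrt t := by ring
      _ ≤ max (C * C₁) (D * Real.exp D) / Real.sqrt t :=
        div_le_div_of_nonneg_right (le_max_right _ _) hsq0.le

end Pool.Agent.helper74.LG
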