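import Pool.Agent.helper74.LG.A1
import Pool.Agent.helper74.LG.CG
import Pool.Agent.helper74.LG.CF
import Pool.Agent.helper74.LG.CS
import Pool.Agent.helper74.LG.EN

set_option autoImplicit false

namespace Pool.Agent.helper74.LG

open Complex Set Filter Topology MeasureTheory

theorem CT_pow_sub_one (c : ℂ) (E : ℝ) (hE : 1 ≤ E) (hc : ‖c‖ ≤ E) (μ : ℕ) :
    ‖c ^ μ - 1‖ ≤ μ * ‖c - 1‖ * E ^ μ := by
  rw [← mul_geom_sum, norm_mul]
  have h1 : ‖∑ i ∈ Finset.range μ, c ^ i‖ ≤ μ * E ^ μ := by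
    refine (norm_sum_le _ _).trans ?_
    have h2 : ∀ i ∈ Finset.range μ, ‖c ^ i‖ ≤ E ^ μ := by
      intro i hi
      rw [norm_pow]
      exact (pow_le_pow_left₀ (norm_nonneg _) hc i).trans
        (pow_le_pow_right₀ hE (Finset.mem_range.1 hi).le)
    refine (Finset.sum_le_sum h2).trans ?_
    rw [Finset.sum_const, Finset.card_range, nsmul_eq_mul]
  calc ‖c - 1‖ * ‖∑ i ∈ Finset.range μ, c ^ i‖ ≤ ‖c - 1‖ * (μ * E ^ μ) :=
        mul_le_mul_of_nonneg_left h1 (norm_nonneg _)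
    _ = μ * ‖c - 1‖ * E ^ μ := by ring

theorem CT_fac_pos (d : ℕ) (ψ Mb Ma : ℝ) (h : CC d ψ Mb Ma) (x : ℝ) (hx : x ∈ Icc Mb Ma) :
    0 < 1 + qc d ψ * x := by
  have hQ := h.Q
  have h0 := h.Mb0
  rcases le_total 0 (qc d ψ) with hq | hq
  · have : 0 ≤ x := h0.le.trans hx.1
    have := mul_nonneg hq this
    linarith
  · have := mul_le_mul_of_nonpos_left hx.2 hq
    linarith

theorem CT_Aof_pos (d : ℕ) (ψ Mb Ma : ℝ) (h : CC d ψ Mb Ma) (M : ℕ → ℝ) (hM : M ∈ Box Mb Ma)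
    (j : ℕ) : 0 < Aof (qc d ψ) M j :=
  Finset.prod_pos fun i _ => CT_fac_pos d ψ Mb Ma h (M i) (hM i)

theorem CT_Aof_le (d : ℕ) (ψ Mb Ma : ℝ) (h : CC d ψ Mb Ma) (M : ℕ → ℝ) (hM : M ∈ Box Mb Ma)
    (j : ℕ) : Aof (qc d ψ) M j ≤ (1 + |qc d ψ| * Ma) ^ j := by
  unfold Aof
  calc ∏ i ∈ Finset.range j, (1 + qc d ψ * M i)
      ≤ ∏ _i ∈ Finset.range j, (1 + |qc d ψ| * Ma) := by
        refine Finset.prod_le_prod (fun i _ => (CT_fac_pos d ψ Mb Ma h (M i) (hM i)).le) fun i _ => ?_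
        have h0 : 0 ≤ M i := h.Mb0.le.trans (hM i).1
        have h1 : qc d ψ * M i ≤ |qc d ψ| * M i := mul_le_mul_of_nonneg_right (le_abs_self _) h0
        have h2 : |qc d ψ| * M i ≤ |qc d ψ| * Ma := mul_le_mul_of_nonneg_left (hM i).2 (abs_nonneg _)
        linarith
    _ = (1 + |qc d ψ| * Ma) ^ j := by rw [Finset.prod_const, Finset.card_range]

theorem CT_Tof_cont (d : ℕ) (ψ Mb Ma : ℝ) (h : CC d ψ Mb Ma) (μ : ℕ → ℕ) (j : ℕ) :
    ContinuousOn (fun M => Tof d (qc d ψ) μ M j) (Box Mb Ma) := by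
  unfold Tof
  refine ContinuousOn.rpow_const ?_ fun M _ => Or.inr (by positivity)
  refine ContinuousOn.div continuousOn_const ?_ ?_
  · refine ContinuousOn.mul ?_ ?_
    · unfold Aof
      fun_prop
    · fun_prop
  · intro M hM
    exact (mul_pos (CT_Aof_pos d ψ Mb Ma h M hM j) (h.Mb0.trans_le (hM j).1)).ne'

/-- Continuity of the coefficients with respect to the parameters. -/
theorem rco_fam_continuousOn (d : ℕ) (ψ Mb Ma : ℝ) (h : CC d ψ Mb Ma) :
    ∃ t₀ : ℝ, ∀ t, t₀ ≤ t → ∀ μ : ℕ → ℕ, (∀ M ∈ Box Mb Ma,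
      Cfg d (qc d ψ) Mb Ma t μ (Tof d (qc d ψ) μ M) (Aof (qc d ψ) M) M) →
      ∀ Ψ, RealEnt Ψ → ∀ m : ℕ,
      ContinuousOn (fun M => rco (fam Ψ d ψ μ (Tof d (qc d ψ) μ M)) m) (Box Mb Ma) := by
  obtain ⟨t₁, C₁, _, _, ht₁⟩ := fam_facts d ψ Mb Ma 1 h one_pos
  obtain ⟨t₂, ht₂2, ht₂⟩ := cfg_growth d ψ Mb Ma 1 h one_pos
  obtain ⟨C, hC, hcl⟩ := cl_facts d h.hd ψ
  set q := qc d ψ with hq
  set B := 1 + |q| * Ma with hB
  have hMa : 0 < Ma := h.Mb0.trans_le h.MbMa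
  have hB1 : 1 ≤ B := by
    have := mul_nonneg (abs_nonneg q) hMa.le
    linarith
  refine ⟨max (max t₁ t₂) (2 * B), fun t ht μ hcfg Ψ hΨ m => ?_⟩
  have htt₁ : t₁ ≤ t := (le_max_left _ _).trans ((le_max_left _ _).trans ht)
  have htt₂ : t₂ ≤ t := (le_max_right _ _).trans ((le_max_left _ _).trans ht)
  have htB : 2 * B ≤ t := (le_max_right _ _).trans ht
  have ht0 : 0 < t := by linarith
  -- lower bound of the radii
  have hT : ∀ M ∈ Box Mb Ma, ∀ j, (2 * B) ^ (j + 1) ≤ Tof d q μ M j := by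
    intro M hM j
    have h1 := (ht₂ t htt₂ _ _ _ _ (hcfg M hM)).2.2.1 j
    refine le_trans ?_ h1
    have h8 : j + 1 ≤ 8 ^ j := by
      have : j < 8 ^ j := Nat.lt_pow_self (by norm_num)
      omega
    calc (2 * B) ^ (j + 1) ≤ (2 * B) ^ (8 ^ j) := pow_le_pow_right₀ (by linarith) h8
      _ ≤ t ^ (8 ^ j) := pow_le_pow_left₀ (by linarith) htB _
  have hTpos : ∀ M ∈ Box Mb Ma, ∀ j, 0 < Tof d q μ M j := fun M hM j =>
    lt_of_lt_of_le (by positivity) (hT M hM j)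
  -- the weights
  have hv : ∀ M ∈ Box Mb Ma, ∀ j, (μ j : ℝ) * (1 / Tof d q μ M j) ^ (d + 1) ≤ Ma * (1 / 2) ^ j := by
    intro M hM j
    have hTp := hTpos M hM j
    rw [(hcfg M hM).mu j]
    have e : Aof q M j * M j * Tof d q μ M j ^ d * (1 / Tof d q μ M j) ^ (d + 1) =
        Aof q M j * M j / Tof d q μ M j := by
      rw [div_pow, one_pow, pow_succ]
      field_simp
    rw [e, div_le_iff₀ hTp]
    have hA0 := (CT_Aof_pos d ψ Mb Ma h M hM j).le
    have hA1 := CT_Aof_le d ψ Mb Ma h M hM j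
    have hM0 : 0 ≤ M j := h.Mb0.le.trans (hM j).1
    have hTj := hT M hM j
    have hBj : 0 ≤ B ^ j := by positivity
    calc Aof q M j * M j ≤ B ^ j * Ma := mul_le_mul hA1 (hM j).2 hM0 hBj
      _ ≤ Ma * (1 / 2) ^ j * (2 * B) ^ (j + 1) := by
          have e2 : Ma * (1 / 2) ^ j * (2 * B) ^ (j + 1) = (B ^ j * Ma) * (2 * B) := by
            rw [pow_succ, mul_pow, div_pow, one_pow]
            field_simp
          rw [e2]
          have : 0 ≤ B ^ j * Ma := by positivity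
          nlinarith
      _ ≤ Ma * (1 / 2) ^ j * Tof d q μ M j := mul_le_mul_of_nonneg_left hTj (by positivity)
  -- the factors
  set f : ℕ → (ℕ → ℝ) × ℂ → ℂ := fun j p => cl d ψ (p.2 / (Tof d q μ p.1 j : ℝ)) ^ μ j - 1 with hf
  set K : Set ((ℕ → ℝ) × ℂ) := Box Mb Ma ×ˢ Metric.closedBall (0 : ℂ) 1 with hK
  have hBoxc : IsCompact (Box Mb Ma) := by
    have : Box Mb Ma = Set.pi Set.univ (fun _ => Icc Mb Ma) := by
      ext M
      simp only [Box, Set.mem_setOf_eq, Set.mem_pi, Set.mem_univ, true_implies]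
    rw [this]
    exact isCompact_univ_pi fun _ => isCompact_Icc
  have hKc : IsCompact K := hBoxc.prod (isCompact_closedBall 0 1)
  have hbound : ∀ j, ∀ p ∈ K, ‖f j p‖ ≤ C * (Ma * (1 / 2) ^ j) * Real.exp (2 * C * Ma) := by
    intro j p hp
    obtain ⟨hM, hz⟩ := hp
    have hz1 : ‖p.2‖ ≤ 1 := by simpa using hz
    have hTp := hTpos p.1 hM j
    set x : ℂ := p.2 / (Tof d q μ p.1 j : ℝ) with hx
    have hxn : ‖x‖ ≤ 1 / Tof d q μ p.1 j := by
      rw [hx, norm_div, Complex.norm_real, Real.norm_of_nonneg hTp.le]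
      exact div_le_div_of_nonneg_right hz1 hTp.le
    have hxp : ‖x‖ ^ (d + 1) ≤ (1 / Tof d q μ p.1 j) ^ (d + 1) :=
      pow_le_pow_left₀ (norm_nonneg _) hxn _
    obtain ⟨c1, _, c3⟩ := hcl x
    set y := ‖x‖ ^ (d + 1) with hy
    have hy0 : 0 ≤ y := by positivity
    have h1 := CT_pow_sub_one (cl d ψ x) (Real.exp (C * y)) (Real.one_le_exp (by positivity)) c1 (μ j)
    show ‖cl d ψ x ^ μ j - 1‖ ≤ _
    rcases Nat.eq_zero_or_pos (μ j) with h0 | h0
    · rw [h0, pow_zero, sub_self, norm_zero]; positivity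
    · have hμ1 : (1 : ℝ) ≤ μ j := by exact_mod_cast h0
      have hvy : (μ j : ℝ) * y ≤ Ma * (1 / 2) ^ j :=
        (mul_le_mul_of_nonneg_left hxp (by positivity)).trans (hv p.1 hM j)
      have hvM : (μ j : ℝ) * y ≤ Ma := by
        refine hvy.trans ?_
        have : (1 / 2 : ℝ) ^ j ≤ 1 := pow_le_one₀ (by norm_num) (by norm_num)
        nlinarith
      have hyv : y ≤ μ j * y := by nlinarith
      calc ‖cl d ψ x ^ μ j - 1‖ ≤ μ j * ‖cl d ψ x - 1‖ * Real.exp (C * y) ^ μ j := h1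
        _ ≤ μ j * (C * y * Real.exp (C * y)) * Real.exp (C * y) ^ μ j := by
            gcongr
        _ = C * (μ j * y) * Real.exp (C * y + μ j * (C * y)) := by
            rw [Real.exp_add, ← Real.exp_nat_mul]
            ring
        _ ≤ C * (Ma * (1 / 2) ^ j) * Real.exp (2 * C * Ma) := by
            refine mul_le_mul (mul_le_mul_of_nonneg_left hvy hC.le) ?_ (Real.exp_pos _).le (by positivity)
            refine Real.exp_le_exp.2 ?_
            nlinarith
  have hsum : Summable (fun j : ℕ => C * (Ma * (1 / 2) ^ j) * Real.exp (2 * C * Ma)) := by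
    refine Summable.mul_right _ (Summable.mul_left _ (Summable.mul_left _ ?_))
    exact summable_geometric_of_lt_one (by norm_num) (by norm_num)
  have hfc : ∀ j, ContinuousOn (f j) K := by
    intro j
    refine ContinuousOn.sub (ContinuousOn.pow ?_ _) continuousOn_const
    refine (cl_differentiable d ψ).continuous.comp_continuousOn ?_
    refine ContinuousOn.div continuousOn_snd ?_ ?_
    · refine Complex.continuous_ofReal.comp_continuousOn ?_
      exact (CT_Tof_cont d ψ Mb Ma h μ j).comp continuousOn_fst fun p hp => hp.1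
    · intro p hp
      have := (hTpos p.1 hp.1 j).ne'
      exact_mod_cast this
  have hprod := hsum.hasProdUniformlyOn_nat_one_add hKc (Eventually.of_forall hbound) hfc
  rw [hasProdUniformlyOn_iff_tendstoUniformlyOn] at hprod
  have hPc : ContinuousOn (fun p => ∏' j, (1 + f j p)) K := by
    refine hprod.continuousOn (Filter.Frequently.of_forall fun s => ?_)
    exact continuousOn_finset_prod _ fun j _ => continuousOn_const.add (hfc j)
  have hFc : ContinuousOn (fun p : (ℕ → ℝ) × ℂ => fam Ψ d ψ μ (Tof d q μ p.1) p.2) K := by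
    have e : ∀ p : (ℕ → ℝ) × ℂ, fam Ψ d ψ μ (Tof d q μ p.1) p.2 =
        Ψ p.2 * exp (p.2 ^ d) * ∏' j, (1 + f j p) := by
      intro p
      unfold fam
      congr 1
      refine tprod_congr fun j => ?_
      simp only [hf]
      ring
    simp_rw [e]
    refine ContinuousOn.mul (ContinuousOn.mul ?_ ?_) hPc
    · exact hΨ.1.continuous.comp_continuousOn continuousOn_snd
    · fun_prop
  -- the coefficients
  have hcoef : ContinuousOn (fun M => coef (fam Ψ d ψ μ (Tof d q μ M)) m) (Box Mb Ma) := by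
    have hint : ∀ M ∈ Box Mb Ma, coef (fam Ψ d ψ μ (Tof d q μ M)) m =
        (1 / (2 * Real.pi) : ℂ) * ∫ θ in (0 : ℝ)..(0 + 2 * Real.pi),
          fam Ψ d ψ μ (Tof d q μ M) (exp ((0 : ℝ) + θ * I)) * exp (-(m * ((0 : ℝ) + θ * I))) := by
      intro M hM
      exact coef_integral ((ht₁ t htt₁ _ _ _ _ (hcfg M hM)).1 Ψ hΨ).1 m 0 0
    refine ContinuousOn.congr ?_ hint
    refine continuousOn_const.mul ?_
    rw [continuousOn_iff_continuous_domRestrict]
    refine intervalIntegral.continuous_parametric_intervalIntegral_of_continuous'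
      (f := fun (M : Box Mb Ma) (θ : ℝ) => fam Ψ d ψ μ (Tof d q μ M.1) (exp ((0 : ℝ) + θ * I)) *
        exp (-(m * ((0 : ℝ) + θ * I)))) ?_ 0 (0 + 2 * Real.pi)
    have h1 : Continuous (fun p : Box Mb Ma × ℝ =>
        fam Ψ d ψ μ (Tof d q μ p.1.1) (exp ((0 : ℝ) + p.2 * I))) := by
      have h2 : Continuous (fun p : Box Mb Ma × ℝ => ((p.1.1, exp ((0 : ℝ) + p.2 * I)) : (ℕ → ℝ) × ℂ)) := by
        fun_prop
      refine hFc.comp_continuous h2 fun p => ⟨p.1.2, ?_⟩
      simp only [mem_closedBall_zero_iff, Complex.norm_exp]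
      simp
    have h3 : Continuous (fun p : Box Mb Ma × ℝ => exp (-((m : ℂ) * ((0 : ℝ) + p.2 * I)))) := by
      fun_prop
    exact h1.mul h3
  exact Complex.continuous_re.comp_continuousOn hcoef

end Pool.Agent.helper74.LG
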