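import Pool.Agent.helper74.LG.Defs2

set_option autoImplicit false

namespace Pool.Agent.helper74.LG

open Complex Set Filter Topology MeasureTheory

theorem DB_pow (d : ℕ) (w : ℂ) : exp w ^ d = exp (d * w) := (Complex.exp_nat_mul w d).symm

/-- norm of the exponential factor -/
theorem DB_norm (d : ℕ) (s θ : ℝ) :
    ‖exp (exp (s + θ * I) ^ d)‖ = Real.exp (Real.exp (d * s) * Real.cos (d * θ)) := by
  rw [Complex.norm_exp, DB_pow]
  congr 1
  have h : (d : ℂ) * (s + θ * I) = ((d * s : ℝ) : ℂ) + ((d * θ : ℝ) : ℂ) * I := by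
    push_cast; ring
  rw [h, Complex.exp_add, Complex.exp_mul_I, ← Complex.ofReal_exp, ← Complex.ofReal_cos,
    ← Complex.ofReal_sin, Complex.re_ofReal_mul, Complex.add_re, Complex.ofReal_re,
    Complex.re_ofReal_mul, Complex.I_re, mul_zero, add_zero]

/-- the value on the positive real axis -/
theorem DB_re (d : ℕ) (Ψ : ℂ → ℂ) (hΨ : RealEnt Ψ) (s : ℝ) :
    (Ψ (exp s) * exp (exp s ^ d)).re = (Ψ (exp s)).re * Real.exp (Real.exp (d * s)) := by
  have h1 : (Ψ (exp s)).im = 0 := by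
    have h := hΨ.2 (exp s)
    rw [← Complex.exp_conj, Complex.conj_ofReal] at h
    exact Complex.conj_eq_iff_im.mp h.symm
  have h2 : exp (exp (s : ℂ) ^ d) = ((Real.exp (Real.exp (d * s)) : ℝ) : ℂ) := by
    rw [DB_pow]
    push_cast
    rfl
  rw [h2, Complex.mul_re, h1, Complex.ofReal_re]
  simp

/-- The base function itself is in a class (no clusters), under the same hypotheses except that
only `hE3` without clusters is needed. -/
theorem base_cls (ρ H σ₁ H₁ θ₀ τ δ₀ : ℝ) (d : ℕ) (E : Set ℝ) (Ψ KΨ : ℂ → ℂ)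
    (hB : Base ρ H σ₁ H₁ θ₀ τ δ₀ d E Ψ KΨ) (hd : 2 ≤ d) (hdρ : (d : ℝ) < ρ) (hτ : 0 < τ)
    (c₃ : ℝ) (hE : E ⊆ Icc 0 Real.pi) (hc₃ : 0 < c₃)
    (hE3 : ∀ θ ∈ E, c₃ ≤ 1 - Real.cos (d * θ)) :
    ∃ ε₀ : ℝ, 0 < ε₀ ∧ ∀ ε : ℝ, 0 < ε → ε ≤ ε₀ → ∃ C c C₀ : ℝ, 0 < C ∧ 0 < c ∧
      Cls ⟨ρ, H, σ₁, H₁, θ₀, τ, d + ε, C, d - ε, c, C₀⟩ (fun z => Ψ z * exp (z ^ d))
        (fun w => KΨ w + exp (d * w)) := by
  have hd1 : (2 : ℝ) ≤ d := by exact_mod_cast hd
  obtain ⟨C1, hC1⟩ := hB.asy
  obtain ⟨C2, c2, σ₂, hc2, hσ₂, hup⟩ := hB.up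
  obtain ⟨C3, hupE⟩ := hB.upE
  refine ⟨1, one_pos, fun ε hε _ => ⟨|C1| + 1, min c2 c₃, max C2 C3, by positivity,
    lt_min hc2 hc₃, ?_⟩⟩
  refine ⟨?_, ?_, ?_, ?_, ?_, ?_⟩
  · -- real entire
    refine ⟨hB.ent.1.mul ((differentiable_id.pow d).cexp), fun z => ?_⟩
    change Ψ ((starRingEnd ℂ) z) * exp ((starRingEnd ℂ) z ^ d)
      = (starRingEnd ℂ) (Ψ z * exp (z ^ d))
    rw [map_mul, ← Complex.exp_conj, map_pow, hB.ent.2 z]
  · -- differentiable
    exact hB.an.add ((differentiable_id.const_mul (d : ℂ)).cexp.differentiableOn)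
  · intro w hw
    rw [Complex.exp_add, hB.ex w hw, DB_pow]
  · intro x
    have h : exp ((d : ℂ) * x) = ((Real.exp (d * x) : ℝ) : ℂ) := by push_cast; rfl
    rw [Complex.add_im, hB.re x, h, Complex.ofReal_im, add_zero]
  · intro w hw hre
    change ‖KΨ w + exp (d * w) - (H * exp (ρ * w) + H₁ * exp (σ₁ * w))‖
      ≤ (|C1| + 1) * Real.exp ((d + ε) * w.re)
    have h1 := hC1 w hw hre
    have h2 : ‖exp ((d : ℂ) * w)‖ = Real.exp (d * w.re) := by
      rw [Complex.norm_exp]
      simp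
    have h3 : Real.exp w.re ≤ Real.exp ((d + ε) * w.re) := by
      apply Real.exp_le_exp.mpr
      nlinarith
    have h4 : Real.exp (d * w.re) ≤ Real.exp ((d + ε) * w.re) := by
      apply Real.exp_le_exp.mpr
      nlinarith
    calc ‖KΨ w + exp (d * w) - (H * exp (ρ * w) + H₁ * exp (σ₁ * w))‖
        = ‖(KΨ w - (H * exp (ρ * w) + H₁ * exp (σ₁ * w))) + exp (d * w)‖ := by congr 1; ring
      _ ≤ ‖KΨ w - (H * exp (ρ * w) + H₁ * exp (σ₁ * w))‖ + ‖exp (d * w)‖ := norm_add_le _ _
      _ ≤ C1 * Real.exp w.re + Real.exp (d * w.re) := by rw [h2]; linarith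
      _ ≤ |C1| * Real.exp w.re + Real.exp (d * w.re) := by
          have := le_abs_self C1
          have := Real.exp_pos w.re
          nlinarith
      _ ≤ |C1| * Real.exp ((d + ε) * w.re) + Real.exp ((d + ε) * w.re) := by
          have := abs_nonneg C1
          have := mul_le_mul_of_nonneg_left h3 (abs_nonneg C1)
          linarith
      _ = (|C1| + 1) * Real.exp ((d + ε) * w.re) := by ring
  · intro s θ hs hθπ hθ1 hθ2
    change ‖Ψ (exp (s + θ * I)) * exp (exp (s + θ * I) ^ d)‖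
      ≤ Real.exp (max C2 C3 - min c2 c₃ * Real.exp ((d - ε) * s))
        * (Ψ (exp s) * exp (exp s ^ d)).re
    rw [norm_mul, DB_norm, DB_re d Ψ hB.ent]
    have hdε : Real.exp ((d - ε) * s) ≤ Real.exp (d * s) := by
      apply Real.exp_le_exp.mpr
      nlinarith
    have hpe := Real.exp_pos ((d - ε) * s)
    have hc0 : 0 < min c2 c₃ := lt_min hc2 hc₃
    by_cases hθE : θ ∈ E
    · have h1 := hupE s θ hs hθE
      have h2 := hE3 θ hθE
      have hpos : 0 ≤ (Ψ (exp s)).re := by
        by_contra hneg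
        push Not at hneg
        have := norm_nonneg (Ψ (exp (s + θ * I)))
        have h5 := mul_neg_of_pos_of_neg (Real.exp_pos C3) hneg
        linarith
      have h3 : Real.exp C3 * Real.exp (Real.exp (d * s) * Real.cos (d * θ))
          ≤ Real.exp (max C2 C3 - min c2 c₃ * Real.exp ((d - ε) * s))
            * Real.exp (Real.exp (d * s)) := by
        rw [← Real.exp_add, ← Real.exp_add]
        apply Real.exp_le_exp.mpr
        have h6 : min c2 c₃ * Real.exp ((d - ε) * s) ≤ c₃ * Real.exp (d * s) :=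
          mul_le_mul (min_le_right _ _) hdε hpe.le hc₃.le
        have h7 : c₃ * Real.exp (d * s) ≤ (1 - Real.cos (d * θ)) * Real.exp (d * s) :=
          mul_le_mul_of_nonneg_right h2 (Real.exp_pos _).le
        have h8 := le_max_right C2 C3
        nlinarith
      calc ‖Ψ (exp (s + θ * I))‖ * Real.exp (Real.exp (d * s) * Real.cos (d * θ))
          ≤ (Real.exp C3 * (Ψ (exp s)).re) * Real.exp (Real.exp (d * s) * Real.cos (d * θ)) :=
            mul_le_mul_of_nonneg_right h1 (Real.exp_pos _).le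
        _ = (Real.exp C3 * Real.exp (Real.exp (d * s) * Real.cos (d * θ))) * (Ψ (exp s)).re := by
            ring
        _ ≤ (Real.exp (max C2 C3 - min c2 c₃ * Real.exp ((d - ε) * s))
            * Real.exp (Real.exp (d * s))) * (Ψ (exp s)).re :=
            mul_le_mul_of_nonneg_right h3 hpos
        _ = _ := by ring
    · have h1 := hup s θ hs hθπ hθ1 hθ2 hθE
      have hpos : 0 ≤ (Ψ (exp s)).re := by
        by_contra hneg
        push Not at hneg
        have := norm_nonneg (Ψ (exp (s + θ * I)))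
        have h5 := mul_neg_of_pos_of_neg (Real.exp_pos (C2 - c2 * Real.exp (σ₂ * s))) hneg
        linarith
      have h3 : Real.exp (C2 - c2 * Real.exp (σ₂ * s))
            * Real.exp (Real.exp (d * s) * Real.cos (d * θ))
          ≤ Real.exp (max C2 C3 - min c2 c₃ * Real.exp ((d - ε) * s))
            * Real.exp (Real.exp (d * s)) := by
        rw [← Real.exp_add, ← Real.exp_add]
        apply Real.exp_le_exp.mpr
        have h5 : Real.exp ((d - ε) * s) ≤ Real.exp (σ₂ * s) := by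
          apply Real.exp_le_exp.mpr
          nlinarith
        have h6 : min c2 c₃ * Real.exp ((d - ε) * s) ≤ c2 * Real.exp (σ₂ * s) :=
          mul_le_mul (min_le_left _ _) h5 hpe.le hc2.le
        have h7 : Real.exp (d * s) * Real.cos (d * θ) ≤ Real.exp (d * s) := by
          have := Real.cos_le_one (d * θ)
          have := Real.exp_pos (d * s)
          nlinarith
        have h8 := le_max_left C2 C3
        linarith
      calc ‖Ψ (exp (s + θ * I))‖ * Real.exp (Real.exp (d * s) * Real.cos (d * θ))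
          ≤ (Real.exp (C2 - c2 * Real.exp (σ₂ * s)) * (Ψ (exp s)).re)
            * Real.exp (Real.exp (d * s) * Real.cos (d * θ)) :=
            mul_le_mul_of_nonneg_right h1 (Real.exp_pos _).le
        _ = (Real.exp (C2 - c2 * Real.exp (σ₂ * s))
            * Real.exp (Real.exp (d * s) * Real.cos (d * θ))) * (Ψ (exp s)).re := by
            ring
        _ ≤ (Real.exp (max C2 C3 - min c2 c₃ * Real.exp ((d - ε) * s))
            * Real.exp (Real.exp (d * s))) * (Ψ (exp s)).re :=
            mul_le_mul_of_nonneg_right h3 hpos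
        _ = _ := by ring

end Pool.Agent.helper74.LG
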