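import Pool.Agent.helper74.LG.EL
import Pool.Agent.helper74.LG.CB
import Pool.Agent.helper74.LG.CS

set_option autoImplicit false

namespace Pool.Agent.helper74.LG

open Complex Set Filter Topology MeasureTheory

theorem EB_T_pos {d : ℕ} {q Mb Ma t : ℝ} {μ : ℕ → ℕ} {T A M : ℕ → ℝ}
    (h : Cfg d q Mb Ma t μ T A M) (ht : 0 < t) (j : ℕ) : 0 < T j := by
  induction j with
  | zero => exact ht.trans_le h.t0
  | succ j ih => exact (by positivity : 0 < T j ^ 8).trans_le (h.sp j)

/-- The block formula. -/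
theorem block_formula (d : ℕ) (ψ Mb Ma ω t' : ℝ) (h : CC d ψ Mb Ma) (hω : 0 < ω)
    (ht' : 0 < t') :
    ∃ t₀ : ℝ, 2 ≤ t₀ ∧ ∀ t, t₀ ≤ t → ∀ μ T A M, Cfg d (qc d ψ) Mb Ma t μ T A M →
      ∀ (i : ℕ) (w : ℂ), w.im ∈ Ang ψ t' →
      (∀ j, j + 1 = i → 3 / 2 * Real.log (T j) ≤ w.re) →
      w.re ≤ 2 / 3 * Real.log (T (i + 1)) →
      ‖Kcl d ψ μ T w - (A i - 1) * exp (d * w) - μ i * elog d ψ (w - Real.log (T i))‖ ≤
        ω * A i * Real.exp (d * w.re) := by
  obtain ⟨C, hC, hel⟩ := elog_facts d h.hd ψ t' h.ψlo h.ψhi ht'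
  obtain ⟨t₀, ht₀, hcb⟩ := cfg_block d ψ Mb Ma (ω / (2 * C)) h (by positivity)
  refine ⟨t₀, ht₀, fun t ht μ T A M hcfg i w hw hlo hhi => ?_⟩
  obtain ⟨hb1, hb2, hb3⟩ := hcb t ht μ T A M hcfg i w.re hlo hhi
  have hT : ∀ j, 0 < T j := EB_T_pos hcfg (by linarith)
  set F : ℕ → ℂ := fun j => (μ j : ℂ) * elog d ψ (w - Real.log (T j)) with hF
  have him : ∀ j, (w - Real.log (T j)).im ∈ Ang ψ t' := fun j => by
    rw [Complex.sub_im, Complex.ofReal_im, sub_zero]; exact hw
  have hre : ∀ j, (w - Real.log (T j)).re = w.re - Real.log (T j) := fun j => by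
    rw [Complex.sub_re, Complex.ofReal_re]
  -- tail
  have htail : ∀ j, ‖F (i + 1 + j)‖ ≤ C * ((μ (i + 1 + j) : ℝ) *
      Real.exp ((d + 1) * (w.re - Real.log (T (i + 1 + j))))) := fun j => by
    obtain ⟨-, -, h1, -, -⟩ := hel _ (him (i + 1 + j))
    rw [hre] at h1
    simp only [hF]
    rw [norm_mul, Complex.norm_natCast]
    calc (μ (i + 1 + j) : ℝ) * ‖elog d ψ (w - Real.log (T (i + 1 + j)))‖
        ≤ (μ (i + 1 + j) : ℝ) *
          (C * Real.exp ((d + 1) * (w.re - Real.log (T (i + 1 + j))))) := by gcongr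
      _ = _ := by ring
  have hsumN : Summable (fun j => ‖F (i + 1 + j)‖) :=
    Summable.of_nonneg_of_le (fun j => norm_nonneg _) htail (hb2.mul_left C)
  have hsum : Summable (fun j => F (j + (i + 1))) := by
    have : (fun j => F (j + (i + 1))) = fun j => F (i + 1 + j) := by
      funext j; rw [add_comm]
    rw [this]; exact hsumN.of_norm
  have htailb : ‖∑' j, F (j + (i + 1))‖ ≤ ω / 2 * A i * Real.exp (d * w.re) := by
    have e1 : (fun j => F (j + (i + 1))) = fun j => F (i + 1 + j) := by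
      funext j; rw [add_comm]
    rw [e1]
    calc ‖∑' j, F (i + 1 + j)‖ ≤ ∑' j, ‖F (i + 1 + j)‖ := norm_tsum_le_tsum_norm hsumN
      _ ≤ ∑' j, C * ((μ (i + 1 + j) : ℝ) *
          Real.exp ((d + 1) * (w.re - Real.log (T (i + 1 + j))))) :=
          hsumN.tsum_le_tsum htail (hb2.mul_left C)
      _ = C * ∑' j, ((μ (i + 1 + j) : ℝ) *
          Real.exp ((d + 1) * (w.re - Real.log (T (i + 1 + j))))) := tsum_mul_left
      _ ≤ C * (ω / (2 * C) * A i * Real.exp (d * w.re)) := by gcongr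
      _ = ω / 2 * A i * Real.exp (d * w.re) := by field_simp
  have hK : Kcl d ψ μ T w = ∑ j ∈ Finset.range (i + 1), F j + ∑' j, F (j + (i + 1)) :=
    (hsum.sum_add_tsum_nat_add').symm
  -- head
  have hmain : ∀ j, (μ j : ℂ) * (qc d ψ * exp (d * (w - Real.log (T j))))
      = ((A (j + 1) - A j : ℝ) : ℂ) * exp (d * w) := fun j => by
    have e1 : exp (d * (w - Real.log (T j))) = exp (d * w) / (T j : ℂ) ^ d := by
      rw [mul_sub, Complex.exp_sub]
      congr 1
      rw [Complex.exp_nat_mul, ← Complex.ofReal_exp, Real.exp_log (hT j)]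
    have e2 : (μ j : ℂ) = ((A j * M j * T j ^ d : ℝ) : ℂ) := by
      rw [← hcfg.mu j]; push_cast; rfl
    have hTc : (T j : ℂ) ≠ 0 := by exact_mod_cast (hT j).ne'
    rw [e1, e2, hcfg.As j]
    push_cast
    field_simp
    ring
  have htel : ∑ j ∈ Finset.range i, (μ j : ℂ) * (qc d ψ * exp (d * (w - Real.log (T j))))
      = (A i - 1) * exp (d * w) := by
    rw [Finset.sum_congr rfl fun j _ => hmain j, ← Finset.sum_mul, ← Complex.ofReal_sum,
      Finset.sum_range_sub, hcfg.A0]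
    push_cast; ring
  have hhead : ‖∑ j ∈ Finset.range i, F j - (A i - 1) * exp (d * w)‖
      ≤ ω / 2 * A i * Real.exp (d * w.re) := by
    rw [← htel, ← Finset.sum_sub_distrib]
    calc ‖∑ j ∈ Finset.range i, (F j - (μ j : ℂ) * (qc d ψ * exp (d * (w - Real.log (T j)))))‖
        ≤ ∑ j ∈ Finset.range i, C * ((μ j : ℝ) * Real.exp ((d - 1) * (w.re - Real.log (T j)))) := by
          refine norm_sum_le_of_le _ fun j _ => ?_
          obtain ⟨-, -, -, -, h1⟩ := hel _ (him j)
          rw [hre] at h1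
          simp only [hF]
          rw [← mul_sub, norm_mul, Complex.norm_natCast]
          calc (μ j : ℝ) * ‖elog d ψ (w - Real.log (T j))
                - qc d ψ * exp (d * (w - Real.log (T j)))‖
              ≤ (μ j : ℝ) * (C * Real.exp ((d - 1) * (w.re - Real.log (T j)))) := by gcongr
            _ = _ := by ring
      _ = C * ∑ j ∈ Finset.range i, (μ j : ℝ) * Real.exp ((d - 1) * (w.re - Real.log (T j))) := by
          rw [Finset.mul_sum]
      _ ≤ C * (ω / (2 * C) * A i * Real.exp (d * w.re)) := by gcongr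
      _ = ω / 2 * A i * Real.exp (d * w.re) := by field_simp
  have hfin : Kcl d ψ μ T w - (A i - 1) * exp (d * w) - μ i * elog d ψ (w - Real.log (T i))
      = (∑ j ∈ Finset.range i, F j - (A i - 1) * exp (d * w)) + ∑' j, F (j + (i + 1)) := by
    rw [hK, Finset.sum_range_succ]
    simp only [hF]
    ring
  rw [hfin]
  refine (norm_add_le _ _).trans ?_
  calc _ ≤ ω / 2 * A i * Real.exp (d * w.re) + ω / 2 * A i * Real.exp (d * w.re) :=
        add_le_add hhead htailb
    _ = ω * A i * Real.exp (d * w.re) := by ring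

end Pool.Agent.helper74.LG
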