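import Pool.Agent.helper74.LG.EL

set_option autoImplicit false

namespace Pool.Agent.helper74.LG

open Complex Set Filter Topology MeasureTheory

/-- `kap` is small compared with `e^{dx}`. -/
theorem kap_bounds (d : ℕ) (hd : 2 ≤ d) (ψ t : ℝ) (hψ : Real.pi / 2 < ψ) (hψ' : ψ ≤ Real.pi)
    (ht : 0 < t) : ∃ C : ℝ, 0 < C ∧ ∀ θ ∈ Ang ψ t, ∀ x : ℝ, 0 ∈ Ang ψ t →
      |kap d ψ θ x| ≤ C * Real.exp ((d + 1) * x) ∧ |kap d ψ θ x| ≤ C * Real.exp (d * x) ∧
      |kap d ψ θ x - qc d ψ * (1 - Real.cos (d * θ)) * Real.exp (d * x)| ≤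
        C * Real.exp ((d - 1) * x) := by
  obtain ⟨C, hC, h⟩ := elog_facts d hd ψ t hψ hψ' ht
  refine ⟨2 * C, by positivity, fun θ hθ x h0 => ?_⟩
  have e1 : ((x : ℂ)).re = x := Complex.ofReal_re x
  have e2 : ((x : ℂ) + θ * I).re = x := by simp
  have i1 : ((x : ℂ)).im = 0 := Complex.ofReal_im x
  have i2 : ((x : ℂ) + θ * I).im = θ := by simp
  obtain ⟨-, -, a1, a2, a3⟩ := h (x : ℂ) (by rw [i1]; exact h0)
  obtain ⟨-, -, b1, b2, b3⟩ := h ((x : ℂ) + θ * I) (by rw [i2]; exact hθ)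
  rw [e1] at a1 a2 a3
  rw [e2] at b1 b2 b3
  have key : ∀ u v : ℂ, ∀ B : ℝ, ‖u‖ ≤ B → ‖v‖ ≤ B → |u.re - v.re| ≤ 2 * B := by
    intro u v B hu hv
    have h1 := Complex.abs_re_le_norm (u - v)
    rw [Complex.sub_re] at h1
    have h2 := norm_sub_le u v
    linarith
  refine ⟨?_, ?_, ?_⟩
  · have := key _ _ _ a1 b1
    unfold kap
    linarith
  · have := key _ _ _ a2 b2
    unfold kap
    linarith
  · have h3 := key _ _ _ a3 b3
    have r1 : (elog d ψ (x : ℂ) - qc d ψ * exp (d * (x : ℂ))).re =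
        (elog d ψ (x : ℂ)).re - qc d ψ * Real.exp (d * x) := by
      rw [Complex.sub_re, Complex.re_ofReal_mul]
      congr 2
      have : (d : ℂ) * (x : ℂ) = ((d * x : ℝ) : ℂ) := by push_cast; ring
      rw [this, ← Complex.ofReal_exp, Complex.ofReal_re]
    have r2 : (elog d ψ ((x : ℂ) + θ * I) - qc d ψ * exp (d * ((x : ℂ) + θ * I))).re =
        (elog d ψ ((x : ℂ) + θ * I)).re - qc d ψ * (Real.exp (d * x) * Real.cos (d * θ)) := by
      rw [Complex.sub_re, Complex.re_ofReal_mul]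
      congr 2
      rw [Complex.exp_re]
      have j1 : ((d : ℂ) * ((x : ℂ) + θ * I)).re = d * x := by simp
      have j2 : ((d : ℂ) * ((x : ℂ) + θ * I)).im = d * θ := by simp
      rw [j1, j2]
    rw [r1, r2] at h3
    have e : (elog d ψ (x : ℂ)).re - qc d ψ * Real.exp (d * x) -
        ((elog d ψ ((x : ℂ) + θ * I)).re - qc d ψ * (Real.exp (d * x) * Real.cos (d * θ))) =
        kap d ψ θ x - qc d ψ * (1 - Real.cos (d * θ)) * Real.exp (d * x) := by
      unfold kap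
      ring
    rw [e] at h3
    linarith

theorem EK_clPoly_diff (d : ℕ) (ψ : ℝ) : Differentiable ℂ (clPoly d ψ) := by
  unfold clPoly
  refine Differentiable.fun_sum (fun j _ => ?_)
  fun_prop

theorem EK_diff (d : ℕ) (ψ t : ℝ) (hψ : Real.pi / 2 < ψ) (hψ' : ψ ≤ Real.pi) (ht : 0 < t)
    (w : ℂ) (hw : w.im ∈ Ang ψ t) : DifferentiableAt ℂ (elog d ψ) w := by
  obtain ⟨C, hC, h⟩ := elog_facts 2 le_rfl ψ t hψ hψ' ht
  have h1 := (h w hw).2.1
  have e : elog d ψ = fun w => elog 2 ψ w + (clPoly d ψ (exp w) - clPoly 2 ψ (exp w)) := by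
    funext w
    unfold elog
    ring
  rw [e]
  refine h1.add (DifferentiableAt.sub ?_ ?_)
  · exact (EK_clPoly_diff d ψ).differentiableAt.comp w Complex.differentiableAt_exp
  · exact (EK_clPoly_diff 2 ψ).differentiableAt.comp w Complex.differentiableAt_exp

theorem kap_continuous (d : ℕ) (ψ t θ : ℝ) (hψ : Real.pi / 2 < ψ)
    (hψ' : ψ ≤ Real.pi) (ht : 0 < t) (hθ : θ ∈ Ang ψ t) (h0 : 0 ∈ Ang ψ t) :
    Continuous (fun x : ℝ => kap d ψ θ x) := by
  unfold kap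
  rw [continuous_iff_continuousAt]
  intro x
  have i1 : ((x : ℂ)).im = 0 := Complex.ofReal_im x
  have i2 : ((x : ℂ) + θ * I).im = θ := by simp
  have c1 : ContinuousAt (fun x : ℝ => elog d ψ (x : ℂ)) x :=
    (EK_diff d ψ t hψ hψ' ht (x : ℂ) (by rw [i1]; exact h0)).continuousAt.comp
      (f := fun x : ℝ => (x : ℂ)) (by fun_prop)
  have c2 : ContinuousAt (fun x : ℝ => elog d ψ ((x : ℂ) + θ * I)) x :=
    (EK_diff d ψ t hψ hψ' ht ((x : ℂ) + θ * I) (by rw [i2]; exact hθ)).continuousAt.comp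
      (f := fun x : ℝ => (x : ℂ) + θ * I) (by fun_prop)
  exact (Complex.continuous_re.continuousAt.comp c1).sub (Complex.continuous_re.continuousAt.comp c2)

end Pool.Agent.helper74.LG
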