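import Pool.Agent.helper74.LG.EN
import Pool.Agent.helper74.LG.EC
import Pool.Agent.helper74.LG.EB
import Pool.Agent.helper74.LG.EK
import Pool.Agent.helper74.LG.CF

set_option autoImplicit false

namespace Pool.Agent.helper74.LG

open Complex Set Filter Topology MeasureTheory

/-- `c e^{σ₂ s}` beats `D e^{σ s}` up to a constant -/
theorem DC_beat {c D σ σ₂ : ℝ} (hc : 0 < c) (hD : 0 < D) (hσ : 0 ≤ σ) (h : σ < σ₂) :
    ∃ C₁ : ℝ, ∀ s : ℝ, 0 ≤ s → D * Real.exp (σ * s) ≤ C₁ + c * Real.exp (σ₂ * s) := by
  set s₁ := Real.log (D / c) / (σ₂ - σ) with hs₁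
  have hδ : 0 < σ₂ - σ := by linarith
  refine ⟨D * Real.exp (σ * |s₁|), fun s hs => ?_⟩
  rcases le_total s s₁ with h1 | h1
  · have h2 : Real.exp (σ * s) ≤ Real.exp (σ * |s₁|) :=
      Real.exp_le_exp.2 (mul_le_mul_of_nonneg_left (h1.trans (le_abs_self _)) hσ)
    have h3 := mul_le_mul_of_nonneg_left h2 hD.le
    have h4 : 0 ≤ c * Real.exp (σ₂ * s) := by positivity
    linarith
  · have h2 : Real.log (D / c) ≤ (σ₂ - σ) * s := by
      rw [hs₁, div_le_iff₀ hδ] at h1
      linarith
    have h3 : D / c ≤ Real.exp ((σ₂ - σ) * s) := by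
      rw [← Real.log_le_iff_le_exp (by positivity)]
      exact h2
    rw [div_le_iff₀ hc] at h3
    have h4 : Real.exp (σ₂ * s) = Real.exp ((σ₂ - σ) * s) * Real.exp (σ * s) := by
      rw [← Real.exp_add]
      congr 1
      ring
    have h5 : D * Real.exp (σ * s) ≤ c * Real.exp (σ₂ * s) := by
      rw [h4]
      calc D * Real.exp (σ * s) ≤ (Real.exp ((σ₂ - σ) * s) * c) * Real.exp (σ * s) :=
            mul_le_mul_of_nonneg_right h3 (Real.exp_pos _).le
        _ = _ := by ring
    have h6 : 0 ≤ D * Real.exp (σ * |s₁|) := by positivity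
    linarith

/-- the zones cover `[0, ∞)` -/
theorem DC_zone {d : ℕ} {q Mb Ma t : ℝ} {μ : ℕ → ℕ} {T A M : ℕ → ℝ} (ht : 2 ≤ t)
    (hc : Cfg d q Mb Ma t μ T A M) (hT : ∀ j, t ^ (8 ^ j) ≤ T j) (s : ℝ) :
    ∃ i : ℕ, (∀ j, j + 1 = i → 3 / 2 * Real.log (T j) ≤ s) ∧
      s ≤ 2 / 3 * Real.log (T (i + 1)) := by
  classical
  have ht0 : 0 < t := by linarith
  have hlog : ∀ j, (8 : ℝ) ^ j * Real.log t ≤ Real.log (T j) := by
    intro j
    have h1 := Real.log_le_log (by positivity) (hT j)
    rwa [Real.log_pow, Nat.cast_pow, Nat.cast_ofNat] at h1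
  have hlt : 1 / 2 ≤ Real.log t := by
    have h1 := Real.log_le_log (by norm_num) ht
    have h2 := Real.log_two_gt_d9
    linarith
  have hex : ∃ i : ℕ, s ≤ 2 / 3 * Real.log (T (i + 1)) := by
    obtain ⟨n, hn⟩ := exists_nat_gt (3 * s)
    refine ⟨n, ?_⟩
    have h1 := hlog (n + 1)
    have h2 : ((n : ℝ) + 1) ≤ (8 : ℝ) ^ (n + 1) := by
      have h3 : (n + 1) < 8 ^ (n + 1) := Nat.lt_pow_self (by norm_num)
      exact_mod_cast h3.le
    have h4 : ((n : ℝ) + 1) * (1 / 2) ≤ (8 : ℝ) ^ (n + 1) * Real.log t :=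
      mul_le_mul h2 hlt (by norm_num) (by positivity)
    linarith
  refine ⟨Nat.find hex, ?_, Nat.find_spec hex⟩
  intro j hj
  have h1 := Nat.find_min hex (m := j) (by omega)
  rw [not_le] at h1
  have hTj : 0 < T j := lt_of_lt_of_le (by positivity) (hT j)
  have h2 := Real.log_le_log (by positivity) (hc.sp j)
  rw [Real.log_pow] at h2
  push_cast at h2
  have h3 : 0 ≤ Real.log (T j) := le_trans (by positivity) (hlog j)
  linarith

/-- All functions of the family are in one class. -/
theorem fam_cls (ρ H σ₁ H₁ θ₀ τ δ₀ : ℝ) (d : ℕ) (E : Set ℝ) (Ψ KΨ : ℂ → ℂ)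
    (hB : Base ρ H σ₁ H₁ θ₀ τ δ₀ d E Ψ KΨ) (ψ Mb Ma t' c₃ : ℝ) (h : CC d ψ Mb Ma)
    (hdρ : (d : ℝ) < ρ) (ht' : 0 < t') (hτ : 0 < τ)
    (hA0 : 2 * τ ≤ ψ - t') (hA1 : Icc (θ₀ - 2 * τ) (θ₀ + 2 * τ) ⊆ Ang ψ t')
    (hEA : E ⊆ Ang ψ t') (hE : E ⊆ Icc 0 Real.pi) (hc₃ : 0 < c₃)
    (hE3 : ∀ θ ∈ E, ∀ x M : ℝ, Mb ≤ M → M ≤ Ma →
      c₃ * Real.exp (d * x) ≤ (1 - Real.cos (d * θ)) * Real.exp (d * x) + M * kap d ψ θ x) :
    ∃ ε₀ : ℝ, 0 < ε₀ ∧ ∀ ε : ℝ, 0 < ε → ε ≤ ε₀ → ∃ t₀ C c C₀ : ℝ, 2 ≤ t₀ ∧ 0 < C ∧ 0 < c ∧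
      ∀ t, t₀ ≤ t → ∀ μ T A M, Cfg d (qc d ψ) Mb Ma t μ T A M →
      Cls ⟨ρ, H, σ₁, H₁, θ₀, τ, d + ε, C, d - ε, c, C₀⟩ (fam Ψ d ψ μ T) (Kfam KΨ d ψ μ T) := by
  have _ := hdρ
  have _ := hE
  obtain ⟨CΨ, hasy⟩ := hB.asy
  obtain ⟨Cu, cu, σ₂, hcu, hσ₂, hup⟩ := hB.up
  obtain ⟨CE, hupE⟩ := hB.upE
  have hd : (2 : ℝ) ≤ d := by exact_mod_cast h.hd
  refine ⟨(σ₂ - d) / 2, by linarith, ?_⟩
  intro ε hε hε₀
  obtain ⟨t₁, C₁, ht₁, hC₁, hfam⟩ := fam_facts d ψ Mb Ma ε h hε
  obtain ⟨t₂, C₂, ht₂, hC₂, hKcl⟩ := Kcl_facts d ψ Mb Ma ε t' h hε ht'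
  obtain ⟨t₃, ht₃, hblock⟩ := block_formula d ψ Mb Ma (c₃ / 4) t' h (by positivity) ht'
  obtain ⟨t₄, ht₄, hgr⟩ := cfg_growth d ψ Mb Ma ε h hε
  have hdε : 0 ≤ (d : ℝ) + ε := by linarith
  obtain ⟨D, hD⟩ := DC_beat (c := cu) (D := C₁ + C₂ + c₃ / 2) (σ := d + ε) (σ₂ := σ₂) hcu
    (by positivity) hdε (by linarith)
  refine ⟨max (max t₁ t₂) (max t₃ t₄), |CΨ| + 1 + C₂, c₃ / 2, max (Cu + D) CE,
    ht₁.trans ((le_max_left _ _).trans (le_max_left _ _)), by positivity, by positivity, ?_⟩
  intro t ht μ T A M hc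
  have ht1 : t₁ ≤ t := ((le_max_left _ _).trans (le_max_left _ _)).trans ht
  have ht2 : t₂ ≤ t := ((le_max_right _ _).trans (le_max_left _ _)).trans ht
  have ht3 : t₃ ≤ t := ((le_max_left _ _).trans (le_max_right _ _)).trans ht
  have ht4 : t₄ ≤ t := ((le_max_right _ _).trans (le_max_right _ _)).trans ht
  obtain ⟨f1, f2, f3, f4⟩ := hfam t ht1 μ T A M hc
  have hK := hKcl t ht2 μ T A M hc
  have hbl := hblock t ht3 μ T A M hc
  obtain ⟨g1, g2, g3, g4, g5⟩ := hgr t ht4 μ T A M hc
  have hangDS : ∀ w ∈ DS θ₀ (2 * τ), w.im ∈ Ang ψ t' := by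
    intro w hw
    rcases hw with hw | hw
    · exact Or.inl (le_trans hw.le hA0)
    · apply hA1
      rw [abs_lt] at hw
      exact ⟨by linarith [hw.1], by linarith [hw.2]⟩
  have hang0 : ∀ x : ℝ, (x : ℂ).im ∈ Ang ψ t' := by
    intro x
    left
    rw [Complex.ofReal_im, abs_zero]
    linarith
  have hDSx : ∀ x : ℝ, (x : ℂ) ∈ DS θ₀ (2 * τ) := by
    intro x
    left
    show |(x : ℂ).im| < 2 * τ
    rw [Complex.ofReal_im, abs_zero]
    linarith
  have hexpd : ∀ w : ℂ, exp (d * w) = exp w ^ d := fun w => Complex.exp_nat_mul w d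
  have hKim : ∀ x : ℝ, (Kcl d ψ μ T x).im = 0 := fun x =>
    (hK 0 (by simpa using hang0 0)).2.2.2 x
  have hnexp : ∀ w : ℂ, ‖exp ((d : ℂ) * w)‖ = Real.exp (d * w.re) := by
    intro w
    rw [Complex.norm_exp]
    simp
  -- the values on the real axis
  have hΨx : ∀ x : ℝ, Ψ (exp x) = (((Ψ (exp x)).re : ℝ) : ℂ) ∧ 0 < (Ψ (exp x)).re := by
    intro x
    have h1 := hB.ex x (hDSx x)
    have h2 := hB.re x
    constructor
    · apply Complex.ext
      · rw [Complex.ofReal_re]
      · rw [Complex.ofReal_im, ← h1, Complex.exp_im, h2, Real.sin_zero, mul_zero]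
    · rw [← h1, Complex.exp_re, h2, Real.cos_zero, mul_one]
      exact Real.exp_pos _
  have hfx : ∀ s : ℝ, (fam Ψ d ψ μ T (exp s)).re =
      (Ψ (exp s)).re * Real.exp (Real.exp (d * s)) * Real.exp (Kcl d ψ μ T s).re := by
    intro s
    have h1 := (hK s (hang0 s)).1
    have h2 : exp (exp ((s : ℂ)) ^ d) = ((Real.exp (Real.exp (d * s)) : ℝ) : ℂ) := by
      rw [← hexpd, Complex.ofReal_exp, Complex.ofReal_exp]
      push_cast
      rfl
    have h3 : Kcl d ψ μ T s = (((Kcl d ψ μ T s).re : ℝ) : ℂ) := by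
      apply Complex.ext
      · rw [Complex.ofReal_re]
      · rw [Complex.ofReal_im]; exact hKim s
    have h4 : exp (Kcl d ψ μ T s) = ((Real.exp (Kcl d ψ μ T s).re : ℝ) : ℂ) := by
      rw [Complex.ofReal_exp, ← h3]
    have h5 : fam Ψ d ψ μ T (exp s) = (((Ψ (exp s)).re * Real.exp (Real.exp (d * s)) *
        Real.exp (Kcl d ψ μ T s).re : ℝ) : ℂ) := by
      show Ψ (exp s) * exp (exp (s : ℂ) ^ d) * (∏' j, cl d ψ (exp (s : ℂ) / T j) ^ μ j) = _
      rw [← h1, h4, h2, Complex.ofReal_mul, Complex.ofReal_mul, ← (hΨx s).1]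
    rw [h5, Complex.ofReal_re]
  exact
    { ent := f1 Ψ hB.ent
      an := by
        intro w hw
        have h1 := hB.an w hw
        have h2 : DifferentiableAt ℂ (fun w : ℂ => exp (d * w)) w := by fun_prop
        have h3 := (hK w (hangDS w hw)).2.1
        exact (h1.add h2.differentiableWithinAt).add h3.differentiableWithinAt
      ex := by
        intro w hw
        have h1 := hB.ex w hw
        have h2 := (hK w (hangDS w hw)).1
        unfold Kfam fam
        rw [Complex.exp_add, Complex.exp_add, h1, h2, hexpd]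
      re := by
        intro x
        unfold Kfam
        rw [Complex.add_im, Complex.add_im, hB.re x, hKim x]
        have h2 : exp ((d : ℂ) * x) = ((Real.exp (d * x) : ℝ) : ℂ) := by
          rw [Complex.ofReal_exp]
          push_cast
          rfl
        rw [h2, Complex.ofReal_im]
        simp
      asy := by
        intro w hw hw0
        have h1 := hasy w hw hw0
        have h2 := (hK w (hangDS w hw)).2.2.1 hw0
        have h3 := hnexp w
        have e : Kfam KΨ d ψ μ T w - ((H : ℂ) * exp (ρ * w) + H₁ * exp (σ₁ * w)) =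
            (KΨ w - (H * exp (ρ * w) + H₁ * exp (σ₁ * w))) + exp (d * w) + Kcl d ψ μ T w := by
          unfold Kfam
          ring
        show ‖Kfam KΨ d ψ μ T w - ((H : ℂ) * exp (ρ * w) + H₁ * exp (σ₁ * w))‖ ≤
          (|CΨ| + 1 + C₂) * Real.exp ((d + ε) * w.re)
        rw [e]
        have m1 : Real.exp w.re ≤ Real.exp ((d + ε) * w.re) := by
          apply Real.exp_le_exp.2
          nlinarith
        have m2 : Real.exp (d * w.re) ≤ Real.exp ((d + ε) * w.re) := by
          apply Real.exp_le_exp.2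
          nlinarith
        have m3 : CΨ * Real.exp w.re ≤ |CΨ| * Real.exp ((d + ε) * w.re) :=
          (mul_le_mul_of_nonneg_right (le_abs_self _) (Real.exp_pos _).le).trans
            (mul_le_mul_of_nonneg_left m1 (abs_nonneg _))
        calc _ ≤ CΨ * Real.exp w.re + Real.exp (d * w.re) + C₂ * Real.exp ((d + ε) * w.re) :=
              (norm_add_le _ _).trans (add_le_add ((norm_add_le _ _).trans
                (add_le_add h1 h3.le)) h2)
          _ ≤ _ := by linarith
      dec := by
        intro s θ hs hθ1 hθ2 hθ3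
        show ‖fam Ψ d ψ μ T (exp (s + θ * I))‖ ≤
          Real.exp (max (Cu + D) CE - c₃ / 2 * Real.exp ((d - ε) * s)) *
            (fam Ψ d ψ μ T (exp s)).re
        rw [hfx s]
        have hpos : 0 < (Ψ (exp s)).re := (hΨx s).2
        have hnz : ‖exp ((s : ℂ) + θ * I)‖ = Real.exp s := by
          rw [Complex.norm_exp]
          simp
        have hre : ((s : ℂ) + θ * I).re = s := by simp
        have him : ((s : ℂ) + θ * I).im = θ := by simp
        have hed : (exp ((d : ℂ) * (s + θ * I))).re = Real.exp (d * s) * Real.cos (d * θ) := by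
          rw [Complex.exp_re]
          simp
        by_cases hθE : θ ∈ E
        · -- `θ ∈ E`
          have hang : ((s : ℂ) + θ * I).im ∈ Ang ψ t' := by rw [him]; exact hEA hθE
          obtain ⟨i, hz1, hz2⟩ := DC_zone (ht₄.trans ht4) hc g3 s
          have hTi : 0 < T i := lt_of_lt_of_le (by have := ht₄.trans ht4; positivity) (g3 i)
          have b1 := hbl i (s + θ * I) hang (by rw [hre]; exact hz1) (by rw [hre]; exact hz2)
          have b2 := hbl i s (hang0 s) (by rw [Complex.ofReal_re]; exact hz1)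
            (by rw [Complex.ofReal_re]; exact hz2)
          rw [hre] at b1
          rw [Complex.ofReal_re] at b2
          set x : ℝ := s - Real.log (T i) with hx
          have hw1 : (s : ℂ) + θ * I - Real.log (T i) = x + θ * I := by rw [hx]; push_cast; ring
          have hw2 : (s : ℂ) - Real.log (T i) = x := by rw [hx]; push_cast; ring
          rw [hw1] at b1
          rw [hw2] at b2
          have r1 := (Complex.re_le_norm _).trans b1
          have r2 := neg_le_of_abs_le ((Complex.abs_re_le_norm _).trans b2)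
          have hA1re : (((A i : ℂ) - 1) * exp ((d : ℂ) * (s + θ * I))).re =
              (A i - 1) * (Real.exp (d * s) * Real.cos (d * θ)) := by
            rw [show ((A i : ℂ) - 1) = ((A i - 1 : ℝ) : ℂ) by push_cast; ring,
              Complex.re_ofReal_mul, hed]
          have hA2re : (((A i : ℂ) - 1) * exp ((d : ℂ) * s)).re =
              (A i - 1) * Real.exp (d * s) := by
            rw [show ((A i : ℂ) - 1) = ((A i - 1 : ℝ) : ℂ) by push_cast; ring,
              Complex.re_ofReal_mul, Complex.exp_re]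
            simp
          have hmre : ∀ z : ℂ, ((μ i : ℂ) * z).re = (μ i : ℝ) * z.re := by
            intro z
            rw [show (μ i : ℂ) = (((μ i : ℕ) : ℝ) : ℂ) by push_cast; rfl, Complex.re_ofReal_mul]
          rw [Complex.sub_re, Complex.sub_re, hA1re, hmre] at r1
          rw [Complex.sub_re, Complex.sub_re, hA2re, hmre] at r2
          have hk : kap d ψ θ x = (elog d ψ x).re - (elog d ψ (x + θ * I)).re := rfl
          have hed' : Real.exp (d * s) = T i ^ d * Real.exp (d * x) := by
            rw [hx, show (d : ℝ) * (s - Real.log (T i)) = d * s - d * Real.log (T i) by ring,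
              Real.exp_sub, show Real.exp (d * Real.log (T i)) = T i ^ d by
                rw [Real.exp_nat_mul, Real.exp_log hTi]]
            field_simp
          have h3 := hE3 θ hθE x (M i) (hc.Mlo i) (hc.Mhi i)
          have hAi := g1 i
          have hAT : 0 < A i * T i ^ d := by positivity
          have h4 := mul_le_mul_of_nonneg_left h3 hAT.le
          have h5 : A i * T i ^ d * (c₃ * Real.exp (d * x)) = c₃ * (A i * Real.exp (d * s)) := by
            rw [hed']; ring
          have h6 : A i * T i ^ d * ((1 - Real.cos (d * θ)) * Real.exp (d * x) +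
              M i * kap d ψ θ x) = A i * (1 - Real.cos (d * θ)) * Real.exp (d * s) +
              (μ i : ℝ) * kap d ψ θ x := by
            rw [hed', hc.mu i]; ring
          rw [h5, h6, hk] at h4
          have hAlow : Real.exp (-(ε * s)) ≤ A i := by
            rcases i with _ | j
            · rw [hc.A0]
              apply Real.exp_le_one_iff.2
              have : 0 ≤ ε * s := by positivity
              linarith
            · refine le_trans ?_ (g5 j)
              have hTj : 0 < T j := lt_of_lt_of_le (by have := ht₄.trans ht4; positivity) (g3 j)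
              rw [Real.rpow_def_of_pos hTj]
              apply Real.exp_le_exp.2
              have h7 := hz1 j rfl
              have h8 : 0 ≤ Real.log (T j) := by
                apply Real.log_nonneg
                refine le_trans ?_ (g3 j)
                exact one_le_pow₀ (by linarith [ht₄.trans ht4])
              nlinarith
          have hexpA : Real.exp ((d - ε) * s) ≤ A i * Real.exp (d * s) := by
            have : Real.exp ((d - ε) * s) = Real.exp (-(ε * s)) * Real.exp (d * s) := by
              rw [← Real.exp_add]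
              congr 1
              ring
            rw [this]
            exact mul_le_mul_of_nonneg_right hAlow (Real.exp_pos _).le
          -- the exponents
          have hkey : Real.exp (d * s) * Real.cos (d * θ) + (Kcl d ψ μ T (s + θ * I)).re ≤
              Real.exp (d * s) + (Kcl d ψ μ T s).re - c₃ / 2 * Real.exp ((d - ε) * s) := by
            have h9 : c₃ / 2 * Real.exp ((d - ε) * s) ≤ c₃ / 2 * (A i * Real.exp (d * s)) :=
              mul_le_mul_of_nonneg_left hexpA (by positivity)
            nlinarith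
          have hprod := (hK (s + θ * I) hang).1
          unfold fam
          rw [← hprod, ← hexpd, norm_mul, norm_mul, Complex.norm_exp, Complex.norm_exp, hed]
          have hu := hupE s θ hs hθE
          calc ‖Ψ (exp (s + θ * I))‖ * Real.exp (Real.exp (d * s) * Real.cos (d * θ)) *
                Real.exp (Kcl d ψ μ T (s + θ * I)).re
              = ‖Ψ (exp (s + θ * I))‖ * Real.exp (Real.exp (d * s) * Real.cos (d * θ) +
                  (Kcl d ψ μ T (s + θ * I)).re) := by rw [Real.exp_add]; ring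
            _ ≤ (Real.exp CE * (Ψ (exp s)).re) * Real.exp (Real.exp (d * s) +
                  (Kcl d ψ μ T s).re - c₃ / 2 * Real.exp ((d - ε) * s)) :=
                mul_le_mul hu (Real.exp_le_exp.2 hkey) (Real.exp_pos _).le (by positivity)
            _ = Real.exp (CE - c₃ / 2 * Real.exp ((d - ε) * s)) *
                  ((Ψ (exp s)).re * Real.exp (Real.exp (d * s)) *
                    Real.exp (Kcl d ψ μ T s).re) := by
                rw [Real.exp_sub, Real.exp_sub, Real.exp_add]
                ring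
            _ ≤ _ := by
                apply mul_le_mul_of_nonneg_right _ (by positivity)
                apply Real.exp_le_exp.2
                have := le_max_right (Cu + D) CE
                linarith
        · -- `θ ∉ E`
          have hu := hup s θ hs hθ1 hθ2 hθ3 hθE
          have h1 := f3 (exp (s + θ * I)) (by rw [hnz]; exact Real.one_le_exp hs)
          rw [hnz, ← Real.exp_mul, mul_comm s] at h1
          have h2 := (hK s (hang0 s)).2.2.1 (by rw [Complex.ofReal_re]; exact hs)
          rw [Complex.ofReal_re] at h2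
          have h3 := neg_le_of_abs_le ((Complex.abs_re_le_norm _).trans h2)
          have h4 := hD s hs
          have h5 : ‖exp (exp ((s : ℂ) + θ * I) ^ d)‖ ≤ Real.exp (Real.exp (d * s)) := by
            rw [← hexpd, Complex.norm_exp, hed]
            apply Real.exp_le_exp.2
            have := mul_le_mul_of_nonneg_left (Real.cos_le_one (d * θ)) (Real.exp_pos (d * s)).le
            linarith
          have h6 : Real.exp ((d - ε) * s) ≤ Real.exp ((d + ε) * s) := by
            apply Real.exp_le_exp.2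
            nlinarith
          have h7 : c₃ / 2 * Real.exp ((d - ε) * s) ≤ c₃ / 2 * Real.exp ((d + ε) * s) :=
            mul_le_mul_of_nonneg_left h6 (by positivity)
          have hkey : Cu - cu * Real.exp (σ₂ * s) + C₁ * Real.exp ((d + ε) * s) ≤
              (Cu + D) - c₃ / 2 * Real.exp ((d - ε) * s) + (Kcl d ψ μ T s).re := by
            have h8 : (C₁ + C₂ + c₃ / 2) * Real.exp ((d + ε) * s) =
              C₁ * Real.exp ((d + ε) * s) + C₂ * Real.exp ((d + ε) * s) +
                c₃ / 2 * Real.exp ((d + ε) * s) := by ring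
            rw [h8] at h4
            linarith
          unfold fam
          rw [norm_mul, norm_mul]
          calc ‖Ψ (exp (s + θ * I))‖ * ‖exp (exp ((s : ℂ) + θ * I) ^ d)‖ *
                ‖∏' j, cl d ψ (exp (s + θ * I) / T j) ^ μ j‖
              ≤ (Real.exp (Cu - cu * Real.exp (σ₂ * s)) * (Ψ (exp s)).re *
                  Real.exp (Real.exp (d * s))) * Real.exp (C₁ * Real.exp ((d + ε) * s)) :=
                mul_le_mul (mul_le_mul hu h5 (norm_nonneg _) (by positivity)) h1 (norm_nonneg _)
                  (by positivity)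
            _ = (Ψ (exp s)).re * Real.exp (Real.exp (d * s)) *
                  Real.exp (Cu - cu * Real.exp (σ₂ * s) + C₁ * Real.exp ((d + ε) * s)) := by
                rw [Real.exp_add (Cu - cu * Real.exp (σ₂ * s))]
                ring
            _ ≤ (Ψ (exp s)).re * Real.exp (Real.exp (d * s)) *
                  Real.exp ((Cu + D) - c₃ / 2 * Real.exp ((d - ε) * s) + (Kcl d ψ μ T s).re) := by
                apply mul_le_mul_of_nonneg_left _ (by positivity)
                exact Real.exp_le_exp.2 hkey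
            _ = Real.exp ((Cu + D) - c₃ / 2 * Real.exp ((d - ε) * s)) *
                  ((Ψ (exp s)).re * Real.exp (Real.exp (d * s)) *
                    Real.exp (Kcl d ψ μ T s).re) := by
                rw [Real.exp_add (Cu + D - c₃ / 2 * Real.exp ((d - ε) * s))]
                ring
            _ ≤ _ := by
                apply mul_le_mul_of_nonneg_right _ (by positivity)
                apply Real.exp_le_exp.2
                have := le_max_left (Cu + D) CE
                linarith }

end Pool.Agent.helper74.LG
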