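import Mathlib
import Pool.Agent.helper38.LacDefs

set_option autoImplicit false

namespace Pool.Agent.helper74.LG

open Complex Set Filter Topology MeasureTheory

/-- Taylor coefficient at `0`. -/
noncomputable def coef (f : ℂ → ℂ) (m : ℕ) : ℂ := iteratedDeriv m f 0 / (m.factorial : ℂ)

/-- Real part of the Taylor coefficient. -/
noncomputable def rco (f : ℂ → ℂ) (m : ℕ) : ℝ := (coef f m).re

/-- Real entire functions. -/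
def RealEnt (f : ℂ → ℂ) : Prop :=
  Differentiable ℂ f ∧ ∀ z, f ((starRingEnd ℂ) z) = (starRingEnd ℂ) (f z)

/-- The double strip around the horizontal lines `Im w = 0` and `Im w = θ₀`. -/
def DS (θ₀ t : ℝ) : Set ℂ := {w : ℂ | |w.im| < t ∨ |w.im - θ₀| < t}

/-- Parameters of a class of functions. -/
structure CP where
  ρ : ℝ
  H : ℝ
  σ₁ : ℝ
  H₁ : ℝ
  θ₀ : ℝ
  τ : ℝ
  σ : ℝ
  C : ℝ
  σm : ℝ
  c : ℝ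
  C₀ : ℝ

/-- Admissible parameters. -/
structure CP.Ok (P : CP) : Prop where
  ρ1 : 1 < P.ρ
  H0 : 0 < P.H
  σ₁0 : 0 < P.σ₁
  σ₁ρ : P.σ₁ < P.ρ
  H₁0 : 0 ≤ P.H₁
  θlo : Real.pi / 2 < P.θ₀
  θhi : P.θ₀ ≤ Real.pi
  τ0 : 0 < P.τ
  τ1 : 32 * (P.ρ + 1) * P.τ ≤ 1
  τ2 : P.θ₀ < Real.pi → P.θ₀ + 2 * P.τ < Real.pi
  σ0 : 0 < P.σ
  σρ : P.σ < P.ρ
  C0 : 0 < P.C
  σm0 : 0 < P.σm
  c0 : 0 < P.c
  per : exp (P.ρ * P.θ₀ * I) = 1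
  per₁ : P.H₁ = 0 ∨ exp (P.σ₁ * P.θ₀ * I) = 1

/-- The class of real entire functions `f` with logarithm `K` (in the variable `log z`) on the
double strip. -/
structure Cls (P : CP) (f K : ℂ → ℂ) : Prop where
  ent : RealEnt f
  an : DifferentiableOn ℂ K (DS P.θ₀ (2 * P.τ))
  ex : ∀ w ∈ DS P.θ₀ (2 * P.τ), exp (K w) = f (exp w)
  re : ∀ x : ℝ, (K x).im = 0
  asy : ∀ w ∈ DS P.θ₀ (2 * P.τ), 0 ≤ w.re →
    ‖K w - (P.H * exp (P.ρ * w) + P.H₁ * exp (P.σ₁ * w))‖ ≤ P.C * Real.exp (P.σ * w.re)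
  dec : ∀ s θ : ℝ, 0 ≤ s → θ ≤ Real.pi → P.τ / 2 ≤ θ → P.τ / 2 ≤ |θ - P.θ₀| →
    ‖f (exp (s + θ * I))‖ ≤ Real.exp (P.C₀ - P.c * Real.exp (P.σm * s)) * (f (exp s)).re

/-- Saddle points: `s m` real, `w₁ m` near `s m + i θ₀`. -/
def Sad (P : CP) (K : ℂ → ℂ) (m₀ : ℕ) (C' : ℝ) (s : ℕ → ℝ) (w₁ : ℕ → ℂ) : Prop :=
  ∀ m : ℕ, m₀ ≤ m → 2 ≤ s m ∧ deriv K (s m) = m ∧ deriv K (w₁ m) = m ∧
    ‖w₁ m - (s m + P.θ₀ * I)‖ ≤ C' * Real.exp ((P.σ - P.ρ) * s m) ∧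
    |(m : ℝ) - P.H * P.ρ * Real.exp (P.ρ * s m)| ≤ C' * Real.exp (max P.σ P.σ₁ * s m)

/-- The relative size of the contribution of the second saddle point. -/
noncomputable def Xof (K : ℂ → ℂ) (s : ℕ → ℝ) (w₁ : ℕ → ℂ) (m : ℕ) : ℂ :=
  exp (K (w₁ m) - m * w₁ m - K (s m) + m * (s m))

/-- The size of the contribution of the real saddle point. -/
noncomputable def Nof (P : CP) (K : ℂ → ℂ) (s : ℕ → ℝ) (m : ℕ) : ℝ :=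
  Real.exp ((K (s m)).re - m * s m) /
    Real.sqrt (2 * Real.pi * (P.H * P.ρ ^ 2 * Real.exp (P.ρ * s m)))

/-- The multiplicity of the second peak: `±θ₀` are different peaks unless `θ₀ = π`. -/
noncomputable def pk (θ₀ : ℝ) : ℝ := if θ₀ = Real.pi then 1 else 2

/-- The polynomial in the exponent of the cluster factor. -/
noncomputable def clPoly (d : ℕ) (ψ : ℝ) (x : ℂ) : ℂ :=
  ∑ j ∈ Finset.Icc 1 d, ((2 * Real.cos (j * ψ) / j : ℝ) : ℂ) * x ^ j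

/-- The cluster factor: zeros at `exp (± i ψ)`, equal to `1 + O(x^(d+1))` at `0`. -/
noncomputable def cl (d : ℕ) (ψ : ℝ) (x : ℂ) : ℂ :=
  (1 - 2 * (Real.cos ψ : ℂ) * x + x ^ 2) * exp (clPoly d ψ x)

/-- The logarithm of the cluster factor in the variable `w = log x`. -/
noncomputable def elog (d : ℕ) (ψ : ℝ) (w : ℂ) : ℂ :=
  log (1 - exp (w - ψ * I)) + log (1 - exp (w + ψ * I)) + clPoly d ψ (exp w)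

/-- The coefficient of `x ^ d` in the exponent. -/
noncomputable def qc (d : ℕ) (ψ : ℝ) : ℝ := 2 * Real.cos (d * ψ) / d

/-- Angles at distance at least `t` from `± ψ` (modulo `2π`). -/
def Ang (ψ t : ℝ) : Set ℝ := {θ : ℝ | |θ| ≤ ψ - t ∨ |θ - Real.pi| ≤ Real.pi - ψ - t}

/-- A sparse configuration of clusters. -/
structure Cfg (d : ℕ) (q Mb Ma t : ℝ) (μ : ℕ → ℕ) (T A M : ℕ → ℝ) : Prop where
  A0 : A 0 = 1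
  As : ∀ j, A (j + 1) = A j * (1 + q * M j)
  Mlo : ∀ j, Mb ≤ M j
  Mhi : ∀ j, M j ≤ Ma
  mu : ∀ j, (μ j : ℝ) = A j * M j * T j ^ d
  t0 : t ≤ T 0
  sp : ∀ j, T j ^ 8 ≤ T (j + 1)

/-- The family of functions. -/
noncomputable def fam (Ψ : ℂ → ℂ) (d : ℕ) (ψ : ℝ) (μ : ℕ → ℕ) (T : ℕ → ℝ) (z : ℂ) : ℂ :=
  Ψ z * exp (z ^ d) * ∏' j, cl d ψ (z / T j) ^ μ j

/-- The sum of the logarithms of the cluster factors. -/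
noncomputable def Kcl (d : ℕ) (ψ : ℝ) (μ : ℕ → ℕ) (T : ℕ → ℝ) (w : ℂ) : ℂ :=
  ∑' j, (μ j : ℂ) * elog d ψ (w - Real.log (T j))

/-- The logarithm of `fam`. -/
noncomputable def Kfam (KΨ : ℂ → ℂ) (d : ℕ) (ψ : ℝ) (μ : ℕ → ℕ) (T : ℕ → ℝ) (w : ℂ) : ℂ :=
  KΨ w + exp (d * w) + Kcl d ψ μ T w

/-- `log |C(u)| - log |C(u e^{iθ})|` with `u = e^x`. -/
noncomputable def kap (d : ℕ) (ψ θ x : ℝ) : ℝ :=
  (elog d ψ x).re - (elog d ψ (x + θ * I)).re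

/-- Base functions. -/
structure Base (ρ H σ₁ H₁ θ₀ τ δ₀ : ℝ) (d : ℕ) (E : Set ℝ) (Ψ KΨ : ℂ → ℂ) : Prop where
  ent : RealEnt Ψ
  an : DifferentiableOn ℂ KΨ (DS θ₀ (2 * τ))
  ex : ∀ w ∈ DS θ₀ (2 * τ), exp (KΨ w) = Ψ (exp w)
  re : ∀ x : ℝ, (KΨ x).im = 0
  z0 : 0 < (Ψ 0).re
  asy : ∃ C, ∀ w ∈ DS θ₀ (2 * τ), 0 ≤ w.re →
    ‖KΨ w - (H * exp (ρ * w) + H₁ * exp (σ₁ * w))‖ ≤ C * Real.exp w.re
  up : ∃ C c σ₂ : ℝ, 0 < c ∧ (d : ℝ) < σ₂ ∧ ∀ s θ : ℝ, 0 ≤ s → θ ≤ Real.pi → τ / 2 ≤ θ →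
    τ / 2 ≤ |θ - θ₀| → θ ∉ E →
    ‖Ψ (exp (s + θ * I))‖ ≤ Real.exp (C - c * Real.exp (σ₂ * s)) * (Ψ (exp s)).re
  upE : ∃ C : ℝ, ∀ s θ : ℝ, 0 ≤ s → θ ∈ E → ‖Ψ (exp (s + θ * I))‖ ≤ Real.exp C * (Ψ (exp s)).re
  zer : ∃ R : ℝ, ∀ z, Ψ z = 0 → R ≤ ‖z‖ → δ₀ ≤ |arg z|

end Pool.Agent.helper74.LG
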