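import Pool.Agent.helper74.LG.Defs

set_option autoImplicit false

namespace Pool.Agent.helper74.LG

open Complex Set Filter Topology MeasureTheory

/-- Admissible cluster parameters. -/
structure CC (d : ℕ) (ψ Mb Ma : ℝ) : Prop where
  hd : 2 ≤ d
  ψlo : Real.pi / 2 < ψ
  ψhi : ψ ≤ Real.pi
  Mb0 : 0 < Mb
  MbMa : Mb ≤ Ma
  Q : 0 < 1 + qc d ψ * Ma

/-- The partial products `A j`. -/
noncomputable def Aof (q : ℝ) (M : ℕ → ℝ) (j : ℕ) : ℝ := ∏ i ∈ Finset.range j, (1 + q * M i)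

/-- The radii of the clusters as functions of the parameters `M`. -/
noncomputable def Tof (d : ℕ) (q : ℝ) (μ : ℕ → ℕ) (M : ℕ → ℝ) (j : ℕ) : ℝ :=
  ((μ j : ℝ) / (Aof q M j * M j)) ^ (1 / (d : ℝ))

/-- The box of parameters. -/
def Box (Mb Ma : ℝ) : Set (ℕ → ℝ) := {M : ℕ → ℝ | ∀ j, M j ∈ Icc Mb Ma}

end Pool.Agent.helper74.LG
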