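import Pool.Agent.helper74.LG.Defs3

set_option autoImplicit false

namespace Pool.Agent.helper74.LG

open Complex Set Filter Topology MeasureTheory

theorem FA_lp_eq (p : ℕ) : lp p = fun z => log (1 + z) - logTaylor (p + 1) z := by
  funext z
  unfold lp logTaylor
  congr 1
  rw [Finset.range_eq_Ico, Finset.sum_eq_sum_Ico_succ_bot (by omega)]
  simp only [Nat.cast_zero, div_zero, zero_add]
  have : Finset.Icc 1 p = Finset.Ico 1 (p + 1) := by
    ext a; simp only [Finset.mem_Icc, Finset.mem_Ico]; omega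
  rw [this]
  refine Finset.sum_congr rfl fun j hj => ?_
  have hj1 : 1 ≤ j := (Finset.mem_Ico.mp hj).1
  have : (-1 : ℂ) ^ (j + 1) = (-1 : ℂ) ^ (j - 1) := by
    obtain ⟨k, rfl⟩ : ∃ k, j = k + 1 := ⟨j - 1, by omega⟩
    rw [Nat.add_sub_cancel, pow_add, pow_add]
    norm_num
  rw [this]

theorem FA_lp_deriv (p : ℕ) {z : ℂ} (hz : 1 + z ∈ slitPlane) :
    HasDerivAt (lp p) ((-z) ^ p * (1 + z)⁻¹) z := by
  rw [FA_lp_eq]
  exact hasDerivAt_log_sub_logTaylor p hz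

theorem FA_lp_zero (p : ℕ) : lp p 0 = 0 := by
  rw [FA_lp_eq]
  simp [logTaylor_at_zero]

theorem FA_lower (b : ℝ) (hb : b < Real.pi) (r θ : ℝ) (_ : 0 ≤ r) (hθ : |θ| ≤ b) :
    Real.cos (b / 2) * (1 + r) ≤ ‖1 + (r : ℂ) * exp (θ * I)‖ := by
  have hpi := Real.pi_pos
  have hb0 : 0 ≤ b := (abs_nonneg θ).trans hθ
  have hc0 : 0 ≤ Real.cos (b / 2) :=
    Real.cos_nonneg_of_mem_Icc ⟨by linarith, by linarith⟩
  apply le_of_sq_le_sq _ (norm_nonneg _)
  rw [← normSq_eq_norm_sq, normSq_apply, exp_mul_I, ← ofReal_cos, ← ofReal_sin]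
  simp only [add_re, one_re, mul_re, ofReal_re, I_re, mul_zero, ofReal_im, I_im, mul_one, sub_self,
    add_zero, add_im, mul_im, zero_add, one_im, zero_mul, sub_zero]
  have h1 := Real.sin_sq_add_cos_sq θ
  have h2 : Real.cos (b / 2) ^ 2 = (1 + Real.cos b) / 2 := by
    rw [Real.cos_sq]
    ring_nf
  have h3 : Real.cos b ≤ Real.cos θ := by
    rw [← Real.cos_abs θ]
    exact Real.cos_le_cos_of_nonneg_of_le_pi (abs_nonneg _) hb.le hθ
  have h4 : Real.cos θ ≤ 1 := Real.cos_le_one θ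
  rw [mul_pow, h2]
  have h5 : (1 + Real.cos b) / 2 * (1 + r) ^ 2 ≤ (1 + Real.cos θ) / 2 * (1 + r) ^ 2 := by
    apply mul_le_mul_of_nonneg_right _ (sq_nonneg _)
    linarith
  have h6 : 0 ≤ (1 - Real.cos θ) * (1 - r) ^ 2 :=
    mul_nonneg (by linarith) (sq_nonneg _)
  nlinarith
where
  le_of_sq_le_sq {a b : ℝ} (h : a ^ 2 ≤ b ^ 2) (hb : 0 ≤ b) : a ≤ b := by
    exact le_of_abs_le ((sq_le_sq.mp h).trans (le_of_eq (abs_of_nonneg hb)))

theorem FA_slit (r θ : ℝ) (hr : 0 ≤ r) (hθ : |θ| < Real.pi) :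
    1 + (r : ℂ) * exp (θ * I) ∈ slitPlane := by
  rw [mem_slitPlane_iff, exp_mul_I, ← ofReal_cos, ← ofReal_sin]
  simp only [add_re, one_re, mul_re, ofReal_re, I_re, mul_zero, ofReal_im, I_im, mul_one, sub_self,
    add_zero, add_im, mul_im, zero_add, one_im, zero_mul, sub_zero]
  by_cases h : 0 < 1 + r * Real.cos θ
  · exact Or.inl h
  · right
    intro h2
    have hr0 : r ≠ 0 := by
      rintro rfl
      apply h
      norm_num
    have hs : Real.sin θ = 0 := by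
      rcases mul_eq_zero.mp h2 with h3 | h3
      · exact absurd h3 hr0
      · exact h3
    rw [abs_lt] at hθ
    rw [Real.sin_eq_zero_iff_of_lt_of_lt hθ.1 hθ.2] at hs
    apply h
    rw [hs, Real.cos_zero]
    linarith

theorem FA_core (p : ℕ) (hp : 1 ≤ p) (b : ℝ) (hb : b < Real.pi) (r θ : ℝ) (hr : 0 ≤ r)
    (hθ : |θ| ≤ b) :
    r * (r ^ p / ‖1 + (r : ℂ) * exp (θ * I)‖) ≤ r ^ (p + 1) / Real.cos (b / 2) ∧
    r ^ p / ‖1 + (r : ℂ) * exp (θ * I)‖ ≤ r ^ (p - 1) / Real.cos (b / 2) := by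
  have hpi := Real.pi_pos
  have hb0 : 0 ≤ b := (abs_nonneg θ).trans hθ
  have hc0 : 0 < Real.cos (b / 2) :=
    Real.cos_pos_of_mem_Ioo ⟨by linarith, by linarith⟩
  have h := FA_lower b hb r θ hr hθ
  have h1 : Real.cos (b / 2) ≤ ‖1 + (r : ℂ) * exp (θ * I)‖ := by
    nlinarith
  have h2 : Real.cos (b / 2) * r ≤ ‖1 + (r : ℂ) * exp (θ * I)‖ := by
    nlinarith
  have h3 : 0 < ‖1 + (r : ℂ) * exp (θ * I)‖ := lt_of_lt_of_le hc0 h1
  constructor
  · have : r ^ p / ‖1 + (r : ℂ) * exp (θ * I)‖ ≤ r ^ p / Real.cos (b / 2) :=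
      div_le_div_of_nonneg_left (by positivity) hc0 h1
    calc r * (r ^ p / ‖1 + (r : ℂ) * exp (θ * I)‖) ≤ r * (r ^ p / Real.cos (b / 2)) :=
          mul_le_mul_of_nonneg_left this hr
      _ = r ^ (p + 1) / Real.cos (b / 2) := by rw [pow_succ]; ring
  · rw [div_le_div_iff₀ h3 hc0]
    obtain ⟨k, rfl⟩ : ∃ k, p = k + 1 := ⟨p - 1, by omega⟩
    rw [Nat.add_sub_cancel]
    calc r ^ (k + 1) * Real.cos (b / 2) = r ^ k * (Real.cos (b / 2) * r) := by ring
      _ ≤ r ^ k * ‖1 + (r : ℂ) * exp (θ * I)‖ := mul_le_mul_of_nonneg_left h2 (by positivity)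

theorem FA_dbound (p : ℕ) (hp : 1 ≤ p) (b : ℝ) (hb : b < Real.pi) (r θ : ℝ) (hr : 0 ≤ r)
    (hθ : |θ| ≤ b) :
    ‖(-((r : ℂ) * exp (θ * I))) ^ p * (1 + (r : ℂ) * exp (θ * I))⁻¹ * ((r : ℂ) * exp (θ * I))‖ ≤
      r ^ (p + 1) / Real.cos (b / 2) ∧
    ‖(-((r : ℂ) * exp (θ * I))) ^ p * (1 + (r : ℂ) * exp (θ * I))⁻¹ * ((r : ℂ) * exp (θ * I))‖ ≤
      r ^ p / Real.cos (b / 2) := by
  have hn : ‖(r : ℂ) * exp (θ * I)‖ = r := by
    rw [norm_mul, norm_exp_ofReal_mul_I, mul_one, norm_real, Real.norm_eq_abs, abs_of_nonneg hr]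
  have e : ‖(-((r : ℂ) * exp (θ * I))) ^ p * (1 + (r : ℂ) * exp (θ * I))⁻¹ *
      ((r : ℂ) * exp (θ * I))‖ = r * (r ^ p / ‖1 + (r : ℂ) * exp (θ * I)‖) := by
    rw [norm_mul, norm_mul, norm_pow, norm_neg, norm_inv, hn]
    ring
  rw [e]
  obtain ⟨h1, h2⟩ := FA_core p hp b hb r θ hr hθ
  refine ⟨h1, ?_⟩
  calc r * (r ^ p / ‖1 + (r : ℂ) * exp (θ * I)‖) ≤ r * (r ^ (p - 1) / Real.cos (b / 2)) :=
        mul_le_mul_of_nonneg_left h2 hr
    _ = r ^ p / Real.cos (b / 2) := by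
        obtain ⟨k, rfl⟩ : ∃ k, p = k + 1 := ⟨p - 1, by omega⟩
        rw [Nat.add_sub_cancel, pow_succ]; ring

theorem FA_bound (p : ℕ) (hp : 1 ≤ p) (b : ℝ) (hb : b < Real.pi) (r θ : ℝ) (hr : 0 ≤ r)
    (hθ : |θ| ≤ b) :
    ‖lp p ((r : ℂ) * exp (θ * I))‖ ≤ r ^ (p + 1) / Real.cos (b / 2) ∧
    ‖lp p ((r : ℂ) * exp (θ * I))‖ ≤ r ^ p / Real.cos (b / 2) := by
  have hpi := Real.pi_pos
  have hb0 : 0 ≤ b := (abs_nonneg θ).trans hθ
  have hc0 : 0 < Real.cos (b / 2) :=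
    Real.cos_pos_of_mem_Ioo ⟨by linarith, by linarith⟩
  set z : ℂ := (r : ℂ) * exp (θ * I) with hz
  have hn : ‖z‖ = r := by
    rw [hz, norm_mul, norm_exp_ofReal_mul_I, mul_one, norm_real, Real.norm_eq_abs,
      abs_of_nonneg hr]
  have hsz : ∀ s : ℝ, (s : ℂ) * z = ((s * r : ℝ) : ℂ) * exp (θ * I) := by
    intro s; rw [hz]; push_cast; ring
  have hder : ∀ s ∈ Icc (0 : ℝ) 1, HasDerivWithinAt (fun s : ℝ => lp p ((s : ℂ) * z))
      ((-((s : ℂ) * z)) ^ p * (1 + (s : ℂ) * z)⁻¹ * z) (Icc 0 1) s := by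
    intro s hs
    have hsl : 1 + (s : ℂ) * z ∈ slitPlane := by
      rw [hsz]
      exact FA_slit _ _ (mul_nonneg hs.1 hr) (lt_of_le_of_lt hθ hb)
    have h1 : HasDerivAt (fun s : ℝ => (s : ℂ) * z) z s := by
      have := (ofRealCLM.hasDerivAt (x := s)).mul_const z
      simpa using this
    exact ((FA_lp_deriv p hsl).comp s h1).hasDerivWithinAt
  have hval : lp p ((1 : ℝ) * z) - lp p ((0 : ℝ) * z) = lp p z := by
    rw [ofReal_one, ofReal_zero, one_mul, zero_mul, FA_lp_zero, sub_zero]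
  have hnorm : ∀ s ∈ Ico (0 : ℝ) 1, ‖(-((s : ℂ) * z)) ^ p * (1 + (s : ℂ) * z)⁻¹ * z‖ =
      r * ((s * r) ^ p / ‖1 + ((s * r : ℝ) : ℂ) * exp (θ * I)‖) := by
    intro s hs
    rw [norm_mul, norm_mul, norm_pow, norm_neg, norm_inv, norm_mul, hn, norm_real,
      Real.norm_eq_abs, abs_of_nonneg hs.1, hsz]
    ring
  have hmain : ∀ C : ℝ, (∀ s ∈ Ico (0 : ℝ) 1,
      r * ((s * r) ^ p / ‖1 + ((s * r : ℝ) : ℂ) * exp (θ * I)‖) ≤ C) → ‖lp p z‖ ≤ C := by
    intro C hC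
    rw [← hval]
    exact norm_image_sub_le_of_norm_deriv_le_segment_01' hder (fun s hs => by
      rw [hnorm s hs]; exact hC s hs)
  constructor
  · apply hmain
    intro s hs
    have hsr : 0 ≤ s * r := mul_nonneg hs.1 hr
    have hsr2 : s * r ≤ r := by nlinarith [hs.2]
    have h := FA_lower b hb (s * r) θ hsr hθ
    have h1 : Real.cos (b / 2) ≤ ‖1 + ((s * r : ℝ) : ℂ) * exp (θ * I)‖ := by
      nlinarith
    calc r * ((s * r) ^ p / ‖1 + ((s * r : ℝ) : ℂ) * exp (θ * I)‖)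
        ≤ r * (r ^ p / Real.cos (b / 2)) := by
          apply mul_le_mul_of_nonneg_left _ hr
          apply div_le_div₀ (by positivity) _ hc0 h1
          exact pow_le_pow_left₀ hsr hsr2 p
      _ = r ^ (p + 1) / Real.cos (b / 2) := by rw [pow_succ]; ring
  · apply hmain
    intro s hs
    have hsr : 0 ≤ s * r := mul_nonneg hs.1 hr
    have hsr2 : s * r ≤ r := by nlinarith [hs.2]
    have h2 := (FA_core p hp b hb (s * r) θ hsr hθ).2
    calc r * ((s * r) ^ p / ‖1 + ((s * r : ℝ) : ℂ) * exp (θ * I)‖)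
        ≤ r * ((s * r) ^ (p - 1) / Real.cos (b / 2)) := mul_le_mul_of_nonneg_left h2 hr
      _ ≤ r * (r ^ (p - 1) / Real.cos (b / 2)) := by
          apply mul_le_mul_of_nonneg_left _ hr
          apply div_le_div_of_nonneg_right _ hc0.le
          exact pow_le_pow_left₀ hsr hsr2 _
      _ = r ^ p / Real.cos (b / 2) := by
          obtain ⟨k, rfl⟩ : ∃ k, p = k + 1 := ⟨p - 1, by omega⟩
          rw [Nat.add_sub_cancel, pow_succ]; ring

/-- The dominating function. -/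
noncomputable def FA_g (ρ : ℝ) (p : ℕ) (x : ℝ) : ℝ :=
  if x ≤ 1 then x ^ (-((p : ℝ) / ρ)) else x ^ (-(((p : ℝ) + 1) / ρ))

theorem FA_g_int (ρ : ℝ) (p : ℕ) (hρ : 0 < ρ) (h1 : (p : ℝ) < ρ) (h2 : ρ < p + 1) :
    IntegrableOn (FA_g ρ p) (Ioi 0) := by
  have e : Ioi (0 : ℝ) = Ioc 0 1 ∪ Ioi 1 := by
    rw [Ioc_union_Ioi_eq_Ioi zero_le_one]
  rw [e]
  apply IntegrableOn.union
  · have h3 : IntegrableOn (fun x : ℝ => x ^ (-((p : ℝ) / ρ))) (Ioc 0 1) := by
      have : -1 < -((p : ℝ) / ρ) := by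
        rw [neg_lt_neg_iff, div_lt_one hρ]; exact h1
      exact (intervalIntegrable_iff_integrableOn_Ioc_of_le zero_le_one).mp
        (intervalIntegral.intervalIntegrable_rpow' this)
    apply h3.congr_fun _ measurableSet_Ioc
    intro x hx
    simp only [FA_g, if_pos hx.2]
  · have h3 : IntegrableOn (fun x : ℝ => x ^ (-(((p : ℝ) + 1) / ρ))) (Ioi 1) := by
      apply integrableOn_Ioi_rpow_of_lt _ zero_lt_one
      rw [neg_lt_neg_iff, one_lt_div hρ]; exact h2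
    apply h3.congr_fun _ measurableSet_Ioi
    intro x hx
    have : ¬ x ≤ 1 := not_le.mpr hx
    simp only [FA_g, if_neg this]

theorem FA_polar (w : ℂ) (t : ℝ) :
    exp w / (t : ℂ) = ((Real.exp w.re / t : ℝ) : ℂ) * exp (w.im * I) := by
  conv_lhs => rw [← re_add_im w, exp_add]
  push_cast
  ring

theorem FA_dom (ρ : ℝ) (p : ℕ) (U c : ℝ) (hU : 0 ≤ U) (hc : 0 < c) (w : ℂ)
    (hw : w.re ≤ U) (x : ℝ) (hx : 0 < x) (y : ℝ)
    (h1 : y ≤ (Real.exp w.re / tt ρ x) ^ (p + 1) / c)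
    (h2 : y ≤ (Real.exp w.re / tt ρ x) ^ p / c) :
    y ≤ Real.exp ((p + 1) * U) / c * FA_g ρ p x := by
  have e1 : (Real.exp w.re / tt ρ x) ^ (p + 1) =
      Real.exp ((p + 1) * w.re) * x ^ (-(((p : ℝ) + 1) / ρ)) := by
    unfold tt
    rw [div_pow, ← Real.rpow_natCast (x ^ (1 / ρ)), ← Real.rpow_mul hx.le, Real.rpow_neg hx.le,
      ← Real.exp_nat_mul]
    push_cast
    rw [div_eq_mul_inv]
    congr 3
    ring
  have e2 : (Real.exp w.re / tt ρ x) ^ p =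
      Real.exp (p * w.re) * x ^ (-((p : ℝ) / ρ)) := by
    unfold tt
    rw [div_pow, ← Real.rpow_natCast (x ^ (1 / ρ)), ← Real.rpow_mul hx.le, Real.rpow_neg hx.le,
      ← Real.exp_nat_mul, div_eq_mul_inv]
    congr 3
    ring
  have hp : (0 : ℝ) ≤ p := Nat.cast_nonneg p
  unfold FA_g
  split_ifs with h
  · refine h2.trans ?_
    rw [e2, div_mul_eq_mul_div]
    apply div_le_div_of_nonneg_right _ hc.le
    apply mul_le_mul_of_nonneg_right _ (by positivity)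
    apply Real.exp_le_exp.mpr
    nlinarith
  · refine h1.trans ?_
    rw [e1, div_mul_eq_mul_div]
    apply div_le_div_of_nonneg_right _ hc.le
    apply mul_le_mul_of_nonneg_right _ (by positivity)
    apply Real.exp_le_exp.mpr
    nlinarith

theorem FA_tt_cont (ρ : ℝ) (hρ : 0 < ρ) : Continuous (tt ρ) := by
  unfold tt
  exact Real.continuous_rpow_const (by positivity)

theorem FA_tt_pos (ρ x : ℝ) (hx : 0 < x) : 0 < tt ρ x := Real.rpow_pos_of_pos hx _

theorem FA_slit' (ρ : ℝ) (w : ℂ) (hw : |w.im| < Real.pi) (x : ℝ) (hx : 0 < x) :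
    1 + exp w / (tt ρ x : ℂ) ∈ slitPlane := by
  rw [FA_polar]
  have := FA_tt_pos ρ x hx
  exact FA_slit _ _ (by positivity) hw

theorem FA_contF (ρ : ℝ) (hρ : 0 < ρ) (p : ℕ) (w : ℂ) (hw : |w.im| < Real.pi) :
    ContinuousOn (fun x : ℝ => lp p (exp w / tt ρ x)) (Ioi 0) := by
  intro x hx
  have hsl := FA_slit' ρ w hw x hx
  have h1 : ContinuousAt (fun x : ℝ => exp w / (tt ρ x : ℂ)) x := by
    apply ContinuousAt.div continuousAt_const
    · exact (continuous_ofReal.comp (FA_tt_cont ρ hρ)).continuousAt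
    · exact_mod_cast (FA_tt_pos ρ x hx).ne'
  have h2 : ContinuousAt (fun x : ℝ => lp p (exp w / tt ρ x)) x :=
    ContinuousAt.comp (g := lp p) (f := fun x : ℝ => exp w / (tt ρ x : ℂ)) (x := x)
      (FA_lp_deriv p hsl).continuousAt h1
  exact h2.continuousWithinAt

theorem FA_contF' (ρ : ℝ) (hρ : 0 < ρ) (p : ℕ) (w : ℂ) (hw : |w.im| < Real.pi) :
    ContinuousOn (fun x : ℝ => (-(exp w / tt ρ x)) ^ p * (1 + exp w / tt ρ x)⁻¹ *
      (exp w / (tt ρ x : ℂ))) (Ioi 0) := by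
  intro x hx
  have hsl := FA_slit' ρ w hw x hx
  have h1 : ContinuousAt (fun x : ℝ => exp w / (tt ρ x : ℂ)) x := by
    apply ContinuousAt.div continuousAt_const
    · exact (continuous_ofReal.comp (FA_tt_cont ρ hρ)).continuousAt
    · exact_mod_cast (FA_tt_pos ρ x hx).ne'
  have h2 : ContinuousAt (fun x : ℝ => (-(exp w / tt ρ x)) ^ p * (1 + exp w / tt ρ x)⁻¹ *
      (exp w / (tt ρ x : ℂ))) x := by
    apply ContinuousAt.mul _ h1
    apply ContinuousAt.mul (h1.neg.pow p)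
    exact (continuousAt_const.add h1).inv₀ (slitPlane_ne_zero hsl)
  exact h2.continuousWithinAt

theorem FA_int (ρ : ℝ) (p : ℕ) (hρ : 0 < ρ) (hp : 1 ≤ p) (h1 : (p : ℝ) < ρ) (h2 : ρ < p + 1)
    (w : ℂ) (hw : |w.im| < Real.pi) :
    IntegrableOn (fun x : ℝ => lp p (exp w / tt ρ x)) (Ioi 0) := by
  have hpi := Real.pi_pos
  have hc : 0 < Real.cos (|w.im| / 2) :=
    Real.cos_pos_of_mem_Ioo ⟨by linarith [abs_nonneg w.im], by linarith⟩
  have hg := (FA_g_int ρ p hρ h1 h2).const_mul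
    (Real.exp ((p + 1) * |w.re|) / Real.cos (|w.im| / 2))
  apply Integrable.mono' hg ((FA_contF ρ hρ p w hw).aestronglyMeasurable measurableSet_Ioi)
  filter_upwards [ae_restrict_mem measurableSet_Ioi] with x hx
  have hx' : 0 < x := hx
  have ht := FA_tt_pos ρ x hx'
  have hb := FA_bound p hp |w.im| hw (Real.exp w.re / tt ρ x) w.im (by positivity) le_rfl
  rw [← FA_polar] at hb
  exact FA_dom ρ p |w.re| _ (abs_nonneg _) hc w (le_abs_self _) x hx' _ hb.1 hb.2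

theorem FA_deriv (ρ : ℝ) (p : ℕ) (hρ : 0 < ρ) (hp : 1 ≤ p) (h1 : (p : ℝ) < ρ) (h2 : ρ < p + 1)
    (w : ℂ) (hw : |w.im| < Real.pi) :
    ∃ D : ℂ, HasDerivAt (fun w : ℂ => ∫ x in Ioi (0 : ℝ), lp p (exp w / tt ρ x)) D w := by
  have hpi := Real.pi_pos
  set ε := (Real.pi - |w.im|) / 2 with hε
  have hε0 : 0 < ε := by rw [hε]; linarith
  set b := |w.im| + ε with hb
  have hbpi : b < Real.pi := by rw [hb, hε]; linarith
  have hb0 : 0 ≤ b := by rw [hb]; have := abs_nonneg w.im; linarith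
  have hc : 0 < Real.cos (b / 2) :=
    Real.cos_pos_of_mem_Ioo ⟨by linarith, by linarith⟩
  have hball : ∀ v ∈ Metric.ball w ε, |v.im| ≤ b ∧ v.re ≤ |w.re| + ε := by
    intro v hv
    rw [Metric.mem_ball, dist_eq_norm] at hv
    have h3 := (abs_im_le_norm (v - w)).trans hv.le
    have h4 := (abs_re_le_norm (v - w)).trans hv.le
    rw [sub_im] at h3
    rw [sub_re] at h4
    constructor
    · have := abs_sub_abs_le_abs_sub v.im w.im
      rw [hb]; linarith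
    · have h5 := le_abs_self (v.re - w.re)
      have h6 := le_abs_self w.re
      linarith
  have hg := (FA_g_int ρ p hρ h1 h2).const_mul
    (Real.exp ((p + 1) * (|w.re| + ε)) / Real.cos (b / 2))
  refine ⟨_, (hasDerivAt_integral_of_dominated_loc_of_deriv_le
    (F := fun (w : ℂ) (x : ℝ) => lp p (exp w / tt ρ x))
    (F' := fun (w : ℂ) (x : ℝ) => (-(exp w / tt ρ x)) ^ p * (1 + exp w / tt ρ x)⁻¹ *
      (exp w / (tt ρ x : ℂ)))
    (μ := volume.restrict (Ioi 0)) (x₀ := w) (s := Metric.ball w ε)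
    (Metric.ball_mem_nhds w hε0) ?_ (FA_int ρ p hρ hp h1 h2 w hw)
    ((FA_contF' ρ hρ p w hw).aestronglyMeasurable measurableSet_Ioi) ?_ hg ?_).2⟩
  · filter_upwards [Metric.ball_mem_nhds w hε0] with v hv
    exact (FA_contF ρ hρ p v (lt_of_le_of_lt (hball v hv).1 hbpi)).aestronglyMeasurable
      measurableSet_Ioi
  · filter_upwards [ae_restrict_mem measurableSet_Ioi] with x hx v hv
    have hx' : 0 < x := hx
    have ht := FA_tt_pos ρ x hx'
    have hbd := FA_dbound p hp b hbpi (Real.exp v.re / tt ρ x) v.im (by positivity)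
      (hball v hv).1
    rw [← FA_polar] at hbd
    exact FA_dom ρ p (|w.re| + ε) _ (by have := abs_nonneg w.re; linarith) hc v
      (hball v hv).2 x hx' _ hbd.1 hbd.2
  · filter_upwards [ae_restrict_mem measurableSet_Ioi] with x hx v hv
    have hx' : 0 < x := hx
    have hsl := FA_slit' ρ v (lt_of_le_of_lt (hball v hv).1 hbpi) x hx'
    exact (FA_lp_deriv p hsl).comp v ((hasDerivAt_exp v).div_const _)

theorem FA_scale (ρ : ℝ) (p : ℕ) (hρ : 0 < ρ) (w : ℂ) (a : ℝ) :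
    ∫ x in Ioi (0 : ℝ), lp p (exp (w + a) / tt ρ x) =
      exp (ρ * a) * ∫ x in Ioi (0 : ℝ), lp p (exp w / tt ρ x) := by
  have hb : 0 < Real.exp (ρ * a) := Real.exp_pos _
  have h := integral_comp_mul_left_Ioi (fun x : ℝ => lp p (exp (w + a) / tt ρ x)) 0 hb
  rw [mul_zero] at h
  have h2 : ∫ x in Ioi (0 : ℝ), lp p (exp (w + a) / tt ρ (Real.exp (ρ * a) * x)) =
      ∫ x in Ioi (0 : ℝ), lp p (exp w / tt ρ x) := by
    apply setIntegral_congr_fun measurableSet_Ioi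
    intro x hx
    have hx' : 0 < x := hx
    have ht := FA_tt_pos ρ x hx'
    have e : tt ρ (Real.exp (ρ * a) * x) = Real.exp a * tt ρ x := by
      unfold tt
      rw [Real.mul_rpow hb.le hx'.le, ← Real.exp_mul]
      congr 2
      field_simp
    have hne : (tt ρ x : ℂ) ≠ 0 := by exact_mod_cast ht.ne'
    have hne2 : exp (a : ℂ) ≠ 0 := exp_ne_zero _
    simp only []
    congr 1
    rw [e, exp_add]
    push_cast
    field_simp
  rw [h2] at h
  rw [h]
  have : ((Real.exp (ρ * a))⁻¹ • ∫ x in Ioi (0 : ℝ), lp p (exp (w + a) / tt ρ x)) =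
    (exp (ρ * a))⁻¹ * ∫ x in Ioi (0 : ℝ), lp p (exp (w + a) / tt ρ x) := by
    rw [real_smul]
    push_cast
    rfl
  rw [this, mul_inv_cancel_left₀ (exp_ne_zero _)]

/-- Real version. -/
noncomputable def FA_lpr (p : ℕ) (x : ℝ) : ℝ :=
  Real.log (1 + x) - ∑ j ∈ Finset.Icc 1 p, (-1 : ℝ) ^ (j - 1) * x ^ j / j

theorem FA_lpr_cast (p : ℕ) (x : ℝ) (hx : 0 ≤ x) : lp p (x : ℂ) = (FA_lpr p x : ℂ) := by
  unfold lp FA_lpr
  rw [ofReal_sub, ofReal_log (by linarith)]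
  push_cast
  rfl

theorem FA_lpr_deriv (p : ℕ) (x : ℝ) (hx : 0 ≤ x) :
    HasDerivAt (fun x : ℝ => FA_lpr p x) ((-x) ^ p * (1 + x)⁻¹) x := by
  have hsl : 1 + (x : ℂ) ∈ slitPlane := by
    rw [mem_slitPlane_iff]; left
    rw [add_re, one_re, ofReal_re]; linarith
  have h := (FA_lp_deriv p hsl).real_of_complex
  have e : ((-(x : ℂ)) ^ p * (1 + (x : ℂ))⁻¹).re = (-x) ^ p * (1 + x)⁻¹ := by
    rw [show (-(x : ℂ)) ^ p * (1 + (x : ℂ))⁻¹ = (((-x) ^ p * (1 + x)⁻¹ : ℝ) : ℂ) by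
      push_cast; rfl, ofReal_re]
  rw [e] at h
  apply h.congr_of_eventuallyEq
  have h1 : ∀ᶠ y in 𝓝 x, -1 < y := (lt_mem_nhds (by linarith : (-1 : ℝ) < x))
  filter_upwards [h1] with y hy
  unfold lp FA_lpr
  rw [show (1 : ℂ) + (y : ℂ) = ((1 + y : ℝ) : ℂ) by push_cast; rfl, ← ofReal_log (by linarith)]
  rw [show (∑ j ∈ Finset.Icc 1 p, (-1 : ℂ) ^ (j - 1) * (y : ℂ) ^ j / j) =
    ((∑ j ∈ Finset.Icc 1 p, (-1 : ℝ) ^ (j - 1) * y ^ j / j : ℝ) : ℂ) by push_cast; rfl,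
    ← ofReal_sub, ofReal_re]

theorem FA_lpr_pos (p : ℕ) (x : ℝ) (hx : 0 < x) : 0 < (-1) ^ p * FA_lpr p x := by
  have hmono : StrictMonoOn (fun x : ℝ => (-1) ^ p * FA_lpr p x) (Ici 0) := by
    apply strictMonoOn_of_deriv_pos (convex_Ici 0)
    · intro y hy
      exact ((FA_lpr_deriv p y hy).const_mul _).continuousAt.continuousWithinAt
    · intro y hy
      rw [interior_Ici] at hy
      have hy' : 0 < y := hy
      rw [((FA_lpr_deriv p y hy'.le).const_mul _).deriv]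
      have : (-1 : ℝ) ^ p * ((-y) ^ p * (1 + y)⁻¹) = y ^ p * (1 + y)⁻¹ := by
        rw [neg_pow y p]
        have h1 : (-1 : ℝ) ^ p * (-1) ^ p = 1 := by
          rw [← mul_pow]; norm_num
        calc (-1 : ℝ) ^ p * ((-1) ^ p * y ^ p * (1 + y)⁻¹) =
            ((-1 : ℝ) ^ p * (-1) ^ p) * (y ^ p * (1 + y)⁻¹) := by ring
          _ = _ := by rw [h1, one_mul]
      rw [this]
      positivity
  have h := hmono (mem_Ici.mpr le_rfl) (mem_Ici.mpr hx.le) hx
  have h0 : FA_lpr p 0 = 0 := by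
    have h1 := FA_lpr_cast p 0 le_rfl
    rw [ofReal_zero, FA_lp_zero] at h1
    exact_mod_cast h1.symm
  simp only [h0, mul_zero] at h
  exact h

/-- The main term: by scaling, `G (w + a) = e^{ρ a} G w` for real `a`, so `G w = κ e^{ρ w}` on the
real line and then on the strip (identity theorem); the sign of `κ` is the sign of `lp p` on
`(0, ∞)`, since `(lp p)' x = (-1)^p x^p / (1 + x)`. -/
theorem lp_integral (ρ : ℝ) (hρ : 1 < ρ) (hni : ∀ n : ℕ, ρ ≠ n) :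
    ∃ κ : ℝ, 0 < (-1) ^ ⌊ρ⌋₊ * κ ∧ ∀ w : ℂ, |w.im| < Real.pi →
      IntegrableOn (fun x : ℝ => lp ⌊ρ⌋₊ (exp w / tt ρ x)) (Ioi 0) ∧
      ∫ x in Ioi (0 : ℝ), lp ⌊ρ⌋₊ (exp w / tt ρ x) = κ * exp (ρ * w) := by
  have hpi := Real.pi_pos
  have hρ0 : 0 < ρ := by linarith
  set p := ⌊ρ⌋₊ with hp
  have hp1 : 1 ≤ p := by
    rw [hp]; exact (Nat.one_le_floor_iff ρ).mpr hρ.le
  have h1 : (p : ℝ) < ρ := lt_of_le_of_ne (Nat.floor_le hρ0.le) (fun h => hni p h.symm)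
  have h2 : ρ < p + 1 := Nat.lt_floor_add_one ρ
  set G : ℂ → ℂ := fun w => ∫ x in Ioi (0 : ℝ), lp p (exp w / tt ρ x) with hG
  -- real value
  have hx0 : ∀ x ∈ Ioi (0 : ℝ), lp p (exp 0 / tt ρ x) = ((FA_lpr p (1 / tt ρ x) : ℝ) : ℂ) := by
    intro x hx
    have ht := FA_tt_pos ρ x hx
    rw [← FA_lpr_cast p _ (by positivity), exp_zero]
    push_cast
    rfl
  have hint0 := FA_int ρ p hρ0 hp1 h1 h2 0 (by simpa using hpi)
  have hintr : IntegrableOn (fun x : ℝ => FA_lpr p (1 / tt ρ x)) (Ioi 0) := by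
    have h3 := hint0.re
    apply IntegrableOn.congr_fun h3 _ measurableSet_Ioi
    intro x hx
    simp only [hx0 x hx, RCLike.re_to_complex, ofReal_re]
  set κ : ℝ := ∫ x in Ioi (0 : ℝ), FA_lpr p (1 / tt ρ x) with hκ
  have hG0 : G 0 = κ := by
    rw [hG, hκ]
    simp only []
    rw [setIntegral_congr_fun measurableSet_Ioi hx0]
    exact integral_ofReal
  have hκpos : 0 < (-1) ^ p * κ := by
    rw [hκ, ← integral_const_mul]
    rw [setIntegral_pos_iff_support_of_nonneg_ae]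
    · have : Function.support (fun x : ℝ => (-1) ^ p * FA_lpr p (1 / tt ρ x)) ∩ Ioi 0 = Ioi 0 := by
        apply inter_eq_right.mpr
        intro x hx
        have ht := FA_tt_pos ρ x hx
        exact (FA_lpr_pos p _ (by positivity)).ne'
      rw [this]
      simp
    · filter_upwards [ae_restrict_mem measurableSet_Ioi] with x hx
      have ht := FA_tt_pos ρ x hx
      exact (FA_lpr_pos p _ (by positivity)).le
    · exact hintr.const_mul _
  refine ⟨κ, hκpos, fun w hw => ⟨FA_int ρ p hρ0 hp1 h1 h2 w hw, ?_⟩⟩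
  set S : Set ℂ := {w : ℂ | |w.im| < Real.pi} with hS
  have hSo : IsOpen S := isOpen_lt (continuous_im.abs) continuous_const
  have hSc : Convex ℝ S := by
    have : S = Complex.imCLM ⁻¹' (Ioo (-Real.pi) Real.pi) := by
      ext v; simp [hS, abs_lt]
    rw [this]
    exact (convex_Ioo _ _).linear_preimage _
  have hder : ∀ v ∈ S, HasDerivAt G (ρ * G v) v := by
    intro v hv
    obtain ⟨D, hD⟩ := FA_deriv ρ p hρ0 hp1 h1 h2 v hv
    have hD' : HasDerivAt G D v := hD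
    have e1 : HasDerivAt (fun a : ℝ => G (v + a)) D 0 := by
      have h3 : HasDerivAt (fun a : ℝ => v + (a : ℂ)) 1 0 := by
        have := (ofRealCLM.hasDerivAt (x := (0 : ℝ))).const_add v
        simpa using this
      have h4 : HasDerivAt G D (v + ((0 : ℝ) : ℂ)) := by
        rw [ofReal_zero, add_zero]; exact hD'
      have := h4.comp (0 : ℝ) h3
      rw [mul_one] at this
      exact this
    have e2 : HasDerivAt (fun a : ℝ => G (v + a)) (ρ * G v) 0 := by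
      have h5 : (fun a : ℝ => G (v + a)) = fun a : ℝ => exp (ρ * a) * G v := by
        funext a
        exact FA_scale ρ p hρ0 v a
      rw [h5]
      have h6 : HasDerivAt (fun a : ℝ => exp ((ρ : ℂ) * a)) (exp ((ρ : ℂ) * (0 : ℝ)) * (ρ : ℂ)) 0 := by
        have h7 : HasDerivAt (fun a : ℝ => (ρ : ℂ) * (a : ℂ)) (ρ : ℂ) 0 := by
          have := (ofRealCLM.hasDerivAt (x := (0 : ℝ))).const_mul (ρ : ℂ)
          simpa using this
        exact h7.cexp
      have := h6.mul_const (G v)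
      simpa using this
    rw [← e1.unique e2]
    exact hD'
  have hH : ∀ v ∈ S, HasDerivAt (fun v => G v * exp (-(ρ * v))) 0 v := by
    intro v hv
    have h3 : HasDerivAt (fun v : ℂ => exp (-((ρ : ℂ) * v))) (exp (-((ρ : ℂ) * v)) * (-(ρ : ℂ))) v := by
      have h4 : HasDerivAt (fun v : ℂ => -((ρ : ℂ) * v)) (-(ρ : ℂ)) v := by
        have := ((hasDerivAt_id v).const_mul (ρ : ℂ)).fun_neg
        simpa using this
      exact h4.cexp
    have h5 := (hder v hv).fun_mul h3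
    have h6 : (ρ : ℂ) * G v * exp (-((ρ : ℂ) * v)) +
        G v * (exp (-((ρ : ℂ) * v)) * (-(ρ : ℂ))) = 0 := by ring
    rw [h6] at h5
    exact h5
  have hconst := hSo.is_const_of_deriv_eq_zero hSc.isPreconnected
    (f := fun v => G v * exp (-(ρ * v)))
    (fun v hv => (hH v hv).differentiableAt.differentiableWithinAt)
    (fun v hv => (hH v hv).deriv) (x := w) (y := 0) hw (by simpa [hS] using hpi)
  simp only [mul_zero, neg_zero, exp_zero, mul_one] at hconst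
  rw [hG0] at hconst
  have : G w = κ * exp (ρ * w) := by
    rw [← hconst, mul_assoc, ← exp_add, neg_add_cancel, exp_zero, mul_one]
  exact this

end Pool.Agent.helper74.LG
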