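import Pool.Agent.helper74.LG.Defs

set_option autoImplicit false

namespace Pool.Agent.helper74.LG

open Complex Set Filter Topology MeasureTheory

private lemma norm_om (θ₀ : ℝ) : ‖exp (-(θ₀ * I))‖ = 1 := by
  rw [Complex.norm_exp]
  simp

private lemma om_eq (θ₀ : ℝ) :
    exp (-(θ₀ * I)) = (Real.cos θ₀ : ℂ) - (Real.sin θ₀ : ℂ) * I := by
  rw [show -((θ₀ : ℂ) * I) = ((-θ₀ : ℝ) : ℂ) * I by push_cast; ring, Complex.exp_mul_I,
    ← Complex.ofReal_cos, ← Complex.ofReal_sin, Real.cos_neg, Real.sin_neg]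
  push_cast
  ring

private lemma om_quad (θ₀ : ℝ) :
    exp (-(θ₀ * I)) ^ 2 + 1 = 2 * (Real.cos θ₀ : ℂ) * exp (-(θ₀ * I)) := by
  rw [om_eq]
  have h2 : ((Real.cos θ₀ : ℂ)) ^ 2 + ((Real.sin θ₀ : ℂ)) ^ 2 = 1 := by
    exact_mod_cast Real.cos_sq_add_sin_sq θ₀
  linear_combination (-1 : ℂ) * h2 + ((Real.sin θ₀ : ℂ)) ^ 2 * Complex.I_sq

private lemma dist_iter {θ₀ η : ℝ} (hη : 0 < η) (hη1 : η ≤ 1) {X : ℕ → ℂ} {m₀ : ℕ}
    (hX : ∀ m, m₀ ≤ m → ‖X (m + 1) - exp (-(θ₀ * I)) * X m‖ ≤ η * ‖X m‖) {m : ℕ} (hm : m₀ ≤ m)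
    (l : ℕ) : ‖X (m + l) - exp (-(θ₀ * I)) ^ l * X m‖ ≤ (2 ^ l - 1) * (η * ‖X m‖) := by
  induction l with
  | zero => simp
  | succ l ih =>
    have h1 := hX (m + l) (by omega)
    have h2 : ‖X (m + l)‖ ≤ 2 ^ l * ‖X m‖ := by
      have h3 : ‖X (m + l)‖ ≤ ‖X (m + l) - exp (-(θ₀ * I)) ^ l * X m‖ +
          ‖exp (-(θ₀ * I)) ^ l * X m‖ := norm_le_norm_sub_add _ _
      rw [norm_mul, norm_pow, norm_om, one_pow, one_mul] at h3
      have h4 : (2 ^ l - 1) * (η * ‖X m‖) ≤ (2 ^ l - 1) * ‖X m‖ := by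
        have h5 : (0 : ℝ) ≤ 2 ^ l - 1 := by
          have : (1 : ℝ) ≤ 2 ^ l := one_le_pow₀ (by norm_num)
          linarith
        refine mul_le_mul_of_nonneg_left ?_ h5
        have := norm_nonneg (X m)
        nlinarith
      linarith
    have h6 : X (m + (l + 1)) - exp (-(θ₀ * I)) ^ (l + 1) * X m =
        (X (m + l + 1) - exp (-(θ₀ * I)) * X (m + l)) +
          exp (-(θ₀ * I)) * (X (m + l) - exp (-(θ₀ * I)) ^ l * X m) := by
      rw [← add_assoc]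
      ring
    rw [h6]
    refine (norm_add_le _ _).trans ?_
    rw [norm_mul, norm_om, one_mul]
    have h7 : η * ‖X (m + l)‖ ≤ η * (2 ^ l * ‖X m‖) := mul_le_mul_of_nonneg_left h2 hη.le
    rw [pow_succ]
    linarith

private lemma pk_pos (θ₀ : ℝ) : 0 < pk θ₀ ∧ pk θ₀ ≤ 2 := by
  unfold pk
  split_ifs <;> norm_num

private lemma approx {θ₀ η : ℝ} (hη : 0 < η) (hη1 : η ≤ 1) {a : ℕ → ℝ} {X : ℕ → ℂ} {m₀ : ℕ}
    (ha : ∀ m, m₀ ≤ m → |a m - (1 + pk θ₀ * (X m).re)| ≤ η * (1 + ‖X m‖))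
    (hX : ∀ m, m₀ ≤ m → ‖X (m + 1) - exp (-(θ₀ * I)) * X m‖ ≤ η * ‖X m‖) {m : ℕ} (hm : m₀ ≤ m)
    {l : ℕ} (hl : l ≤ 4) :
    |a (m + l) - (1 + pk θ₀ * (exp (-(θ₀ * I)) ^ l * X m).re)| ≤ 46 * η * (1 + ‖X m‖) := by
  have h1 := dist_iter hη hη1 hX hm l
  have h2 := ha (m + l) (by omega)
  have hx := norm_nonneg (X m)
  have hpow : (2 : ℝ) ^ l ≤ 16 := by
    calc (2 : ℝ) ^ l ≤ 2 ^ 4 := pow_le_pow_right₀ (by norm_num) hl
      _ = 16 := by norm_num
  have hηx : 0 ≤ η * ‖X m‖ := by positivity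
  have h3 : ‖X (m + l) - exp (-(θ₀ * I)) ^ l * X m‖ ≤ 15 * (η * ‖X m‖) :=
    h1.trans (mul_le_mul_of_nonneg_right (by linarith) hηx)
  have h4 : ‖X (m + l)‖ ≤ 16 * ‖X m‖ := by
    have h5 : ‖X (m + l)‖ ≤ ‖X (m + l) - exp (-(θ₀ * I)) ^ l * X m‖ +
        ‖exp (-(θ₀ * I)) ^ l * X m‖ := norm_le_norm_sub_add _ _
    rw [norm_mul, norm_pow, norm_om, one_pow, one_mul] at h5
    nlinarith
  have h6 : |(X (m + l)).re - (exp (-(θ₀ * I)) ^ l * X m).re| ≤ 15 * (η * ‖X m‖) := by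
    have := Complex.abs_re_le_norm (X (m + l) - exp (-(θ₀ * I)) ^ l * X m)
    rw [Complex.sub_re] at this
    exact this.trans h3
  obtain ⟨hp0, hp2⟩ := pk_pos θ₀
  have h7 : a (m + l) - (1 + pk θ₀ * (exp (-(θ₀ * I)) ^ l * X m).re) =
      (a (m + l) - (1 + pk θ₀ * (X (m + l)).re)) +
        pk θ₀ * ((X (m + l)).re - (exp (-(θ₀ * I)) ^ l * X m).re) := by ring
  rw [h7]
  refine (abs_add_le _ _).trans ?_
  rw [abs_mul, abs_of_pos hp0]
  have h8 : pk θ₀ * |(X (m + l)).re - (exp (-(θ₀ * I)) ^ l * X m).re| ≤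
      2 * (15 * (η * ‖X m‖)) := mul_le_mul hp2 h6 (abs_nonneg _) (by norm_num)
  have h9 : η * (1 + ‖X (m + l)‖) ≤ η * (1 + 16 * ‖X m‖) :=
    mul_le_mul_of_nonneg_left (by linarith) hη.le
  nlinarith

private lemma re_rec (θ₀ : ℝ) (x : ℂ) (l : ℕ) :
    (exp (-(θ₀ * I)) ^ (l + 2) * x).re + (exp (-(θ₀ * I)) ^ l * x).re =
      2 * Real.cos θ₀ * (exp (-(θ₀ * I)) ^ (l + 1) * x).re := by
  have h1 : exp (-(θ₀ * I)) ^ (l + 2) * x + exp (-(θ₀ * I)) ^ l * x =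
      ((2 * Real.cos θ₀ : ℝ) : ℂ) * (exp (-(θ₀ * I)) ^ (l + 1) * x) := by
    have := om_quad θ₀
    push_cast
    push_cast at this
    linear_combination (exp (-(θ₀ * I)) ^ l * x) * this
  rw [← Complex.add_re, h1, Complex.re_ofReal_mul]

private lemma norm_le_re_im (x : ℂ) : ‖x‖ ≤ |x.re| + |x.im| := Complex.norm_le_abs_re_add_abs_im x

set_option maxHeartbeats 1000000 in
private lemma bdd (θ₀ : ℝ) (h1 : Real.pi / 2 < θ₀) (h2 : θ₀ ≤ Real.pi) :
    ∃ η₀ K : ℝ, 0 < η₀ ∧ η₀ ≤ 1 ∧ 0 < K ∧ ∀ η, 0 < η → η ≤ η₀ →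
      ∀ (a : ℕ → ℝ) (X : ℕ → ℂ) (m₀ : ℕ),
      (∀ m, m₀ ≤ m → |a m - (1 + pk θ₀ * (X m).re)| ≤ η * (1 + ‖X m‖)) →
      (∀ m, m₀ ≤ m → θ₀ = Real.pi → |(X m).im| ≤ η * (1 + ‖X m‖)) →
      (∀ m, m₀ ≤ m → ‖X (m + 1) - exp (-(θ₀ * I)) * X m‖ ≤ η * ‖X m‖) →
      ∀ m, m₀ ≤ m → 0 ≤ a m → 0 ≤ a (m + 1) → 0 ≤ a (m + 2) → ‖X m‖ ≤ K := by
  rcases h2.lt_or_eq with hlt | heq
  · -- `θ₀ < π`
    have hc : Real.cos θ₀ < 0 := Real.cos_neg_of_pi_div_two_lt_of_lt h1 (by linarith [Real.pi_pos])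
    have hc1 : -1 ≤ Real.cos θ₀ := Real.neg_one_le_cos θ₀
    have hs : 0 < Real.sin θ₀ := Real.sin_pos_of_pos_of_lt_pi (by linarith [Real.pi_pos]) hlt
    have hs1 : Real.sin θ₀ ≤ 1 := Real.sin_le_one θ₀
    set c := Real.cos θ₀ with hcdef
    set s := Real.sin θ₀ with hsdef
    set K₀ : ℝ := 4 / (-c * s) with hK₀
    have hcs : 0 < -c * s := mul_pos (by linarith) hs
    have hK₀pos : 0 < K₀ := div_pos (by norm_num) hcs
    refine ⟨min 1 (1 / (92 * K₀)), 2 * K₀ + 1, lt_min one_pos (by positivity), min_le_left _ _,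
      by positivity, ?_⟩
    intro η hη hηle a X m₀ ha _ hX m hm a0 a1 a2
    have hη1 : η ≤ 1 := hηle.trans (min_le_left _ _)
    have hη2 : η * (92 * K₀) ≤ 1 := by
      have : η ≤ 1 / (92 * K₀) := hηle.trans (min_le_right _ _)
      rwa [le_div_iff₀ (by positivity)] at this
    have e0 := approx hη hη1 ha hX hm (l := 0) (by norm_num)
    have e1 := approx hη hη1 ha hX hm (l := 1) (by norm_num)
    have e2 := approx hη hη1 ha hX hm (l := 2) (by norm_num)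
    have hr := re_rec θ₀ (X m) 0
    have hpk : pk θ₀ = 2 := by unfold pk; rw [if_neg hlt.ne]
    rw [hpk] at e0 e1 e2
    simp only [pow_zero, one_mul, pow_one, add_zero, zero_add] at e0 e1 e2 hr
    have hre1 : (exp (-(θ₀ * I)) * X m).re = c * (X m).re + s * (X m).im := by
      rw [om_eq, ← hcdef, ← hsdef]
      simp [Complex.mul_re]
    rw [abs_le] at e0 e1 e2
    set e := 46 * η * (1 + ‖X m‖) with he
    have hx := norm_nonneg (X m)
    have he0 : 0 < e := by positivity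
    set r1 := (exp (-(θ₀ * I)) * X m).re with hr1
    set r2 := (exp (-(θ₀ * I)) ^ 2 * X m).re with hr2
    have A0 : -e ≤ 1 + 2 * (X m).re := by linarith [e0.2]
    have A1 : -e ≤ 1 + 2 * r1 := by linarith [e1.2]
    have A2 : -e ≤ 1 + 2 * r2 := by linarith [e2.2]
    -- the three inequalities
    rw [← hcdef] at hr
    clear_value e r1 r2 c s K₀
    have hc' : 0 < -c := by linarith
    have hc'1 : -c ≤ 1 := by linarith
    have hce : -c * e ≤ e := by nlinarith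
    have hcA1 : -c * (-e) ≤ -c * (1 + 2 * r1) := mul_le_mul_of_nonneg_left A1 hc'.le
    have hu1 : 1 + 2 * (X m).re ≤ 4 + 3 * e := by
      linarith
    have hu2 : -c * (1 + 2 * r1) ≤ 2 + e := by linarith
    have hu : |(X m).re| ≤ (3 + 3 * e) / 2 := by
      rw [abs_le]; constructor <;> linarith
    have hv1 : -c * |2 * r1| ≤ 2 + e := by
      rcases abs_cases (2 * r1) with ⟨h6, _⟩ | ⟨h6, _⟩
      · rw [h6]; linarith
      · rw [h6]
        have h6' : -c * (-(2 * r1)) ≤ -c * (1 + e) := mul_le_mul_of_nonneg_left (by linarith) hc'.le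
        linarith
    have hv : (-c * s) * |(X m).im| ≤ (5 + 4 * e) / 2 := by
      have h7 : s * (X m).im = r1 - c * (X m).re := by rw [hre1]; ring
      have h8 : s * |(X m).im| ≤ |r1| + |(X m).re| := by
        have h9 : s * |(X m).im| = |s * (X m).im| := by rw [abs_mul, abs_of_pos hs]
        rw [h9, h7]
        refine (abs_sub _ _).trans ?_
        rw [abs_mul, abs_of_neg hc]
        have h9' : -c * |(X m).re| ≤ 1 * |(X m).re| :=
          mul_le_mul_of_nonneg_right hc'1 (abs_nonneg _)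
        linarith
      rw [abs_mul, abs_two] at hv1
      have h10 : -c * |(X m).re| ≤ (3 + 3 * e) / 2 := by
        have h9' : -c * |(X m).re| ≤ 1 * |(X m).re| :=
          mul_le_mul_of_nonneg_right hc'1 (abs_nonneg _)
        linarith
      have h11 : (-c * s) * |(X m).im| ≤ -c * (|r1| + |(X m).re|) := by
        rw [mul_assoc]
        exact mul_le_mul_of_nonneg_left h8 (by linarith)
      have h12 : -c * (|r1| + |(X m).re|) = (-c * (2 * |r1|)) / 2 + -c * |(X m).re| := by ring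
      linarith
    have hx2 : (-c * s) * ‖X m‖ ≤ 4 * (1 + e) := by
      have h12 := norm_le_re_im (X m)
      have h13 : (-c * s) * ‖X m‖ ≤ (-c * s) * (|(X m).re| + |(X m).im|) :=
        mul_le_mul_of_nonneg_left h12 hcs.le
      have h14 : -c * s ≤ 1 := mul_le_one₀ hc'1 hs.le hs1
      have h15 : (-c * s) * |(X m).re| ≤ 1 * |(X m).re| :=
        mul_le_mul_of_nonneg_right h14 (abs_nonneg _)
      rw [mul_add] at h13
      linarith
    have hx3 : ‖X m‖ ≤ K₀ * (1 + e) := by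
      rw [hK₀, div_mul_eq_mul_div, le_div_iff₀ hcs]
      linarith
    have hx4 : K₀ * e ≤ (1 + ‖X m‖) / 2 := by
      have h16 : K₀ * e = (η * (92 * K₀)) * ((1 + ‖X m‖) / 2) := by rw [he]; ring
      rw [h16]
      have h17 : 0 ≤ (1 + ‖X m‖) / 2 := by positivity
      have h18 := mul_le_mul_of_nonneg_right hη2 h17
      linarith
    linarith
  · -- `θ₀ = π`
    refine ⟨1 / 94, 3, by norm_num, by norm_num, by norm_num, ?_⟩
    intro η hη hηle a X m₀ ha hIm hX m hm a0 a1 _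
    have hη1 : η ≤ 1 := by linarith
    have e0 := approx hη hη1 ha hX hm (l := 0) (by norm_num)
    have e1 := approx hη hη1 ha hX hm (l := 1) (by norm_num)
    have hpk : pk θ₀ = 1 := by unfold pk; rw [if_pos heq]
    have hom : exp (-(θ₀ * I)) = -1 := by
      rw [heq, Complex.exp_neg, Complex.exp_pi_mul_I]
      norm_num
    rw [hpk] at e0 e1
    rw [hom] at e1
    simp only [pow_zero, one_mul, pow_one, add_zero, neg_mul, Complex.neg_re] at e0 e1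
    have hv := hIm m hm heq
    rw [abs_le] at e0 e1
    have hx := norm_nonneg (X m)
    have h12 := norm_le_re_im (X m)
    have hu : |(X m).re| ≤ 1 + 46 * η * (1 + ‖X m‖) := by
      rw [abs_le]; constructor <;> linarith [e0.1, e0.2, e1.1, e1.2]
    nlinarith

set_option maxHeartbeats 1000000 in
/-- No two adjacent zeros. Put `A l = 1 + pk * Re (e^{-ilθ₀} X m)`; if `θ₀ < π` then
`A (l+1) + A (l-1) = 2 + 2 c (A l - 1)`, `c = cos θ₀ ∈ (-1, 0)`, and `a (m+l) = A l + O (η (1+‖X m‖))`.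
`A 0 + A 2 + 2 |c| A 1 = 2 + 2 |c|` and nonnegativity bound `A 0`, `A 1`, hence `‖X m‖`. If
`A 0, A 1 ≈ 0` then `A 3 ≈ (2 - 2c)(1 + 2c)` (negative if `c < -1/2`) and
`A 4 ≈ 2c (2 - 2c)(1 + 2c)` (negative if `-1/2 < c < 0`). For `θ₀ = π` use `A 0 + A 1 = 2`. -/
theorem iso (θ₀ : ℝ) (h1 : Real.pi / 2 < θ₀) (h2 : θ₀ ≤ Real.pi) (h3 : θ₀ ≠ 2 * Real.pi / 3) :
    ∃ η : ℝ, 0 < η ∧ ∀ (a : ℕ → ℝ) (X : ℕ → ℂ) (m₀ : ℕ),
      (∀ m, m₀ ≤ m → |a m - (1 + pk θ₀ * (X m).re)| ≤ η * (1 + ‖X m‖)) →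
      (∀ m, m₀ ≤ m → θ₀ = Real.pi → |(X m).im| ≤ η * (1 + ‖X m‖)) →
      (∀ m, m₀ ≤ m → ‖X (m + 1) - exp (-(θ₀ * I)) * X m‖ ≤ η * ‖X m‖) →
      (∀ m, m₀ ≤ m → 0 ≤ a m) → ∀ m, m₀ ≤ m → ¬ (a m = 0 ∧ a (m + 1) = 0) := by
  obtain ⟨η₀, K, hη₀, hη₀1, hK, hbd⟩ := bdd θ₀ h1 h2
  rcases h2.lt_or_eq with hlt | heq
  · have hc : Real.cos θ₀ < 0 := Real.cos_neg_of_pi_div_two_lt_of_lt h1 (by linarith [Real.pi_pos])
    have hc1 : -1 ≤ Real.cos θ₀ := Real.neg_one_le_cos θ₀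
    have hc2 : Real.cos θ₀ ≠ -1 / 2 := by
      intro h
      have h4 : Real.cos (2 * Real.pi / 3) = -1 / 2 := by
        rw [show 2 * Real.pi / 3 = Real.pi - Real.pi / 3 by ring, Real.cos_pi_sub,
          Real.cos_pi_div_three]
        ring
      have h5 : Real.cos θ₀ = Real.cos (2 * Real.pi / 3) := by rw [h, h4]
      have h6 := Real.injOn_cos ⟨by linarith [Real.pi_pos], h2⟩
        (⟨by linarith [Real.pi_pos], by linarith [Real.pi_pos]⟩ :
          2 * Real.pi / 3 ∈ Icc 0 Real.pi) h5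
      exact h3 h6
    set c := Real.cos θ₀ with hcdef
    set δ : ℝ := |2 * c * (2 - 2 * c) * (1 + 2 * c)| with hδ
    have hδ0 : 0 < δ := by
      rw [hδ]
      refine abs_pos.mpr (mul_ne_zero (mul_ne_zero ?_ ?_) ?_)
      · exact mul_ne_zero two_ne_zero hc.ne
      · linarith
      · intro h
        apply hc2
        linarith
    refine ⟨min η₀ (δ / (46 * (1 + K) * 100)), lt_min hη₀ (by positivity), ?_⟩
    set η := min η₀ (δ / (46 * (1 + K) * 100)) with hη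
    have hηpos : 0 < η := lt_min hη₀ (by positivity)
    have hη1 : η ≤ 1 := (min_le_left _ _).trans hη₀1
    have hη2 : η * (46 * (1 + K) * 100) ≤ δ := by
      have : η ≤ δ / (46 * (1 + K) * 100) := min_le_right _ _
      rwa [le_div_iff₀ (by positivity)] at this
    intro a X m₀ ha hIm hX hnn m hm hz
    have hxK := hbd η hηpos (min_le_left _ _) a X m₀ ha hIm hX m hm (hnn m hm)
      (hnn _ (by omega)) (hnn _ (by omega))
    have e0 := approx hηpos hη1 ha hX hm (l := 0) (by norm_num)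
    have e1 := approx hηpos hη1 ha hX hm (l := 1) (by norm_num)
    have e3 := approx hηpos hη1 ha hX hm (l := 3) (by norm_num)
    have e4 := approx hηpos hη1 ha hX hm (l := 4) (by norm_num)
    have r0 := re_rec θ₀ (X m) 0
    have r1 := re_rec θ₀ (X m) 1
    have r2 := re_rec θ₀ (X m) 2
    have hpk : pk θ₀ = 2 := by unfold pk; rw [if_neg hlt.ne]
    rw [hpk] at e0 e1 e3 e4
    have n3 := hnn (m + 3) (by omega)
    have n4 := hnn (m + 4) (by omega)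
    simp only [zero_add, Nat.reduceAdd, add_zero] at e0 e1 r0 r1 r2
    rw [hz.1] at e0
    rw [hz.2] at e1
    generalize (exp (-(θ₀ * I)) ^ 0 * X m).re = y0 at *
    generalize (exp (-(θ₀ * I)) ^ 1 * X m).re = y1 at *
    generalize (exp (-(θ₀ * I)) ^ 2 * X m).re = y2 at *
    generalize (exp (-(θ₀ * I)) ^ 3 * X m).re = y3 at *
    generalize (exp (-(θ₀ * I)) ^ 4 * X m).re = y4 at *
    have hx := norm_nonneg (X m)
    have hE : 46 * η * (1 + ‖X m‖) ≤ δ / 100 := by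
      have : 46 * η * (1 + ‖X m‖) ≤ 46 * η * (1 + K) :=
        mul_le_mul_of_nonneg_left (by linarith) (by positivity)
      linarith
    generalize 46 * η * (1 + ‖X m‖) = E at *
    rw [abs_le] at e0 e1 e3 e4
    rw [← hcdef] at r0 r1 r2
    -- `A 0 = 1 + 2 y0`, etc.
    have f3 : 1 + 2 * y3 = (2 - 2 * c) * (1 + 2 * c) + (4 * c ^ 2 - 1) * (1 + 2 * y1) -
        2 * c * (1 + 2 * y0) := by
      have g2 : y2 = 2 * c * y1 - y0 := by linarith
      have g3 : y3 = 2 * c * y2 - y1 := by linarith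
      rw [g3, g2]; ring
    have f4 : 1 + 2 * y4 = 2 * c * (2 - 2 * c) * (1 + 2 * c) + (8 * c ^ 3 - 4 * c) * (1 + 2 * y1) -
        (4 * c ^ 2 - 1) * (1 + 2 * y0) := by
      have g2 : y2 = 2 * c * y1 - y0 := by linarith
      have g3 : y3 = 2 * c * y2 - y1 := by linarith
      have g4 : y4 = 2 * c * y3 - y2 := by linarith
      rw [g4, g3, g2]; ring
    have b0 : |1 + 2 * y0| ≤ E := by rw [abs_le]; constructor <;> linarith [e0.1, e0.2]
    have b1 : |1 + 2 * y1| ≤ E := by rw [abs_le]; constructor <;> linarith [e1.1, e1.2]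
    have k1 : |4 * c ^ 2 - 1| ≤ 4 := by rw [abs_le]; constructor <;> nlinarith
    have k2 : |2 * c| ≤ 2 := by rw [abs_le]; constructor <;> linarith
    have k3 : |8 * c ^ 3 - 4 * c| ≤ 12 := by
      have h7 : |8 * c ^ 3 - 4 * c| ≤ |8 * c ^ 3| + |4 * c| := abs_sub _ _
      have h8 : |c| ≤ 1 := by rw [abs_le]; constructor <;> linarith
      have h9 : |c| ^ 3 ≤ 1 := pow_le_one₀ (abs_nonneg _) h8
      rw [abs_mul, abs_mul, abs_pow, abs_of_pos (by norm_num : (0 : ℝ) < 8),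
        abs_of_pos (by norm_num : (0 : ℝ) < 4)] at h7
      linarith
    have hE0 : 0 ≤ E := (abs_nonneg _).trans b0
    have p1 : |(4 * c ^ 2 - 1) * (1 + 2 * y1)| ≤ 4 * E := by
      rw [abs_mul]; exact mul_le_mul k1 b1 (abs_nonneg _) (by norm_num)
    have p2 : |2 * c * (1 + 2 * y0)| ≤ 2 * E := by
      rw [abs_mul]; exact mul_le_mul k2 b0 (abs_nonneg _) (by norm_num)
    have p3 : |(8 * c ^ 3 - 4 * c) * (1 + 2 * y1)| ≤ 12 * E := by
      rw [abs_mul]; exact mul_le_mul k3 b1 (abs_nonneg _) (by norm_num)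
    have p4 : |(4 * c ^ 2 - 1) * (1 + 2 * y0)| ≤ 4 * E := by
      rw [abs_mul]; exact mul_le_mul k1 b0 (abs_nonneg _) (by norm_num)
    rw [abs_le] at p1 p2 p3 p4
    rcases lt_or_gt_of_ne hc2 with hlt2 | hgt2
    · -- `c < -1/2`: `A 3 < 0`
      have h10 : (2 - 2 * c) * (1 + 2 * c) < 0 := mul_neg_of_pos_of_neg (by linarith) (by linarith)
      have h11 : δ = 2 * c * (2 - 2 * c) * (1 + 2 * c) := by
        rw [hδ, abs_of_pos]
        rw [mul_assoc]
        exact mul_pos_of_neg_of_neg (by linarith) h10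
      have h12 : (2 - 2 * c) * (1 + 2 * c) ≤ -(δ / 2) := by
        have h12' : (-c) * -((2 - 2 * c) * (1 + 2 * c)) ≤ 1 * -((2 - 2 * c) * (1 + 2 * c)) :=
          mul_le_mul_of_nonneg_right (by linarith) (by linarith)
        rw [h11]
        linarith
      have h13 : -E ≤ 1 + 2 * y3 := by linarith [e3.2]
      linarith [p1.2, p2.1]
    · -- `c > -1/2`: `A 4 < 0`
      have h10 : 0 < (2 - 2 * c) * (1 + 2 * c) := mul_pos (by linarith) (by linarith)
      have h11 : δ = -(2 * c * (2 - 2 * c) * (1 + 2 * c)) := by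
        rw [hδ, abs_of_neg]
        rw [mul_assoc]
        exact mul_neg_of_neg_of_pos (by linarith) h10
      have h13 : -E ≤ 1 + 2 * y4 := by linarith [e4.2]
      linarith [p3.2, p4.1]
  · -- `θ₀ = π`
    refine ⟨min η₀ (1 / (46 * (1 + K) * 2)), lt_min hη₀ (by positivity), ?_⟩
    set η := min η₀ (1 / (46 * (1 + K) * 2)) with hη
    have hηpos : 0 < η := lt_min hη₀ (by positivity)
    have hη1 : η ≤ 1 := (min_le_left _ _).trans hη₀1
    have hη2 : η * (46 * (1 + K) * 2) ≤ 1 := by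
      have : η ≤ 1 / (46 * (1 + K) * 2) := min_le_right _ _
      rwa [le_div_iff₀ (by positivity)] at this
    intro a X m₀ ha hIm hX hnn m hm hz
    have hxK := hbd η hηpos (min_le_left _ _) a X m₀ ha hIm hX m hm (hnn m hm)
      (hnn _ (by omega)) (hnn _ (by omega))
    have e0 := approx hηpos hη1 ha hX hm (l := 0) (by norm_num)
    have e1 := approx hηpos hη1 ha hX hm (l := 1) (by norm_num)
    have hpk : pk θ₀ = 1 := by unfold pk; rw [if_pos heq]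
    have hom : exp (-(θ₀ * I)) = -1 := by
      rw [heq, Complex.exp_neg, Complex.exp_pi_mul_I]
      norm_num
    rw [hpk] at e0 e1
    rw [hom] at e1
    simp only [pow_zero, one_mul, pow_one, add_zero, neg_mul, Complex.neg_re] at e0 e1
    rw [hz.1] at e0
    rw [hz.2] at e1
    rw [abs_le] at e0 e1
    have hE : 46 * η * (1 + ‖X m‖) ≤ 46 * η * (1 + K) :=
      mul_le_mul_of_nonneg_left (by linarith) (by positivity)
    linarith [e0.1, e0.2, e1.1, e1.2]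

/-- A large `X` forces a negative value. -/
theorem neg_of_large (θ₀ : ℝ) (h1 : Real.pi / 2 < θ₀) (h2 : θ₀ ≤ Real.pi) :
    ∃ η R : ℝ, 0 < η ∧ 0 < R ∧ ∀ (a : ℕ → ℝ) (X : ℕ → ℂ) (m₀ : ℕ),
      (∀ m, m₀ ≤ m → |a m - (1 + pk θ₀ * (X m).re)| ≤ η * (1 + ‖X m‖)) →
      (∀ m, m₀ ≤ m → θ₀ = Real.pi → |(X m).im| ≤ η * (1 + ‖X m‖)) →
      (∀ m, m₀ ≤ m → ‖X (m + 1) - exp (-(θ₀ * I)) * X m‖ ≤ η * ‖X m‖) →
      ∀ m, m₀ ≤ m → R ≤ ‖X m‖ → ∃ l, l ≤ 3 ∧ a (m + l) < 0 := by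
  obtain ⟨η₀, K, hη₀, hη₀1, hK, hbd⟩ := bdd θ₀ h1 h2
  refine ⟨η₀, K + 1, hη₀, by linarith, ?_⟩
  intro a X m₀ ha hIm hX m hm hR
  by_contra hcon
  push Not at hcon
  have := hbd η₀ hη₀ le_rfl a X m₀ ha hIm hX m hm (hcon 0 (by norm_num)) (hcon 1 (by norm_num))
    (hcon 2 (by norm_num))
  linarith

end Pool.Agent.helper74.LG
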