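import Pool.Agent.helper74.LG.Defs2

set_option autoImplicit false

namespace Pool.Agent.helper74.LG

open Complex Set Filter Topology MeasureTheory

/-- The multiplicities, chosen recursively. -/
noncomputable def MU_mu (d : ℕ) (a b : ℕ → ℝ) (t : ℝ) : ℕ → ℕ
  | 0 => ⌈b 0 * (max 2 t) ^ d⌉₊
  | j + 1 => ⌈b (j + 1) * (((((MU_mu d a b t j : ℕ) : ℝ) / a j) ^ (1 / (d : ℝ))) ^ 8) ^ d⌉₊

theorem MU_root_le {d : ℕ} (hd : d ≠ 0) {x y b : ℝ} (hx : 0 ≤ x) (hb : 0 < b)
    (h : b * x ^ d ≤ y) : x ≤ (y / b) ^ (1 / (d : ℝ)) := by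
  have h1 : x ^ d ≤ y / b := by
    rw [le_div_iff₀ hb]; linarith
  have h2 : (x ^ d) ^ (1 / (d : ℝ)) = x := by
    rw [one_div]; exact Real.pow_rpow_inv_natCast hx hd
  rw [← h2]
  exact Real.rpow_le_rpow (by positivity) h1 (by positivity)

/-- Choice of the multiplicities. -/
theorem exists_mu (d : ℕ) (ψ Mb Ma t : ℝ) (h : CC d ψ Mb Ma) :
    ∃ (μ : ℕ → ℕ) (lo hi : ℕ → ℝ), (∀ M ∈ Box Mb Ma,
      Cfg d (qc d ψ) Mb Ma t μ (Tof d (qc d ψ) μ M) (Aof (qc d ψ) M) M ∧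
      ∀ j, lo j ≤ Tof d (qc d ψ) μ M j ∧ Tof d (qc d ψ) μ M j ≤ hi j) ∧
      2 ≤ lo 0 ∧ (∀ j, hi j ^ 8 ≤ lo (j + 1)) := by
  set q := qc d ψ with hq
  have hd : d ≠ 0 := by have := h.hd; omega
  have hMb := h.Mb0
  have hMa : 0 < Ma := lt_of_lt_of_le hMb h.MbMa
  have hQ : 0 < 1 + q * Ma := h.Q
  have hQb : 0 < 1 + q * Mb := by
    rcases le_or_gt 0 q with hq0 | hq0
    · positivity
    · have : q * Ma ≤ q * Mb := mul_le_mul_of_nonpos_left h.MbMa hq0.le
      linarith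
  set c1 := min (1 + q * Mb) (1 + q * Ma) with hc1
  set c2 := max (1 + q * Mb) (1 + q * Ma) with hc2
  have hc1p : 0 < c1 := lt_min hQb hQ
  have hc2p : 0 < c2 := lt_of_lt_of_le hQb (le_max_left _ _)
  have hfac : ∀ x ∈ Icc Mb Ma, c1 ≤ 1 + q * x ∧ 1 + q * x ≤ c2 := by
    intro x hx
    rcases le_or_gt 0 q with hq0 | hq0
    · have e1 : q * Mb ≤ q * x := mul_le_mul_of_nonneg_left hx.1 hq0
      have e2 : q * x ≤ q * Ma := mul_le_mul_of_nonneg_left hx.2 hq0
      exact ⟨(min_le_left _ _).trans (by linarith), le_trans (by linarith) (le_max_right _ _)⟩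
    · have e1 : q * x ≤ q * Mb := mul_le_mul_of_nonpos_left hx.1 hq0.le
      have e2 : q * Ma ≤ q * x := mul_le_mul_of_nonpos_left hx.2 hq0.le
      exact ⟨(min_le_right _ _).trans (by linarith), le_trans (by linarith) (le_max_left _ _)⟩
  set a : ℕ → ℝ := fun j => c1 ^ j * Mb with ha
  set b : ℕ → ℝ := fun j => c2 ^ j * Ma with hb
  have ha0 : ∀ j, 0 < a j := fun j => by simp only [ha]; positivity
  have hb0 : ∀ j, 0 < b j := fun j => by simp only [hb]; positivity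
  have hA : ∀ M ∈ Box Mb Ma, ∀ j, a j ≤ Aof q M j * M j ∧ Aof q M j * M j ≤ b j := by
    intro M hM j
    have h1 : c1 ^ j ≤ Aof q M j := by
      unfold Aof
      rw [← Finset.card_range j, ← Finset.prod_const]
      simp only [Finset.card_range]
      exact Finset.prod_le_prod (fun _ _ => hc1p.le) fun i _ => (hfac _ (hM i)).1
    have h2 : Aof q M j ≤ c2 ^ j := by
      unfold Aof
      rw [← Finset.card_range j, ← Finset.prod_const]
      simp only [Finset.card_range]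
      exact Finset.prod_le_prod (fun i _ => hc1p.le.trans (hfac _ (hM i)).1)
        fun i _ => (hfac _ (hM i)).2
    have hMj := hM j
    have h3 : 0 < M j := lt_of_lt_of_le hMb hMj.1
    have h4 : 0 < c1 ^ j := by positivity
    have h5 : 0 < c2 ^ j := by positivity
    constructor
    · calc a j = c1 ^ j * Mb := rfl
        _ ≤ Aof q M j * M j := mul_le_mul h1 hMj.1 hMb.le (h4.le.trans h1)
    · calc Aof q M j * M j ≤ c2 ^ j * Ma := mul_le_mul h2 hMj.2 h3.le h5.le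
        _ = b j := rfl
  set μ := MU_mu d a b t with hμ
  set lo : ℕ → ℝ := fun j => ((μ j : ℝ) / b j) ^ (1 / (d : ℝ)) with hlo
  set hi : ℕ → ℝ := fun j => ((μ j : ℝ) / a j) ^ (1 / (d : ℝ)) with hhi
  have hT : ∀ M ∈ Box Mb Ma, ∀ j, lo j ≤ Tof d q μ M j ∧ Tof d q μ M j ≤ hi j := by
    intro M hM j
    obtain ⟨h1, h2⟩ := hA M hM j
    have h3 : 0 < Aof q M j * M j := lt_of_lt_of_le (ha0 j) h1
    have h4 : (0 : ℝ) ≤ (μ j : ℝ) := Nat.cast_nonneg _
    constructor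
    · refine Real.rpow_le_rpow (div_nonneg h4 (hb0 j).le) ?_ (by positivity)
      exact div_le_div_of_nonneg_left h4 h3 h2
    · refine Real.rpow_le_rpow (div_nonneg h4 h3.le) ?_ (by positivity)
      exact div_le_div_of_nonneg_left h4 (ha0 j) h1
  have h0 : max 2 t ≤ lo 0 := by
    refine MU_root_le hd (le_trans (by norm_num) (le_max_left _ _)) (hb0 0) ?_
    exact Nat.le_ceil _
  have hs : ∀ j, hi j ^ 8 ≤ lo (j + 1) := by
    intro j
    refine MU_root_le hd (by positivity) (hb0 (j + 1)) ?_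
    exact Nat.le_ceil _
  have hlo0 : ∀ j, 0 ≤ lo j := fun j =>
    Real.rpow_nonneg (div_nonneg (Nat.cast_nonneg _) (hb0 j).le) _
  refine ⟨μ, lo, hi, fun M hM => ⟨?_, hT M hM⟩, (le_max_left _ _).trans h0, hs⟩
  refine ⟨?_, ?_, fun j => (hM j).1, fun j => (hM j).2, ?_, ?_, ?_⟩
  · simp [Aof]
  · intro j
    unfold Aof
    rw [Finset.prod_range_succ]
  · intro j
    obtain ⟨h1, h2⟩ := hA M hM j
    have h3 : 0 < Aof q M j * M j := lt_of_lt_of_le (ha0 j) h1
    have h4 : Tof d q μ M j ^ d = (μ j : ℝ) / (Aof q M j * M j) := by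
      unfold Tof
      rw [one_div]
      exact Real.rpow_inv_natCast_pow (div_nonneg (Nat.cast_nonneg _) h3.le) hd
    rw [h4, mul_div_cancel₀ _ h3.ne']
  · exact ((le_max_right _ _).trans h0).trans (hT M hM 0).1
  · intro j
    calc Tof d q μ M j ^ 8 ≤ hi j ^ 8 :=
          pow_le_pow_left₀ ((hlo0 j).trans (hT M hM j).1) (hT M hM j).2 8
      _ ≤ lo (j + 1) := hs j
      _ ≤ _ := (hT M hM (j + 1)).1

end Pool.Agent.helper74.LG
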