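import Pool.Agent.helper74.LG.Defs
import Pool.Agent.helper55.BR.Brouwer

set_option autoImplicit false

namespace Pool.Agent.helper74.LG

open Complex Set Filter Topology MeasureTheory

/-- Poincare-Miranda for infinitely many variables (finite dimensional version with the other
variables frozen, then compactness of the product). -/
theorem pm_limit (lo hi : ℝ) (h : lo ≤ hi) (g : ℕ → (ℕ → ℝ) → ℝ)
    (hc : ∀ i, ContinuousOn (g i) {M : ℕ → ℝ | ∀ j, M j ∈ Icc lo hi})
    (h0 : ∀ i M, (∀ j, M j ∈ Icc lo hi) → M i = lo → 0 ≤ g i M)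
    (h1 : ∀ i M, (∀ j, M j ∈ Icc lo hi) → M i = hi → g i M ≤ 0) :
    ∃ M : ℕ → ℝ, (∀ j, M j ∈ Icc lo hi) ∧ ∀ i, g i M = 0 := by
  -- finite dimensional solutions
  have hfin : ∀ n : ℕ, ∃ M : ℕ → ℝ, (∀ j, M j ∈ Icc lo hi) ∧ ∀ i < n, g i M = 0 := by
    intro n
    let ext : (Fin n → ℝ) → (ℕ → ℝ) := fun x j => if hj : j < n then x ⟨j, hj⟩ else lo
    have hext : Continuous ext := by
      refine continuous_pi fun j => ?_
      by_cases hj : j < n
      · simp only [ext, dif_pos hj]
        exact continuous_apply _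
      · simp only [ext, dif_neg hj]
        exact continuous_const
    have hbox : ∀ x ∈ Icc (fun _ : Fin n => lo) (fun _ : Fin n => hi), ∀ j, ext x j ∈ Icc lo hi := by
      intro x hx j
      by_cases hj : j < n
      · simp only [ext, dif_pos hj]
        exact ⟨hx.1 _, hx.2 _⟩
      · simp only [ext, dif_neg hj]
        exact ⟨le_refl _, h⟩
    have hval : ∀ (x : Fin n → ℝ) (i : Fin n), ext x i = x i := by
      intro x i
      simp [ext]
    obtain ⟨x, hx, hfx⟩ := Pool.Agent.helper55.BR.poincare_miranda (fun _ : Fin n => lo)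
      (fun _ : Fin n => hi) (fun _ => h) (fun x i => - g i (ext x))
      (by
        refine continuousOn_pi.mpr fun i => ?_
        exact ((hc i).comp hext.continuousOn (fun x hx => hbox x hx)).neg)
      (by
        intro x hx i hi0
        have := h0 i (ext x) (hbox x hx) (by rw [hval]; exact hi0)
        simpa using this)
      (by
        intro x hx i hi0
        have := h1 i (ext x) (hbox x hx) (by rw [hval]; exact hi0)
        simpa using this)
    refine ⟨ext x, hbox x hx, fun i hi0 => ?_⟩
    have := congrFun hfx ⟨i, hi0⟩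
    simpa using this
  choose M hM hM0 using hfin
  have hcomp : IsCompact {M : ℕ → ℝ | ∀ j, M j ∈ Icc lo hi} := by
    have : {M : ℕ → ℝ | ∀ j, M j ∈ Icc lo hi} = Set.pi univ (fun _ => Icc lo hi) := by
      ext M
      exact ⟨fun h2 j _ => h2 j, fun h2 j => h2 j (mem_univ j)⟩
    rw [this]
    exact isCompact_univ_pi fun _ => isCompact_Icc
  obtain ⟨L, hL, φ, hφ, hlim⟩ := hcomp.tendsto_subseq (fun n => hM n)
  refine ⟨L, hL, fun i => ?_⟩
  have hg : Tendsto (fun k => g i (M (φ k))) atTop (𝓝 (g i L)) := by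
    have h2 : ContinuousWithinAt (g i) {M : ℕ → ℝ | ∀ j, M j ∈ Icc lo hi} L := hc i L hL
    refine Tendsto.comp h2 ?_
    exact tendsto_nhdsWithin_iff.mpr ⟨hlim, Eventually.of_forall fun k => hM (φ k)⟩
  have hev : ∀ᶠ k in atTop, g i (M (φ k)) = 0 := by
    filter_upwards [hφ.tendsto_atTop.eventually_gt_atTop i] with k hk
    exact hM0 (φ k) i hk
  exact tendsto_nhds_unique (hg.congr' hev) tendsto_const_nhds

end Pool.Agent.helper74.LG
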