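import Pool.Agent.helper74.LG.A1
import Pool.Agent.helper74.LG.EN

set_option autoImplicit false

namespace Pool.Agent.helper74.LG

open Complex Set Filter Topology MeasureTheory

/-- The first coefficients stay positive. -/
theorem rco_fam_small (d : ℕ) (ψ Mb Ma : ℝ) (h : CC d ψ Mb Ma) (Ψ : ℂ → ℂ) (hΨ : RealEnt Ψ)
    (m₀ : ℕ) (hpos : ∀ m, m < m₀ → 0 < rco (fun z => Ψ z * exp (z ^ d)) m) :
    ∃ t₀ : ℝ, ∀ t, t₀ ≤ t → ∀ μ T A M, Cfg d (qc d ψ) Mb Ma t μ T A M →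
      ∀ m, m < m₀ → 0 < rco (fam Ψ d ψ μ T) m := by
  obtain ⟨t₁, C, ht₁, hC, hf⟩ := fam_facts d ψ Mb Ma 1 h one_pos
  set Φ : ℂ → ℂ := fun z => Ψ z * exp (z ^ d) with hΦ
  have hΦd : Differentiable ℂ Φ := by
    have h1 : Differentiable ℂ (fun z : ℂ => z ^ d) := by fun_prop
    exact hΨ.1.mul h1.cexp
  -- bound on the unit circle
  obtain ⟨B, hB⟩ := (isCompact_sphere (0 : ℂ) 1).exists_bound_of_continuousOn
    hΦd.continuous.continuousOn
  -- minimum of the first coefficients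
  have hδ : ∃ δ : ℝ, 0 < δ ∧ ∀ m, m < m₀ → δ ≤ rco Φ m := by
    rcases Nat.eq_zero_or_pos m₀ with h0 | h0
    · exact ⟨1, one_pos, fun m hm => absurd hm (by omega)⟩
    · obtain ⟨m, hm, hmin⟩ := Finset.exists_min_image (Finset.range m₀) (rco Φ)
        ⟨0, Finset.mem_range.mpr h0⟩
      exact ⟨rco Φ m, hpos m (Finset.mem_range.mp hm),
        fun k hk => hmin k (Finset.mem_range.mpr hk)⟩
  obtain ⟨δ, hδ0, hδ⟩ := hδ
  set B' : ℝ := max B 0 with hB'
  have hB0 : 0 ≤ B' := le_max_right _ _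
  refine ⟨max t₁ ((B' * C / δ + 1) ^ 2), fun t ht μ T A M hcfg m hm => ?_⟩
  have ht1 : t₁ ≤ t := (le_max_left _ _).trans ht
  have ht2 : (B' * C / δ + 1) ^ 2 ≤ t := (le_max_right _ _).trans ht
  obtain ⟨g1, -, -, g4⟩ := hf t ht1 μ T A M hcfg
  have hsq : B' * C / δ + 1 ≤ Real.sqrt t := Real.le_sqrt_of_sq_le ht2
  have hq0 : 0 ≤ B' * C / δ := by positivity
  have hsq0 : 0 < Real.sqrt t := by linarith
  have hsmall : B' * (C / Real.sqrt t) < δ := by
    rw [← mul_div_assoc, div_lt_iff₀ hsq0]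
    have : B' * C / δ < Real.sqrt t := by linarith
    rw [div_lt_iff₀ hδ0] at this
    linarith
  have hdiff := norm_coef_sub_le (g1 Ψ hΨ).1 hΦd (B' * (C / Real.sqrt t)) (fun z hz => by
    have e : fam Ψ d ψ μ T z - Φ z = Φ z * ((∏' j, cl d ψ (z / T j) ^ μ j) - 1) := by
      simp only [fam, hΦ]
      ring
    rw [e, norm_mul]
    have hz' : z ∈ Metric.sphere (0 : ℂ) 1 := by simpa using hz
    exact mul_le_mul ((hB z hz').trans (le_max_left _ _)) (g4 z hz.le) (norm_nonneg _) hB0) m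
  have hre : rco Φ m - rco (fam Ψ d ψ μ T) m ≤ B' * (C / Real.sqrt t) := by
    have h1 := (abs_re_le_norm (coef (fam Ψ d ψ μ T) m - coef Φ m)).trans hdiff
    rw [sub_re] at h1
    have h2 := (abs_le.mp h1).1
    unfold rco
    linarith
  have := hδ m hm
  linarith

end Pool.Agent.helper74.LG
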