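import Pool.Agent.helper74.LG.Defs3

set_option autoImplicit false

namespace Pool.Agent.helper74.LG

open Complex Set Filter Topology MeasureTheory

theorem TPb_lower (θ₁ : ℝ) (h0 : 0 ≤ θ₁) (h1 : θ₁ ≤ Real.pi) (w : ℂ) (hw : |w.im| ≤ θ₁) :
    Real.sin θ₁ ≤ ‖1 + exp w‖ := by
  have hs : 0 ≤ Real.sin θ₁ := Real.sin_nonneg_of_nonneg_of_le_pi h0 h1
  have hc : Real.cos θ₁ ≤ Real.cos w.im := by
    rw [← Real.cos_abs w.im]
    exact Real.cos_le_cos_of_nonneg_of_le_pi (abs_nonneg _) h1 hw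
  have h2 : Real.sin θ₁ ^ 2 ≤ ‖1 + exp w‖ ^ 2 := by
    rw [← Complex.normSq_eq_norm_sq, Complex.normSq_apply]
    simp only [add_re, one_re, add_im, one_im, zero_add, exp_re, exp_im]
    have h3 := Real.sin_sq_add_cos_sq θ₁
    have h4 := Real.sin_sq_add_cos_sq w.im
    have h5 := Real.exp_pos w.re
    have h6 := mul_le_mul_of_nonneg_left hc h5.le
    nlinarith [sq_nonneg (Real.exp w.re + Real.cos θ₁), sq_nonneg (Real.exp w.re)]
  exact le_of_sq_le_sq h2 (norm_nonneg _)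

theorem TPb_slit (w : ℂ) (hw : |w.im| < Real.pi) : 1 + exp w ∈ slitPlane := by
  rw [mem_slitPlane_iff]
  by_contra hcon
  push Not at hcon
  obtain ⟨h1, h2⟩ := hcon
  simp only [add_re, one_re, add_im, one_im, zero_add, exp_re, exp_im] at h1 h2
  have h5 := Real.exp_pos w.re
  have h6 : Real.sin w.im = 0 := by
    rcases mul_eq_zero.1 h2 with h | h
    · exact absurd h h5.ne'
    · exact h
  have h7 := (abs_lt.1 hw)
  have h8 : w.im = 0 := (Real.sin_eq_zero_iff_of_lt_of_lt h7.1 h7.2).1 h6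
  rw [h8, Real.cos_zero] at h1
  linarith

/-- Multiplication by `(1+z)^M` keeps the class of base functions. -/
theorem base_mul (ρ H σ₁ H₁ θ₀ τ δ₀ : ℝ) (d : ℕ) (E : Set ℝ) (Ψ KΨ : ℂ → ℂ)
    (hB : Base ρ H σ₁ H₁ θ₀ τ δ₀ d E Ψ KΨ) (hθ : Real.pi / 2 < θ₀) (hτ : 0 < τ)
    (hτ3 : 2 * τ < Real.pi / 2) (hτ2 : θ₀ + 2 * τ < Real.pi) (M : ℕ) :
    Base ρ H σ₁ H₁ θ₀ τ δ₀ d E (fun z => (1 + z) ^ M * Ψ z)
        (fun w => KΨ w + M * log (1 + exp w)) := by
  have hpi := Real.pi_pos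
  have hDS : ∀ w ∈ DS θ₀ (2 * τ), |w.im| ≤ θ₀ + 2 * τ := by
    intro w hw
    rcases hw with h | h
    · linarith
    · rw [abs_lt] at h
      rw [abs_le]; constructor <;> linarith
  have hslit : ∀ w ∈ DS θ₀ (2 * τ), 1 + exp w ∈ slitPlane := fun w hw =>
    TPb_slit w (lt_of_le_of_lt (hDS w hw) hτ2)
  have hre1 : ∀ s : ℝ, ((1 + exp (s : ℂ)) ^ M * Ψ (exp s)).re =
      (1 + Real.exp s) ^ M * (Ψ (exp s)).re := by
    intro s
    rw [show (1 + exp (s : ℂ)) ^ M = (((1 + Real.exp s) ^ M : ℝ) : ℂ) by push_cast; rfl,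
      re_ofReal_mul]
  have hnm : ∀ s θ : ℝ, ‖(1 + exp ((s : ℂ) + θ * I)) ^ M‖ ≤ (1 + Real.exp s) ^ M := by
    intro s θ
    rw [norm_pow]
    apply pow_le_pow_left₀ (norm_nonneg _)
    refine (norm_add_le _ _).trans ?_
    rw [norm_one, Complex.norm_exp]
    simp
  refine ⟨⟨?_, ?_⟩, ?_, ?_, ?_, ?_, ?_, ?_, ?_, ?_⟩
  · exact ((differentiable_const _).add differentiable_id).pow M |>.mul hB.ent.1
  · intro z
    simp only [map_mul, map_pow, map_add, map_one, hB.ent.2 z]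
  · apply hB.an.add
    apply DifferentiableOn.const_mul
    intro w hw
    apply DifferentiableAt.differentiableWithinAt
    apply DifferentiableAt.clog
    · exact (differentiableAt_const _).add differentiableAt_id.cexp
    · exact hslit w hw
  · intro w hw
    have h1 : 1 + exp w ≠ 0 := slitPlane_ne_zero (hslit w hw)
    rw [exp_add, hB.ex w hw, exp_nat_mul, exp_log h1, mul_comm]
  · intro x
    have h1 : log (1 + exp (x : ℂ)) = ((Real.log (1 + Real.exp x) : ℝ) : ℂ) := by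
      rw [ofReal_log (by positivity)]; push_cast; rfl
    rw [h1, add_im, hB.re x, ← ofReal_natCast, ← ofReal_mul, ofReal_im, add_zero]
  · simp only [add_zero, one_pow, one_mul]; exact hB.z0
  · obtain ⟨C, hC⟩ := hB.asy
    refine ⟨C + M * (1 + Real.log 2 + |Real.log (Real.sin (θ₀ + 2 * τ))| + Real.pi), ?_⟩
    intro w hw hw0
    have h1 := hC w hw hw0
    have hE1 : 1 ≤ Real.exp w.re := Real.one_le_exp hw0
    have hE2 : w.re ≤ Real.exp w.re := by linarith [Real.add_one_le_exp w.re]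
    have hsin : 0 < Real.sin (θ₀ + 2 * τ) := Real.sin_pos_of_pos_of_lt_pi (by linarith) hτ2
    have hlow := TPb_lower (θ₀ + 2 * τ) (by linarith) hτ2.le w (hDS w hw)
    have hup : ‖1 + exp w‖ ≤ 2 * Real.exp w.re := by
      refine (norm_add_le _ _).trans ?_
      rw [norm_one, Complex.norm_exp]; linarith
    have hlog2 : 0 ≤ Real.log 2 := Real.log_nonneg (by norm_num)
    have h2 : |Real.log ‖1 + exp w‖| ≤
        Real.log 2 + w.re + |Real.log (Real.sin (θ₀ + 2 * τ))| := by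
      rw [abs_le]
      constructor
      · have := Real.log_le_log hsin hlow
        have h3 := neg_abs_le (Real.log (Real.sin (θ₀ + 2 * τ)))
        linarith
      · have h4 : 0 < ‖1 + exp w‖ := hsin.trans_le hlow
        have := Real.log_le_log h4 hup
        rw [Real.log_mul (by norm_num) (Real.exp_pos _).ne', Real.log_exp] at this
        have := abs_nonneg (Real.log (Real.sin (θ₀ + 2 * τ)))
        linarith
    have h3 : ‖log (1 + exp w)‖ ≤
        (1 + Real.log 2 + |Real.log (Real.sin (θ₀ + 2 * τ))| + Real.pi) * Real.exp w.re := by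
      have h4 : ‖log (1 + exp w)‖ ≤ |(log (1 + exp w)).re| + |(log (1 + exp w)).im| :=
        Complex.norm_le_abs_re_add_abs_im _
      rw [Complex.log_re, Complex.log_im] at h4
      have h5 := Complex.abs_arg_le_pi (1 + exp w)
      have h6 : 0 ≤ |Real.log (Real.sin (θ₀ + 2 * τ))| := abs_nonneg _
      nlinarith
    have h4 : KΨ w + M * log (1 + exp w) - (H * exp (ρ * w) + H₁ * exp (σ₁ * w)) =
        (KΨ w - (H * exp (ρ * w) + H₁ * exp (σ₁ * w))) + M * log (1 + exp w) := by ring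
    rw [h4]
    refine (norm_add_le _ _).trans ?_
    rw [norm_mul, norm_natCast]
    have h5 : (M : ℝ) * ‖log (1 + exp w)‖ ≤ M *
        ((1 + Real.log 2 + |Real.log (Real.sin (θ₀ + 2 * τ))| + Real.pi) * Real.exp w.re) :=
      mul_le_mul_of_nonneg_left h3 (Nat.cast_nonneg M)
    nlinarith
  · obtain ⟨C, c, σ₂, hc, hσ₂, h⟩ := hB.up
    refine ⟨C, c, σ₂, hc, hσ₂, fun s θ hs h1 h2 h3 h4 => ?_⟩
    rw [hre1, norm_mul]
    have h5 := h s θ hs h1 h2 h3 h4
    have h6 := hnm s θ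
    calc ‖(1 + exp ((s : ℂ) + θ * I)) ^ M‖ * ‖Ψ (exp ((s : ℂ) + θ * I))‖
        ≤ (1 + Real.exp s) ^ M * (Real.exp (C - c * Real.exp (σ₂ * s)) * (Ψ (exp s)).re) :=
          mul_le_mul h6 h5 (norm_nonneg _) (by positivity)
      _ = _ := by ring
  · obtain ⟨C, h⟩ := hB.upE
    refine ⟨C, fun s θ hs h4 => ?_⟩
    rw [hre1, norm_mul]
    have h5 := h s θ hs h4
    have h6 := hnm s θ
    calc ‖(1 + exp ((s : ℂ) + θ * I)) ^ M‖ * ‖Ψ (exp ((s : ℂ) + θ * I))‖
        ≤ (1 + Real.exp s) ^ M * (Real.exp C * (Ψ (exp s)).re) :=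
          mul_le_mul h6 h5 (norm_nonneg _) (by positivity)
      _ = _ := by ring
  · obtain ⟨R, h⟩ := hB.zer
    refine ⟨max R 2, fun z hz hR => ?_⟩
    rcases mul_eq_zero.1 hz with h1 | h1
    · have h2 : z = -1 := by
        have := eq_zero_of_pow_eq_zero h1
        linear_combination this
      rw [h2, norm_neg, norm_one] at hR
      have := (le_max_right R 2).trans hR
      norm_num at this
    · exact h z h1 ((le_max_left _ _).trans hR)

end Pool.Agent.helper74.LG
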