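import Pool.Agent.helper74.LG.DC
import Pool.Agent.helper74.LG.S4
import Pool.Agent.helper74.LG.S5
import Pool.Agent.helper74.LG.S6
import Pool.Agent.helper74.LG.S8
import Pool.Agent.helper74.LG.S9
import Pool.Agent.helper74.LG.I1
import Pool.Agent.helper74.LG.PM
import Pool.Agent.helper74.LG.MU
import Pool.Agent.helper74.LG.CT
import Pool.Agent.helper74.LG.SM
import Pool.Agent.helper74.LG.EB
import Pool.Agent.helper74.LG.EK

set_option autoImplicit false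

namespace Pool.Agent.helper74.LG

open Complex Set Filter Topology MeasureTheory

/-- The formula for `Re K (s) - Re K (s + i θ₀)` in the `i`-th zone. -/
theorem TT_kap_formula {ρ H σ₁ H₁ θ₀ τ CΨ ψ ω : ℝ} {d : ℕ} {KΨ : ℂ → ℂ} (hτ : 0 < τ)
    (hasy : ∀ w ∈ DS θ₀ (2 * τ), 0 ≤ w.re →
      ‖KΨ w - (H * exp (ρ * w) + H₁ * exp (σ₁ * w))‖ ≤ CΨ * Real.exp w.re)
    (hper : exp (ρ * θ₀ * I) = 1) (hper₁ : H₁ = 0 ∨ exp (σ₁ * θ₀ * I) = 1)
    {μ : ℕ → ℕ} {T A M : ℕ → ℝ} (i : ℕ) (s : ℝ) (hs : 0 ≤ s) (hT : 0 < T i)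
    (hmu : (μ i : ℝ) = A i * M i * T i ^ d)
    (h1 : ‖Kcl d ψ μ T (s : ℂ) - (A i - 1) * exp (d * (s : ℂ)) -
      μ i * elog d ψ ((s : ℂ) - Real.log (T i))‖ ≤ ω * A i * Real.exp (d * s))
    (h2 : ‖Kcl d ψ μ T ((s : ℂ) + θ₀ * I) - (A i - 1) * exp (d * ((s : ℂ) + θ₀ * I)) -
      μ i * elog d ψ ((s : ℂ) + θ₀ * I - Real.log (T i))‖ ≤ ω * A i * Real.exp (d * s)) :
    |((Kfam KΨ d ψ μ T (s : ℂ)).re - (Kfam KΨ d ψ μ T ((s : ℂ) + θ₀ * I)).re) -
      A i * T i ^ d * ((1 - Real.cos (d * θ₀)) * Real.exp (d * (s - Real.log (T i))) +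
        M i * kap d ψ θ₀ (s - Real.log (T i)))| ≤
      2 * (ω * A i * Real.exp (d * s)) + 2 * (CΨ * Real.exp s) := by
  have hre1 := (abs_re_le_norm _).trans h1
  have hre2 := (abs_re_le_norm _).trans h2
  have ha1 := (abs_re_le_norm _).trans (hasy (s : ℂ) (by
    left; simp; positivity) (by simpa using hs))
  have ha2 := (abs_re_le_norm _).trans (hasy ((s : ℂ) + θ₀ * I) (by
    right; simp; positivity) (by simpa using hs))
  have hmain : (H * exp (ρ * ((s : ℂ) + θ₀ * I)) + H₁ * exp (σ₁ * ((s : ℂ) + θ₀ * I))) =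
      (H * exp (ρ * (s : ℂ)) + H₁ * exp (σ₁ * (s : ℂ))) := by
    have e1 : exp (ρ * ((s : ℂ) + θ₀ * I)) = exp (ρ * (s : ℂ)) := by
      rw [mul_add, Complex.exp_add, ← mul_assoc, hper, mul_one]
    rcases hper₁ with h | h
    · rw [e1, h]; simp
    · have e2 : exp (σ₁ * ((s : ℂ) + θ₀ * I)) = exp (σ₁ * (s : ℂ)) := by
        rw [mul_add, Complex.exp_add, ← mul_assoc, h, mul_one]
      rw [e1, e2]
  rw [hmain] at ha2
  have hexp1 : (exp (d * (s : ℂ))).re = Real.exp (d * s) := by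
    have : (d : ℂ) * (s : ℂ) = ((d * s : ℝ) : ℂ) := by push_cast; ring
    rw [this, Complex.exp_ofReal_re]
  have hexp1' : exp (d * (s : ℂ)) = ((Real.exp (d * s) : ℝ) : ℂ) := by
    have : (d : ℂ) * (s : ℂ) = ((d * s : ℝ) : ℂ) := by push_cast; ring
    rw [this, Complex.ofReal_exp]
  have hexp2 : (exp (d * ((s : ℂ) + θ₀ * I))).re = Real.exp (d * s) * Real.cos (d * θ₀) := by
    rw [Complex.exp_re]
    simp
  have hexp : Real.exp (d * (s - Real.log (T i))) = Real.exp (d * s) / T i ^ d := by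
    rw [mul_sub, Real.exp_sub, show (d : ℝ) * Real.log (T i) = Real.log (T i ^ d) by
      rw [Real.log_pow], Real.exp_log (by positivity)]
  have hT' : T i ^ d ≠ 0 := by positivity
  have hk : kap d ψ θ₀ (s - Real.log (T i)) = (elog d ψ ((s : ℂ) - Real.log (T i))).re -
      (elog d ψ ((s : ℂ) + θ₀ * I - Real.log (T i))).re := by
    unfold kap
    congr 2
    · congr 1; push_cast; ring
    · congr 1; push_cast; ring
  have hK1 : (Kfam KΨ d ψ μ T (s : ℂ)).re = (KΨ (s : ℂ)).re + Real.exp (d * s) +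
      (Kcl d ψ μ T (s : ℂ)).re := by
    unfold Kfam
    simp only [add_re, hexp1]
  have hK2 : (Kfam KΨ d ψ μ T ((s : ℂ) + θ₀ * I)).re = (KΨ ((s : ℂ) + θ₀ * I)).re +
      Real.exp (d * s) * Real.cos (d * θ₀) + (Kcl d ψ μ T ((s : ℂ) + θ₀ * I)).re := by
    unfold Kfam
    simp only [add_re, hexp2]
  have r1 : (((A i : ℂ) - 1) * exp (d * (s : ℂ))).re = (A i - 1) * Real.exp (d * s) := by
    rw [hexp1', ← ofReal_one, ← ofReal_sub, ← ofReal_mul, ofReal_re]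
  have r2 : (((A i : ℂ) - 1) * exp (d * ((s : ℂ) + θ₀ * I))).re =
      (A i - 1) * (Real.exp (d * s) * Real.cos (d * θ₀)) := by
    rw [← ofReal_one, ← ofReal_sub, re_ofReal_mul, hexp2]
  have r3 : ∀ v : ℂ, ((μ i : ℂ) * v).re = A i * M i * T i ^ d * v.re := by
    intro v
    rw [← hmu, ← ofReal_natCast, re_ofReal_mul]
  simp only [sub_re, r1, r2, r3] at hre1 hre2
  have hid : A i * T i ^ d * ((1 - Real.cos (d * θ₀)) * (Real.exp (d * s) / T i ^ d) +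
        M i * ((elog d ψ ((s : ℂ) - Real.log (T i))).re -
      (elog d ψ ((s : ℂ) + θ₀ * I - Real.log (T i))).re)) =
      A i * ((1 - Real.cos (d * θ₀)) * Real.exp (d * s)) + A i * M i * T i ^ d *
        (elog d ψ ((s : ℂ) - Real.log (T i))).re -
        A i * M i * T i ^ d * (elog d ψ ((s : ℂ) + θ₀ * I - Real.log (T i))).re := by
    field_simp
    ring
  rw [hK1, hK2, hexp, hk, hid]
  rw [sub_re] at ha1 ha2
  simp only [ofReal_re, add_re, mul_re, I_re, I_im, ofReal_im, mul_zero, zero_mul, mul_one,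
    sub_zero, add_zero] at ha1 ha2
  rw [abs_le] at *
  obtain ⟨a1, a1'⟩ := ha1
  obtain ⟨a2, a2'⟩ := ha2
  obtain ⟨b1, b1'⟩ := hre1
  obtain ⟨b2, b2'⟩ := hre2
  constructor
  · linarith
  · linarith

/-- Comparison of exponentials. -/
theorem TT_exp_le {p q c C : ℝ} (hc : 0 < c) (hq : q < p) :
    ∀ᶠ s : ℝ in atTop, C * Real.exp (q * s) ≤ c * Real.exp (p * s) := by
  have h1 : Tendsto (fun s : ℝ => c * Real.exp ((p - q) * s)) atTop atTop := by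
    apply Tendsto.const_mul_atTop hc
    exact Real.tendsto_exp_atTop.comp (tendsto_id.const_mul_atTop (by linarith))
  filter_upwards [h1.eventually_ge_atTop C] with s hs
  have : c * Real.exp (p * s) = c * Real.exp ((p - q) * s) * Real.exp (q * s) := by
    rw [mul_assoc, ← Real.exp_add]; congr 2; ring
  rw [this]
  exact mul_le_mul_of_nonneg_right hs (Real.exp_pos _).le

theorem TT_exp_le3 {p q₁ q₂ c C₁ C₂ R : ℝ} (hc : 0 < c) (hp : 0 < p) (h1 : q₁ < p) (h2 : q₂ < p) :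
    ∃ S₀ : ℝ, ∀ s : ℝ, S₀ ≤ s →
      C₁ * Real.exp (q₁ * s) + C₂ * Real.exp (q₂ * s) + R ≤ c * Real.exp (p * s) := by
  have e1 := TT_exp_le (p := p) (q := q₁) (c := c / 3) (C := C₁) (by positivity) h1
  have e2 := TT_exp_le (p := p) (q := q₂) (c := c / 3) (C := C₂) (by positivity) h2
  have e3 := TT_exp_le (p := p) (q := 0) (c := c / 3) (C := R) (by positivity) hp
  obtain ⟨S₀, hS⟩ := Filter.eventually_atTop.1 (e1.and (e2.and e3))
  refine ⟨S₀, fun s hs => ?_⟩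
  obtain ⟨a, b, c'⟩ := hS s hs
  rw [zero_mul, Real.exp_zero, mul_one] at c'
  linarith

theorem TT_Sad_mono {P : CP} {K : ℂ → ℂ} {m₀ m₁ : ℕ} {C' : ℝ} {s : ℕ → ℝ} {w₁ : ℕ → ℂ}
    (h : Sad P K m₀ C' s w₁) (hm : m₀ ≤ m₁) : Sad P K m₁ C' s w₁ :=
  fun m hm' => h m (hm.trans hm')

theorem TT_log_tendsto (P : CP) (hP : P.Ok) :
    Tendsto (fun m : ℕ => Real.log (m / (P.H * P.ρ)) / P.ρ) atTop atTop := by
  have h1 := hP.ρ1
  have h2 := hP.H0
  apply Tendsto.atTop_div_const (by linarith)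
  apply Real.tendsto_log_atTop.comp
  apply Tendsto.atTop_div_const (by positivity)
  exact tendsto_natCast_atTop_atTop

/-- All facts about saddle points in one statement. -/
theorem TT_pack (P : CP) (hP : P.Ok) (η ηl : ℝ) (hη : 0 < η) (hηl : 0 < ηl) :
    ∃ C' C'' : ℝ, 0 < C' ∧ 0 < C'' ∧ ∀ S₀ : ℝ, ∃ m₀ : ℕ, ∀ f K, Cls P f K →
      ∃ (s : ℕ → ℝ) (w₁ : ℕ → ℂ), Sad P K m₀ C' s w₁ ∧ ∀ m : ℕ, m₀ ≤ m →
        S₀ ≤ s m ∧ |s m - Real.log (m / (P.H * P.ρ)) / P.ρ| ≤ ηl ∧ 0 < Nof P K s m ∧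
        |rco f m / Nof P K s m - (1 + pk P.θ₀ * (Xof K s w₁ m).re)| ≤
          η * (1 + ‖Xof K s w₁ m‖) ∧
        (P.θ₀ = Real.pi → |(Xof K s w₁ m).im| ≤ η * (1 + ‖Xof K s w₁ m‖)) ∧
        ‖Xof K s w₁ (m + 1) - exp (-(P.θ₀ * I)) * Xof K s w₁ m‖ ≤ η * ‖Xof K s w₁ m‖ ∧
        |Real.log ‖Xof K s w₁ m‖ + ((K (s m)).re - (K (s m + P.θ₀ * I)).re)| ≤
          C'' * Real.exp ((2 * P.σ - P.ρ) * s m) := by
  obtain ⟨m₀', C', hC', hsad⟩ := exists_sad P hP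
  obtain ⟨m₁, h1⟩ := sp_main P hP m₀' C' η hC' hη
  obtain ⟨m₂, h2⟩ := sp_ratio P hP m₀' C' η hC' hη
  obtain ⟨m₃, C'', hC'', h3⟩ := sp_mod P hP m₀' C' hC'
  obtain ⟨m₄, h4⟩ := sp_loc P hP m₀' C' ηl hC' hηl
  refine ⟨C', C'', hC', hC'', fun S₀ => ?_⟩
  obtain ⟨m₅, h5⟩ := Filter.eventually_atTop.1
    ((TT_log_tendsto P hP).eventually_ge_atTop (S₀ + ηl))
  refine ⟨max m₀' (max m₁ (max m₂ (max m₃ (max m₄ m₅)))), fun f K hf => ?_⟩
  obtain ⟨s, w₁, hs⟩ := hsad f K hf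
  refine ⟨s, w₁, TT_Sad_mono hs (le_max_left _ _), fun m hm => ?_⟩
  simp only [max_le_iff] at hm
  obtain ⟨k0, k1, k2, k3, k4, k5⟩ := hm
  have l4 := h4 f K s w₁ hf hs m k4
  have l5 := h5 m k5
  have l1 := h1 f K s w₁ hf hs m k1
  refine ⟨?_, l4, ?_, l1.1, l1.2, h2 f K s w₁ hf hs m k2, h3 f K s w₁ hf hs m k3⟩
  · have := (abs_le.1 l4).1
    linarith
  · unfold Nof
    have hH := hP.H0
    have hρ : 0 < P.ρ := by linarith [hP.ρ1]
    apply div_pos (Real.exp_pos _)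
    apply Real.sqrt_pos.2
    have := Real.exp_pos (P.ρ * s m)
    have := Real.pi_pos
    positivity

/-- A suitable index near the scale `T`. -/
theorem TT_m {H ρ : ℝ} (x₀ : ℝ) {ηl : ℝ} (hH : 0 < H) (hρ : 1 < ρ) (hηl : 0 < ηl) (m₀ : ℕ) :
    ∃ T₀ : ℝ, 2 ≤ T₀ ∧ ∀ T : ℝ, T₀ ≤ T → ∃ m : ℕ, m₀ ≤ m ∧ H * ρ * T ^ (ρ / 2) ≤ m ∧
      (m : ℝ) + 4 ≤ H * ρ * (T ^ 8) ^ (ρ / 2) ∧
      |Real.log (m / (H * ρ)) / ρ - (x₀ + Real.log T)| ≤ ηl := by
  have hρ0 : 0 < ρ := by linarith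
  set y : ℝ → ℝ := fun T => H * ρ * (Real.exp x₀ * T) ^ ρ with hy
  have hlim : Tendsto y atTop atTop := by
    apply Tendsto.const_mul_atTop (by positivity)
    exact (tendsto_rpow_atTop hρ0).comp (tendsto_id.const_mul_atTop (Real.exp_pos _))
  have e1 := hlim.eventually_ge_atTop (m₀ : ℝ)
  have e2 := hlim.eventually_ge_atTop (1 / (ρ * ηl) + 1)
  have e3 : ∀ᶠ T : ℝ in atTop, Real.exp (-(2 * x₀)) ≤ T := eventually_ge_atTop _
  have e4 : ∀ᶠ T : ℝ in atTop, 2 ≤ T := eventually_ge_atTop _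
  have e5 : ∀ᶠ T : ℝ in atTop, Real.exp x₀ ≤ T := eventually_ge_atTop _
  have e6 : ∀ᶠ T : ℝ in atTop, 5 / (H * ρ) ≤ T := eventually_ge_atTop _
  obtain ⟨T₀, hT₀⟩ := Filter.eventually_atTop.1 (e1.and (e2.and (e3.and (e4.and (e5.and e6)))))
  refine ⟨max 2 T₀, le_max_left _ _, fun T hT => ?_⟩
  obtain ⟨f1, f2, f3, f4, f5, f6⟩ := hT₀ T ((le_max_right _ _).trans hT)
  have hT0 : 0 < T := by linarith
  have hy1 : 1 ≤ y T := by
    have : 0 < 1 / (ρ * ηl) := by positivity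
    linarith
  have hy0 : 0 < y T := by linarith
  refine ⟨⌈y T⌉₊, ?_, ?_, ?_, ?_⟩
  · exact_mod_cast f1.trans (Nat.le_ceil _)
  · refine le_trans ?_ (Nat.le_ceil _)
    simp only [hy]
    apply mul_le_mul_of_nonneg_left _ (by positivity)
    have h1 : T ^ (ρ / 2) = (T ^ (1 / 2 : ℝ)) ^ ρ := by
      rw [← Real.rpow_mul hT0.le]; congr 1; ring
    rw [h1]
    apply Real.rpow_le_rpow (by positivity) _ hρ0.le
    have h2 : Real.exp (-x₀) ≤ T ^ (1 / 2 : ℝ) := by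
      have : Real.exp (-x₀) = (Real.exp (-(2 * x₀))) ^ (1 / 2 : ℝ) := by
        rw [← Real.exp_mul]; congr 1; ring
      rw [this]
      exact Real.rpow_le_rpow (Real.exp_pos _).le f3 (by norm_num)
    have h3 : T = T ^ (1 / 2 : ℝ) * T ^ (1 / 2 : ℝ) := by
      rw [← Real.rpow_add hT0]; norm_num
    have h4 : 1 ≤ Real.exp x₀ * T ^ (1 / 2 : ℝ) := by
      calc (1 : ℝ) = Real.exp x₀ * Real.exp (-x₀) := by rw [← Real.exp_add]; simp
        _ ≤ _ := mul_le_mul_of_nonneg_left h2 (Real.exp_pos _).le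
    calc T ^ (1 / 2 : ℝ) = 1 * T ^ (1 / 2 : ℝ) := (one_mul _).symm
      _ ≤ (Real.exp x₀ * T ^ (1 / 2 : ℝ)) * T ^ (1 / 2 : ℝ) :=
          mul_le_mul_of_nonneg_right h4 (by positivity)
      _ = Real.exp x₀ * T := by rw [mul_assoc, ← h3]
  · have hc : ((⌈y T⌉₊ : ℕ) : ℝ) ≤ y T + 1 := (Nat.ceil_lt_add_one hy0.le).le
    have h1 : y T ≤ H * ρ * (T ^ 2) ^ ρ := by
      simp only [hy]
      apply mul_le_mul_of_nonneg_left _ (by positivity)
      apply Real.rpow_le_rpow (by positivity) _ hρ0.le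
      rw [sq]
      exact mul_le_mul_of_nonneg_right f5 hT0.le
    have h2 : (T ^ 8) ^ (ρ / 2) = (T ^ 2) ^ ρ * (T ^ 2) ^ ρ := by
      rw [← Real.mul_rpow (by positivity) (by positivity)]
      rw [show T ^ 2 * T ^ 2 = T ^ 4 by ring, show T ^ 8 = (T ^ 4) ^ (2 : ℝ) by
        rw [Real.rpow_two]; ring, ← Real.rpow_mul (by positivity)]
      congr 1; ring
    have h3 : T ^ 2 ≤ (T ^ 2) ^ ρ := by
      conv_lhs => rw [← Real.rpow_one (T ^ 2)]
      apply Real.rpow_le_rpow_of_exponent_le _ hρ.le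
      nlinarith
    have h4 : (4 : ℝ) ≤ (T ^ 2) ^ ρ := by nlinarith
    have h5 : 5 ≤ H * ρ * (T ^ 2) ^ ρ := by
      have : 5 ≤ H * ρ * T := by
        rw [div_le_iff₀ (by positivity)] at f6
        linarith
      have h6 : T ≤ (T ^ 2) ^ ρ := by nlinarith
      calc (5 : ℝ) ≤ H * ρ * T := this
        _ ≤ _ := mul_le_mul_of_nonneg_left h6 (by positivity)
    rw [h2]
    have h7 : 4 * (H * ρ * (T ^ 2) ^ ρ) ≤ H * ρ * ((T ^ 2) ^ ρ * (T ^ 2) ^ ρ) := by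
      have := mul_le_mul_of_nonneg_left h4 (show 0 ≤ H * ρ * (T ^ 2) ^ ρ by positivity)
      linarith [this]
    linarith
  · have hc : ((⌈y T⌉₊ : ℕ) : ℝ) ≤ y T + 1 := (Nat.ceil_lt_add_one hy0.le).le
    have hc' : y T ≤ ((⌈y T⌉₊ : ℕ) : ℝ) := Nat.le_ceil _
    set m : ℝ := ((⌈y T⌉₊ : ℕ) : ℝ)
    have hly : Real.log (y T / (H * ρ)) / ρ = x₀ + Real.log T := by
      have : y T / (H * ρ) = (Real.exp x₀ * T) ^ ρ := by
        simp only [hy]; field_simp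
      rw [this, Real.log_rpow (by positivity), Real.log_mul (Real.exp_pos _).ne' hT0.ne',
        Real.log_exp]
      field_simp
    rw [← hly, ← sub_div, ← Real.log_div (by positivity) (by positivity)]
    have hq : m / (H * ρ) / (y T / (H * ρ)) = m / y T := by field_simp
    rw [hq]
    have hge : 1 ≤ m / y T := by rw [le_div_iff₀ hy0]; linarith
    have hle : m / y T ≤ 1 + 1 / y T := by
      rw [div_le_iff₀ hy0, add_mul, one_mul, one_div, inv_mul_cancel₀ hy0.ne']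
      exact hc
    have hl0 : 0 ≤ Real.log (m / y T) := Real.log_nonneg hge
    have hl1 : Real.log (m / y T) ≤ 1 / y T := by
      have := Real.log_le_sub_one_of_pos (show 0 < m / y T by linarith)
      linarith
    rw [abs_of_nonneg (by positivity), div_le_iff₀ hρ0]
    refine hl1.trans ?_
    rw [div_le_iff₀ hy0]
    have : 1 / (ρ * ηl) ≤ y T := by linarith
    rw [div_le_iff₀ (by positivity)] at this
    linarith

/-- The zone of a block. -/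
theorem TT_zone {H ρ : ℝ} (hH : 0 < H) (hρ : 1 < ρ) {lo hi T : ℕ → ℝ} (h2 : 2 ≤ lo 0)
    (h8 : ∀ j, hi j ^ 8 ≤ lo (j + 1)) (hT : ∀ j, lo j ≤ T j ∧ T j ≤ hi j) {m : ℕ} {i : ℕ} {sm : ℝ}
    (hm : 0 < m) (hs : |sm - Real.log (m / (H * ρ)) / ρ| ≤ 1 / 16)
    (hlo : ∀ j, j + 1 = i → H * ρ * (lo i) ^ (ρ / 2) ≤ m)
    (hup : (m : ℝ) ≤ H * ρ * (lo (i + 1)) ^ (ρ / 2)) :
    (∀ j, j + 1 = i → 3 / 2 * Real.log (T j) ≤ sm) ∧ sm ≤ 2 / 3 * Real.log (T (i + 1)) := by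
  have hρ0 : 0 < ρ := by linarith
  have hlo2 : ∀ j, 2 ≤ lo j := by
    intro j
    induction j with
    | zero => exact h2
    | succ j ih =>
      have h1 : 2 ≤ hi j := ih.trans ((hT j).1.trans (hT j).2)
      have h3 : (2 : ℝ) ^ 8 ≤ hi j ^ 8 := pow_le_pow_left₀ (by norm_num) h1 8
      have h4 := h8 j
      norm_num at h3
      linarith
  have hlog2 : (0.6931 : ℝ) < Real.log 2 := by linarith [Real.log_two_gt_d9]
  have hm' : (0 : ℝ) < m := by exact_mod_cast hm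
  have habs := abs_le.1 hs
  constructor
  · intro j hj
    subst hj
    have hl := hlo j rfl
    have hp : 0 < lo (j + 1) := by linarith [hlo2 (j + 1)]
    have h1 : Real.log ((lo (j + 1)) ^ (ρ / 2)) ≤ Real.log (m / (H * ρ)) := by
      apply Real.log_le_log (by positivity)
      rw [le_div_iff₀ (by positivity)]
      linarith
    rw [Real.log_rpow hp] at h1
    have hTj : 2 ≤ T j := (hlo2 j).trans (hT j).1
    have hhi : 0 < hi j := by linarith [(hT j).2]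
    have h3 : 8 * Real.log (T j) ≤ Real.log (lo (j + 1)) := by
      have : Real.log (hi j ^ 8) ≤ Real.log (lo (j + 1)) :=
        Real.log_le_log (by positivity) (h8 j)
      rw [Real.log_pow] at this
      have h4 : Real.log (T j) ≤ Real.log (hi j) := Real.log_le_log (by linarith) (hT j).2
      push_cast at this
      linarith
    have h5 : 4 * Real.log (T j) ≤ Real.log (m / (H * ρ)) / ρ := by
      rw [le_div_iff₀ hρ0]
      nlinarith
    have h6 : Real.log 2 ≤ Real.log (T j) := Real.log_le_log (by norm_num) hTj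
    linarith [habs.1]
  · have hp : 0 < lo (i + 1) := by linarith [hlo2 (i + 1)]
    have h1 : Real.log (m / (H * ρ)) ≤ Real.log ((lo (i + 1)) ^ (ρ / 2)) := by
      apply Real.log_le_log (by positivity)
      rw [div_le_iff₀ (by positivity)]
      linarith
    rw [Real.log_rpow hp] at h1
    have hTi : 2 ≤ T (i + 1) := (hlo2 (i + 1)).trans (hT (i + 1)).1
    have h3 : Real.log (lo (i + 1)) ≤ Real.log (T (i + 1)) :=
      Real.log_le_log hp (hT (i + 1)).1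
    have h5 : Real.log (m / (H * ρ)) / ρ ≤ 1 / 2 * Real.log (T (i + 1)) := by
      rw [div_le_iff₀ hρ0]
      nlinarith
    have h6 : Real.log 2 ≤ Real.log (T (i + 1)) := Real.log_le_log (by norm_num) hTi
    linarith [habs.2]

/-- Lower bound for `A i` in the `i`-th zone. -/
theorem TT_A {d : ℕ} {q Mb Ma t ε : ℝ} {μ : ℕ → ℕ} {T A M : ℕ → ℝ}
    (hc : Cfg d q Mb Ma t μ T A M) (hε : 0 < ε) (hTpos : ∀ j, 1 ≤ T j)
    (hA : ∀ j, T j ^ (-ε) ≤ A (j + 1)) {i : ℕ} {s : ℝ} (hs : 0 ≤ s)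
    (hz : ∀ j, j + 1 = i → 3 / 2 * Real.log (T j) ≤ s) : Real.exp (-(ε * s)) ≤ A i := by
  rcases Nat.eq_zero_or_pos i with rfl | hi
  · rw [hc.A0]
    apply Real.exp_le_one_iff.2
    have : 0 ≤ ε * s := by positivity
    linarith
  · obtain ⟨j, rfl⟩ := Nat.exists_eq_add_of_lt hi
    rw [zero_add] at *
    refine le_trans ?_ (hA j)
    have h1 := hz j rfl
    have h2 : 0 ≤ Real.log (T j) := Real.log_nonneg (hTpos j)
    rw [Real.rpow_def_of_pos (by linarith [hTpos j])]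
    apply Real.exp_le_exp.2
    nlinarith

/-- Lower bound of `κ` from the formula. -/
theorem TT_lower {κ b c₁ ω CΨ A T Mi x k s ε : ℝ} {d : ℕ} (hA : 0 < A) (hT : 0 < T)
    (hx : x = s - Real.log T) (hω : 4 * ω ≤ c₁) (hc₁ : 0 < c₁)
    (hform : |κ - A * T ^ d * (b * Real.exp (d * x) + Mi * k)| ≤
      2 * (ω * A * Real.exp (d * s)) + 2 * (CΨ * Real.exp s))
    (hpos : c₁ * Real.exp (d * x) ≤ b * Real.exp (d * x) + Mi * k)
    (hAε : Real.exp (-(ε * s)) ≤ A) :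
    c₁ / 2 * Real.exp ((d - ε) * s) - 2 * (CΨ * Real.exp s) ≤ κ := by
  have h1 := (abs_le.1 hform).1
  have hTd : T ^ d * Real.exp (d * x) = Real.exp (d * s) := by
    rw [hx, mul_sub, Real.exp_sub, show (d : ℝ) * Real.log T = Real.log (T ^ d) by
      rw [Real.log_pow], Real.exp_log (by positivity)]
    field_simp
  have h2 : c₁ * (A * Real.exp (d * s)) ≤ A * T ^ d * (b * Real.exp (d * x) + Mi * k) := by
    calc c₁ * (A * Real.exp (d * s)) = A * T ^ d * (c₁ * Real.exp (d * x)) := by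
          rw [← hTd]; ring
      _ ≤ _ := mul_le_mul_of_nonneg_left hpos (by positivity)
  have h3 : Real.exp ((d - ε) * s) ≤ A * Real.exp (d * s) := by
    calc Real.exp ((d - ε) * s) = Real.exp (-(ε * s)) * Real.exp (d * s) := by
          rw [← Real.exp_add]; congr 1; ring
      _ ≤ _ := mul_le_mul_of_nonneg_right hAε (Real.exp_pos _).le
  have h4 : 0 ≤ A * Real.exp (d * s) := by positivity
  nlinarith

/-- Upper bound of `κ` from the formula. -/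
theorem TT_upper {κ b c₁ ω CΨ A T Mi x k s ε : ℝ} {d : ℕ} (hA : 0 < A) (hT : 0 < T)
    (hx : x = s - Real.log T) (hω : 4 * ω ≤ c₁) (hc₁ : 0 < c₁)
    (hform : |κ - A * T ^ d * (b * Real.exp (d * x) + Mi * k)| ≤
      2 * (ω * A * Real.exp (d * s)) + 2 * (CΨ * Real.exp s))
    (hneg : b * Real.exp (d * x) + Mi * k ≤ -(c₁ * Real.exp (d * x)))
    (hAε : Real.exp (-(ε * s)) ≤ A) :
    κ ≤ -(c₁ / 2 * Real.exp ((d - ε) * s)) + 2 * (CΨ * Real.exp s) := by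
  have h1 := (abs_le.1 hform).2
  have hTd : T ^ d * Real.exp (d * x) = Real.exp (d * s) := by
    rw [hx, mul_sub, Real.exp_sub, show (d : ℝ) * Real.log T = Real.log (T ^ d) by
      rw [Real.log_pow], Real.exp_log (by positivity)]
    field_simp
  have h2 : A * T ^ d * (b * Real.exp (d * x) + Mi * k) ≤ -(c₁ * (A * Real.exp (d * s))) := by
    calc A * T ^ d * (b * Real.exp (d * x) + Mi * k) ≤
        A * T ^ d * (-(c₁ * Real.exp (d * x))) :=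
          mul_le_mul_of_nonneg_left hneg (by positivity)
      _ = -(c₁ * (A * Real.exp (d * s))) := by rw [← hTd]; ring
  have h3 : Real.exp ((d - ε) * s) ≤ A * Real.exp (d * s) := by
    calc Real.exp ((d - ε) * s) = Real.exp (-(ε * s)) * Real.exp (d * s) := by
          rw [← Real.exp_add]; congr 1; ring
      _ ≤ _ := mul_le_mul_of_nonneg_right hAε (Real.exp_pos _).le
  have h4 : 0 ≤ A * Real.exp (d * s) := by positivity
  nlinarith

/-- A small `X` gives a positive coefficient. -/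
theorem TT_pos_of_small {a N η p : ℝ} {X : ℂ} (hN : 0 < N) (hp : p = 1 ∨ p = 2)
    (hη : η ≤ 1 / 16) (hη0 : 0 < η) (hX : ‖X‖ ≤ 1 / 8)
    (h : |a / N - (1 + p * X.re)| ≤ η * (1 + ‖X‖)) : 0 < a := by
  have h1 := (abs_le.1 h).1
  have h2 := abs_le.1 (abs_re_le_norm X)
  have h3 : 0 ≤ ‖X‖ := norm_nonneg _
  have h4 : 0 < a / N := by
    rcases hp with rfl | rfl <;> nlinarith
  exact (div_pos_iff_of_pos_right hN).1 h4

theorem TT_pk (θ : ℝ) : pk θ = 1 ∨ pk θ = 2 := by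
  unfold pk; split_ifs <;> simp

/-- The ratio inequality after normalisation. -/
theorem TT_norm_le {x y : ℝ} (h : Real.log x ≤ y) (hx : 0 ≤ x) : x ≤ Real.exp y := by
  rcases hx.eq_or_lt with rfl | hx
  · exact (Real.exp_pos _).le
  · rw [← Real.exp_log hx]; exact Real.exp_le_exp.2 h


theorem exists_touch (ρ H σ₁ H₁ θ₀ τ δ₀ : ℝ) (d : ℕ) (E : Set ℝ) (Ψ KΨ : ℂ → ℂ)
    (hB : Base ρ H σ₁ H₁ θ₀ τ δ₀ d E Ψ KΨ) (hd : 2 ≤ d) (hdρ : (d : ℝ) < ρ)
    (hH : 0 < H) (hσ₁ : 0 < σ₁) (hσρ : σ₁ < ρ) (hH₁ : 0 ≤ H₁) (hθ : Real.pi / 2 < θ₀)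
    (hθ' : θ₀ ≤ Real.pi) (hτ : 0 < τ) (hτ1 : 32 * (ρ + 1) * τ ≤ 1)
    (hτ2 : θ₀ < Real.pi → θ₀ + 2 * τ < Real.pi)
    (hper : exp (ρ * θ₀ * I) = 1) (hper₁ : H₁ = 0 ∨ exp (σ₁ * θ₀ * I) = 1)
    (hb : Real.cos (d * θ₀) < 1) (hE : E ⊆ Icc 0 Real.pi)
    (hpos : ∀ m, 0 < rco (fun z => Ψ z * exp (z ^ d)) m)
    (ψ Ma t' c₃ x₀ : ℝ) (hψ : Real.pi / 2 < ψ) (hψ' : ψ ≤ Real.pi) (hMa : 0 < Ma)
    (hQ : 0 < 1 + qc d ψ * Ma) (ht' : 0 < t')
    (hA0 : 2 * τ ≤ ψ - t') (hA1 : Icc (θ₀ - 2 * τ) (θ₀ + 2 * τ) ⊆ Ang ψ t')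
    (hEA : E ⊆ Ang ψ t') (hc₃ : 0 < c₃)
    (hE3 : ∀ θ ∈ E, ∀ x M : ℝ, 0 < M → M ≤ Ma →
      c₃ * Real.exp (d * x) ≤ (1 - Real.cos (d * θ)) * Real.exp (d * x) + M * kap d ψ θ x)
    (hK1 : (1 - Real.cos (d * θ₀)) * Real.exp (d * x₀) + Ma * kap d ψ θ₀ x₀ < 0) :
    ∃ ε₁ Mb : ℝ, 0 < ε₁ ∧ CC d ψ Mb Ma ∧ ∀ ε tmin : ℝ, 0 < ε → ε ≤ ε₁ →
    ∃ (t C c C₀ C' : ℝ) (μ : ℕ → ℕ) (T A M : ℕ → ℝ) (m₀ : ℕ) (s : ℕ → ℝ) (w₁ : ℕ → ℂ),
      tmin ≤ t ∧ 2 ≤ t ∧ 0 < C' ∧ Cfg d (qc d ψ) Mb Ma t μ T A M ∧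
      (⟨ρ, H, σ₁, H₁, θ₀, τ, d + ε, C, d - ε, c, C₀⟩ : CP).Ok ∧
      Cls ⟨ρ, H, σ₁, H₁, θ₀, τ, d + ε, C, d - ε, c, C₀⟩ (fam Ψ d ψ μ T) (Kfam KΨ d ψ μ T) ∧
      Sad ⟨ρ, H, σ₁, H₁, θ₀, τ, d + ε, C, d - ε, c, C₀⟩ (Kfam KΨ d ψ μ T) m₀ C' s w₁ ∧
      (∀ m, 0 ≤ rco (fam Ψ d ψ μ T) m) ∧ (∃ᶠ m in atTop, rco (fam Ψ d ψ μ T) m = 0) ∧
      (∃ᶠ m in atTop, ‖Xof (Kfam KΨ d ψ μ T) s w₁ m‖ ≤ 1 / 4) ∧
      (∀ z, fam Ψ d ψ μ T z = 0 ↔
        Ψ z = 0 ∨ ∃ j, z = T j * exp (ψ * I) ∨ z = T j * exp (-(ψ * I))) := by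
  classical
  set b : ℝ := 1 - Real.cos (d * θ₀) with hb_def
  have hb0 : 0 < b := by linarith
  have hd' : (2 : ℝ) ≤ d := by exact_mod_cast hd
  have h0A : (0 : ℝ) ∈ Ang ψ t' := by
    left; rw [abs_zero]; linarith
  have hθA : θ₀ ∈ Ang ψ t' := hA1 ⟨by linarith, by linarith⟩
  obtain ⟨Ck, hCk, hkap⟩ := kap_bounds d hd ψ t' hψ hψ' ht'
  have hkc := kap_continuous d ψ t' θ₀ hψ hψ' ht' hθA h0A
  set Mb := min Ma (b / (2 * Ck)) with hMb
  have hMb0 : 0 < Mb := lt_min hMa (by positivity)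
  have hMbMa : Mb ≤ Ma := min_le_left _ _
  have hcc : CC d ψ Mb Ma := ⟨hd, hψ, hψ', hMb0, hMbMa, hQ⟩
  have hb1 : ∀ x : ℝ, b / 2 * Real.exp (d * x) ≤ b * Real.exp (d * x) + Mb * kap d ψ θ₀ x := by
    intro x
    have h1 := (abs_le.1 (hkap θ₀ hθA x h0A).2.1).1
    have h2 : Mb * Ck ≤ b / 2 := by
      have : Mb ≤ b / (2 * Ck) := min_le_right _ _
      rw [le_div_iff₀ (by positivity)] at this
      linarith
    have h3 := Real.exp_pos (d * x)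
    have h4 : Mb * (-(Ck * Real.exp (d * x))) ≤ Mb * kap d ψ θ₀ x :=
      mul_le_mul_of_nonneg_left h1 hMb0.le
    nlinarith
  obtain ⟨c₁, η₁, hc₁, hη₁, hneg⟩ : ∃ c₁ η₁ : ℝ, 0 < c₁ ∧ 0 < η₁ ∧ ∀ x, |x - x₀| ≤ η₁ →
      b * Real.exp (d * x) + Ma * kap d ψ θ₀ x ≤ -(c₁ * Real.exp (d * x)) := by
    set F : ℝ → ℝ := fun x => b + Ma * kap d ψ θ₀ x * Real.exp (-(d * x)) with hF
    have hFc : Continuous F := by
      apply continuous_const.add
      apply (continuous_const.mul hkc).mul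
      fun_prop
    have hFx : F x₀ < 0 := by
      have : F x₀ * Real.exp (d * x₀) < 0 := by
        have e : F x₀ * Real.exp (d * x₀) = b * Real.exp (d * x₀) + Ma * kap d ψ θ₀ x₀ := by
          simp only [hF]
          rw [add_mul, mul_assoc (Ma * kap d ψ θ₀ x₀), ← Real.exp_add]
          simp
        rw [e]; exact hK1
      by_contra hcon
      push Not at hcon
      have := mul_nonneg hcon (Real.exp_pos (d * x₀)).le
      linarith
    have hev : ∀ᶠ x in 𝓝 x₀, F x < F x₀ / 2 :=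
      hFc.continuousAt.eventually_lt_const (by linarith)
    obtain ⟨δ, hδ, hball⟩ := Metric.eventually_nhds_iff.1 hev
    refine ⟨-(F x₀ / 2), δ / 2, by linarith, by linarith, fun x hx => ?_⟩
    have h1 : F x < F x₀ / 2 := hball (by rw [Real.dist_eq]; linarith)
    have h2 : F x * Real.exp (d * x) = b * Real.exp (d * x) + Ma * kap d ψ θ₀ x := by
      simp only [hF]
      rw [add_mul, mul_assoc (Ma * kap d ψ θ₀ x), ← Real.exp_add]
      simp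
    rw [← h2]
    have h3 := Real.exp_pos (d * x)
    nlinarith
  obtain ⟨CΨ, hCΨ⟩ := hB.asy
  obtain ⟨ε₀, hε₀, hfc⟩ := fam_cls ρ H σ₁ H₁ θ₀ τ δ₀ d E Ψ KΨ hB ψ Mb Ma t' c₃ hcc hdρ ht' hτ hA0
    hA1 hEA hE hc₃ (fun θ hθ x M h1 h2 => hE3 θ hθ x M (by linarith) h2)
  obtain ⟨ηn, R, hηn, hR, hnegX⟩ := neg_of_large θ₀ hθ hθ'
  refine ⟨min ε₀ (min ((ρ - d) / 8) (1 / 8)), Mb,
    lt_min hε₀ (lt_min (by linarith) (by norm_num)), hcc, fun ε tmin hε hε1 => ?_⟩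
  have hεa : ε ≤ ε₀ := hε1.trans (min_le_left _ _)
  have hεb : ε ≤ (ρ - d) / 8 := hε1.trans ((min_le_right _ _).trans (min_le_left _ _))
  have hεc : ε ≤ 1 / 8 := hε1.trans ((min_le_right _ _).trans (min_le_right _ _))
  obtain ⟨t₁, C, c, C₀, ht₁, hC, hc, hcls⟩ := hfc ε hε hεa
  set P : CP := ⟨ρ, H, σ₁, H₁, θ₀, τ, d + ε, C, d - ε, c, C₀⟩ with hPdef
  have hP : P.Ok := by
    constructor <;> simp only [hPdef] <;> first | assumption | linarith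
  have hρ1 : 1 < ρ := by linarith
  set ω : ℝ := min (c₁ / 4) (b / 8) with hω_def
  have hω : 0 < ω := lt_min (by linarith) (by linarith)
  have hω1 : 4 * ω ≤ c₁ := by
    have : ω ≤ c₁ / 4 := min_le_left _ _
    linarith
  have hω2 : 4 * ω ≤ b / 2 := by
    have : ω ≤ b / 8 := min_le_right _ _
    linarith
  set η : ℝ := min ηn (1 / 16) with hη_def
  have hη : 0 < η := lt_min hηn (by norm_num)
  set ηl : ℝ := min (1 / 16) (η₁ / 2) with hηl_def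
  have hηl : 0 < ηl := lt_min (by norm_num) (by linarith)
  obtain ⟨C', C'', hC', hC'', hpack⟩ := TT_pack P hP η ηl hη hηl
  -- choice of S₀
  have hp0 : 0 < (d : ℝ) - ε := by linarith
  obtain ⟨S₁, hS₁⟩ := TT_exp_le3 (p := (d : ℝ) - ε) (q₁ := 2 * (d + ε) - ρ) (q₂ := 1)
    (c := b / 4) (C₁ := C'') (C₂ := 2 * CΨ) (R := Real.log 8) (by linarith) hp0 (by linarith)
    (by linarith)
  obtain ⟨S₂, hS₂⟩ := TT_exp_le3 (p := (d : ℝ) - ε) (q₁ := 2 * (d + ε) - ρ) (q₂ := 1)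
    (c := c₁ / 2) (C₁ := C'') (C₂ := 2 * CΨ) (R := Real.log R) (by linarith) hp0 (by linarith)
    (by linarith)
  obtain ⟨m₀', hm₀'⟩ := hpack (max 0 (max S₁ S₂))
  set m₀ : ℕ := max m₀' 1 with hm₀_def
  have hm₀1 : 1 ≤ m₀ := le_max_right _ _
  obtain ⟨t₂, ht₂, hgrow⟩ := cfg_growth d ψ Mb Ma ε hcc hε
  obtain ⟨t₃, ht₃, hblock⟩ := block_formula d ψ Mb Ma ω t' hcc hω ht'
  obtain ⟨t₄, hcont⟩ := rco_fam_continuousOn d ψ Mb Ma hcc
  obtain ⟨t₅, hsmall⟩ := rco_fam_small d ψ Mb Ma hcc Ψ hB.ent m₀ (fun m _ => hpos m)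
  obtain ⟨t₆, C₆, ht₆, hC₆, hff⟩ := fam_facts d ψ Mb Ma ε hcc hε
  obtain ⟨T₁, hT₁, hm1⟩ := TT_m x₀ hH hρ1 hηl m₀
  set x₂ : ℝ := Real.log (b / (2 * (Ma * Ck))) - 1 with hx₂
  obtain ⟨T₂, hT₂, hm2⟩ := TT_m x₂ hH hρ1 hηl m₀
  obtain ⟨t, ht⟩ : ∃ t : ℝ, t₁ ≤ t ∧ t₂ ≤ t ∧ t₃ ≤ t ∧ t₄ ≤ t ∧ t₅ ≤ t ∧ t₆ ≤ t ∧ T₁ ≤ t ∧
      T₂ ≤ t ∧ tmin ≤ t := by
    refine ⟨max t₁ (max t₂ (max t₃ (max t₄ (max t₅ (max t₆ (max T₁ (max T₂ tmin))))))), ?_⟩
    simp only [le_max_iff, le_refl, true_or, or_true, and_self]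
  obtain ⟨h1, h2, h3, h4, h5, h6, h7, h8', h9'⟩ := ht
  obtain ⟨μ, lo, hi, hmu, hlo0, h8⟩ := exists_mu d ψ Mb Ma t hcc
  -- facts for one configuration
  have hcfg : ∀ M ∈ Box Mb Ma, Cfg d (qc d ψ) Mb Ma t μ (Tof d (qc d ψ) μ M) (Aof (qc d ψ) M) M :=
    fun M hM => (hmu M hM).1
  have hTt : ∀ M ∈ Box Mb Ma, ∀ j, t ≤ Tof d (qc d ψ) μ M j := by
    intro M hM j
    have hc := hcfg M hM
    have h2t : 2 ≤ t := by linarith
    induction j with
    | zero => exact hc.t0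
    | succ j ih =>
      have := hc.sp j
      have h9 : t ^ 8 ≤ Tof d (qc d ψ) μ M j ^ 8 := pow_le_pow_left₀ (by linarith) ih 8
      have h10 : t ≤ t ^ 8 := by
        calc t = t ^ 1 := (pow_one t).symm
          _ ≤ t ^ 8 := pow_le_pow_right₀ (by linarith) (by norm_num)
      linarith
  have hform : ∀ M ∈ Box Mb Ma, ∀ (i : ℕ) (s : ℝ), 0 ≤ s →
      (∀ j, j + 1 = i → 3 / 2 * Real.log (Tof d (qc d ψ) μ M j) ≤ s) →
      s ≤ 2 / 3 * Real.log (Tof d (qc d ψ) μ M (i + 1)) →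
      |((Kfam KΨ d ψ μ (Tof d (qc d ψ) μ M) (s : ℂ)).re -
        (Kfam KΨ d ψ μ (Tof d (qc d ψ) μ M) ((s : ℂ) + θ₀ * I)).re) -
      Aof (qc d ψ) M i * Tof d (qc d ψ) μ M i ^ d *
        (b * Real.exp (d * (s - Real.log (Tof d (qc d ψ) μ M i))) +
        M i * kap d ψ θ₀ (s - Real.log (Tof d (qc d ψ) μ M i)))| ≤
      2 * (ω * Aof (qc d ψ) M i * Real.exp (d * s)) + 2 * (CΨ * Real.exp s) := by
    intro M hM i s hs hz1 hz2
    have hc := hcfg M hM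
    have hTi : 0 < Tof d (qc d ψ) μ M i := by linarith [hTt M hM i]
    have hb1 := hblock t h3 μ _ _ _ hc i (s : ℂ) (by simpa using h0A) (by simpa using hz1)
      (by simpa using hz2)
    have hb2 := hblock t h3 μ _ _ _ hc i ((s : ℂ) + θ₀ * I) (by simpa using hθA)
      (by simpa using hz1) (by simpa using hz2)
    exact TT_kap_formula hτ hCΨ hper hper₁ i s hs hTi (hc.mu i) (by simpa using hb1)
      (by simpa using hb2)
  have hApos : ∀ M ∈ Box Mb Ma, ∀ i, 0 < Aof (qc d ψ) M i :=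
    fun M hM => (hgrow t h2 μ _ _ _ (hcfg M hM)).1
  have hAε : ∀ M ∈ Box Mb Ma, ∀ (i : ℕ) (s : ℝ), 0 ≤ s →
      (∀ j, j + 1 = i → 3 / 2 * Real.log (Tof d (qc d ψ) μ M j) ≤ s) →
      Real.exp (-(ε * s)) ≤ Aof (qc d ψ) M i := by
    intro M hM i s hs hz
    exact TT_A (hcfg M hM) hε (fun j => by linarith [hTt M hM j])
      (hgrow t h2 μ _ _ _ (hcfg M hM)).2.2.2.2 hs hz
  have hClsM : ∀ M ∈ Box Mb Ma, Cls P (fam Ψ d ψ μ (Tof d (qc d ψ) μ M))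
      (Kfam KΨ d ψ μ (Tof d (qc d ψ) μ M)) := fun M hM => hcls t h1 μ _ _ _ (hcfg M hM)
  -- zones
  have hzone : ∀ M ∈ Box Mb Ma, ∀ (m i : ℕ) (sm : ℝ), m₀ ≤ m →
      |sm - Real.log (m / (H * ρ)) / ρ| ≤ ηl →
      (∀ j, j + 1 = i → H * ρ * (lo i) ^ (ρ / 2) ≤ m) →
      (m : ℝ) ≤ H * ρ * (lo (i + 1)) ^ (ρ / 2) →
      (∀ j, j + 1 = i → 3 / 2 * Real.log (Tof d (qc d ψ) μ M j) ≤ sm) ∧
        sm ≤ 2 / 3 * Real.log (Tof d (qc d ψ) μ M (i + 1)) := by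
    intro M hM m i sm hm hs hl hu
    exact TT_zone hH hρ1 hlo0 h8 (hmu M hM).2 (by omega)
      (hs.trans (min_le_left _ _)) hl hu
  have hlo2 : ∀ j, 0 < lo j := by
    intro j
    cases j with
    | zero => linarith
    | succ j =>
      have hbox : (fun _ => Mb : ℕ → ℝ) ∈ Box Mb Ma := fun _ => ⟨le_refl _, hMbMa⟩
      have h9 := (hmu _ hbox).2 j
      have h10 := hTt _ hbox j
      have h11 : 0 < hi j := by linarith
      have h12 : 0 < hi j ^ 8 := by positivity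
      linarith [h8 j]
  -- small X
  have hsmallX : ∀ M ∈ Box Mb Ma, ∀ (s : ℕ → ℝ) (w₁ : ℕ → ℂ) (m i : ℕ), m₀ ≤ m →
      max 0 (max S₁ S₂) ≤ s m → |s m - Real.log (m / (H * ρ)) / ρ| ≤ ηl →
      |Real.log ‖Xof (Kfam KΨ d ψ μ (Tof d (qc d ψ) μ M)) s w₁ m‖ +
        ((Kfam KΨ d ψ μ (Tof d (qc d ψ) μ M) (s m)).re -
          (Kfam KΨ d ψ μ (Tof d (qc d ψ) μ M) (s m + θ₀ * I)).re)| ≤
        C'' * Real.exp ((2 * (d + ε) - ρ) * s m) →
      (∀ j, j + 1 = i → H * ρ * (lo i) ^ (ρ / 2) ≤ m) →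
      (m : ℝ) ≤ H * ρ * (lo (i + 1)) ^ (ρ / 2) →
      b / 2 * Real.exp (d * (s m - Real.log (Tof d (qc d ψ) μ M i))) ≤
        b * Real.exp (d * (s m - Real.log (Tof d (qc d ψ) μ M i))) +
        M i * kap d ψ θ₀ (s m - Real.log (Tof d (qc d ψ) μ M i)) →
      ‖Xof (Kfam KΨ d ψ μ (Tof d (qc d ψ) μ M)) s w₁ m‖ ≤ 1 / 8 := by
    intro M hM s w₁ m i hm hS hloc hmod hl hu hposx
    have hz := hzone M hM m i (s m) hm hloc hl hu
    have hs0 : 0 ≤ s m := le_trans (le_max_left _ _) hS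
    have hS1 : S₁ ≤ s m := (le_trans (le_max_left _ _) (le_max_right _ _)).trans hS
    have hf := hform M hM i (s m) hs0 hz.1 hz.2
    have hκ := TT_lower (hApos M hM i) (show 0 < Tof d (qc d ψ) μ M i by linarith [hTt M hM i]) rfl
      hω2 (by linarith) hf hposx (hAε M hM i (s m) hs0 hz.1)
    have h3 := hS₁ (s m) hS1
    rw [one_mul] at h3
    have h4 := (abs_le.1 hmod).2
    have h5 : Real.log ‖Xof (Kfam KΨ d ψ μ (Tof d (qc d ψ) μ M)) s w₁ m‖ ≤ -Real.log 8 := by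
      linarith
    have h6 := TT_norm_le h5 (norm_nonneg _)
    rw [Real.exp_neg, Real.exp_log (by norm_num)] at h6
    linarith
  -- large X
  have hlargeX : ∀ M ∈ Box Mb Ma, ∀ (s : ℕ → ℝ) (w₁ : ℕ → ℂ) (m i : ℕ), m₀ ≤ m →
      max 0 (max S₁ S₂) ≤ s m → |s m - Real.log (m / (H * ρ)) / ρ| ≤ ηl →
      |Real.log ‖Xof (Kfam KΨ d ψ μ (Tof d (qc d ψ) μ M)) s w₁ m‖ +
        ((Kfam KΨ d ψ μ (Tof d (qc d ψ) μ M) (s m)).re -
          (Kfam KΨ d ψ μ (Tof d (qc d ψ) μ M) (s m + θ₀ * I)).re)| ≤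
        C'' * Real.exp ((2 * (d + ε) - ρ) * s m) →
      (∀ j, j + 1 = i → H * ρ * (lo i) ^ (ρ / 2) ≤ m) →
      (m : ℝ) ≤ H * ρ * (lo (i + 1)) ^ (ρ / 2) →
      b * Real.exp (d * (s m - Real.log (Tof d (qc d ψ) μ M i))) +
        M i * kap d ψ θ₀ (s m - Real.log (Tof d (qc d ψ) μ M i)) ≤
        -(c₁ * Real.exp (d * (s m - Real.log (Tof d (qc d ψ) μ M i)))) →
      R ≤ ‖Xof (Kfam KΨ d ψ μ (Tof d (qc d ψ) μ M)) s w₁ m‖ := by
    intro M hM s w₁ m i hm hS hloc hmod hl hu hnegx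
    have hz := hzone M hM m i (s m) hm hloc hl hu
    have hs0 : 0 ≤ s m := le_trans (le_max_left _ _) hS
    have hS2 : S₂ ≤ s m := (le_trans (le_max_right _ _) (le_max_right _ _)).trans hS
    have hf := hform M hM i (s m) hs0 hz.1 hz.2
    have hκ := TT_upper (hApos M hM i) (show 0 < Tof d (qc d ψ) μ M i by linarith [hTt M hM i]) rfl
      hω1 hc₁ hf hnegx (hAε M hM i (s m) hs0 hz.1)
    have h3 := hS₂ (s m) hS2
    rw [one_mul] at h3
    have h4 := (abs_le.1 hmod).1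
    have hXpos : 0 < ‖Xof (Kfam KΨ d ψ μ (Tof d (qc d ψ) μ M)) s w₁ m‖ := by
      unfold Xof; exact norm_pos_iff.2 (Complex.exp_ne_zero _)
    have h5 : Real.log R ≤ Real.log ‖Xof (Kfam KΨ d ψ μ (Tof d (qc d ψ) μ M)) s w₁ m‖ := by
      linarith
    exact (Real.log_le_log_iff hR hXpos).1 h5
  -- blocks
  set β : ℕ → ℕ := fun i => if i = 0 then m₀ else ⌈H * ρ * (lo i) ^ (ρ / 2)⌉₊ with hβ
  have hβ0 : β 0 = m₀ := by simp [hβ]
  have hβs : ∀ i, β (i + 1) = ⌈H * ρ * (lo (i + 1)) ^ (ρ / 2)⌉₊ := by intro i; simp [hβ]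
  have hmem : ∀ (i : ℕ) (T' : ℝ), lo i ≤ T' → T' ≤ hi i → ∀ m : ℕ, m₀ ≤ m →
      H * ρ * T' ^ (ρ / 2) ≤ m → (m : ℝ) + 4 ≤ H * ρ * (T' ^ 8) ^ (ρ / 2) →
      β i ≤ m ∧ m + 3 < β (i + 1) := by
    intro i T' h1 h2 m hm hm1 hm2
    have hT' : 0 < T' := (hlo2 i).trans_le h1
    constructor
    · cases i with
      | zero => rw [hβ0]; exact hm
      | succ j =>
        rw [hβs, Nat.ceil_le]
        refine le_trans ?_ hm1
        apply mul_le_mul_of_nonneg_left _ (by positivity)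
        exact Real.rpow_le_rpow (hlo2 _).le h1 (by linarith)
    · have h3 : (T' ^ 8) ^ (ρ / 2) ≤ (lo (i + 1)) ^ (ρ / 2) := by
        apply Real.rpow_le_rpow (by positivity) _ (by linarith)
        exact (pow_le_pow_left₀ hT'.le h2 8).trans (h8 i)
      have h4 : (m : ℝ) + 4 ≤ H * ρ * (lo (i + 1)) ^ (ρ / 2) :=
        hm2.trans (mul_le_mul_of_nonneg_left h3 (by positivity))
      rw [hβs]
      rw [Nat.lt_ceil]
      push_cast
      linarith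
  have hβlt : ∀ i, m₀ ≤ β i ∧ β i < β (i + 1) := by
    intro i
    have hbox : (fun _ => Mb : ℕ → ℝ) ∈ Box Mb Ma := fun _ => ⟨le_refl _, hMbMa⟩
    have key : ∀ i, β i < β (i + 1) ∧ m₀ ≤ β (i + 1) := by
      intro i
      have h9 := (hmu _ hbox).2 i
      have h10 := hTt _ hbox i
      obtain ⟨m, hm1', hm2', hm3', -⟩ := hm1 _ (h7.trans h10)
      obtain ⟨h11, h12⟩ := hmem i _ h9.1 h9.2 m hm1' hm2' hm3'
      constructor <;> omega
    refine ⟨?_, (key i).1⟩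
    cases i with
    | zero => rw [hβ0]
    | succ j => exact (key j).2
  have hβmono : StrictMono β := strictMono_nat_of_lt_succ fun i => (hβlt i).2
  have hβl : ∀ i m, β i ≤ m → m₀ ≤ m ∧ (∀ j, j + 1 = i → H * ρ * (lo i) ^ (ρ / 2) ≤ m) := by
    intro i m him
    refine ⟨(hβlt i).1.trans him, ?_⟩
    intro j hj
    subst hj
    rw [hβs, Nat.ceil_le] at him
    exact him
  have hβu : ∀ i m, m < β (i + 1) → (m : ℝ) ≤ H * ρ * (lo (i + 1)) ^ (ρ / 2) := by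
    intro i m him
    rw [hβs, Nat.lt_ceil] at him
    exact him.le
  -- the minimum over a block
  have hne : ∀ i, (Finset.Ico (β i) (β (i + 1))).Nonempty := fun i =>
    Finset.nonempty_Ico.2 (hβlt i).2
  set g : ℕ → (ℕ → ℝ) → ℝ := fun i M =>
    (Finset.Ico (β i) (β (i + 1))).inf' (hne i)
      (fun m => rco (fam Ψ d ψ μ (Tof d (qc d ψ) μ M)) m) with hg
  have hgc : ∀ i, ContinuousOn (g i) {M : ℕ → ℝ | ∀ j, M j ∈ Icc Mb Ma} := by
    intro i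
    apply ContinuousOn.finset_inf'_apply
    intro m _
    exact hcont t h4 μ hcfg Ψ hB.ent m
  have hg0 : ∀ i M, (∀ j, M j ∈ Icc Mb Ma) → M i = Mb → 0 ≤ g i M := by
    intro i M hM hMi
    obtain ⟨s, w₁, hsad, hall⟩ := hm₀' _ _ (hClsM M hM)
    apply Finset.le_inf'
    intro m hm
    rw [Finset.mem_Ico] at hm
    obtain ⟨hm1', hl⟩ := hβl i m hm.1
    have hu := hβu i m hm.2
    obtain ⟨a1, a2, a3, a4, a5, a6, a7⟩ := hall m ((le_max_left _ _).trans hm1')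
    have hX := hsmallX M hM s w₁ m i hm1' a1 a2 a7 hl hu (by rw [hMi]; exact hb1 _)
    exact (TT_pos_of_small a3 (TT_pk _) (min_le_right _ _) hη hX a4).le
  have hnegcoef : ∀ i M, (∀ j, M j ∈ Icc Mb Ma) → M i = Ma → g i M ≤ 0 := by
    intro i M hM hMi
    obtain ⟨s, w₁, hsad, hall⟩ := hm₀' _ _ (hClsM M hM)
    have h9 := (hmu M hM).2 i
    have h10 := hTt M hM i
    obtain ⟨m, hm1', hm2', hm3', hm4'⟩ := hm1 _ (h7.trans h10)
    obtain ⟨h11, h12⟩ := hmem i _ h9.1 h9.2 m hm1' hm2' hm3'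
    obtain ⟨-, hl⟩ := hβl i m h11
    have hu := hβu i m (by omega)
    obtain ⟨a1, a2, a3, a4, a5, a6, a7⟩ := hall m ((le_max_left _ _).trans hm1')
    have hx : |s m - Real.log (Tof d (qc d ψ) μ M i) - x₀| ≤ η₁ := by
      have e1 : ηl ≤ η₁ / 2 := min_le_right _ _
      have e2 := abs_le.1 a2
      have e3 := abs_le.1 hm4'
      rw [abs_le]
      constructor
      · linarith [e2.1, e3.1]
      · linarith [e2.2, e3.2]
    have hX := hlargeX M hM s w₁ m i hm1' a1 a2 a7 hl hu (by rw [hMi]; exact hneg _ hx)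
    obtain ⟨l, hl3, hlneg⟩ := hnegX
      (fun m => rco (fam Ψ d ψ μ (Tof d (qc d ψ) μ M)) m /
        Nof P (Kfam KΨ d ψ μ (Tof d (qc d ψ) μ M)) s m)
      (fun m => Xof (Kfam KΨ d ψ μ (Tof d (qc d ψ) μ M)) s w₁ m) m₀
      (fun m hm => ((hall m ((le_max_left _ _).trans hm)).2.2.2.1).trans
        (mul_le_mul_of_nonneg_right (min_le_left _ _) (by positivity)))
      (fun m hm hpi => ((hall m ((le_max_left _ _).trans hm)).2.2.2.2.1 hpi).trans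
        (mul_le_mul_of_nonneg_right (min_le_left _ _) (by positivity)))
      (fun m hm => ((hall m ((le_max_left _ _).trans hm)).2.2.2.2.2.1).trans
        (mul_le_mul_of_nonneg_right (min_le_left _ _) (by positivity))) m hm1' hX
    have hN := (hall (m + l) (by omega)).2.2.1
    have hco : rco (fam Ψ d ψ μ (Tof d (qc d ψ) μ M)) (m + l) < 0 := by
      by_contra hcon
      push Not at hcon
      exact absurd hlneg (not_lt.2 (div_nonneg hcon hN.le))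
    have hin : m + l ∈ Finset.Ico (β i) (β (i + 1)) := by
      rw [Finset.mem_Ico]; omega
    exact (Finset.inf'_le _ hin).trans hco.le
  obtain ⟨M, hM, hgM⟩ := pm_limit Mb Ma hMbMa g hgc hg0 hnegcoef
  obtain ⟨s, w₁, hsad, hall⟩ := hm₀' _ _ (hClsM M hM)
  have hblk : ∀ m, m₀ ≤ m → ∃ i, β i ≤ m ∧ m < β (i + 1) := by
    intro m hm
    have hex : ∃ i, m < β (i + 1) := ⟨m, by
      have := hβmono.id_le (m + 1)
      simp only [id] at this
      omega⟩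
    refine ⟨Nat.find hex, ?_, Nat.find_spec hex⟩
    rcases Nat.eq_zero_or_pos (Nat.find hex) with h0 | h0
    · rw [h0, hβ0]; exact hm
    · obtain ⟨j, hj⟩ := Nat.exists_eq_add_of_lt h0
      rw [zero_add] at hj
      have := Nat.find_min hex (m := j) (by omega)
      rw [hj]
      omega
  have hnonneg : ∀ m, 0 ≤ rco (fam Ψ d ψ μ (Tof d (qc d ψ) μ M)) m := by
    intro m
    rcases lt_or_ge m m₀ with hm | hm
    · exact (hsmall t h5 μ _ _ _ (hcfg M hM) m hm).le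
    · obtain ⟨i, hi1, hi2⟩ := hblk m hm
      rw [← hgM i]
      exact Finset.inf'_le _ (Finset.mem_Ico.2 ⟨hi1, hi2⟩)
  have hfreq : ∃ᶠ m in atTop, rco (fam Ψ d ψ μ (Tof d (qc d ψ) μ M)) m = 0 := by
    rw [Filter.frequently_atTop]
    intro a
    obtain ⟨m, hm, hme⟩ := Finset.exists_mem_eq_inf' (hne a)
      (fun m => rco (fam Ψ d ψ μ (Tof d (qc d ψ) μ M)) m)
    rw [Finset.mem_Ico] at hm
    refine ⟨m, ?_, ?_⟩
    · have := hβmono.id_le a
      simp only [id] at this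
      omega
    · have := hgM a
      simp only [hg] at this
      rw [← hme, this]
  have hquiet : ∃ᶠ m in atTop, ‖Xof (Kfam KΨ d ψ μ (Tof d (qc d ψ) μ M)) s w₁ m‖ ≤ 1 / 4 := by
    rw [Filter.frequently_atTop]
    intro i
    have h9 := (hmu M hM).2 i
    have h10 := hTt M hM i
    obtain ⟨m, hm1', hm2', hm3', hm4'⟩ := hm2 _ (h8'.trans h10)
    obtain ⟨h11, h12⟩ := hmem i _ h9.1 h9.2 m hm1' hm2' hm3'
    obtain ⟨-, hl⟩ := hβl i m h11
    have hu := hβu i m (by omega)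
    obtain ⟨a1, a2, a3, a4, a5, a6, a7⟩ := hall m ((le_max_left _ _).trans hm1')
    refine ⟨m, ?_, ?_⟩
    · have := hβmono.id_le i
      simp only [id] at this
      omega
    · have hx : s m - Real.log (Tof d (qc d ψ) μ M i) ≤ Real.log (b / (2 * (Ma * Ck))) := by
        have e1 : ηl ≤ 1 / 16 := min_le_left _ _
        have e2 := abs_le.1 a2
        have e3 := abs_le.1 hm4'
        linarith [e2.2, e3.2]
      set x := s m - Real.log (Tof d (qc d ψ) μ M i) with hxdef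
      have hex : Real.exp x ≤ b / (2 * (Ma * Ck)) := by
        calc Real.exp x ≤ Real.exp (Real.log (b / (2 * (Ma * Ck)))) := Real.exp_le_exp.2 hx
          _ = _ := Real.exp_log (by positivity)
      have hk1 := (abs_le.1 (hkap θ₀ hθA x h0A).1).1
      have hMi : 0 < M i ∧ M i ≤ Ma := ⟨hMb0.trans_le (hM i).1, (hM i).2⟩
      have hX := hsmallX M hM s w₁ m i hm1' a1 a2 a7 hl hu (by
        rw [← hxdef]
        have e4 : Real.exp ((d + 1) * x) = Real.exp x * Real.exp (d * x) := by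
          rw [← Real.exp_add]; congr 1; ring
        rw [e4] at hk1
        have e5 := Real.exp_pos (d * x)
        have e6 : M i * (Ck * (Real.exp x * Real.exp (d * x))) ≤ b / 2 * Real.exp (d * x) := by
          have e7 : Ma * Ck * Real.exp x ≤ b / 2 := by
            rw [le_div_iff₀ (by positivity)] at hex
            linarith
          calc M i * (Ck * (Real.exp x * Real.exp (d * x))) ≤
              Ma * (Ck * (Real.exp x * Real.exp (d * x))) :=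
                mul_le_mul_of_nonneg_right hMi.2 (by positivity)
            _ = (Ma * Ck * Real.exp x) * Real.exp (d * x) := by ring
            _ ≤ _ := mul_le_mul_of_nonneg_right e7 e5.le
        have e8 : M i * (-(Ck * (Real.exp x * Real.exp (d * x)))) ≤ M i * kap d ψ θ₀ x :=
          mul_le_mul_of_nonneg_left hk1 hMi.1.le
        linarith)
      linarith
  refine ⟨t, C, c, C₀, C', μ, Tof d (qc d ψ) μ M, Aof (qc d ψ) M, M, m₀, s, w₁, h9',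
    by linarith, hC', hcfg M hM, hP, hClsM M hM, TT_Sad_mono hsad (le_max_left _ _), hnonneg,
    hfreq, hquiet, ?_⟩
  exact (hff t h6 μ _ _ _ (hcfg M hM)).2.1 Ψ

end Pool.Agent.helper74.LG
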